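import Pool.Agent.Lib.MP_0b1f3c_gt.TI.SpecC

/-! Module ASM: from a combinatorial model to a smooth tight immersion. -/

open scoped Manifold ContDiff InnerProductSpace Quaternion

noncomputable section

namespace Pool.Agent.Lib.MP_0b1f3c_gt.TI

theorem specASM (hPSI : SpecPSI) (hCC : SpecCC) (hMTS : SpecMTS) (hHTW : SpecHTW) (hGM : SpecGM)
    (hGT : SpecGT) (hGC : SpecGC) : SpecASM := by
  intro χ ori β hM
  obtain ⟨N, S, hS, hχ, C, G, q, A, hC, hG, hpair, hA, hdet, hori, hsum⟩ := hM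
  obtain ⟨ψ, hψ⟩ := hPSI
  choose c hc hsc using fun i => hCC N S hS (C i) (hC i)
  have h1 := hGM N S hS ψ hψ
  have h2 := hGT N S hS ψ hψ
  have h3 := Filter.eventually_all.2
    (fun i => hHTW N S hS (C i) (hC i) (G i) (q i) (hG i) ψ hψ)
  have h4 : ∀ i j, ∀ᶠ δ in nhdsWithin (0 : ℝ) (Set.Ioi 0), i ≠ j →
      Meets (S.f ψ δ) (c i) (c j) (A i j) := by
    intro i j
    by_cases hij : i = j
    · exact Filter.Eventually.of_forall fun δ h => absurd hij h
    · obtain ⟨ha, hb, hd⟩ := hpair i j hij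
      have := hMTS N S hS (C i) (C j) (hC i) (hC j) ha hb (A i j) hd ψ hψ
      exact this.mono fun δ h _ => h (c i) (c j) (hc i) (hc j)
  have h5 := Filter.eventually_all.2 (fun i => Filter.eventually_all.2 (h4 i))
  obtain ⟨δ, ⟨CS, hman, hsm, himm⟩, htight, h3, h5⟩ := (h1.and (h2.and (h3.and h5))).exists
  obtain ⟨hconn, hcomp⟩ := hGC N S hS
  refine ⟨N, S.T, hS.hcard, hχ, hconn, hcomp, CS, S.f ψ δ, hman, hsm, himm, htight, ?_⟩
  exact ⟨c, q, A, hsc, fun i => h3 i (c i) (hc i) CS hman hsm, fun i j hij => h5 i j hij, hA, hdet,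
    hori, hsum⟩

end Pool.Agent.Lib.MP_0b1f3c_gt.TI
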