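import Pool.Agent.Lib.MP_0b1f3c_gt.TI.SpecG

/-!
# Module ATL: patches give a smooth structure
-/

open scoped Manifold ContDiff InnerProductSpace Topology
open Filter Set

noncomputable section

namespace Pool.Agent.Lib.MP_0b1f3c_gt.TI

namespace ATLM

/-- A patch together with a right inverse of the projection. -/
structure Pt {M : Type} [TopologicalSpace M] (f : M → E3) (p : M) where
  U : Set M
  F : E3 → ℝ
  d : E3
  P : E3
  L : E3 →L[ℝ] E2
  R : E2 →L[ℝ] E3
  hp : p ∈ U
  h : IsPatch f U F d P L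
  hR : ∀ y, L (R y) = y

variable {M : Type} [TopologicalSpace M] {f : M → E3} {p : M}

theorem exists_pt (h : ∃ (U : Set M) (F : E3 → ℝ) (d P : E3) (L : E3 →L[ℝ] E2),
    p ∈ U ∧ IsPatch f U F d P L) : Nonempty (Pt f p) := by
  obtain ⟨U, F, d, P, L, hp, h⟩ := h
  obtain ⟨R, hR⟩ := LinearMap.exists_rightInverse_of_surjective (L : E3 →ₗ[ℝ] E2)
    (LinearMap.range_eq_top.2 h.surj)
  refine ⟨⟨U, F, d, P, L, R.toContinuousLinearMap, hp, h, fun y => ?_⟩⟩
  have := congrArg (fun T : E2 →ₗ[ℝ] E2 => T y) hR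
  simpa using this

namespace Pt

variable (A : Pt f p)

/-- the chart, as a function -/
def φ (x : M) : E2 := A.L (f x - A.P)

/-- its inverse in space -/
def Γ (y : E2) : E3 := A.P + A.R y - A.F (A.P + A.R y) • A.d

theorem smooth_Γ : ContDiff ℝ ∞ A.Γ := by
  have h1 : ContDiff ℝ ∞ (fun y : E2 => A.P + A.R y) := contDiff_const.add A.R.contDiff
  exact h1.sub ((A.h.smooth.comp h1).smul contDiff_const)

theorem L_Γ (y : E2) : A.L (A.Γ y - A.P) = y := by
  have : A.Γ y - A.P = A.R y - A.F (A.P + A.R y) • A.d := by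
    simp only [Γ]; abel
  rw [this, map_sub, map_smul, A.h.Ld, smul_zero, sub_zero, A.hR]

theorem Γ_φ {x : M} (hx : x ∈ A.U) : A.Γ (A.φ x) = f x := by
  have h1 : A.L (f x - A.P - A.R (A.φ x)) = 0 := by
    rw [map_sub, A.hR]; simp [φ]
  obtain ⟨c, hc⟩ := A.h.ker _ h1
  have h2 : f x = (A.P + A.R (A.φ x)) + c • A.d := by
    rw [← hc]; abel
  have h3 := A.h.van x hx
  rw [h2, A.h.trans] at h3
  have h4 : A.F (A.P + A.R (A.φ x)) = -c := by linarith
  rw [Γ, h4, h2]
  module

theorem injOn : Set.InjOn A.φ A.U := by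
  intro x hx y hy h
  have := @A.h.emb.injective ⟨x, hx⟩ ⟨y, hy⟩ h
  exact congrArg Subtype.val this

theorem contOn : ContinuousOn A.φ A.U :=
  continuousOn_iff_continuous_domRestrict.2 A.h.emb.continuous

/-- the chart -/
def chart : OpenPartialHomeomorph M E2 :=
  haveI : Nonempty M := ⟨p⟩
  OpenPartialHomeomorph.ofContinuousOpenRestrict (A.injOn.toPartialEquiv A.φ A.U) A.contOn
    A.h.emb.isOpenMap A.h.op

@[simp] theorem chart_source : A.chart.source = A.U := rfl

theorem chart_apply (x : M) : A.chart x = A.φ x := rfl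

theorem mem_source : p ∈ A.chart.source := A.hp

theorem symm_eq {y : E2} (hy : y ∈ A.chart.target) : f (A.chart.symm y) = A.Γ y := by
  have h1 : A.chart.symm y ∈ A.U := A.chart.map_target hy
  rw [← A.Γ_φ h1]
  congr 1
  exact A.chart.right_inv hy

end Pt

end ATLM

open ATLM

theorem specATL : SpecATL := by
  intro M _ f hf
  let A : ∀ p, Pt f p := fun p => (exists_pt (hf p)).some
  let cs : ChartedSpace E2 M :=
    { atlas := Set.range fun p => (A p).chart
      chartAt := fun p => (A p).chart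
      mem_chart_source := fun p => (A p).mem_source
      chart_mem_atlas := fun p => ⟨p, rfl⟩ }
  have hchart : ∀ p, chartAt E2 p = (A p).chart := fun _ => rfl
  -- local expression of `f`
  have hext : ∀ p : M, (extChartAt (𝓡 2) p : M → E2) = (A p).φ := by
    intro p; ext x i; simp [hchart, Pt.chart_apply]
  have hcont : ∀ p : M, ContinuousAt f p := by
    intro p
    have h1 : ContinuousAt (A p).φ p :=
      (A p).contOn.continuousAt ((A p).h.op.mem_nhds (A p).hp)
    have h2 : ContinuousAt (fun x => (A p).Γ ((A p).φ x)) p :=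
      (A p).smooth_Γ.continuous.continuousAt.comp h1
    refine h2.congr ?_
    filter_upwards [(A p).h.op.mem_nhds (A p).hp] with x hx using (A p).Γ_φ hx
  have hloc : ∀ p : M, (writtenInExtChartAt (𝓡 2) 𝓘(ℝ, E3) p f) =ᶠ[𝓝 ((A p).φ p)] (A p).Γ := by
    intro p
    have h1 : (A p).chart.target ∈ 𝓝 ((A p).φ p) :=
      (A p).chart.open_target.mem_nhds ((A p).chart.map_source (A p).mem_source)
    filter_upwards [h1] with y hy
    have : writtenInExtChartAt (𝓡 2) 𝓘(ℝ, E3) p f y = f ((A p).chart.symm y) := by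
      simp [writtenInExtChartAt, hchart] <;> rfl
    rw [this, (A p).symm_eq hy]
  have hsm : ∀ p : M, ContMDiffAt (𝓡 2) 𝓘(ℝ, E3) ∞ f p := by
    intro p
    rw [contMDiffAt_iff]
    refine ⟨hcont p, ?_⟩
    have h2 : extChartAt (𝓡 2) p p = (A p).φ p := by rw [hext]
    rw [h2]
    refine ContDiffAt.contDiffWithinAt ?_
    exact (A p).smooth_Γ.contDiffAt.congr_of_eventuallyEq (hloc p)
  have hM : IsManifold (𝓡 2) ∞ M := by
    apply isManifold_of_contDiffOn
    rintro e e' ⟨p, rfl⟩ ⟨q, rfl⟩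
    have h1 : ContDiff ℝ ∞ (fun y => (A q).L ((A p).Γ y - (A q).P)) :=
      (A q).L.contDiff.comp ((A p).smooth_Γ.sub contDiff_const)
    refine h1.contDiffOn.congr ?_
    intro y hy
    have hy1 : y ∈ ((A p).chart.symm ≫ₕ (A q).chart).source := by simpa using hy.1
    have hy2 : y ∈ (A p).chart.target := by
      rw [OpenPartialHomeomorph.trans_source] at hy1
      simpa using hy1.1
    have h3 : ((𝓡 2) ∘ ((A p).chart.symm ≫ₕ (A q).chart) ∘ (𝓡 2).symm) y =
        (A q).φ ((A p).chart.symm y) := by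
      simp [Pt.chart_apply]
    rw [h3]
    show (A q).L (f ((A p).chart.symm y) - (A q).P) = _
    rw [(A p).symm_eq hy2]
  refine ⟨cs, hM, hsm, ?_⟩
  intro p
  have hd : MDifferentiableAt (𝓡 2) 𝓘(ℝ, E3) f p := (hsm p).mdifferentiableAt (by simp)
  have h1 : mfderiv (𝓡 2) 𝓘(ℝ, E3) f p = fderiv ℝ (A p).Γ ((A p).φ p) := by
    refine hd.mfderiv.trans ?_
    have h2 : extChartAt (𝓡 2) p p = (A p).φ p := by rw [hext]
    have h3 : range (𝓡 2) = univ := by simp
    rw [h2, h3, fderivWithin_univ]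
    exact (hloc p).fderiv_eq
  have hΓ : DifferentiableAt ℝ (A p).Γ ((A p).φ p) :=
    (A p).smooth_Γ.differentiable (by simp) _
  have h4 : ∀ w : E2, (A p).L (fderiv ℝ (A p).Γ ((A p).φ p) w) = w := by
    intro w
    have h5 : HasFDerivAt (fun y => (A p).L ((A p).Γ y - (A p).P))
        ((A p).L.comp (fderiv ℝ (A p).Γ ((A p).φ p))) ((A p).φ p) :=
      (A p).L.hasFDerivAt.comp _ (hΓ.hasFDerivAt.sub_const _)
    have h6 : (fun y => (A p).L ((A p).Γ y - (A p).P)) = id := by
      ext1 y; exact (A p).L_Γ y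
    rw [h6] at h5
    have h7 := h5.unique (hasFDerivAt_id _)
    have := congrArg (fun T : E2 →L[ℝ] E2 => T w) h7
    simpa using this
  rw [h1]
  intro v w hvw
  have hv := h4 v
  have hw := h4 w
  rw [← hv, ← hw]
  exact congrArg (A p).L hvw

end Pool.Agent.Lib.MP_0b1f3c_gt.TI
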