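import Pool.Agent.Lib.MP_0b1f3c_gt.TI.SpecC

/-!
# Curve part, module CC (helper57): a closed polygon is a simple closed curve
-/

open scoped Manifold ContDiff InnerProductSpace Quaternion

noncomputable section

namespace Pool.Agent.Lib.MP_0b1f3c_gt.TI

namespace CCM

variable {N : ℕ}

theorem triTwo {S : PolyData N} (hS : S.IsSurf) {v w : Fin N} {t₁ t₂ t₃ : Finset (Fin N)}
    (hvw : v ≠ w) (h1 : t₁ ∈ S.T) (h2 : t₂ ∈ S.T) (h3 : t₃ ∈ S.T) (v1 : v ∈ t₁) (v2 : v ∈ t₂) (v3 : v ∈ t₃)
    (w1 : w ∈ t₁) (w2 : w ∈ t₂) (w3 : w ∈ t₃) : t₁ = t₂ ∨ t₁ = t₃ ∨ t₂ = t₃ := by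
  obtain ⟨m1, k1, e1⟩ := hS.hT2 t₁ h1 v v1
  obtain ⟨m2, k2, e2⟩ := hS.hT2 t₂ h2 v v2
  obtain ⟨m3, k3, e3⟩ := hS.hT2 t₃ h3 v v3
  have inj := hS.hnbinj v
  have cs : ∀ (t : Finset (Fin N)) (m : ℕ), t = {v, S.nb v m, S.nb v (m + 1)} → w ∈ t →
      w = S.nb v m ∨ w = S.nb v (m + 1) := by
    intro t m e hw
    rw [e] at hw
    simp only [Finset.mem_insert, Finset.mem_singleton] at hw
    rcases hw with h | h | h
    · exact absurd h.symm hvw
    · exact Or.inl h
    · exact Or.inr h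
  have hA : ∀ m m' : ℕ, m < S.k v → m' < S.k v → w = S.nb v m → w = S.nb v m' → m = m' := by
    intro m m' hm hm' h h'
    exact inj (Set.mem_Iio.2 hm) (Set.mem_Iio.2 hm') (h.symm.trans h')
  have hB : ∀ m m' : ℕ, m < S.k v → m' < S.k v → w = S.nb v (m + 1) → w = S.nb v (m' + 1) → m = m' := by
    intro m m' hm hm' h h'
    by_cases c : m + 1 = S.k v
    · by_cases c' : m' + 1 = S.k v
      · omega
      · exfalso
        rw [c, hS.hper] at h
        have := inj (Set.mem_Iio.2 (show 0 < S.k v by omega)) (Set.mem_Iio.2 (show m' + 1 < S.k v by omega))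
          (h.symm.trans h')
        omega
    · by_cases c' : m' + 1 = S.k v
      · exfalso
        rw [c', hS.hper] at h'
        have := inj (Set.mem_Iio.2 (show 0 < S.k v by omega)) (Set.mem_Iio.2 (show m + 1 < S.k v by omega))
          (h'.symm.trans h)
        omega
      · have := inj (Set.mem_Iio.2 (show m + 1 < S.k v by omega)) (Set.mem_Iio.2 (show m' + 1 < S.k v by omega))
          (h.symm.trans h')
        omega
  have c1 := cs t₁ m1 e1 w1
  have c2 := cs t₂ m2 e2 w2
  have c3 := cs t₃ m3 e3 w3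
  rcases c1 with c1 | c1 <;> rcases c2 with c2 | c2 <;> rcases c3 with c3 | c3
  · left; rw [e1, e2, hA m1 m2 k1 k2 c1 c2]
  · left; rw [e1, e2, hA m1 m2 k1 k2 c1 c2]
  · right; left; rw [e1, e3, hA m1 m3 k1 k3 c1 c3]
  · right; right; rw [e2, e3, hB m2 m3 k2 k3 c2 c3]
  · right; right; rw [e2, e3, hA m2 m3 k2 k3 c2 c3]
  · right; left; rw [e1, e3, hB m1 m3 k1 k3 c1 c3]
  · left; rw [e1, e2, hB m1 m2 k1 k2 c1 c2]
  · left; rw [e1, e2, hB m1 m2 k1 k2 c1 c2]

variable {S : PolyData N} {C : Crv N}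

theorem pt_a (hC : C.IsCrv S) (i : ℤ) : C.pt i (C.a i) = 1 - C.r i := by
  have := hC.hab i
  simp [Crv.pt, this]

theorem pt_b (hC : C.IsCrv S) (i : ℤ) : C.pt i (C.b i) = C.r i := by
  have := (hC.hab i).symm
  simp [Crv.pt, this]

theorem pt_o (i : ℤ) {v : Fin N} (ha : v ≠ C.a i) (hb : v ≠ C.b i) : C.pt i v = 0 := by
  simp [Crv.pt, ha, hb]

theorem pt_pos (hC : C.IsCrv S) (i : ℤ) {v : Fin N} : 0 < C.pt i v ↔ v = C.a i ∨ v = C.b i := by
  constructor
  · intro h
    by_contra hc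
    rw [not_or] at hc
    rw [pt_o i hc.1 hc.2] at h
    exact lt_irrefl _ h
  · rintro (h | h)
    · rw [h, pt_a hC]; linarith [(hC.h01 i).2]
    · rw [h, pt_b hC]; exact (hC.h01 i).1

theorem pt_nonneg (hC : C.IsCrv S) (i : ℤ) (v : Fin N) : 0 ≤ C.pt i v := by
  by_cases h : v = C.a i ∨ v = C.b i
  · exact ((pt_pos hC i).2 h).le
  · rw [not_or] at h
    rw [pt_o i h.1 h.2]

theorem pt_sum (i : ℤ) : ∑ v, C.pt i v = 1 := by
  simp [Crv.pt, Finset.sum_add_distrib, ← Finset.mul_sum]

theorem pt_supp (hC : C.IsCrv S) {i j : ℤ} (h : C.pt i = C.pt j) :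
    ({C.a i, C.b i} : Finset (Fin N)) = {C.a j, C.b j} := by
  ext v
  simp only [Finset.mem_insert, Finset.mem_singleton]
  rw [← pt_pos hC i, ← pt_pos hC j, h]

theorem pt_ne (hC : C.IsCrv S) (i : ℤ) : C.pt i ≠ C.pt (i + 1) := fun h =>
  hC.hedge i (pt_supp hC h)

theorem pt_per (hC : C.IsCrv S) (i : ℤ) : C.pt (i + C.L) = C.pt i := by
  unfold Crv.pt
  rw [hC.hpa, hC.hpb, hC.hpr]

theorem pt_perm (hC : C.IsCrv S) (i m : ℤ) : C.pt (i + m * C.L) = C.pt i := by
  induction m using Int.induction_on with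
  | zero => simp
  | succ n ih =>
    have : i + ((n : ℤ) + 1) * C.L = (i + n * C.L) + C.L := by ring
    rw [this, pt_per hC, ih]
  | pred n ih =>
    have : i + (-(n : ℤ)) * C.L = (i + (-(n : ℤ) - 1) * C.L) + C.L := by ring
    rw [this, pt_per hC] at ih
    exact ih

/-- the segment -/
def seg (C : Crv N) (i : ℤ) (θ : ℝ) : Fin N → ℝ := (1 - θ) • C.pt i + θ • C.pt (i + 1)

theorem seg_apply (i : ℤ) (θ : ℝ) (v : Fin N) : seg C i θ v = (1 - θ) * C.pt i v + θ * C.pt (i + 1) v := rfl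

theorem seg_zero (i : ℤ) : seg C i 0 = C.pt i := by
  funext v; rw [seg_apply]; ring

theorem seg_one (i : ℤ) : seg C i 1 = C.pt (i + 1) := by
  funext v; rw [seg_apply]; ring

theorem c0_eq (s : ℝ) : C.c0 s = seg C ⌊C.L * s⌋ (Int.fract (C.L * s)) := rfl

theorem tri_card {S : PolyData N} (hS : S.IsSurf) {C : Crv N} (hC : C.IsCrv S) (i : ℤ) : (C.tri i).card = 3 :=
  hS.hcard _ (hC.htri i)

theorem seg_supp {S : PolyData N} (hS : S.IsSurf) {C : Crv N} (hC : C.IsCrv S) (i : ℤ) {θ : ℝ} (h0 : 0 < θ)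
    (h1 : θ < 1) (v : Fin N) : 0 < seg C i θ v ↔ v ∈ C.tri i := by
  have hn := hC.hnext i
  have hU : ({C.a i, C.b i} ∪ {C.a (i + 1), C.b (i + 1)} : Finset (Fin N)) = C.tri i := by
    apply Finset.eq_of_subset_of_card_le
    · apply Finset.union_subset
      · intro w hw
        simp only [Finset.mem_insert, Finset.mem_singleton] at hw
        unfold Crv.tri
        rcases hw with h | h <;> simp [h]
      · intro w hw
        simp only [Finset.mem_insert, Finset.mem_singleton] at hw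
        rcases hw with h | h <;> rw [h]
        · exact hn.1
        · exact hn.2
    · rw [tri_card hS hC]
      by_contra hlt
      have h2 : ({C.a i, C.b i} : Finset (Fin N)).card = 2 := Finset.card_pair (hC.hab i)
      have h2' : ({C.a (i + 1), C.b (i + 1)} : Finset (Fin N)).card = 2 := Finset.card_pair (hC.hab (i + 1))
      have e1 : ({C.a i, C.b i} : Finset (Fin N)) = {C.a i, C.b i} ∪ {C.a (i + 1), C.b (i + 1)} :=
        Finset.eq_of_subset_of_card_le Finset.subset_union_left (by omega)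
      have e2 : ({C.a (i + 1), C.b (i + 1)} : Finset (Fin N)) = {C.a i, C.b i} ∪ {C.a (i + 1), C.b (i + 1)} :=
        Finset.eq_of_subset_of_card_le Finset.subset_union_right (by omega)
      exact hC.hedge i (e1.trans e2.symm)
  rw [← hU]
  simp only [Finset.mem_union, Finset.mem_insert, Finset.mem_singleton]
  rw [← pt_pos hC i, ← pt_pos hC (i + 1), seg_apply]
  have n1 := pt_nonneg hC i v
  have n2 := pt_nonneg hC (i + 1) v
  constructor
  · intro h
    by_contra hc
    rw [not_or, not_lt, not_lt] at hc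
    have e1 : C.pt i v = 0 := le_antisymm hc.1 n1
    have e2 : C.pt (i + 1) v = 0 := le_antisymm hc.2 n2
    rw [e1, e2] at h
    simp at h
  · rintro (h | h)
    · have := mul_pos (sub_pos.2 h1) h
      have := mul_nonneg h0.le n2
      linarith
    · have := mul_nonneg (sub_nonneg.2 h1.le) n1
      have := mul_pos h0 h
      linarith

theorem seg_mem {S : PolyData N} {C : Crv N} (hC : C.IsCrv S) (i : ℤ) {θ : ℝ} (h0 : 0 ≤ θ)
    (h1 : θ ≤ 1) : seg C i θ ∈ Realization S.T := by
  refine ⟨fun v => ?_, ?_, C.tri i, hC.htri i, fun v hv => ?_⟩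
  · rw [seg_apply]
    have := mul_nonneg (sub_nonneg.2 h1) (pt_nonneg hC i v)
    have := mul_nonneg h0 (pt_nonneg hC (i + 1) v)
    linarith
  · simp only [seg_apply]
    rw [Finset.sum_add_distrib, ← Finset.mul_sum, ← Finset.mul_sum, pt_sum, pt_sum]
    ring
  · by_contra hc
    apply hv
    have hn := hC.hnext i
    have a1 : v ≠ C.a i := fun e => hc (by unfold Crv.tri; simp [e])
    have a2 : v ≠ C.b i := fun e => hc (by unfold Crv.tri; simp [e])
    have a3 : v ≠ C.a (i + 1) := fun e => hc (e ▸ hn.1)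
    have a4 : v ≠ C.b (i + 1) := fun e => hc (e ▸ hn.2)
    rw [seg_apply, pt_o i a1 a2, pt_o (i + 1) a3 a4]
    ring

theorem prod_pos_ne {A B θ : ℝ} (hAB : 0 < A * B) (h0 : 0 ≤ θ) (h1 : θ ≤ 1) (h : (1 - θ) * A + θ * B = 0) : False := by
  rcases mul_pos_iff.1 hAB with ⟨hA, hB⟩ | ⟨hA, hB⟩
  · rcases eq_or_lt_of_le h0 with e | e
    · subst e; linarith
    · have := mul_pos e hB
      have := mul_nonneg (sub_nonneg.2 h1) hA.le
      linarith
  · rcases eq_or_lt_of_le h0 with e | e
    · subst e; linarith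
    · have := mul_pos e (neg_pos.2 hB)
      have := mul_nonneg (sub_nonneg.2 h1) (neg_pos.2 hA).le
      linarith

/-- separated segments have no common point -/
theorem sepNo {S : PolyData N} {C : Crv N} (hC : C.IsCrv S) {i j : ℤ} (hij : ¬ ∃ m : ℤ, j = i + m * C.L)
    (ht : C.tri i = C.tri j) {θ θ' : ℝ} (h0 : 0 ≤ θ) (h1 : θ ≤ 1) (h0' : 0 ≤ θ') (h1' : θ' ≤ 1)
    (h : seg C i θ = seg C j θ') : False := by
  have hs := hC.hsep i j hij ht
  have e : ∀ v, (1 - θ) * C.pt i v + θ * C.pt (i + 1) v = (1 - θ') * C.pt j v + θ' * C.pt (j + 1) v :=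
    fun v => congrFun h v
  have ea := e (C.a i)
  have eb := e (C.b i)
  have ec := e (C.t i)
  rcases hs with hs | hs
  · refine prod_pos_ne hs h0' h1' ?_
    unfold Crv.det3
    linear_combination
      (-(C.pt i (C.a i) * (C.pt (i+1) (C.b i)) - C.pt i (C.b i) * C.pt (i+1) (C.a i))) * ec
      + (-(C.pt i (C.b i) * (C.pt (i+1) (C.t i)) - C.pt i (C.t i) * C.pt (i+1) (C.b i))) * ea
      + (-(C.pt i (C.t i) * (C.pt (i+1) (C.a i)) - C.pt i (C.a i) * C.pt (i+1) (C.t i))) * eb
  · refine prod_pos_ne hs h0 h1 ?_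
    unfold Crv.det3
    linear_combination
      ((C.pt j (C.a i) * (C.pt (j+1) (C.b i)) - C.pt j (C.b i) * C.pt (j+1) (C.a i))) * ec
      + ((C.pt j (C.b i) * (C.pt (j+1) (C.t i)) - C.pt j (C.t i) * C.pt (j+1) (C.b i))) * ea
      + ((C.pt j (C.t i) * (C.pt (j+1) (C.a i)) - C.pt j (C.a i) * C.pt (j+1) (C.t i))) * eb

/-- the interpolation -/
def phi (C : Crv N) (u : ℝ) : Fin N → ℝ := seg C ⌊u⌋ (Int.fract u)

theorem phi_eq {m : ℤ} {u : ℝ} (h0 : (m : ℝ) ≤ u) (h1 : u ≤ m + 1) : phi C u = seg C m (u - m) := by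
  rcases eq_or_lt_of_le h1 with e | e
  · have hf : ⌊u⌋ = m + 1 := by
      rw [e]
      have : ((m : ℝ) + 1) = ((m + 1 : ℤ) : ℝ) := by push_cast; ring
      rw [this, Int.floor_intCast]
    have hfr : Int.fract u = 0 := by
      unfold Int.fract
      rw [hf, e]; push_cast; ring
    unfold phi
    rw [hf, hfr, seg_zero, show u - m = 1 by linarith, seg_one]
  · have hf : ⌊u⌋ = m := Int.floor_eq_iff.2 ⟨h0, e⟩
    unfold phi
    rw [hf]
    congr 1
    unfold Int.fract
    rw [hf]

theorem seg_cont (C : Crv N) (m : ℤ) : Continuous fun u : ℝ => seg C m (u - m) := by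
  unfold seg
  fun_prop

theorem phi_cont (C : Crv N) : Continuous (phi C) := by
  rw [continuous_iff_continuousAt]
  intro u₀
  rw [continuousAt_iff_continuous_left_right]
  constructor
  · set m : ℤ := ⌈u₀⌉ - 1 with hm
    have hm1 : (m : ℝ) < u₀ := by
      have := Int.ceil_lt_add_one u₀
      rw [hm]; push_cast; linarith
    have hm2 : u₀ ≤ m + 1 := by
      have := Int.le_ceil u₀
      rw [hm]; push_cast; linarith
    refine ContinuousWithinAt.congr_of_eventuallyEq ((seg_cont C m).continuousWithinAt (s := Set.Iic u₀) (x := u₀)) ?_ ?_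
    · have h1 : Set.Ioi (m : ℝ) ∈ nhdsWithin u₀ (Set.Iic u₀) :=
        nhdsWithin_le_nhds (Ioi_mem_nhds hm1)
      filter_upwards [h1, self_mem_nhdsWithin] with u hu hu'
      exact phi_eq (le_of_lt hu) (le_trans hu' hm2)
    · exact phi_eq hm1.le hm2
  · set m : ℤ := ⌊u₀⌋ with hm
    have hm1 : (m : ℝ) ≤ u₀ := Int.floor_le u₀
    have hm2 : u₀ < m + 1 := Int.lt_floor_add_one u₀
    refine ContinuousWithinAt.congr_of_eventuallyEq ((seg_cont C m).continuousWithinAt (s := Set.Ici u₀) (x := u₀)) ?_ ?_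
    · have h1 : Set.Iio ((m : ℝ) + 1) ∈ nhdsWithin u₀ (Set.Ici u₀) :=
        nhdsWithin_le_nhds (Iio_mem_nhds hm2)
      filter_upwards [h1, self_mem_nhdsWithin] with u hu hu'
      exact phi_eq (le_trans hm1 hu') (le_of_lt hu)
    · exact phi_eq hm1 hm2.le

theorem c0_per (hC : C.IsCrv S) (s : ℝ) : C.c0 (s + 1) = C.c0 s := by
  rw [c0_eq, c0_eq]
  have e : (C.L : ℝ) * (s + 1) = C.L * s + ((C.L : ℤ) : ℝ) := by push_cast; ring
  rw [e, Int.floor_add_intCast, Int.fract_add_intCast]
  unfold seg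
  have h1 := pt_per hC ⌊C.L * s⌋
  have h2 := pt_per hC (⌊C.L * s⌋ + 1)
  rw [h1, show ⌊(C.L : ℝ) * s⌋ + (C.L : ℤ) + 1 = ⌊(C.L : ℝ) * s⌋ + 1 + (C.L : ℤ) by ring, h2]

theorem notCong {L : ℕ} {i j : ℤ} (hi : 0 ≤ i) (hi' : i < L) (hj : 0 ≤ j) (hj' : j < L) (hij : i ≠ j) :
    ¬ ∃ m : ℤ, j = i + m * L := by
  rintro ⟨m, hm⟩
  have h1 : m * L < L := by linarith
  have h2 : -(L : ℤ) < m * L := by linarith
  have hL : (0 : ℤ) < L := lt_of_le_of_lt hi hi'
  have m1 : m < 1 := by
    by_contra hc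
    have : (1 : ℤ) * L ≤ m * L := mul_le_mul_of_nonneg_right (not_lt.1 hc) hL.le
    linarith
  have m2 : -1 < m := by
    by_contra hc
    have : m * L ≤ (-1 : ℤ) * L := mul_le_mul_of_nonneg_right (not_lt.1 hc) hL.le
    linarith
  have m0 : m = 0 := by omega
  rw [m0] at hm
  apply hij
  linarith

theorem phi_inj {S : PolyData N} (hS : S.IsSurf) {C : Crv N} (hC : C.IsCrv S) {u u' : ℝ} (h0 : 0 ≤ u)
    (h1 : u < C.L) (h0' : 0 ≤ u') (h1' : u' < C.L) (h : phi C u = phi C u') : u = u' := by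
  unfold phi at h
  set i := ⌊u⌋ with hi
  set j := ⌊u'⌋ with hj
  set θ := Int.fract u with hθ
  set θ' := Int.fract u' with hθ'
  have eu : u = i + θ := (Int.floor_add_fract u).symm
  have eu' : u' = j + θ' := (Int.floor_add_fract u').symm
  have t0 : 0 ≤ θ := Int.fract_nonneg u
  have t1 : θ < 1 := Int.fract_lt_one u
  have t0' : 0 ≤ θ' := Int.fract_nonneg u'
  have t1' : θ' < 1 := Int.fract_lt_one u'
  have i0 : 0 ≤ i := Int.floor_nonneg.2 h0
  have j0 : 0 ≤ j := Int.floor_nonneg.2 h0'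
  have iL : i < C.L := by
    have : ((i : ℤ) : ℝ) < ((C.L : ℤ) : ℝ) := by push_cast; linarith
    exact_mod_cast this
  have jL : j < C.L := by
    have : ((j : ℤ) : ℝ) < ((C.L : ℤ) : ℝ) := by push_cast; linarith
    exact_mod_cast this
  by_cases hij : i = j
  · rw [← hij] at h
    have : θ = θ' := by
      by_contra hne
      apply pt_ne hC i
      funext v
      have e := congrFun h v
      rw [seg_apply, seg_apply] at e
      have e2 : (θ - θ') * (C.pt (i + 1) v - C.pt i v) = 0 := by linear_combination e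
      rcases mul_eq_zero.1 e2 with e3 | e3
      · exact absurd (sub_eq_zero.1 e3) hne
      · exact (sub_eq_zero.1 e3).symm
    rw [eu, eu', hij, this]
  · exfalso
    have nc := notCong i0 iL j0 jL hij
    have card2 : ∀ l : ℤ, ({C.a l, C.b l} : Finset (Fin N)).card = 2 := fun l => Finset.card_pair (hC.hab l)
    have mixed : ∀ k l : ℤ, ∀ τ : ℝ, 0 < τ → τ < 1 → C.pt k ≠ seg C l τ := by
      intro k l τ p1 p2 he
      have : ({C.a k, C.b k} : Finset (Fin N)) = C.tri l := by
        ext v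
        rw [← seg_supp hS hC l p1 p2 v, ← he, pt_pos hC k]
        simp
      have h3 := tri_card hS hC l
      rw [← this, card2] at h3
      omega
    rcases eq_or_lt_of_le t0 with e | e
    · rcases eq_or_lt_of_le t0' with e' | e'
      · rw [← e, ← e', seg_zero, seg_zero] at h
        have hedge := pt_supp hC h
        have hvw := hC.hab i
        have hn := hC.hnext (i - 1)
        rw [sub_add_cancel] at hn
        have aj : C.a i ∈ C.tri j := by
          have : C.a i ∈ ({C.a j, C.b j} : Finset (Fin N)) := by rw [← hedge]; simp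
          simp only [Finset.mem_insert, Finset.mem_singleton] at this
          unfold Crv.tri
          rcases this with h | h <;> simp [h]
        have bj : C.b i ∈ C.tri j := by
          have : C.b i ∈ ({C.a j, C.b j} : Finset (Fin N)) := by rw [← hedge]; simp
          simp only [Finset.mem_insert, Finset.mem_singleton] at this
          unfold Crv.tri
          rcases this with h | h <;> simp [h]
        have ai : C.a i ∈ C.tri i := by unfold Crv.tri; simp
        have bi : C.b i ∈ C.tri i := by unfold Crv.tri; simp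
        have hcr := hC.hcross (i - 1)
        rw [sub_add_cancel] at hcr
        rcases triTwo hS hvw (hC.htri (i - 1)) (hC.htri i) (hC.htri j) hn.1 ai aj hn.2 bi bj with t | t | t
        · exact hcr t
        · -- tri (i - 1) = tri j
          by_cases hc : ∃ m : ℤ, j = (i - 1) + m * C.L
          · obtain ⟨m, hm⟩ := hc
            have e3 : C.pt j = C.pt (i - 1) := by rw [hm]; exact pt_perm hC (i - 1) m
            have e4 := pt_ne hC (i - 1)
            rw [sub_add_cancel] at e4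
            exact e4 (e3.symm.trans h.symm)
          · refine sepNo hC hc t (θ := 1) (θ' := 0) (by norm_num) le_rfl le_rfl (by norm_num) ?_
            rw [seg_one, seg_zero, sub_add_cancel, h]
        · refine sepNo hC nc t (θ := 0) (θ' := 0) le_rfl (by norm_num) le_rfl (by norm_num) ?_
          rw [seg_zero, seg_zero, h]
      · rw [← e, seg_zero] at h
        exact mixed i j θ' e' t1' h
    · rcases eq_or_lt_of_le t0' with e' | e'
      · rw [← e', seg_zero] at h
        exact mixed j i θ e t1 h.symm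
      · have ht : C.tri i = C.tri j := by
          ext v
          rw [← seg_supp hS hC i e t1 v, ← seg_supp hS hC j e' t1' v, h]
        exact sepNo hC nc ht t0 t1.le t0' t1'.le h

end CCM

open CCM

theorem specCC : SpecCC := by
  intro N S hS C hC
  have hL : (0 : ℝ) < C.L := by exact_mod_cast hC.hL
  refine ⟨fun s => ⟨C.c0 s, ?_⟩, fun s => rfl, ?_, ?_, ?_⟩
  · rw [c0_eq]
    exact seg_mem hC _ (Int.fract_nonneg _) (Int.fract_lt_one _).le
  · refine Continuous.subtype_mk ?_ _
    exact (phi_cont C).comp (continuous_const.mul continuous_id)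
  · intro s
    exact Subtype.ext (c0_per hC s)
  · intro s hs s' hs' h
    have h' : phi C (C.L * s) = phi C (C.L * s') := congrArg Subtype.val h
    have := phi_inj hS hC (mul_nonneg hL.le hs.1) (by nlinarith [hs.2]) (mul_nonneg hL.le hs'.1)
      (by nlinarith [hs'.2]) h'
    exact mul_left_cancel₀ hL.ne' this

end Pool.Agent.Lib.MP_0b1f3c_gt.TI
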