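import Pool.Agent.Lib.MP_0b1f3c_gt.TI.SpecG

/-!
# CNE: the star of a vertex lies on the polyhedral cone
-/

open scoped Manifold ContDiff InnerProductSpace Topology
open Filter Set

noncomputable section

namespace Pool.Agent.Lib.MP_0b1f3c_gt.TI

namespace CNEM

variable {N : ℕ} {S : PolyData N}

/-! ## algebra -/

theorem face1 {κ X Y Z : ℝ} (hκ : κ = 1 ∨ κ = -1) (hX : X = 0) (hY : 0 ≤ κ * Y) (hZ : Z ≤ 0) :
    locF0 κ X Y Z = 0 ∧ (0 < κ * Y → Z < 0 → 0 < rho κ X Y Z) := by
  subst hX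
  rcases hκ with rfl | rfl
  · rw [one_mul] at hY
    unfold locF0 rho
    rw [if_pos rfl, if_pos rfl, min_eq_left hY, max_eq_right hZ]
    refine ⟨rfl, fun h1 h2 => ?_⟩
    rw [one_mul] at h1
    rw [max_eq_right hY]
    exact lt_max_of_lt_right (lt_min (by linarith) h1)
  · have hne : ¬ ((-1 : ℝ) = 1) := by norm_num
    have hY' : Y ≤ 0 := by linarith
    unfold locF0 rho
    rw [if_neg hne, if_neg hne, max_eq_left hY', max_eq_right hZ]
    refine ⟨rfl, fun h1 h2 => ?_⟩
    have h3 : 0 < -Y := by linarith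
    exact lt_min (lt_min (lt_max_of_lt_right h3) (lt_max_of_lt_left h3))
      (lt_max_of_lt_right (by linarith))

theorem face2 {κ X Y Z : ℝ} (hκ : κ = 1 ∨ κ = -1) (hY : Y = 0) (hX : 0 ≤ κ * X) (hZ : Z ≤ 0) :
    locF0 κ X Y Z = 0 ∧ (0 < κ * X → Z < 0 → 0 < rho κ X Y Z) := by
  subst hY
  rcases hκ with rfl | rfl
  · rw [one_mul] at hX
    unfold locF0 rho
    rw [if_pos rfl, if_pos rfl, min_eq_right hX, max_eq_right hZ]
    refine ⟨rfl, fun h1 h2 => ?_⟩
    rw [one_mul] at h1
    rw [max_eq_left hX]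
    exact lt_max_of_lt_right (lt_min (by linarith) h1)
  · have hne : ¬ ((-1 : ℝ) = 1) := by norm_num
    have hX' : X ≤ 0 := by linarith
    unfold locF0 rho
    rw [if_neg hne, if_neg hne, max_eq_right hX', max_eq_right hZ]
    refine ⟨rfl, fun h1 h2 => ?_⟩
    have h3 : 0 < -X := by linarith
    exact lt_min (lt_min (lt_max_of_lt_left h3) (lt_max_of_lt_right (by linarith)))
      (lt_max_of_lt_left h3)

theorem face3 {X Y Z : ℝ} (hZ : Z = 0) (hX : X ≤ 0) (hY : Y ≤ 0) :
    locF0 (-1) X Y Z = 0 ∧ (X < 0 → Y < 0 → 0 < rho (-1) X Y Z) := by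
  subst hZ
  have hne : ¬ ((-1 : ℝ) = 1) := by norm_num
  unfold locF0 rho
  rw [if_neg hne, if_neg hne, max_eq_left (max_le hX hY)]
  refine ⟨rfl, fun h1 h2 => ?_⟩
  exact lt_min (lt_min (lt_max_of_lt_left (by linarith)) (lt_max_of_lt_left (by linarith)))
    (lt_max_of_lt_left (by linarith))

theorem face4 {X Y Z : ℝ} (hZ : Z = 0) (h : min X Y ≤ 0) :
    locF0 1 X Y Z = 0 ∧ (min X Y < 0 → 0 < rho 1 X Y Z) := by
  subst hZ
  unfold locF0 rho
  rw [if_pos rfl, if_pos rfl, max_eq_left h]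
  exact ⟨rfl, fun h1 => lt_max_of_lt_left (by linarith)⟩

/-! ## coordinates of a point -/

theorem map_g (l : E3 →L[ℝ] ℝ) (v : Fin N) {x : Fin N → ℝ} (hx : ∑ i, x i = 1) :
    l (S.g x - S.P v) = ∑ u, x u * l (S.P u - S.P v) := by
  have h1 : S.g x - S.P v = ∑ u, x u • (S.P u - S.P v) := by
    unfold PolyData.g
    simp only [smul_sub, Finset.sum_sub_distrib]
    rw [← Finset.sum_smul, hx, one_smul]
  rw [h1, map_sum]
  exact Finset.sum_congr rfl fun u _ => by rw [map_smul, smul_eq_mul]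

/-- the three vertices of a triangle at `v` -/
theorem supp (hS : S.IsSurf) {v : Fin N} {x : Fin N → ℝ} (hx : x ∈ Realization S.T) (hv : 0 < x v) :
    ∃ i < S.k v, S.nb v i ≠ S.nb v (i + 1) ∧ S.nb v i ≠ v ∧ S.nb v (i + 1) ≠ v ∧
      (∀ u, x u ≠ 0 → u = v ∨ u = S.nb v i ∨ u = S.nb v (i + 1)) ∧
      ∀ f : Fin N → ℝ, ∑ u, x u * f u =
        x v * f v + x (S.nb v i) * f (S.nb v i) + x (S.nb v (i + 1)) * f (S.nb v (i + 1)) := by
  obtain ⟨h0, h1, t, ht, hsupp⟩ := hx
  obtain ⟨i, hi, rfl⟩ := hS.hT2 t ht v (hsupp v hv.ne')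
  have hc := hS.hcard _ ht
  have n1 : S.nb v i ≠ v := hS.hne v i hi.le
  have n2 : S.nb v (i + 1) ≠ v := hS.hne v (i + 1) hi
  have n3 : S.nb v i ≠ S.nb v (i + 1) := by
    intro e
    rw [e, Finset.insert_eq_of_mem (Finset.mem_singleton_self _), Finset.card_pair n2.symm] at hc
    norm_num at hc
  refine ⟨i, hi, n3, n1, n2, fun u hu => ?_, fun f => ?_⟩
  · have := hsupp u hu
    simpa only [Finset.mem_insert, Finset.mem_singleton] using this
  · rw [← Finset.sum_subset (Finset.subset_univ ({v, S.nb v i, S.nb v (i + 1)} : Finset (Fin N)))]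
    · rw [Finset.sum_insert, Finset.sum_insert, Finset.sum_singleton, add_assoc]
      · rwa [Finset.mem_singleton]
      · rw [Finset.mem_insert, Finset.mem_singleton, not_or]
        exact ⟨n1.symm, n2.symm⟩
    · intro u _ hu
      by_contra h
      exact hu (hsupp u (left_ne_zero_of_mul h))

end CNEM

open CNEM in
/-- **CNE** -/
theorem specCNE (hSGN : SpecSGN) : SpecCNE := by
  intro N S hS v x hx hv
  obtain ⟨sa, sb, sc, sc', sd, sz⟩ := hSGN N S hS v
  obtain ⟨i, hi, n3, n1, n2, hsupp, hsum⟩ := supp hS hx hv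
  have hκ := hS.hκ v
  have hk := hS.hk v
  set a := x (S.nb v i) with ha
  set b := x (S.nb v (i + 1)) with hb
  have a0 : 0 ≤ a := hx.1 _
  have b0 : 0 ≤ b := hx.1 _
  have htot : x v + a + b = 1 := by
    have h1 := hsum (fun _ => 1)
    simp only [mul_one] at h1
    rw [hx.2.1] at h1
    exact h1.symm
  have hX : S.X v (S.g x - S.P v) = a * S.DX v i + b * S.DX v (i + 1) := by
    rw [map_g _ _ hx.2.1, hsum, sub_self, map_zero, mul_zero, zero_add]
    rfl
  have hY : S.Y v (S.g x - S.P v) = a * S.DY v i + b * S.DY v (i + 1) := by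
    rw [map_g _ _ hx.2.1, hsum, sub_self, map_zero, mul_zero, zero_add]
    rfl
  have hZ : S.Z v (S.g x - S.P v) = a * S.DZ v i + b * S.DZ v (i + 1) := by
    rw [map_g _ _ hx.2.1, hsum, sub_self, map_zero, mul_zero, zero_add]
    rfl
  rw [hX, hY, hZ]
  -- the excluded cases
  have hE : (∀ e, x v + x (S.r v e) ≠ 1) → ¬ (a = 0 ∧ b = 0) ∧ (b = 0 → i ≠ 0 ∧ i ≠ S.k1 v ∧ i ≠ S.k2 v) ∧
      (a = 0 → i + 1 ≠ S.k1 v ∧ i + 1 ≠ S.k2 v ∧ i + 1 ≠ S.k v) := by
    intro h
    have r0 : S.r v 0 = S.nb v 0 := rfl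
    have r1 : S.r v 1 = S.nb v (S.k1 v) := rfl
    have r2 : S.r v 2 = S.nb v (S.k2 v) := rfl
    have h0 := h 0
    have h1 := h 1
    have h2 := h 2
    rw [r0] at h0
    rw [r1] at h1
    rw [r2] at h2
    refine ⟨?_, fun hb0 => ⟨?_, ?_, ?_⟩, fun ha0 => ⟨?_, ?_, ?_⟩⟩
    · rintro ⟨ha0, hb0⟩
      apply h0
      have hz : x (S.nb v 0) = 0 := by
        by_contra hne
        rcases hsupp _ hne with e | e | e
        · exact hS.hne v 0 (by omega) e
        · rw [e] at hne
          exact hne ha0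
        · rw [e] at hne
          exact hne hb0
      rw [hz]
      linarith
    · rintro rfl
      apply h0
      linarith
    · intro e
      apply h1
      rw [← e]
      linarith
    · intro e
      apply h2
      rw [← e]
      linarith
    · intro e
      apply h1
      rw [← e]
      linarith
    · intro e
      apply h2
      rw [← e]
      linarith
    · intro e
      apply h0
      rw [← hS.hper v, ← e]
      linarith
  have pos : ∀ p q : ℝ, 0 ≤ p → 0 ≤ q → (a ≠ 0 ∧ 0 < p) ∨ (b ≠ 0 ∧ 0 < q) → 0 < a * p + b * q := by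
    intro p q hp hq h
    rcases h with ⟨h1, h2⟩ | ⟨h1, h2⟩
    · have := mul_pos (lt_of_le_of_ne a0 h1.symm) h2
      have := mul_nonneg b0 hq
      linarith
    · have := mul_pos (lt_of_le_of_ne b0 h1.symm) h2
      have := mul_nonneg a0 hp
      linarith
  rcases lt_or_ge i (S.k1 v) with hi1 | hi1
  · -- face X
    have hXi : S.DX v i = 0 := hS.hX v i hi1.le
    have hXi' : S.DX v (i + 1) = 0 := hS.hX v (i + 1) hi1
    have y1 : 0 < S.κ v * S.DY v (i + 1) := (sa i hi1).2
    have z0 : S.DZ v i < 0 := (sa i hi1).1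
    have y0 : 0 ≤ S.κ v * S.DY v i ∧ (i ≠ 0 → 0 < S.κ v * S.DY v i) := by
      rcases Nat.eq_zero_or_pos i with h | h
      · subst h
        rw [sz.2, mul_zero]
        exact ⟨le_rfl, fun h => absurd rfl h⟩
      · have := (sa (i - 1) (by omega)).2
        rw [Nat.sub_add_cancel h] at this
        exact ⟨this.le, fun _ => this⟩
    have z1 : S.DZ v (i + 1) ≤ 0 ∧ (i + 1 ≠ S.k1 v → S.DZ v (i + 1) < 0) := by
      by_cases h : i + 1 = S.k1 v
      · rw [hS.hZ v (i + 1) h.ge (by omega)]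
        exact ⟨le_rfl, fun h' => absurd h h'⟩
      · have := (sa (i + 1) (by omega)).1
        exact ⟨this.le, fun _ => this⟩
    have h := face1 (Y := a * S.DY v i + b * S.DY v (i + 1)) (Z := a * S.DZ v i + b * S.DZ v (i + 1)) hκ
      (X := a * S.DX v i + b * S.DX v (i + 1)) (by rw [hXi, hXi']; ring)
      (by
        have h1 := mul_nonneg a0 y0.1
        have h2 := mul_nonneg b0 y1.le
        nlinarith)
      (by
        have h1 := mul_nonneg a0 (neg_nonneg.2 z0.le)
        have h2 := mul_nonneg b0 (neg_nonneg.2 z1.1)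
        nlinarith)
    refine ⟨h.1, fun hne => ?_⟩
    obtain ⟨e1, e2, e3⟩ := hE hne
    refine h.2 ?_ ?_
    · have := pos (S.κ v * S.DY v i) (S.κ v * S.DY v (i + 1)) y0.1 y1.le (by
        by_cases hb0 : b = 0
        · left
          exact ⟨fun ha0 => e1 ⟨ha0, hb0⟩, y0.2 (e2 hb0).1⟩
        · exact Or.inr ⟨hb0, y1⟩)
      linarith
    · have := pos (-S.DZ v i) (-S.DZ v (i + 1)) (by linarith) (by linarith [z1.1]) (by
        by_cases ha0 : a = 0
        · right
          exact ⟨fun hb0 => e1 ⟨ha0, hb0⟩, by linarith [z1.2 (e3 ha0).1]⟩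
        · exact Or.inl ⟨ha0, by linarith⟩)
      linarith
  rcases lt_or_ge i (S.k2 v) with hi2 | hi2
  · -- face Z
    have hZi : S.DZ v i = 0 := hS.hZ v i hi1 hi2.le
    have hZi' : S.DZ v (i + 1) = 0 := hS.hZ v (i + 1) (by omega) hi2
    have hZ0 : a * S.DZ v i + b * S.DZ v (i + 1) = 0 := by rw [hZi, hZi']; ring
    rcases hκ with hκ | hκ
    · -- saddle
      rw [hκ]
      have key : (a ≠ 0 ∨ b ≠ 0) → (i = S.k1 v → b ≠ 0) → (i + 1 = S.k2 v → a ≠ 0) →
          min (a * S.DX v i + b * S.DX v (i + 1)) (a * S.DY v i + b * S.DY v (i + 1)) < 0 := by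
        intro h1 h2 h3
        refine sc' hκ i hi1 hi2 a b a0 b0 ?_ (fun h => lt_of_le_of_ne b0 (h2 h).symm)
          (fun h => lt_of_le_of_ne a0 (h3 h).symm)
        rcases h1 with h1 | h1
        · have := lt_of_le_of_ne a0 h1.symm
          linarith
        · have := lt_of_le_of_ne b0 h1.symm
          linarith
      have hmin : min (a * S.DX v i + b * S.DX v (i + 1)) (a * S.DY v i + b * S.DY v (i + 1)) ≤ 0 := by
        by_cases h1 : a ≠ 0 ∨ b ≠ 0
        · by_cases h2 : i = S.k1 v → b ≠ 0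
          · by_cases h3 : i + 1 = S.k2 v → a ≠ 0
            · exact (key h1 h2 h3).le
            · push Not at h3
              refine (min_le_right _ _).trans ?_
              rw [h3.1, h3.2, hS.hY v (S.k2 v) le_rfl hk.2.2.le]
              simp
          · push Not at h2
            refine (min_le_left _ _).trans ?_
            rw [h2.2, h2.1, hS.hX v (S.k1 v) le_rfl]
            simp
        · push Not at h1
          rw [h1.1, h1.2]
          simp
      have h := face4 hZ0 hmin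
      refine ⟨h.1, fun hne => h.2 ?_⟩
      obtain ⟨e1, e2, e3⟩ := hE hne
      refine key ?_ (fun h hb0 => (e2 hb0).2.1 h) (fun h ha0 => (e3 ha0).2.1 h)
      by_contra hc
      push Not at hc
      exact e1 hc
    · -- convex
      rw [hκ]
      obtain ⟨x1, y0⟩ := sc hκ i hi1 hi2
      have x0 : S.DX v i ≤ 0 ∧ (i ≠ S.k1 v → S.DX v i < 0) := by
        by_cases h : i = S.k1 v
        · rw [h, hS.hX v (S.k1 v) le_rfl]
          exact ⟨le_rfl, fun h => absurd rfl h⟩
        · have := (sc hκ (i - 1) (by omega) (by omega)).1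
          rw [Nat.sub_add_cancel (by omega)] at this
          exact ⟨this.le, fun _ => this⟩
      have y1 : S.DY v (i + 1) ≤ 0 ∧ (i + 1 ≠ S.k2 v → S.DY v (i + 1) < 0) := by
        by_cases h : i + 1 = S.k2 v
        · rw [hS.hY v (i + 1) h.ge (by omega)]
          exact ⟨le_rfl, fun h' => absurd h h'⟩
        · have := (sc hκ (i + 1) (by omega) (by omega)).2
          exact ⟨this.le, fun _ => this⟩
      have h := face3 (X := a * S.DX v i + b * S.DX v (i + 1))
        (Y := a * S.DY v i + b * S.DY v (i + 1)) hZ0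
        (by
          have h1 := mul_nonneg a0 (neg_nonneg.2 x0.1)
          have h2 := mul_nonneg b0 (neg_nonneg.2 x1.le)
          nlinarith)
        (by
          have h1 := mul_nonneg a0 (neg_nonneg.2 y0.le)
          have h2 := mul_nonneg b0 (neg_nonneg.2 y1.1)
          nlinarith)
      refine ⟨h.1, fun hne => ?_⟩
      obtain ⟨e1, e2, e3⟩ := hE hne
      refine h.2 ?_ ?_
      · have := pos (-S.DX v i) (-S.DX v (i + 1)) (by linarith [x0.1]) (by linarith) (by
          by_cases hb0 : b = 0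
          · left
            exact ⟨fun ha0 => e1 ⟨ha0, hb0⟩, by linarith [x0.2 (e2 hb0).2.1]⟩
          · exact Or.inr ⟨hb0, by linarith⟩)
        linarith
      · have := pos (-S.DY v i) (-S.DY v (i + 1)) (by linarith) (by linarith [y1.1]) (by
          by_cases ha0 : a = 0
          · right
            exact ⟨fun hb0 => e1 ⟨ha0, hb0⟩, by linarith [y1.2 (e3 ha0).2.1]⟩
          · exact Or.inl ⟨ha0, by linarith⟩)
        linarith
  · -- face Y
    have hYi : S.DY v i = 0 := hS.hY v i hi2 hi.le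
    have hYi' : S.DY v (i + 1) = 0 := hS.hY v (i + 1) (by omega) hi
    obtain ⟨x0, z1⟩ := sb i hi2 hi
    have x1 : 0 ≤ S.κ v * S.DX v (i + 1) ∧ (i + 1 ≠ S.k v → 0 < S.κ v * S.DX v (i + 1)) := by
      by_cases h : i + 1 = S.k v
      · have : S.DX v (i + 1) = S.DX v 0 := by
          unfold PolyData.DX
          rw [h, hS.hper]
        rw [this, sz.1, mul_zero]
        exact ⟨le_rfl, fun h' => absurd h h'⟩
      · have := (sb (i + 1) (by omega) (by omega)).1
        exact ⟨this.le, fun _ => this⟩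
    have z0 : S.DZ v i ≤ 0 ∧ (i ≠ S.k2 v → S.DZ v i < 0) := by
      by_cases h : i = S.k2 v
      · rw [h, hS.hZ v (S.k2 v) (by omega) le_rfl]
        exact ⟨le_rfl, fun h => absurd rfl h⟩
      · have := (sb (i - 1) (by omega) (by omega)).2
        rw [Nat.sub_add_cancel (by omega)] at this
        exact ⟨this.le, fun _ => this⟩
    have h := face2 (X := a * S.DX v i + b * S.DX v (i + 1)) (Z := a * S.DZ v i + b * S.DZ v (i + 1)) hκ
      (Y := a * S.DY v i + b * S.DY v (i + 1)) (by rw [hYi, hYi']; ring)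
      (by
        have h1 := mul_nonneg a0 x0.le
        have h2 := mul_nonneg b0 x1.1
        nlinarith)
      (by
        have h1 := mul_nonneg a0 (neg_nonneg.2 z0.1)
        have h2 := mul_nonneg b0 (neg_nonneg.2 z1.le)
        nlinarith)
    refine ⟨h.1, fun hne => ?_⟩
    obtain ⟨e1, e2, e3⟩ := hE hne
    refine h.2 ?_ ?_
    · have := pos (S.κ v * S.DX v i) (S.κ v * S.DX v (i + 1)) x0.le x1.1 (by
        by_cases ha0 : a = 0
        · right
          exact ⟨fun hb0 => e1 ⟨ha0, hb0⟩, x1.2 (e3 ha0).2.2⟩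
        · exact Or.inl ⟨ha0, x0⟩)
      linarith
    · have := pos (-S.DZ v i) (-S.DZ v (i + 1)) (by linarith [z0.1]) (by linarith) (by
        by_cases hb0 : b = 0
        · left
          exact ⟨fun ha0 => e1 ⟨ha0, hb0⟩, by linarith [z0.2 (e2 hb0).2.2]⟩
        · exact Or.inr ⟨hb0, by linarith⟩)
      linarith

end Pool.Agent.Lib.MP_0b1f3c_gt.TI
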