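import Pool.Agent.Lib.MP_0b1f3c_gt.TI.CPT

/-!
# CNN: the realization is connected (helper68)
-/

open scoped Manifold ContDiff InnerProductSpace Topology
open Filter Set

noncomputable section

namespace Pool.Agent.Lib.MP_0b1f3c_gt.TI

namespace CNNM

open CPTM

theorem convex_Pc {N : ℕ} (t : Finset (Fin N)) : Convex ℝ (Pc t) := by
  rintro x ⟨h1, h2, h3⟩ y ⟨h1', h2', h3'⟩ a b ha hb hab
  refine ⟨fun i => ?_, ?_, fun i hi => ?_⟩
  · simp only [Pi.add_apply, Pi.smul_apply, smul_eq_mul]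
    exact add_nonneg (mul_nonneg ha (h1 i)) (mul_nonneg hb (h1' i))
  · simp only [Pi.add_apply, Pi.smul_apply, smul_eq_mul]
    rw [Finset.sum_add_distrib, ← Finset.mul_sum, ← Finset.mul_sum, h2, h2', mul_one, mul_one, hab]
  · simp only [Pi.add_apply, Pi.smul_apply, smul_eq_mul]
    rw [h3 i hi, h3' i hi]
    ring

theorem vert_mem {N : ℕ} {t : Finset (Fin N)} {v : Fin N} (hv : v ∈ t) :
    (Pi.single v 1 : Fin N → ℝ) ∈ Pc t := by
  refine ⟨fun i => ?_, ?_, fun i hi => ?_⟩
  · by_cases h : i = v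
    · rw [h, Pi.single_eq_same]
      norm_num
    · rw [Pi.single_eq_of_ne h]
  · rw [Finset.sum_eq_single v]
    · rw [Pi.single_eq_same]
    · intro i _ hi
      rw [Pi.single_eq_of_ne hi]
    · intro h
      exact absurd (Finset.mem_univ v) h
  · rw [Pi.single_eq_of_ne]
    rintro rfl
    exact hi hv

end CNNM

open CPTM CNNM in
theorem specCNN : SpecCNN := by
  intro N S hS
  rw [real_eq]
  refine ⟨?_, ?_⟩
  · let v : Fin N := ⟨0, hS.hN⟩
    have hk : 0 < S.k v := by
      have := hS.hk v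
      omega
    refine ⟨Pi.single v 1, mem_biUnion (hS.hT1 v 0 hk) (vert_mem ?_)⟩
    simp
  · refine IsPreconnected.biUnion_of_reflTransGen (t := (S.T : Set (Finset (Fin N)))) (s := Pc)
      (fun t _ => (convex_Pc t).isPreconnected) ?_
    intro t ht t' ht'
    have hne : ∀ t ∈ S.T, ∃ v, v ∈ t := fun t ht => by
      have : t.Nonempty := by
        rw [← Finset.card_pos, hS.hcard t ht]
        norm_num
      exact this
    obtain ⟨u, hu⟩ := hne t ht
    obtain ⟨v, hv⟩ := hne t' ht'
    have key : ∀ v, Relation.ReflTransGen (fun a b => ∃ t ∈ S.T, a ∈ t ∧ b ∈ t) u v →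
        ∀ t' ∈ S.T, v ∈ t' →
        Relation.ReflTransGen (fun i j => (Pc i ∩ Pc j).Nonempty ∧ i ∈ (S.T : Set (Finset (Fin N))))
          t t' := by
      intro v h
      induction h with
      | refl =>
        intro t' ht' hv
        exact Relation.ReflTransGen.single ⟨⟨_, vert_mem hu, vert_mem hv⟩, ht⟩
      | tail _ hab ih =>
        obtain ⟨s, hs, ha, hb⟩ := hab
        intro t' ht' hv
        exact (ih s hs ha).tail ⟨⟨_, vert_mem hb, vert_mem hv⟩, hs⟩
    exact key v (hS.hconn u v) t' ht' hv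

end Pool.Agent.Lib.MP_0b1f3c_gt.TI
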