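import Pool.Agent.Lib.MP_0b1f3c_gt.TI.SpecG

/-!
# CPT: the realization is compact (helper68)
-/

open scoped Manifold ContDiff InnerProductSpace Topology
open Filter Set

noncomputable section

namespace Pool.Agent.Lib.MP_0b1f3c_gt.TI

namespace CPTM

/-- the closed simplex spanned by `t` -/
def Pc {N : ℕ} (t : Finset (Fin N)) : Set (Fin N → ℝ) :=
  {x | (∀ i, 0 ≤ x i) ∧ ∑ i, x i = 1 ∧ ∀ i, i ∉ t → x i = 0}

theorem real_eq {N : ℕ} (T : Finset (Finset (Fin N))) : Realization T = ⋃ t ∈ T, Pc t := by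
  ext x
  simp only [Realization, Pc, mem_ofPred_eq, mem_iUnion, exists_prop]
  constructor
  · rintro ⟨h1, h2, t, ht, h3⟩
    exact ⟨t, ht, h1, h2, fun i hi => by
      by_contra h
      exact hi (h3 i h)⟩
  · rintro ⟨t, ht, h1, h2, h3⟩
    exact ⟨h1, h2, t, ht, fun i hi => by
      by_contra h
      exact hi (h3 i h)⟩

theorem isClosed_Pc {N : ℕ} (t : Finset (Fin N)) : IsClosed (Pc t) := by
  have h1 : IsClosed {x : Fin N → ℝ | ∀ i, 0 ≤ x i} := by
    rw [ofPred_forall]
    exact isClosed_iInter fun i => isClosed_le continuous_const (continuous_apply i)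
  have h2 : IsClosed {x : Fin N → ℝ | ∑ i, x i = 1} :=
    isClosed_eq (continuous_finsetSum _ fun i _ => continuous_apply i) continuous_const
  have h3 : IsClosed {x : Fin N → ℝ | ∀ i, i ∉ t → x i = 0} := by
    simp only [ofPred_forall]
    exact isClosed_iInter fun i => isClosed_iInter fun _ =>
      isClosed_eq (continuous_apply i) continuous_const
  exact (h1.inter (h2.inter h3))

end CPTM

open CPTM in
theorem specCPT : SpecCPT := by
  intro N T
  refine (isCompact_univ_pi fun _ => isCompact_Icc (a := (0 : ℝ)) (b := 1)).of_isClosed_subset ?_ ?_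
  · rw [real_eq]
    exact T.finite_toSet.isClosed_biUnion fun t _ => isClosed_Pc t
  · rintro x ⟨h1, h2, -⟩
    rw [mem_univ_pi]
    intro i
    refine ⟨h1 i, ?_⟩
    rw [← h2]
    exact Finset.single_le_sum (fun j _ => h1 j) (Finset.mem_univ i)

end Pool.Agent.Lib.MP_0b1f3c_gt.TI
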