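import Pool.Agent.Lib.MP_0b1f3c_gt.TI.SpecG

/-!
# The generic directions are dense

Module `DNS` of the generic theorem.
-/

open scoped Manifold ContDiff InnerProductSpace Topology
open Filter Set

noncomputable section

namespace Pool.Agent.Lib.MP_0b1f3c_gt.TI

namespace DNSM

theorem dense_ne (w : E3) (hw : w ≠ 0) : Dense {ξ : E3 | inner ℝ ξ w ≠ (0 : ℝ)} := by
  have h1 : {ξ : E3 | inner ℝ ξ w ≠ (0 : ℝ)} =
      ((LinearMap.ker (innerₛₗ ℝ w) : Submodule ℝ E3) : Set E3)ᶜ := by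
    ext ξ
    simp [real_inner_comm]
  rw [h1, ← interior_eq_empty_iff_dense_compl]
  by_contra hne
  have h2 := Submodule.eq_top_of_nonempty_interior' _ (nonempty_iff_ne_empty.2 hne)
  have h3 : w ∈ LinearMap.ker (innerₛₗ ℝ w) := by rw [h2]; trivial
  rw [LinearMap.mem_ker] at h3
  apply hw
  have h4 : inner ℝ w w = (0 : ℝ) := h3
  exact inner_self_eq_zero.1 h4

theorem isOpen_ne (w : E3) : IsOpen {ξ : E3 | inner ℝ ξ w ≠ (0 : ℝ)} :=
  isOpen_ne_fun (continuous_id.inner continuous_const) continuous_const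

end DNSM

theorem specDNS : SpecDNS := by
  intro N S hS
  have h1 : {ξ : E3 | ∀ v e, inner ℝ ξ (S.P (S.r v e) - S.P v) ≠ (0 : ℝ)} =
      ⋂ i : Fin N × Fin 3, {ξ : E3 | inner ℝ ξ (S.P (S.r i.1 i.2) - S.P i.1) ≠ (0 : ℝ)} := by
    ext ξ
    simp only [Set.mem_ofPred_eq, mem_iInter, Prod.forall]
  rw [h1]
  apply dense_iInter_of_isOpen
  · intro i
    exact DNSM.isOpen_ne _
  · intro i
    apply DNSM.dense_ne
    rw [sub_ne_zero]
    intro h
    have h2 := hS.hP h
    have hk := hS.hk i.1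
    refine hS.hne i.1 _ ?_ h2
    split_ifs <;> omega

end Pool.Agent.Lib.MP_0b1f3c_gt.TI
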