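import Pool.Agent.Lib.MP_0b1f3c_gt.TI.SpecG

/-!
# MP_0b1f3c_gt, smooth tight immersions, module DON (helper43)

Where the local function does not vanish the point is near an edge.
-/

set_option autoImplicit false

open scoped Manifold ContDiff InnerProductSpace Topology
open Filter Set

noncomputable section

namespace Pool.Agent.Lib.MP_0b1f3c_gt.TI

/-- **DON** -/
theorem specDON (hDZO : SpecDZO) (hCPT : SpecCPT) : SpecDON := by
  intro N S hS ψ hψ
  rw [Filter.eventually_all]
  intro v
  set C : Set (Fin N → ℝ) := {x | x ∈ Realization S.T ∧ 1 / 9 ≤ x v ∧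
    ∀ e, x v + x (S.r v e) ≤ 31 / 32} with hC
  have hcl : IsClosed {x : Fin N → ℝ | 1 / 9 ≤ x v ∧ ∀ e, x v + x (S.r v e) ≤ 31 / 32} := by
    apply IsClosed.and
    · exact isClosed_le continuous_const (continuous_apply v)
    · rw [Set.ofPred_forall]
      exact isClosed_iInter fun e =>
        isClosed_le ((continuous_apply v).add (continuous_apply (S.r v e))) continuous_const
  have hCc : IsCompact C := (hCPT N S.T).inter_right hcl
  have h := hDZO N S hS ψ hψ v C hCc (fun x hx => hx.1) (fun x hx => by linarith [hx.2.1])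
    (fun x hx e he => by linarith [hx.2.2 e])
  filter_upwards [h] with δ hδ x hx hv hF
  by_contra hcon
  push Not at hcon
  exact hF (hδ x ⟨hx, hv, hcon⟩)

end Pool.Agent.Lib.MP_0b1f3c_gt.TI
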