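import Pool.Agent.Lib.MP_0b1f3c_gt.TI.SpecG

/-!
# MP_0b1f3c_gt, smooth tight immersions, module DZO (helper43)

On compact sets in the star of a vertex which avoid the edges the local function vanishes.
-/

set_option autoImplicit false

open scoped Manifold ContDiff InnerProductSpace Topology
open Filter Set

noncomputable section

namespace Pool.Agent.Lib.MP_0b1f3c_gt.TI

namespace DZOM

variable {N : ℕ} (S : PolyData N)

theorem continuous_g : Continuous (S.g) := by
  unfold PolyData.g
  exact continuous_finsetSum _ fun i _ => (continuous_apply i).smul continuous_const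

theorem continuous_rho {α : Type} [TopologicalSpace α] (κ : ℝ) {a b c : α → ℝ} (ha : Continuous a)
    (hb : Continuous b) (hc : Continuous c) : Continuous (fun x => rho κ (a x) (b x) (c x)) := by
  unfold rho
  by_cases h : κ = 1
  · simp only [h, if_true]
    exact ((ha.min hb).neg).max (hc.neg.min (ha.max hb))
  · simp only [h, if_false]
    exact ((ha.neg.max hb.neg).min (hb.neg.max hc.neg)).min (ha.neg.max hc.neg)

theorem continuous_loc (v : Fin N) : Continuous (fun x : Fin N → ℝ =>
    rho (S.κ v) (S.X v (S.g x - S.P v)) (S.Y v (S.g x - S.P v)) (S.Z v (S.g x - S.P v))) := by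
  have hg := (continuous_g S).sub (continuous_const (y := S.P v))
  exact continuous_rho _ ((S.X v).continuous.comp hg) ((S.Y v).continuous.comp hg)
    ((S.Z v).continuous.comp hg)

end DZOM

open DZOM in
/-- **DZO** -/
theorem specDZO (hLOC : SpecLOC) (hCNE : SpecCNE) : SpecDZO := by
  intro N S hS ψ hψ v C hC hCT hpos hne
  rcases C.eq_empty_or_nonempty with rfl | hCn
  · exact Eventually.of_forall fun δ x hx => absurd hx (notMem_empty x)
  obtain ⟨x₀, hx₀, hmin⟩ := hC.exists_isMinOn hCn (continuous_loc S v).continuousOn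
  set r₀ := rho (S.κ v) (S.X v (S.g x₀ - S.P v)) (S.Y v (S.g x₀ - S.P v))
    (S.Z v (S.g x₀ - S.P v)) with hr₀
  have hr : 0 < r₀ := (hCNE N S hS v x₀ (hCT hx₀) (hpos x₀ hx₀)).2 (hne x₀ hx₀)
  have hev : ∀ᶠ δ in 𝓝[>] (0 : ℝ), δ ∈ Ioo (0 : ℝ) (r₀ / 2) :=
    Ioo_mem_nhdsGT (by linarith)
  filter_upwards [hev] with δ hδ x hx
  have h1 := hCNE N S hS v x (hCT hx) (hpos x hx)
  have h2 : r₀ ≤ _ := hmin hx
  exact (hLOC ψ hψ δ hδ.1).act (S.κ v) _ _ _ (hS.hκ v) h1.1 (by linarith [hδ.2])

end Pool.Agent.Lib.MP_0b1f3c_gt.TI
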