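import Pool.Agent.Lib.MP_0b1f3c_gt.TI.SpecC

/-!
# EDG: the local function near an edge of the surface
-/

open scoped Manifold ContDiff InnerProductSpace Quaternion

noncomputable section

namespace Pool.Agent.Lib.MP_0b1f3c_gt.TI

namespace EDGM

/-! ## Smooth maxima and minima -/

theorem psi_bound {ψ : ℝ → ℝ} (hψ : IsPsi ψ) : ∃ M, 0 ≤ M ∧ ∀ t, |ψ t - max 0 t| ≤ M := by
  have hc : ContinuousOn (fun t => |ψ t - max 0 t|) (Set.Icc (-1) 1) := by
    have h1 : Continuous ψ := hψ.smooth.continuous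
    fun_prop
  obtain ⟨M, hM⟩ := (isCompact_Icc.image_of_continuousOn hc).bddAbove
  refine ⟨max M 0, le_max_right _ _, fun t => ?_⟩
  rcases le_total t (-1) with h | h
  · rw [hψ.zero t h, max_eq_left (by linarith)]
    simp
  · rcases le_total 1 t with h' | h'
    · rw [hψ.id t h', max_eq_right (by linarith)]
      simp
    · exact (hM (Set.mem_image_of_mem _ ⟨h, h'⟩)).trans (le_max_left _ _)

variable {ψ : ℝ → ℝ} {δ : ℝ}

theorem psiD_zero (hψ : IsPsi ψ) (hδ : 0 < δ) {t : ℝ} (ht : t ≤ -δ) : psiD ψ δ t = 0 := by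
  unfold psiD
  rw [hψ.zero, mul_zero]
  rw [div_le_iff₀ hδ]
  linarith

theorem psiD_id (hψ : IsPsi ψ) (hδ : 0 < δ) {t : ℝ} (ht : δ ≤ t) : psiD ψ δ t = t := by
  unfold psiD
  rw [hψ.id, mul_div_cancel₀ _ hδ.ne']
  rw [le_div_iff₀ hδ]
  linarith

theorem psiD_sym (hψ : IsPsi ψ) (hδ : 0 < δ) (t : ℝ) : psiD ψ δ t - psiD ψ δ (-t) = t := by
  unfold psiD
  rw [← mul_sub, neg_div, hψ.sym, mul_div_cancel₀ _ hδ.ne']

theorem psiD_bound {M : ℝ} (hM : ∀ t, |ψ t - max 0 t| ≤ M) (hδ : 0 < δ) (t : ℝ) :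
    |psiD ψ δ t - max 0 t| ≤ M * δ := by
  unfold psiD
  have h1 : δ * ψ (t / δ) - max 0 t = δ * (ψ (t / δ) - max 0 (t / δ)) := by
    have h2 : max 0 t = δ * max 0 (t / δ) := by
      rw [mul_max_of_nonneg _ _ hδ.le, mul_zero, mul_div_cancel₀ _ hδ.ne']
    rw [mul_sub, ← h2]
  rw [h1, abs_mul, abs_of_pos hδ, mul_comm]
  exact mul_le_mul_of_nonneg_right (hM _) hδ.le

theorem mx_comm (hψ : IsPsi ψ) (hδ : 0 < δ) (a b : ℝ) : mx ψ δ a b = mx ψ δ b a := by
  unfold mx
  have h := psiD_sym hψ hδ (b - a)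
  rw [neg_sub] at h
  linarith

theorem mx_right (hψ : IsPsi ψ) (hδ : 0 < δ) {a b : ℝ} (h : δ ≤ b - a) : mx ψ δ a b = b := by
  unfold mx
  rw [psiD_id hψ hδ h]
  ring

theorem mx_left (hψ : IsPsi ψ) (hδ : 0 < δ) {a b : ℝ} (h : δ ≤ a - b) : mx ψ δ a b = a := by
  unfold mx
  rw [psiD_zero hψ hδ (by linarith)]
  ring

theorem mn_left (hψ : IsPsi ψ) (hδ : 0 < δ) {a b : ℝ} (h : δ ≤ b - a) : mn ψ δ a b = a := by
  unfold mn
  rw [psiD_id hψ hδ h]
  ring

theorem mn_right (hψ : IsPsi ψ) (hδ : 0 < δ) {a b : ℝ} (h : δ ≤ a - b) : mn ψ δ a b = b := by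
  unfold mn
  rw [psiD_zero hψ hδ (by linarith)]
  ring

theorem mn_neg (hψ : IsPsi ψ) (hδ : 0 < δ) (a b : ℝ) : mn ψ δ a b = -mx ψ δ (-a) (-b) := by
  unfold mn mx
  have h := psiD_sym hψ hδ (b - a)
  have h1 : -b - -a = -(b - a) := by ring
  rw [h1]
  linarith

/-- the condition in the local coordinates near the edge `e` -/
def Cond (κ η : ℝ) (e : Fin 3) (X Y Z : ℝ) : Prop :=
  if e = 0 then η < X - Z ∧ η < Y - Z else if e = 1 then η < κ * (Y - X) else η < κ * (X - Y)

theorem cond_shift {κ η : ℝ} {e : Fin 3} {X Y Z : ℝ} (F : ℝ) (h : Cond κ η e X Y Z) :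
    Cond κ η e (X - F) (Y - F) (Z - F) := by
  unfold Cond at h ⊢
  simpa only [sub_sub_sub_cancel_right] using h

theorem formula {κ M η X Y Z : ℝ} (hψ : IsPsi ψ) (hM : ∀ t, |ψ t - max 0 t| ≤ M) (hM0 : 0 ≤ M)
    (hδ : 0 < δ) (hκ : κ = 1 ∨ κ = -1) (hη : (M + 1) * δ < η) (e : Fin 3)
    (h : Cond κ η e X Y Z) :
    locF ψ δ κ X Y Z = (if e = 0 then -κ else 1) *
      mx ψ δ (if e = 0 then -κ * X else if e = 1 then X else Y) (if e = 0 then -κ * Y else Z) := by
  have hδη : δ < η := by nlinarith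
  unfold locF
  unfold Cond at h
  fin_cases e
  · simp only [Fin.zero_eta, if_true] at h ⊢
    rcases hκ with rfl | rfl
    · rw [if_pos rfl]
      have h1 : δ ≤ mn ψ δ X Y - Z := by
        have h2 := psiD_bound hM hδ (Y - X)
        rw [abs_le] at h2
        unfold mn
        rcases max_cases 0 (Y - X) with h3 | h3
        · nlinarith
        · nlinarith
      rw [mx_right hψ hδ h1, mn_neg hψ hδ]
      norm_num
    · rw [if_neg (by norm_num)]
      have h1 : δ ≤ mx ψ δ X Y - Z := by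
        have h2 := psiD_bound hM hδ (Y - X)
        rw [abs_le] at h2
        unfold mx
        rcases max_cases 0 (Y - X) with h3 | h3
        · nlinarith
        · nlinarith
      rw [mx_right hψ hδ h1]
      norm_num
  · have e0 : ((⟨1, by norm_num⟩ : Fin 3) = 0) = False := by simp
    have e1 : ((⟨1, by norm_num⟩ : Fin 3) = 1) = True := by simp
    simp only [e0, e1, if_false, if_true] at h ⊢
    rw [one_mul]
    rcases hκ with rfl | rfl
    · rw [if_pos rfl, mn_left hψ hδ (a := X) (b := Y) (by linarith), mx_comm hψ hδ]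
    · rw [if_neg (by norm_num), mx_left hψ hδ (a := X) (b := Y) (by linarith), mx_comm hψ hδ]
  · have e0 : ((⟨2, by norm_num⟩ : Fin 3) = 0) = False := by simp [Fin.ext_iff]
    have e1 : ((⟨2, by norm_num⟩ : Fin 3) = 1) = False := by simp [Fin.ext_iff]
    simp only [e0, e1, if_false] at h ⊢
    rw [one_mul]
    rcases hκ with rfl | rfl
    · rw [if_pos rfl, mn_right hψ hδ (a := X) (b := Y) (by linarith), mx_comm hψ hδ]
    · rw [if_neg (by norm_num), mx_right hψ hδ (a := X) (b := Y) (by linarith), mx_comm hψ hδ]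

theorem isOpen_cond (κ η : ℝ) (e : Fin 3) {α : Type*} [TopologicalSpace α] {X Y Z : α → ℝ}
    (hX : Continuous X) (hY : Continuous Y) (hZ : Continuous Z) :
    IsOpen {p | Cond κ η e (X p) (Y p) (Z p)} := by
  unfold Cond
  split_ifs
  · exact (isOpen_lt continuous_const (hX.sub hZ)).inter (isOpen_lt continuous_const (hY.sub hZ))
  · exact isOpen_lt continuous_const (continuous_const.mul (hY.sub hX))
  · exact isOpen_lt continuous_const (continuous_const.mul (hX.sub hY))

variable {N : ℕ} {S : PolyData N}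

theorem g_sub (x : Realization S.T) (v : Fin N) :
    S.g x.1 - S.P v = ∑ i, x.1 i • (S.P i - S.P v) := by
  have h := x.2.2.1
  simp only [smul_sub, Finset.sum_sub_distrib, ← Finset.sum_smul, h, one_smul]
  rfl

theorem continuous_g : Continuous fun x : Realization S.T => S.g x.1 := by
  unfold PolyData.g
  exact continuous_finsetSum _ fun i _ =>
    ((continuous_apply i).comp continuous_subtype_val).smul continuous_const

end EDGM

open EDGM

theorem specEDG (hG2 : SpecG2) : SpecEDG := by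
  intro N S hS ψ hψ v e x0 hx0 hr hr8
  obtain ⟨M, hM0, hM⟩ := psi_bound hψ
  have hκ := hS.hκ v
  -- the point of the edge
  have hg0 : S.g x0.1 - S.P v = x0.1 (S.r v e) • (S.P (S.r v e) - S.P v) := by
    rw [g_sub, Finset.sum_eq_single (S.r v e)]
    · intro i _ hi
      by_cases hxi : x0.1 i = 0
      · rw [hxi, zero_smul]
      · rcases hx0 i hxi with h | h
        · rw [h, sub_self, smul_zero]
        · exact absurd h hi
    · simp
  obtain ⟨η, hη, hc0⟩ : ∃ η > 0, Cond (S.κ v) η e (S.X v (S.g x0.1 - S.P v))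
      (S.Y v (S.g x0.1 - S.P v)) (S.Z v (S.g x0.1 - S.P v)) := by
    have hk := hS.hk v
    unfold Cond
    rw [hg0, map_smul, map_smul, map_smul, smul_eq_mul, smul_eq_mul, smul_eq_mul]
    set ρ := x0.1 (S.r v e) with hρ
    fin_cases e
    · have hX : S.X v (S.P (S.r v 0) - S.P v) = 0 := hS.hX v 0 (Nat.zero_le _)
      have hY : S.Y v (S.P (S.r v 0) - S.P v) = 0 := by
        have h1 := hS.hY v (S.k v) (by omega) le_rfl
        unfold PolyData.DY at h1
        rw [hS.hper v] at h1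
        exact h1
      have hZ : S.Z v (S.P (S.r v 0) - S.P v) < 0 := hS.hr0 v
      simp only [Fin.zero_eta, if_true] at hr ⊢
      rw [hX, hY]
      have h2 : ρ * S.Z v (S.P (S.r v 0) - S.P v) < 0 := mul_neg_of_pos_of_neg hr hZ
      refine ⟨-(ρ * S.Z v (S.P (S.r v 0) - S.P v)) / 2, by linarith, ?_, ?_⟩ <;> linarith
    · have hX : S.X v (S.P (S.r v 1) - S.P v) = 0 := hS.hX v (S.k1 v) le_rfl
      have hY : 0 < S.κ v * S.Y v (S.P (S.r v 1) - S.P v) := hS.hr1 v
      have e0 : ((⟨1, by norm_num⟩ : Fin 3) = 0) = False := by simp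
      have e1 : ((⟨1, by norm_num⟩ : Fin 3) = 1) = True := by simp
      simp only [e0, e1, if_false, if_true]
      have e2 : (⟨1, by norm_num⟩ : Fin 3) = 1 := rfl
      rw [e2, hX]
      have h2 : 0 < ρ * (S.κ v * S.Y v (S.P (S.r v 1) - S.P v)) := mul_pos hr hY
      refine ⟨ρ * (S.κ v * S.Y v (S.P (S.r v 1) - S.P v)) / 2, by linarith, ?_⟩
      nlinarith
    · have hY : S.Y v (S.P (S.r v 2) - S.P v) = 0 := hS.hY v (S.k2 v) le_rfl hk.2.2.le
      have hX : 0 < S.κ v * S.X v (S.P (S.r v 2) - S.P v) := hS.hr2 v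
      have e0 : ((⟨2, by norm_num⟩ : Fin 3) = 0) = False := by simp [Fin.ext_iff]
      have e1 : ((⟨2, by norm_num⟩ : Fin 3) = 1) = False := by simp [Fin.ext_iff]
      simp only [e0, e1, if_false]
      have e2 : (⟨2, by norm_num⟩ : Fin 3) = 2 := rfl
      rw [e2, hY]
      have h2 : 0 < ρ * (S.κ v * S.X v (S.P (S.r v 2) - S.P v)) := mul_pos hr hX
      refine ⟨ρ * (S.κ v * S.X v (S.P (S.r v 2) - S.P v)) / 2, by linarith, ?_⟩
      nlinarith
  have hcg := continuous_g (S := S)
  refine ⟨{x | (∀ w, w ≠ v → x.1 w < 1 / 8) ∧ Cond (S.κ v) η e (S.X v (S.g x.1 - S.P v))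
      (S.Y v (S.g x.1 - S.P v)) (S.Z v (S.g x.1 - S.P v))}, ?_, ?_⟩
  · apply Filter.inter_mem
    · have h1 : ∀ w, ∀ᶠ x : Realization S.T in nhds x0, w ≠ v → x.1 w < 1 / 8 := by
        intro w
        by_cases hw : w = v
        · exact Filter.Eventually.of_forall fun x h => absurd hw h
        · have h2 : x0.1 w < 1 / 8 := by
            by_cases h3 : x0.1 w = 0
            · rw [h3]
              norm_num
            · rcases hx0 w h3 with h4 | h4
              · exact absurd h4 hw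
              · rw [h4]
                exact hr8
          have h3 : Continuous fun x : Realization S.T => x.1 w :=
            (continuous_apply w).comp continuous_subtype_val
          exact (h3.continuousAt.eventually_lt continuousAt_const h2).mono fun x hx _ => hx
      exact Filter.eventually_all.2 h1
    · exact (isOpen_cond (S.κ v) η e ((S.X v).continuous.comp (hcg.sub continuous_const))
        ((S.Y v).continuous.comp (hcg.sub continuous_const))
        ((S.Z v).continuous.comp (hcg.sub continuous_const))).mem_nhds hc0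
  · have hev : ∀ᶠ δ in nhdsWithin (0 : ℝ) (Set.Ioi 0), 0 < δ ∧ (M + 1) * δ < η := by
      have h1 : ∀ᶠ δ in nhdsWithin (0 : ℝ) (Set.Ioi 0), 0 < δ := self_mem_nhdsWithin
      have h2 : ∀ᶠ δ in nhdsWithin (0 : ℝ) (Set.Ioi 0), (M + 1) * δ < η := by
        apply Filter.Eventually.filter_mono nhdsWithin_le_nhds
        have h3 : Continuous fun δ : ℝ => (M + 1) * δ := by fun_prop
        exact h3.continuousAt.eventually_lt continuousAt_const (by simpa using hη)
      exact h1.and h2
    refine hev.mono ?_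
    rintro δ ⟨hδ, hδη⟩ x ⟨hx8, hxc⟩
    refine ⟨hx8, ?_⟩
    have hf := hG2 N S hS ψ δ v x hx8
    obtain ⟨d1, d2, d3⟩ := hS.hd v
    have hsub : S.f ψ δ x - S.P v = (S.g x.1 - S.P v) - S.F ψ δ v (S.g x.1) • S.d v := by
      rw [hf]
      abel
    have hcf : Cond (S.κ v) η e (S.X v (S.f ψ δ x - S.P v)) (S.Y v (S.f ψ δ x - S.P v))
        (S.Z v (S.f ψ δ x - S.P v)) := by
      have hL : ∀ L : E3 →L[ℝ] ℝ, L (S.d v) = 1 →
          L (S.f ψ δ x - S.P v) = L (S.g x.1 - S.P v) - S.F ψ δ v (S.g x.1) := by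
        intro L h
        rw [hsub, map_sub, map_smul, h, smul_eq_mul, mul_one]
      rw [hL _ d1, hL _ d2, hL _ d3]
      exact cond_shift _ hxc
    have hopen := (isOpen_cond (S.κ v) η e
      ((S.X v).continuous.comp (continuous_id.sub continuous_const))
      ((S.Y v).continuous.comp (continuous_id.sub continuous_const))
      ((S.Z v).continuous.comp (continuous_id.sub (continuous_const (y := S.P v))))).mem_nhds
        (x := S.f ψ δ x) hcf
    filter_upwards [hopen] with p hp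
    have h1 := formula hψ hM hM0 hδ hκ hδη e hp
    unfold PolyData.F PolyData.sg PolyData.A PolyData.B
    simp only [Function.comp_apply, id_eq, Pi.sub_apply] at h1
    rw [h1]
    congr 2
    · split_ifs <;> simp
    · split_ifs <;> simp

end Pool.Agent.Lib.MP_0b1f3c_gt.TI
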