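import Pool.Agent.Lib.MP_0b1f3c_gt.TI.SpecG
import Pool.Agent.Lib.MP_0b1f3c_gt.TI.EDG

/-!
# Generic part, module ED2 (helper57): the local function near an edge
-/

open scoped Manifold ContDiff InnerProductSpace Topology
open Filter Set

noncomputable section

namespace Pool.Agent.Lib.MP_0b1f3c_gt.TI

namespace ED2M

variable {N : ℕ} (S : PolyData N)

/-- margin of the third form -/
def H (v : Fin N) (e : Fin 3) (q : E3) : ℝ :=
  if e = 0 then min (S.X v q - S.Z v q) (S.Y v q - S.Z v q)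
  else if e = 1 then S.κ v * (S.Y v q - S.X v q) else S.κ v * (S.X v q - S.Y v q)

variable {S}

theorem cond_iff {v : Fin N} {e : Fin 3} {q : E3} {η : ℝ} :
    EDGM.Cond (S.κ v) η e (S.X v q) (S.Y v q) (S.Z v q) ↔ η < H S v e q := by
  unfold EDGM.Cond H
  split_ifs
  · rw [lt_min_iff]
  · rfl
  · rfl

theorem H_cont (v : Fin N) (e : Fin 3) : Continuous (H S v e) := by
  unfold H
  split_ifs
  · exact ((S.X v).continuous.sub (S.Z v).continuous).min ((S.Y v).continuous.sub (S.Z v).continuous)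
  · exact continuous_const.mul ((S.Y v).continuous.sub (S.X v).continuous)
  · exact continuous_const.mul ((S.X v).continuous.sub (S.Y v).continuous)

theorem H_smul (v : Fin N) (e : Fin 3) {t : ℝ} (ht : 0 ≤ t) (q : E3) : H S v e (t • q) = t * H S v e q := by
  unfold H
  simp only [map_smul, smul_eq_mul]
  split_ifs
  · rw [mul_min_of_nonneg _ _ ht]
    congr 1 <;> ring
  · ring
  · ring

theorem H_lip (hS : S.IsSurf) (v : Fin N) (e : Fin 3) :
    ∃ K : ℝ, 0 ≤ K ∧ ∀ p q : E3, H S v e q - K * ‖p - q‖ ≤ H S v e p := by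
  refine ⟨2 * (‖S.X v‖ + ‖S.Y v‖ + ‖S.Z v‖), by positivity, fun p q => ?_⟩
  have hx : |S.X v p - S.X v q| ≤ ‖S.X v‖ * ‖p - q‖ := by
    have := (S.X v).le_opNorm (p - q)
    rwa [map_sub, Real.norm_eq_abs] at this
  have hy : |S.Y v p - S.Y v q| ≤ ‖S.Y v‖ * ‖p - q‖ := by
    have := (S.Y v).le_opNorm (p - q)
    rwa [map_sub, Real.norm_eq_abs] at this
  have hz : |S.Z v p - S.Z v q| ≤ ‖S.Z v‖ * ‖p - q‖ := by
    have := (S.Z v).le_opNorm (p - q)
    rwa [map_sub, Real.norm_eq_abs] at this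
  have nx : 0 ≤ ‖S.X v‖ * ‖p - q‖ := by positivity
  have ny : 0 ≤ ‖S.Y v‖ * ‖p - q‖ := by positivity
  have nz : 0 ≤ ‖S.Z v‖ * ‖p - q‖ := by positivity
  rw [abs_le] at hx hy hz
  have e1 : 2 * (‖S.X v‖ + ‖S.Y v‖ + ‖S.Z v‖) * ‖p - q‖ =
      2 * (‖S.X v‖ * ‖p - q‖) + 2 * (‖S.Y v‖ * ‖p - q‖) + 2 * (‖S.Z v‖ * ‖p - q‖) := by ring
  rw [e1]
  unfold H
  split_ifs
  · rw [le_min_iff]
    constructor
    · have := min_le_left (S.X v q - S.Z v q) (S.Y v q - S.Z v q)
      linarith [hx.1, hx.2, hz.1, hz.2]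
    · have := min_le_right (S.X v q - S.Z v q) (S.Y v q - S.Z v q)
      linarith [hy.1, hy.2, hz.1, hz.2]
  · rcases hS.hκ v with hκ | hκ <;> rw [hκ] <;> linarith [hx.1, hx.2, hy.1, hy.2]
  · rcases hS.hκ v with hκ | hκ <;> rw [hκ] <;> linarith [hx.1, hx.2, hy.1, hy.2]

theorem H_pos (hS : S.IsSurf) (v : Fin N) (e : Fin 3) : 0 < H S v e (S.P (S.r v e) - S.P v) := by
  have hk := hS.hk v
  unfold H
  fin_cases e
  · have hX : S.X v (S.P (S.r v 0) - S.P v) = 0 := hS.hX v 0 (Nat.zero_le _)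
    have hY : S.Y v (S.P (S.r v 0) - S.P v) = 0 := by
      have h1 := hS.hY v (S.k v) (by omega) le_rfl
      unfold PolyData.DY at h1
      rw [hS.hper v] at h1
      exact h1
    have hZ : S.Z v (S.P (S.r v 0) - S.P v) < 0 := hS.hr0 v
    simp only [Fin.zero_eta, if_true]
    rw [hX, hY, min_self]
    linarith
  · have hX : S.X v (S.P (S.r v 1) - S.P v) = 0 := hS.hX v (S.k1 v) le_rfl
    have hY : 0 < S.κ v * S.Y v (S.P (S.r v 1) - S.P v) := hS.hr1 v
    have e0 : ((⟨1, by norm_num⟩ : Fin 3) = 0) = False := by simp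
    have e1 : ((⟨1, by norm_num⟩ : Fin 3) = 1) = True := by simp
    simp only [e0, e1, if_false, if_true]
    have e2 : (⟨1, by norm_num⟩ : Fin 3) = 1 := rfl
    rw [e2, hX, sub_zero]
    exact hY
  · have hY : S.Y v (S.P (S.r v 2) - S.P v) = 0 := hS.hY v (S.k2 v) le_rfl hk.2.2.le
    have hX : 0 < S.κ v * S.X v (S.P (S.r v 2) - S.P v) := hS.hr2 v
    have e0 : ((⟨2, by norm_num⟩ : Fin 3) = 0) = False := by simp [Fin.ext_iff]
    have e1 : ((⟨2, by norm_num⟩ : Fin 3) = 1) = False := by simp [Fin.ext_iff]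
    simp only [e0, e1, if_false]
    have e2 : (⟨2, by norm_num⟩ : Fin 3) = 2 := rfl
    rw [e2, hY, sub_zero]
    exact hX

/-- the formula from the margin -/
theorem frm (hS : S.IsSurf) {ψ : ℝ → ℝ} (hψ : IsPsi ψ) {M δ η : ℝ} (hM : ∀ t, |ψ t - max 0 t| ≤ M)
    (hM0 : 0 ≤ M) (hδ : 0 < δ) (hη : (M + 1) * δ < η) (v : Fin N) (e : Fin 3) {p : E3}
    (h : η < H S v e (p - S.P v)) :
    S.F ψ δ v p = S.sg v e * mx ψ δ (S.A v e (p - S.P v)) (S.B v e (p - S.P v)) := by
  have h1 := EDGM.formula hψ hM hM0 hδ (hS.hκ v) hη e (cond_iff.2 h)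
  unfold PolyData.F PolyData.sg PolyData.A PolyData.B
  rw [h1]
  congr 2
  · split_ifs <;> simp
  · split_ifs <;> simp

/-- the coordinates near the edge -/
theorem third {v w u : Fin N} {x : Fin N → ℝ} (hx : x ∈ Realization S.T) (hvw : w ≠ v) (huv : u ≠ v)
    (huw : u ≠ w) (h : ∀ i, x i ≠ 0 → i = v ∨ i = w ∨ i = u) : x u = 1 - x v - x w := by
  have h1 : ∑ i, x i = ∑ i ∈ ({v, w, u} : Finset (Fin N)), x i := by
    symm
    apply Finset.sum_subset (Finset.subset_univ _)
    intro i _ hi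
    by_contra hne
    apply hi
    simpa using h i hne
  rw [hx.2.1, Finset.sum_insert, Finset.sum_insert, Finset.sum_singleton] at h1
  · linarith
  · simpa using huw.symm
  · simp only [Finset.mem_insert, Finset.mem_singleton, not_or]
    exact ⟨hvw.symm, huv.symm⟩

theorem gsub {x : Fin N → ℝ} (hx : x ∈ Realization S.T) (v : Fin N) :
    S.g x - S.P v = ∑ i, x i • (S.P i - S.P v) := EDGM.g_sub (S := S) ⟨x, hx⟩ v

theorem g_cont : Continuous (S.g) := by
  unfold PolyData.g
  exact continuous_finsetSum _ fun i _ => (continuous_apply i).smul continuous_const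

theorem real_closed (T : Finset (Finset (Fin N))) : IsClosed (Realization T) := by
  have e : Realization T = {x | (∀ i, 0 ≤ x i)} ∩ {x | ∑ i, x i = 1} ∩
      ⋃ t ∈ T, {x | ∀ i, i ∉ t → x i = 0} := by
    ext x
    simp only [Realization, mem_setOf_eq, mem_inter_iff, mem_iUnion, exists_prop]
    constructor
    · rintro ⟨h1, h2, t, ht, h3⟩
      exact ⟨⟨h1, h2⟩, t, ht, fun i hi => by_contra fun hne => hi (h3 i hne)⟩
    · rintro ⟨⟨h1, h2⟩, t, ht, h3⟩
      exact ⟨h1, h2, t, ht, fun i hi => by_contra fun hne => hi (h3 i hne)⟩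
  rw [e]
  refine (IsClosed.inter (IsClosed.inter ?_ ?_) ?_)
  · rw [setOf_forall]
    exact isClosed_iInter fun i => isClosed_le continuous_const (continuous_apply i)
  · exact isClosed_eq (continuous_finsetSum _ fun i _ => continuous_apply i) continuous_const
  · refine Set.Finite.isClosed_biUnion (Finset.finite_toSet T) fun t _ => ?_
    simp only [setOf_forall]
    exact isClosed_iInter fun i => isClosed_iInter fun _ => isClosed_eq (continuous_apply i) continuous_const

theorem real_compact (T : Finset (Finset (Fin N))) : IsCompact (Realization T) := by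
  refine IsCompact.of_isClosed_subset (isCompact_univ_pi fun _ => isCompact_Icc (a := (0 : ℝ)) (b := 1))
    (real_closed T) ?_
  intro x hx i _
  refine ⟨hx.1 i, ?_⟩
  rw [← hx.2.1]
  exact Finset.single_le_sum (fun j _ => hx.1 j) (Finset.mem_univ i)

end ED2M

open ED2M

theorem specED2 (hLOC : SpecLOC) (hED1 : SpecED1) (hDZO : SpecDZO) (hEFA : SpecEFA) : SpecED2 := by
  intro N S hS ψ hψ C hC
  refine eventually_all.2 fun v => eventually_all.2 fun e => ?_
  obtain ⟨M, hM0, hM⟩ := EDGM.psi_bound hψ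
  have hE := hEFA N S hS v e
  obtain ⟨u₁, u₂, L₁, L₂, hL₁, hL₂, hu₁v, hu₂v, hu₁w, hu₂w, hed⟩ := hED1 N S hS v e
  obtain ⟨K, hK0, hK⟩ := H_lip hS v e
  set w := S.r v e with hw
  set c₀ := H S v e (S.P w - S.P v) with hc₀
  have hc₀pos : 0 < c₀ := H_pos hS v e
  have hwv : w ≠ v := hE.rne
  -- the compact set away from the edge
  set Cs : Set (Fin N → ℝ) := {x | x ∈ Realization S.T ∧ 1 / 9 ≤ x v ∧ 1 / 9 ≤ x w ∧
    H S v e (S.g x - S.P v) ≤ c₀ / 18} with hCs
  have hCc : IsCompact Cs := by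
    have e1 : Cs = Realization S.T ∩ ({x | 1 / 9 ≤ x v} ∩ ({x | 1 / 9 ≤ x w} ∩
        {x | H S v e (S.g x - S.P v) ≤ c₀ / 18})) := by
      ext x; simp only [hCs, mem_setOf_eq, mem_inter_iff]
    rw [e1]
    refine (real_compact S.T).inter_right ?_
    refine (isClosed_le continuous_const (continuous_apply v)).inter
      ((isClosed_le continuous_const (continuous_apply w)).inter ?_)
    exact isClosed_le ((H_cont v e).comp (g_cont.sub continuous_const)) continuous_const
  have hedge : ∀ x ∈ Realization S.T, 1 / 9 ≤ x v → 1 / 9 ≤ x w → x v + x w = 1 →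
      c₀ / 9 ≤ H S v e (S.g x - S.P v) := by
    intro x hx hxv hxw h1
    have hz : ∀ i, i ≠ v → i ≠ w → x i = 0 := by
      intro i hi hi'
      rcases hed x hx (by linarith) (by linarith) with ⟨hsup, -, -⟩ | ⟨hsup, -, -⟩
      · by_contra hne
        rcases hsup i hne with e | e | e
        · exact hi e
        · exact hi' e
        · have h3 := third hx hwv hu₁v hu₁w hsup
          rw [e] at hne
          exact hne (by rw [h3]; linarith)
      · by_contra hne
        rcases hsup i hne with e | e | e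
        · exact hi e
        · exact hi' e
        · have h3 := third hx hwv hu₂v hu₂w hsup
          rw [e] at hne
          exact hne (by rw [h3]; linarith)
    have hg : S.g x - S.P v = x w • (S.P w - S.P v) := by
      rw [gsub hx, Finset.sum_eq_single w]
      · intro i _ hi
        by_cases hiv : i = v
        · rw [hiv, sub_self, smul_zero]
        · rw [hz i hiv hi, zero_smul]
      · simp
    rw [hg, H_smul v e (by linarith)]
    nlinarith
  have hCne : ∀ x ∈ Cs, x v + x w ≠ 1 := by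
    intro x hx h1
    have := hedge x hx.1 hx.2.1 hx.2.2.1 h1
    linarith [hx.2.2.2]
  have hsum : ∀ x ∈ Realization S.T, ∀ i j : Fin N, i ≠ j → x i + x j ≤ 1 := by
    intro x hx i j hij
    rw [← hx.2.1, ← Finset.sum_pair hij]
    exact Finset.sum_le_sum_of_subset_of_nonneg (Finset.subset_univ _) fun k _ _ => hx.1 k
  have hsum3 : ∀ x ∈ Realization S.T, ∀ i j k : Fin N, i ≠ j → i ≠ k → j ≠ k → x i + x j + x k ≤ 1 := by
    intro x hx i j k hij hik hjk
    have h3 : ∑ l ∈ ({i, j, k} : Finset (Fin N)), x l = x i + x j + x k := by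
      rw [Finset.sum_insert, Finset.sum_insert, Finset.sum_singleton]
      · ring
      · simpa using hjk
      · simp only [Finset.mem_insert, Finset.mem_singleton, not_or]; exact ⟨hij, hik⟩
    rw [← hx.2.1, ← h3]
    exact Finset.sum_le_sum_of_subset_of_nonneg (Finset.subset_univ _) fun k _ _ => hx.1 k
  have hCe : ∀ x ∈ Cs, ∀ e', x v + x (S.r v e') ≠ 1 := by
    intro x hx e' h1
    by_cases he : S.r v e' = w
    · rw [he] at h1
      exact hCne x hx h1
    · have hr : S.r v e' ≠ v := (hEFA N S hS v e').rne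
      have := hsum3 x hx.1 v (S.r v e') w (Ne.symm hr) hwv.symm he
      linarith [hx.2.2.1]
  have hF0 := hDZO N S hS ψ hψ v Cs hCc (fun x hx => hx.1) (fun x hx => by linarith [hx.2.1]) hCe
  -- lower bound of the third coordinate on Cs
  obtain ⟨m, hm0, hm⟩ : ∃ m : ℝ, 0 < m ∧ ∀ x ∈ Cs, m ≤ 1 - x v - x w := by
    by_cases hne : Cs.Nonempty
    · have hcont : ContinuousOn (fun x : Fin N → ℝ => 1 - x v - x w) Cs := by fun_prop
      obtain ⟨x₀, hx₀, hmin⟩ := hCc.exists_isMinOn hne hcont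
      refine ⟨1 - x₀ v - x₀ w, ?_, fun x hx => hmin hx⟩
      have h1 := hsum x₀ hx₀.1 v w hwv.symm
      have h2 := hCne x₀ hx₀
      rcases lt_or_eq_of_le h1 with h3 | h3
      · linarith
      · exact absurd h3 h2
    · refine ⟨1, one_pos, fun x hx => absurd ⟨x, hx⟩ hne⟩
  -- small δ
  have hev : ∀ᶠ δ in 𝓝[>] (0 : ℝ), 0 < δ ∧ (M + 1) * δ < c₀ / 36 ∧ K * (C * δ) < c₀ / 36 ∧ δ ≤ L₁ * m ∧
      δ ≤ L₂ * m := by
    have t : Tendsto (fun δ : ℝ => δ) (𝓝[>] (0 : ℝ)) (𝓝 0) := nhdsWithin_le_nhds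
    have h1 : ∀ᶠ δ in 𝓝[>] (0 : ℝ), 0 < δ := self_mem_nhdsWithin
    have h2 : ∀ᶠ δ in 𝓝[>] (0 : ℝ), (M + 1) * δ < c₀ / 36 := by
      apply Filter.Eventually.filter_mono nhdsWithin_le_nhds
      have h3 : Continuous fun δ : ℝ => (M + 1) * δ := by fun_prop
      exact h3.continuousAt.eventually_lt continuousAt_const (by simpa using hc₀pos)
    have h3 : ∀ᶠ δ in 𝓝[>] (0 : ℝ), K * (C * δ) < c₀ / 36 := by
      apply Filter.Eventually.filter_mono nhdsWithin_le_nhds
      have h3 : Continuous fun δ : ℝ => K * (C * δ) := by fun_prop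
      exact h3.continuousAt.eventually_lt continuousAt_const (by simpa using hc₀pos)
    have h4 : ∀ᶠ δ in 𝓝[>] (0 : ℝ), δ ≤ L₁ * m := by
      apply Filter.Eventually.filter_mono nhdsWithin_le_nhds
      exact eventually_le_nhds (mul_pos hL₁ hm0)
    have h5 : ∀ᶠ δ in 𝓝[>] (0 : ℝ), δ ≤ L₂ * m := by
      apply Filter.Eventually.filter_mono nhdsWithin_le_nhds
      exact eventually_le_nhds (mul_pos hL₂ hm0)
    filter_upwards [h1, h2, h3, h4, h5] with δ a b c d e
    exact ⟨a, b, c, d, e⟩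
  filter_upwards [hev, hF0] with δ ⟨hδ, hδ1, hδ2, hδ3, hδ4⟩ hF x hx hxv hxw
  have hloc := hLOC ψ hψ δ hδ
  have hAB := hed x hx (by linarith) (by linarith)
  -- the first claim
  have key : S.F ψ δ v (S.g x) =
      S.sg v e * mx ψ δ (S.A v e (S.g x - S.P v)) (S.B v e (S.g x - S.P v)) := by
    by_cases hxC : x ∈ Cs
    · rw [hF x hxC]
      rcases hAB with ⟨hsup, hA, hB⟩ | ⟨hsup, hB, hA⟩
      · have h3 := third hx hwv hu₁v hu₁w hsup
        have h4 := hm x hxC
        rw [← h3] at h4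
        have h5 : L₁ * m ≤ L₁ * x u₁ := mul_le_mul_of_nonneg_left h4 hL₁.le
        rw [hA, hB, hloc.mx_left _ _ (by linarith), mul_zero]
      · have h3 := third hx hwv hu₂v hu₂w hsup
        have h4 := hm x hxC
        rw [← h3] at h4
        have h5 : L₂ * m ≤ L₂ * x u₂ := mul_le_mul_of_nonneg_left h4 hL₂.le
        rw [hA, hB, hloc.mx_comm, hloc.mx_left _ _ (by linarith), mul_zero]
    · have h1 : c₀ / 18 < H S v e (S.g x - S.P v) := by
        by_contra hcc
        exact hxC ⟨hx, hxv, hxw, not_lt.1 hcc⟩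
      exact frm hS hψ hM hM0 hδ hδ1 v e (by linarith)
  have hsg : |S.sg v e| = 1 := by
    have := hE.sg2
    have h2 : |S.sg v e| * |S.sg v e| = 1 := by rw [← abs_mul, this, abs_one]
    have h3 := abs_nonneg (S.sg v e)
    nlinarith
  refine ⟨key, ?_, ?_⟩
  · rw [key, abs_mul, hsg, one_mul]
    have h1 := hloc.mx_ge (S.A v e (S.g x - S.P v)) (S.B v e (S.g x - S.P v))
    have h2 := hloc.mx_le (S.A v e (S.g x - S.P v)) (S.B v e (S.g x - S.P v))
    have h3 : max (S.A v e (S.g x - S.P v)) (S.B v e (S.g x - S.P v)) = 0 := by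
      rcases hAB with ⟨-, hA, hB⟩ | ⟨-, hB, hA⟩
      · rw [hA, hB, max_eq_left]
        have := mul_nonneg hL₁.le (hx.1 u₁)
        linarith
      · rw [hA, hB, max_eq_right]
        have := mul_nonneg hL₂.le (hx.1 u₂)
        linarith
    rw [h3] at h1 h2
    rw [abs_of_nonneg h1]
    linarith
  · intro hne p hp
    have hxC : x ∉ Cs := fun h => hne (hF x h)
    have h1 : c₀ / 18 < H S v e (S.g x - S.P v) := by
      by_contra hcc
      exact hxC ⟨hx, hxv, hxw, not_lt.1 hcc⟩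
    have h2 := hK (p - S.P v) (S.g x - S.P v)
    rw [show p - S.P v - (S.g x - S.P v) = p - S.g x by abel] at h2
    have h3 : K * ‖p - S.g x‖ ≤ K * (C * δ) := mul_le_mul_of_nonneg_left hp hK0
    exact frm hS hψ hM hM0 hδ hδ1 v e (by linarith)

end Pool.Agent.Lib.MP_0b1f3c_gt.TI
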