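import Pool.Agent.Lib.MP_0b1f3c_gt.TI.SpecG

/-!
# Generic part, module ED3 (helper57): the local functions at both ends of an edge
-/

open scoped Manifold ContDiff InnerProductSpace Topology
open Filter Set

noncomputable section

namespace Pool.Agent.Lib.MP_0b1f3c_gt.TI

theorem specED3 (hED2 : SpecED2) (hEFA : SpecEFA) : SpecED3 := by
  intro N S hS ψ hψ
  have h0 : ∀ᶠ δ in 𝓝[>] (0 : ℝ), 0 < δ := self_mem_nhdsWithin
  filter_upwards [hED2 N S hS ψ hψ 1 one_pos, h0] with δ h hδ v e x hx hxv hxw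
  have hE := hEFA N S hS v e
  have h1 := (h v e x hx hxv hxw).1
  have hop := hS.hop v e
  have h2 := (h (S.r v e) (S.op v e) x hx hxw (by rw [hop]; exact hxv)).1
  rw [h2, h1, hE.mxw ψ δ (S.g x) hψ hδ]
  unfold PolyData.sig
  have h3 := hE.sg2
  linear_combination (-(S.sg (S.r v e) (S.op v e) *
    mx ψ δ (S.A v e (S.g x - S.P v)) (S.B v e (S.g x - S.P v)))) * h3

end Pool.Agent.Lib.MP_0b1f3c_gt.TI
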