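import Pool.Agent.Lib.MP_0b1f3c_gt.TI.SpecG

/-!
# EFA: linear algebra at an edge (helper83)
-/

open scoped Manifold ContDiff InnerProductSpace Topology
open Filter Set

noncomputable section

namespace Pool.Agent.Lib.MP_0b1f3c_gt.TI

namespace EFAM

variable {N : ℕ} {S : PolyData N}

theorem mx_comm {ψ : ℝ → ℝ} {δ : ℝ} (hψ : IsPsi ψ) (hδ : 0 < δ) (a b : ℝ) :
    mx ψ δ a b = mx ψ δ b a := by
  have h : psiD ψ δ (b - a) - psiD ψ δ (-(b - a)) = b - a := by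
    unfold psiD
    rw [← mul_sub, neg_div, hψ.sym, mul_div_cancel₀ _ hδ.ne']
  unfold mx
  rw [neg_sub] at h
  linarith

/-- index of the edge `e` in the link -/
def idx (S : PolyData N) (v : Fin N) (e : Fin 3) : ℕ :=
  if e = 0 then 0 else if e = 1 then S.k1 v else S.k2 v

theorem r_eq (v : Fin N) (e : Fin 3) : S.r v e = S.nb v (idx S v e) := rfl

theorem idx_lt (hS : S.IsSurf) (v : Fin N) (e : Fin 3) : idx S v e < S.k v := by
  have h := hS.hk v
  unfold idx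
  split_ifs <;> omega

theorem idx_inj (hS : S.IsSurf) (v : Fin N) {e e' : Fin 3} (h : idx S v e = idx S v e') : e = e' := by
  have hk := hS.hk v
  unfold idx at h
  fin_cases e <;> fin_cases e' <;> simp [Fin.ext_iff] at h ⊢ <;> omega

theorem rinj (hS : S.IsSurf) (v : Fin N) {e e' : Fin 3} (h : S.r v e' = S.r v e) : e' = e := by
  rw [r_eq, r_eq] at h
  exact idx_inj hS v (hS.hnbinj v (idx_lt hS v e') (idx_lt hS v e) h)

theorem k2 (hS : S.IsSurf) (v : Fin N) : S.κ v * S.κ v = 1 := by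
  rcases hS.hκ v with h | h <;> rw [h] <;> norm_num

theorem sg2 (hS : S.IsSurf) (v : Fin N) (e : Fin 3) : S.sg v e * S.sg v e = 1 := by
  have h := k2 hS v
  unfold PolyData.sg
  split_ifs
  · linarith
  · norm_num

/-- local coordinates of the end of the edge -/
theorem r0 (v : Fin N) : S.r v 0 = S.nb v 0 := rfl
theorem r1 (v : Fin N) : S.r v 1 = S.nb v (S.k1 v) := rfl
theorem r2 (v : Fin N) : S.r v 2 = S.nb v (S.k2 v) := rfl

theorem e0 (hS : S.IsSurf) (v : Fin N) : S.X v (S.P (S.r v 0) - S.P v) = 0 ∧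
    S.Y v (S.P (S.r v 0) - S.P v) = 0 ∧ S.Z v (S.P (S.r v 0) - S.P v) < 0 := by
  have hk := hS.hk v
  refine ⟨hS.hX v 0 (Nat.zero_le _), ?_, hS.hr0 v⟩
  have h := hS.hY v (S.k v) (by omega) le_rfl
  unfold PolyData.DY at h
  rw [hS.hper v] at h
  exact h

theorem e1 (hS : S.IsSurf) (v : Fin N) : S.X v (S.P (S.r v 1) - S.P v) = 0 ∧
    S.Z v (S.P (S.r v 1) - S.P v) = 0 ∧ S.Y v (S.P (S.r v 1) - S.P v) ≠ 0 := by
  have hk := hS.hk v
  refine ⟨hS.hX v (S.k1 v) le_rfl, hS.hZ v (S.k1 v) le_rfl (by omega), ?_⟩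
  intro h
  have h1 := hS.hr1 v
  have h2 : S.DY v (S.k1 v) = 0 := h
  rw [h2, mul_zero] at h1
  exact lt_irrefl _ h1

theorem e2 (hS : S.IsSurf) (v : Fin N) : S.Y v (S.P (S.r v 2) - S.P v) = 0 ∧
    S.Z v (S.P (S.r v 2) - S.P v) = 0 ∧ S.X v (S.P (S.r v 2) - S.P v) ≠ 0 := by
  have hk := hS.hk v
  refine ⟨hS.hY v (S.k2 v) le_rfl (by omega), hS.hZ v (S.k2 v) (by omega) le_rfl, ?_⟩
  intro h
  have h1 := hS.hr2 v
  have h2 : S.DX v (S.k2 v) = 0 := h
  rw [h2, mul_zero] at h1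
  exact lt_irrefl _ h1

theorem A_0 (v : Fin N) : S.A v 0 = (-S.κ v) • S.X v := rfl
theorem A_1 (v : Fin N) : S.A v 1 = S.X v := rfl
theorem A_2 (v : Fin N) : S.A v 2 = S.Y v := rfl
theorem B_0 (v : Fin N) : S.B v 0 = (-S.κ v) • S.Y v := rfl
theorem B_1 (v : Fin N) : S.B v 1 = S.Z v := rfl
theorem B_2 (v : Fin N) : S.B v 2 = S.Z v := rfl
theorem sg_0 (v : Fin N) : S.sg v 0 = -S.κ v := rfl
theorem sg_1 (v : Fin N) : S.sg v 1 = 1 := rfl
theorem sg_2 (v : Fin N) : S.sg v 2 = 1 := rfl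

theorem AP (hS : S.IsSurf) (v : Fin N) (e : Fin 3) : S.A v e (S.P (S.r v e) - S.P v) = 0 := by
  match e with
  | 0 => rw [A_0, _root_.smul_apply, (e0 hS v).1, smul_zero]
  | 1 => rw [A_1]; exact (e1 hS v).1
  | 2 => rw [A_2]; exact (e2 hS v).1

theorem BP (hS : S.IsSurf) (v : Fin N) (e : Fin 3) : S.B v e (S.P (S.r v e) - S.P v) = 0 := by
  match e with
  | 0 => rw [B_0, _root_.smul_apply, (e0 hS v).2.1, smul_zero]
  | 1 => rw [B_1]; exact (e1 hS v).2.1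
  | 2 => rw [B_2]; exact (e2 hS v).2.1

theorem Ad (hS : S.IsSurf) (v : Fin N) (e : Fin 3) : S.A v e (S.d v) = S.sg v e := by
  match e with
  | 0 => rw [A_0, _root_.smul_apply, (hS.hd v).1, sg_0, smul_eq_mul, mul_one]
  | 1 => rw [A_1]; exact (hS.hd v).1
  | 2 => rw [A_2]; exact (hS.hd v).2.1

theorem Bd (hS : S.IsSurf) (v : Fin N) (e : Fin 3) : S.B v e (S.d v) = S.sg v e := by
  match e with
  | 0 => rw [B_0, _root_.smul_apply, (hS.hd v).2.1, sg_0, smul_eq_mul, mul_one]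
  | 1 => rw [B_1]; exact (hS.hd v).2.2
  | 2 => rw [B_2]; exact (hS.hd v).2.2

/-- the common kernel of the two forms of an edge -/
theorem ker (hS : S.IsSurf) (v : Fin N) (e : Fin 3) {u : E3} (hA : S.A v e u = 0)
    (hB : S.B v e u = 0) : ∃ c : ℝ, u = c • (S.P (S.r v e) - S.P v) := by
  have hκ : S.κ v ≠ 0 := by
    intro h
    have := k2 hS v
    rw [h] at this
    norm_num at this
  match e with
  | 0 =>
    rw [A_0, _root_.smul_apply, smul_eq_mul, mul_eq_zero, neg_eq_zero] at hA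
    rw [B_0, _root_.smul_apply, smul_eq_mul, mul_eq_zero, neg_eq_zero] at hB
    have hA' := hA.resolve_left hκ
    have hB' := hB.resolve_left hκ
    obtain ⟨h1, h2, h3⟩ := e0 hS v
    refine ⟨S.Z v u / S.Z v (S.P (S.r v 0) - S.P v), ?_⟩
    rw [← sub_eq_zero]
    apply hS.hinj v
    · rw [map_sub, map_smul, h1, hA']; simp
    · rw [map_sub, map_smul, h2, hB']; simp
    · rw [map_sub, map_smul, smul_eq_mul, div_mul_cancel₀ _ h3.ne, sub_self]
  | 1 =>
    rw [A_1] at hA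
    rw [B_1] at hB
    obtain ⟨h1, h2, h3⟩ := e1 hS v
    refine ⟨S.Y v u / S.Y v (S.P (S.r v 1) - S.P v), ?_⟩
    rw [← sub_eq_zero]
    apply hS.hinj v
    · rw [map_sub, map_smul, h1, hA]; simp
    · rw [map_sub, map_smul, smul_eq_mul, div_mul_cancel₀ _ h3, sub_self]
    · rw [map_sub, map_smul, h2, hB]; simp
  | 2 =>
    rw [A_2] at hA
    rw [B_2] at hB
    obtain ⟨h1, h2, h3⟩ := e2 hS v
    refine ⟨S.X v u / S.X v (S.P (S.r v 2) - S.P v), ?_⟩
    rw [← sub_eq_zero]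
    apply hS.hinj v
    · rw [map_sub, map_smul, smul_eq_mul, div_mul_cancel₀ _ h3, sub_self]
    · rw [map_sub, map_smul, h1, hA]; simp
    · rw [map_sub, map_smul, h2, hB]; simp

theorem Lne (hS : S.IsSurf) (v : Fin N) (e : Fin 3) : S.L v (S.P (S.r v e) - S.P v) ≠ 0 := by
  intro h
  rw [PolyData.L_apply] at h
  have h0 := congrArg (fun z : E2 => z 0) h
  have h1 := congrArg (fun z : E2 => z 1) h
  simp only [Matrix.cons_val_zero, Matrix.cons_val_one, PiLp.zero_apply] at h0 h1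
  match e with
  | 0 =>
    obtain ⟨g1, g2, g3⟩ := e0 hS v
    rw [g1] at h0
    linarith
  | 1 =>
    obtain ⟨g1, g2, g3⟩ := e1 hS v
    rw [g2] at h1
    exact g3 (by linarith)
  | 2 =>
    obtain ⟨g1, g2, g3⟩ := e2 hS v
    rw [g2] at h0
    exact g3 (by linarith)

theorem Adw (hS : S.IsSurf) (v : Fin N) (e : Fin 3) :
    S.A v e (S.d (S.r v e)) = S.sg (S.r v e) (S.op v e) ∧
      S.B v e (S.d (S.r v e)) = S.sg (S.r v e) (S.op v e) := by
  rcases hS.hform v e with ⟨h1, h2⟩ | ⟨h1, h2⟩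
  · rw [h1, h2]
    exact ⟨Ad hS _ _, Bd hS _ _⟩
  · rw [h1, h2]
    exact ⟨Bd hS _ _, Ad hS _ _⟩

theorem sub_w (hS : S.IsSurf) (v : Fin N) (e : Fin 3) (p : E3) :
    S.A v e (p - S.P (S.r v e)) = S.A v e (p - S.P v) ∧
      S.B v e (p - S.P (S.r v e)) = S.B v e (p - S.P v) := by
  have h : p - S.P (S.r v e) = (p - S.P v) - (S.P (S.r v e) - S.P v) := by abel
  rw [h, (S.A v e).map_sub (p - S.P v), (S.B v e).map_sub (p - S.P v), AP hS, BP hS, sub_zero, sub_zero]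
  exact ⟨rfl, rfl⟩

end EFAM

open EFAM in
theorem specEFA : SpecEFA := by
  intro N S hS v e
  have hsg := sg2 hS v e
  have hsg' := sg2 hS (S.r v e) (S.op v e)
  refine ⟨hS.hne v _ (idx_lt hS v e).le, fun e' h => rinj hS v h, ?_, hsg, ?_, AP hS v e, BP hS v e,
    Ad hS v e, Bd hS v e, ?_, ?_, Lne hS v e⟩
  · have h1 := hS.hop (S.r v e) (S.op v e)
    rw [hS.hop v e] at h1
    exact rinj hS v h1
  · unfold PolyData.sig
    calc S.sg v e * S.sg (S.r v e) (S.op v e) * (S.sg v e * S.sg (S.r v e) (S.op v e))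
        = (S.sg v e * S.sg v e) * (S.sg (S.r v e) (S.op v e) * S.sg (S.r v e) (S.op v e)) := by ring
      _ = 1 := by rw [hsg, hsg', mul_one]
  · have hAw := Adw hS v e
    refine ker hS v e ?_ ?_
    · rw [map_sub, map_smul, hAw.1, Ad hS, smul_eq_mul, PolyData.sig, mul_assoc, hsg', mul_one, sub_self]
    · rw [map_sub, map_smul, hAw.2, Bd hS, smul_eq_mul, PolyData.sig, mul_assoc, hsg', mul_one, sub_self]
  · intro ψ δ p hψ hδ
    have hw := sub_w hS v e p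
    rcases hS.hform v e with ⟨h1, h2⟩ | ⟨h1, h2⟩
    · rw [← h1, ← h2, hw.1, hw.2]
    · rw [← h1, ← h2, hw.1, hw.2]
      exact mx_comm hψ hδ _ _

end Pool.Agent.Lib.MP_0b1f3c_gt.TI
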