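import Pool.Agent.Lib.MP_0b1f3c_gt.TI.SpecG
import Pool.Agent.Lib.MP_0b1f3c_gt.TI.ED2

/-!
# Generic part, module EM2 (helper57): the chart at an edge
-/

open scoped Manifold ContDiff InnerProductSpace Topology
open Filter Set

noncomputable section

namespace Pool.Agent.Lib.MP_0b1f3c_gt.TI

namespace EM2M

theorem tau_lip (a b : ℝ) : |PolyData.tau a - PolyData.tau b| ≤ 4 * |a - b| := by
  unfold PolyData.tau
  have h1 : ∀ x y : ℝ, |max 0 x - max 0 y| ≤ |x - y| := by
    intro x y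
    have := abs_max_sub_max_le_abs x y 0
    rwa [max_comm x 0, max_comm y 0] at this
  have h2 : ∀ x y : ℝ, |min 1 x - min 1 y| ≤ |x - y| := by
    intro x y
    have := abs_min_sub_min_le_max 1 x 1 y
    rw [sub_self, abs_zero] at this
    refine this.trans ?_
    rw [max_eq_right (abs_nonneg _)]
  refine (h1 _ _).trans ((h2 _ _).trans ?_)
  rw [show 4 * a - 1 / 2 - (4 * b - 1 / 2) = 4 * (a - b) by ring, abs_mul]
  norm_num

variable {N : ℕ} {S : PolyData N}

theorem zone2_open (v : Fin N) (e : Fin 3) : IsOpen (S.zone2 v e) := by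
  have c : ∀ u : Fin N, Continuous fun x : Realization S.T => x.1 u := fun u =>
    (continuous_apply u).comp continuous_subtype_val
  exact (isOpen_lt continuous_const (c v)).inter ((isOpen_lt continuous_const (c (S.r v e))).inter
    (isOpen_lt continuous_const ((c v).add (c (S.r v e)))))

theorem theta_cont (v : Fin N) (e : Fin 3) : Continuous (S.theta v e) := by
  unfold PolyData.theta PolyData.tau
  fun_prop

/-- `g x - P v` for a point supported in `{v, w, u}` -/
theorem g3 {x : Fin N → ℝ} (hx : x ∈ Realization S.T) {v w u : Fin N} (hwv : w ≠ v) (huv : u ≠ v) (huw : u ≠ w)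
    (h : ∀ i, x i ≠ 0 → i = v ∨ i = w ∨ i = u) :
    S.g x - S.P v = x w • (S.P w - S.P v) + x u • (S.P u - S.P v) := by
  rw [ED2M.gsub hx]
  have h1 : ∑ i, x i • (S.P i - S.P v) = ∑ i ∈ ({v, w, u} : Finset (Fin N)), x i • (S.P i - S.P v) := by
    symm
    apply Finset.sum_subset (Finset.subset_univ _)
    intro i _ hi
    by_cases hne : x i = 0
    · rw [hne, zero_smul]
    · exact absurd (by simpa using h i hne) hi
  rw [h1, Finset.sum_insert, Finset.sum_insert, Finset.sum_singleton, sub_self, smul_zero, zero_add]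
  · simpa using huw.symm
  · simp only [Finset.mem_insert, Finset.mem_singleton, not_or]
    exact ⟨hwv.symm, huv.symm⟩

end EM2M

open EM2M ED2M

theorem specEM2 (hZON : SpecZON) (hSTR : SpecSTR) (hJOP : SpecJOP) (hED1 : SpecED1) (hED2 : SpecED2)
    (hEFA : SpecEFA) (hFFA : SpecFFA) (hSHR : SpecSHR) : SpecEM2 := by
  intro N S hS ψ hψ
  have hpar : ∀ v e, ∃ c : ℝ, S.sig v e • S.d (S.r v e) - S.d v = c • (S.P (S.r v e) - S.P v) :=
    fun v e => (hEFA N S hS v e).par
  choose c hc using hpar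
  have h0 : ∀ᶠ δ in 𝓝[>] (0 : ℝ), 0 < δ := self_mem_nhdsWithin
  have hcs : ∀ᶠ δ in 𝓝[>] (0 : ℝ), ∀ v e, |c v e| * δ < 1 / 8 := by
    refine eventually_all.2 fun v => eventually_all.2 fun e => ?_
    apply Filter.Eventually.filter_mono nhdsWithin_le_nhds
    have h3 : Continuous fun δ : ℝ => |c v e| * δ := by fun_prop
    exact h3.continuousAt.eventually_lt continuousAt_const (by norm_num)
  filter_upwards [h0, hcs, hZON N S hS ψ hψ, hED2 N S hS ψ hψ 1 one_pos] with δ hδ hcδ hZ hE v e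
  have hF := hFFA N S hS ψ hψ δ hδ v
  have hEF := hEFA N S hS v e
  set w := S.r v e with hw
  have hwv : w ≠ v := hEF.rne
  obtain ⟨Λ, hΛc, hΛm, hΛj, hΛx⟩ := hSTR N S hS v
  obtain ⟨u₁, u₂, L₁, L₂, hL₁, hL₂, hu₁v, hu₂v, hu₁w, hu₂w, hed⟩ := hED1 N S hS v e
  have hJ := hJOP N S hS v (S.zone2 v e) (zone2_open v e) (fun x hx => by
    have := hx.1
    linarith)
  set q := S.L v (S.P w - S.P v) with hq
  have hq0 : q ≠ 0 := hEF.Lne
  set h : E2 → ℝ := fun y => -(S.F ψ δ v (S.g (Λ y)) * S.theta v e (Λ y) * c v e) with hh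
  have hhc : Continuous h := by
    have h1 : Continuous fun y => S.F ψ δ v (S.g (Λ y)) :=
      hF.smooth.continuous.comp (g_cont.comp hΛc)
    have h2 : Continuous fun y => S.theta v e (Λ y) := (theta_cont v e).comp hΛc
    exact ((h1.mul h2).mul continuous_const).neg
  have hR := hSHR q (Set.range fun x : S.zone2 v e => S.j v x.1.1) h hq0 hJ.isOpen_range hhc.continuousOn (by
    rintro y ⟨⟨x, hx⟩, rfl⟩ t ⟨⟨x', hx'⟩, hxx⟩
    simp only at hxx ⊢
    have e1 : Λ (S.j v x.1) = x.1 := hΛx x.1 x.2 (by have := hx.1; linarith)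
    have e2 : Λ (S.j v x.1 + t • q) = x'.1 := by
      rw [← hxx]
      exact hΛx x'.1 x'.2 (by have := hx'.1; linarith)
    have hxv : 1 / 9 < x.1 v := hx.1
    have hxw : 1 / 9 < x.1 w := hx.2.1
    have hxv' : 1 / 9 < x'.1 v := hx'.1
    have hxw' : 1 / 9 < x'.1 w := hx'.2.1
    -- the linear algebra
    have hL : S.L v (S.g x'.1 - S.P v) = S.L v (S.g x.1 - S.P v + t • (S.P w - S.P v)) := by
      rw [← S.j_eq, hxx, S.j_eq, map_add, map_smul]
    obtain ⟨c', hc'⟩ := hF.ker _ (by rw [map_sub]; exact sub_eq_zero.2 hL :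
      S.L v ((S.g x'.1 - S.P v) - (S.g x.1 - S.P v + t • (S.P w - S.P v))) = 0)
    have hAB : S.A v e (S.g x'.1 - S.P v) - S.B v e (S.g x'.1 - S.P v) =
        S.A v e (S.g x.1 - S.P v) - S.B v e (S.g x.1 - S.P v) := by
      have e3 : S.g x'.1 - S.P v = S.g x.1 - S.P v + t • (S.P w - S.P v) + c' • S.d v := by
        rw [← hc']; abel
      rw [e3]
      simp only [map_add, map_smul, smul_eq_mul]
      have a1 : S.A v e (S.P w - S.P v) = 0 := hEF.AP
      have a2 : S.B v e (S.P w - S.P v) = 0 := hEF.BP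
      rw [a1, a2, hEF.Ad, hEF.Bd]
      ring
    have main : S.A v e (S.g x'.1 - S.P v) = S.A v e (S.g x.1 - S.P v) ∧
        S.B v e (S.g x'.1 - S.P v) = S.B v e (S.g x.1 - S.P v) ∧
        x'.1 v + x'.1 w = x.1 v + x.1 w ∧
        S.g x'.1 - S.g x.1 = (x'.1 w - x.1 w) • (S.P w - S.P v) := by
      rcases hed x.1 x.2 (by linarith) (by linarith) with ⟨hs, hA, hB⟩ | ⟨hs, hB, hA⟩ <;>
        rcases hed x'.1 x'.2 (by linarith) (by linarith) with ⟨hs', hA', hB'⟩ | ⟨hs', hB', hA'⟩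
      · rw [hA, hB, hA', hB'] at hAB
        have h3 : x'.1 u₁ = x.1 u₁ := by
          have : L₁ * x'.1 u₁ = L₁ * x.1 u₁ := by linarith
          exact mul_left_cancel₀ hL₁.ne' this
        have t1 := third x.2 hwv hu₁v hu₁w hs
        have t2 := third x'.2 hwv hu₁v hu₁w hs'
        refine ⟨by rw [hA, hA'], by rw [hB, hB', h3], by linarith, ?_⟩
        rw [show S.g x'.1 - S.g x.1 = (S.g x'.1 - S.P v) - (S.g x.1 - S.P v) by abel,
          g3 x.2 hwv hu₁v hu₁w hs, g3 x'.2 hwv hu₁v hu₁w hs', h3, sub_smul]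
        abel
      · rw [hA, hB, hA', hB'] at hAB
        have p1 : 0 ≤ L₁ * x.1 u₁ := mul_nonneg hL₁.le (x.2.1 u₁)
        have p2 : 0 ≤ L₂ * x'.1 u₂ := mul_nonneg hL₂.le (x'.2.1 u₂)
        have z1 : x.1 u₁ = 0 := by
          have : L₁ * x.1 u₁ = 0 := by linarith
          exact (mul_eq_zero.1 this).resolve_left hL₁.ne'
        have z2 : x'.1 u₂ = 0 := by
          have : L₂ * x'.1 u₂ = 0 := by linarith
          exact (mul_eq_zero.1 this).resolve_left hL₂.ne'
        have t1 := third x.2 hwv hu₁v hu₁w hs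
        have t2 := third x'.2 hwv hu₂v hu₂w hs'
        refine ⟨by rw [hA, hA', z2]; ring, by rw [hB, hB', z1]; ring, by linarith, ?_⟩
        rw [show S.g x'.1 - S.g x.1 = (S.g x'.1 - S.P v) - (S.g x.1 - S.P v) by abel,
          g3 x.2 hwv hu₁v hu₁w hs, g3 x'.2 hwv hu₂v hu₂w hs', z1, z2, sub_smul, zero_smul, zero_smul]
        abel
      · rw [hA, hB, hA', hB'] at hAB
        have p1 : 0 ≤ L₂ * x.1 u₂ := mul_nonneg hL₂.le (x.2.1 u₂)
        have p2 : 0 ≤ L₁ * x'.1 u₁ := mul_nonneg hL₁.le (x'.2.1 u₁)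
        have z1 : x.1 u₂ = 0 := by
          have : L₂ * x.1 u₂ = 0 := by linarith
          exact (mul_eq_zero.1 this).resolve_left hL₂.ne'
        have z2 : x'.1 u₁ = 0 := by
          have : L₁ * x'.1 u₁ = 0 := by linarith
          exact (mul_eq_zero.1 this).resolve_left hL₁.ne'
        have t1 := third x.2 hwv hu₂v hu₂w hs
        have t2 := third x'.2 hwv hu₁v hu₁w hs'
        refine ⟨by rw [hA, hA', z1]; ring, by rw [hB, hB', z2]; ring, by linarith, ?_⟩
        rw [show S.g x'.1 - S.g x.1 = (S.g x'.1 - S.P v) - (S.g x.1 - S.P v) by abel,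
          g3 x.2 hwv hu₂v hu₂w hs, g3 x'.2 hwv hu₁v hu₁w hs', z1, z2, sub_smul, zero_smul, zero_smul]
        abel
      · rw [hA, hB, hA', hB'] at hAB
        have h3 : x'.1 u₂ = x.1 u₂ := by
          have : L₂ * x'.1 u₂ = L₂ * x.1 u₂ := by linarith
          exact mul_left_cancel₀ hL₂.ne' this
        have t1 := third x.2 hwv hu₂v hu₂w hs
        have t2 := third x'.2 hwv hu₂v hu₂w hs'
        refine ⟨by rw [hA, hA', h3], by rw [hB, hB'], by linarith, ?_⟩
        rw [show S.g x'.1 - S.g x.1 = (S.g x'.1 - S.P v) - (S.g x.1 - S.P v) by abel,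
          g3 x.2 hwv hu₂v hu₂w hs, g3 x'.2 hwv hu₂v hu₂w hs', h3, sub_smul]
        abel
    obtain ⟨mA, mB, mS, mg⟩ := main
    have hFF : S.F ψ δ v (S.g x'.1) = S.F ψ δ v (S.g x.1) := by
      rw [(hE v e x.1 x.2 hxv.le hxw.le).1, (hE v e x'.1 x'.2 hxv'.le hxw'.le).1, mA, mB]
    have ht : x'.1 w - x.1 w = t := by
      have e4 : (x'.1 w - x.1 w) • q = t • q := by
        rw [hq, ← map_smul, ← map_smul, ← mg]
        have e5 : S.g x'.1 - S.g x.1 = (S.g x'.1 - S.P v) - (S.g x.1 - S.P v) := by abel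
        rw [e5, map_sub, hL, map_add]
        abel
      have e6 : ((x'.1 w - x.1 w) - t) • q = 0 := by rw [sub_smul, e4, sub_self]
      rcases smul_eq_zero.1 e6 with h7 | h7
      · linarith
      · exact absurd h7 hq0
    have ht' : x'.1 v - x.1 v = -t := by linarith
    have hth : |S.theta v e x'.1 - S.theta v e x.1| ≤ 4 * |t| := by
      have l1 := tau_lip (x'.1 w) (x.1 w)
      have l2 := tau_lip (x'.1 v) (x.1 v)
      rw [ht] at l1
      rw [ht', abs_neg] at l2
      have e7 : S.theta v e x'.1 - S.theta v e x.1 =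
          ((PolyData.tau (x'.1 w) - PolyData.tau (x.1 w)) - (PolyData.tau (x'.1 v) - PolyData.tau (x.1 v))) / 2 := by
        unfold PolyData.theta
        ring
      rw [e7, abs_div, abs_two]
      have l3 := abs_sub (PolyData.tau (x'.1 w) - PolyData.tau (x.1 w)) (PolyData.tau (x'.1 v) - PolyData.tau (x.1 v))
      rw [div_le_iff₀ two_pos]
      linarith
    have hFd := (hE v e x.1 x.2 hxv.le hxw.le).2.1
    show |h (S.j v x.1 + t • q) - h (S.j v x.1)| ≤ |t| / 2
    rw [hh]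
    simp only
    rw [e1, e2, hFF]
    have e8 : -(S.F ψ δ v (S.g x.1) * S.theta v e x'.1 * c v e) - -(S.F ψ δ v (S.g x.1) * S.theta v e x.1 * c v e) =
        -(c v e * S.F ψ δ v (S.g x.1) * (S.theta v e x'.1 - S.theta v e x.1)) := by ring
    rw [e8, abs_neg, abs_mul, abs_mul]
    have b1 : |c v e| * |S.F ψ δ v (S.g x.1)| ≤ |c v e| * δ := mul_le_mul_of_nonneg_left hFd (abs_nonneg _)
    have b2 : |c v e| * |S.F ψ δ v (S.g x.1)| ≤ 1 / 8 := b1.trans (hcδ v e).le
    calc |c v e| * |S.F ψ δ v (S.g x.1)| * |S.theta v e x'.1 - S.theta v e x.1|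
        ≤ 1 / 8 * (4 * |t|) := mul_le_mul b2 hth (abs_nonneg _) (by norm_num)
      _ = |t| / 2 := by ring)
  have hcomp := hR.comp hJ.isEmbedding.toHomeomorph.isOpenEmbedding
  convert hcomp using 1
  funext x
  obtain ⟨x, hx⟩ := x
  simp only [Function.comp]
  have hv : (hJ.isEmbedding.toHomeomorph ⟨x, hx⟩ : Set.range fun x : S.zone2 v e => S.j v x.1.1).1 = S.j v x.1 := rfl
  rw [hv]
  have e1 : Λ (S.j v x.1) = x.1 := hΛx x.1 x.2 (by have := hx.1; linarith)
  rw [hh]
  simp only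
  rw [e1, hZ.1 v e x hx, hc v e, S.j_eq]
  have e2 : S.g x.1 - S.F ψ δ v (S.g x.1) • (S.d v + S.theta v e x.1 • c v e • (S.P (S.r v e) - S.P v)) - S.P v =
      (S.g x.1 - S.P v) - S.F ψ δ v (S.g x.1) • (S.d v + S.theta v e x.1 • c v e • (S.P w - S.P v)) := by
    rw [hw]; abel
  rw [e2, map_sub, map_smul, map_add, map_smul, map_smul, hF.Ld, zero_add, ← hq, smul_smul, smul_smul, neg_smul,
    sub_eq_add_neg]

end Pool.Agent.Lib.MP_0b1f3c_gt.TI
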