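import Pool.Agent.Lib.MP_0b1f3c_gt.TI.Cert

/-!
# EUL: the Euler characteristic of a surface
-/

open scoped Manifold ContDiff InnerProductSpace Quaternion

noncomputable section

namespace Pool.Agent.Lib.MP_0b1f3c_gt.TI

namespace EULM

open Finset

variable {N : ℕ} {S : PolyData N}

/-- double counting -/
theorem dbl (B : Finset (Finset (Fin N))) (c : ℕ) (h : ∀ s ∈ B, s.card = c) :
    ∑ v, (B.filter (fun s => v ∈ s)).card = c * B.card := by
  have h1 : ∀ v, (B.filter (fun s => v ∈ s)).card = ∑ s ∈ B, if v ∈ s then 1 else 0 := by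
    intro v
    rw [card_filter]
  simp only [h1]
  rw [sum_comm]
  have h2 : ∀ s ∈ B, (∑ v : Fin N, if v ∈ s then 1 else 0) = c := by
    intro s hs
    rw [← h s hs, sum_ite_mem, univ_inter, sum_const, smul_eq_mul, mul_one]
  rw [sum_congr rfl h2, sum_const, smul_eq_mul, mul_comm]

/-- index of `i + 1` in `[0, k)` -/
theorem nb_succ (hS : S.IsSurf) (v : Fin N) {i : ℕ} (hi : i < S.k v) :
    ∃ j < S.k v, S.nb v (i + 1) = S.nb v j ∧ (j = i + 1 ∨ (i + 1 = S.k v ∧ j = 0)) := by
  by_cases h : i + 1 < S.k v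
  · exact ⟨i + 1, h, rfl, Or.inl rfl⟩
  · have h' : i + 1 = S.k v := by omega
    exact ⟨0, by omega, by rw [h', hS.hper], Or.inr ⟨h', rfl⟩⟩

theorem nb_inj (hS : S.IsSurf) (v : Fin N) {i j : ℕ} (hi : i < S.k v) (hj : j < S.k v)
    (h : S.nb v i = S.nb v j) : i = j := hS.hnbinj v hi hj h

/-- the triangles at `v` are different -/
theorem tri_inj (hS : S.IsSurf) (v : Fin N) {i j : ℕ} (hi : i < S.k v) (hj : j < S.k v)
    (h : ({v, S.nb v i, S.nb v (i + 1)} : Finset (Fin N)) = {v, S.nb v j, S.nb v (j + 1)}) :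
    i = j := by
  have hk := hS.hk v
  obtain ⟨i', hi', ei, ci⟩ := nb_succ hS v hi
  obtain ⟨j', hj', ej, cj⟩ := nb_succ hS v hj
  have m1 : S.nb v i ∈ ({v, S.nb v j, S.nb v (j + 1)} : Finset (Fin N)) := by rw [← h]; simp
  have m2 : S.nb v (i + 1) ∈ ({v, S.nb v j, S.nb v (j + 1)} : Finset (Fin N)) := by
    rw [← h]; simp
  simp only [mem_insert, mem_singleton] at m1 m2
  rcases m1 with m1 | m1 | m1
  · exact absurd m1 (hS.hne v i hi.le)
  · exact nb_inj hS v hi hj m1
  · rcases m2 with m2 | m2 | m2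
    · exact absurd m2 (hS.hne v (i + 1) hi)
    · rw [ej] at m1
      rw [ei] at m2
      have e1 := nb_inj hS v hi hj' m1
      have e2 := nb_inj hS v hi' hj m2
      omega
    · rw [ej] at m1
      rw [ej, ei] at m2
      have e1 := nb_inj hS v hi hj' m1
      have e2 := nb_inj hS v hi' hj' m2
      omega

/-- number of triangles at `v` -/
theorem card_tri (hS : S.IsSurf) (v : Fin N) : (S.T.filter (fun s => v ∈ s)).card = S.k v := by
  have h1 : S.T.filter (fun s => v ∈ s) =
      (range (S.k v)).image (fun i => ({v, S.nb v i, S.nb v (i + 1)} : Finset (Fin N))) := by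
    ext t
    rw [mem_filter, mem_image]
    constructor
    · rintro ⟨ht, hv⟩
      obtain ⟨i, hi, e⟩ := hS.hT2 t ht v hv
      exact ⟨i, mem_range.2 hi, e.symm⟩
    · rintro ⟨i, hi, rfl⟩
      exact ⟨hS.hT1 v i (mem_range.1 hi), by simp⟩
  rw [h1, card_image_of_injOn, card_range]
  intro i hi j hj h
  exact tri_inj hS v (by simpa using hi) (by simpa using hj) h

/-- the faces -/
def K (S : PolyData N) : Finset (Finset (Fin N)) :=
  (S.T.biUnion Finset.powerset).filter (fun s => s.Nonempty)

theorem mem_K {s : Finset (Fin N)} : s ∈ K S ↔ (∃ t ∈ S.T, s ⊆ t) ∧ s.Nonempty := by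
  unfold K
  rw [mem_filter, mem_biUnion]
  simp only [mem_powerset]

/-- number of edges at `v` -/
theorem card_edge (hS : S.IsSurf) (v : Fin N) :
    (((K S).filter (fun s => s.card = 2)).filter (fun s => v ∈ s)).card = S.k v := by
  have h1 : ((K S).filter (fun s => s.card = 2)).filter (fun s => v ∈ s) =
      (range (S.k v)).image (fun i => ({v, S.nb v i} : Finset (Fin N))) := by
    ext s
    rw [mem_filter, mem_filter, mem_image, mem_K]
    constructor
    · rintro ⟨⟨⟨⟨t, ht, hst⟩, -⟩, h2⟩, hv⟩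
      obtain ⟨a, b, hab, rfl⟩ := card_eq_two.1 h2
      obtain ⟨i, hi, rfl⟩ := hS.hT2 t ht v (hst hv)
      obtain ⟨i', hi', ei, -⟩ := nb_succ hS v hi
      have key : ∀ w, w ∈ ({v, S.nb v i, S.nb v (i + 1)} : Finset (Fin N)) → w ≠ v →
          ∃ j ∈ range (S.k v), ({v, S.nb v j} : Finset (Fin N)) = {v, w} := by
        intro w hw hwv
        simp only [mem_insert, mem_singleton] at hw
        rcases hw with hw | hw | hw
        · exact absurd hw hwv
        · exact ⟨i, mem_range.2 hi, by rw [hw]⟩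
        · exact ⟨i', mem_range.2 hi', by rw [hw, ei]⟩
      rw [mem_insert, mem_singleton] at hv
      rcases hv with rfl | rfl
      · exact key b (hst (by simp)) hab.symm
      · rw [pair_comm a v]
        exact key a (hst (by simp)) hab
    · rintro ⟨i, hi, rfl⟩
      have hi := mem_range.1 hi
      refine ⟨⟨⟨⟨_, hS.hT1 v i hi, ?_⟩, ⟨v, by simp⟩⟩, card_pair (hS.hne v i hi.le).symm⟩, by simp⟩
      intro w hw
      rw [mem_insert, mem_singleton] at hw
      rcases hw with rfl | rfl <;> simp
  rw [h1, card_image_of_injOn, card_range]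
  intro i hi j hj h
  have hi' : i < S.k v := by simpa using hi
  have hj' : j < S.k v := by simpa using hj
  have m1 : S.nb v i ∈ ({v, S.nb v j} : Finset (Fin N)) := by
    have : S.nb v i ∈ ({v, S.nb v i} : Finset (Fin N)) := by simp
    exact (show ({v, S.nb v i} : Finset (Fin N)) = {v, S.nb v j} from h) ▸ this
  rw [mem_insert, mem_singleton] at m1
  rcases m1 with m1 | m1
  · exact absurd m1 (hS.hne v i hi'.le)
  · exact nb_inj hS v hi' hj' m1

theorem card_one (hS : S.IsSurf) : ((K S).filter (fun s => s.card = 1)).card = N := by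
  have h1 : (K S).filter (fun s => s.card = 1) = (univ : Finset (Fin N)).image (fun v => {v}) := by
    ext s
    rw [mem_filter, mem_image, mem_K, card_eq_one]
    constructor
    · rintro ⟨-, v, rfl⟩
      exact ⟨v, mem_univ _, rfl⟩
    · rintro ⟨v, -, rfl⟩
      have hk := hS.hk v
      exact ⟨⟨⟨_, hS.hT1 v 0 (by omega), by simp⟩, by simp⟩, v, rfl⟩
  rw [h1, card_image_of_injective _ singleton_injective, card_univ, Fintype.card_fin]

theorem card_three (hS : S.IsSurf) : (K S).filter (fun s => s.card = 3) = S.T := by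
  ext s
  rw [mem_filter, mem_K]
  constructor
  · rintro ⟨⟨⟨t, ht, hst⟩, -⟩, h3⟩
    rw [eq_of_subset_of_card_le hst (by rw [h3, hS.hcard t ht])]
    exact ht
  · intro hs
    have h3 := hS.hcard s hs
    exact ⟨⟨⟨s, hs, Subset.refl _⟩, card_pos.1 (by omega)⟩, h3⟩

end EULM

open EULM Finset in
/-- **EUL** -/
theorem specEUL : SpecEUL := by
  intro N S hS
  have h0 : eulerChar S.T = ((K S).filter (fun s => s.card = 1)).card -
      ((K S).filter (fun s => s.card = 2)).card + ((K S).filter (fun s => s.card = 3)).card := by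
    have e1 : eulerChar S.T = ∑ s ∈ K S, ((if s.card = 1 then (1 : ℤ) else 0) -
        (if s.card = 2 then 1 else 0) + (if s.card = 3 then 1 else 0)) := by
      unfold eulerChar
      refine sum_congr rfl fun s hs => ?_
      have hs' : s ∈ K S := hs
      rw [mem_K] at hs'
      obtain ⟨⟨t, ht, hst⟩, hne⟩ := hs'
      have h1 := card_le_card hst
      rw [hS.hcard t ht] at h1
      have h2 := card_pos.2 hne
      have h3 : s.card = 1 ∨ s.card = 2 ∨ s.card = 3 := by omega
      rcases h3 with h3 | h3 | h3 <;> rw [h3] <;> norm_num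
    rw [e1, sum_add_distrib, sum_sub_distrib, card_filter, card_filter, card_filter]
    push_cast
    rfl
  have h2 := dbl ((K S).filter (fun s => s.card = 2)) 2 (fun s hs => (mem_filter.1 hs).2)
  have h3 := dbl S.T 3 hS.hcard
  simp only [card_edge hS] at h2
  simp only [card_tri hS] at h3
  rw [h0, card_one hS, card_three hS]
  have h2' : (∑ v, (S.k v : ℤ)) = 2 * ((K S).filter (fun s => s.card = 2)).card := by
    exact_mod_cast h2
  have h3' : (∑ v, (S.k v : ℤ)) = 3 * S.T.card := by exact_mod_cast h3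
  linarith

end Pool.Agent.Lib.MP_0b1f3c_gt.TI
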