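import Pool.Agent.Lib.MP_0b1f3c_gt.TI.SpecG

/-!
# FAN: the cones over consecutive vectors tile the plane
-/

open scoped Manifold ContDiff InnerProductSpace Topology
open Filter Set

noncomputable section

namespace Pool.Agent.Lib.MP_0b1f3c_gt.TI

namespace FANM

/-- a descent between a nonnegative and a negative value -/
theorem desc (s : ℕ → ℝ) (a b : ℕ) (hab : a ≤ b) (ha : 0 ≤ s a) (hb : s b < 0) :
    ∃ i, a ≤ i ∧ i < b ∧ 0 ≤ s i ∧ s (i + 1) < 0 := by
  classical
  have hex : ∃ m, s (a + m) < 0 := ⟨b - a, by rwa [Nat.add_sub_cancel' hab]⟩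
  have h1 := Nat.find_spec hex
  have h2 : Nat.find hex ≤ b - a := Nat.find_min' hex (by rwa [Nat.add_sub_cancel' hab])
  have h3 : Nat.find hex ≠ 0 := by
    intro h
    rw [h, add_zero] at h1
    linarith
  obtain ⟨n, hn⟩ := Nat.exists_eq_succ_of_ne_zero h3
  have h4 : ¬ s (a + n) < 0 := Nat.find_min hex (by omega)
  rw [hn] at h1 h2
  exact ⟨a + n, by omega, by omega, not_lt.1 h4, h1⟩

/-- the case `s 0 > 0` -/
theorem pos (s c D : ℕ → ℝ) (k k3 : ℕ) (hP : ∀ i < k, c i * s (i + 1) = c (i + 1) * s i - s 0 * D i)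
    (hD : ∀ i < k, 0 < D i) (hc : ∀ i < k3, 0 ≤ c i) (hc' : ∀ i, k3 ≤ i → i < k → c i < 0)
    (hk : s k = s 0) (h0 : 0 < k3) (h3 : k3 < k) (hs : 0 < s 0) :
    ∃! i, i < k ∧ 0 ≤ s i ∧ s (i + 1) < 0 := by
  have U : ∀ i, i + 1 < k3 → s i ≤ 0 → s (i + 1) < 0 := by
    intro i hi hsi
    have h1 := hP i (by omega)
    have h2 : c (i + 1) * s i ≤ 0 := mul_nonpos_of_nonneg_of_nonpos (hc _ hi) hsi
    have h4 : 0 < s 0 * D i := mul_pos hs (hD i (by omega))
    have h5 : c i * s (i + 1) < 0 := by linarith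
    by_contra h6
    have := mul_nonneg (hc i (by omega)) (not_lt.1 h6)
    linarith
  have L : ∀ i, k3 ≤ i → i < k → 0 ≤ s i → 0 < s (i + 1) := by
    intro i hi hik hsi
    rcases Nat.lt_or_ge (i + 1) k with h | h
    · have h1 := hP i hik
      have h2 : c (i + 1) * s i ≤ 0 :=
        mul_nonpos_of_nonpos_of_nonneg (hc' _ (by omega) h).le hsi
      have h4 : 0 < s 0 * D i := mul_pos hs (hD i hik)
      have h5 : c i * s (i + 1) < 0 := by linarith
      by_contra h6
      have := mul_nonneg_of_nonpos_of_nonpos (hc' i hi hik).le (not_lt.1 h6)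
      linarith
    · have : i + 1 = k := by omega
      rw [this, hk]
      exact hs
  have hlt : ∀ i, i < k → 0 ≤ s i → s (i + 1) < 0 → i < k3 := by
    intro i hik hsi hsi'
    by_contra h
    have := L i (not_lt.1 h) hik hsi
    linarith
  have hneg : ∀ i, i < k → 0 ≤ s i → s (i + 1) < 0 → ∀ j, i < j → j < k3 → s j < 0 := by
    intro i hik hsi hsi' j hj
    induction j, hj using Nat.le_induction with
    | base => exact fun _ => hsi'
    | succ m hm ih =>
      intro hm'
      exact U m hm' (ih (by omega)).le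
  have hex : ∃ j, j < k ∧ s j < 0 := by
    by_contra hno
    push Not at hno
    have h1 := hP (k3 - 1) (by omega)
    rw [Nat.sub_add_cancel h0] at h1
    have h2 : 0 ≤ c (k3 - 1) * s k3 := mul_nonneg (hc _ (by omega)) (hno k3 h3)
    have h4 : c k3 * s (k3 - 1) ≤ 0 :=
      mul_nonpos_of_nonpos_of_nonneg (hc' k3 le_rfl h3).le (hno _ (by omega))
    have h5 : 0 < s 0 * D (k3 - 1) := mul_pos hs (hD _ (by omega))
    linarith
  obtain ⟨j, hjk, hj⟩ := hex
  obtain ⟨i, -, hij, hi1, hi2⟩ := desc s 0 j (Nat.zero_le _) hs.le hj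
  refine ⟨i, ⟨by omega, hi1, hi2⟩, ?_⟩
  rintro m ⟨hmk, hm1, hm2⟩
  have hik : i < k := by omega
  rcases lt_trichotomy m i with h | h | h
  · have := hneg m hmk hm1 hm2 i h (hlt i hik hi1 hi2)
    linarith
  · exact h
  · have := hneg i hik hi1 hi2 m h (hlt m hmk hm1 hm2)
    linarith

/-- the case `s 0 < 0` -/
theorem neg (s c D : ℕ → ℝ) (k k3 : ℕ) (hP : ∀ i < k, c i * s (i + 1) = c (i + 1) * s i - s 0 * D i)
    (hD : ∀ i < k, 0 < D i) (hc : ∀ i < k3, 0 ≤ c i) (hc' : ∀ i, k3 ≤ i → i < k → c i < 0)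
    (hk : s k = s 0) (h0 : 0 < k3) (h3 : k3 < k) (hs : s 0 < 0) :
    ∃! i, i < k ∧ 0 ≤ s i ∧ s (i + 1) < 0 := by
  have U : ∀ i, i + 1 < k3 → 0 ≤ s i → 0 < s (i + 1) := by
    intro i hi hsi
    have h1 := hP i (by omega)
    have h2 : 0 ≤ c (i + 1) * s i := mul_nonneg (hc _ hi) hsi
    have h4 : s 0 * D i < 0 := mul_neg_of_neg_of_pos hs (hD i (by omega))
    have h5 : 0 < c i * s (i + 1) := by linarith
    by_contra h6
    have := mul_nonpos_of_nonneg_of_nonpos (hc i (by omega)) (not_lt.1 h6)
    linarith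
  have L : ∀ i, k3 ≤ i → i < k → s i ≤ 0 → s (i + 1) < 0 := by
    intro i hi hik hsi
    rcases Nat.lt_or_ge (i + 1) k with h | h
    · have h1 := hP i hik
      have h2 : 0 ≤ c (i + 1) * s i :=
        mul_nonneg_of_nonpos_of_nonpos (hc' _ (by omega) h).le hsi
      have h4 : s 0 * D i < 0 := mul_neg_of_neg_of_pos hs (hD i hik)
      have h5 : 0 < c i * s (i + 1) := by linarith
      by_contra h6
      have := mul_nonpos_of_nonpos_of_nonneg (hc' i hi hik).le (not_lt.1 h6)
      linarith
    · have : i + 1 = k := by omega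
      rw [this, hk]
      exact hs
  have hge : ∀ i, i < k → 0 ≤ s i → s (i + 1) < 0 → k3 ≤ i + 1 := by
    intro i hik hsi hsi'
    by_contra h
    have := U i (not_le.1 h) hsi
    linarith
  have hneg : ∀ i, i < k → 0 ≤ s i → s (i + 1) < 0 → ∀ j, i < j → j < k → s j < 0 := by
    intro i hik hsi hsi' j hj
    induction j, hj using Nat.le_induction with
    | base => exact fun _ => hsi'
    | succ m hm ih =>
      intro hm'
      exact L m (by have := hge i hik hsi hsi'; omega) (by omega) (ih (by omega)).le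
  have hex : ∃ j, j < k ∧ 0 < s j := by
    by_contra hno
    push Not at hno
    have h1 := hP (k3 - 1) (by omega)
    rw [Nat.sub_add_cancel h0] at h1
    have h2 : c (k3 - 1) * s k3 ≤ 0 := mul_nonpos_of_nonneg_of_nonpos (hc _ (by omega)) (hno k3 h3)
    have h4 : 0 ≤ c k3 * s (k3 - 1) :=
      mul_nonneg_of_nonpos_of_nonpos (hc' k3 le_rfl h3).le (hno _ (by omega))
    have h5 : s 0 * D (k3 - 1) < 0 := mul_neg_of_neg_of_pos hs (hD _ (by omega))
    linarith
  obtain ⟨j, hjk, hj⟩ := hex
  obtain ⟨i, hji, hik, hi1, hi2⟩ := desc s j k hjk.le hj.le (by rw [hk]; exact hs)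
  refine ⟨i, ⟨hik, hi1, hi2⟩, ?_⟩
  rintro m ⟨hmk, hm1, hm2⟩
  rcases lt_trichotomy m i with h | h | h
  · have := hneg m hmk hm1 hm2 i h hik
    linarith
  · exact h
  · have := hneg i hik hi1 hi2 m h hmk
    linarith

/-- a vector parallel to a nonzero vector -/
theorem exists_smul {p y : ℝ × ℝ} (hp : p ≠ 0) (h : cr p y = 0) : ∃ c : ℝ, y = c • p := by
  unfold cr at h
  obtain ⟨p1, p2⟩ := p
  obtain ⟨y1, y2⟩ := y
  simp only at h
  by_cases h1 : p1 = 0
  · have h2 : p2 ≠ 0 := by
      rintro rfl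
      exact hp (by rw [h1]; rfl)
    refine ⟨y2 / p2, ?_⟩
    ext
    · simp only [Prod.smul_mk, smul_eq_mul]
      rw [h1] at h ⊢
      have h3 : p2 * y1 = 0 := by linarith
      rcases mul_eq_zero.1 h3 with h4 | h4
      · exact absurd h4 h2
      · rw [h4, mul_zero]
    · simp only [Prod.smul_mk, smul_eq_mul]
      field_simp
  · refine ⟨y1 / p1, ?_⟩
    ext
    · simp only [Prod.smul_mk, smul_eq_mul]
      field_simp
    · simp only [Prod.smul_mk, smul_eq_mul]
      field_simp
      linarith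

end FANM

open FANM in
theorem specFAN : SpecFAN := by
  intro κ k k3 q hκ hqk h03 h3k hD hc1 hc2 y hy
  have hκ2 : κ * κ = 1 := by rcases hκ with rfl | rfl <;> norm_num
  have hκ0 : κ ≠ 0 := by
    rintro rfl
    norm_num at hκ2
  have hcr0 : ∀ p : ℝ × ℝ, cr p p = 0 := fun p => by
    unfold cr
    ring
  have hc : ∀ i < k3, 0 ≤ κ * cr (q 0) (q i) := by
    intro i hi
    rcases Nat.eq_zero_or_pos i with rfl | h
    · rw [hcr0, mul_zero]
    · exact hc1 i h hi
  have h3 : k3 < k := by
    rcases Nat.lt_or_ge k3 k with h | h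
    · exact h
    · exfalso
      have hk : k3 = k := le_antisymm h3k h
      have h1 := hD (k - 1) (by omega)
      rw [Nat.sub_add_cancel (by omega), hqk] at h1
      have h2 := hc (k - 1) (by omega)
      have h4 : cr (q (k - 1)) (q 0) = -cr (q 0) (q (k - 1)) := by
        unfold cr
        ring
      rw [h4] at h1
      linarith
  have hPl : ∀ i, κ * cr (q 0) (q i) * (κ * cr (q (i + 1)) y) =
      κ * cr (q 0) (q (i + 1)) * (κ * cr (q i) y) -
        κ * cr (q 0) y * (κ * cr (q i) (q (i + 1))) := by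
    intro i
    have : κ * cr (q 0) (q i) * (κ * cr (q (i + 1)) y) -
      (κ * cr (q 0) (q (i + 1)) * (κ * cr (q i) y) -
        κ * cr (q 0) y * (κ * cr (q i) (q (i + 1)))) = 0 := by
      unfold cr
      ring
    linarith
  rcases lt_trichotomy (κ * cr (q 0) y) 0 with hs | hs | hs
  · exact neg (fun i => κ * cr (q i) y) (fun i => κ * cr (q 0) (q i))
      (fun i => κ * cr (q i) (q (i + 1))) k k3 (fun i _ => hPl i) hD hc hc2
      (by simp only [hqk]) h03 h3 hs
  · -- `y` is a multiple of `q 0`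
    have hq0 : q 0 ≠ 0 := by
      intro h
      have := hD 0 (by omega)
      rw [h] at this
      simp [cr] at this
    have hcry : cr (q 0) y = 0 := by
      rcases mul_eq_zero.1 hs with h | h
      · exact absurd h hκ0
      · exact h
    obtain ⟨l, rfl⟩ := exists_smul hq0 hcry
    have hl : l ≠ 0 := by
      rintro rfl
      exact hy (zero_smul _ _)
    have hsi : ∀ i, κ * cr (q i) (l • q 0) = -l * (κ * cr (q 0) (q i)) := by
      intro i
      simp only [cr, Prod.smul_fst, Prod.smul_snd, smul_eq_mul]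
      ring
    simp only [hsi]
    have hck : κ * cr (q 0) (q k) = 0 := by
      rw [hqk, hcr0, mul_zero]
    rcases lt_or_gt_of_ne hl with hl | hl
    · -- `l < 0`
      have hl' : 0 < -l := by linarith
      refine ⟨k3 - 1, ⟨by omega, mul_nonneg hl'.le (hc _ (by omega)), ?_⟩, ?_⟩
      · rw [Nat.sub_add_cancel h03]
        exact mul_neg_of_pos_of_neg hl' (hc2 k3 le_rfl h3)
      · rintro m ⟨hmk, hm1, hm2⟩
        have h1 : m < k3 := by
          by_contra h
          have := mul_neg_of_pos_of_neg hl' (hc2 m (not_lt.1 h) hmk)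
          linarith
        have h2 : k3 ≤ m + 1 := by
          by_contra h
          have := mul_nonneg hl'.le (hc (m + 1) (not_le.1 h))
          linarith
        omega
    · -- `l > 0`
      have hl' : -l < 0 := by linarith
      refine ⟨0, ⟨by omega, ?_, ?_⟩, ?_⟩
      · rw [hcr0, mul_zero, mul_zero]
      · exact mul_neg_of_neg_of_pos hl' (hD 0 (by omega))
      · rintro m ⟨hmk, hm1, hm2⟩
        have hcm : κ * cr (q 0) (q m) ≤ 0 := by
          by_contra h
          have := mul_neg_of_neg_of_pos hl' (not_le.1 h)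
          linarith
        have hcm' : 0 < κ * cr (q 0) (q (m + 1)) := by
          by_contra h
          have := mul_nonneg_of_nonpos_of_nonpos hl'.le (not_lt.1 h)
          linarith
        have hm3 : m + 1 < k3 := by
          by_contra h
          rcases Nat.lt_or_ge (m + 1) k with h1 | h1
          · have := hc2 (m + 1) (not_lt.1 h) h1
            linarith
          · have h2 : m + 1 = k := by omega
            rw [h2, hck] at hcm'
            exact lt_irrefl _ hcm'
        by_contra hm0
        have hcm0 : κ * cr (q 0) (q m) = 0 := le_antisymm hcm (hc m (by omega))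
        have hcrm : cr (q 0) (q m) = 0 := by
          rcases mul_eq_zero.1 hcm0 with h | h
          · exact absurd h hκ0
          · exact h
        obtain ⟨ν, hν⟩ := exists_smul hq0 hcrm
        have h1 := hD m hmk
        have h2 : κ * cr (q m) (q (m + 1)) = ν * (κ * cr (q 0) (q (m + 1))) := by
          rw [hν]
          simp only [cr, Prod.smul_fst, Prod.smul_snd, smul_eq_mul]
          ring
        rw [h2] at h1
        have hνp : 0 < ν := by
          by_contra h
          have := mul_nonpos_of_nonpos_of_nonneg (not_lt.1 h) hcm'.le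
          linarith
        have h4 := hD (m - 1) (by omega)
        rw [Nat.sub_add_cancel (Nat.pos_of_ne_zero hm0), hν] at h4
        have h5 : κ * cr (q (m - 1)) (ν • q 0) = -(ν * (κ * cr (q 0) (q (m - 1)))) := by
          simp only [cr, Prod.smul_fst, Prod.smul_snd, smul_eq_mul]
          ring
        rw [h5] at h4
        have := mul_nonneg hνp.le (hc (m - 1) (by omega))
        linarith
  · exact pos (fun i => κ * cr (q i) y) (fun i => κ * cr (q 0) (q i))
      (fun i => κ * cr (q i) (q (i + 1))) k k3 (fun i _ => hPl i) hD hc hc2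
      (by simp only [hqk]) h03 h3 hs

end Pool.Agent.Lib.MP_0b1f3c_gt.TI
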