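import Pool.Agent.Lib.MP_0b1f3c_gt.TI.SpecG

/-!
# Module FFA: the local function `F v`
-/

open scoped Manifold ContDiff InnerProductSpace Topology
open Filter Set

noncomputable section

namespace Pool.Agent.Lib.MP_0b1f3c_gt.TI

namespace FFAM

variable {N : ℕ}

/-- the three forms as a linear map to `ℝ³` -/
def X3 (S : PolyData N) (v : Fin N) : E3 →ₗ[ℝ] (Fin 3 → ℝ) :=
  LinearMap.pi ![(S.X v : E3 →ₗ[ℝ] ℝ), (S.Y v : E3 →ₗ[ℝ] ℝ), (S.Z v : E3 →ₗ[ℝ] ℝ)]

theorem X3_0 (S : PolyData N) (v : Fin N) (p : E3) : X3 S v p 0 = S.X v p := rfl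
theorem X3_1 (S : PolyData N) (v : Fin N) (p : E3) : X3 S v p 1 = S.Y v p := rfl
theorem X3_2 (S : PolyData N) (v : Fin N) (p : E3) : X3 S v p 2 = S.Z v p := rfl

theorem X3_inj (S : PolyData N) (hS : S.IsSurf) (v : Fin N) : Function.Injective (X3 S v) := by
  rw [← LinearMap.ker_eq_bot, LinearMap.ker_eq_bot']
  intro p hp
  have h0 := congrFun hp 0
  have h1 := congrFun hp 1
  have h2 := congrFun hp 2
  rw [X3_0] at h0
  rw [X3_1] at h1
  rw [X3_2] at h2
  exact hS.hinj v p h0 h1 h2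

theorem X3_surj (S : PolyData N) (hS : S.IsSurf) (v : Fin N) (a b c : ℝ) :
    ∃ p : E3, S.X v p = a ∧ S.Y v p = b ∧ S.Z v p = c := by
  have h1 : Module.finrank ℝ E3 = Module.finrank ℝ (Fin 3 → ℝ) := by simp
  have h2 : Function.Surjective (X3 S v) :=
    (LinearMap.injective_iff_surjective_of_finrank_eq_finrank h1).mp (X3_inj S hS v)
  obtain ⟨p, hp⟩ := h2 ![a, b, c]
  refine ⟨p, ?_, ?_, ?_⟩
  · rw [← X3_0, hp]; rfl
  · rw [← X3_1, hp]; rfl
  · rw [← X3_2, hp]; rfl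

end FFAM

theorem specFFA (hLOC : SpecLOC) (hCNE : SpecCNE) : SpecFFA := by
  intro N S hS ψ hψ δ hδ v
  have hL := hLOC ψ hψ δ hδ
  obtain ⟨hX, hY, hZ⟩ := hS.hd v
  refine ⟨?_, ?_, ?_, ?_, ?_, ?_⟩
  · have h1 : ContDiff ℝ ∞ (fun p : E3 => (S.X v (p - S.P v), S.Y v (p - S.P v), S.Z v (p - S.P v))) := by
      have h2 : ContDiff ℝ ∞ (fun p : E3 => p - S.P v) := contDiff_id.sub contDiff_const
      exact ((S.X v).contDiff.comp h2).prodMk (((S.Y v).contDiff.comp h2).prodMk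
        ((S.Z v).contDiff.comp h2))
    exact (hL.smooth (S.κ v)).comp h1
  · intro p c
    have h1 : p + c • S.d v - S.P v = (p - S.P v) + c • S.d v := by abel
    show locF ψ δ (S.κ v) (S.X v (p + c • S.d v - S.P v)) (S.Y v (p + c • S.d v - S.P v))
      (S.Z v (p + c • S.d v - S.P v)) = locF ψ δ (S.κ v) (S.X v (p - S.P v)) (S.Y v (p - S.P v))
      (S.Z v (p - S.P v)) + c
    rw [h1, map_add, map_add, map_add, map_smul, map_smul, map_smul, hX, hY, hZ, smul_eq_mul,
      mul_one]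
    exact hL.add _ _ _ _ _
  · rw [PolyData.L_apply, hX, hY, hZ, sub_self]
    ext i
    fin_cases i <;> rfl
  · intro y
    obtain ⟨p, h1, h2, h3⟩ := FFAM.X3_surj S hS v (y 0) (y 1) 0
    refine ⟨p, ?_⟩
    rw [PolyData.L_apply, h1, h2, h3, sub_zero, sub_zero]
    ext i
    fin_cases i <;> rfl
  · intro p hp
    rw [PolyData.L_apply] at hp
    have h0 : S.X v p - S.Z v p = 0 := by
      have := congrArg (fun y : E2 => y 0) hp
      simpa using this
    have h1 : S.Y v p - S.Z v p = 0 := by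
      have := congrArg (fun y : E2 => y 1) hp
      simpa using this
    refine ⟨S.Z v p, ?_⟩
    have h2 : p - S.Z v p • S.d v = 0 := by
      apply hS.hinj v
      · rw [map_sub, map_smul, hX, smul_eq_mul, mul_one]
        exact h0
      · rw [map_sub, map_smul, hY, smul_eq_mul, mul_one]
        exact h1
      · rw [map_sub, map_smul, hZ, smul_eq_mul, mul_one, sub_self]
    exact sub_eq_zero.mp h2
  · intro x hx hxv
    have h1 := hL.close (S.κ v) (S.X v (S.g x - S.P v)) (S.Y v (S.g x - S.P v))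
      (S.Z v (S.g x - S.P v))
    rw [(hCNE N S hS v x hx hxv).1, sub_zero] at h1
    exact h1

end Pool.Agent.Lib.MP_0b1f3c_gt.TI
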