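import Pool.Agent.Lib.MP_0b1f3c_gt.TI.SpecC

/-!
# FLT: the two triangles at a flat edge
-/

open scoped Manifold ContDiff InnerProductSpace Quaternion

noncomputable section

namespace Pool.Agent.Lib.MP_0b1f3c_gt.TI

namespace FLTM

variable {N : ℕ} {S : PolyData N}

/-- the position of a triangle at the edge `v, nb v m` -/
theorem pos (hS : S.IsSurf) {v w u : Fin N} (hwv : w ≠ v) (huv : u ≠ v) (huw : u ≠ w)
    (ht : ({v, w, u} : Finset (Fin N)) ∈ S.T) (he : ∀ e, w ≠ S.r v e) :
    ∃ m, 0 < m ∧ m < S.k v ∧ w = S.nb v m ∧ (u = S.nb v (m + 1) ∨ u = S.nb v (m - 1)) := by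
  obtain ⟨i, hi, h⟩ := hS.hT2 _ ht v (by simp)
  have h0 : w ≠ S.nb v 0 := by
    have := he 0
    unfold PolyData.r at this
    simpa using this
  have hw : w = S.nb v i ∨ w = S.nb v (i + 1) := by
    have h1 : w ∈ ({v, S.nb v i, S.nb v (i + 1)} : Finset (Fin N)) := by rw [← h]; simp
    simp only [Finset.mem_insert, Finset.mem_singleton] at h1
    tauto
  have hu : u = S.nb v i ∨ u = S.nb v (i + 1) := by
    have h1 : u ∈ ({v, S.nb v i, S.nb v (i + 1)} : Finset (Fin N)) := by rw [← h]; simp
    simp only [Finset.mem_insert, Finset.mem_singleton] at h1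
    tauto
  rcases hw with hw | hw
  · refine ⟨i, ?_, hi, hw, Or.inl ?_⟩
    · rcases Nat.eq_zero_or_pos i with rfl | h1
      · exact absurd hw h0
      · exact h1
    · rcases hu with hu | hu
      · exact absurd (hu.trans hw.symm) huw
      · exact hu
  · have hik : i + 1 < S.k v := by
      rcases Nat.lt_or_ge (i + 1) (S.k v) with h1 | h1
      · exact h1
      · have h2 : i + 1 = S.k v := by omega
        rw [h2, hS.hper v] at hw
        exact absurd hw h0
    refine ⟨i + 1, by omega, hik, hw, Or.inr ?_⟩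
    rcases hu with hu | hu
    · rw [Nat.add_sub_cancel]
      exact hu
    · exact absurd (hu.trans hw.symm) huw

/-- the linear function `κ cr (Q v m) (X - Z, Y - Z)` -/
def ell (S : PolyData N) (v : Fin N) (m : ℕ) : E3 →L[ℝ] ℝ :=
  S.κ v • ((S.Q v m).1 • (S.Y v - S.Z v) - (S.Q v m).2 • (S.X v - S.Z v))

theorem ell_apply (v : Fin N) (m j : ℕ) :
    ell S v m (S.P (S.nb v j) - S.P v) = S.κ v * cr (S.Q v m) (S.Q v j) := by
  simp only [ell, cr, PolyData.Q, PolyData.DX, PolyData.DY, PolyData.DZ,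
    smul_apply, sub_apply, smul_eq_mul]

end FLTM

open FLTM

theorem specFLT : SpecFLT := by
  intro N S hS v w u u' hwv huv huw huv' huw' huu ht ht' he
  obtain ⟨m, hm0, hmk, hw, hu⟩ := pos hS hwv huv huw ht he
  obtain ⟨m', hm0', hmk', hw', hu'⟩ := pos hS hwv huv' huw' ht' he
  have hmm : m = m' := hS.hnbinj v hmk hmk' (hw.symm.trans hw')
  subst hmm
  have hp : 0 < ell S v m (S.P (S.nb v (m + 1)) - S.P v) := by
    rw [ell_apply]
    exact hS.hfan1 v m hmk
  have hn : ell S v m (S.P (S.nb v (m - 1)) - S.P v) < 0 := by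
    rw [ell_apply]
    have h1 := hS.hfan1 v (m - 1) (by omega)
    rw [Nat.sub_add_cancel hm0] at h1
    have h2 : S.κ v * cr (S.Q v m) (S.Q v (m - 1)) = -(S.κ v * cr (S.Q v (m - 1)) (S.Q v m)) := by
      unfold cr
      ring
    rw [h2]
    linarith
  have hz : ell S v m (S.P w - S.P v) = 0 := by
    rw [hw, ell_apply]
    unfold cr
    ring
  set h : E3 := (InnerProductSpace.toDual ℝ E3).symm (ell S v m) with hh
  have hin : ∀ p, inner ℝ h p = ell S v m p := fun p => InnerProductSpace.toDual_symm_apply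
  rcases hu with rfl | rfl
  · rcases hu' with rfl | rfl
    · exact absurd rfl huu
    · refine ⟨h, ?_, ?_, ?_⟩
      · rw [hin, hz]
      · rw [hin]
        exact hp
      · rw [hin]
        exact hn
  · rcases hu' with rfl | rfl
    · refine ⟨-h, ?_, ?_, ?_⟩
      · rw [inner_neg_left, hin, hz, neg_zero]
      · rw [inner_neg_left, hin]
        linarith
      · rw [inner_neg_left, hin]
        linarith
    · exact absurd rfl huu

end Pool.Agent.Lib.MP_0b1f3c_gt.TI
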