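import Pool.Agent.Lib.MP_0b1f3c_gt.TI.SpecC

/-!
# The moving frame of a closed polygon on the smoothed surface
-/

open scoped Manifold ContDiff InnerProductSpace Quaternion

noncomputable section

namespace Pool.Agent.Lib.MP_0b1f3c_gt.TI

namespace FRMM

open Filter Topology


/-! ## The function psi -/

section psi

variable {ψ : ℝ → ℝ} (h : IsPsi ψ)

include h

theorem diff : Differentiable ℝ ψ := h.smooth.differentiable (by simp)

theorem contD : Continuous (deriv ψ) := h.smooth.continuous_deriv (by simp)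

theorem dzero {t : ℝ} (ht : t ≤ -1) : deriv ψ t = 0 := by
  have hc : IsClosed {t : ℝ | deriv ψ t = 0} := isClosed_eq (contD h) continuous_const
  have hs : Set.Iio (-1 : ℝ) ⊆ {t : ℝ | deriv ψ t = 0} := by
    intro t ht
    have : ψ =ᶠ[𝓝 t] fun _ => 0 := by
      filter_upwards [Iio_mem_nhds ht] with s hs
      exact h.zero s (le_of_lt hs)
    show deriv ψ t = 0
    rw [this.deriv_eq, deriv_const]
  have := closure_minimal hs hc
  rw [closure_Iio] at this
  exact this ht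

theorem done {t : ℝ} (ht : 1 ≤ t) : deriv ψ t = 1 := by
  have hc : IsClosed {t : ℝ | deriv ψ t = 1} := isClosed_eq (contD h) continuous_const
  have hs : Set.Ioi (1 : ℝ) ⊆ {t : ℝ | deriv ψ t = 1} := by
    intro t ht
    have : ψ =ᶠ[𝓝 t] fun s => s := by
      filter_upwards [Ioi_mem_nhds ht] with s hs
      exact h.id s (le_of_lt hs)
    show deriv ψ t = 1
    rw [this.deriv_eq, deriv_id'']
  have := closure_minimal hs hc
  rw [closure_Ioi] at this
  exact this ht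

theorem rng (t : ℝ) : 0 ≤ deriv ψ t ∧ deriv ψ t ≤ 1 := by
  have h1 : deriv ψ (-1) = 0 := dzero h le_rfl
  have h2 : deriv ψ 1 = 1 := done h le_rfl
  rcases le_or_gt t (-1) with ht | ht
  · rw [dzero h ht]; norm_num
  rcases le_or_gt 1 t with ht' | ht'
  · rw [done h ht']; norm_num
  have hm := h.dmono.monotoneOn
  have e1 := hm (Set.mem_Icc.2 ⟨le_rfl, by norm_num⟩) (Set.mem_Icc.2 ⟨ht.le, ht'.le⟩) ht.le
  have e2 := hm (Set.mem_Icc.2 ⟨ht.le, ht'.le⟩) (Set.mem_Icc.2 ⟨by norm_num, le_rfl⟩) ht'.le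
  rw [h1] at e1
  rw [h2] at e2
  exact ⟨e1, e2⟩

theorem dsym (t : ℝ) : deriv ψ (-t) = 1 - deriv ψ t := by
  have h1 : (fun t => ψ t - ψ (-t)) = fun t => t := funext h.sym
  have h2 : HasDerivAt (fun t => ψ t - ψ (-t)) (deriv ψ t - (-deriv ψ (-t))) t := by
    have e1 := (diff h t).hasDerivAt
    have e2 : HasDerivAt (fun t => ψ (-t)) (-deriv ψ (-t)) t := by
      have := (diff h (-t)).hasDerivAt.comp t (hasDerivAt_neg t)
      rw [mul_neg_one] at this
      exact this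
    exact e1.sub e2
  rw [h1] at h2
  have := h2.unique (hasDerivAt_id' t)
  linarith

end psi

/-! ## Gluing -/

section glue

variable {E : Type} [TopologicalSpace E] (F : ℤ → ℝ → E)

/-- gluing of pieces `F i` on `[i - 1/2, i + 1/2]` -/
def gl (y : ℝ) : E := F ⌊y + 1 / 2⌋ (y - ⌊y + 1 / 2⌋)

variable {F} (hF : ∀ i, F i (1 / 2) = F (i + 1) (-1 / 2))

include hF

omit [TopologicalSpace E] in
theorem gl_eq {y : ℝ} {i : ℤ} (h1 : (i : ℝ) - 1 / 2 ≤ y) (h2 : y ≤ (i : ℝ) + 1 / 2) :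
    gl F y = F i (y - i) := by
  unfold gl
  rcases eq_or_lt_of_le h2 with h | h
  · have hf : ⌊y + 1 / 2⌋ = i + 1 := by
      rw [Int.floor_eq_iff]
      push_cast
      constructor <;> linarith
    rw [hf]
    have e1 : y - ((i + 1 : ℤ) : ℝ) = -1 / 2 := by push_cast; linarith
    have e2 : y - (i : ℝ) = 1 / 2 := by linarith
    rw [e1, e2, hF]
  · have hf : ⌊y + 1 / 2⌋ = i := by
      rw [Int.floor_eq_iff]
      constructor <;> linarith
    rw [hf]

theorem gl_cont (hc : ∀ i, Continuous (F i)) : Continuous (gl F) := by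
  rw [continuous_iff_continuousAt]
  intro y
  obtain ⟨i, hi1, hi2⟩ : ∃ i : ℤ, (i : ℝ) - 1 / 2 ≤ y ∧ y < i + 1 / 2 :=
    ⟨⌊y + 1 / 2⌋, by have := Int.floor_le (y + 1 / 2); linarith,
      by have := Int.lt_floor_add_one (y + 1 / 2); linarith⟩
  have key : ∀ j : ℤ, Continuous fun y => F j (y - j) := fun j =>
    (hc j).comp (continuous_id.sub continuous_const)
  rcases eq_or_lt_of_le hi1 with h | h
  · rw [continuousAt_iff_continuous_left_right]
    constructor
    · have h0 : (((i - 1 : ℤ) : ℝ)) + 1 / 2 = y := by push_cast; linarith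
      refine ((key (i - 1)).continuousWithinAt).congr_of_eventuallyEq ?_ ?_
      · have : Set.Ioi (y - 1) ∈ 𝓝 y := Ioi_mem_nhds (by linarith)
        filter_upwards [mem_nhdsWithin_of_mem_nhds this, self_mem_nhdsWithin] with z hz1 hz2
        have hz1' : y - 1 < z := hz1
        have hz2' : z ≤ y := hz2
        exact gl_eq hF (by linarith) (by linarith)
      · exact gl_eq hF (by linarith) (by linarith)
    · refine ((key i).continuousWithinAt).congr_of_eventuallyEq ?_ ?_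
      · have : Set.Iio (y + 1) ∈ 𝓝 y := Iio_mem_nhds (by linarith)
        filter_upwards [mem_nhdsWithin_of_mem_nhds this, self_mem_nhdsWithin] with z hz1 hz2
        have hz1' : z < y + 1 := hz1
        have hz2' : y ≤ z := hz2
        exact gl_eq hF (by linarith) (by linarith)
      · exact gl_eq hF (by linarith) (by linarith)
  · refine ((key i).continuousAt).congr ?_
    filter_upwards [Ioo_mem_nhds h hi2] with z hz
    exact (gl_eq hF hz.1.le hz.2.le).symm

end glue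

/-! ## Points -/

section points

variable {N : ℕ} {S : PolyData N} {C : Crv N}

theorem g_add (x y : Fin N → ℝ) : S.g (x + y) = S.g x + S.g y := by
  simp [PolyData.g, add_smul, Finset.sum_add_distrib]

theorem g_smul (c : ℝ) (x : Fin N → ℝ) : S.g (c • x) = c • S.g x := by
  simp [PolyData.g, mul_smul, Finset.smul_sum]

theorem g_single (w : Fin N) : S.g (Pi.single w 1) = S.P w := by
  unfold PolyData.g
  rw [Finset.sum_eq_single w]
  · simp
  · intro i _ hi
    simp [hi]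
  · simp

theorem g_pt (i : ℤ) : S.g (C.pt i) = (1 - C.r i) • S.P (C.a i) + C.r i • S.P (C.b i) := by
  unfold Crv.pt
  rw [g_add, g_smul, g_smul, g_single, g_single]

/-- a linear function at a point with coordinates of sum one -/
theorem lin (l : E3 →L[ℝ] ℝ) {x : Fin N → ℝ} (hx : ∑ i, x i = 1) (p : E3) :
    l (S.g x - p) = ∑ i, x i * l (S.P i - p) := by
  have h1 : S.g x - p = ∑ i, x i • (S.P i - p) := by
    simp only [smul_sub, Finset.sum_sub_distrib]
    rw [← Finset.sum_smul, hx, one_smul]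
    rfl
  rw [h1, map_sum]
  exact Finset.sum_congr rfl fun i _ => by rw [map_smul, smul_eq_mul]

theorem lin_pt (l : E3 →L[ℝ] ℝ) (j : ℤ) (p : E3) : l (S.g (C.pt j) - p) =
    (1 - C.r j) * l (S.P (C.a j) - p) + C.r j * l (S.P (C.b j) - p) := by
  have : S.g (C.pt j) - p = (1 - C.r j) • (S.P (C.a j) - p) + C.r j • (S.P (C.b j) - p) := by
    rw [g_pt]
    module
  rw [this, map_add, map_smul, map_smul, smul_eq_mul, smul_eq_mul]

theorem pt_nonneg (hC : C.IsCrv S) (j : ℤ) (w : Fin N) : 0 ≤ C.pt j w := by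
  have h := hC.h01 j
  unfold Crv.pt
  rw [Pi.add_apply, Pi.smul_apply, Pi.smul_apply, smul_eq_mul, smul_eq_mul]
  have e : ∀ v : Fin N, 0 ≤ (Pi.single v 1 : Fin N → ℝ) w := by
    intro v
    rw [Pi.single_apply]
    split_ifs <;> norm_num
  have h1 := e (C.a j)
  have h2 := e (C.b j)
  have h3 : 0 ≤ 1 - C.r j := by linarith [h.2]
  have h4 := mul_nonneg h3 h1
  have h5 := mul_nonneg h.1.le h2
  linarith

theorem pt_a (hC : C.IsCrv S) (j : ℤ) : 0 < C.pt j (C.a j) := by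
  have h := hC.h01 j
  unfold Crv.pt
  rw [Pi.add_apply, Pi.smul_apply, Pi.smul_apply, smul_eq_mul, smul_eq_mul, Pi.single_eq_same,
    Pi.single_eq_of_ne (hC.hab j)]
  linarith [h.2]

theorem pt_b (hC : C.IsCrv S) (j : ℤ) : C.pt j (C.b j) = C.r j := by
  unfold Crv.pt
  rw [Pi.add_apply, Pi.smul_apply, Pi.smul_apply, smul_eq_mul, smul_eq_mul, Pi.single_eq_same,
    Pi.single_eq_of_ne (hC.hab j).symm]
  ring

theorem pt_ne {j : ℤ} {w : Fin N} (h : C.pt j w ≠ 0) : w = C.a j ∨ w = C.b j := by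
  by_contra hc
  rw [not_or] at hc
  refine h ?_
  unfold Crv.pt
  rw [Pi.add_apply, Pi.smul_apply, Pi.smul_apply, smul_eq_mul, smul_eq_mul,
    Pi.single_eq_of_ne hc.1, Pi.single_eq_of_ne hc.2]
  ring

theorem pt_sum (j : ℤ) : ∑ w, C.pt j w = 1 := by
  unfold Crv.pt
  simp [Finset.sum_add_distrib, ← Finset.mul_sum, Pi.single_apply]

/-- the curve on the segment `j` -/
theorem c0_seg (hC : C.IsCrv S) (j : ℤ) {s : ℝ} (h0 : 0 ≤ s) (h1 : s ≤ 1) :
    C.c0 (((j : ℝ) + s) / C.L) = (1 - s) • C.pt j + s • C.pt (j + 1) := by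
  have hL : (C.L : ℝ) ≠ 0 := by
    have := hC.hL
    positivity
  unfold Crv.c0
  rw [mul_div_cancel₀ _ hL]
  rcases eq_or_lt_of_le h1 with h | h
  · subst h
    have hf : ⌊(j : ℝ) + 1⌋ = j + 1 := by
      rw [Int.floor_eq_iff]
      push_cast
      constructor <;> linarith
    have hfr : Int.fract ((j : ℝ) + 1) = 0 := by
      rw [Int.fract, hf]
      push_cast
      ring
    rw [hf, hfr]
    simp
  · have hf : ⌊(j : ℝ) + s⌋ = j := by
      rw [Int.floor_eq_iff]
      constructor <;> linarith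
    have hfr : Int.fract ((j : ℝ) + s) = s := by
      rw [Int.fract, hf]
      ring
    rw [hf, hfr]

theorem g_seg (hC : C.IsCrv S) (j : ℤ) {s : ℝ} (h0 : 0 ≤ s) (h1 : s ≤ 1) :
    S.g (C.c0 (((j : ℝ) + s) / C.L)) = S.g (C.pt j) + s • C.D S j := by
  rw [c0_seg hC j h0 h1, g_add, g_smul, g_smul]
  unfold Crv.D
  module

/-- the curve before the crossing `i` -/
theorem g_seg' (hC : C.IsCrv S) (i : ℤ) {s : ℝ} (h0 : -1 ≤ s) (h1 : s ≤ 0) :
    S.g (C.c0 (((i : ℝ) + s) / C.L)) = S.g (C.pt i) + s • C.D S (i - 1) := by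
  have h := g_seg hC (i - 1) (s := 1 + s) (by linarith) (by linarith)
  have e : (((i - 1 : ℤ) : ℝ) + (1 + s)) = (i : ℝ) + s := by push_cast; ring
  rw [e] at h
  rw [h]
  unfold Crv.D
  rw [sub_add_cancel]
  module

theorem card_tri (hS : S.IsSurf) (hC : C.IsCrv S) (j : ℤ) :
    C.t j ≠ C.a j ∧ C.t j ≠ C.b j := by
  have h := hS.hcard _ (hC.htri j)
  unfold Crv.tri at h
  constructor
  · intro e
    rw [e] at h
    have : ({C.a j, C.b j, C.a j} : Finset (Fin N)) = {C.a j, C.b j} := by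
      ext w; simp only [Finset.mem_insert, Finset.mem_singleton]; tauto
    rw [this] at h
    have := Finset.card_le_two (a := C.a j) (b := C.b j)
    omega
  · intro e
    rw [e] at h
    have : ({C.a j, C.b j, C.b j} : Finset (Fin N)) = {C.a j, C.b j} := by
      ext w; simp only [Finset.mem_insert, Finset.mem_singleton]; tauto
    rw [this] at h
    have := Finset.card_le_two (a := C.a j) (b := C.b j)
    omega

/-- two different vertices of a triangle `{v, w, u}` with `{p, q} ≠ {v, w}` -/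
theorem mem_u {v w u p q : Fin N} (hp : p ∈ ({v, w, u} : Finset (Fin N)))
    (hq : q ∈ ({v, w, u} : Finset (Fin N))) (hpq : p ≠ q)
    (hne : ({v, w} : Finset (Fin N)) ≠ {p, q}) : p = u ∨ q = u := by
  simp only [Finset.mem_insert, Finset.mem_singleton] at hp hq
  by_contra hc
  rw [not_or] at hc
  have hp' : p = v ∨ p = w := by tauto
  have hq' : q = v ∨ q = w := by tauto
  refine hne ?_
  rcases hp' with rfl | rfl <;> rcases hq' with rfl | rfl
  · exact absurd rfl hpq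
  · rfl
  · exact Finset.pair_comm _ _
  · exact absurd rfl hpq

/-- the two triangles at the crossing `i` -/
theorem third (hS : S.IsSurf) (hC : C.IsCrv S) (i : ℤ) : ∃ u, C.tri (i - 1) = {C.a i, C.b i, u} ∧
    u ≠ C.a i ∧ u ≠ C.b i ∧ u ≠ C.t i ∧ (C.a (i - 1) = u ∨ C.b (i - 1) = u) := by
  have h1 := hC.hnext (i - 1)
  rw [sub_add_cancel] at h1
  have h2 := hS.hcard _ (hC.htri (i - 1))
  have hab := hC.hab i
  have h3 : (C.tri (i - 1) \ {C.a i, C.b i}).card = 1 := by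
    rw [Finset.card_sdiff_of_subset, h2, Finset.card_pair hab]
    intro w hw
    simp only [Finset.mem_insert, Finset.mem_singleton] at hw
    rcases hw with rfl | rfl
    exacts [h1.1, h1.2]
  obtain ⟨u, hu⟩ := Finset.card_eq_one.1 h3
  have hu' : u ∈ C.tri (i - 1) \ {C.a i, C.b i} := by rw [hu]; simp
  simp only [Finset.mem_sdiff, Finset.mem_insert, Finset.mem_singleton, not_or] at hu'
  have ht : C.tri (i - 1) = {C.a i, C.b i, u} := by
    symm
    refine Finset.eq_of_subset_of_card_le ?_ ?_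
    · intro w hw
      simp only [Finset.mem_insert, Finset.mem_singleton] at hw
      rcases hw with rfl | rfl | rfl
      exacts [h1.1, h1.2, hu'.1]
    · rw [h2, Finset.card_eq_three.2 ⟨_, _, _, hab, Ne.symm hu'.2.1, Ne.symm hu'.2.2, rfl⟩]
  refine ⟨u, ht, hu'.2.1, hu'.2.2, ?_, ?_⟩
  · intro h
    have h4 := hC.hcross (i - 1)
    rw [sub_add_cancel] at h4
    exact h4 (by rw [ht, h]; rfl)
  · have h4 : C.a (i - 1) ∈ C.tri (i - 1) := by simp [Crv.tri]
    have h5 : C.b (i - 1) ∈ C.tri (i - 1) := by simp [Crv.tri]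
    rw [ht] at h4 h5
    have h6 := hC.hedge (i - 1)
    rw [sub_add_cancel] at h6
    exact mem_u h4 h5 (hC.hab _) (Ne.symm h6)

theorem next_u (hC : C.IsCrv S) (i : ℤ) : C.a (i + 1) = C.t i ∨ C.b (i + 1) = C.t i :=
  mem_u (hC.hnext i).1 (hC.hnext i).2 (hC.hab _) (hC.hedge i)

theorem pos1 {r p q : ℝ} (hr : 0 < r ∧ r < 1) (hp : 0 ≤ p) (hq : 0 ≤ q) (h : 0 < p ∨ 0 < q) :
    0 < (1 - r) * p + r * q := by
  have h1 : 0 < 1 - r := by linarith [hr.2]
  rcases h with h | h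
  · have := mul_pos h1 h
    have := mul_nonneg hr.1.le hq
    linarith
  · have := mul_nonneg h1.le hp
    have := mul_pos hr.1 h
    linarith

/-- the direction after the crossing -/
theorem D_pos (hC : C.IsCrv S) (i : ℤ) (l : E3 →L[ℝ] ℝ)
    (h1 : l (S.P (C.b i) - S.P (C.a i)) = 0) (h2 : 0 < l (S.P (C.t i) - S.P (C.a i))) :
    0 < l (C.D S i) := by
  have e : C.D S i = (S.g (C.pt (i + 1)) - S.P (C.a i)) - (S.g (C.pt i) - S.P (C.a i)) := by
    unfold Crv.D
    abel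
  have hv : ∀ w ∈ C.tri i, 0 ≤ l (S.P w - S.P (C.a i)) := by
    intro w hw
    simp only [Crv.tri, Finset.mem_insert, Finset.mem_singleton] at hw
    rcases hw with rfl | rfl | rfl
    · simp
    · exact h1.ge
    · exact h2.le
  have h3 : l (S.g (C.pt i) - S.P (C.a i)) = 0 := by
    rw [lin_pt, h1]
    simp
  rw [e, map_sub, h3, sub_zero, lin_pt]
  refine pos1 (hC.h01 _) (hv _ (hC.hnext i).1) (hv _ (hC.hnext i).2) ?_
  rcases next_u hC i with h | h
  · left; rw [h]; exact h2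
  · right; rw [h]; exact h2

/-- the direction before the crossing -/
theorem D_pos' (hC : C.IsCrv S) (i : ℤ) {u : Fin N}
    (hu : C.tri (i - 1) = {C.a i, C.b i, u}) (hu' : C.a (i - 1) = u ∨ C.b (i - 1) = u)
    (l : E3 →L[ℝ] ℝ) (h1 : l (S.P (C.b i) - S.P (C.a i)) = 0)
    (h2 : l (S.P u - S.P (C.a i)) < 0) : 0 < l (C.D S (i - 1)) := by
  have e : C.D S (i - 1) =
      (S.g (C.pt i) - S.P (C.a i)) - (S.g (C.pt (i - 1)) - S.P (C.a i)) := by
    unfold Crv.D
    rw [sub_add_cancel]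
    abel
  have hv : ∀ w ∈ C.tri (i - 1), 0 ≤ (-l) (S.P w - S.P (C.a i)) := by
    intro w hw
    rw [hu] at hw
    simp only [Finset.mem_insert, Finset.mem_singleton] at hw
    rw [neg_apply]
    rcases hw with rfl | rfl | rfl
    · simp
    · rw [h1]; simp
    · linarith
  have h3 : l (S.g (C.pt i) - S.P (C.a i)) = 0 := by
    rw [lin_pt, h1]
    simp
  have h4 : 0 < (-l) (S.g (C.pt (i - 1)) - S.P (C.a i)) := by
    rw [lin_pt]
    refine pos1 (hC.h01 _) (hv _ (by simp [Crv.tri])) (hv _ (by simp [Crv.tri])) ?_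
    rw [neg_apply, neg_apply]
    rcases hu' with h | h
    · left; rw [h]; linarith
    · right; rw [h]; linarith
  rw [neg_apply] at h4
  rw [e, map_sub, h3]
  linarith

end points


/-! ## The derivative of the smoothed function -/

theorem fder {ψ : ℝ → ℝ} (hψ : IsPsi ψ) {δ : ℝ} (hδ : 0 < δ) (A B : E3 →L[ℝ] ℝ) (k : ℝ)
    (P x : E3) (F : E3 → ℝ)
    (hF : ∀ᶠ p in 𝓝 x, F p = k * mx ψ δ (A (p - P)) (B (p - P))) (p : E3) :
    fderiv ℝ F x p = k * ((1 - deriv ψ ((B (x - P) - A (x - P)) / δ)) * A p +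
      deriv ψ ((B (x - P) - A (x - P)) / δ) * B p) := by
  have hF' : F =ᶠ[𝓝 x] fun p => k * (A (p - P) + δ * ψ ((B (p - P) - A (p - P)) / δ)) := hF
  rw [hF'.fderiv_eq]
  have hA : ∀ A : E3 →L[ℝ] ℝ, HasFDerivAt (fun p => A (p - P)) A x := by
    intro A
    have h := A.hasFDerivAt (x := x)
    have h2 := h.sub_const (A P)
    refine h2.congr_of_eventuallyEq ?_
    filter_upwards with p
    rw [map_sub]
  have h1 : HasFDerivAt (fun p => (B (p - P) - A (p - P)) / δ) (δ⁻¹ • (B - A)) x := by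
    have := ((hA B).sub (hA A)).const_smul δ⁻¹
    refine this.congr_of_eventuallyEq ?_
    filter_upwards with p
    simp only [Pi.smul_apply, Pi.sub_apply, smul_eq_mul]
    rw [div_eq_inv_mul]
  have h2 := ((diff hψ ((B (x - P) - A (x - P)) / δ)).hasDerivAt).comp_hasFDerivAt x h1
  have h3 := ((hA A).add (h2.const_mul δ)).const_mul k
  have h4 : HasFDerivAt (fun p => k * (A (p - P) + δ * ψ ((B (p - P) - A (p - P)) / δ))) _ x := h3
  rw [h4.fderiv]
  simp only [FunLike.coe_smul, FunLike.coe_add, FunLike.coe_sub, Pi.smul_apply, Pi.add_apply,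
    Pi.sub_apply, smul_eq_mul]
  field_simp
  ring

/-! ## Points of triangles -/

section tri

variable {N : ℕ} {S : PolyData N} {C : Crv N} {G : Frm} {q : ZMod 4}

theorem orthNear {n : E3} (x : Realization S.T) (Q : Finset (Fin N)) (w0 : Fin N)
    (hQ : ∀ w ∈ Q, x.1 w ≠ 0)
    (hn : ∀ t ∈ S.T, Q ⊆ t → ∀ w ∈ t, inner ℝ n (S.P w - S.P w0) = 0) :
    ∀ᶠ y in 𝓝 x, inner ℝ n (S.g y.1 - S.g x.1) = 0 := by
  have key : ∀ y : Realization S.T, (∀ w ∈ Q, y.1 w ≠ 0) →
      inner ℝ n (S.g y.1 - S.P w0) = 0 := by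
    intro y hy
    obtain ⟨t, ht, hs⟩ := y.2.2.2
    have h1 : inner ℝ n (S.g y.1 - S.P w0) = ∑ i, y.1 i * inner ℝ n (S.P i - S.P w0) :=
      lin (innerSL ℝ n) y.2.2.1 (S.P w0)
    rw [h1]
    refine Finset.sum_eq_zero fun w _ => ?_
    by_cases hw : y.1 w = 0
    · rw [hw, zero_mul]
    · rw [hn t ht (fun w hw => hs w (hy w hw)) w (hs w hw), mul_zero]
  have hev : ∀ᶠ y in 𝓝 x, ∀ w ∈ Q, y.1 w ≠ 0 := by
    rw [Filter.eventually_all_finset]
    intro w hw
    have hc : Continuous fun y : Realization S.T => y.1 w :=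
      (continuous_apply w).comp continuous_subtype_val
    exact hc.continuousAt.eventually_ne (hQ w hw)
  filter_upwards [hev] with y hy
  have e : S.g y.1 - S.g x.1 = (S.g y.1 - S.P w0) - (S.g x.1 - S.P w0) := by abel
  rw [e, inner_sub_right, key y hy, key x hQ, sub_zero]

theorem notRE {a b u : Fin N} (hab : a ≠ b) (hau : u ≠ a) (hbu : u ≠ b) {x : Realization S.T}
    (ha : x.1 a ≠ 0) (hb : x.1 b ≠ 0) (hu : x.1 u ≠ 0) : x ∉ S.RE := by
  rintro ⟨v, e, h⟩
  have h1 := h a ha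
  have h2 := h b hb
  have h3 := h u hu
  rcases h1 with h1 | h1 <;> rcases h2 with h2 | h2 <;> rcases h3 with h3 | h3
  · exact hab (h1.trans h2.symm)
  · exact hab (h1.trans h2.symm)
  · exact hau (h3.trans h1.symm)
  · exact hbu (h3.trans h2.symm)
  · exact hbu (h3.trans h2.symm)
  · exact hau (h3.trans h1.symm)
  · exact hab (h1.trans h2.symm)
  · exact hab (h1.trans h2.symm)

theorem notRE2 (hS : S.IsSurf) (hC : C.IsCrv S) {i : ℤ} (he : C.re i = none)
    {x : Realization S.T} (ha : x.1 (C.a i) ≠ 0) (hb : x.1 (C.b i) ≠ 0) : x ∉ S.RE := by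
  rintro ⟨v, e, h⟩
  have h1 := h _ ha
  have h2 := h _ hb
  rcases h1 with h1 | h1 <;> rcases h2 with h2 | h2
  · exact hC.hab i (h1.trans h2.symm)
  · exact hC.hflat i he e (by rw [h1]; exact h2)
  · refine hC.hflat i he (S.op v e) ?_
    rw [h1, hS.hop v e]
    exact h2
  · exact hC.hab i (h1.trans h2.symm)

/-- a triangle containing the vertices `a`, `b` -/
theorem triForm (hS : S.IsSurf) {a b : Fin N} (hab : a ≠ b) {t : Finset (Fin N)} (ht : t ∈ S.T)
    (ha : a ∈ t) (hb : b ∈ t) : ∃ m < S.k a, t = {a, S.nb a m, S.nb a (m + 1)} ∧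
    (b = S.nb a m ∨ b = S.nb a (m + 1)) := by
  obtain ⟨m, hm, h⟩ := hS.hT2 t ht a ha
  refine ⟨m, hm, h, ?_⟩
  rw [h] at hb
  simp only [Finset.mem_insert, Finset.mem_singleton] at hb
  rcases hb with hb | hb | hb
  · exact absurd hb.symm hab
  · exact Or.inl hb
  · exact Or.inr hb

theorem nbEq (hS : S.IsSurf) {a : Fin N} {m m' : ℕ} (hm : m < S.k a) (hm' : m' < S.k a)
    (h : S.nb a (m + 1) = S.nb a (m' + 1)) : m = m' := by
  rcases Nat.lt_or_ge (m + 1) (S.k a) with h1 | h1 <;>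
    rcases Nat.lt_or_ge (m' + 1) (S.k a) with h2 | h2
  · have := hS.hnbinj a h1 h2 h
    omega
  · have e : m' + 1 = S.k a := by omega
    rw [e, hS.hper] at h
    have := hS.hnbinj a h1 (show (0 : ℕ) ∈ Set.Iio (S.k a) from Set.mem_Iio.2 (by omega)) h
    omega
  · have e : m + 1 = S.k a := by omega
    rw [e, hS.hper] at h
    have := hS.hnbinj a h2 (show (0 : ℕ) ∈ Set.Iio (S.k a) from Set.mem_Iio.2 (by omega)) h.symm
    omega
  · omega

/-- at most two triangles contain an edge -/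
theorem twoTri (hS : S.IsSurf) {a b : Fin N} (hab : a ≠ b) {t t1 t2 : Finset (Fin N)}
    (ht : t ∈ S.T) (ht1 : t1 ∈ S.T) (ht2 : t2 ∈ S.T) (ha : a ∈ t) (hb : b ∈ t) (ha1 : a ∈ t1)
    (hb1 : b ∈ t1) (ha2 : a ∈ t2) (hb2 : b ∈ t2) (h12 : t1 ≠ t2) : t = t1 ∨ t = t2 := by
  obtain ⟨m, hm, e, h⟩ := triForm hS hab ht ha hb
  obtain ⟨m1, hm1, e1, h1⟩ := triForm hS hab ht1 ha1 hb1
  obtain ⟨m2, hm2, e2, h2⟩ := triForm hS hab ht2 ha2 hb2
  have s1 : ∀ {m m' : ℕ}, m < S.k a → m' < S.k a → b = S.nb a m → b = S.nb a m' → m = m' :=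
    fun h h' e e' => hS.hnbinj a h h' (e.symm.trans e')
  have s2 : ∀ {m m' : ℕ}, m < S.k a → m' < S.k a → b = S.nb a (m + 1) → b = S.nb a (m' + 1) →
      m = m' := fun h h' e e' => nbEq hS h h' (e.symm.trans e')
  rcases h with h | h <;> rcases h1 with h1 | h1 <;> rcases h2 with h2 | h2
  · left; rw [e, e1, s1 hm hm1 h h1]
  · left; rw [e, e1, s1 hm hm1 h h1]
  · right; rw [e, e2, s1 hm hm2 h h2]
  · exact absurd (by rw [e1, e2, s2 hm1 hm2 h1 h2]) h12
  · exact absurd (by rw [e1, e2, s1 hm1 hm2 h1 h2]) h12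
  · right; rw [e, e2, s2 hm hm2 h h2]
  · left; rw [e, e1, s2 hm hm1 h h1]
  · left; rw [e, e1, s2 hm hm1 h h1]

theorem c_pos (hC : C.IsCrv S) (i : ℤ) {s : ℝ} (h0 : 0 < s) (h1 : s < 1) {w : Fin N}
    (hw : w ∈ C.tri i) : C.c0 (((i : ℝ) + s) / C.L) w ≠ 0 := by
  rw [c0_seg hC i h0.le h1.le, Pi.add_apply, Pi.smul_apply, Pi.smul_apply, smul_eq_mul,
    smul_eq_mul]
  have hb : 0 < C.pt i (C.b i) := by rw [pt_b hC]; exact (hC.h01 i).1
  have hb' : 0 < C.pt (i + 1) (C.b (i + 1)) := by rw [pt_b hC]; exact (hC.h01 _).1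
  refine (pos1 ⟨h0, h1⟩ (pt_nonneg hC _ _) (pt_nonneg hC _ _) ?_).ne'
  simp only [Crv.tri, Finset.mem_insert, Finset.mem_singleton] at hw
  rcases hw with rfl | rfl | rfl
  · exact Or.inl (pt_a hC i)
  · exact Or.inl hb
  · right
    rcases next_u hC i with h | h
    · rw [← h]; exact pt_a hC _
    · rw [← h]; exact hb'

theorem c_neg (hC : C.IsCrv S) (i : ℤ) {s : ℝ} (h0 : -1 < s) (h1 : s < 0) {w : Fin N}
    (hw : w ∈ C.tri (i - 1)) : C.c0 (((i : ℝ) + s) / C.L) w ≠ 0 := by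
  have h := c_pos hC (i - 1) (s := 1 + s) (by linarith) (by linarith) hw
  have e : (((i - 1 : ℤ) : ℝ) + (1 + s)) = (i : ℝ) + s := by push_cast; ring
  rw [e] at h
  exact h

theorem c_zero (hC : C.IsCrv S) (i : ℤ) : C.c0 (((i : ℝ) + 0) / C.L) = C.pt i := by
  rw [c0_seg hC i le_rfl zero_le_one]
  simp

/-- a vector orthogonal to the triangle -/
theorem n_tri (hG : Frm.IsFrm S C G q) (i : ℤ) {w w' : Fin N} (hw : w ∈ C.tri i)
    (hw' : w' ∈ C.tri i) : inner ℝ (G.n i) (S.P w - S.P w') = 0 := by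
  have h := hG.hn i
  have key : ∀ w ∈ C.tri i, inner ℝ (G.n i) (S.P w - S.P (C.a i)) = 0 := by
    intro w hw
    simp only [Crv.tri, Finset.mem_insert, Finset.mem_singleton] at hw
    rcases hw with rfl | rfl | rfl
    · simp
    · exact h.1
    · exact h.2
  have e : S.P w - S.P w' = (S.P w - S.P (C.a i)) - (S.P w' - S.P (C.a i)) := by abel
  rw [e, inner_sub_right, key w hw, key w' hw', sub_zero]

theorem n_D (hC : C.IsCrv S) (hG : Frm.IsFrm S C G q) (i : ℤ) :
    inner ℝ (G.n i) (C.D S i) = 0 := by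
  have e : C.D S i = (S.g (C.pt (i + 1)) - S.P (C.a i)) - (S.g (C.pt i) - S.P (C.a i)) := by
    unfold Crv.D
    abel
  have h1 : ∀ j p, inner ℝ (G.n i) (S.g (C.pt j) - p) =
      (1 - C.r j) * inner ℝ (G.n i) (S.P (C.a j) - p) +
        C.r j * inner ℝ (G.n i) (S.P (C.b j) - p) :=
    fun j p => lin_pt (innerSL ℝ (G.n i)) j p
  have ha : C.a i ∈ C.tri i := by simp [Crv.tri]
  have hb : C.b i ∈ C.tri i := by simp [Crv.tri]
  rw [e, inner_sub_right, h1, h1, n_tri hG i (hC.hnext i).1 ha, n_tri hG i (hC.hnext i).2 ha,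
    n_tri hG i ha ha, n_tri hG i hb ha]
  ring

/-- in the triangle `i` off the edges: the second alternative of `Nrm` -/
theorem orthTri (hS : S.IsSurf) (hG : Frm.IsFrm S C G q) (hC : C.IsCrv S) (i : ℤ)
    {x : Realization S.T} (hx : ∀ w ∈ C.tri i, x.1 w ≠ 0) :
    ∀ᶠ y in 𝓝 x, inner ℝ (G.n i) (S.g y.1 - S.g x.1) = 0 := by
  refine orthNear x (C.tri i) (C.a i) hx ?_
  intro t ht hs w hw
  have e : C.tri i = t := Finset.eq_of_subset_of_card_le hs
    (by rw [hS.hcard t ht, hS.hcard _ (hC.htri i)])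
  rw [← e] at hw
  exact n_tri hG i hw (by simp [Crv.tri])

theorem mem_prev (hC : C.IsCrv S) (i : ℤ) : C.a i ∈ C.tri (i - 1) ∧ C.b i ∈ C.tri (i - 1) := by
  have h1 := hC.hnext (i - 1)
  rw [sub_add_cancel] at h1
  exact h1

theorem orthEdge (hS : S.IsSurf) (hG : Frm.IsFrm S C G q) (hC : C.IsCrv S) {i : ℤ}
    (he : C.re i = none) {x : Realization S.T} (ha : x.1 (C.a i) ≠ 0) (hb : x.1 (C.b i) ≠ 0) :
    ∀ᶠ y in 𝓝 x, inner ℝ (G.n i) (S.g y.1 - S.g x.1) = 0 := by
  refine orthNear x {C.a i, C.b i} (C.a i) ?_ ?_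
  · intro w hw
    simp only [Finset.mem_insert, Finset.mem_singleton] at hw
    rcases hw with rfl | rfl
    exacts [ha, hb]
  · intro t ht hs w hw
    have ha' : C.a i ∈ C.tri i := by simp [Crv.tri]
    have hb' : C.b i ∈ C.tri i := by simp [Crv.tri]
    have hp := mem_prev hC i
    have hcr := hC.hcross (i - 1)
    rw [sub_add_cancel] at hcr
    rcases twoTri hS (hC.hab i) ht (hC.htri i) (hC.htri (i - 1)) (hs (by simp)) (hs (by simp))
      ha' hb' hp.1 hp.2 hcr.symm with rfl | rfl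
    · exact n_tri hG i hw ha'
    · rw [← hG.hflat i he]
      exact n_tri hG (i - 1) hw hp.1

end tri

/-! ## The data at a crossing -/

section crossing

variable {N : ℕ} {S : PolyData N} {C : Crv N} {G : Frm} {q : ZMod 4}

/-- the situation at a real crossing -/
structure RC (S : PolyData N) (C : Crv N) (G : Frm) (i : ℤ) (e : Fin 3) (A' B' : E3 →L[ℝ] ℝ)
    (σ : ℝ) : Prop where
  hσ : σ = 1 ∨ σ = -1
  hA : (A' = S.A (C.a i) e ∧ B' = S.B (C.a i) e) ∨ (A' = S.B (C.a i) e ∧ B' = S.A (C.a i) e)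
  n1 : ∀ p, inner ℝ (G.n (i - 1)) p = σ * A' p
  n2 : ∀ p, inner ℝ (G.n i) p = σ * B' p
  AD : A' (C.D S (i - 1)) = 0
  BD : B' (C.D S i) = 0
  l1 : 0 < B' (C.D S (i - 1))
  l2 : A' (C.D S i) < 0
  Ab : A' (S.P (C.b i) - S.P (C.a i)) = 0
  Bb : B' (S.P (C.b i) - S.P (C.a i)) = 0

theorem exRC (h : SpecSID) (hS : S.IsSurf) (hC : C.IsCrv S) (hG : Frm.IsFrm S C G q) {i : ℤ}
    {e : Fin 3} (he : C.re i = some e) : ∃ A' B' σ, RC S C G i e A' B' σ := by
  obtain ⟨u, hu, hua, hub, hut, hu'⟩ := third hS hC i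
  have ht := card_tri hS hC i
  have hb : C.b i = S.r (C.a i) e := (hC.hreal i e he).1
  obtain ⟨σ, hσ, hR⟩ := hG.hreal i e he
  have hσ0 : σ ≠ 0 := by rcases hσ with rfl | rfl <;> norm_num
  have hs := h N S hS (C.a i) e
  rw [← hb] at hs
  have hT1 : ({C.a i, C.b i, u} : Finset (Fin N)) ∈ S.T := by
    rw [← hu]; exact hC.htri _
  have hT2 : ({C.a i, C.b i, C.t i} : Finset (Fin N)) ∈ S.T := hC.htri i
  have s1 := (hs u (C.t i) hua hub ht.1 ht.2 hT1 hT2).1
  have s2 := (hs (C.t i) u ht.1 ht.2 hua hub hT2 hT1).1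
  have hp := mem_prev hC i
  have ha' : C.a i ∈ C.tri i := by simp [Crv.tri]
  have hb' : C.b i ∈ C.tri i := by simp [Crv.tri]
  have hct : C.t i ∈ C.tri i := by simp [Crv.tri]
  have hcu : u ∈ C.tri (i - 1) := by rw [hu]; simp
  have main : ∀ A' B' : E3 →L[ℝ] ℝ,
      ((A' = S.A (C.a i) e ∧ B' = S.B (C.a i) e) ∨
        (A' = S.B (C.a i) e ∧ B' = S.A (C.a i) e)) →
      (∀ p, inner ℝ (G.n (i - 1)) p = σ * A' p) → (∀ p, inner ℝ (G.n i) p = σ * B' p) →
      (A' (S.P u - S.P (C.a i)) = 0 → B' (S.P u - S.P (C.a i)) < 0) →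
      (B' (S.P (C.t i) - S.P (C.a i)) = 0 → A' (S.P (C.t i) - S.P (C.a i)) < 0) →
      RC S C G i e A' B' σ := by
    intro A' B' hA n1 n2 q1 q2
    have z1 : ∀ p, inner ℝ (G.n (i - 1)) p = 0 → A' p = 0 := by
      intro p hp
      rw [n1] at hp
      exact (mul_eq_zero.1 hp).resolve_left hσ0
    have z2 : ∀ p, inner ℝ (G.n i) p = 0 → B' p = 0 := by
      intro p hp
      rw [n2] at hp
      exact (mul_eq_zero.1 hp).resolve_left hσ0
    have Ab := z1 _ (n_tri hG (i - 1) hp.2 hp.1)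
    have Bb := z2 _ (n_tri hG i hb' ha')
    have q1' := q1 (z1 _ (n_tri hG (i - 1) hcu hp.1))
    have q2' := q2 (z2 _ (n_tri hG i hct ha'))
    refine ⟨hσ, hA, n1, n2, z1 _ (n_D hC hG (i - 1)), z2 _ (n_D hC hG i),
      D_pos' hC i hu hu' B' Bb q1', ?_, Ab, Bb⟩
    have := D_pos hC i (-A') (by rw [neg_apply, Ab, neg_zero])
      (by rw [neg_apply]; linarith)
    rw [neg_apply] at this
    linarith
  rcases hR with hR | hR
  · refine ⟨_, _, σ, main _ _ (Or.inl ⟨rfl, rfl⟩) (fun p => (hR p).1) (fun p => (hR p).2) ?_ ?_⟩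
    · intro h0
      rcases s1 with s | s
      · exact s.2
      · exact absurd h0 s.2.ne
    · intro h0
      rcases s2 with s | s
      · exact absurd h0 s.2.ne
      · exact s.2
  · refine ⟨_, _, σ, main _ _ (Or.inr ⟨rfl, rfl⟩) (fun p => (hR p).1) (fun p => (hR p).2) ?_ ?_⟩
    · intro h0
      rcases s1 with s | s
      · exact absurd h0 s.2.ne
      · exact s.2
    · intro h0
      rcases s2 with s | s
      · exact s.2
      · exact absurd h0 s.2.ne

theorem exFC (h : SpecFLT) (hS : S.IsSurf) (hC : C.IsCrv S) {i : ℤ} (he : C.re i = none) :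
    ∃ l : E3 →L[ℝ] ℝ, 0 < l (C.D S (i - 1)) ∧ 0 < l (C.D S i) := by
  obtain ⟨u, hu, hua, hub, hut, hu'⟩ := third hS hC i
  have ht := card_tri hS hC i
  have hT1 : ({C.a i, C.b i, u} : Finset (Fin N)) ∈ S.T := by
    rw [← hu]; exact hC.htri _
  obtain ⟨n, h1, h2, h3⟩ := h N S hS (C.a i) (C.b i) (C.t i) u (hC.hab i).symm ht.1 ht.2 hua hub
    hut.symm (hC.htri i) hT1 (hC.hflat i he)
  exact ⟨innerSL ℝ n, D_pos' hC i hu hu' _ h1 h3, D_pos hC i _ h1 h2⟩

theorem A_d (hS : S.IsSurf) (v : Fin N) (e : Fin 3) : S.A v e (S.d v) = S.sg v e := by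
  unfold PolyData.A PolyData.sg
  have h := hS.hd v
  split_ifs
  · rw [smul_apply, h.1, smul_eq_mul, mul_one]
  · exact h.1
  · exact h.2.1

theorem B_d (hS : S.IsSurf) (v : Fin N) (e : Fin 3) : S.B v e (S.d v) = S.sg v e := by
  unfold PolyData.B PolyData.sg
  have h := hS.hd v
  split_ifs
  · rw [smul_apply, h.2.1, smul_eq_mul, mul_one]
  · exact h.2.2

theorem sg_sq (hS : S.IsSurf) (v : Fin N) (e : Fin 3) : S.sg v e * S.sg v e = 1 := by
  unfold PolyData.sg
  split_ifs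
  · rcases hS.hκ v with h | h <;> rw [h] <;> norm_num
  · norm_num

end crossing


/-! ## The fields on a piece -/

section piece

variable {N : ℕ} (S : PolyData N) (C : Crv N) (G : Frm) (ψ : ℝ → ℝ) (δ : ℝ)

/-- slope of the crossing function before the crossing -/
def rm (i : ℤ) : ℝ :=
  match C.re i with
  | none => 1
  | some e => |(S.B (C.a i) e - S.A (C.a i) e) (C.D S (i - 1))|

/-- slope of the crossing function after the crossing -/
def rp (i : ℤ) : ℝ :=
  match C.re i with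
  | none => 1
  | some e => |(S.B (C.a i) e - S.A (C.a i) e) (C.D S i)|

/-- the interpolation parameter -/
def lam (i : ℤ) (s : ℝ) : ℝ :=
  match C.re i with
  | none => s + 1 / 2
  | some _ => deriv ψ ((rm S C i * min s 0 + rp S C i * max s 0) / δ)

def den (i : ℤ) (s : ℝ) : ℝ := (1 - lam S C ψ δ i s) * rp S C i + lam S C ψ δ i s * rm S C i

def Xi (i : ℤ) (s : ℝ) : E3 :=
  ((1 - lam S C ψ δ i s) * rp S C i / den S C ψ δ i s) • C.D S (i - 1) +
    (lam S C ψ δ i s * rm S C i / den S C ψ δ i s) • C.D S i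

def Ni (i : ℤ) (s : ℝ) : E3 :=
  (1 - lam S C ψ δ i s) • G.n (i - 1) + lam S C ψ δ i s • G.n i

/-- what is needed at the crossing `i` -/
structure Loc (c : ℝ → Realization S.T) (i : ℤ) : Prop where
  rm0 : 0 < rm S C i
  rp0 : 0 < rp S C i
  lam0 : lam S C ψ δ i (-1 / 2) = 0
  lam1 : lam S C ψ δ i (1 / 2) = 1
  orth : ∀ s, inner ℝ (Xi S C ψ δ i s) (Ni S C G ψ δ i s) = 0
  nrm : ∀ s : ℝ, |s| ≤ 1 / 2 → S.Nrm ψ δ (c (((i : ℝ) + s) / C.L)) (Ni S C G ψ δ i s)
  l : ∃ l : E3 →L[ℝ] ℝ, 0 < l (C.D S (i - 1)) ∧ 0 < l (C.D S i) ∧ ∀ s : ℝ, |s| ≤ 1 / 2 →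
    l (S.f ψ δ (c (((i : ℝ) + s) / C.L))) = l (S.g (c (((i : ℝ) + s) / C.L)).1)
  near : ∀ᶠ y in 𝓝 (c (((i : ℝ) + 1 / 2) / C.L)), S.f ψ δ y = S.g y.1

variable {S C G ψ δ}

theorem lam_cont (h : IsPsi ψ) (i : ℤ) : Continuous (lam S C ψ δ i) := by
  unfold lam
  rcases C.re i with _ | e
  · exact continuous_id.add continuous_const
  · refine (contD h).comp ?_
    fun_prop

theorem lam_rng (h : IsPsi ψ) (i : ℤ) {s : ℝ} (hs : |s| ≤ 1 / 2) :
    0 ≤ lam S C ψ δ i s ∧ lam S C ψ δ i s ≤ 1 := by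
  unfold lam
  rw [abs_le] at hs
  rcases C.re i with _ | e
  · constructor
    · show 0 ≤ s + 1 / 2
      linarith [hs.1]
    · show s + 1 / 2 ≤ 1
      linarith [hs.2]
  · exact rng h _

theorem den_pos {c : ℝ → Realization S.T} {i : ℤ} (hl : Loc S C G ψ δ c i) {s : ℝ}
    (hs : 0 ≤ lam S C ψ δ i s ∧ lam S C ψ δ i s ≤ 1) : 0 < den S C ψ δ i s := by
  unfold den
  have h1 := hl.rm0
  have h2 := hl.rp0
  rcases eq_or_lt_of_le hs.1 with h | h
  · rw [← h]
    linarith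
  · have := mul_pos h h1
    have := mul_nonneg (sub_nonneg.2 hs.2) h2.le
    linarith

theorem den_pos' (h : IsPsi ψ) {c : ℝ → Realization S.T} {i : ℤ} (hl : Loc S C G ψ δ c i)
    (s : ℝ) : den S C ψ δ i s ≠ 0 := by
  rcases he : C.re i with _ | e
  · unfold den rm rp lam
    rw [he]
    simp
  · refine (den_pos hl ?_).ne'
    unfold lam
    rw [he]
    exact rng h _

theorem Xi_cont (h : IsPsi ψ) {c : ℝ → Realization S.T} {i : ℤ} (hl : Loc S C G ψ δ c i) :
    Continuous (Xi S C ψ δ i) := by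
  have h1 := lam_cont (S := S) (C := C) (δ := δ) h i
  have h2 : Continuous (den S C ψ δ i) := by
    unfold den
    fun_prop
  have h3 : ∀ s, den S C ψ δ i s ≠ 0 := den_pos' h hl
  unfold Xi
  refine Continuous.add (Continuous.smul (Continuous.div ?_ h2 h3) continuous_const)
    (Continuous.smul (Continuous.div ?_ h2 h3) continuous_const)
  · fun_prop
  · fun_prop

theorem Ni_cont (h : IsPsi ψ) (i : ℤ) : Continuous (Ni S C G ψ δ i) := by
  have h1 := lam_cont (S := S) (C := C) (δ := δ) h i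
  unfold Ni
  fun_prop

theorem Xi_right {c : ℝ → Realization S.T} {i : ℤ} (hl : Loc S C G ψ δ c i) :
    Xi S C ψ δ i (1 / 2) = C.D S i := by
  have h := hl.rm0.ne'
  unfold Xi den
  rw [hl.lam1]
  simp [h]

theorem Xi_left {c : ℝ → Realization S.T} {i : ℤ} (hl : Loc S C G ψ δ c i) :
    Xi S C ψ δ i (-1 / 2) = C.D S (i - 1) := by
  have h := hl.rp0.ne'
  unfold Xi den
  rw [hl.lam0]
  simp [h]

theorem Ni_right {c : ℝ → Realization S.T} {i : ℤ} (hl : Loc S C G ψ δ c i) :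
    Ni S C G ψ δ i (1 / 2) = G.n i := by
  unfold Ni
  rw [hl.lam1]
  simp

theorem Ni_left {c : ℝ → Realization S.T} {i : ℤ} (hl : Loc S C G ψ δ c i) :
    Ni S C G ψ δ i (-1 / 2) = G.n (i - 1) := by
  unfold Ni
  rw [hl.lam0]
  simp

/-! periodicity -/

theorem pt_per (hC : C.IsCrv S) (i : ℤ) : C.pt (i + C.L) = C.pt i := by
  unfold Crv.pt
  rw [hC.hpa, hC.hpb, hC.hpr]

theorem D_per (hC : C.IsCrv S) (i : ℤ) : C.D S (i + C.L) = C.D S i := by
  unfold Crv.D
  rw [pt_per hC, show i + C.L + 1 = i + 1 + C.L by ring, pt_per hC]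

theorem D_per' (hC : C.IsCrv S) (i : ℤ) : C.D S (i + C.L - 1) = C.D S (i - 1) := by
  rw [show i + C.L - 1 = i - 1 + C.L by ring, D_per hC]

theorem rm_per (hC : C.IsCrv S) (i : ℤ) : rm S C (i + C.L) = rm S C i := by
  unfold rm
  rw [hC.hpe, hC.hpa, D_per' hC]

theorem rp_per (hC : C.IsCrv S) (i : ℤ) : rp S C (i + C.L) = rp S C i := by
  unfold rp
  rw [hC.hpe, hC.hpa, D_per hC]

theorem lam_per (hC : C.IsCrv S) (i : ℤ) : lam S C ψ δ (i + C.L) = lam S C ψ δ i := by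
  unfold lam
  funext s
  rw [hC.hpe, rm_per hC, rp_per hC]

theorem den_per (hC : C.IsCrv S) (i : ℤ) : den S C ψ δ (i + C.L) = den S C ψ δ i := by
  unfold den
  funext s
  rw [lam_per hC, rm_per hC, rp_per hC]

theorem Xi_per (hC : C.IsCrv S) (i : ℤ) : Xi S C ψ δ (i + C.L) = Xi S C ψ δ i := by
  unfold Xi
  funext s
  rw [lam_per hC, rm_per hC, rp_per hC, den_per hC, D_per' hC, D_per hC]

theorem Ni_per {q : ZMod 4} (hC : C.IsCrv S) (hG : Frm.IsFrm S C G q) (i : ℤ) (s : ℝ) :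
    Ni S C G ψ δ (i + C.L) s = (if q = 0 ∨ q = 2 then (1 : ℝ) else -1) • Ni S C G ψ δ i s := by
  unfold Ni
  rw [lam_per hC, hG.hnhol, show i + C.L - 1 = i - 1 + C.L by ring, hG.hnhol]
  module

theorem Nrm_smul {x : Realization S.T} {n : E3} (a : ℝ) (h : S.Nrm ψ δ x n) :
    S.Nrm ψ δ x (a • n) := by
  rcases h with ⟨v, hv, μ, h⟩ | h
  · refine Or.inl ⟨v, hv, a * μ, fun p => ?_⟩
    rw [inner_smul_left, h p]
    simp [mul_assoc]
  · refine Or.inr ?_
    filter_upwards [h] with y hy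
    refine ⟨hy.1, ?_⟩
    rw [inner_smul_left, hy.2, mul_zero]

theorem arg_per (hC : C.IsCrv S) (i : ℤ) (s : ℝ) :
    ((((i + C.L : ℤ)) : ℝ) + s) / C.L = ((i : ℝ) + s) / C.L + 1 := by
  have hL : (C.L : ℝ) ≠ 0 := by
    have := hC.hL
    positivity
  push_cast
  field_simp
  ring

theorem Loc_per {q : ZMod 4} (hC : C.IsCrv S) (hG : Frm.IsFrm S C G q)
    {c : ℝ → Realization S.T} (hc : ∀ t, c (t + 1) = c t) (i : ℤ) :
    Loc S C G ψ δ c (i + C.L) ↔ Loc S C G ψ δ c i := by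
  have hε : (if q = 0 ∨ q = 2 then (1 : ℝ) else -1) * (if q = 0 ∨ q = 2 then (1 : ℝ) else -1)
      = 1 := by
    split_ifs <;> norm_num
  constructor
  · intro h
    have hN : ∀ s, Ni S C G ψ δ i s = (if q = 0 ∨ q = 2 then (1 : ℝ) else -1) •
        Ni S C G ψ δ (i + C.L) s := by
      intro s
      rw [Ni_per hC hG, smul_smul, hε, one_smul]
    refine ⟨?_, ?_, ?_, ?_, ?_, ?_, ?_, ?_⟩
    · rw [← rm_per hC]; exact h.rm0
    · rw [← rp_per hC]; exact h.rp0
    · rw [← lam_per hC]; exact h.lam0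
    · rw [← lam_per hC]; exact h.lam1
    · intro s
      rw [← Xi_per hC, hN, inner_smul_right, h.orth, mul_zero]
    · intro s hs
      have := h.nrm s hs
      rw [arg_per hC, hc] at this
      rw [hN]
      exact Nrm_smul _ this
    · obtain ⟨l, h1, h2, h3⟩ := h.l
      rw [D_per' hC] at h1
      rw [D_per hC] at h2
      refine ⟨l, h1, h2, fun s hs => ?_⟩
      have := h3 s hs
      rw [arg_per hC, hc] at this
      exact this
    · have := h.near
      rw [arg_per hC, hc] at this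
      exact this
  · intro h
    refine ⟨?_, ?_, ?_, ?_, ?_, ?_, ?_, ?_⟩
    · rw [rm_per hC]; exact h.rm0
    · rw [rp_per hC]; exact h.rp0
    · rw [lam_per hC]; exact h.lam0
    · rw [lam_per hC]; exact h.lam1
    · intro s
      rw [Xi_per hC, Ni_per hC hG, inner_smul_right, h.orth, mul_zero]
    · intro s hs
      rw [arg_per hC, hc, Ni_per hC hG]
      exact Nrm_smul _ (h.nrm s hs)
    · obtain ⟨l, h1, h2, h3⟩ := h.l
      refine ⟨l, by rw [D_per' hC]; exact h1, by rw [D_per hC]; exact h2, fun s hs => ?_⟩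
      rw [arg_per hC, hc]
      exact h3 s hs
    · rw [arg_per hC, hc]
      exact h.near

theorem Loc_per' {q : ZMod 4} (hC : C.IsCrv S) (hG : Frm.IsFrm S C G q)
    {c : ℝ → Realization S.T} (hc : ∀ t, c (t + 1) = c t)
    (h : ∀ i ∈ Finset.Ico (0 : ℤ) C.L, Loc S C G ψ δ c i) (i : ℤ) : Loc S C G ψ δ c i := by
  have hL : (0 : ℤ) < C.L := by exact_mod_cast hC.hL
  have key : ∀ m : ℤ, Loc S C G ψ δ c (i % C.L + m * C.L) := by
    intro m
    induction m using Int.induction_on with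
    | zero =>
      rw [zero_mul, add_zero]
      exact h _ (Finset.mem_Ico.2 ⟨Int.emod_nonneg _ hL.ne', Int.emod_lt_of_pos _ hL⟩)
    | succ m ih =>
      rw [show i % C.L + ((m : ℤ) + 1) * C.L = i % C.L + (m : ℤ) * C.L + C.L by ring]
      exact (Loc_per hC hG hc _).2 ih
    | pred m ih =>
      have e : i % C.L + (-(m : ℤ)) * C.L = (i % C.L + (-(m : ℤ) - 1) * C.L) + C.L := by ring
      rw [e] at ih
      exact (Loc_per hC hG hc _).1 ih
  have := key (i / C.L)
  rwa [mul_comm, Int.emod_add_mul_ediv] at this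

end piece

/-! ## From the pieces to the fields -/

section fields

variable {N : ℕ} {S : PolyData N} {C : Crv N} {G : Frm} {q : ZMod 4} {ψ : ℝ → ℝ} {δ : ℝ}

theorem mm_mono {p q x y : ℝ} (hp : 0 < p) (hq : 0 < q) (h : x < y) :
    min x 0 * p + max x 0 * q < min y 0 * p + max y 0 * q := by
  rcases lt_or_ge x 0 with hx | hx
  · have h1 : min x 0 < min y 0 := by
      rw [min_eq_left hx.le]
      exact lt_min h hx
    have h2 : max x 0 ≤ max y 0 := max_le_max h.le le_rfl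
    have := mul_lt_mul_of_pos_right h1 hp
    have := mul_le_mul_of_nonneg_right h2 hq.le
    linarith
  · have h1 : min x 0 ≤ min y 0 := min_le_min h.le le_rfl
    have h2 : max x 0 < max y 0 := by
      rw [max_eq_left hx]
      exact lt_max_of_lt_left h
    have := mul_le_mul_of_nonneg_right h1 hp.le
    have := mul_lt_mul_of_pos_right h2 hq
    linarith

theorem l_g (hC : C.IsCrv S) (i : ℤ) (l : E3 →L[ℝ] ℝ) {s : ℝ} (hs : |s| ≤ 1 / 2) :
    l (S.g (C.c0 (((i : ℝ) + s) / C.L))) = l (S.g (C.pt i)) + (min s 0 * l (C.D S (i - 1)) +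
      max s 0 * l (C.D S i)) := by
  rw [abs_le] at hs
  rcases le_total s 0 with h | h
  · rw [g_seg' hC i (by linarith [hs.1]) h, map_add, map_smul, min_eq_left h, max_eq_right h,
      smul_eq_mul]
    ring
  · rw [g_seg hC i h (by linarith [hs.2]), map_add, map_smul, min_eq_right h, max_eq_left h,
      smul_eq_mul]
    ring

theorem fwd1 (hC : C.IsCrv S) (hψ : IsPsi ψ) {c : ℝ → Realization S.T}
    (hc0 : ∀ s, (c s).1 = C.c0 s) {i : ℤ} (hl : Loc S C G ψ δ c i) {s : ℝ} (hs : |s| < 1 / 2) :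
    ∃ w : E3, 0 < inner ℝ w (Xi S C ψ δ i s) ∧
    ∃ ε > 0, StrictMonoOn (fun s' => inner ℝ w (S.f ψ δ (c s')))
      (Set.Icc (((i : ℝ) + s) / C.L - ε) (((i : ℝ) + s) / C.L + ε)) := by
  obtain ⟨l, h1, h2, h3⟩ := hl.l
  have hL : 0 < (C.L : ℝ) := by
    have := hC.hL
    positivity
  refine ⟨(InnerProductSpace.toDual ℝ E3).symm l, ?_, (1 / 2 - |s|) / C.L,
    div_pos (by linarith) hL, ?_⟩
  · rw [InnerProductSpace.toDual_symm_apply]
    unfold Xi
    have hr := lam_rng (S := S) (C := C) (δ := δ) hψ i hs.le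
    have hd := den_pos hl hr
    rw [map_add, map_smul, map_smul, smul_eq_mul, smul_eq_mul, div_mul_eq_mul_div,
      div_mul_eq_mul_div, ← add_div]
    refine div_pos ?_ hd
    have e1 := mul_pos hl.rp0 h1
    have e2 := mul_pos hl.rm0 h2
    rw [mul_assoc, mul_assoc]
    rcases eq_or_lt_of_le hr.1 with h | h
    · rw [← h]
      linarith
    · have := mul_pos h e2
      have := mul_nonneg (sub_nonneg.2 hr.2) e1.le
      linarith
  · have key : ∀ s' ∈ Set.Icc (((i : ℝ) + s) / C.L - (1 / 2 - |s|) / C.L)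
        (((i : ℝ) + s) / C.L + (1 / 2 - |s|) / C.L),
        inner ℝ ((InnerProductSpace.toDual ℝ E3).symm l) (S.f ψ δ (c s')) =
        l (S.g (C.pt i)) + (min (C.L * s' - i) 0 * l (C.D S (i - 1)) +
          max (C.L * s' - i) 0 * l (C.D S i)) := by
      intro s' hs'
      have e1 := hs'.1
      have e2 := hs'.2
      rw [← sub_div, div_le_iff₀ hL] at e1
      rw [← add_div, le_div_iff₀ hL] at e2
      have e3 : |C.L * s' - i| ≤ 1 / 2 := by
        have := neg_abs_le s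
        have := le_abs_self s
        rw [abs_le]
        constructor <;> nlinarith
      have e4 : ((i : ℝ) + (C.L * s' - i)) / C.L = s' := by field_simp; ring
      have e5 := h3 _ e3
      rw [hc0, l_g hC i l e3, e4] at e5
      rw [InnerProductSpace.toDual_symm_apply]
      exact e5
    intro x hx y hy hxy
    show inner ℝ _ _ < inner ℝ _ _
    rw [key x hx, key y hy]
    have : C.L * x - i < C.L * y - i := by
      have := mul_lt_mul_of_pos_left hxy hL
      linarith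
    have := mm_mono h1 h2 this
    linarith

theorem fwd2 (hC : C.IsCrv S) {c : ℝ → Realization S.T} (hcc : Continuous c)
    (hc0 : ∀ s, (c s).1 = C.c0 s) {i : ℤ} (hl : Loc S C G ψ δ c i) :
    ∃ w : E3, 0 < inner ℝ w (Xi S C ψ δ i (1 / 2)) ∧
    ∃ ε > 0, StrictMonoOn (fun s' => inner ℝ w (S.f ψ δ (c s')))
      (Set.Icc (((i : ℝ) + 1 / 2) / C.L - ε) (((i : ℝ) + 1 / 2) / C.L + ε)) := by
  obtain ⟨l, h1, h2, h3⟩ := hl.l
  have hL : 0 < (C.L : ℝ) := by
    have := hC.hL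
    positivity
  have hD : 0 < inner ℝ (C.D S i) (C.D S i) := by
    rw [real_inner_self_pos]
    intro h
    rw [h, map_zero] at h2
    exact lt_irrefl _ h2
  have hn := hcc.continuousAt.eventually hl.near
  rw [Metric.eventually_nhds_iff] at hn
  obtain ⟨ε, hε, hn⟩ := hn
  refine ⟨C.D S i, by rw [Xi_right hl]; exact hD, min (ε / 2) (1 / 2 / C.L), ?_, ?_⟩
  · have : 0 < 1 / 2 / (C.L : ℝ) := by positivity
    exact lt_min (half_pos hε) this
  · have m1 := min_le_left (ε / 2) (1 / 2 / (C.L : ℝ))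
    have m2 := min_le_right (ε / 2) (1 / 2 / (C.L : ℝ))
    have key : ∀ s' ∈ Set.Icc (((i : ℝ) + 1 / 2) / C.L - min (ε / 2) (1 / 2 / (C.L : ℝ)))
        (((i : ℝ) + 1 / 2) / C.L + min (ε / 2) (1 / 2 / (C.L : ℝ))),
        inner ℝ (C.D S i) (S.f ψ δ (c s')) =
        inner ℝ (C.D S i) (S.g (C.pt i)) + (C.L * s' - i) * inner ℝ (C.D S i) (C.D S i) := by
      intro s' hs'
      have hf : S.f ψ δ (c s') = S.g (c s').1 := by
        refine hn ?_
        rw [Real.dist_eq, abs_lt]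
        constructor
        · linarith [hs'.1]
        · linarith [hs'.2]
      have e1 : (((i : ℝ) + 1 / 2) / C.L - 1 / 2 / (C.L : ℝ)) ≤ s' := by linarith [hs'.1]
      have e2 : s' ≤ (((i : ℝ) + 1 / 2) / C.L + 1 / 2 / (C.L : ℝ)) := by linarith [hs'.2]
      rw [← sub_div, div_le_iff₀ hL] at e1
      rw [← add_div, le_div_iff₀ hL] at e2
      have e4 : ((i : ℝ) + (C.L * s' - i)) / C.L = s' := by field_simp; ring
      have e5 := g_seg hC i (s := C.L * s' - i) (by nlinarith) (by nlinarith)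
      rw [e4] at e5
      rw [hf, hc0, e5, inner_add_right, inner_smul_right]
    intro x hx y hy hxy
    show inner ℝ _ _ < inner ℝ _ _
    rw [key x hx, key y hy]
    have : C.L * x - i < C.L * y - i := by
      have := mul_lt_mul_of_pos_left hxy hL
      linarith
    have := mul_lt_mul_of_pos_right this hD
    linarith

theorem fields (hC : C.IsCrv S) (hG : Frm.IsFrm S C G q) (hψ : IsPsi ψ)
    {c : ℝ → Realization S.T} (hcc : Continuous c) (hc0 : ∀ s, (c s).1 = C.c0 s)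
    (h : ∀ i, Loc S C G ψ δ c i) : ∃ X Nn : ℝ → E3, Fields S C G q ψ δ c X Nn := by
  have hL : 0 < (C.L : ℝ) := by
    have := hC.hL
    positivity
  have gX : ∀ i, Xi S C ψ δ i (1 / 2) = Xi S C ψ δ (i + 1) (-1 / 2) := by
    intro i
    rw [Xi_right (h i), Xi_left (h (i + 1)), add_sub_cancel_right]
  have gN : ∀ i, Ni S C G ψ δ i (1 / 2) = Ni S C G ψ δ (i + 1) (-1 / 2) := by
    intro i
    rw [Ni_right (h i), Ni_left (h (i + 1)), add_sub_cancel_right]
  have ex : ∀ t : ℝ, ∃ (i : ℤ) (s : ℝ), -1 / 2 ≤ s ∧ s < 1 / 2 ∧ t = ((i : ℝ) + s) / C.L ∧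
      gl (Xi S C ψ δ) (C.L * t) = Xi S C ψ δ i s ∧
      gl (Ni S C G ψ δ) (C.L * t) = Ni S C G ψ δ i s := by
    intro t
    refine ⟨⌊C.L * t + 1 / 2⌋, C.L * t - ⌊C.L * t + 1 / 2⌋, ?_, ?_, ?_, rfl, rfl⟩
    · have := Int.floor_le (C.L * t + 1 / 2)
      linarith
    · have := Int.lt_floor_add_one (C.L * t + 1 / 2)
      linarith
    · field_simp
      ring
  refine ⟨fun t => gl (Xi S C ψ δ) (C.L * t), fun t => gl (Ni S C G ψ δ) (C.L * t),
    ?_, ?_, ?_, ?_, ?_, ?_, ?_, ?_, ?_⟩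
  · exact (gl_cont gX fun i => Xi_cont hψ (h i)).comp (continuous_const.mul continuous_id)
  · exact (gl_cont gN fun i => Ni_cont hψ i).comp (continuous_const.mul continuous_id)
  · intro t
    obtain ⟨i, s, h1, h2, rfl, e1, e2⟩ := ex t
    show inner ℝ (gl _ _) (gl _ _) = 0
    rw [e1, e2]
    exact (h i).orth s
  · intro t
    show gl _ _ = gl _ _
    unfold gl
    have e : C.L * (t + 1) + 1 / 2 = C.L * t + 1 / 2 + (C.L : ℤ) := by push_cast; ring
    rw [e, Int.floor_add_intCast, Xi_per hC]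
    push_cast
    congr 1
    ring
  · intro t
    show gl _ _ = _ • gl _ _
    unfold gl
    have e : C.L * (t + 1) + 1 / 2 = C.L * t + 1 / 2 + (C.L : ℤ) := by push_cast; ring
    rw [e, Int.floor_add_intCast, Ni_per hC hG]
    push_cast
    congr 2
    ring
  · intro t
    obtain ⟨i, s, h1, h2, rfl, e1, e2⟩ := ex t
    show S.Nrm ψ δ _ (gl _ _)
    rw [e2]
    exact (h i).nrm s (abs_le.2 ⟨by linarith, h2.le⟩)
  · intro t
    obtain ⟨i, s, h1, h2, rfl, e1, e2⟩ := ex t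
    show ∃ w : E3, 0 < inner ℝ w (gl _ _) ∧ _
    rw [e1]
    rcases eq_or_lt_of_le h1 with hs | hs
    · subst hs
      have := fwd2 hC hcc hc0 (h (i - 1))
      have e : (((i - 1 : ℤ) : ℝ) + 1 / 2) / C.L = ((i : ℝ) + -1 / 2) / C.L := by
        push_cast
        ring
      rw [e, gX (i - 1), sub_add_cancel] at this
      exact this
    · exact fwd1 hC hψ hc0 (h i) (abs_lt.2 ⟨by linarith, h2⟩)
  · intro i t h1 h2
    rw [div_le_iff₀ hL] at h1
    rw [le_div_iff₀ hL] at h2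
    have e1 := gl_eq gX (y := C.L * t) (i := i) (by linarith) (by linarith)
    have e2 := gl_eq gN (y := C.L * t) (i := i) (by linarith) (by linarith)
    have hs : |C.L * t - i| ≤ 1 / 2 := abs_le.2 ⟨by linarith, by linarith⟩
    have hr := lam_rng (S := S) (C := C) (δ := δ) hψ i hs
    have hd := den_pos (h i) hr
    refine ⟨⟨_, _, ?_, ?_, ?_, e1⟩, ⟨_, _, ?_, ?_, ?_, e2⟩⟩
    · exact div_nonneg (mul_nonneg (sub_nonneg.2 hr.2) (h i).rp0.le) hd.le
    · exact div_nonneg (mul_nonneg hr.1 (h i).rm0.le) hd.le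
    · rw [← add_div]
      exact div_pos hd hd
    · exact sub_nonneg.2 hr.2
    · exact hr.1
    · linarith
  · intro i
    have e0 : C.L * (((i : ℝ) + 1 / 2) / C.L) = i + 1 / 2 := by field_simp
    have e1 := gl_eq gX (y := (i : ℝ) + 1 / 2) (i := i) (by linarith) (by linarith)
    have e2 := gl_eq gN (y := (i : ℝ) + 1 / 2) (i := i) (by linarith) (by linarith)
    rw [add_sub_cancel_left] at e1 e2
    rw [Xi_right (h i)] at e1
    rw [Ni_right (h i)] at e2
    refine ⟨⟨1, one_pos, ?_⟩, ⟨1, one_pos, ?_⟩⟩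
    · show gl _ _ = _
      rw [e0, e1, one_smul]
    · show gl _ _ = _
      rw [e0, e2, one_smul]

end fields


/-! ## The two kinds of crossings -/

section loc

variable {N : ℕ} {S : PolyData N} {C : Crv N} {G : Frm} {q : ZMod 4} {ψ : ℝ → ℝ}

theorem locFlat (hF : SpecFLT) (hG3 : SpecG3) (hS : S.IsSurf) (hC : C.IsCrv S)
    (hG : Frm.IsFrm S C G q) (hψ : IsPsi ψ) {c : ℝ → Realization S.T} (hcc : Continuous c)
    (hc0 : ∀ s, (c s).1 = C.c0 s) {i : ℤ} (he : C.re i = none) :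
    ∀ᶠ δ in 𝓝[>] (0 : ℝ), Loc S C G ψ δ c i := by
  have hcs : Continuous fun s : ℝ => c (((i : ℝ) + s) / C.L) := by
    exact hcc.comp ((continuous_const.add continuous_id).div_const _)
  have hK : IsCompact ((fun s : ℝ => c (((i : ℝ) + s) / C.L)) '' Set.Icc (-1 / 2) (1 / 2)) :=
    isCompact_Icc.image hcs
  have ha' : C.a i ∈ C.tri i := by simp [Crv.tri]
  have hb' : C.b i ∈ C.tri i := by simp [Crv.tri]
  have hab : ∀ s : ℝ, -1 < s → s < 1 → (c (((i : ℝ) + s) / C.L)).1 (C.a i) ≠ 0 ∧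
      (c (((i : ℝ) + s) / C.L)).1 (C.b i) ≠ 0 := by
    intro s h1 h2
    rw [hc0]
    rcases lt_trichotomy s 0 with h | h | h
    · exact ⟨c_neg hC i h1 h (mem_prev hC i).1, c_neg hC i h1 h (mem_prev hC i).2⟩
    · rw [h, c_zero hC, pt_b hC]
      exact ⟨(pt_a hC i).ne', (hC.h01 i).1.ne'⟩
    · exact ⟨c_pos hC i h h2 ha', c_pos hC i h h2 hb'⟩
  have hdis : Disjoint ((fun s : ℝ => c (((i : ℝ) + s) / C.L)) '' Set.Icc (-1 / 2) (1 / 2))
      S.RE := by
    rw [Set.disjoint_left]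
    rintro _ ⟨s, hs, rfl⟩
    have := hab s (by linarith [hs.1]) (by linarith [hs.2])
    exact notRE2 hS hC he this.1 this.2
  obtain ⟨l, l1, l2⟩ := exFC hF hS hC he
  filter_upwards [hG3 N S hS ψ hψ _ hK hdis] with δ hδ
  have hn : G.n (i - 1) = G.n i := hG.hflat i he
  have hNi : ∀ s, Ni S C G ψ δ i s = G.n i := by
    intro s
    unfold Ni
    rw [hn]
    module
  have hf : ∀ s : ℝ, |s| ≤ 1 / 2 → ∀ᶠ y in 𝓝 (c (((i : ℝ) + s) / C.L)), S.f ψ δ y = S.g y.1 := by
    intro s hs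
    rw [abs_le] at hs
    exact hδ _ ⟨s, ⟨by linarith [hs.1], hs.2⟩, rfl⟩
  refine ⟨?_, ?_, ?_, ?_, ?_, ?_, ⟨l, l1, l2, ?_⟩, ?_⟩
  · unfold rm
    rw [he]
    exact one_pos
  · unfold rp
    rw [he]
    exact one_pos
  · unfold lam
    rw [he]
    norm_num
  · unfold lam
    rw [he]
    norm_num
  · intro s
    have h1 := n_D hC hG i
    have h2 := n_D hC hG (i - 1)
    rw [hn] at h2
    rw [hNi]
    unfold Xi
    rw [inner_add_left, inner_smul_left, inner_smul_left, real_inner_comm, h2, real_inner_comm, h1]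
    simp
  · intro s hs
    rw [hNi]
    refine Or.inr ?_
    have h3 := hab s (by have := abs_le.1 hs; linarith [this.1])
      (by have := abs_le.1 hs; linarith [this.2])
    filter_upwards [hf s hs, orthEdge hS hG hC he h3.1 h3.2] with y h1 h2
    exact ⟨h1, h2⟩
  · intro s hs
    rw [(hf s hs).self_of_nhds]
  · exact hf (1 / 2) (by rw [abs_of_pos] <;> norm_num)

theorem locReal (hSID : SpecSID) (hE : SpecEDG) (hG2 : SpecG2) (hG3 : SpecG3) (hS : S.IsSurf)
    (hC : C.IsCrv S) (hG : Frm.IsFrm S C G q) (hψ : IsPsi ψ) {c : ℝ → Realization S.T}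
    (hcc : Continuous c) (hc0 : ∀ s, (c s).1 = C.c0 s) {i : ℤ} {e : Fin 3}
    (he : C.re i = some e) : ∀ᶠ δ in 𝓝[>] (0 : ℝ), Loc S C G ψ δ c i := by
  have hcs : Continuous fun s : ℝ => c (((i : ℝ) + s) / C.L) := by
    exact hcc.comp ((continuous_const.add continuous_id).div_const _)
  obtain ⟨A', B', σ, R⟩ := exRC hSID hS hC hG he
  have hb := hC.hreal i e he
  have hx0 : (c (((i : ℝ) + 0) / C.L)).1 = C.pt i := by rw [hc0, c_zero hC]
  obtain ⟨U, hU, hUδ⟩ := hE N S hS ψ hψ (C.a i) e (c (((i : ℝ) + 0) / C.L))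
    (by intro w hw; rw [hx0] at hw; rw [← hb.1]; exact pt_ne hw)
    (by rw [hx0, ← hb.1, pt_b hC]; exact (hC.h01 i).1)
    (by rw [hx0, ← hb.1, pt_b hC]; exact hb.2)
  obtain ⟨η, hη, hη4, hηU⟩ : ∃ η > 0, η ≤ 1 / 4 ∧ ∀ s : ℝ, |s| < η →
      c (((i : ℝ) + s) / C.L) ∈ U := by
    have h1 := hcs.continuousAt.preimage_mem_nhds hU
    rw [Metric.mem_nhds_iff] at h1
    obtain ⟨η, hη, h1⟩ := h1
    refine ⟨min η (1 / 4), lt_min hη (by norm_num), min_le_right _ _, fun s hs => ?_⟩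
    have : s ∈ Metric.ball (0 : ℝ) η := by
      rw [Metric.mem_ball, Real.dist_eq, sub_zero]
      exact lt_of_lt_of_le hs (min_le_left _ _)
    exact h1 this
  have hK : IsCompact ((fun s : ℝ => c (((i : ℝ) + s) / C.L)) ''
      (Set.Icc (-1 / 2) (-η) ∪ Set.Icc η (1 / 2))) :=
    (isCompact_Icc.union isCompact_Icc).image hcs
  have hdis : Disjoint ((fun s : ℝ => c (((i : ℝ) + s) / C.L)) ''
      (Set.Icc (-1 / 2) (-η) ∪ Set.Icc η (1 / 2))) S.RE := by
    rw [Set.disjoint_left]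
    rintro _ ⟨s, hs, rfl⟩
    have key : ∀ (j : ℤ) (x : Realization S.T), (∀ w ∈ C.tri j, x.1 w ≠ 0) → x ∉ S.RE := by
      intro j x hx
      have ht := card_tri hS hC j
      exact notRE (hC.hab j) ht.1 ht.2 (hx _ (by simp [Crv.tri])) (hx _ (by simp [Crv.tri]))
        (hx _ (by simp [Crv.tri]))
    rcases hs with hs | hs
    · refine key (i - 1) _ fun w hw => ?_
      show (c _).1 w ≠ 0
      rw [hc0]
      exact c_neg hC i (by linarith [hs.1]) (by linarith [hs.2]) hw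
    · refine key i _ fun w hw => ?_
      show (c _).1 w ≠ 0
      rw [hc0]
      exact c_pos hC i (by linarith [hs.1]) (by linarith [hs.2]) hw
  have hrm : rm S C i = B' (C.D S (i - 1)) := by
    unfold rm
    rw [he]
    show |(S.B (C.a i) e - S.A (C.a i) e) (C.D S (i - 1))| = _
    rw [sub_apply]
    have h1 := R.l1
    have h2 := R.AD
    rcases R.hA with ⟨h3, h4⟩ | ⟨h3, h4⟩
    · rw [← h3, ← h4, h2, sub_zero, abs_of_pos h1]
    · rw [← h3, ← h4, h2, zero_sub, abs_neg, abs_of_pos h1]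
  have hrp : rp S C i = -A' (C.D S i) := by
    unfold rp
    rw [he]
    show |(S.B (C.a i) e - S.A (C.a i) e) (C.D S i)| = _
    rw [sub_apply]
    have h1 := R.l2
    have h2 := R.BD
    rcases R.hA with ⟨h3, h4⟩ | ⟨h3, h4⟩
    · rw [← h3, ← h4, h2, zero_sub, abs_neg, abs_of_neg h1]
    · rw [← h3, ← h4, h2, sub_zero, abs_of_neg h1]
  have hrm0 : 0 < rm S C i := by rw [hrm]; exact R.l1
  have hrp0 : 0 < rp S C i := by rw [hrp]; linarith [R.l2]
  have e1 : ∀ᶠ δ in 𝓝[>] (0 : ℝ), δ < η * rm S C i :=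
    mem_nhdsWithin_of_mem_nhds (Iio_mem_nhds (mul_pos hη hrm0))
  have e2 : ∀ᶠ δ in 𝓝[>] (0 : ℝ), δ < η * rp S C i :=
    mem_nhdsWithin_of_mem_nhds (Iio_mem_nhds (mul_pos hη hrp0))
  filter_upwards [hG3 N S hS ψ hψ _ hK hdis, hUδ, e1, e2, self_mem_nhdsWithin] with δ hδ hδ' hm hp
    hpos
  have hpos' : 0 < δ := hpos
  have lamL : ∀ s : ℝ, s ≤ -η → lam S C ψ δ i s = 0 := by
    intro s hs
    unfold lam
    rw [he]
    refine dzero hψ ?_
    rw [min_eq_left (by linarith), max_eq_right (by linarith), div_le_iff₀ hpos']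
    have := mul_le_mul_of_nonneg_left hs hrm0.le
    linarith
  have lamR : ∀ s : ℝ, η ≤ s → lam S C ψ δ i s = 1 := by
    intro s hs
    unfold lam
    rw [he]
    refine done hψ ?_
    rw [min_eq_right (by linarith), max_eq_left (by linarith), le_div_iff₀ hpos']
    have := mul_le_mul_of_nonneg_left hs hrp0.le
    linarith
  have hfK : ∀ s : ℝ, |s| ≤ 1 / 2 → η ≤ |s| →
      ∀ᶠ y in 𝓝 (c (((i : ℝ) + s) / C.L)), S.f ψ δ y = S.g y.1 := by
    intro s hs hs'
    rw [abs_le] at hs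
    rcases le_abs'.1 hs' with h | h
    · exact hδ _ ⟨s, Or.inl ⟨by linarith [hs.1], h⟩, rfl⟩
    · exact hδ _ ⟨s, Or.inr ⟨h, hs.2⟩, rfl⟩
  have hd : B' (S.d (C.a i)) = A' (S.d (C.a i)) := by
    rcases R.hA with ⟨h3, h4⟩ | ⟨h3, h4⟩ <;> rw [h3, h4, A_d hS, B_d hS]
  have hlf : ∀ s : ℝ, |s| < η → (B' - A') (S.f ψ δ (c (((i : ℝ) + s) / C.L))) =
      (B' - A') (S.g (c (((i : ℝ) + s) / C.L)).1) := by
    intro s hs
    rw [hG2 N S hS ψ δ (C.a i) _ (hδ' _ (hηU s hs)).1, map_sub, map_smul, sub_apply, sub_apply, hd,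
      sub_self, smul_zero, sub_zero]
  have hlg : ∀ s : ℝ, |s| < η → (B' - A') (S.g (c (((i : ℝ) + s) / C.L)).1 - S.P (C.a i)) =
      rm S C i * min s 0 + rp S C i * max s 0 := by
    intro s hs
    have h1 : (B' - A') (S.g (C.pt i) - S.P (C.a i)) = 0 := by
      rw [lin_pt, sub_apply, sub_apply, R.Ab, R.Bb]
      simp
    have h2 := l_g hC i (B' - A') (s := s) (by linarith)
    rw [map_sub, hc0, h2, hrm, hrp]
    rw [map_sub] at h1
    simp only [sub_apply] at h1 ⊢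
    rw [R.AD, R.BD]
    linarith
  refine ⟨hrm0, hrp0, lamL _ (by linarith), lamR _ (by linarith), ?_, ?_,
    ⟨B' - A', ?_, ?_, ?_⟩, ?_⟩
  · intro s
    unfold Xi Ni
    rw [inner_add_left, inner_add_right, inner_add_right, inner_smul_left, inner_smul_left,
      inner_smul_left, inner_smul_left, inner_smul_right, inner_smul_right, inner_smul_right,
      inner_smul_right, real_inner_comm (G.n (i - 1)), real_inner_comm (G.n i),
      real_inner_comm (G.n (i - 1)), real_inner_comm (G.n i), R.n1, R.n1, R.n2, R.n2, R.AD, R.BD,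
      hrm, hrp]
    simp only [conj_trivial]
    ring
  · intro s hs
    rcases lt_or_ge |s| η with h | h
    · left
      refine ⟨C.a i, (hδ' _ (hηU s h)).1, σ * S.sg (C.a i) e, fun p => ?_⟩
      rw [fder hψ hpos' (S.A (C.a i) e) (S.B (C.a i) e) _ _ _ _ (hδ' _ (hηU s h)).2 p]
      have hz : (B' - A') (S.f ψ δ (c (((i : ℝ) + s) / C.L)) - S.P (C.a i)) =
          rm S C i * min s 0 + rp S C i * max s 0 := by
        rw [map_sub, hlf s h, ← map_sub, hlg s h]
      have hl : lam S C ψ δ i s = deriv ψ ((rm S C i * min s 0 + rp S C i * max s 0) / δ) := by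
        unfold lam
        rw [he]
      have hsg := sg_sq hS (C.a i) e
      unfold Ni
      rw [inner_add_left, inner_smul_left, inner_smul_left, R.n1, R.n2, hl, ← hz]
      simp only [conj_trivial, sub_apply]
      rcases R.hA with ⟨h3, h4⟩ | ⟨h3, h4⟩
      · rw [← h3, ← h4]
        linear_combination (-σ) * ((1 - deriv ψ ((B' (S.f ψ δ (c (((i : ℝ) + s) / C.L)) -
          S.P (C.a i)) - A' (S.f ψ δ (c (((i : ℝ) + s) / C.L)) - S.P (C.a i))) / δ)) * A' p +
          deriv ψ ((B' (S.f ψ δ (c (((i : ℝ) + s) / C.L)) - S.P (C.a i)) -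
          A' (S.f ψ δ (c (((i : ℝ) + s) / C.L)) - S.P (C.a i))) / δ) * B' p) * hsg
      · rw [← h3, ← h4]
        have hsym := dsym hψ ((B' (S.f ψ δ (c (((i : ℝ) + s) / C.L)) - S.P (C.a i)) -
          A' (S.f ψ δ (c (((i : ℝ) + s) / C.L)) - S.P (C.a i))) / δ)
        have hneg : -((B' (S.f ψ δ (c (((i : ℝ) + s) / C.L)) - S.P (C.a i)) -
          A' (S.f ψ δ (c (((i : ℝ) + s) / C.L)) - S.P (C.a i))) / δ) =
          (A' (S.f ψ δ (c (((i : ℝ) + s) / C.L)) - S.P (C.a i)) -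
          B' (S.f ψ δ (c (((i : ℝ) + s) / C.L)) - S.P (C.a i))) / δ := by ring
        rw [hneg] at hsym
        rw [hsym]
        linear_combination (-σ) * ((1 - deriv ψ ((B' (S.f ψ δ (c (((i : ℝ) + s) / C.L)) -
          S.P (C.a i)) - A' (S.f ψ δ (c (((i : ℝ) + s) / C.L)) - S.P (C.a i))) / δ)) * A' p +
          deriv ψ ((B' (S.f ψ δ (c (((i : ℝ) + s) / C.L)) - S.P (C.a i)) -
          A' (S.f ψ δ (c (((i : ℝ) + s) / C.L)) - S.P (C.a i))) / δ) * B' p) * hsg
    · right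
      have hs2 := abs_le.1 hs
      rcases le_abs'.1 h with h' | h'
      · have e : Ni S C G ψ δ i s = G.n (i - 1) := by
          unfold Ni
          rw [lamL s h']
          simp
        rw [e]
        have h3 := orthTri hS hG hC (i - 1) (x := c (((i : ℝ) + s) / C.L)) (fun w hw => by
          rw [hc0]; exact c_neg hC i (by linarith [hs2.1]) (by linarith) hw)
        filter_upwards [hfK s hs h, h3] with y h1 h2
        exact ⟨h1, h2⟩
      · have e : Ni S C G ψ δ i s = G.n i := by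
          unfold Ni
          rw [lamR s h']
          simp
        rw [e]
        have h3 := orthTri hS hG hC i (x := c (((i : ℝ) + s) / C.L)) (fun w hw => by
          rw [hc0]; exact c_pos hC i (by linarith) (by linarith [hs2.2]) hw)
        filter_upwards [hfK s hs h, h3] with y h1 h2
        exact ⟨h1, h2⟩
  · rw [sub_apply, R.AD, sub_zero]
    exact R.l1
  · rw [sub_apply, R.BD, zero_sub]
    linarith [R.l2]
  · intro s hs
    rcases lt_or_ge |s| η with h | h
    · exact hlf s h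
    · rw [(hfK s hs h).self_of_nhds]
  · have h2 : |(1 / 2 : ℝ)| = 1 / 2 := abs_of_pos (by norm_num)
    exact hfK (1 / 2) h2.le (by rw [h2]; linarith)

end loc

end FRMM

open FRMM in
/-- the moving frame of a closed polygon -/
theorem specFRM (hSID : SpecSID) (hFLT : SpecFLT) (hEDG : SpecEDG) (hG2 : SpecG2) (hG3 : SpecG3)
    (hCC : SpecCC) : SpecFRM := by
  intro N S hS C hC G q hG ψ hψ
  obtain ⟨c, hc0, hc⟩ := hCC N S hS C hC
  have hloc : ∀ i, ∀ᶠ δ in nhdsWithin (0 : ℝ) (Set.Ioi 0), Loc S C G ψ δ c i := by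
    intro i
    rcases he : C.re i with _ | e
    · exact locFlat hFLT hG3 hS hC hG hψ hc.cont hc0 he
    · exact locReal hSID hEDG hG2 hG3 hS hC hG hψ hc.cont hc0 he
  have hall : ∀ᶠ δ in nhdsWithin (0 : ℝ) (Set.Ioi 0),
      ∀ i ∈ Finset.Ico (0 : ℤ) C.L, Loc S C G ψ δ c i := by
    rw [Filter.eventually_all_finset]
    exact fun i _ => hloc i
  filter_upwards [hall] with δ hδ
  intro c' hc'
  have e : c' = c := by
    funext s
    exact Subtype.ext ((hc' s).trans (hc0 s).symm)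
  rw [e]
  exact fields hC hG hψ hc.cont hc0 (Loc_per' hC hG hc.per hδ)

end Pool.Agent.Lib.MP_0b1f3c_gt.TI
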