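import Pool.Agent.Lib.MP_0b1f3c_gt.TI.SpecG

/-!
# Module G1: the smoothed surface is continuous
-/

open scoped Manifold ContDiff InnerProductSpace Topology
open Filter Set

noncomputable section

namespace Pool.Agent.Lib.MP_0b1f3c_gt.TI

namespace G1M

variable {N : ℕ}

theorem cont_g (S : PolyData N) : Continuous S.g := by
  unfold PolyData.g
  fun_prop

theorem cont_tau : Continuous PolyData.tau := by
  unfold PolyData.tau
  fun_prop

theorem cont_corr (S : PolyData N) (ψ : ℝ → ℝ) (δ : ℝ) (v : Fin N)
    (hF : Continuous (S.F ψ δ v)) : Continuous (S.corr ψ δ v) := by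
  unfold PolyData.corr
  refine (hF.comp (cont_g S)).smul (continuous_const.add ?_)
  refine continuous_finsetSum _ fun e _ => ?_
  exact (cont_tau.comp (continuous_apply _)).smul continuous_const

end G1M

theorem specG1 (hTPX : SpecTPX) (hFFA : SpecFFA) : SpecG1 := by
  intro N S hS ψ hψ
  filter_upwards [hTPX N S hS ψ hψ, self_mem_nhdsWithin] with δ h1 hδ
  have : Nonempty (Fin N) := ⟨⟨0, hS.hN⟩⟩
  have hval : Continuous (fun x : Realization S.T => x.1) := continuous_subtype_val
  have hcoord : ∀ u : Fin N, Continuous (fun x : Realization S.T => x.1 u) := fun u =>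
    (continuous_apply u).comp hval
  refine LocallyFinite.continuous
    (f := fun v : Fin N => {x : Realization S.T | ∀ u, x.1 u ≤ x.1 v})
    (locallyFinite_of_finite _) ?_ ?_ ?_
  · rw [eq_univ_iff_forall]
    intro x
    obtain ⟨v, hv⟩ := Finite.exists_max x.1
    exact mem_iUnion.mpr ⟨v, hv⟩
  · intro v
    have h2 : {x : Realization S.T | ∀ u, x.1 u ≤ x.1 v} =
        ⋂ u, {x : Realization S.T | x.1 u ≤ x.1 v} := by
      ext x
      simp
    rw [h2]
    exact isClosed_iInter fun u => isClosed_le (hcoord u) (hcoord v)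
  · intro v
    have h3 : Continuous (fun x : Realization S.T => S.g x.1 - S.corr ψ δ v x.1) :=
      ((G1M.cont_g S).comp hval).sub
        ((G1M.cont_corr S ψ δ v (hFFA N S hS ψ hψ δ hδ v).smooth.continuous).comp hval)
    exact h3.continuousOn.congr fun x hx => h1 v x hx

end Pool.Agent.Lib.MP_0b1f3c_gt.TI
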