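import Pool.Agent.Lib.MP_0b1f3c_gt.TI.SpecG

/-!
# Module G2: the smoothed surface in the chart of a vertex
-/

open scoped Manifold ContDiff InnerProductSpace Topology
open Filter Set

noncomputable section

namespace Pool.Agent.Lib.MP_0b1f3c_gt.TI

namespace G2M

variable {N : ℕ}

theorem sum_tri {T : Finset (Finset (Fin N))} {x : Fin N → ℝ} (hx : x ∈ Realization T) :
    ∃ t ∈ T, (∀ i, x i ≠ 0 → i ∈ t) ∧ ∑ i ∈ t, x i = 1 := by
  obtain ⟨-, h1, t, ht, h2⟩ := hx
  refine ⟨t, ht, h2, ?_⟩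
  rw [← h1]
  refine Finset.sum_subset (Finset.subset_univ t) fun i _ hi => ?_
  by_contra h3
  exact hi (h2 i h3)

/-- the vertex with the large coordinate -/
theorem big {T : Finset (Finset (Fin N))} (hT : ∀ t ∈ T, t.card = 3) {x : Fin N → ℝ}
    (hx : x ∈ Realization T) {v : Fin N} (hv : ∀ w, w ≠ v → x w < 1 / 8) : 3 / 4 < x v := by
  obtain ⟨t, ht, h1, h2⟩ := sum_tri hx
  have hc := hT t ht
  by_cases hvt : v ∈ t
  · have h3 : ∑ i ∈ t.erase v, x i + x v = 1 := by rw [Finset.sum_erase_add _ _ hvt, h2]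
    have h4 : (t.erase v).card = 2 := by rw [Finset.card_erase_of_mem hvt, hc]
    have h5 : ∑ i ∈ t.erase v, x i < ∑ _i ∈ t.erase v, (1 / 8 : ℝ) := by
      refine Finset.sum_lt_sum_of_nonempty ?_ fun i hi => hv i (Finset.ne_of_mem_erase hi)
      rw [← Finset.card_pos, h4]
      norm_num
    rw [Finset.sum_const, h4, nsmul_eq_mul] at h5
    push_cast at h5
    linarith
  · exfalso
    have h5 : ∑ i ∈ t, x i < ∑ _i ∈ t, (1 / 8 : ℝ) := by
      refine Finset.sum_lt_sum_of_nonempty ?_ fun i hi => hv i fun h => hvt (h ▸ hi)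
      rw [← Finset.card_pos, hc]
      norm_num
    rw [Finset.sum_const, hc, nsmul_eq_mul, h2] at h5
    push_cast at h5
    linarith

/-- the largest coordinate -/
theorem third {T : Finset (Finset (Fin N))} (hT : ∀ t ∈ T, t.card = 3) {x : Fin N → ℝ}
    (hx : x ∈ Realization T) {v : Fin N} (hv : ∀ w, x w ≤ x v) : 1 / 3 ≤ x v := by
  obtain ⟨t, ht, h1, h2⟩ := sum_tri hx
  have hc := hT t ht
  have h5 : ∑ i ∈ t, x i ≤ ∑ _i ∈ t, x v := Finset.sum_le_sum fun i _ => hv i
  rw [Finset.sum_const, hc, nsmul_eq_mul, h2] at h5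
  push_cast at h5
  linarith

theorem rne (S : PolyData N) (hS : S.IsSurf) (v : Fin N) (e : Fin 3) : S.r v e ≠ v := by
  have hk := hS.hk v
  unfold PolyData.r
  apply hS.hne v
  split_ifs
  · exact Nat.zero_le _
  · omega
  · omega

end G2M

theorem specG2 : SpecG2 := by
  intro N S hS ψ δ v x hx
  have h1 := G2M.big hS.hcard x.2 hx
  unfold PolyData.f
  rw [dif_pos hS.hN]
  have htop : PolyData.top x.1 ⟨0, hS.hN⟩ = v := by
    have h2 : ∀ u, x.1 u ≤ x.1 (PolyData.top x.1 ⟨0, hS.hN⟩) := by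
      unfold PolyData.top
      have : Nonempty (Fin N) := ⟨⟨0, hS.hN⟩⟩
      exact Classical.choose_spec (Finite.exists_max x.1)
    by_contra hne
    have h3 := hx _ hne
    have h4 := h2 v
    linarith
  rw [htop]
  unfold PolyData.corr
  have h2 : ∀ e : Fin 3, PolyData.tau (x.1 (S.r v e)) = 0 := by
    intro e
    have h3 := hx _ (G2M.rne S hS v e)
    unfold PolyData.tau
    rw [max_eq_left]
    refine (min_le_right _ _).trans ?_
    linarith
  simp only [h2, zero_smul, Finset.sum_const_zero, add_zero]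

end Pool.Agent.Lib.MP_0b1f3c_gt.TI
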