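import Pool.Agent.Lib.MP_0b1f3c_gt.TI.SpecG

/-!
# MP_0b1f3c_gt, smooth tight immersions, module G3 (helper43)

Away from the edges the surface is not changed if `δ` is small.
-/

set_option autoImplicit false

open scoped Manifold ContDiff InnerProductSpace Topology
open Filter Set

noncomputable section

namespace Pool.Agent.Lib.MP_0b1f3c_gt.TI

namespace G3M

variable {N : ℕ} (S : PolyData N)

theorem r_ne (hS : S.IsSurf) (v : Fin N) (e : Fin 3) : S.r v e ≠ v := by
  obtain ⟨h1, h2, h3⟩ := hS.hk v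
  unfold PolyData.r
  apply hS.hne v
  split_ifs <;> omega

/-- `RE` is closed -/
theorem isClosed_RE : IsClosed S.RE := by
  have : S.RE = ⋃ (v : Fin N), ⋃ (e : Fin 3), ⋂ (i : Fin N),
      {x : Realization S.T | x.1 i ≠ 0 → i = v ∨ i = S.r v e} := by
    ext x
    simp [PolyData.RE]
  rw [this]
  refine isClosed_iUnion_of_finite fun v => isClosed_iUnion_of_finite fun e =>
    isClosed_iInter fun i => ?_
  by_cases h : i = v ∨ i = S.r v e
  · have : {x : Realization S.T | x.1 i ≠ 0 → i = v ∨ i = S.r v e} = univ := by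
      ext x; simp [h]
    rw [this]
    exact isClosed_univ
  · have : {x : Realization S.T | x.1 i ≠ 0 → i = v ∨ i = S.r v e} = {x | x.1 i = 0} := by
      ext x
      simp only [mem_ofPred_eq]
      constructor
      · intro h1
        by_contra h2
        exact h (h1 h2)
      · intro h1 h2
        exact absurd h1 h2
    rw [this]
    exact isClosed_eq ((continuous_apply i).comp continuous_subtype_val) continuous_const

/-- a point of `|T|` with `x v + x w = 1`, `v ≠ w`, is supported in `{v, w}` -/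
theorem supp_of_sum {x : Fin N → ℝ} (h0 : ∀ i, 0 ≤ x i) (h1 : ∑ i, x i = 1) {v w : Fin N}
    (hvw : w ≠ v) (h : x v + x w = 1) (i : Fin N) (hi : x i ≠ 0) : i = v ∨ i = w := by
  by_contra hcon
  push Not at hcon
  have h2 : ∑ j ∈ ({v, w, i} : Finset (Fin N)), x j ≤ ∑ j, x j :=
    Finset.sum_le_sum_of_subset_of_nonneg (Finset.subset_univ _) fun j _ _ => h0 j
  rw [Finset.sum_insert (by simp [hvw.symm, hcon.1.symm]),
    Finset.sum_insert (by simp [hcon.2.symm]), Finset.sum_singleton, h1] at h2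
  have h3 : 0 < x i := lt_of_le_of_ne (h0 i) (Ne.symm hi)
  linarith

/-- the largest coordinate is at least `1/9` -/
theorem largest (hS : S.IsSurf) (x : Realization S.T) : ∃ v, (∀ u, x.1 u ≤ x.1 v) ∧
    1 / 9 ≤ x.1 v := by
  have : Nonempty (Fin N) := ⟨⟨0, hS.hN⟩⟩
  obtain ⟨v, hv⟩ := Finite.exists_max x.1
  refine ⟨v, hv, ?_⟩
  obtain ⟨h0, h1, t, ht, hsupp⟩ := x.2
  have h2 : ∑ i, x.1 i = ∑ i ∈ t, x.1 i := by
    symm
    apply Finset.sum_subset (Finset.subset_univ t)
    intro i _ hi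
    by_contra h
    exact hi (hsupp i h)
  have h3 : ∑ i ∈ t, x.1 i ≤ ∑ i ∈ t, x.1 v := Finset.sum_le_sum fun i _ => hv i
  rw [Finset.sum_const, hS.hcard t ht, ← h2, h1] at h3
  have : (3 : ℕ) • x.1 v = 3 * x.1 v := by
    rw [nsmul_eq_mul]; norm_num
  rw [this] at h3
  linarith

end G3M

open G3M in
/-- **G3** -/
theorem specG3 (hCPT : SpecCPT) (hDZO : SpecDZO) (hTPX : SpecTPX) : SpecG3 := by
  intro N S hS ψ hψ K hK hdis
  have : CompactSpace (Realization S.T) := isCompact_iff_compactSpace.1 (hCPT N S.T)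
  obtain ⟨L, hL, hKL, hLU⟩ := exists_compact_between hK (isClosed_RE S).isOpen_compl
    (fun x hx hxR => hdis.le_bot ⟨hx, hxR⟩)
  have hall : ∀ᶠ δ in 𝓝[>] (0 : ℝ), ∀ v : Fin N, ∀ x ∈ L, 1 / 9 ≤ x.1 v →
      S.F ψ δ v (S.g x.1) = 0 := by
    rw [Filter.eventually_all]
    intro v
    have hcl : IsClosed {x : Realization S.T | 1 / 9 ≤ x.1 v} :=
      isClosed_le continuous_const ((continuous_apply v).comp continuous_subtype_val)
    have hc : IsCompact (Subtype.val '' (L ∩ {x : Realization S.T | 1 / 9 ≤ x.1 v})) :=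
      (hL.inter_right hcl).image continuous_subtype_val
    have h := hDZO N S hS ψ hψ v _ hc ?_ ?_ ?_
    · filter_upwards [h] with δ hδ x hx hv
      exact hδ x.1 ⟨x, ⟨hx, hv⟩, rfl⟩
    · rintro _ ⟨x, -, rfl⟩
      exact x.2
    · rintro _ ⟨x, ⟨-, hx⟩, rfl⟩
      have : 1 / 9 ≤ x.1 v := hx
      linarith
    · rintro _ ⟨x, ⟨hx, -⟩, rfl⟩ e he
      exact hLU hx ⟨v, e, fun i hi => supp_of_sum x.2.1 x.2.2.1 (r_ne S hS v e) he i hi⟩
  filter_upwards [hall, hTPX N S hS ψ hψ] with δ h1 h2 x hx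
  have h3 : L ∈ 𝓝 x := mem_interior_iff_mem_nhds.1 (hKL hx)
  filter_upwards [h3] with y hy
  obtain ⟨v, hv, h9⟩ := largest S hS y
  rw [h2 v y hv]
  have : S.corr ψ δ v y.1 = 0 := by
    unfold PolyData.corr
    rw [h1 v y hy h9, zero_smul]
  rw [this, sub_zero]

end Pool.Agent.Lib.MP_0b1f3c_gt.TI
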