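import Pool.Agent.Lib.MP_0b1f3c_gt.TI.SpecG

/-!
# GC: the space is compact and connected (helper68)
-/

namespace Pool.Agent.Lib.MP_0b1f3c_gt.TI

theorem specGC (hCNN : SpecCNN) (hCPT : SpecCPT) : SpecGC :=
  fun N S hS => ⟨hCNN N S hS, hCPT N S.T⟩

end Pool.Agent.Lib.MP_0b1f3c_gt.TI
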