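import Pool.Agent.Lib.MP_0b1f3c_gt.TI.SpecG

/-!
# Module GM: the smooth structure
-/

open scoped Manifold ContDiff InnerProductSpace Topology
open Filter Set

noncomputable section

namespace Pool.Agent.Lib.MP_0b1f3c_gt.TI

theorem specGM (hPAT : SpecPAT) (hATL : SpecATL) : SpecGM := by
  intro N S hS ψ hψ
  filter_upwards [hPAT N S hS ψ hψ] with δ h1
  refine hATL (Realization S.T) (S.f ψ δ) fun p => ?_
  obtain ⟨v, -, U, hpU, hU⟩ := h1 p
  exact ⟨U, S.F ψ δ v, S.d v, S.P v, S.L v, hpU, hU⟩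

end Pool.Agent.Lib.MP_0b1f3c_gt.TI
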