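import Pool.Agent.Lib.MP_0b1f3c_gt.TI.Cert

/-!
# GSM: the Gauss sum
-/

open scoped Manifold ContDiff InnerProductSpace Quaternion

noncomputable section

namespace Pool.Agent.Lib.MP_0b1f3c_gt.TI

namespace GSMM

open Finset

/-- Gaussian integer as a complex number -/
def toC (z : ℤ × ℤ) : ℂ := (z.1 : ℂ) + (z.2 : ℂ) * Complex.I

/-- the exponent -/
def ex (A : List (List ℕ)) (m s : ℕ) (f : ℕ → ℕ) (x : Fin m → Fin 2) : ℕ :=
  ∑ i : Fin m, (x i : ℕ) * f i + 2 * ∑ i : Fin m, ∑ j ∈ univ.filter (fun j => i < j),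
    (x i : ℕ) * (x j : ℕ) * Chk.me A (s + i) (s + j)

/-- the Gauss sum -/
def G (A : List (List ℕ)) (m s : ℕ) (f : ℕ → ℕ) : ℂ :=
  ∑ x : Fin m → Fin 2, Complex.I ^ ex A m s f x

theorem I_pow_congr {a b : ℕ} (h : a ≡ b [MOD 4]) : Complex.I ^ a = Complex.I ^ b := by
  rw [Complex.I_pow_eq_pow_mod a, Complex.I_pow_eq_pow_mod b, h]

/-- only the residues mod 4 matter -/
theorem G_congr (A : List (List ℕ)) (m s : ℕ) {f g : ℕ → ℕ} (h : ∀ i < m, f i ≡ g i [MOD 4]) :
    G A m s f = G A m s g := by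
  unfold G
  refine sum_congr rfl fun x _ => I_pow_congr ?_
  unfold ex
  refine Nat.ModEq.add_right _ ?_
  have : ∀ t : Finset (Fin m), ∑ i ∈ t, (x i : ℕ) * f i ≡ ∑ i ∈ t, (x i : ℕ) * g i [MOD 4] := by
    intro t
    induction t using Finset.induction_on with
    | empty => rfl
    | insert a t ha ih =>
      rw [sum_insert ha, sum_insert ha]
      exact Nat.ModEq.add ((h a a.2).mul_left _) ih
  exact this univ

theorem ex_cons_zero (A : List (List ℕ)) (m s : ℕ) (f : ℕ → ℕ) (x : Fin m → Fin 2) :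
    ex A (m + 1) s f (Fin.cons 0 x) = ex A m (s + 1) (fun i => f (i + 1)) x := by
  unfold ex
  simp only [sum_filter, Fin.sum_univ_succ, Fin.cons_zero, Fin.cons_succ, Fin.val_zero, Fin.val_succ,
    Fin.succ_lt_succ_iff, Fin.not_lt_zero, zero_mul, ite_self, sum_const_zero,
    zero_add, add_zero, mul_zero]
  simp only [add_assoc, add_comm 1]

theorem ex_cons_one (A : List (List ℕ)) (m s : ℕ) (f : ℕ → ℕ) (x : Fin m → Fin 2) :
    ex A (m + 1) s f (Fin.cons 1 x) =
      f 0 + ex A m (s + 1) (fun i => f (i + 1) + 2 * Chk.me A s (s + 1 + i)) x := by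
  unfold ex
  simp only [sum_filter, Fin.sum_univ_succ, Fin.cons_zero, Fin.cons_succ, Fin.val_zero, Fin.val_succ,
    Fin.succ_lt_succ_iff, if_false, Fin.not_lt_zero, zero_add, add_zero, Fin.succ_pos,
    if_true, mul_add, sum_add_distrib, mul_sum, Fin.val_one, one_mul]
  simp only [add_assoc, add_comm 1]
  congr 3
  exact sum_congr rfl fun i _ => by ring

theorem G_succ (A : List (List ℕ)) (m s : ℕ) (f : ℕ → ℕ) :
    G A (m + 1) s f = G A m (s + 1) (fun i => f (i + 1)) +
      Complex.I ^ f 0 * G A m (s + 1) (fun i => f (i + 1) + 2 * Chk.me A s (s + 1 + i)) := by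
  unfold G
  rw [← (Fin.consEquiv (fun _ => Fin 2)).sum_comp, Fintype.sum_prod_type, Fin.sum_univ_two, mul_sum]
  congr 1
  · refine sum_congr rfl fun x _ => ?_
    exact congrArg (fun k => Complex.I ^ k) (ex_cons_zero A m s f x)
  · refine sum_congr rfl fun x _ => ?_
    rw [← pow_add]
    exact congrArg (fun k => Complex.I ^ k) (ex_cons_one A m s f x)

theorem toC_rot (e : ℕ) (z : ℤ × ℤ) : toC (Chk.rot e z) = Complex.I ^ e * toC z := by
  rw [Complex.I_pow_eq_pow_mod e]
  unfold Chk.rot toC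
  have h4 : e % 4 < 4 := Nat.mod_lt _ (by norm_num)
  have hI : Complex.I ^ 2 = -1 := Complex.I_sq
  by_cases h0 : e % 4 = 0
  · rw [if_pos h0, h0, pow_zero, one_mul]
  by_cases h1 : e % 4 = 1
  · rw [if_neg h0, if_pos h1, h1, pow_one]
    push_cast
    linear_combination (-(z.2 : ℂ)) * hI
  by_cases h2 : e % 4 = 2
  · rw [if_neg h0, if_neg h1, if_pos h2, h2, hI]
    push_cast
    ring
  · have h3 : e % 4 = 3 := by omega
    rw [if_neg h0, if_neg h1, if_neg h2, h3]
    push_cast
    have : Complex.I ^ 3 = -Complex.I := by rw [pow_succ, hI]; ring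
    rw [this]
    linear_combination (z.2 : ℂ) * hI

theorem gauss_eq (A : List (List ℕ)) (n : ℕ) (hA : ∀ i < n, (A.getD i []).length = n) :
    ∀ (m s : ℕ) (l : List ℕ), l.length = m → s + m = n →
      toC (Chk.gauss A m s l) = G A m s (fun i => l.getD i 0) := by
  intro m
  induction m with
  | zero =>
    intro s l hl hs
    have h1 : toC (Chk.gauss A 0 s l) = 1 := by
      simp [Chk.gauss, toC]
    rw [h1]
    unfold G ex
    simp
  | succ m ih =>
    intro s l hl hs
    cases l with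
    | nil => simp at hl
    | cons e l =>
      have hl' : l.length = m := by simpa using hl
      have hlen : ((A.getD s []).drop (s + 1)).length = m := by
        rw [List.length_drop, hA s (by omega)]
        omega
      have e1 : Chk.gauss A (m + 1) s (e :: l) =
          ((Chk.gauss A m (s + 1) l).1 + (Chk.rot e (Chk.gauss A m (s + 1)
            (l.zipWith (fun e' a => (e' + 2 * a) % 4) ((A.getD s []).drop (s + 1))))).1,
          (Chk.gauss A m (s + 1) l).2 + (Chk.rot e (Chk.gauss A m (s + 1)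
            (l.zipWith (fun e' a => (e' + 2 * a) % 4) ((A.getD s []).drop (s + 1))))).2) := by
        rw [Chk.gauss]
      have e2 : toC (Chk.gauss A (m + 1) s (e :: l)) = toC (Chk.gauss A m (s + 1) l) +
          toC (Chk.rot e (Chk.gauss A m (s + 1)
            (l.zipWith (fun e' a => (e' + 2 * a) % 4) ((A.getD s []).drop (s + 1))))) := by
        rw [e1]
        unfold toC
        push_cast
        ring
      rw [e2, toC_rot, ih (s + 1) l hl' (by omega), ih (s + 1) _ (by
        rw [List.length_zipWith, hl', hlen, min_self]) (by omega), G_succ]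
      simp only [List.getD_cons_succ, List.getD_cons_zero]
      congr 2
      refine G_congr A m (s + 1) fun i hi => ?_
      have hi1 : i < l.length := by omega
      have hi2 : i < ((A.getD s []).drop (s + 1)).length := by omega
      have hi3 : s + 1 + i < (A.getD s []).length := by
        rw [hA s (by omega)]; omega
      rw [List.getD_eq_getElem _ _ (by rw [List.length_zipWith]; omega), List.getElem_zipWith,
        List.getElem_drop, List.getD_eq_getElem _ _ hi1]
      unfold Chk.me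
      rw [List.getD_eq_getElem _ _ hi3]
      exact Nat.mod_modEq _ _

/-- eighth root of unity -/
theorem zeta_sqrt : (Real.sqrt 2 : ℂ) * Complex.exp (2 * Real.pi * Complex.I / 8) = 1 + Complex.I := by
  have h1 : (2 * Real.pi * Complex.I / 8 : ℂ) = ((Real.pi / 4 : ℝ) : ℂ) * Complex.I := by
    push_cast
    ring
  rw [h1, Complex.exp_mul_I, ← Complex.ofReal_cos, ← Complex.ofReal_sin, Real.cos_pi_div_four,
    Real.sin_pi_div_four]
  have h2 : (Real.sqrt 2 : ℂ) * (Real.sqrt 2 : ℂ) = 2 := by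
    rw [← Complex.ofReal_mul, Real.mul_self_sqrt (by norm_num)]
    norm_num
  push_cast
  linear_combination (1 / 2 * (1 + Complex.I)) * h2

theorem zeta_sq : Complex.exp (2 * Real.pi * Complex.I / 8) ^ 2 = Complex.I := by
  rw [← Complex.exp_nat_mul]
  have h1 : ((2 : ℕ) : ℂ) * (2 * Real.pi * Complex.I / 8) = ((Real.pi / 2 : ℝ) : ℂ) * Complex.I := by
    push_cast
    ring
  rw [h1, Complex.exp_mul_I, ← Complex.ofReal_cos, ← Complex.ofReal_sin, Real.cos_pi_div_two,
    Real.sin_pi_div_two]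
  simp

theorem gval_eq (n β : ℕ) (hβ : β < 8) (h : β % 2 = n % 2) :
    toC (Chk.gval n β) = (Real.sqrt 2 : ℂ) ^ n * Complex.exp (2 * Real.pi * Complex.I * ((β : ℤ) : ℂ) / 8) := by
  set ζ := Complex.exp (2 * Real.pi * Complex.I / 8) with hζ
  have h1 : Complex.exp (2 * Real.pi * Complex.I * ((β : ℤ) : ℂ) / 8) = ζ ^ β := by
    rw [hζ, ← Complex.exp_nat_mul]
    congr 1
    push_cast
    ring
  have h2 : (Real.sqrt 2 : ℂ) ^ 2 = 2 := by
    rw [← Complex.ofReal_pow, Real.sq_sqrt (by norm_num)]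
    norm_num
  have h3 : (Real.sqrt 2 : ℂ) ^ n = 2 ^ (n / 2) * (Real.sqrt 2 : ℂ) ^ (n % 2) := by
    conv_lhs => rw [← Nat.div_add_mod n 2, pow_add, pow_mul, h2]
  have h4 : ζ ^ β = Complex.I ^ (β / 2) * ζ ^ (β % 2) := by
    conv_lhs => rw [← Nat.div_add_mod β 2, pow_add, pow_mul, hζ, zeta_sq]
  have h5 : (Real.sqrt 2 : ℂ) ^ (β % 2) * ζ ^ (β % 2) = (1 + Complex.I) ^ (β % 2) := by
    rw [← mul_pow, hζ, zeta_sqrt]
  have h6 : (Real.sqrt 2 : ℂ) ^ n * ζ ^ β =
      2 ^ (n / 2) * (Complex.I ^ (β / 2) * (1 + Complex.I) ^ (β % 2)) := by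
    rw [h3, h4, ← h5, ← h]
    ring
  rw [h1, h6]
  have hI : Complex.I ^ 2 = -1 := Complex.I_sq
  have hI3 : Complex.I ^ 3 = -Complex.I := by rw [pow_succ, hI]; ring
  unfold Chk.gval toC
  interval_cases β
  · norm_num
  · norm_num
    ring
  · norm_num
  · norm_num
    linear_combination (-(2 : ℂ) ^ (n / 2)) * hI
  · norm_num
  · norm_num
    ring
  · norm_num [hI3]
  · norm_num [hI3]
    linear_combination ((2 : ℂ) ^ (n / 2)) * hI

end GSMM

open GSMM in
/-- **GSM** -/
theorem specGSM : SpecGSM := by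
  intro n β q A hβ h hA hg
  have h1 := gauss_eq A n hA n 0 (List.ofFn q) (List.length_ofFn) (by omega)
  rw [hg, gval_eq n β hβ h] at h1
  rw [h1]
  unfold G ex
  refine Finset.sum_congr rfl fun x _ => ?_
  congr 2
  · refine Finset.sum_congr rfl fun i _ => ?_
    have h2 : (List.ofFn q).getD (i : ℕ) 0 = q i := by
      rw [List.getD_eq_getElem _ _ (by rw [List.length_ofFn]; exact i.2), List.getElem_ofFn]
    exact congrArg (fun k => (x i : ℕ) * k) h2.symm
  · simp only [zero_add]

end Pool.Agent.Lib.MP_0b1f3c_gt.TI
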