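import Pool.Agent.Lib.MP_0b1f3c_gt.TI.SpecC

/-! Module HTW: half-twists from the moving frame. -/

open scoped Manifold ContDiff InnerProductSpace Quaternion

noncomputable section

namespace Pool.Agent.Lib.MP_0b1f3c_gt.TI

namespace HTWM

lemma nrm_smul {N : ℕ} {S : PolyData N} {ψ : ℝ → ℝ} {δ : ℝ} {x : Realization S.T} {n : E3}
    (h : S.Nrm ψ δ x n) (c : ℝ) : S.Nrm ψ δ x (c • n) := by
  rcases h with ⟨v, hv, μ, hμ⟩ | h
  · refine Or.inl ⟨v, hv, c * μ, fun p => ?_⟩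
    rw [real_inner_smul_left, hμ]
    ring
  · refine Or.inr (h.mono fun y hy => ⟨hy.1, ?_⟩)
    rw [real_inner_smul_left, hy.2, mul_zero]

lemma pos_comb {a b v : E3} {α β : ℝ} (hα : 0 ≤ α) (hβ : 0 ≤ β) (hαβ : 0 < α + β)
    (ha : 0 < inner ℝ a v) (hb : 0 < inner ℝ b v) : 0 < inner ℝ (α • a + β • b) v := by
  rw [inner_add_left, real_inner_smul_left, real_inner_smul_left]
  rcases lt_or_eq_of_le hα with h | h
  · have h1 : 0 < α * inner ℝ a v := mul_pos h ha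
    have h2 : 0 ≤ β * inner ℝ b v := mul_nonneg hβ hb.le
    linarith
  · rw [← h, zero_add] at hαβ
    have h2 : 0 < β * inner ℝ b v := mul_pos hαβ hb
    rw [← h, zero_mul, zero_add]
    exact h2

end HTWM

theorem specHTW (hLFT : SpecLFT) (hFRM : SpecFRM) (hNRX : SpecNRX) : SpecHTW := by
  intro N S hS C hC G q hG ψ hψ
  filter_upwards [hFRM N S hS C hC G q hG ψ hψ, self_mem_nhdsWithin] with δ hδ hδ0 c hc CS hM hf
  obtain ⟨X, Nn, hX⟩ := hδ c hc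
  have hA : ∀ (i : ℤ) (t : ℝ), ((i : ℝ) - 1 / 2) / C.L ≤ t → t ≤ ((i : ℝ) + 1 / 2) / C.L →
      0 < inner ℝ (X t) (Frm.vI (G.w i) (G.w i)) ∧
        0 < inner ℝ (Nn t) (Frm.vK (G.w i) (G.w i)) := by
    intro i t h1 h2
    obtain ⟨⟨α, β, hα, hβ, hαβ, h⟩, ⟨α', β', hα', hβ', hαβ', h'⟩⟩ := hX.comb i t h1 h2
    rw [h, h']
    exact ⟨HTWM.pos_comb hα hβ hαβ (hG.hD i).1 (hG.hD i).2,
      HTWM.pos_comb hα' hβ' hαβ' (hG.hN i).1 (hG.hN i).2⟩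
  have hB : ∀ i : ℤ, 0 < inner ℝ (X (((i : ℝ) + 1 / 2) / C.L)) (Frm.vI (G.w i) (G.w (i + 1))) ∧
      0 < inner ℝ (Nn (((i : ℝ) + 1 / 2) / C.L)) (Frm.vK (G.w i) (G.w (i + 1))) := by
    intro i
    obtain ⟨⟨α, hα, h⟩, ⟨α', hα', h'⟩⟩ := hX.mid i
    rw [h, h', real_inner_smul_left, real_inner_smul_left]
    exact ⟨mul_pos hα (hG.hD' i), mul_pos hα' (hG.hN' i)⟩
  obtain ⟨u, hu, hu1, hui, huk, hup⟩ := hLFT C.L hC.hL X Nn G.w q hX.contX hX.contN hX.orth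
    hX.perX hX.perN hG.hhol hA hB
  refine ⟨u, hu, hu1, ?_, ?_, hup⟩
  · intro t v
    rw [huk t]
    exact hNRX N S hS ψ hψ δ hδ0 CS hM hf (c t) _ (HTWM.nrm_smul (hX.nrm t) _) v
  · intro t
    obtain ⟨w, hw, ε, hε, hmono⟩ := hX.fwd t
    refine ⟨w, ?_, ε, hε, hmono⟩
    rw [hui t, real_inner_smul_right]
    have h0 : X t ≠ 0 := by
      intro h
      rw [h, inner_zero_right] at hw
      exact lt_irrefl _ hw
    have h1 : 0 < ‖X t‖ := norm_pos_iff.2 h0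
    exact mul_pos (inv_pos.2 h1) hw

end Pool.Agent.Lib.MP_0b1f3c_gt.TI
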