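import Pool.Agent.Lib.MP_0b1f3c_gt.TI.SpecG

/-!
# JOP: `j v` is an open embedding of open parts of the open star (helper68)
-/

open scoped Manifold ContDiff InnerProductSpace Topology
open Filter Set

noncomputable section

namespace Pool.Agent.Lib.MP_0b1f3c_gt.TI

namespace JOPM

theorem continuous_g {N : ℕ} (S : PolyData N) : Continuous S.g := by
  unfold PolyData.g
  exact continuous_finsetSum _ fun i _ => (continuous_apply i).smul continuous_const

theorem continuous_j {N : ℕ} (S : PolyData N) (v : Fin N) : Continuous (S.j v) := by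
  have h : S.j v = fun x => S.L v (S.g x - S.P v) := by
    funext x
    exact S.j_eq v x
  rw [h]
  exact (S.L v).continuous.comp ((continuous_g S).sub continuous_const)

end JOPM

open JOPM in
theorem specJOP (hSTR : SpecSTR) : SpecJOP := by
  intro N S hS v U hU hpos
  obtain ⟨Λ, hΛ, h1, h2, h3⟩ := hSTR N S hS v
  have hinv : ∀ x : U, Λ (S.j v x.1.1) = x.1.1 := fun x => h3 x.1.1 x.1.2 (hpos x.1 x.2)
  refine Topology.IsOpenEmbedding.of_continuous_injective_isOpenMap ?_ ?_ ?_
  · exact (continuous_j S v).comp (continuous_subtype_val.comp continuous_subtype_val)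
  · intro x y hxy
    have hxy' : S.j v x.1.1 = S.j v y.1.1 := hxy
    apply Subtype.ext
    apply Subtype.ext
    rw [← hinv x, ← hinv y, hxy']
  · intro O hO
    obtain ⟨O1, hO1, rfl⟩ := isOpen_induced_iff.1 hO
    obtain ⟨O2, hO2, rfl⟩ := isOpen_induced_iff.1 hO1
    obtain ⟨U2, hU2, rfl⟩ := isOpen_induced_iff.1 hU
    have e : (fun x : ((Subtype.val ⁻¹' U2 : Set (Realization S.T)) : Set _) => S.j v x.1.1) ''
        (Subtype.val ⁻¹' (Subtype.val ⁻¹' O2)) =
        {y | 0 < Λ y v} ∩ (Λ ⁻¹' U2 ∩ Λ ⁻¹' O2) := by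
      ext y
      constructor
      · rintro ⟨x, hx, rfl⟩
        have hx' := hinv x
        refine ⟨?_, ?_, ?_⟩
        · show 0 < Λ (S.j v x.1.1) v
          rw [hx']
          exact hpos x.1 x.2
        · show Λ (S.j v x.1.1) ∈ U2
          rw [hx']
          exact x.2
        · show Λ (S.j v x.1.1) ∈ O2
          rw [hx']
          exact hx
      · rintro ⟨g1, g2, g3⟩
        exact ⟨⟨⟨Λ y, h1 y g1⟩, g2⟩, g3, h2 y⟩
    rw [e]
    refine IsOpen.inter ?_ ((hU2.preimage hΛ).inter (hO2.preimage hΛ))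
    exact isOpen_lt continuous_const ((continuous_apply v).comp hΛ)

end Pool.Agent.Lib.MP_0b1f3c_gt.TI
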