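import Pool.Agent.Lib.MP_0b1f3c_gt.TI.Cert

/-!
# KCU: soundness of the curve checker (helper20)
-/

set_option linter.style.longLine false
set_option linter.unusedSectionVars false

open scoped Manifold ContDiff InnerProductSpace Quaternion

noncomputable section

namespace Pool.Agent.Lib.MP_0b1f3c_gt.TI

namespace KCUM

open Chk

variable {c : Cert}

/-! ## Vertices -/

theorem len_pos (hs : surf c.vs = true) : 0 < c.vs.length := by
  unfold surf at hs
  simp only [Bool.and_eq_true, decide_eq_true_eq] at hs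
  exact hs.1.1

theorem m_eq (hs : surf c.vs = true) : c.m + 1 = c.vs.length := by
  have := len_pos hs
  unfold Cert.m
  omega

theorem fn_val (hs : surf c.vs = true) {i : ℕ} (hi : i < c.vs.length) : ((c.fn i : Fin (c.m + 1)) : ℕ) = i := by
  unfold Cert.fn
  rw [Fin.val_ofNat, m_eq hs]
  exact Nat.mod_eq_of_lt hi

theorem fn_inj (hs : surf c.vs = true) {i j : ℕ} (hi : i < c.vs.length) (hj : j < c.vs.length)
    (h : c.fn i = c.fn j) : i = j := by
  rw [← fn_val hs hi, ← fn_val hs hj, h]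

/-- what is needed of a vertex -/
structure VP (c : Cert) (i : ℕ) : Prop where
  w : 0 < (c.vs.getD i default).w
  nb : ∀ u ∈ (c.vs.getD i default).nb, u < c.vs.length
  len : 0 < (c.vs.getD i default).nb.length

theorem vp (hs : surf c.vs = true) {i : ℕ} (hi : i < c.vs.length) : VP c i := by
  unfold surf at hs
  simp only [Bool.and_eq_true, decide_eq_true_eq, List.all_eq_true, List.mem_range] at hs
  have h := hs.2 i hi
  unfold vert at h
  simp only [Bool.and_eq_true, decide_eq_true_eq, List.all_eq_true] at h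
  obtain ⟨⟨⟨⟨⟨⟨⟨⟨⟨⟨⟨⟨⟨⟨⟨⟨⟨⟨⟨⟨⟨h1, _⟩, h3⟩, _⟩, _⟩, _⟩, h7⟩, _⟩, _⟩, _⟩, _⟩, _⟩, _⟩, _⟩, _⟩, _⟩, _⟩, _⟩, _⟩, _⟩, _⟩, _⟩ := h
  exact ⟨h1, fun u hu => (h3 u hu).1, by omega⟩

theorem nbi_lt (hs : surf c.vs = true) {a : ℕ} (ha : a < c.vs.length) (j : ℕ) :
    nbi (c.vs.getD a default) j < c.vs.length := by
  have h := vp hs ha
  refine h.nb _ ?_
  unfold nbi
  have h1 : j % (c.vs.getD a default).nb.length < (c.vs.getD a default).nb.length :=
    Nat.mod_lt _ h.len
  rw [List.getD_eq_getElem _ _ h1]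
  exact List.getElem_mem h1

theorem nb_fn (hs : surf c.vs = true) {a : ℕ} (ha : a < c.vs.length) (j : ℕ) :
    c.poly.nb (c.fn a) j = c.fn (nbi (c.vs.getD a default) j) := by
  show c.fn ((c.v ((c.fn a : Fin (c.m + 1)) : ℕ)).nb.getD (j % (c.v ((c.fn a : Fin (c.m + 1)) : ℕ)).nb.length) 0) = _
  rw [fn_val hs ha]
  rfl

theorem r_fn (hs : surf c.vs = true) {a : ℕ} (ha : a < c.vs.length) (e : Fin 3) :
    c.poly.r (c.fn a) e = c.fn (nbi (c.vs.getD a default) (slot (c.vs.getD a default) (e : ℕ))) := by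
  unfold PolyData.r
  rw [nb_fn hs ha]
  have h1 : c.poly.k1 (c.fn a) = (c.vs.getD a default).k1 := by
    show (c.v ((c.fn a : Fin (c.m + 1)) : ℕ)).k1 = _
    rw [fn_val hs ha]; rfl
  have h2 : c.poly.k2 (c.fn a) = (c.vs.getD a default).k2 := by
    show (c.v ((c.fn a : Fin (c.m + 1)) : ℕ)).k2 = _
    rw [fn_val hs ha]; rfl
  rw [h1, h2]
  congr 2
  fin_cases e <;> rfl

theorem mem_T (hs : surf c.vs = true) {a u w : ℕ} (ha : a < c.vs.length)
    (h : inStar (c.vs.getD a default) u w = true) :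
    ({c.fn a, c.fn u, c.fn w} : Finset (Fin (c.m + 1))) ∈ c.poly.T := by
  unfold inStar at h
  rw [List.any_eq_true] at h
  obtain ⟨i, hi, h⟩ := h
  rw [List.mem_range] at hi
  have key : ({c.fn a, c.poly.nb (c.fn a) i, c.poly.nb (c.fn a) (i + 1)} : Finset (Fin (c.m + 1))) ∈ c.poly.T := by
    show _ ∈ Finset.univ.biUnion fun v : Fin (c.m + 1) =>
      (Finset.range (c.v v).nb.length).image fun i => {v, c.poly.nb v i, c.poly.nb v (i + 1)}
    rw [Finset.mem_biUnion]
    refine ⟨c.fn a, Finset.mem_univ _, Finset.mem_image.2 ⟨i, ?_, rfl⟩⟩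
    rw [Finset.mem_range, fn_val hs ha]
    exact hi
  rw [nb_fn hs ha, nb_fn hs ha] at key
  simp only [Bool.or_eq_true, Bool.and_eq_true, beq_iff_eq] at h
  rcases h with ⟨h1, h2⟩ | ⟨h1, h2⟩
  · rw [h1, h2] at key
    exact key
  · rw [h1, h2] at key
    have : ({c.fn a, c.fn u, c.fn w} : Finset (Fin (c.m + 1))) = {c.fn a, c.fn w, c.fn u} := by
      ext x
      simp only [Finset.mem_insert, Finset.mem_singleton]
      tauto
    rw [this]
    exact key

/-! ## Vectors -/

theorem inner_rv (a b : V3) : inner ℝ (rv a) (rv b) = (dot a b : ℝ) := by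
  unfold rv dot
  simp [PiLp.inner_apply, Fin.sum_univ_three]
  all_goals ring

theorem rv_neg (a : V3) : rv (neg a) = - rv a := by
  unfold rv neg
  ext i
  fin_cases i <;> simp

theorem rv_sc (s : ℤ) (a : V3) : rv (sc s a) = (s : ℝ) • rv a := by
  unfold rv sc
  ext i
  fin_cases i <;> simp

/-- the vertex `a` -/
theorem P_fn (hs : surf c.vs = true) {a : ℕ} (ha : a < c.vs.length) :
    c.poly.P (c.fn a) = ((c.vs.getD a default).w : ℝ)⁻¹ •
      rv ((c.vs.getD a default).x, (c.vs.getD a default).y, (c.vs.getD a default).z) := by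
  show !₂[((c.v ((c.fn a : Fin (c.m + 1)) : ℕ)).x : ℝ) / (c.v ((c.fn a : Fin (c.m + 1)) : ℕ)).w,
      ((c.v ((c.fn a : Fin (c.m + 1)) : ℕ)).y : ℝ) / (c.v ((c.fn a : Fin (c.m + 1)) : ℕ)).w,
      ((c.v ((c.fn a : Fin (c.m + 1)) : ℕ)).z : ℝ) / (c.v ((c.fn a : Fin (c.m + 1)) : ℕ)).w] = _
  rw [fn_val hs ha]
  unfold rv Cert.v
  ext i
  fin_cases i <;> simp [div_eq_inv_mul]

theorem inner_P (hs : surf c.vs = true) {a : ℕ} (ha : a < c.vs.length) (n : V3) :
    inner ℝ (rv n) (c.poly.P (c.fn a)) = ((c.vs.getD a default).w : ℝ)⁻¹ *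
      (dot n ((c.vs.getD a default).x, (c.vs.getD a default).y, (c.vs.getD a default).z) : ℝ) := by
  rw [P_fn hs ha, inner_smul_right, inner_rv]

/-! ## Quaternions -/

/-- real quaternion of a record -/
def qr (a : Q4) : ℍ[ℝ] := quat a.1 a.2.1 a.2.2.1 a.2.2.2

theorem qr_qm (a b : Q4) : qr (qm a b) = qr a * qr b := by
  unfold qr qm quat
  ext <;> simp

theorem qr_qc (a : Q4) : qr (qc a) = star (qr a) := by
  unfold qr qc quat
  ext <;> simp

theorem vec_qr (a : Q4) : vec (qr a) = rv a.2 := by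
  unfold vec qr rv quat
  rfl

theorem qr_I : qr (0, 1, 0, 0) = qI := by
  unfold qr qI quat
  ext <;> simp

theorem qr_K : qr (0, 0, 0, 1) = qK := by
  unfold qr qK quat
  ext <;> simp

theorem vI_qr (a b : Q4) : Frm.vI (qr a) (qr b) = rv (Chk.vI a b) := by
  unfold Frm.vI Chk.vI
  rw [← qr_I, ← qr_qc, ← qr_qm, ← qr_qm, vec_qr]

theorem vK_qr (a b : Q4) : Frm.vK (qr a) (qr b) = rv (Chk.vK a b) := by
  unfold Frm.vK Chk.vK
  rw [← qr_K, ← qr_qc, ← qr_qm, ← qr_qm, vec_qr]

/-- the sign -/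
def sig (q : ℕ) : ℝ := if q = 0 ∨ q = 2 then 1 else -1

theorem sig_mul (q : ℕ) : sig q * sig q = 1 := by
  unfold sig
  split_ifs <;> norm_num

theorem sig_ne (q : ℕ) : sig q ≠ 0 := by
  intro h
  have := sig_mul q
  rw [h] at this
  norm_num at this

theorem sig_zpow_mul (q : ℕ) (m : ℤ) : sig q ^ m * sig q ^ m = 1 := by
  rw [← mul_zpow, sig_mul, one_zpow]

theorem sig_zpow (q : ℕ) (m : ℤ) : sig q ^ m = 1 ∨ sig q ^ m = -1 := by
  have h := sig_zpow_mul q m
  exact mul_self_eq_one_iff.1 h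

theorem sig_cast {q : ℕ} (hq : q < 4) :
    (if (q : ZMod 4) = 0 ∨ (q : ZMod 4) = 2 then (1 : ℝ) else -1) = sig q := by
  unfold sig
  interval_cases q
  · simp
  · rw [if_neg, if_neg]
    · norm_num
    · decide
  · rw [if_pos, if_pos]
    · norm_num
    · decide
  · rw [if_neg, if_neg]
    · norm_num
    · decide

theorem qr_om {q : ℕ} (hq : q < 4) : qr (om q) = omega (q : ZMod 4) := by
  unfold omega om
  interval_cases q
  · rw [if_pos rfl, if_pos (by simp)]
    unfold qr quat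
    ext <;> simp
  · rw [if_neg (by norm_num), if_pos rfl, if_neg (by decide), if_pos (by simp)]
    unfold qr quat qI
    ext <;> simp
  · rw [if_neg (by norm_num), if_neg (by norm_num), if_pos rfl, if_neg (by decide),
      if_neg (by decide), if_pos (by simp)]
    unfold qr quat
    ext <;> simp
  · rw [if_neg (by norm_num), if_neg (by norm_num), if_neg (by norm_num), if_neg (by decide),
      if_neg (by decide), if_neg (by decide)]
    unfold qr quat qI
    ext <;> simp

theorem om_ne {q : ℕ} (hq : q < 4) : omega (q : ZMod 4) ≠ 0 := by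
  rw [← qr_om hq]
  intro h
  have h0 := congrArg (fun z : ℍ[ℝ] => z.re) h
  have h1 := congrArg (fun z : ℍ[ℝ] => z.imI) h
  unfold om qr quat at h0 h1
  interval_cases q <;> simp at h0 h1

theorem om_I {q : ℕ} (hq : q < 4) :
    omega (q : ZMod 4) * qI * star (omega (q : ZMod 4)) = qI := by
  rw [← qr_om hq, ← qr_I, ← qr_qc, ← qr_qm, ← qr_qm]
  congr 1
  interval_cases q <;> rfl

theorem om_K {q : ℕ} (hq : q < 4) :
    omega (q : ZMod 4) * qK * star (omega (q : ZMod 4)) = sig q • qK := by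
  rw [← qr_om hq]
  unfold sig om qr quat qK
  interval_cases q <;> ext <;> simp

theorem om_zI {q : ℕ} (hq : q < 4) (m : ℤ) :
    omega (q : ZMod 4) ^ m * qI * star (omega (q : ZMod 4) ^ m) = qI := by
  have h0 := om_ne hq
  have h1 := om_I hq
  set W := omega (q : ZMod 4)
  have step : ∀ m : ℤ, W ^ (m + 1) * qI * star (W ^ (m + 1)) = W ^ m * qI * star (W ^ m) := by
    intro m
    rw [zpow_add_one₀ h0, star_mul]
    calc W ^ m * W * qI * (star W * star (W ^ m)) = W ^ m * (W * qI * star W) * star (W ^ m) := by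
          simp only [mul_assoc]
      _ = _ := by rw [h1]
  induction m using Int.induction_on with
  | zero => simp
  | succ i ih => rw [step]; exact ih
  | pred i ih =>
    have := step (-(i : ℤ) - 1)
    rw [sub_add_cancel] at this
    rw [← this]
    exact ih

theorem om_zK {q : ℕ} (hq : q < 4) (m : ℤ) :
    omega (q : ZMod 4) ^ m * qK * star (omega (q : ZMod 4) ^ m) = (sig q ^ m) • qK := by
  have h0 := om_ne hq
  have h1 := om_K hq
  set W := omega (q : ZMod 4)
  have step : ∀ m : ℤ, W ^ (m + 1) * qK * star (W ^ (m + 1)) =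
      sig q • (W ^ m * qK * star (W ^ m)) := by
    intro m
    rw [zpow_add_one₀ h0, star_mul]
    calc W ^ m * W * qK * (star W * star (W ^ m)) = W ^ m * (W * qK * star W) * star (W ^ m) := by
          simp only [mul_assoc]
      _ = _ := by rw [h1, mul_smul_comm, smul_mul_assoc]
  induction m using Int.induction_on with
  | zero => simp
  | succ i ih => rw [step, ih, smul_smul, zpow_add_one₀ (sig_ne q), mul_comm]
  | pred i ih =>
    have := step (-(i : ℤ) - 1)
    rw [sub_add_cancel, ih] at this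
    have h2 := congrArg (fun z => sig q • z) this
    simp only [smul_smul] at h2
    rw [sig_mul, one_smul] at h2
    rw [← h2, zpow_sub_one₀ (sig_ne q), mul_comm]
    congr 2
    exact eq_inv_of_mul_eq_one_left (sig_mul q)

theorem vI_om {q : ℕ} (hq : q < 4) (m : ℤ) (x y : ℍ[ℝ]) :
    Frm.vI (x * omega (q : ZMod 4) ^ m) (y * omega (q : ZMod 4) ^ m) = Frm.vI x y := by
  unfold Frm.vI
  congr 1
  have h1 := om_zI hq m
  set W := omega (q : ZMod 4)
  rw [star_mul]
  calc x * W ^ m * qI * (star (W ^ m) * star y) = x * (W ^ m * qI * star (W ^ m)) * star y := by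
        simp only [mul_assoc]
    _ = _ := by rw [h1]

theorem vec_smul (s : ℝ) (x : ℍ[ℝ]) : vec (s • x) = s • vec x := by
  unfold vec
  ext i
  fin_cases i <;> simp

theorem vK_om {q : ℕ} (hq : q < 4) (m : ℤ) (x y : ℍ[ℝ]) :
    Frm.vK (x * omega (q : ZMod 4) ^ m) (y * omega (q : ZMod 4) ^ m) = sig q ^ m • Frm.vK x y := by
  unfold Frm.vK
  have h1 := om_zK hq m
  set W := omega (q : ZMod 4)
  rw [star_mul, ← vec_smul]
  congr 1
  calc x * W ^ m * qK * (star (W ^ m) * star y) = x * (W ^ m * qK * star (W ^ m)) * star y := by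
        simp only [mul_assoc]
    _ = _ := by rw [h1, mul_smul_comm, smul_mul_assoc]


/-! ## Index arithmetic -/

variable {k : KC}

/-- index mod the length -/
def ix (k : KC) (i : ℤ) : ℕ := (i % (k.cs.length : ℤ)).toNat

theorem ix_cast (hL : 0 < k.cs.length) (i : ℤ) : (ix k i : ℤ) = i % (k.cs.length : ℤ) :=
  Int.toNat_of_nonneg (Int.emod_nonneg _ (by omega))

theorem ix_lt (hL : 0 < k.cs.length) (i : ℤ) : ix k i < k.cs.length := by
  have h1 := ix_cast hL i
  have h2 := Int.emod_lt_of_pos i (show (0 : ℤ) < k.cs.length by omega)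
  omega

theorem ix_eq (hL : 0 < k.cs.length) {i : ℤ} {j : ℕ} (h : (j : ℤ) % k.cs.length = i % k.cs.length) :
    ix k i = j % k.cs.length := by
  have h1 := ix_cast hL i
  rw [← h] at h1
  exact_mod_cast h1

theorem cc_eq (hL : 0 < k.cs.length) (i : ℤ) :
    Cert.cc k i = k.cs.getD (ix k i % k.cs.length) default := by
  rw [Nat.mod_eq_of_lt (ix_lt hL i)]
  rfl

theorem cc_succ (hL : 0 < k.cs.length) (i : ℤ) :
    Cert.cc k (i + 1) = k.cs.getD ((ix k i + 1) % k.cs.length) default := by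
  show k.cs.getD (ix k (i + 1)) default = _
  rw [ix_eq hL (j := ix k i + 1)]
  push_cast
  rw [ix_cast hL, Int.emod_add_emod]

theorem cc_pred (hL : 0 < k.cs.length) (i : ℤ) :
    Cert.cc k (i - 1) = k.cs.getD ((ix k i + k.cs.length - 1) % k.cs.length) default := by
  show k.cs.getD (ix k (i - 1)) default = _
  rw [ix_eq hL (j := ix k i + k.cs.length - 1)]
  have h1 : ((ix k i + k.cs.length - 1 : ℕ) : ℤ) = (ix k i : ℤ) - 1 + k.cs.length := by omega
  rw [h1, Int.add_emod_right, ix_cast hL, Int.emod_sub_emod]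

theorem div_succ (hL : 0 < k.cs.length) (i : ℤ) :
    (i + 1) / (k.cs.length : ℤ) = i / k.cs.length + (if ix k i + 1 = k.cs.length then 1 else 0) := by
  have h1 := ix_cast hL i
  have h2 := ix_lt hL i
  have h3 := Int.emod_add_mul_ediv i (k.cs.length : ℤ)
  have hL' : (0 : ℤ) < k.cs.length := by omega
  set L : ℤ := (k.cs.length : ℤ) with hLd
  set d := i / L with hd
  split_ifs with h
  · have : i + 1 = (d + 1) * L := by
      have : (ix k i : ℤ) + 1 = L := by omega
      linarith [this, h1, h3, mul_comm L d]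
    rw [this]
    exact Int.mul_ediv_cancel _ hL'.ne'
  · have e1 : i + 1 = ((ix k i : ℤ) + 1) + d * L := by
      linarith [h1, h3, mul_comm L d]
    rw [e1, Int.add_mul_ediv_right _ _ hL'.ne', Int.ediv_eq_zero_of_lt (by omega) (by omega)]
    ring

theorem div_pred (hL : 0 < k.cs.length) (i : ℤ) :
    (i - 1) / (k.cs.length : ℤ) = i / k.cs.length - (if ix k i = 0 then 1 else 0) := by
  have h1 := ix_cast hL i
  have h2 := ix_lt hL i
  have h3 := Int.emod_add_mul_ediv i (k.cs.length : ℤ)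
  have hL' : (0 : ℤ) < k.cs.length := by omega
  set L : ℤ := (k.cs.length : ℤ) with hLd
  set d := i / L with hd
  split_ifs with h
  · have e1 : i - 1 = (L - 1) + (d - 1) * L := by
      have : (ix k i : ℤ) = 0 := by omega
      linarith [this, h1, h3, mul_comm L d]
    rw [e1, Int.add_mul_ediv_right _ _ hL'.ne', Int.ediv_eq_zero_of_lt (by omega) (by omega)]
    ring
  · have e1 : i - 1 = ((ix k i : ℤ) - 1) + d * L := by
      linarith [h1, h3, mul_comm L d]
    rw [e1, Int.add_mul_ediv_right _ _ hL'.ne', Int.ediv_eq_zero_of_lt (by omega) (by omega)]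
    ring

/-! ## Crossings -/

/-- the conditions at a crossing -/
structure CP (c : Cert) (p x s : CC) (np : V3) (ws : Q4) : Prop where
  la : x.a < c.vs.length
  lb : x.b < c.vs.length
  lt : x.t < c.vs.length
  ab : x.a ≠ x.b
  hat : x.a ≠ x.t
  bt : x.b ≠ x.t
  num : 0 < x.num
  den : x.num < x.den
  star : inStar (c.vs.getD x.a default) x.b x.t = true
  ma : mem3 s.a x = true
  mb : mem3 s.b x = true
  edge : edge x s = false
  tri : tri x s = false
  re : (x.re < 3 ∧ nbi (c.vs.getD x.a default) (slot (c.vs.getD x.a default) x.re) = x.b ∧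
      8 * x.num < x.den) ∨
    (¬ x.re < 3 ∧ ∀ e < 3, nbi (c.vs.getD x.a default) (slot (c.vs.getD x.a default) e) ≠ x.b)
  eb : ev x.n (c.vs.getD x.a default) (c.vs.getD x.b default) = 0
  et : ev x.n (c.vs.getD x.a default) (c.vs.getD x.t default) = 0
  hnp : (x.re < 3 ∧
      ((np = fA (c.vs.getD x.a default) x.re ∧ x.n = fB (c.vs.getD x.a default) x.re) ∨
      (np = neg (fA (c.vs.getD x.a default) x.re) ∧ x.n = neg (fB (c.vs.getD x.a default) x.re)) ∨
      (np = fB (c.vs.getD x.a default) x.re ∧ x.n = fA (c.vs.getD x.a default) x.re) ∨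
      (np = neg (fB (c.vs.getD x.a default) x.re) ∧ x.n = neg (fA (c.vs.getD x.a default) x.re)))) ∨
    (¬ x.re < 3 ∧ np = x.n)
  d1 : dpos c.vs p x (vI (cq x) (cq x)) = true
  d2 : dpos c.vs x s (vI (cq x) (cq x)) = true
  n1 : 0 < dot np (vK (cq x) (cq x))
  n2 : 0 < dot x.n (vK (cq x) (cq x))
  d3 : dpos c.vs x s (vI (cq x) ws) = true
  n3 : 0 < dot x.n (vK (cq x) ws)

theorem cp_of_cross {p x s : CC} {np : V3} {ws : Q4} (h : cross c.vs p x s np ws = true) :
    CP c p x s np ws := by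
  unfold cross at h
  simp only [Bool.and_eq_true, decide_eq_true_eq, bne_iff_ne, beq_iff_eq, Bool.not_eq_true'] at h
  obtain ⟨⟨⟨⟨⟨⟨⟨⟨⟨⟨⟨⟨⟨⟨⟨⟨⟨⟨⟨⟨⟨⟨h1, h2⟩, h3⟩, h4⟩, h5⟩, h6⟩, h7⟩, h8⟩, h9⟩, h10⟩, h11⟩, h12⟩, h13⟩,
    h14⟩, h15⟩, h16⟩, h17⟩, h18⟩, h19⟩, h20⟩, h21⟩, h22⟩, h23⟩ := h
  refine ⟨h1, h2, h3, h4, h5, h6, h7, h8, h9, h10, h11, h12, h13, ?_, h15, h16, ?_, h18, h19, h20,
    h21, h22, h23⟩
  · by_cases hr : x.re < 3
    · rw [if_pos hr] at h14
      simp only [Bool.and_eq_true, beq_iff_eq, decide_eq_true_eq] at h14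
      exact Or.inl ⟨hr, h14⟩
    · rw [if_neg hr] at h14
      simp only [Bool.and_eq_true, beq_iff_eq, List.all_eq_true, List.mem_range, bne_iff_ne] at h14
      exact Or.inr ⟨hr, h14.2⟩
  · by_cases hr : x.re < 3
    · rw [if_pos hr] at h17
      simp only [Bool.and_eq_true, Bool.or_eq_true, beq_iff_eq] at h17
      refine Or.inl ⟨hr, ?_⟩
      rcases h17 with ((h | h) | h) | h
      · exact Or.inl h
      · exact Or.inr (Or.inl h)
      · exact Or.inr (Or.inr (Or.inl h))
      · exact Or.inr (Or.inr (Or.inr h))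
    · rw [if_neg hr] at h17
      exact Or.inr ⟨hr, by simpa using h17⟩

theorem curve_unpack (hk : curve c.vs k = true) : 0 < k.cs.length ∧ k.q < 4 ∧
    (∀ j < k.cs.length, cross c.vs (k.cs.getD ((j + k.cs.length - 1) % k.cs.length) default)
      (k.cs.getD (j % k.cs.length) default) (k.cs.getD ((j + 1) % k.cs.length) default)
      (if j == 0 && (k.q == 1 || k.q == 3) then
        neg (k.cs.getD ((j + k.cs.length - 1) % k.cs.length) default).n
        else (k.cs.getD ((j + k.cs.length - 1) % k.cs.length) default).n)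
      (if j + 1 == k.cs.length then qm (cq (k.cs.getD ((j + 1) % k.cs.length) default)) (om k.q)
        else cq (k.cs.getD ((j + 1) % k.cs.length) default)) = true) ∧
    ∀ i < k.cs.length, ∀ j < k.cs.length, i = j ∨
      tri (k.cs.getD (i % k.cs.length) default) (k.cs.getD (j % k.cs.length) default) = false := by
  unfold curve at hk
  simp only [Bool.and_eq_true, decide_eq_true_eq, List.all_eq_true, List.mem_range,
    Bool.or_eq_true, Bool.not_eq_true'] at hk
  obtain ⟨⟨⟨h1, h2⟩, h3⟩, h4⟩ := hk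
  refine ⟨h1, h2, ?_, ?_⟩
  · intro j hj
    simpa only [Bool.and_eq_true, Bool.or_eq_true] using h3 j hj
  · intro i hi j hj
    rcases h4 i hi j hj with h | h
    · exact Or.inl (by simpa using h)
    · exact Or.inr h

theorem frm_n (i : ℤ) : (Cert.frm k).n i = sig k.q ^ (i / (k.cs.length : ℤ)) • rv (Cert.cc k i).n :=
  rfl

theorem frm_w (i : ℤ) : (Cert.frm k).w i =
    qr (cq (Cert.cc k i)) * omega (k.q : ZMod 4) ^ (i / (k.cs.length : ℤ)) := rfl

/-- all facts about the crossing `i` -/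
theorem main (hk : curve c.vs k = true) (i : ℤ) : ∃ np ws,
    CP c (Cert.cc k (i - 1)) (Cert.cc k i) (Cert.cc k (i + 1)) np ws ∧
    (Cert.frm k).n (i - 1) = sig k.q ^ (i / (k.cs.length : ℤ)) • rv np ∧
    (Cert.frm k).w (i + 1) = qr ws * omega (k.q : ZMod 4) ^ (i / (k.cs.length : ℤ)) := by
  obtain ⟨hL, hq, h3, _⟩ := curve_unpack hk
  have h := h3 (ix k i) (ix_lt hL i)
  rw [← cc_eq hL, ← cc_succ hL, ← cc_pred hL] at h
  refine ⟨_, _, cp_of_cross h, ?_, ?_⟩
  · rw [frm_n, div_pred hL]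
    by_cases h0 : ix k i = 0
    · rw [if_pos h0, h0, zpow_sub_one₀ (sig_ne _), ← eq_inv_of_mul_eq_one_left (sig_mul k.q)]
      by_cases h13 : k.q = 1 ∨ k.q = 3
      · have e1 : ((0 : ℕ) == 0 && (k.q == 1 || k.q == 3)) = true := by
          rcases h13 with h | h <;> rw [h] <;> rfl
        have e2 : sig k.q = -1 := by
          unfold sig
          rw [if_neg]
          omega
        rw [if_pos e1, rv_neg, e2, mul_neg, mul_one, neg_smul, smul_neg]
      · have e1 : ¬ ((0 : ℕ) == 0 && (k.q == 1 || k.q == 3)) = true := by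
          simp only [Bool.and_eq_true, Bool.or_eq_true, beq_iff_eq]
          tauto
        have e2 : sig k.q = 1 := by
          unfold sig
          rw [if_pos]
          omega
        rw [if_neg e1, e2, mul_one]
    · rw [if_neg h0, sub_zero, if_neg]
      simp only [Bool.and_eq_true, beq_iff_eq]
      tauto
  · rw [frm_w, div_succ hL]
    by_cases h0 : ix k i + 1 = k.cs.length
    · rw [if_pos h0, if_pos (by simpa using h0), qr_qm, qr_om hq, zpow_add_one₀ (om_ne hq)]
      have : ∀ W : ℍ[ℝ], W ≠ 0 → ∀ m : ℤ, W ^ m * W = W * W ^ m := by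
        intro W hW m
        rw [← zpow_add_one₀ hW, add_comm, zpow_add₀ hW, zpow_one]
      rw [this _ (om_ne hq), mul_assoc]
    · rw [if_neg h0, if_neg (by simpa using h0), add_zero]

/-! ## Points -/

theorem crv_a (i : ℤ) : (c.crv k).a i = c.fn (Cert.cc k i).a := rfl
theorem crv_b (i : ℤ) : (c.crv k).b i = c.fn (Cert.cc k i).b := rfl
theorem crv_t (i : ℤ) : (c.crv k).t i = c.fn (Cert.cc k i).t := rfl
theorem crv_r (i : ℤ) : (c.crv k).r i = ((Cert.cc k i).num : ℝ) / (Cert.cc k i).den := rfl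

theorem g_pt {N : ℕ} (S : PolyData N) (C : Crv N) (i : ℤ) :
    S.g (C.pt i) = (1 - C.r i) • S.P (C.a i) + C.r i • S.P (C.b i) := by
  unfold PolyData.g Crv.pt
  simp only [Pi.add_apply, Pi.smul_apply, smul_eq_mul, add_smul, Finset.sum_add_distrib, mul_smul]
  rw [← Finset.smul_sum, ← Finset.smul_sum]
  congr 2
  · rw [Finset.sum_eq_single (C.a i)]
    · rw [Pi.single_eq_same, one_smul]
    · intro b _ hb
      rw [Pi.single_eq_of_ne hb, zero_smul]
    · intro h
      exact absurd (Finset.mem_univ _) h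
  · rw [Finset.sum_eq_single (C.b i)]
    · rw [Pi.single_eq_same, one_smul]
    · intro b _ hb
      rw [Pi.single_eq_of_ne hb, zero_smul]
    · intro h
      exact absurd (Finset.mem_univ _) h

/-- what is needed of a record -/
structure RP (c : Cert) (x : CC) : Prop where
  la : x.a < c.vs.length
  lb : x.b < c.vs.length
  den : 0 < x.den

theorem sd_pos (hs : surf c.vs = true) {x : CC} (h : RP c x) : (0 : ℝ) < (sd c.vs x : ℤ) := by
  have h1 := (vp hs h.la).w
  have h2 := (vp hs h.lb).w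
  have h3 := h.den
  have h4 : (0 : ℤ) < sd c.vs x := by
    unfold sd
    have : (0 : ℤ) < (x.den : ℤ) := by exact_mod_cast h3
    positivity
  exact_mod_cast h4

theorem inner_g (hs : surf c.vs = true) {i : ℤ} (h : RP c (Cert.cc k i)) (n : V3) :
    inner ℝ (rv n) (c.poly.g ((c.crv k).pt i)) * (sd c.vs (Cert.cc k i) : ℤ) =
      (sv c.vs (Cert.cc k i) n : ℤ) := by
  have h1 := (vp hs h.la).w
  have h2 := (vp hs h.lb).w
  have h3 := h.den
  rw [g_pt, inner_add_right, inner_smul_right, inner_smul_right, crv_a, crv_b, inner_P hs h.la,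
    inner_P hs h.lb, crv_r]
  unfold sd sv
  push_cast
  have h1' : ((c.vs.getD (Cert.cc k i).a default).w : ℝ) ≠ 0 := by exact_mod_cast h1.ne'
  have h2' : ((c.vs.getD (Cert.cc k i).b default).w : ℝ) ≠ 0 := by exact_mod_cast h2.ne'
  have h3' : ((Cert.cc k i).den : ℝ) ≠ 0 := by exact_mod_cast h3.ne'
  field_simp
  try ring

theorem inner_D (hs : surf c.vs = true) {i j : ℤ} (hi : RP c (Cert.cc k i))
    (hj : RP c (Cert.cc k j)) {n : V3}
    (h : dpos c.vs (Cert.cc k i) (Cert.cc k j) n = true) :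
    0 < inner ℝ (c.poly.g ((c.crv k).pt j) - c.poly.g ((c.crv k).pt i)) (rv n) := by
  unfold dpos at h
  rw [decide_eq_true_eq] at h
  have h' : ((sv c.vs (Cert.cc k i) n : ℤ) : ℝ) * ((sd c.vs (Cert.cc k j) : ℤ) : ℝ) <
      ((sv c.vs (Cert.cc k j) n : ℤ) : ℝ) * ((sd c.vs (Cert.cc k i) : ℤ) : ℝ) := by
    exact_mod_cast h
  rw [← inner_g hs hi, ← inner_g hs hj] at h'
  have p1 := sd_pos hs hi
  have p2 := sd_pos hs hj
  rw [real_inner_comm, inner_sub_right, sub_pos]
  by_contra hcon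
  push Not at hcon
  have := mul_le_mul_of_nonneg_right hcon (mul_pos p1 p2).le
  nlinarith

theorem A_fn (hs : surf c.vs = true) {a : ℕ} (ha : a < c.vs.length) (e : Fin 3) (p : E3) :
    c.poly.A (c.fn a) e p = inner ℝ (rv (fA (c.vs.getD a default) (e : ℕ))) p := by
  have hX : c.poly.X (c.fn a) = innerSL ℝ (rv (c.vs.getD a default).X) := by
    show innerSL ℝ (rv (c.v ((c.fn a : Fin (c.m + 1)) : ℕ)).X) = _
    rw [fn_val hs ha]; rfl
  have hY : c.poly.Y (c.fn a) = innerSL ℝ (rv (c.vs.getD a default).Y) := by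
    show innerSL ℝ (rv (c.v ((c.fn a : Fin (c.m + 1)) : ℕ)).Y) = _
    rw [fn_val hs ha]; rfl
  have hk : c.poly.κ (c.fn a) = (kap (c.vs.getD a default) : ℝ) := by
    show (if (c.v ((c.fn a : Fin (c.m + 1)) : ℕ)).s then (1 : ℝ) else -1) = _
    rw [fn_val hs ha]
    unfold kap Cert.v
    split_ifs <;> simp
  unfold PolyData.A fA
  rw [hX, hY, hk]
  fin_cases e
  · simp [rv_sc, inner_smul_left, innerSL_apply_apply]
  · simp [innerSL_apply_apply]
  · simp [innerSL_apply_apply]

theorem B_fn (hs : surf c.vs = true) {a : ℕ} (ha : a < c.vs.length) (e : Fin 3) (p : E3) :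
    c.poly.B (c.fn a) e p = inner ℝ (rv (fB (c.vs.getD a default) (e : ℕ))) p := by
  have hY : c.poly.Y (c.fn a) = innerSL ℝ (rv (c.vs.getD a default).Y) := by
    show innerSL ℝ (rv (c.v ((c.fn a : Fin (c.m + 1)) : ℕ)).Y) = _
    rw [fn_val hs ha]; rfl
  have hZ : c.poly.Z (c.fn a) = innerSL ℝ (rv (c.vs.getD a default).Z) := by
    show innerSL ℝ (rv (c.v ((c.fn a : Fin (c.m + 1)) : ℕ)).Z) = _
    rw [fn_val hs ha]; rfl
  have hk : c.poly.κ (c.fn a) = (kap (c.vs.getD a default) : ℝ) := by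
    show (if (c.v ((c.fn a : Fin (c.m + 1)) : ℕ)).s then (1 : ℝ) else -1) = _
    rw [fn_val hs ha]
    unfold kap Cert.v
    split_ifs <;> simp
  unfold PolyData.B fB
  rw [hY, hZ, hk]
  fin_cases e
  · simp [rv_sc, inner_smul_left, innerSL_apply_apply]
  · simp [innerSL_apply_apply]
  · simp [innerSL_apply_apply]

theorem re_some {i : ℤ} {e : Fin 3} (h : (c.crv k).re i = some e) : (Cert.cc k i).re = (e : ℕ) := by
  have h' : (if (Cert.cc k i).re = 0 then some (0 : Fin 3) else if (Cert.cc k i).re = 1 then some 1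
    else if (Cert.cc k i).re = 2 then some 2 else none) = some e := h
  split_ifs at h' with h1 h2 h3
  · rw [h1, ← Option.some.inj h']; rfl
  · rw [h2, ← Option.some.inj h']; rfl
  · rw [h3, ← Option.some.inj h']; rfl

theorem re_none {i : ℤ} (h : (c.crv k).re i = none) : ¬ (Cert.cc k i).re < 3 := by
  have h' : (if (Cert.cc k i).re = 0 then some (0 : Fin 3) else if (Cert.cc k i).re = 1 then some 1
    else if (Cert.cc k i).re = 2 then some 2 else none) = none := h
  split_ifs at h' with h1 h2 h3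
  omega

theorem mem3_iff (hs : surf c.vs = true) {u : ℕ} {x : CC} (hu : u < c.vs.length)
    (ha : x.a < c.vs.length) (hb : x.b < c.vs.length) (ht : x.t < c.vs.length) :
    mem3 u x = true ↔ c.fn u ∈ ({c.fn x.a, c.fn x.b, c.fn x.t} : Finset (Fin (c.m + 1))) := by
  unfold mem3
  simp only [Bool.or_eq_true, beq_iff_eq, Finset.mem_insert, Finset.mem_singleton, or_assoc]
  constructor
  · rintro (h | h | h)
    · exact Or.inl (by rw [h])
    · exact Or.inr (Or.inl (by rw [h]))
    · exact Or.inr (Or.inr (by rw [h]))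
  · rintro (h | h | h)
    · exact Or.inl (fn_inj hs hu ha h)
    · exact Or.inr (Or.inl (fn_inj hs hu hb h))
    · exact Or.inr (Or.inr (fn_inj hs hu ht h))

theorem tri_of_eq (hs : surf c.vs = true) {x y : CC} (xa : x.a < c.vs.length)
    (xb : x.b < c.vs.length) (xt : x.t < c.vs.length) (ya : y.a < c.vs.length)
    (yb : y.b < c.vs.length) (yt : y.t < c.vs.length)
    (h : ({c.fn x.a, c.fn x.b, c.fn x.t} : Finset (Fin (c.m + 1))) =
      {c.fn y.a, c.fn y.b, c.fn y.t}) : Chk.tri x y = true := by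
  unfold Chk.tri
  simp only [Bool.and_eq_true]
  refine ⟨⟨?_, ?_⟩, ?_⟩
  · rw [mem3_iff hs xa ya yb yt, ← h]; simp
  · rw [mem3_iff hs xb ya yb yt, ← h]; simp
  · rw [mem3_iff hs xt ya yb yt, ← h]; simp

/-! ## The theorem -/

theorem rp (hk : curve c.vs k = true) (i : ℤ) : RP c (Cert.cc k i) := by
  obtain ⟨np, ws, h, _⟩ := main hk i
  exact ⟨h.la, h.lb, by have := h.num; have := h.den; omega⟩

theorem cc_per (i : ℤ) : Cert.cc k (i + k.cs.length) = Cert.cc k i := by
  unfold Cert.cc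
  rw [Int.add_emod_right]

theorem isCrv (hs : surf c.vs = true) (hk : curve c.vs k = true) : (c.crv k).IsCrv c.poly where
  hL := (curve_unpack hk).1
  hpa := fun i => by
    show c.fn (Cert.cc k (i + k.cs.length)).a = _
    rw [cc_per]; rfl
  hpb := fun i => by
    show c.fn (Cert.cc k (i + k.cs.length)).b = _
    rw [cc_per]; rfl
  hpr := fun i => by
    show ((Cert.cc k (i + k.cs.length)).num : ℝ) / (Cert.cc k (i + k.cs.length)).den = _
    rw [cc_per]; rfl
  hpt := fun i => by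
    show c.fn (Cert.cc k (i + k.cs.length)).t = _
    rw [cc_per]; rfl
  hpe := fun i => by
    show (if (Cert.cc k (i + k.cs.length)).re = 0 then some (0 : Fin 3) else
      if (Cert.cc k (i + k.cs.length)).re = 1 then some 1
      else if (Cert.cc k (i + k.cs.length)).re = 2 then some 2 else none) = _
    rw [cc_per]; rfl
  h01 := fun i => by
    obtain ⟨np, ws, h, _⟩ := main hk i
    rw [crv_r]
    have h1 : (0 : ℝ) < ((Cert.cc k i).num : ℝ) := by exact_mod_cast h.num
    have h2 : ((Cert.cc k i).num : ℝ) < ((Cert.cc k i).den : ℝ) := by exact_mod_cast h.den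
    exact ⟨div_pos h1 (h1.trans h2), (div_lt_one (h1.trans h2)).2 h2⟩
  hab := fun i hi => by
    obtain ⟨np, ws, h, _⟩ := main hk i
    exact h.ab (fn_inj hs h.la h.lb hi)
  htri := fun i => by
    obtain ⟨np, ws, h, _⟩ := main hk i
    exact mem_T hs h.la h.star
  hnext := fun i => by
    obtain ⟨np, ws, h, _⟩ := main hk i
    obtain ⟨np', ws', h', _⟩ := main hk (i + 1)
    exact ⟨(mem3_iff hs h'.la h.la h.lb h.lt).1 h.ma, (mem3_iff hs h'.lb h.la h.lb h.lt).1 h.mb⟩
  hedge := fun i hi => by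
    obtain ⟨np, ws, h, _⟩ := main hk i
    obtain ⟨np', ws', h', _⟩ := main hk (i + 1)
    have he := h.edge
    have hi' : ({c.fn (Cert.cc k i).a, c.fn (Cert.cc k i).b} : Finset (Fin (c.m + 1))) =
      {c.fn (Cert.cc k (i + 1)).a, c.fn (Cert.cc k (i + 1)).b} := hi
    have ha : c.fn (Cert.cc k i).a ∈ ({c.fn (Cert.cc k (i + 1)).a, c.fn (Cert.cc k (i + 1)).b} :
        Finset (Fin (c.m + 1))) := by rw [← hi']; simp
    have hb : c.fn (Cert.cc k i).b ∈ ({c.fn (Cert.cc k (i + 1)).a, c.fn (Cert.cc k (i + 1)).b} :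
        Finset (Fin (c.m + 1))) := by rw [← hi']; simp
    simp only [Finset.mem_insert, Finset.mem_singleton] at ha hb
    have : Chk.edge (Cert.cc k i) (Cert.cc k (i + 1)) = true := by
      unfold Chk.edge
      simp only [Bool.or_eq_true, Bool.and_eq_true, beq_iff_eq]
      rcases ha with ha | ha <;> rcases hb with hb | hb
      · exact absurd (fn_inj hs h.la h.lb (ha.trans hb.symm)) h.ab
      · exact Or.inl ⟨fn_inj hs h.la h'.la ha, fn_inj hs h.lb h'.lb hb⟩
      · exact Or.inr ⟨fn_inj hs h.la h'.lb ha, fn_inj hs h.lb h'.la hb⟩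
      · exact absurd (fn_inj hs h.la h.lb (ha.trans hb.symm)) h.ab
    rw [he] at this
    exact absurd this (by decide)
  hcross := fun i hi => by
    obtain ⟨np, ws, h, _⟩ := main hk i
    obtain ⟨np', ws', h', _⟩ := main hk (i + 1)
    have h1 := tri_of_eq hs h.la h.lb h.lt h'.la h'.lb h'.lt hi
    rw [h.tri] at h1
    exact absurd h1 (by decide)
  hreal := fun i e he => by
    obtain ⟨np, ws, h, _⟩ := main hk i
    have h1 := re_some he
    rcases h.re with ⟨h2, h3, h4⟩ | ⟨h2, _⟩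
    · rw [crv_a, crv_b, r_fn hs h.la, ← h1, h3, crv_r]
      refine ⟨rfl, ?_⟩
      have h5 : (0 : ℝ) < ((Cert.cc k i).den : ℝ) := by
        have := h.num; have := h.den
        exact_mod_cast (by omega : 0 < (Cert.cc k i).den)
      rw [div_lt_iff₀ h5]
      have h6 : (8 : ℝ) * ((Cert.cc k i).num : ℝ) < ((Cert.cc k i).den : ℝ) := by exact_mod_cast h4
      linarith
    · have := e.2
      omega
  hflat := fun i he e => by
    obtain ⟨np, ws, h, _⟩ := main hk i
    have h1 := re_none he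
    rcases h.re with ⟨h2, _⟩ | ⟨_, h3⟩
    · exact absurd h2 h1
    · rw [crv_a, crv_b, r_fn hs h.la]
      intro h4
      exact h3 e e.2 (fn_inj hs (nbi_lt hs h.la _) h.lb h4.symm)
  hsep := fun i j hij htri => by
    exfalso
    obtain ⟨hL, _, _, h4⟩ := curve_unpack hk
    obtain ⟨np, ws, h, _⟩ := main hk i
    obtain ⟨np', ws', h', _⟩ := main hk j
    have h1 := tri_of_eq hs h.la h.lb h.lt h'.la h'.lb h'.lt htri
    rcases h4 (ix k i) (ix_lt hL i) (ix k j) (ix_lt hL j) with h5 | h5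
    · apply hij
      have h6 := ix_cast hL i
      have h7 := ix_cast hL j
      rw [h5, h7] at h6
      have h8 : (k.cs.length : ℤ) ∣ j - i := Int.ModEq.dvd (n := (k.cs.length : ℤ)) h6.symm
      obtain ⟨m, hm⟩ := h8
      exact ⟨m, by rw [mul_comm]; show j = i + (k.cs.length : ℤ) * m; omega⟩
    · rw [← cc_eq hL, ← cc_eq hL, h1] at h5
      exact absurd h5 (by decide)

theorem ev_zero (hs : surf c.vs = true) {a b : ℕ} (ha : a < c.vs.length) (hb : b < c.vs.length)
    {n : V3} (h : ev n (c.vs.getD a default) (c.vs.getD b default) = 0) :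
    inner ℝ (rv n) (c.poly.P (c.fn b) - c.poly.P (c.fn a)) = 0 := by
  have h1 := (vp hs ha).w
  have h2 := (vp hs hb).w
  rw [inner_sub_right, inner_P hs ha, inner_P hs hb]
  unfold ev at h
  have h1' : ((c.vs.getD a default).w : ℝ) ≠ 0 := by exact_mod_cast h1.ne'
  have h2' : ((c.vs.getD b default).w : ℝ) ≠ 0 := by exact_mod_cast h2.ne'
  have h3 : (dot n ((c.vs.getD b default).x, (c.vs.getD b default).y, (c.vs.getD b default).z) : ℝ)
      * ((c.vs.getD a default).w : ℝ) -
      (dot n ((c.vs.getD a default).x, (c.vs.getD a default).y, (c.vs.getD a default).z) : ℝ)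
      * ((c.vs.getD b default).w : ℝ) = 0 := by
    exact_mod_cast h
  field_simp
  linarith

theorem isFrm (hs : surf c.vs = true) (hk : curve c.vs k = true) :
    Frm.IsFrm c.poly (c.crv k) (Cert.frm k) (k.q : ZMod 4) where
  hn := fun i => by
    obtain ⟨np, ws, h, _⟩ := main hk i
    rw [frm_n, inner_smul_left, inner_smul_left, crv_a, crv_b, crv_t, ev_zero hs h.la h.lb h.eb,
      ev_zero hs h.la h.lt h.et]
    simp
  hflat := fun i he => by
    obtain ⟨np, ws, h, h1, _⟩ := main hk i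
    have h2 := re_none he
    rcases h.hnp with ⟨h3, _⟩ | ⟨_, h3⟩
    · exact absurd h3 h2
    · rw [h1, h3, frm_n]
  hreal := fun i e he => by
    obtain ⟨np, ws, h, h1, _⟩ := main hk i
    have h2 := re_some he
    rcases h.hnp with ⟨_, h3⟩ | ⟨h3, _⟩
    · rw [h2] at h3
      have hσ := sig_zpow k.q (i / (k.cs.length : ℤ))
      rw [h1, frm_n, crv_a]
      generalize sig k.q ^ (i / (k.cs.length : ℤ)) = s at hσ
      have hσ' : -s = 1 ∨ -s = -1 := by
        rcases hσ with h | h <;> rw [h] <;> simp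
      rcases h3 with ⟨g1, g2⟩ | ⟨g1, g2⟩ | ⟨g1, g2⟩ | ⟨g1, g2⟩
      · refine ⟨s, hσ, Or.inl fun p => ?_⟩
        rw [g1, g2, A_fn hs h.la, B_fn hs h.la, inner_smul_left, inner_smul_left]
        simp
      · refine ⟨-s, hσ', Or.inl fun p => ?_⟩
        rw [g1, g2, A_fn hs h.la, B_fn hs h.la, inner_smul_left, inner_smul_left, rv_neg, rv_neg,
          inner_neg_left, inner_neg_left]
        simp
      · refine ⟨s, hσ, Or.inr fun p => ?_⟩
        rw [g1, g2, A_fn hs h.la, B_fn hs h.la, inner_smul_left, inner_smul_left]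
        simp
      · refine ⟨-s, hσ', Or.inr fun p => ?_⟩
        rw [g1, g2, A_fn hs h.la, B_fn hs h.la, inner_smul_left, inner_smul_left, rv_neg, rv_neg,
          inner_neg_left, inner_neg_left]
        simp
    · have := e.2
      omega
  hD := fun i => by
    obtain ⟨hL, hq, _, _⟩ := curve_unpack hk
    obtain ⟨np, ws, h, _⟩ := main hk i
    rw [frm_w, vI_om hq, vI_qr]
    constructor
    · have h1 := inner_D hs (rp hk (i - 1)) (rp hk i) h.d1
      unfold Crv.D
      rw [sub_add_cancel]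
      exact h1
    · exact inner_D hs (rp hk i) (rp hk (i + 1)) h.d2
  hN := fun i => by
    obtain ⟨hL, hq, _, _⟩ := curve_unpack hk
    obtain ⟨np, ws, h, h1, _⟩ := main hk i
    rw [frm_w, vK_om hq, vK_qr, h1, frm_n, inner_smul_left, inner_smul_right, inner_smul_left,
      inner_smul_right, inner_rv, inner_rv]
    simp only [conj_trivial]
    rw [← mul_assoc, ← mul_assoc, sig_zpow_mul, one_mul, one_mul]
    exact ⟨by exact_mod_cast h.n1, by exact_mod_cast h.n2⟩
  hD' := fun i => by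
    obtain ⟨hL, hq, _, _⟩ := curve_unpack hk
    obtain ⟨np, ws, h, _, h2⟩ := main hk i
    rw [h2, frm_w, vI_om hq, vI_qr]
    exact inner_D hs (rp hk i) (rp hk (i + 1)) h.d3
  hN' := fun i => by
    obtain ⟨hL, hq, _, _⟩ := curve_unpack hk
    obtain ⟨np, ws, h, _, h2⟩ := main hk i
    rw [h2, frm_w, vK_om hq, vK_qr, frm_n, inner_smul_left, inner_smul_right, inner_rv]
    simp only [conj_trivial]
    rw [← mul_assoc, sig_zpow_mul, one_mul]
    exact_mod_cast h.n3
  hhol := fun i => by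
    obtain ⟨hL, hq, _, _⟩ := curve_unpack hk
    show (Cert.frm k).w (i + k.cs.length) = _
    rw [frm_w, frm_w, cc_per, Int.add_ediv_of_dvd_right dvd_rfl, Int.ediv_self (by omega),
      zpow_add_one₀ (om_ne hq), mul_assoc]
  hnhol := fun i => by
    obtain ⟨hL, hq, _, _⟩ := curve_unpack hk
    show (Cert.frm k).n (i + k.cs.length) = _
    rw [sig_cast hq, frm_n, frm_n, cc_per, Int.add_ediv_of_dvd_right dvd_rfl,
      Int.ediv_self (by omega), zpow_add_one₀ (sig_ne _), smul_smul, mul_comm]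

end KCUM

theorem specKCU : SpecKCU := fun _ hs _ hk => ⟨KCUM.isCrv hs hk, KCUM.isFrm hs hk⟩

end Pool.Agent.Lib.MP_0b1f3c_gt.TI
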