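import Pool.Agent.Lib.MP_0b1f3c_gt.TI.Cert

/-! Module KPA: soundness of the checker for pairs of closed polygons. -/

open scoped Manifold ContDiff InnerProductSpace Quaternion

noncomputable section

namespace Pool.Agent.Lib.MP_0b1f3c_gt.TI

namespace KPAM

/-- simple conditions on a crossing record -/
structure COK (n : ℕ) (d : CC) : Prop where
  ha : d.a < n
  hb : d.b < n
  ht : d.t < n
  hab : d.a ≠ d.b
  hat : d.a ≠ d.t
  hbt : d.b ≠ d.t
  h0 : 0 < d.num
  h1 : d.num < d.den

/-- record number `j` (cyclic) -/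
def rc (k : KC) (j : ℕ) : CC := k.cs.getD (j % k.cs.length) default

lemma cok_cross {vs : List VC} {p c s : CC} {np : V3} {ws : Chk.Q4}
    (h : Chk.cross vs p c s np ws = true) : COK vs.length c := by
  unfold Chk.cross at h
  simp only [Bool.and_eq_true, decide_eq_true_eq, bne_iff_ne, ne_eq] at h
  obtain ⟨⟨⟨⟨⟨⟨⟨⟨⟨⟨⟨⟨⟨⟨⟨⟨⟨⟨⟨⟨⟨⟨h1, h2⟩, h3⟩, h4⟩, h5⟩, h6⟩, h7⟩, h8⟩, -⟩, -⟩, -⟩, -⟩, -⟩, -⟩, -⟩, -⟩, -⟩, -⟩, -⟩, -⟩,
    -⟩, -⟩, -⟩ := h
  exact ⟨h1, h2, h3, h4, h5, h6, h7, h8⟩

lemma curve_ok {vs : List VC} {k : KC} (h : Chk.curve vs k = true) :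
    0 < k.cs.length ∧ ∀ j, COK vs.length (rc k j) := by
  unfold Chk.curve at h
  simp only [Bool.and_eq_true, decide_eq_true_eq, List.all_eq_true, List.mem_range] at h
  obtain ⟨⟨⟨h1, -⟩, h2⟩, -⟩ := h
  refine ⟨h1, fun j => ?_⟩
  have h3 := cok_cross (h2 (j % k.cs.length) (Nat.mod_lt _ h1))
  rw [Nat.mod_mod] at h3
  exact h3

lemma cc_eq (k : KC) (i : ℤ) : Cert.cc k i = rc k (i % k.cs.length).toNat := by
  unfold Cert.cc rc
  rcases Nat.eq_zero_or_pos k.cs.length with h | h
  · rw [h]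
    simp
  · congr 1
    rw [Nat.mod_eq_of_lt]
    have h1 := Int.emod_lt_of_pos i (by exact_mod_cast h : (0 : ℤ) < k.cs.length)
    have h2 := Int.emod_nonneg i (by exact_mod_cast h.ne' : (k.cs.length : ℤ) ≠ 0)
    omega

section

variable {c : Cert} (h0 : 0 < c.vs.length)

include h0

lemma n_eq : c.m + 1 = c.vs.length := by
  unfold Cert.m
  omega

lemma fn_val {i : ℕ} (hi : i < c.vs.length) : ((c.fn i : Fin (c.m + 1)) : ℕ) = i := by
  have h1 : ((c.fn i : Fin (c.m + 1)) : ℕ) = i % (c.m + 1) := rfl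
  rw [h1, n_eq h0, Nat.mod_eq_of_lt hi]

lemma fn_inj {i j : ℕ} (hi : i < c.vs.length) (hj : j < c.vs.length) :
    c.fn i = c.fn j ↔ i = j := by
  constructor
  · intro h
    rw [← fn_val h0 hi, h, fn_val h0 hj]
  · rintro rfl
    rfl

omit h0 in
/-- the point of a record -/
def ptr (c : Cert) (d : CC) : Fin (c.m + 1) → ℝ :=
  (1 - (d.num : ℝ) / d.den) • Pi.single (c.fn d.a) 1 + ((d.num : ℝ) / d.den) • Pi.single (c.fn d.b) 1

omit h0 in
/-- the triangle of a record -/
def trr (c : Cert) (d : CC) : Finset (Fin (c.m + 1)) := {c.fn d.a, c.fn d.b, c.fn d.t}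

lemma ptr_apply {d : CC} (hd : COK c.vs.length d) {u : ℕ} (hu : u < c.vs.length) :
    ptr c d (c.fn u) = (Chk.co d u : ℝ) / d.den := by
  have hden : (d.den : ℝ) ≠ 0 := by
    have h1 := hd.h1
    have : 0 < d.den := by omega
    exact_mod_cast this.ne'
  unfold ptr Chk.co
  simp only [Pi.add_apply, Pi.smul_apply, Pi.single_apply, smul_eq_mul, fn_inj h0 hu hd.ha,
    fn_inj h0 hu hd.hb]
  push_cast
  split_ifs <;> field_simp <;> ring

lemma ptne_ok {d e : CC} (hd : COK c.vs.length d) (he : COK c.vs.length e)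
    (h : Chk.ptne d e = true) : ptr c d ≠ ptr c e := by
  intro heq
  have hdd : (0 : ℝ) < d.den := by
    have h1 := hd.h1
    have : 0 < d.den := by omega
    exact_mod_cast this
  have hee : (0 : ℝ) < e.den := by
    have h1 := he.h1
    have : 0 < e.den := by omega
    exact_mod_cast this
  have hd0 : (0 : ℝ) < d.num := by exact_mod_cast hd.h0
  have he0 : (0 : ℝ) < e.num := by exact_mod_cast he.h0
  have hd1 : (d.num : ℝ) < d.den := by exact_mod_cast hd.h1
  have he1 : (e.num : ℝ) < e.den := by exact_mod_cast he.h1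
  have ea := congrFun heq (c.fn d.a)
  have eb := congrFun heq (c.fn d.b)
  rw [ptr_apply h0 hd hd.ha, ptr_apply h0 he hd.ha, div_eq_div_iff hdd.ne' hee.ne'] at ea
  rw [ptr_apply h0 hd hd.hb, ptr_apply h0 he hd.hb, div_eq_div_iff hdd.ne' hee.ne'] at eb
  unfold Chk.ptne at h
  simp only [Bool.and_eq_true, Bool.or_eq_true, Bool.not_eq_true', Bool.and_eq_false_iff,
    beq_eq_false_iff_ne, bne_iff_ne, ne_eq] at h
  have hab := hd.hab
  have hab' := he.hab
  simp only [Chk.co, if_true, if_neg hab, if_neg hab.symm, add_zero, zero_add] at ea eb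
  push_cast at ea eb
  by_cases h1 : d.a = e.a
  · by_cases h2 : d.b = e.b
    · rcases h.1 with (h3 | h3) | h3
      · exact h3 h1
      · exact h3 h2
      · apply h3
        have h4 : d.b ≠ e.a := fun h => hab (h1.trans h.symm)
        rw [if_neg h4, if_pos h2] at eb
        have : (d.num : ℝ) * e.den = e.num * d.den := by linarith
        exact_mod_cast this
    · have h4 : d.b ≠ e.a := fun h => hab (h1.trans h.symm)
      rw [if_neg h4, if_neg h2] at eb
      have : 0 < (d.num : ℝ) * e.den := mul_pos hd0 hee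
      linarith
  · by_cases h2 : d.a = e.b
    · by_cases h3 : d.b = e.a
      · rcases h.2 with (h5 | h5) | h5
        · exact h5 h2
        · exact h5 h3
        · apply h5
          have h4 : d.b ≠ e.b := fun h => hab (h2.trans h.symm)
          rw [if_pos h3, if_neg h4] at eb
          have h6 : (d.num : ℝ) * e.den = (e.den - e.num) * d.den := by linarith
          have h7 : ((e.den - e.num : ℕ) : ℝ) = (e.den : ℝ) - e.num := by
            rw [Nat.cast_sub he.h1.le]
          rw [← h7] at h6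
          exact_mod_cast h6
      · have h4 : d.b ≠ e.b := fun h => hab (h2.trans h.symm)
        rw [if_neg h3, if_neg h4] at eb
        have : 0 < (d.num : ℝ) * e.den := mul_pos hd0 hee
        linarith
    · rw [if_neg h1, if_neg h2] at ea
      have : 0 < ((d.den : ℝ) - d.num) * e.den := mul_pos (by linarith) hee
      linarith

lemma tri_ok {d e : CC} (hd : COK c.vs.length d) (he : COK c.vs.length e) :
    trr c d = trr c e ↔ Chk.tri d e = true := by
  have hmem : ∀ u < c.vs.length, c.fn u ∈ trr c e ↔ Chk.mem3 u e = true := by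
    intro u hu
    unfold trr Chk.mem3
    simp only [Finset.mem_insert, Finset.mem_singleton, fn_inj h0 hu he.ha, fn_inj h0 hu he.hb,
      fn_inj h0 hu he.ht, Bool.or_eq_true, beq_iff_eq, or_assoc]
  have card3 : ∀ {d : CC}, COK c.vs.length d → (trr c d).card = 3 := by
    intro d hd
    rw [Finset.card_eq_three]
    exact ⟨_, _, _, fun h => hd.hab ((fn_inj h0 hd.ha hd.hb).1 h),
      fun h => hd.hat ((fn_inj h0 hd.ha hd.ht).1 h), fun h => hd.hbt ((fn_inj h0 hd.hb hd.ht).1 h),
      rfl⟩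
  unfold Chk.tri
  rw [Bool.and_eq_true, Bool.and_eq_true, ← hmem _ hd.ha, ← hmem _ hd.hb, ← hmem _ hd.ht]
  constructor
  · intro h
    rw [← h]
    simp [trr]
  · rintro ⟨⟨h1, h2⟩, h3⟩
    refine Finset.eq_of_subset_of_card_le ?_ ?_
    · intro x hx
      unfold trr at hx
      simp only [Finset.mem_insert, Finset.mem_singleton] at hx
      rcases hx with rfl | rfl | rfl
      · exact h1
      · exact h2
      · exact h3
    · rw [card3 hd, card3 he]

lemma det3_ok {d x y z : CC} (hd : COK c.vs.length d) (hx : COK c.vs.length x)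
    (hy : COK c.vs.length y) (hz : COK c.vs.length z) :
    Crv.det3 (c.fn d.a) (c.fn d.b) (c.fn d.t) (ptr c x) (ptr c y) (ptr c z) =
      (Chk.d3 d.a d.b d.t x y z : ℝ) / (x.den * y.den * z.den) := by
  have pos : ∀ {e : CC}, COK c.vs.length e → (e.den : ℝ) ≠ 0 := by
    intro e he
    have h1 := he.h1
    have : 0 < e.den := by omega
    exact_mod_cast this.ne'
  have p1 := pos hx
  have p2 := pos hy
  have p3 := pos hz
  unfold Crv.det3 Chk.d3 Chk.det
  rw [ptr_apply h0 hx hd.ha, ptr_apply h0 hx hd.hb, ptr_apply h0 hx hd.ht,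
    ptr_apply h0 hy hd.ha, ptr_apply h0 hy hd.hb, ptr_apply h0 hy hd.ht,
    ptr_apply h0 hz hd.ha, ptr_apply h0 hz hd.hb, ptr_apply h0 hz hd.ht]
  push_cast
  field_simp

lemma prod_ok {d x y z w : CC} (hd : COK c.vs.length d) (hx : COK c.vs.length x)
    (hy : COK c.vs.length y) (hz : COK c.vs.length z) (hw : COK c.vs.length w) :
    ∃ M : ℝ, 0 < M ∧
      Crv.det3 (c.fn d.a) (c.fn d.b) (c.fn d.t) (ptr c x) (ptr c y) (ptr c z) *
        Crv.det3 (c.fn d.a) (c.fn d.b) (c.fn d.t) (ptr c x) (ptr c y) (ptr c w) =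
      ((Chk.d3 d.a d.b d.t x y z * Chk.d3 d.a d.b d.t x y w : ℤ) : ℝ) * M := by
  have pos : ∀ {e : CC}, COK c.vs.length e → (0 : ℝ) < e.den := by
    intro e he
    have h1 := he.h1
    have : 0 < e.den := by omega
    exact_mod_cast this
  have p1 := pos hx
  have p2 := pos hy
  have p3 := pos hz
  have p4 := pos hw
  refine ⟨1 / ((x.den * y.den * z.den) * (x.den * y.den * w.den)), by positivity, ?_⟩
  rw [det3_ok h0 hd hx hy hz, det3_ok h0 hd hx hy hw]
  push_cast
  field_simp

lemma crs_ok {x x' y y' : CC} (hx : COK c.vs.length x) (hx' : COK c.vs.length x')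
    (hy : COK c.vs.length y) (hy' : COK c.vs.length y') :
    Crv.Cross (c.fn x.a) (c.fn x.b) (c.fn x.t) (ptr c x) (ptr c x') (ptr c y) (ptr c y') ↔
      Chk.crs x x' y y' = true := by
  obtain ⟨M, hM, h1⟩ := prod_ok h0 hx hx hx' hy hy'
  obtain ⟨M', hM', h2⟩ := prod_ok h0 hx hy hy' hx hx'
  unfold Crv.Cross Chk.crs
  rw [h1, h2, Bool.and_eq_true, decide_eq_true_eq, decide_eq_true_eq]
  have key : ∀ (a : ℤ) (m : ℝ), 0 < m → ((a : ℝ) * m < 0 ↔ a < 0) := by
    intro a m hm
    constructor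
    · intro h
      have h1 : (a : ℝ) < 0 := by
        by_contra h2
        exact absurd h (not_lt.2 (mul_nonneg (not_lt.1 h2) hm.le))
      exact_mod_cast h1
    · intro h
      exact mul_neg_of_neg_of_pos (by exact_mod_cast h) hm
  rw [key _ _ hM, key _ _ hM']

lemma sep_ok {x x' y y' : CC} (hx : COK c.vs.length x) (hx' : COK c.vs.length x')
    (hy : COK c.vs.length y) (hy' : COK c.vs.length y') (h : Chk.sep x x' y y' = true) :
    Crv.Sep (c.fn x.a) (c.fn x.b) (c.fn x.t) (ptr c x) (ptr c x') (ptr c y) (ptr c y') := by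
  obtain ⟨M, hM, h1⟩ := prod_ok h0 hx hx hx' hy hy'
  obtain ⟨M', hM', h2⟩ := prod_ok h0 hx hy hy' hx hx'
  unfold Chk.sep at h
  unfold Crv.Sep
  rw [Bool.or_eq_true, decide_eq_true_eq, decide_eq_true_eq] at h
  rw [h1, h2]
  rcases h with h | h
  · exact Or.inl (mul_pos (by exact_mod_cast h) hM)
  · exact Or.inr (mul_pos (by exact_mod_cast h) hM')

end

/-- index of the record of a crossing -/
def ix (k : KC) (i : ℤ) : ℕ := (i % k.cs.length).toNat

lemma ix_lt {k : KC} (hk : 0 < k.cs.length) (i : ℤ) : ix k i < k.cs.length := by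
  have h1 := Int.emod_lt_of_pos i (by exact_mod_cast hk : (0 : ℤ) < k.cs.length)
  have h2 := Int.emod_nonneg i (by exact_mod_cast hk.ne' : (k.cs.length : ℤ) ≠ 0)
  unfold ix
  omega

lemma cc_ix (k : KC) (i : ℤ) : Cert.cc k i = rc k (ix k i) := cc_eq k i

lemma cc_succ {k : KC} (hk : 0 < k.cs.length) (i : ℤ) :
    Cert.cc k (i + 1) = rc k (ix k i + 1) := by
  rw [cc_ix]
  unfold rc
  congr 1
  have h1 := Int.emod_lt_of_pos i (by exact_mod_cast hk : (0 : ℤ) < k.cs.length)
  have h2 := Int.emod_nonneg i (by exact_mod_cast hk.ne' : (k.cs.length : ℤ) ≠ 0)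
  have h3 : (((ix k (i + 1) % k.cs.length : ℕ)) : ℤ) = ((ix k i + 1) % k.cs.length : ℕ) := by
    unfold ix
    push_cast
    rw [Int.toNat_of_nonneg h2, Int.toNat_of_nonneg
      (Int.emod_nonneg _ (by exact_mod_cast hk.ne' : (k.cs.length : ℤ) ≠ 0)), Int.emod_emod,
      Int.emod_add_emod]
  exact_mod_cast h3

lemma cc_nat {k : KC} (i : ℕ) (hi : i < k.cs.length) : ix k (i : ℤ) = i := by
  unfold ix
  rw [Int.emod_eq_of_lt (by omega) (by omega)]
  rfl

lemma sum_range (f : ℕ → ℕ) (n : ℕ) : ((List.range n).map f).sum = ∑ i ∈ Finset.range n, f i := by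
  induction n with
  | zero => simp
  | succ n ih => rw [List.range_succ, List.map_append, List.sum_append, ih,
      Finset.sum_range_succ]; simp

lemma len_filter (p : ℕ → Bool) (n : ℕ) :
    ((List.range n).filter p).length = ((Finset.range n).filter fun j => p j = true).card := by
  induction n with
  | zero => simp
  | succ n ih =>
    rw [List.range_succ, List.filter_append, List.length_append, ih, Finset.range_add_one,
      Finset.filter_insert]
    by_cases h : p n = true
    · rw [if_pos h, Finset.card_insert_of_notMem (by simp)]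
      simp [h]
    · rw [if_neg h]
      simp [h]

end KPAM

open KPAM in
theorem specKPA : SpecKPA := by
  intro c hs k l hk hl hp
  have h0 : 0 < c.vs.length := by
    unfold Chk.surf at hs
    simp only [Bool.and_eq_true, decide_eq_true_eq] at hs
    exact hs.1.1
  obtain ⟨hk0, hk⟩ := curve_ok hk
  obtain ⟨hl0, hl⟩ := curve_ok hl
  have hP : ∀ i < k.cs.length, ∀ j < l.cs.length, Chk.ptne (rc k i) (rc l j) = true ∧
      (Chk.tri (rc k i) (rc l j) = true →
        Chk.crs (rc k i) (rc k (i + 1)) (rc l j) (rc l (j + 1)) = true ∨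
        Chk.sep (rc k i) (rc k (i + 1)) (rc l j) (rc l (j + 1)) = true) := by
    intro i hi j hj
    unfold Chk.pair at hp
    simp only [List.all_eq_true, List.mem_range, Bool.and_eq_true, Bool.or_eq_true,
      Bool.not_eq_true'] at hp
    obtain ⟨h1, h2⟩ := hp i hi j hj
    refine ⟨h1, fun ht => ?_⟩
    rcases h2 with (h2 | h2) | h2
    · exact absurd (ht.symm.trans h2) (by simp)
    · exact Or.inl h2
    · exact Or.inr h2
  have pt_eq : ∀ (k : KC) (i : ℤ), (c.crv k).pt i = ptr c (Cert.cc k i) := fun k i => rfl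
  have tri_eq : ∀ (k : KC) (i : ℤ), (c.crv k).tri i = trr c (Cert.cc k i) := fun k i => rfl
  have a_eq : ∀ (k : KC) (i : ℤ), (c.crv k).a i = c.fn (Cert.cc k i).a := fun k i => rfl
  have b_eq : ∀ (k : KC) (i : ℤ), (c.crv k).b i = c.fn (Cert.cc k i).b := fun k i => rfl
  have t_eq : ∀ (k : KC) (i : ℤ), (c.crv k).t i = c.fn (Cert.cc k i).t := fun k i => rfl
  have cross_iff : ∀ i j : ℤ, Crv.Cross ((c.crv k).a i) ((c.crv k).b i) ((c.crv k).t i)
      ((c.crv k).pt i) ((c.crv k).pt (i + 1)) ((c.crv l).pt j) ((c.crv l).pt (j + 1)) ↔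
      Chk.crs (rc k (ix k i)) (rc k (ix k i + 1)) (rc l (ix l j)) (rc l (ix l j + 1)) = true := by
    intro i j
    rw [pt_eq, pt_eq, pt_eq, pt_eq, a_eq, b_eq, t_eq, cc_succ hk0, cc_succ hl0, cc_ix, cc_ix]
    exact crs_ok h0 (hk _) (hk _) (hl _) (hl _)
  have tri_iff : ∀ i j : ℤ, (c.crv k).tri i = (c.crv l).tri j ↔
      Chk.tri (rc k (ix k i)) (rc l (ix l j)) = true := by
    intro i j
    rw [tri_eq, tri_eq, cc_ix, cc_ix]
    exact tri_ok h0 (hk _) (hl _)
  refine ⟨?_, ?_, ?_⟩
  · intro i j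
    rw [pt_eq, pt_eq, cc_ix, cc_ix]
    exact ptne_ok h0 (hk _) (hl _) (hP _ (ix_lt hk0 i) _ (ix_lt hl0 j)).1
  · intro i j hij
    rcases (hP _ (ix_lt hk0 i) _ (ix_lt hl0 j)).2 ((tri_iff i j).1 hij) with h | h
    · exact Or.inl ((cross_iff i j).2 h)
    · right
      rw [pt_eq, pt_eq, pt_eq, pt_eq, a_eq, b_eq, t_eq, cc_succ hk0, cc_succ hl0, cc_ix, cc_ix]
      exact sep_ok h0 (hk _) (hk _) (hl _) (hl _) h
  · set F : Finset (ℕ × ℕ) := (Finset.range k.cs.length ×ˢ Finset.range l.cs.length).filter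
      (fun p => (Chk.tri (rc k p.1) (rc l p.2) &&
        Chk.crs (rc k p.1) (rc k (p.1 + 1)) (rc l p.2) (rc l (p.2 + 1))) = true) with hF
    have hcard : F.card = Chk.ncr k l := by
      have h1 : Chk.ncr k l = ∑ i ∈ Finset.range k.cs.length,
          ((Finset.range l.cs.length).filter fun j => (Chk.tri (rc k i) (rc l j) &&
            Chk.crs (rc k i) (rc k (i + 1)) (rc l j) (rc l (j + 1))) = true).card := by
        rw [← sum_range]
        unfold Chk.ncr
        refine congrArg List.sum (List.map_congr_left fun i _ => ?_)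
        exact len_filter _ _
      rw [h1, hF, Finset.card_filter, Finset.sum_product]
      refine Finset.sum_congr rfl fun i _ => ?_
      rw [Finset.card_filter]
    have hinj : Function.Injective (fun p : ℕ × ℕ => ((p.1 : ℤ), (p.2 : ℤ))) := by
      rintro ⟨a, b⟩ ⟨a', b'⟩ h
      simpa using h
    have hset : {p : ℤ × ℤ | 0 ≤ p.1 ∧ p.1 < (c.crv k).L ∧ 0 ≤ p.2 ∧ p.2 < (c.crv l).L ∧
        (c.crv k).tri p.1 = (c.crv l).tri p.2 ∧
        Crv.Cross ((c.crv k).a p.1) ((c.crv k).b p.1) ((c.crv k).t p.1) ((c.crv k).pt p.1)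
          ((c.crv k).pt (p.1 + 1)) ((c.crv l).pt p.2) ((c.crv l).pt (p.2 + 1))} =
        (fun p : ℕ × ℕ => ((p.1 : ℤ), (p.2 : ℤ))) '' (F : Set (ℕ × ℕ)) := by
      ext ⟨i, j⟩
      simp only [Set.mem_ofPred_eq, Set.mem_image, Finset.mem_coe]
      constructor
      · rintro ⟨h1, h2, h3, h4, h5, h6⟩
        rw [tri_iff] at h5
        rw [cross_iff] at h6
        obtain ⟨i, rfl⟩ := Int.eq_ofNat_of_zero_le h1
        obtain ⟨j, rfl⟩ := Int.eq_ofNat_of_zero_le h3
        have h2' : i < k.cs.length := by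
          have : (i : ℤ) < (k.cs.length : ℤ) := h2
          omega
        have h4' : j < l.cs.length := by
          have : (j : ℤ) < (l.cs.length : ℤ) := h4
          omega
        rw [cc_nat i h2', cc_nat j h4'] at h5 h6
        refine ⟨(i, j), ?_, rfl⟩
        rw [hF, Finset.mem_filter, Finset.mem_product, Finset.mem_range, Finset.mem_range,
          Bool.and_eq_true]
        exact ⟨⟨h2', h4'⟩, h5, h6⟩
      · rintro ⟨⟨i', j'⟩, h1, h2⟩
        rw [hF, Finset.mem_filter, Finset.mem_product, Finset.mem_range, Finset.mem_range,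
          Bool.and_eq_true] at h1
        obtain ⟨⟨h3, h4⟩, h5, h6⟩ := h1
        simp only [Prod.mk.injEq] at h2
        obtain ⟨rfl, rfl⟩ := h2
        rw [tri_iff, cross_iff, cc_nat i' h3, cc_nat j' h4]
        refine ⟨by omega, ?_, by omega, ?_, h5, h6⟩
        · have : (i' : ℤ) < (k.cs.length : ℤ) := by exact_mod_cast h3
          exact this
        · have : (j' : ℤ) < (l.cs.length : ℤ) := by exact_mod_cast h4
          exact this
    rw [hset, hinj.encard_image, Set.encard_coe_eq_coe_finsetCard, hcard]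

end Pool.Agent.Lib.MP_0b1f3c_gt.TI
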