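import Pool.Agent.Lib.MP_0b1f3c_gt.TI.Cert

/-! Module KSU: soundness of the checker for the polyhedral surface. -/

open scoped Manifold ContDiff InnerProductSpace Quaternion

noncomputable section

namespace Pool.Agent.Lib.MP_0b1f3c_gt.TI

namespace KSUM

lemma inner_rv (f : V3) (p : E3) :
    inner ℝ (rv f) p = (f.1 : ℝ) * p 0 + (f.2.1 : ℝ) * p 1 + (f.2.2 : ℝ) * p 2 := by
  rw [PiLp.inner_apply, Fin.sum_univ_three]
  simp [rv, mul_comm]

/-- neighbour record -/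
def g (c : Cert) (i j : ℕ) : VC := c.v (Chk.nbi (c.v i) j)

/-- the conditions at a vertex -/
structure VOK (c : Cert) (i : ℕ) : Prop where
  w : 0 < (c.v i).w
  det : Chk.det (c.v i).X (c.v i).Y (c.v i).Z ≠ 0
  nb : ∀ u ∈ (c.v i).nb, u < c.vs.length ∧ u ≠ i
  nodup : (c.v i).nb.Nodup
  k1 : 0 < (c.v i).k1
  k2 : (c.v i).k1 < (c.v i).k2
  k : (c.v i).k2 < (c.v i).nb.length
  k3 : 0 < (c.v i).k3
  k3' : (c.v i).k3 ≤ (c.v i).nb.length
  hX : ∀ j < (c.v i).nb.length, j ≤ (c.v i).k1 → Chk.ev (c.v i).X (c.v i) (g c i j) = 0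
  hZ : ∀ j < (c.v i).nb.length, (c.v i).k1 ≤ j → j ≤ (c.v i).k2 →
    Chk.ev (c.v i).Z (c.v i) (g c i j) = 0
  hY : ∀ j ≤ (c.v i).nb.length, (c.v i).k2 ≤ j → Chk.ev (c.v i).Y (c.v i) (g c i j) = 0
  r0 : Chk.ev (c.v i).Z (c.v i) (g c i 0) < 0
  r1 : 0 < Chk.kap (c.v i) * Chk.ev (c.v i).Y (c.v i) (g c i (c.v i).k1)
  r2 : 0 < Chk.kap (c.v i) * Chk.ev (c.v i).X (c.v i) (g c i (c.v i).k2)
  fan1 : ∀ j < (c.v i).nb.length,
    0 < Chk.kcr (c.v i) (Chk.q2 (c.v i) (g c i j)) (Chk.q2 (c.v i) (g c i (j + 1)))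
  fan2 : ∀ j < (c.v i).nb.length, 0 < j → j < (c.v i).k3 →
    0 ≤ Chk.kcr (c.v i) (Chk.q2 (c.v i) (g c i 0)) (Chk.q2 (c.v i) (g c i j))
  fan3 : ∀ j < (c.v i).nb.length, (c.v i).k3 ≤ j →
    Chk.kcr (c.v i) (Chk.q2 (c.v i) (g c i 0)) (Chk.q2 (c.v i) (g c i j)) < 0
  star1 : ∀ j < (c.v i).nb.length, Chk.inStar (g c i j) i (Chk.nbi (c.v i) (j + 1)) = true
  star2 : ∀ j < (c.v i).nb.length, Chk.inStar (g c i (j + 1)) i (Chk.nbi (c.v i) j) = true
  op : ∀ e < 3, Chk.opp (c.v i) e < 3 ∧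
    Chk.nbi (g c i (Chk.slot (c.v i) e)) (Chk.slot (g c i (Chk.slot (c.v i) e))
      (Chk.opp (c.v i) e)) = i ∧
    ((Chk.fA (c.v i) e = Chk.fA (g c i (Chk.slot (c.v i) e)) (Chk.opp (c.v i) e) ∧
      Chk.fB (c.v i) e = Chk.fB (g c i (Chk.slot (c.v i) e)) (Chk.opp (c.v i) e)) ∨
     (Chk.fA (c.v i) e = Chk.fB (g c i (Chk.slot (c.v i) e)) (Chk.opp (c.v i) e) ∧
      Chk.fB (c.v i) e = Chk.fA (g c i (Chk.slot (c.v i) e)) (Chk.opp (c.v i) e)))
  conv : (c.v i).s = false → ∀ u ∈ c.vs, Chk.ev (c.v i).X (c.v i) u ≤ 0 ∧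
    Chk.ev (c.v i).Y (c.v i) u ≤ 0 ∧ Chk.ev (c.v i).Z (c.v i) u ≤ 0
  conn : i = 0 ∨ ∃ u ∈ (c.v i).nb, u < i

lemma vok {c : Cert} {i : ℕ} (h : Chk.vert c.vs i = true) : VOK c i := by
  unfold Chk.vert at h
  simp only [Bool.and_eq_true, decide_eq_true_eq, bne_iff_ne, ne_eq, List.all_eq_true,
    Bool.or_eq_true, Bool.not_eq_true', decide_eq_false_iff_not, beq_iff_eq, List.mem_range,
    List.mem_cons, List.any_eq_true] at h
  obtain ⟨⟨⟨⟨⟨⟨⟨⟨⟨⟨⟨⟨⟨⟨⟨⟨⟨⟨⟨⟨⟨h1, h2⟩, h3⟩, h4⟩, h5⟩, h6⟩, h7⟩, h8⟩, h9⟩, h10⟩, h11⟩, h12⟩, h13⟩,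
    h14⟩, h15⟩, h16⟩, h17⟩, h18⟩, h19⟩, h20⟩, h21⟩, h22⟩ := h
  refine ⟨h1, h2, h3, h4, h5, h6, h7, h8, h9, ?_, ?_, ?_, h13, h14, h15, h16, ?_, ?_, ?_, ?_, ?_,
    ?_, ?_⟩
  · intro j hj hj1
    rcases h10 j hj with h | h
    · exact absurd hj1 h
    · exact h
  · intro j hj hj1 hj2
    rcases h11 j hj with h | h
    · have h' : (decide ((c.v i).k1 ≤ j) && decide (j ≤ (c.v i).k2)) = true := by
        simp [hj1, hj2]
      exact absurd (h'.symm.trans h) (by simp)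
    · exact h
  · intro j hj hj1
    have hj' : j = (c.v i).nb.length ∨ j < (c.v i).nb.length := by omega
    rcases h12 j hj' with h | h
    · exact absurd hj1 h
    · exact h
  · intro j hj hj1 hj2
    rcases h17 j hj with (h | h) | h
    · omega
    · exact absurd hj2 h
    · exact h
  · intro j hj hj1
    rcases h18 j hj with h | h
    · exact absurd h (not_lt.2 hj1)
    · exact h
  · exact fun j hj => (h19 j hj).1
  · exact fun j hj => (h19 j hj).2
  · intro e he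
    obtain ⟨⟨ha, hb⟩, hc⟩ := h20 e he
    exact ⟨ha, hb, hc⟩
  · intro hs u hu
    rcases h21 with h | h
    · exact absurd (hs.symm.trans h) (by simp)
    · exact ⟨(h u hu).1.1, (h u hu).1.2, (h u hu).2⟩
  · exact h22

lemma distinct_pw : ∀ l : List VC, Chk.distinct l = true →
    l.Pairwise (fun v u => v.x * u.w ≠ u.x * v.w ∨ v.y * u.w ≠ u.y * v.w ∨
      v.z * u.w ≠ u.z * v.w)
  | [], _ => List.Pairwise.nil
  | v :: l, h => by
    unfold Chk.distinct at h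
    simp only [Bool.and_eq_true, List.all_eq_true, Bool.or_eq_true, bne_iff_ne] at h
    exact List.Pairwise.cons (fun u hu => by have := h.1 u hu; tauto) (distinct_pw l h.2)

/-- the conditions on the certificate -/
structure SOK (c : Cert) : Prop where
  h0 : 0 < c.vs.length
  hv : ∀ i < c.vs.length, VOK c i
  hd : ∀ i < c.vs.length, ∀ j < c.vs.length, i < j → (c.v i).x * (c.v j).w ≠ (c.v j).x * (c.v i).w ∨
    (c.v i).y * (c.v j).w ≠ (c.v j).y * (c.v i).w ∨ (c.v i).z * (c.v j).w ≠ (c.v j).z * (c.v i).w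

lemma sok {c : Cert} (h : Chk.surf c.vs = true) : SOK c := by
  unfold Chk.surf at h
  simp only [Bool.and_eq_true, decide_eq_true_eq, List.all_eq_true, List.mem_range] at h
  obtain ⟨⟨h1, h2⟩, h3⟩ := h
  refine ⟨h1, fun i hi => vok (h3 i hi), fun i hi j hj hij => ?_⟩
  have h4 := List.pairwise_iff_getElem.1 (distinct_pw _ h2) i j hi hj hij
  unfold Cert.v
  rw [List.getD_eq_getElem _ _ hi, List.getD_eq_getElem _ _ hj]
  exact h4

/-- Cramer's rule -/
lemma exists_d' (X Y Z : V3) (hD : (Chk.det X Y Z : ℝ) ≠ 0) : ∃ d : E3,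
    inner ℝ (rv X) d = (1 : ℝ) ∧ inner ℝ (rv Y) d = (1 : ℝ) ∧ inner ℝ (rv Z) d = (1 : ℝ) := by
  obtain ⟨x1, x2, x3⟩ := X
  obtain ⟨y1, y2, y3⟩ := Y
  obtain ⟨z1, z2, z3⟩ := Z
  unfold Chk.det at hD
  push_cast at hD
  obtain ⟨D, hDd⟩ : ∃ D : ℝ, D = x1 * (y2 * z3 - y3 * z2) - x2 * (y1 * z3 - y3 * z1) +
      x3 * (y1 * z2 - y2 * z1) := ⟨_, rfl⟩
  rw [← hDd] at hD
  refine ⟨!₂[((y2 * z3 - y3 * z2) + (z2 * x3 - z3 * x2) + (x2 * y3 - x3 * y2)) / D,
    ((y3 * z1 - y1 * z3) + (z3 * x1 - z1 * x3) + (x3 * y1 - x1 * y3)) / D,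
    ((y1 * z2 - y2 * z1) + (z1 * x2 - z2 * x1) + (x1 * y2 - x2 * y1)) / D], ?_, ?_, ?_⟩ <;>
  · rw [inner_rv]
    simp
    field_simp
    rw [hDd]
    ring

lemma zero_of' (X Y Z : V3) (hD : (Chk.det X Y Z : ℝ) ≠ 0) (p : E3)
    (h1 : inner ℝ (rv X) p = (0 : ℝ)) (h2 : inner ℝ (rv Y) p = (0 : ℝ))
    (h3 : inner ℝ (rv Z) p = (0 : ℝ)) : p = 0 := by
  rw [inner_rv] at h1 h2 h3
  obtain ⟨x1, x2, x3⟩ := X
  obtain ⟨y1, y2, y3⟩ := Y
  obtain ⟨z1, z2, z3⟩ := Z
  unfold Chk.det at hD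
  push_cast at hD h1 h2 h3
  have e0 : p 0 = 0 := by
    refine (mul_eq_zero.1 ?_).resolve_left hD
    linear_combination (y2 * z3 - y3 * z2 : ℝ) * h1 + (z2 * x3 - z3 * x2 : ℝ) * h2 +
      (x2 * y3 - x3 * y2 : ℝ) * h3
  have e1 : p 1 = 0 := by
    refine (mul_eq_zero.1 ?_).resolve_left hD
    linear_combination (y3 * z1 - y1 * z3 : ℝ) * h1 + (z3 * x1 - z1 * x3 : ℝ) * h2 +
      (x3 * y1 - x1 * y3 : ℝ) * h3
  have e2 : p 2 = 0 := by
    refine (mul_eq_zero.1 ?_).resolve_left hD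
    linear_combination (y1 * z2 - y2 * z1 : ℝ) * h1 + (z1 * x2 - z2 * x1 : ℝ) * h2 +
      (x1 * y2 - x2 * y1 : ℝ) * h3
  ext i
  fin_cases i
  · exact e0
  · exact e1
  · exact e2

lemma rtg_symm {α : Type} {r : α → α → Prop} (hr : ∀ a b, r a b → r b a) {a b : α}
    (h : Relation.ReflTransGen r a b) : Relation.ReflTransGen r b a := by
  induction h with
  | refl => exact Relation.ReflTransGen.refl
  | tail _ hbc ih => exact Relation.ReflTransGen.head (hr _ _ hbc) ih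

section main

variable {c : Cert} (H : SOK c)

include H

lemma n_eq : c.m + 1 = c.vs.length := by
  have := H.h0
  unfold Cert.m
  omega

lemma lt_n (v : Fin (c.m + 1)) : (v : ℕ) < c.vs.length := by
  have h1 := v.2
  have h2 := n_eq H
  omega

lemma fn_val {i : ℕ} (hi : i < c.vs.length) : ((c.fn i : Fin (c.m + 1)) : ℕ) = i := by
  have h1 : ((c.fn i : Fin (c.m + 1)) : ℕ) = i % (c.m + 1) := rfl
  rw [h1, n_eq H, Nat.mod_eq_of_lt hi]

lemma fn_self (v : Fin (c.m + 1)) : c.fn (v : ℕ) = v := Fin.ext (fn_val H (lt_n H v))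

lemma vk (v : Fin (c.m + 1)) : VOK c v := H.hv v (lt_n H v)

lemma nbi_mem (v : Fin (c.m + 1)) (j : ℕ) : Chk.nbi (c.v v) j ∈ (c.v v).nb := by
  have h := vk H v
  have hk : 0 < (c.v v).nb.length := by have := h.k; omega
  unfold Chk.nbi
  rw [List.getD_eq_getElem _ _ (Nat.mod_lt _ hk)]
  exact List.getElem_mem _

lemma nbi_lt (v : Fin (c.m + 1)) (j : ℕ) : Chk.nbi (c.v v) j < c.vs.length :=
  ((vk H v).nb _ (nbi_mem H v j)).1

lemma nbi_ne (v : Fin (c.m + 1)) (j : ℕ) : Chk.nbi (c.v v) j ≠ v :=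
  ((vk H v).nb _ (nbi_mem H v j)).2

omit H in
lemma nb_eq (v : Fin (c.m + 1)) (j : ℕ) : c.poly.nb v j = c.fn (Chk.nbi (c.v v) j) := rfl

lemma nb_val (v : Fin (c.m + 1)) (j : ℕ) : ((c.poly.nb v j : Fin (c.m + 1)) : ℕ) =
    Chk.nbi (c.v v) j := by
  rw [nb_eq, fn_val H (nbi_lt H v j)]

lemma v_nb (v : Fin (c.m + 1)) (j : ℕ) : c.v (c.poly.nb v j : Fin (c.m + 1)) = g c v j := by
  rw [nb_val H]
  rfl

lemma w_pos (v : Fin (c.m + 1)) : (0 : ℝ) < (c.v v).w := by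
  exact_mod_cast (vk H v).w

omit H in
lemma P_eq (u : Fin (c.m + 1)) : c.poly.P u = !₂[((c.v u).x : ℝ) / (c.v u).w,
    ((c.v u).y : ℝ) / (c.v u).w, ((c.v u).z : ℝ) / (c.v u).w] := rfl

lemma form (f : V3) (u v : Fin (c.m + 1)) : inner ℝ (rv f) (c.poly.P u - c.poly.P v) =
    (Chk.ev f (c.v v) (c.v u) : ℝ) / ((c.v u).w * (c.v v).w) := by
  have h1 := (w_pos H u).ne'
  have h2 := (w_pos H v).ne'
  rw [inner_rv, P_eq, P_eq]
  simp only [PiLp.sub_apply, Chk.ev, Chk.dot]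
  simp
  field_simp
  ring

/-- the scaling factor -/
def W (c : Cert) (v : Fin (c.m + 1)) (j : ℕ) : ℝ := (g c v j).w * (c.v v).w

lemma W_pos (v : Fin (c.m + 1)) (j : ℕ) : 0 < W c v j := by
  unfold W
  rw [← v_nb H]
  exact mul_pos (w_pos H _) (w_pos H _)

lemma DX_eq (v : Fin (c.m + 1)) (j : ℕ) : c.poly.DX v j =
    (Chk.ev (c.v v).X (c.v v) (g c v j) : ℝ) / W c v j := by
  have h : c.poly.DX v j = inner ℝ (rv (c.v v).X) (c.poly.P (c.poly.nb v j) - c.poly.P v) := rfl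
  rw [h, form H, v_nb H]
  rfl

lemma DY_eq (v : Fin (c.m + 1)) (j : ℕ) : c.poly.DY v j =
    (Chk.ev (c.v v).Y (c.v v) (g c v j) : ℝ) / W c v j := by
  have h : c.poly.DY v j = inner ℝ (rv (c.v v).Y) (c.poly.P (c.poly.nb v j) - c.poly.P v) := rfl
  rw [h, form H, v_nb H]
  rfl

lemma DZ_eq (v : Fin (c.m + 1)) (j : ℕ) : c.poly.DZ v j =
    (Chk.ev (c.v v).Z (c.v v) (g c v j) : ℝ) / W c v j := by
  have h : c.poly.DZ v j = inner ℝ (rv (c.v v).Z) (c.poly.P (c.poly.nb v j) - c.poly.P v) := rfl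
  rw [h, form H, v_nb H]
  rfl

omit H in
lemma kap_eq (v : Fin (c.m + 1)) : c.poly.κ v = (Chk.kap (c.v v) : ℝ) := by
  have h : c.poly.κ v = if (c.v v).s then (1 : ℝ) else -1 := rfl
  rw [h]
  unfold Chk.kap
  split_ifs <;> simp

lemma cr_eq (v : Fin (c.m + 1)) (i j : ℕ) :
    c.poly.κ v * cr (c.poly.Q v i) (c.poly.Q v j) =
      (Chk.kcr (c.v v) (Chk.q2 (c.v v) (g c v i)) (Chk.q2 (c.v v) (g c v j)) : ℝ) /
        (W c v i * W c v j) := by
  have h1 := (W_pos H v i).ne'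
  have h2 := (W_pos H v j).ne'
  unfold cr PolyData.Q Chk.kcr Chk.q2
  simp only [DX_eq H, DY_eq H, DZ_eq H, kap_eq]
  push_cast
  field_simp

lemma det_ne (v : Fin (c.m + 1)) : (Chk.det (c.v v).X (c.v v).Y (c.v v).Z : ℝ) ≠ 0 := by
  exact_mod_cast (vk H v).det

lemma exists_d (v : Fin (c.m + 1)) : ∃ d : E3, inner ℝ (rv (c.v v).X) d = (1 : ℝ) ∧
      inner ℝ (rv (c.v v).Y) d = (1 : ℝ) ∧ inner ℝ (rv (c.v v).Z) d = (1 : ℝ) :=
  exists_d' _ _ _ (det_ne H v)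

lemma zero_of (v : Fin (c.m + 1)) (p : E3) (h1 : inner ℝ (rv (c.v v).X) p = (0 : ℝ))
    (h2 : inner ℝ (rv (c.v v).Y) p = (0 : ℝ)) (h3 : inner ℝ (rv (c.v v).Z) p = (0 : ℝ)) :
    p = 0 := zero_of' _ _ _ (det_ne H v) p h1 h2 h3

omit H in
lemma mem_T (t : Finset (Fin (c.m + 1))) : t ∈ c.poly.T ↔ ∃ v : Fin (c.m + 1),
    ∃ i < (c.v v).nb.length, ({v, c.poly.nb v i, c.poly.nb v (i + 1)} : Finset (Fin (c.m + 1))) = t := by
  have h : c.poly.T = Finset.univ.biUnion fun v : Fin (c.m + 1) =>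
      (Finset.range (c.v v).nb.length).image fun i => {v, c.poly.nb v i, c.poly.nb v (i + 1)} := rfl
  rw [h]
  simp only [Finset.mem_biUnion, Finset.mem_univ, true_and, Finset.mem_image, Finset.mem_range]

lemma nb_inj (v : Fin (c.m + 1)) : Set.InjOn (c.poly.nb v) (Set.Iio (c.v v).nb.length) := by
  intro i hi j hj hij
  have h1 : Chk.nbi (c.v v) i = Chk.nbi (c.v v) j := by
    rw [← nb_val H, ← nb_val H, hij]
  rw [Set.mem_Iio] at hi hj
  unfold Chk.nbi at h1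
  rw [Nat.mod_eq_of_lt hi, Nat.mod_eq_of_lt hj, List.getD_eq_getElem _ _ hi,
    List.getD_eq_getElem _ _ hj] at h1
  exact (List.Nodup.getElem_inj_iff (vk H v).nodup).1 h1

lemma nb_ne (v : Fin (c.m + 1)) (j : ℕ) : c.poly.nb v j ≠ v := by
  intro h
  have h1 := nbi_ne H v j
  rw [← nb_val H, h] at h1
  exact h1 rfl

omit H in
lemma nb_per (v : Fin (c.m + 1)) : c.poly.nb v (c.v v).nb.length = c.poly.nb v 0 := by
  rw [nb_eq, nb_eq]
  unfold Chk.nbi
  rw [Nat.mod_self, Nat.zero_mod]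

lemma card3 (v : Fin (c.m + 1)) (i : ℕ) (hi : i < (c.v v).nb.length) :
    ({v, c.poly.nb v i, c.poly.nb v (i + 1)} : Finset (Fin (c.m + 1))).card = 3 := by
  have hk := (vk H v).k
  have hk1 := (vk H v).k1
  have hk2 := (vk H v).k2
  rw [Finset.card_eq_three]
  refine ⟨_, _, _, (nb_ne H v i).symm, (nb_ne H v (i + 1)).symm, ?_, rfl⟩
  intro h
  rcases Nat.lt_or_ge (i + 1) (c.v v).nb.length with h1 | h1
  · have := nb_inj H v hi h1 h
    omega
  · have h2 : i + 1 = (c.v v).nb.length := by omega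
    rw [h2, nb_per] at h
    have := nb_inj H v hi (Set.mem_Iio.2 (by omega)) h
    omega

lemma star_iff (v : Fin (c.m + 1)) (u w : Fin (c.m + 1)) (h : Chk.inStar (c.v v) u w = true) :
    ∃ i < (c.v v).nb.length, ({v, u, w} : Finset (Fin (c.m + 1))) =
      {v, c.poly.nb v i, c.poly.nb v (i + 1)} := by
  unfold Chk.inStar at h
  simp only [List.any_eq_true, List.mem_range, Bool.or_eq_true, Bool.and_eq_true, beq_iff_eq] at h
  obtain ⟨i, hi, h⟩ := h
  refine ⟨i, hi, ?_⟩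
  rcases h with ⟨h1, h2⟩ | ⟨h1, h2⟩
  · have e1 : c.poly.nb v i = u := Fin.ext (by rw [nb_val H, h1])
    have e2 : c.poly.nb v (i + 1) = w := Fin.ext (by rw [nb_val H, h2])
    rw [e1, e2]
  · have e1 : c.poly.nb v i = w := Fin.ext (by rw [nb_val H, h1])
    have e2 : c.poly.nb v (i + 1) = u := Fin.ext (by rw [nb_val H, h2])
    rw [e1, e2, Finset.pair_comm]

lemma hT2' (t : Finset (Fin (c.m + 1))) (ht : t ∈ c.poly.T) (v : Fin (c.m + 1)) (hv : v ∈ t) :
    ∃ i < (c.v v).nb.length, t = {v, c.poly.nb v i, c.poly.nb v (i + 1)} := by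
  obtain ⟨v0, j, hj, rfl⟩ := (mem_T t).1 ht
  simp only [Finset.mem_insert, Finset.mem_singleton] at hv
  rcases hv with rfl | rfl | rfl
  · exact ⟨j, hj, rfl⟩
  · have h := (vk H v0).star1 j hj
    rw [← v_nb H, ← nb_val H] at h
    obtain ⟨i, hi, h1⟩ := star_iff H _ _ _ h
    refine ⟨i, hi, ?_⟩
    rw [← h1, Finset.insert_comm]
  · have h := (vk H v0).star2 j hj
    rw [← v_nb H, ← nb_val H] at h
    obtain ⟨i, hi, h1⟩ := star_iff H _ _ _ h
    refine ⟨i, hi, ?_⟩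
    rw [← h1]
    ext a
    simp only [Finset.mem_insert, Finset.mem_singleton]
    tauto

omit H in
lemma r_eq (v : Fin (c.m + 1)) (e : Fin 3) :
    c.poly.r v e = c.poly.nb v (Chk.slot (c.v v) (e : ℕ)) := by
  fin_cases e <;> rfl

lemma op_val (v : Fin (c.m + 1)) (e : Fin 3) : ((c.poly.op v e : Fin 3) : ℕ) =
    Chk.opp (c.v v) (e : ℕ) := by
  have h := ((vk H v).op e e.2).1
  have h1 : ((c.poly.op v e : Fin 3) : ℕ) = (Chk.opp (c.v v) (e : ℕ)) % 3 := by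
    fin_cases e <;> rfl
  rw [h1, Nat.mod_eq_of_lt h]

omit H in
lemma A_eq (v : Fin (c.m + 1)) (e : Fin 3) :
    c.poly.A v e = innerSL ℝ (rv (Chk.fA (c.v v) (e : ℕ))) := by
  fin_cases e
  · have h : c.poly.A v 0 = (-c.poly.κ v) • innerSL ℝ (rv (c.v v).X) := rfl
    refine h.trans ?_
    rw [kap_eq]
    ext p
    simp only [smul_apply, innerSL_apply_apply, inner_rv, Chk.fA, Chk.sc]
    push_cast
    simp
    ring
  · rfl
  · rfl

omit H in
lemma B_eq (v : Fin (c.m + 1)) (e : Fin 3) :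
    c.poly.B v e = innerSL ℝ (rv (Chk.fB (c.v v) (e : ℕ))) := by
  fin_cases e
  · have h : c.poly.B v 0 = (-c.poly.κ v) • innerSL ℝ (rv (c.v v).Y) := rfl
    refine h.trans ?_
    rw [kap_eq]
    ext p
    simp only [smul_apply, innerSL_apply_apply, inner_rv, Chk.fB, Chk.sc]
    push_cast
    simp
    ring
  · rfl
  · rfl

lemma isSurf : c.poly.IsSurf where
  hN := Nat.succ_pos _
  hκ := fun v => by
    have h : c.poly.κ v = if (c.v v).s then (1 : ℝ) else -1 := rfl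
    rw [h]
    split_ifs
    · exact Or.inl rfl
    · exact Or.inr rfl
  hd := fun v => Classical.epsilon_spec (exists_d H v)
  hinj := fun v p h1 h2 h3 => zero_of H v p h1 h2 h3
  hcard := fun t ht => by
    obtain ⟨v, i, hi, rfl⟩ := (mem_T t).1 ht
    exact card3 H v i hi
  hne := fun v i _ => nb_ne H v i
  hper := fun v => nb_per v
  hnbinj := fun v => nb_inj H v
  hk := fun v => ⟨(vk H v).k1, (vk H v).k2, (vk H v).k⟩
  hT1 := fun v i hi => (mem_T _).2 ⟨v, i, hi, rfl⟩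
  hT2 := fun t ht v hv => hT2' H t ht v hv
  hX := fun v i hi => by
    have hi' : i ≤ (c.v v).k1 := hi
    have h := (vk H v).hX i (by have := (vk H v).k; have := (vk H v).k2; omega) hi'
    rw [DX_eq H, h, Int.cast_zero, zero_div]
  hZ := fun v i h1 h2 => by
    have h1' : (c.v v).k1 ≤ i := h1
    have h2' : i ≤ (c.v v).k2 := h2
    have h := (vk H v).hZ i (by have := (vk H v).k; omega) h1' h2'
    rw [DZ_eq H, h, Int.cast_zero, zero_div]
  hY := fun v i h1 h2 => by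
    have h := (vk H v).hY i h2 h1
    rw [DY_eq H, h, Int.cast_zero, zero_div]
  hr0 := fun v => by
    rw [DZ_eq H]
    exact div_neg_of_neg_of_pos (by exact_mod_cast (vk H v).r0) (W_pos H _ _)
  hr1 := fun v => by
    rw [DY_eq H, kap_eq, ← mul_div_assoc]
    exact div_pos (by exact_mod_cast (vk H v).r1) (W_pos H _ _)
  hr2 := fun v => by
    rw [DX_eq H, kap_eq, ← mul_div_assoc]
    exact div_pos (by exact_mod_cast (vk H v).r2) (W_pos H _ _)
  hfan1 := fun v i hi => by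
    rw [cr_eq H]
    exact div_pos (by exact_mod_cast (vk H v).fan1 i hi) (mul_pos (W_pos H _ _) (W_pos H _ _))
  hfan2 := fun v i h1 h2 => by
    have h2' : i < (c.v v).k3 := h2
    rw [cr_eq H]
    refine div_nonneg ?_ (mul_pos (W_pos H _ _) (W_pos H _ _)).le
    exact_mod_cast (vk H v).fan2 i (by have := (vk H v).k3'; omega) h1 h2'
  hfan3 := fun v i h1 h2 => by
    rw [cr_eq H]
    refine div_neg_of_neg_of_pos ?_ (mul_pos (W_pos H _ _) (W_pos H _ _))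
    exact_mod_cast (vk H v).fan3 i h2 h1
  hk3 := fun v => ⟨(vk H v).k3, (vk H v).k3'⟩
  hconv := fun v hv u => by
    have hs : (c.v v).s = false := by
      by_contra h
      have h2 : (c.v v).s = true := by simpa using h
      have h3 : c.poly.κ v = if (c.v v).s then (1 : ℝ) else -1 := rfl
      rw [h2, if_pos rfl, hv] at h3
      norm_num at h3
    have hu : c.v u ∈ c.vs := by
      unfold Cert.v
      rw [List.getD_eq_getElem _ _ (lt_n H u)]
      exact List.getElem_mem _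
    obtain ⟨h1, h2, h3⟩ := (vk H v).conv hs _ hu
    have hW : (0 : ℝ) ≤ (c.v u).w * (c.v v).w := (mul_pos (w_pos H u) (w_pos H v)).le
    have e1 : c.poly.X v (c.poly.P u - c.poly.P v) =
      inner ℝ (rv (c.v v).X) (c.poly.P u - c.poly.P v) := rfl
    have e2 : c.poly.Y v (c.poly.P u - c.poly.P v) =
      inner ℝ (rv (c.v v).Y) (c.poly.P u - c.poly.P v) := rfl
    have e3 : c.poly.Z v (c.poly.P u - c.poly.P v) =
      inner ℝ (rv (c.v v).Z) (c.poly.P u - c.poly.P v) := rfl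
    rw [e1, e2, e3, form H, form H, form H]
    exact ⟨div_nonpos_of_nonpos_of_nonneg (by exact_mod_cast h1) hW,
      div_nonpos_of_nonpos_of_nonneg (by exact_mod_cast h2) hW,
      div_nonpos_of_nonpos_of_nonneg (by exact_mod_cast h3) hW⟩
  hP := fun u v huv => by
    have key : ∀ a b : Fin (c.m + 1), (a : ℕ) < b → c.poly.P a ≠ c.poly.P b := by
      intro a b hab h
      have ha := (w_pos H a).ne'
      have hb := (w_pos H b).ne'
      have h0 := congrArg (fun p : E3 => p 0) h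
      have h1 := congrArg (fun p : E3 => p 1) h
      have h2 := congrArg (fun p : E3 => p 2) h
      have h0' : ((c.v a).x : ℝ) / (c.v a).w = (c.v b).x / (c.v b).w := h0
      have h1' : ((c.v a).y : ℝ) / (c.v a).w = (c.v b).y / (c.v b).w := h1
      have h2' : ((c.v a).z : ℝ) / (c.v a).w = (c.v b).z / (c.v b).w := h2
      rw [div_eq_div_iff ha hb] at h0' h1' h2'
      rcases H.hd a (lt_n H a) b (lt_n H b) hab with h | h | h
      · exact h (by exact_mod_cast h0')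
      · exact h (by exact_mod_cast h1')
      · exact h (by exact_mod_cast h2')
    rcases Nat.lt_trichotomy (u : ℕ) v with h | h | h
    · exact absurd huv (key u v h)
    · exact Fin.ext h
    · exact absurd huv.symm (key v u h)
  hconn := by
    have key : ∀ n : ℕ, ∀ v : Fin (c.m + 1), (v : ℕ) = n →
        Relation.ReflTransGen (fun a b => ∃ t ∈ c.poly.T, a ∈ t ∧ b ∈ t) v 0 := by
      intro n
      induction n using Nat.strong_induction_on with
      | _ n ih =>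
        intro v hv
        rcases (vk H v).conn with h | ⟨u, hu, huv⟩
        · have : v = 0 := Fin.ext h
          rw [this]
        · obtain ⟨i, hi, h⟩ := List.getElem_of_mem hu
          have h1 : Chk.nbi (c.v v) i = u := by
            unfold Chk.nbi
            rw [Nat.mod_eq_of_lt hi, List.getD_eq_getElem _ _ hi, h]
          have h2 : ((c.poly.nb v i : Fin (c.m + 1)) : ℕ) = u := by rw [nb_val H, h1]
          refine Relation.ReflTransGen.head
            ⟨{v, c.poly.nb v i, c.poly.nb v (i + 1)}, (mem_T _).2 ⟨v, i, hi, rfl⟩, by simp, ?_⟩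
            (ih u (by omega) (c.poly.nb v i) h2)
          simp
    intro u v
    refine (key _ u rfl).trans ?_
    refine rtg_symm ?_ (key _ v rfl)
    rintro a b ⟨t, ht, h1, h2⟩
    exact ⟨t, ht, h2, h1⟩
  hop := fun v e => by
    have h := ((vk H v).op e e.2).2.1
    refine Fin.ext ?_
    rw [r_eq (c.poly.r v e), nb_val H, r_eq v e, v_nb H, op_val H]
    exact h
  hform := fun v e => by
    have h := ((vk H v).op e e.2).2.2
    rw [A_eq, B_eq, A_eq, B_eq, r_eq v e, v_nb H, op_val H]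
    rcases h with ⟨h1, h2⟩ | ⟨h1, h2⟩
    · left
      rw [h1, h2]
      exact ⟨rfl, rfl⟩
    · right
      rw [h1, h2]
      exact ⟨rfl, rfl⟩

end main

end KSUM

theorem specKSU : SpecKSU := fun _ h => KSUM.isSurf (KSUM.sok h)

end Pool.Agent.Lib.MP_0b1f3c_gt.TI
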