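import Pool.Agent.Lib.MP_0b1f3c_gt.TI.SpecC

/-!
# LFT: lifting a moving frame to the unit quaternions
-/

set_option autoImplicit false

open scoped Manifold ContDiff InnerProductSpace Quaternion

noncomputable section

namespace Pool.Agent.Lib.MP_0b1f3c_gt.TI

namespace LFTM

/-- the imaginary quaternion of a vector -/
def hat (v : E3) : ℍ[ℝ] := ⟨0, v 0, v 1, v 2⟩

/-- the quaternion `j` -/
def qJ : ℍ[ℝ] := ⟨0, 0, 1, 0⟩

@[simp] theorem qI_re : qI.re = 0 := rfl
@[simp] theorem qI_imI : qI.imI = 1 := rfl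
@[simp] theorem qI_imJ : qI.imJ = 0 := rfl
@[simp] theorem qI_imK : qI.imK = 0 := rfl
@[simp] theorem qJ_re : qJ.re = 0 := rfl
@[simp] theorem qJ_imI : qJ.imI = 0 := rfl
@[simp] theorem qJ_imJ : qJ.imJ = 1 := rfl
@[simp] theorem qJ_imK : qJ.imK = 0 := rfl
@[simp] theorem qK_re : qK.re = 0 := rfl
@[simp] theorem qK_imI : qK.imI = 0 := rfl
@[simp] theorem qK_imJ : qK.imJ = 0 := rfl
@[simp] theorem qK_imK : qK.imK = 1 := rfl
@[simp] theorem hat_re (v : E3) : (hat v).re = 0 := rfl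
@[simp] theorem hat_imI (v : E3) : (hat v).imI = v 0 := rfl
@[simp] theorem hat_imJ (v : E3) : (hat v).imJ = v 1 := rfl
@[simp] theorem hat_imK (v : E3) : (hat v).imK = v 2 := rfl

theorem vec_hat (v : E3) : vec (hat v) = v := by
  ext i
  fin_cases i <;> simp [vec]

theorem vec_smul (c : ℝ) (p : ℍ[ℝ]) : vec (c • p) = c • vec p := by
  ext i
  fin_cases i <;> simp [vec]

theorem inner_E3 (x y : E3) : inner ℝ x y = x 0 * y 0 + x 1 * y 1 + x 2 * y 2 := by
  simp [PiLp.inner_apply, Fin.sum_univ_three]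
  ring

theorem inner_vec (p q : ℍ[ℝ]) (h : p.re = 0) : inner ℝ (vec p) (vec q) = (star p * q).re := by
  rw [inner_E3]
  simp [vec, h]

theorem re_comm (p q : ℍ[ℝ]) : (p * q).re = (q * p).re := by
  simp
  ring

theorem qI_qI : qI * qI = -1 := by
  ext <;> simp

theorem qJ_qJ : qJ * qJ = -1 := by
  ext <;> simp

theorem qK_qK : qK * qK = -1 := by
  ext <;> simp

theorem qJ_qI : qJ * qI = -qK := by
  ext <;> simp

theorem qK_qI : qK * qI = qJ := by
  ext <;> simp

theorem qI_qK : qI * qK = -qJ := by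
  ext <;> simp

theorem qJ_qK : qJ * qK = qI := by
  ext <;> simp

theorem qI_qJ : qI * qJ = qK := by
  ext <;> simp

theorem qK_qJ : qK * qJ = -qI := by
  ext <;> simp

theorem hat_sq {x : E3} (hx : ‖x‖ = 1) : hat x * hat x = -1 := by
  have h : x 0 * x 0 + x 1 * x 1 + x 2 * x 2 = 1 := by
    rw [← inner_E3, real_inner_self_eq_norm_sq, hx]
    norm_num
  ext
  · simp
    linarith
  · simp
    ring
  · simp
    ring
  · simp
    ring

theorem hat_anti {x n : E3} (h : inner ℝ x n = 0) : hat n * hat x = -(hat x * hat n) := by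
  rw [inner_E3] at h
  ext
  · simp
    linarith
  · simp
    ring
  · simp
    ring
  · simp
    ring

/-- four times the orthogonal projection of `w` to the line of the quaternions whose frame is
`x, n` -/
def PP (w : ℍ[ℝ]) (x n : E3) : ℍ[ℝ] :=
  w - hat x * w * qI - hat n * hat x * w * qJ - hat n * w * qK

theorem PP_I (w : ℍ[ℝ]) {x n : E3} (hx : ‖x‖ = 1) (h : inner ℝ x n = 0) :
    PP w x n * qI = hat x * PP w x n := by
  have h1 : ∀ z : ℍ[ℝ], hat x * (hat x * z) = -z := fun z => by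
    rw [← mul_assoc, hat_sq hx, neg_one_mul]
  have h2 : ∀ z : ℍ[ℝ], hat x * (hat n * z) = -(hat n * (hat x * z)) := fun z => by
    rw [← mul_assoc, ← mul_assoc, hat_anti h, neg_mul, neg_neg]
  unfold PP
  simp only [sub_mul, mul_sub, mul_assoc, qI_qI, qJ_qI, qK_qI, h1, h2, mul_neg, mul_one, neg_neg,
    sub_neg_eq_add]
  abel

theorem PP_K (w : ℍ[ℝ]) {x n : E3} (hn : ‖n‖ = 1) :
    PP w x n * qK = hat n * PP w x n := by
  have h1 : ∀ z : ℍ[ℝ], hat n * (hat n * z) = -z := fun z => by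
    rw [← mul_assoc, hat_sq hn, neg_one_mul]
  unfold PP
  simp only [sub_mul, mul_sub, mul_assoc, qK_qK, qJ_qK, qI_qK, h1, mul_neg, mul_one,
    sub_neg_eq_add]
  abel

theorem norm_qI : ‖qI‖ = 1 := by
  have h := congrArg norm qI_qI
  rw [norm_mul, norm_neg, norm_one] at h
  nlinarith [norm_nonneg qI]

theorem norm_qJ : ‖qJ‖ = 1 := by
  have h := congrArg norm qJ_qJ
  rw [norm_mul, norm_neg, norm_one] at h
  nlinarith [norm_nonneg qJ]

theorem norm_hat {x : E3} (hx : ‖x‖ = 1) : ‖hat x‖ = 1 := by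
  have h := congrArg norm (hat_sq hx)
  rw [norm_mul, norm_neg, norm_one] at h
  nlinarith [norm_nonneg (hat x)]

theorem inner_hat (w : ℍ[ℝ]) (x : E3) (k : ℍ[ℝ]) (hk : star k = -k) :
    inner ℝ w (hat x * w * k) = - inner ℝ x (vec (w * k * star w)) := by
  have h1 : star (hat x) = -hat x := by ext <;> simp
  have h2 : inner ℝ (vec (hat x)) (vec (w * k * star w)) = (star (hat x) * (w * k * star w)).re :=
    inner_vec _ _ rfl
  rw [vec_hat, h1] at h2
  rw [h2, Quaternion.inner_def, star_mul, star_mul, hk, h1]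
  have h3 : w * (-k * (star w * -hat x)) = (w * k * star w) * hat x := by
    simp only [neg_mul, mul_neg, neg_neg, mul_assoc]
  rw [h3, re_comm, neg_mul]
  simp

theorem star_qI : star qI = -qI := by ext <;> simp

theorem star_qK : star qK = -qK := by ext <;> simp

/-- the sign conditions -/
def Pos (w : ℍ[ℝ]) (x n : E3) : Prop := 0 < inner ℝ x (Frm.vI w w) ∧ 0 < inner ℝ n (Frm.vK w w)

theorem PP_ne {w : ℍ[ℝ]} {x n : E3} (hx : ‖x‖ = 1) (hn : ‖n‖ = 1) (hp : Pos w x n) :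
    PP w x n ≠ 0 := by
  intro h
  have h1 : inner ℝ w (PP w x n) = 0 := by rw [h, inner_zero_right]
  unfold PP at h1
  rw [inner_sub_right, inner_sub_right, inner_sub_right, inner_hat w x qI star_qI,
    inner_hat w n qK star_qK] at h1
  have h2 : inner ℝ w (hat n * hat x * w * qJ) ≤ ‖w‖ * ‖w‖ := by
    refine (real_inner_le_norm _ _).trans ?_
    rw [norm_mul, norm_mul, norm_mul, norm_hat hx, norm_hat hn, norm_qJ]
    simp
  have h3 : inner ℝ w w = ‖w‖ * ‖w‖ := real_inner_self_eq_norm_mul_norm w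
  have h4 := hp.1
  have h5 := hp.2
  unfold Frm.vI at h4
  unfold Frm.vK at h5
  linarith

/-- the lift -/
def UU (w : ℍ[ℝ]) (x n : E3) : ℍ[ℝ] := ‖PP w x n‖⁻¹ • PP w x n

theorem norm_UU {w : ℍ[ℝ]} {x n : E3} (h : PP w x n ≠ 0) : ‖UU w x n‖ = 1 := by
  unfold UU
  rw [norm_smul, norm_inv, norm_norm]
  exact inv_mul_cancel₀ (norm_ne_zero_iff.2 h)

theorem mul_star_of_norm {u : ℍ[ℝ]} (h : ‖u‖ = 1) : u * star u = 1 := by
  rw [Quaternion.self_mul_star, Quaternion.normSq_eq_norm_mul_self, h]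
  simp

theorem star_mul_of_norm {u : ℍ[ℝ]} (h : ‖u‖ = 1) : star u * u = 1 := by
  rw [Quaternion.star_mul_self, Quaternion.normSq_eq_norm_mul_self, h]
  simp

theorem UU_I {w : ℍ[ℝ]} {x n : E3} (hx : ‖x‖ = 1) (h : inner ℝ x n = 0) (h0 : PP w x n ≠ 0) :
    UU w x n * qI * star (UU w x n) = hat x := by
  have h1 : UU w x n * qI = hat x * UU w x n := by
    unfold UU
    rw [smul_mul_assoc, PP_I w hx h, mul_smul_comm]
  rw [h1, mul_assoc, mul_star_of_norm (norm_UU h0), mul_one]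

theorem UU_K {w : ℍ[ℝ]} {x n : E3} (hn : ‖n‖ = 1) (h0 : PP w x n ≠ 0) :
    UU w x n * qK * star (UU w x n) = hat n := by
  have h1 : UU w x n * qK = hat n * UU w x n := by
    unfold UU
    rw [smul_mul_assoc, PP_K w hn, mul_smul_comm]
  rw [h1, mul_assoc, mul_star_of_norm (norm_UU h0), mul_one]

theorem PP_eq {V w : ℍ[ℝ]} {x n : E3} (hV : ‖V‖ = 1) (hI : V * qI * star V = hat x)
    (hK : V * qK * star V = hat n) : PP w x n = (4 * (star V * w).re) • V := by
  have hVV := star_mul_of_norm hV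
  have hw : w = V * (star V * w) := by
    rw [← mul_assoc, mul_star_of_norm hV, one_mul]
  obtain ⟨a, ha⟩ : ∃ a, a = star V * w := ⟨_, rfl⟩
  rw [← ha] at hw ⊢
  have h1 : ∀ z : ℍ[ℝ], star V * (V * z) = z := fun z => by rw [← mul_assoc, hVV, one_mul]
  unfold PP
  rw [← hI, ← hK, hw]
  simp only [mul_assoc, h1]
  rw [← mul_assoc qK qI, qK_qI, ← mul_sub, ← mul_sub, ← mul_sub]
  have h2 : a - qI * (a * qI) - qJ * (a * qJ) - qK * (a * qK) = ((4 * a.re : ℝ) : ℍ[ℝ]) := by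
    ext
    · simp
      ring
    · simp
    · simp
    · simp
  rw [h2, Quaternion.mul_coe_eq_smul]

theorem inner_vI {V w w' : ℍ[ℝ]} {x : E3} (k : ℍ[ℝ]) (hk : star k = -k) (hV : ‖V‖ = 1)
    (hI : V * k * star V = hat x) : inner ℝ x (vec (w * k * star w')) =
      (-(k * ((star V * w) * k * star (star V * w')))).re := by
  have hVV := star_mul_of_norm hV
  have h1 : ∀ z : ℍ[ℝ], star V * (V * z) = z := fun z => by rw [← mul_assoc, hVV, one_mul]
  have hre : (V * k * star V).re = 0 := by rw [hI]; rfl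
  have h2 := inner_vec (V * k * star V) (w * k * star w') hre
  rw [hI, vec_hat, ← hI] at h2
  rw [h2, star_mul, star_mul, star_star, hk]
  have h3 : V * (-k * star V) * (w * k * star w') = V * (-(k * ((star V * w) * k * star w'))) := by
    simp only [neg_mul, mul_neg, mul_assoc]
  rw [h3, re_comm, star_mul, star_star]
  congr 1
  simp only [neg_mul, mul_assoc]
  try rfl

/-- the sign lemma -/
theorem sign_aux {a0 a1 a2 a3 b0 b1 b2 b3 : ℝ}
    (h1 : 0 < a0 * b0 + a1 * b1 - a2 * b2 - a3 * b3)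
    (h2 : 0 < a0 * b0 - a1 * b1 - a2 * b2 + a3 * b3)
    (h3 : 0 < a0 * a0 + a1 * a1 - a2 * a2 - a3 * a3)
    (h4 : 0 < a0 * a0 - a1 * a1 - a2 * a2 + a3 * a3)
    (h5 : 0 < b0 * b0 + b1 * b1 - b2 * b2 - b3 * b3)
    (h6 : 0 < b0 * b0 - b1 * b1 - b2 * b2 + b3 * b3) (ha : 0 < a0) : 0 < b0 := by
  by_contra hb
  push Not at hb
  have k1 : a2 * b2 < a0 * b0 := by linarith
  have k2 : a2 * a2 < a0 * a0 := by linarith
  have k3 : b2 * b2 < b0 * b0 := by linarith
  have k4 : a0 * b0 ≤ 0 := mul_nonpos_of_nonneg_of_nonpos ha.le hb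
  have k5 : (a0 * b0) * (a0 * b0) < (a2 * b2) * (a2 * b2) := by nlinarith
  have k6 : (a2 * a2) * (b2 * b2) ≤ (a0 * a0) * (b0 * b0) :=
    mul_le_mul k2.le k3.le (mul_self_nonneg _) (mul_self_nonneg _)
  nlinarith

theorem UU_glue {w w' : ℍ[ℝ]} {x n : E3} (hx : ‖x‖ = 1) (hn : ‖n‖ = 1) (h : inner ℝ x n = 0)
    (hp : Pos w x n) (hp' : Pos w' x n) (hI : 0 < inner ℝ x (Frm.vI w w'))
    (hK : 0 < inner ℝ n (Frm.vK w w')) : UU w x n = UU w' x n := by
  have h0 := PP_ne hx hn hp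
  have hV := norm_UU h0
  have eI := UU_I hx h h0
  have eK := UU_K hn h0
  have h0' := PP_ne hx hn hp'
  obtain ⟨V, hVd⟩ : ∃ V, V = UU w x n := ⟨_, rfl⟩
  rw [← hVd] at hV eI eK ⊢
  have e1 := PP_eq (w := w) hV eI eK
  have e2 := PP_eq (w := w') hV eI eK
  have f1 := inner_vI (w := w) (w' := w') qI star_qI hV eI
  have f2 := inner_vI (w := w) (w' := w') qK star_qK hV eK
  have f3 := inner_vI (w := w) (w' := w) qI star_qI hV eI
  have f4 := inner_vI (w := w) (w' := w) qK star_qK hV eK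
  have f5 := inner_vI (w := w') (w' := w') qI star_qI hV eI
  have f6 := inner_vI (w := w') (w' := w') qK star_qK hV eK
  have g1 := hI
  have g2 := hK
  have g3 := hp.1
  have g4 := hp.2
  have g5 := hp'.1
  have g6 := hp'.2
  unfold Frm.vI at g1 g3 g5
  unfold Frm.vK at g2 g4 g6
  rw [f1] at g1
  rw [f2] at g2
  rw [f3] at g3
  rw [f4] at g4
  rw [f5] at g5
  rw [f6] at g6
  obtain ⟨a, ha⟩ : ∃ a, a = star V * w := ⟨_, rfl⟩
  obtain ⟨b, hb⟩ : ∃ b, b = star V * w' := ⟨_, rfl⟩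
  rw [← ha] at g1 g2 g3 g4 e1
  rw [← hb] at g1 g2 g5 g6 e2
  have ha0 : 0 < a.re := by
    have h2 : V = ‖PP w x n‖⁻¹ • PP w x n := hVd
    rw [e1, smul_smul] at h2
    have h3 : ‖(4 * a.re) • V‖⁻¹ * (4 * a.re) = 1 := by
      by_contra hne
      have hV0 : V ≠ 0 := by
        rintro rfl
        simp at hV
      apply hne
      have h4 : (‖(4 * a.re) • V‖⁻¹ * (4 * a.re) - 1) • V = 0 := by
        rw [sub_smul, ← h2, one_smul, sub_self]
      rcases smul_eq_zero.1 h4 with h5 | h5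
      · linarith
      · exact absurd h5 hV0
    by_contra hle
    push Not at hle
    have h4 : 0 ≤ ‖(4 * a.re) • V‖⁻¹ := inv_nonneg.2 (norm_nonneg _)
    nlinarith
  have hb0 : 0 < b.re := by
    refine sign_aux (a0 := a.re) (a1 := a.imI) (a2 := a.imJ) (a3 := a.imK) (b0 := b.re)
      (b1 := b.imI) (b2 := b.imJ) (b3 := b.imK) ?_ ?_ ?_ ?_ ?_ ?_ ha0
    · simp at g1
      linarith
    · simp at g2
      linarith
    · simp at g3
      linarith
    · simp at g4
      linarith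
    · simp at g5
      linarith
    · simp at g6
      linarith
  unfold UU
  rw [e2, norm_smul, hV, mul_one, Real.norm_of_nonneg (by positivity), smul_smul,
    inv_mul_cancel₀ (by positivity), one_smul]

theorem hat_neg (n : E3) : hat (-n) = -hat n := by
  ext <;> simp

theorem UU_of_PP {w om : ℍ[ℝ]} {x n n' : E3} (hom : ‖om‖ = 1) (h : PP (w * om) x n' = PP w x n * om) :
    UU (w * om) x n' = UU w x n * om := by
  unfold UU
  rw [h, norm_mul, hom, mul_one, smul_mul_assoc]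

/-- the holonomy -/
theorem UU_omega (w : ℍ[ℝ]) (x n : E3) (q : ZMod 4) :
    UU (w * omega q) x ((if q = 0 ∨ q = 2 then (1 : ℝ) else -1) • n) = UU w x n * omega q := by
  have hq : q = 0 ∨ q = 1 ∨ q = 2 ∨ q = 3 := by
    revert q
    decide
  have e1 : PP (w * qI) x (-n) = PP w x n * qI := by
    unfold PP
    rw [hat_neg]
    simp only [sub_mul, mul_assoc, qI_qI, qJ_qI, qK_qI, qI_qJ, qI_qK, mul_neg, mul_one, neg_mul,
      neg_neg, sub_neg_eq_add]
    try abel
  have e3 : PP (w * -qI) x (-n) = PP w x n * -qI := by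
    have e2 : PP (w * -qI) x (-n) = -PP (w * qI) x (-n) := by
      unfold PP
      simp only [mul_neg, neg_mul, neg_sub]
      try abel
    rw [e2, e1, mul_neg]
  have hI : ‖-qI‖ = 1 := by rw [norm_neg, norm_qI]
  have key : ∀ o : ℍ[ℝ], o = qI ∨ o = -qI → UU (w * o) x (-n) = UU w x n * o := by
    rintro o (rfl | rfl)
    · exact UU_of_PP norm_qI e1
    · exact UU_of_PP hI e3
  rcases hq with rfl | rfl | rfl | rfl
  · have : omega 0 = -1 := by simp [omega]
    rw [this]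
    simp only [true_or, if_true, one_smul]
    refine UU_of_PP (by simp) ?_
    unfold PP
    simp only [mul_neg, mul_one, neg_mul, neg_sub]
    abel
  · have : omega 1 = qI ∨ omega 1 = -qI := by
      unfold omega
      rw [if_neg (by decide), if_pos rfl]
      simp
    rw [if_neg (by decide), neg_one_smul]
    exact key _ this
  · have : omega 2 = 1 := by
      unfold omega
      rw [if_neg (by decide), if_neg (by decide), if_pos rfl]
    rw [this, if_pos (by decide), one_smul, mul_one, mul_one]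
  · have : omega 3 = qI ∨ omega 3 = -qI := by
      unfold omega
      rw [if_neg (by decide), if_neg (by decide), if_neg (by decide)]
      simp
    rw [if_neg (by decide), neg_one_smul]
    exact key _ this

theorem continuous_hat : Continuous hat := by
  have h : hat = fun v : E3 => (v 0) • qI + (v 1) • qJ + (v 2) • qK := by
    funext v
    ext <;> simp
  rw [h]
  fun_prop

theorem cont_UU {X Nn : ℝ → E3} {t : ℝ} (w : ℍ[ℝ]) (hX : ContinuousAt X t)
    (hN : ContinuousAt Nn t) (h : PP w (X t) (Nn t) ≠ 0) :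
    ContinuousAt (fun s => UU w (X s) (Nn s)) t := by
  have h1 : ContinuousAt (fun s => hat (X s)) t := continuous_hat.continuousAt.comp hX
  have h2 : ContinuousAt (fun s => hat (Nn s)) t := continuous_hat.continuousAt.comp hN
  have h3 : ContinuousAt (fun s => PP w (X s) (Nn s)) t := by
    unfold PP
    fun_prop
  unfold UU
  exact (h3.norm.inv₀ (norm_ne_zero_iff.2 h)).smul h3

end LFTM

open LFTM

theorem specLFT : SpecLFT := by
  intro L hL X Nn w q hX hN horth hXp hNp hw hpos hmid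
  have hLr : (0 : ℝ) < L := by exact_mod_cast hL
  -- unit vectors
  have hpos' : ∀ (i : ℤ) (t : ℝ), (i : ℝ) ≤ L * t + 1 / 2 → L * t + 1 / 2 ≤ i + 1 →
      0 < inner ℝ (X t) (Frm.vI (w i) (w i)) ∧ 0 < inner ℝ (Nn t) (Frm.vK (w i) (w i)) := by
    intro i t h1 h2
    apply hpos i t
    · rw [div_le_iff₀ hLr]
      linarith
    · rw [le_div_iff₀ hLr]
      linarith
  have hXn : ∀ t, X t ≠ 0 := by
    intro t h
    have := (hpos' ⌊L * t + 1 / 2⌋ t (Int.floor_le _) (Int.lt_floor_add_one _).le).1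
    rw [h, inner_zero_left] at this
    exact lt_irrefl _ this
  have hNn : ∀ t, Nn t ≠ 0 := by
    intro t h
    have := (hpos' ⌊L * t + 1 / 2⌋ t (Int.floor_le _) (Int.lt_floor_add_one _).le).2
    rw [h, inner_zero_left] at this
    exact lt_irrefl _ this
  obtain ⟨x, hx⟩ : ∃ x : ℝ → E3, x = fun t => ‖X t‖⁻¹ • X t := ⟨_, rfl⟩
  obtain ⟨n, hn⟩ : ∃ n : ℝ → E3, n = fun t => ‖Nn t‖⁻¹ • Nn t := ⟨_, rfl⟩
  have hx1 : ∀ t, ‖x t‖ = 1 := by
    intro t
    rw [hx]
    show ‖‖X t‖⁻¹ • X t‖ = 1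
    rw [norm_smul, norm_inv, norm_norm]
    exact inv_mul_cancel₀ (norm_ne_zero_iff.2 (hXn t))
  have hn1 : ∀ t, ‖n t‖ = 1 := by
    intro t
    rw [hn]
    show ‖‖Nn t‖⁻¹ • Nn t‖ = 1
    rw [norm_smul, norm_inv, norm_norm]
    exact inv_mul_cancel₀ (norm_ne_zero_iff.2 (hNn t))
  have hxn : ∀ t, inner ℝ (x t) (n t) = 0 := by
    intro t
    rw [hx, hn]
    show inner ℝ (‖X t‖⁻¹ • X t) (‖Nn t‖⁻¹ • Nn t) = 0
    rw [inner_smul_left, inner_smul_right, horth]
    simp
  have hxc : Continuous x := by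
    rw [hx]
    exact (hX.norm.inv₀ (fun t => norm_ne_zero_iff.2 (hXn t))).smul hX
  have hnc : Continuous n := by
    rw [hn]
    exact (hN.norm.inv₀ (fun t => norm_ne_zero_iff.2 (hNn t))).smul hN
  have hxp : ∀ t, x (t + 1) = x t := by
    intro t
    rw [hx]
    show ‖X (t + 1)‖⁻¹ • X (t + 1) = ‖X t‖⁻¹ • X t
    rw [hXp]
  have hnp : ∀ t, n (t + 1) = (if q = 0 ∨ q = 2 then (1 : ℝ) else -1) • n t := by
    intro t
    rw [hn]
    show ‖Nn (t + 1)‖⁻¹ • Nn (t + 1) = (if q = 0 ∨ q = 2 then (1 : ℝ) else -1) • ‖Nn t‖⁻¹ • Nn t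
    rw [hNp, norm_smul]
    split_ifs
    · simp
    · simp
  have hP : ∀ (i : ℤ) (t : ℝ), (i : ℝ) ≤ L * t + 1 / 2 → L * t + 1 / 2 ≤ i + 1 →
      Pos (w i) (x t) (n t) := by
    intro i t h1 h2
    obtain ⟨h3, h4⟩ := hpos' i t h1 h2
    rw [hx, hn]
    constructor
    · show 0 < inner ℝ (‖X t‖⁻¹ • X t) _
      rw [inner_smul_left]
      exact mul_pos (inv_pos.2 (norm_pos_iff.2 (hXn t))) h3
    · show 0 < inner ℝ (‖Nn t‖⁻¹ • Nn t) _
      rw [inner_smul_left]
      exact mul_pos (inv_pos.2 (norm_pos_iff.2 (hNn t))) h4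
  have hglue : ∀ (i : ℤ) (t : ℝ), L * t + 1 / 2 = i + 1 →
      UU (w i) (x t) (n t) = UU (w (i + 1)) (x t) (n t) := by
    intro i t ht
    have h1 := hP i t (by linarith) ht.le
    have h2 := hP (i + 1) t (by push_cast; linarith) (by push_cast; linarith)
    have h3 := hmid i
    have h4 : ((i : ℝ) + 1 / 2) / L = t := by
      rw [div_eq_iff hLr.ne']
      linarith
    rw [h4] at h3
    refine UU_glue (hx1 t) (hn1 t) (hxn t) h1 h2 ?_ ?_
    · rw [hx]
      show 0 < inner ℝ (‖X t‖⁻¹ • X t) _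
      rw [inner_smul_left]
      exact mul_pos (inv_pos.2 (norm_pos_iff.2 (hXn t))) h3.1
    · rw [hn]
      show 0 < inner ℝ (‖Nn t‖⁻¹ • Nn t) _
      rw [inner_smul_left]
      exact mul_pos (inv_pos.2 (norm_pos_iff.2 (hNn t))) h3.2
  have hc : ∀ (i : ℤ) (t : ℝ), (i : ℝ) ≤ L * t + 1 / 2 → L * t + 1 / 2 ≤ i + 1 →
      ContinuousAt (fun s => UU (w i) (x s) (n s)) t := fun i t h1 h2 =>
    cont_UU (w i) hxc.continuousAt hnc.continuousAt (PP_ne (hx1 t) (hn1 t) (hP i t h1 h2))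
  refine ⟨fun t => UU (w ⌊L * t + 1 / 2⌋) (x t) (n t), ?_, ?_, ?_, ?_, ?_⟩
  · rw [continuous_iff_continuousAt]
    intro t
    obtain ⟨i, hi⟩ : ∃ i, i = ⌊L * t + 1 / 2⌋ := ⟨_, rfl⟩
    have hi1 : (i : ℝ) ≤ L * t + 1 / 2 := hi ▸ Int.floor_le _
    have hi2 : L * t + 1 / 2 < i + 1 := hi ▸ Int.lt_floor_add_one _
    have hcf : Continuous (fun s : ℝ => L * s + 1 / 2) := by fun_prop
    have hev1 : ∀ᶠ s : ℝ in nhds t, (L : ℝ) * s + 1 / 2 < (i : ℝ) + 1 :=
      hcf.continuousAt.eventually_lt continuousAt_const hi2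
    rcases hi1.lt_or_eq with hlt | heq
    · have hev2 : ∀ᶠ s : ℝ in nhds t, (i : ℝ) < (L : ℝ) * s + 1 / 2 :=
        continuousAt_const.eventually_lt hcf.continuousAt hlt
      refine (hc i t hi1 hi2.le).congr ?_
      filter_upwards [hev1, hev2] with s h1 h2
      have : ⌊L * s + 1 / 2⌋ = i := Int.floor_eq_iff.2 ⟨h2.le, h1⟩
      rw [this]
    · have hev2 : ∀ᶠ s : ℝ in nhds t, ((i - 1 : ℤ) : ℝ) < L * s + 1 / 2 := by
        have hc2 : Continuous (fun _ : ℝ => ((i - 1 : ℤ) : ℝ)) := continuous_const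
        refine hc2.continuousAt.eventually_lt hcf.continuousAt ?_
        push_cast
        linarith
      have g1 := hc i t hi1 hi2.le
      have g2 := hc (i - 1) t (by push_cast; linarith) (by push_cast; linarith)
      have g3 := hglue (i - 1) t (by push_cast; linarith)
      rw [sub_add_cancel] at g3
      rw [ContinuousAt] at g1 g2 ⊢
      have e0 : UU (w ⌊L * t + 1 / 2⌋) (x t) (n t) = UU (w i) (x t) (n t) := by rw [← hi]
      show Filter.Tendsto _ _ (nhds (UU (w ⌊L * t + 1 / 2⌋) (x t) (n t)))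
      rw [e0]
      change Filter.Tendsto _ _ (nhds (UU (w (i - 1)) (x t) (n t))) at g2
      rw [g3] at g2
      intro U hU
      have k1 := g1 hU
      have k2 := g2 hU
      rw [Filter.mem_map] at k1 k2 ⊢
      filter_upwards [hev1, hev2, k1, k2] with s h1 h2 h3 h4
      show UU (w ⌊L * s + 1 / 2⌋) (x s) (n s) ∈ U
      rcases lt_or_ge (L * s + 1 / 2) (i : ℝ) with h5 | h5
      · have : ⌊L * s + 1 / 2⌋ = i - 1 := Int.floor_eq_iff.2 ⟨h2.le, by push_cast; linarith⟩
        rw [this]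
        exact h4
      · have : ⌊L * s + 1 / 2⌋ = i := Int.floor_eq_iff.2 ⟨h5, h1⟩
        rw [this]
        exact h3
  · intro t
    exact norm_UU (PP_ne (hx1 t) (hn1 t)
      (hP _ t (Int.floor_le _) (Int.lt_floor_add_one _).le))
  · intro t
    have h0 := PP_ne (hx1 t) (hn1 t) (hP _ t (Int.floor_le _) (Int.lt_floor_add_one _).le)
    show vec (UU (w ⌊L * t + 1 / 2⌋) (x t) (n t) * qI * star _) = _
    rw [UU_I (hx1 t) (hxn t) h0, vec_hat, hx]
  · intro t
    have h0 := PP_ne (hx1 t) (hn1 t) (hP _ t (Int.floor_le _) (Int.lt_floor_add_one _).le)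
    show vec (UU (w ⌊L * t + 1 / 2⌋) (x t) (n t) * qK * star _) = _
    rw [UU_K (hn1 t) h0, vec_hat, hn]
  · intro t
    have e : ⌊L * (t + 1) + 1 / 2⌋ = ⌊L * t + 1 / 2⌋ + (L : ℤ) := by
      have : (L : ℝ) * (t + 1) + 1 / 2 = L * t + 1 / 2 + ((L : ℤ) : ℝ) := by
        push_cast
        ring
      rw [this, Int.floor_add_intCast]
    show UU (w ⌊L * (t + 1) + 1 / 2⌋) (x (t + 1)) (n (t + 1)) = _
    rw [e, hw, hxp, hnp]
    exact UU_omega _ _ _ q

end Pool.Agent.Lib.MP_0b1f3c_gt.TI
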