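import Pool.Agent.Lib.MP_0b1f3c_gt.TI.LOC

/-!
# LMX: local maxima of linear functions on the smoothed cone
-/

open scoped Manifold ContDiff InnerProductSpace Topology
open Filter Set

noncomputable section

namespace Pool.Agent.Lib.MP_0b1f3c_gt.TI

namespace LMXM

open LOCM

variable {ψ : ℝ → ℝ} {δ : ℝ}

theorem D_deriv (hψ : IsPsi ψ) (hδ : 0 < δ) (t : ℝ) :
    HasDerivAt (psiD ψ δ) (deriv ψ (t / δ)) t := by
  have h1 : HasDerivAt ψ (deriv ψ (t / δ)) (t / δ) :=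
    (hψ.smooth.differentiable (by simp)).differentiableAt.hasDerivAt
  have h2 : HasDerivAt (fun t : ℝ => t / δ) (1 / δ) t := (hasDerivAt_id t).div_const δ
  have h3 := (h1.comp t h2).const_mul δ
  have h4 : δ * (deriv ψ (t / δ) * (1 / δ)) = deriv ψ (t / δ) := by
    field_simp
  rw [h4] at h3
  exact h3

theorem D_cont (hψ : IsPsi ψ) : Continuous (psiD ψ δ) := (D_smooth hψ).continuous

/-- the one variable functions -/
def E (ψ : ℝ → ℝ) (δ a b t : ℝ) : ℝ := a * psiD ψ δ (-t) + b * psiD ψ δ t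

theorem E_deriv (hψ : IsPsi ψ) (F : PsiFacts ψ) (hδ : 0 < δ) (a b t : ℝ) :
    HasDerivAt (E ψ δ a b) (-a + (a + b) * deriv ψ (t / δ)) t := by
  have h1 : HasDerivAt (fun t => psiD ψ δ (-t)) (-deriv ψ (-(t / δ))) t := by
    have h := (D_deriv hψ hδ (-t)).comp t (hasDerivAt_neg t)
    rw [neg_div, mul_neg_one] at h
    exact h
  have h2 := (h1.const_mul a).add ((D_deriv hψ hδ t).const_mul b)
  have h3 := F.dsym (t / δ)
  have h4 : a * -deriv ψ (-(t / δ)) + b * deriv ψ (t / δ) = -a + (a + b) * deriv ψ (t / δ) := by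
    have : deriv ψ (-(t / δ)) = 1 - deriv ψ (t / δ) := by linarith
    rw [this]
    ring
  rw [h4] at h2
  exact h2

/-- a local maximum of `E` -/
theorem loc (hψ : IsPsi ψ) (F : PsiFacts ψ) (hδ : 0 < δ) {a b t₀ : ℝ} (ha : a ≠ 0) (hb : b ≠ 0)
    (h : IsLocalMax (E ψ δ a b) t₀) :
    a < 0 ∧ b < 0 ∧ |t₀| < δ ∧ deriv ψ (t₀ / δ) = a / (a + b) := by
  have h0 : -a + (a + b) * deriv ψ (t₀ / δ) = 0 := h.hasDerivAt_eq_zero (E_deriv hψ F hδ a b t₀)
  have h1 : t₀ < δ := by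
    by_contra h1
    have h2 : 1 ≤ t₀ / δ := by
      rw [le_div_iff₀ hδ]
      linarith
    rw [F.d1 _ h2] at h0
    apply hb
    linarith
  have h2 : -δ < t₀ := by
    by_contra h2
    have h3 : t₀ / δ ≤ -1 := by
      rw [div_le_iff₀ hδ]
      linarith
    rw [F.d0 _ h3] at h0
    apply ha
    linarith
  have h3 : -1 < t₀ / δ := by
    rw [lt_div_iff₀ hδ]
    linarith
  have h4 : t₀ / δ < 1 := by
    rw [div_lt_iff₀ hδ]
    linarith
  obtain ⟨hp0, hp1⟩ := F.dio _ h3 h4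
  have hab : a + b ≠ 0 := by
    intro hab
    rw [hab, zero_mul] at h0
    apply ha
    linarith
  have hpe : deriv ψ (t₀ / δ) = a / (a + b) := by
    rw [eq_div_iff hab]
    linarith
  have hneg : a + b < 0 := by
    by_contra hpos
    have hpos' : 0 < a + b := lt_of_le_of_ne (not_lt.1 hpos) hab.symm
    have hmono : StrictMonoOn (E ψ δ a b) (Icc t₀ δ) := by
      refine strictMonoOn_of_deriv_pos (convex_Icc _ _) ?_ ?_
      · exact fun x _ => (E_deriv hψ F hδ a b x).continuousAt.continuousWithinAt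
      · intro x hx
        rw [interior_Icc] at hx
        rw [(E_deriv hψ F hδ a b x).deriv]
        have h5 : deriv ψ (t₀ / δ) < deriv ψ (x / δ) := by
          refine hψ.dmono ⟨h3.le, h4.le⟩ ⟨?_, ?_⟩ (div_lt_div_of_pos_right hx.1 hδ)
          · rw [le_div_iff₀ hδ]
            linarith [hx.1]
          · rw [div_le_iff₀ hδ]
            linarith [hx.2]
        have := mul_lt_mul_of_pos_left h5 hpos'
        linarith
    have h6 : ∀ᶠ t in 𝓝[>] t₀, E ψ δ a b t ≤ E ψ δ a b t₀ := h.filter_mono nhdsWithin_le_nhds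
    have h7 : ∀ᶠ t in 𝓝[>] t₀, t ∈ Ioo t₀ δ := Ioo_mem_nhdsGT h1
    obtain ⟨t, ht1, ht2⟩ := (h6.and h7).exists
    have := hmono (left_mem_Icc.2 h1.le) ⟨ht2.1.le, ht2.2.le⟩ ht2.1
    linarith
  refine ⟨?_, ?_, abs_lt.2 ⟨h2, h1⟩, hpe⟩
  · have := mul_neg_of_neg_of_pos hneg hp0
    linarith
  · have h5 : (a + b) * (1 - deriv ψ (t₀ / δ)) < 0 := mul_neg_of_neg_of_pos hneg (by linarith)
    nlinarith

theorem det (hψ : IsPsi ψ) (hδ : 0 < δ) {s t : ℝ} (hs : |s| < δ) (ht : |t| < δ)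
    (h : deriv ψ (s / δ) = deriv ψ (t / δ)) : s = t := by
  have key : ∀ r : ℝ, |r| < δ → r / δ ∈ Icc (-1 : ℝ) 1 := by
    intro r hr
    obtain ⟨h1, h2⟩ := abs_lt.1 hr
    constructor
    · rw [le_div_iff₀ hδ]
      linarith
    · rw [div_le_iff₀ hδ]
      linarith
  have h1 := hψ.dmono.injOn (key s hs) (key t ht) h
  field_simp at h1
  exact h1

theorem D_bd (F : PsiFacts ψ) (hδ : 0 < δ) {t : ℝ} (ht : |t| < δ) :
    0 ≤ psiD ψ δ t ∧ psiD ψ δ t ≤ 2 * δ := by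
  refine ⟨D_nonneg F hδ t, ?_⟩
  have h1 := D_le F hδ t
  have h2 := (abs_lt.1 ht).2
  have h3 : max 0 t ≤ δ := max_le hδ.le h2.le
  linarith

theorem locMax_add_const {f : ℝ → ℝ} {c t : ℝ} (h : IsLocalMax (fun s => f s + c) t) :
    IsLocalMax f t := by
  filter_upwards [h] with s hs
  linarith

/-- the saddle -/
theorem saddle (hψ : IsPsi ψ) (F : PsiFacts ψ) (hδ : 0 < δ) {α β γ x y z : ℝ} (hα : α ≠ 0)
    (hβ : β ≠ 0) (hγ : γ ≠ 0) (h0 : locF ψ δ 1 x y z = 0)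
    (h : ∀ᶠ p : ℝ × ℝ × ℝ in 𝓝 (x, y, z), locF ψ δ 1 p.1 p.2.1 p.2.2 = 0 →
      α * p.1 + β * p.2.1 + γ * p.2.2 ≤ α * x + β * y + γ * z) : False := by
  unfold locF at h0
  simp only [if_true] at h0
  set m := mn ψ δ x y with hm
  set s₀ := m - z with hs₀
  set τ₀ := y - x with hτ₀
  have hz : z = -psiD ψ δ s₀ := by
    unfold mx at h0
    linarith
  have hm' : m = -psiD ψ δ (-s₀) := by
    have := D_sym hψ hδ s₀
    linarith
  have hy : y = -psiD ψ δ (-s₀) + psiD ψ δ τ₀ := by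
    rw [← hm', hm]
    unfold mn
    rw [← hτ₀]
    ring
  have hx : x = -psiD ψ δ (-s₀) + psiD ψ δ (-τ₀) := by
    have := D_sym hψ hδ τ₀
    linarith
  have hzero : ∀ s τ : ℝ, locF ψ δ 1 (-psiD ψ δ (-s) + psiD ψ δ (-τ))
      (-psiD ψ δ (-s) + psiD ψ δ τ) (-psiD ψ δ s) = 0 := by
    intro s τ
    unfold locF
    simp only [if_true]
    have h1 : mn ψ δ (-psiD ψ δ (-s) + psiD ψ δ (-τ)) (-psiD ψ δ (-s) + psiD ψ δ τ) =
        -psiD ψ δ (-s) := by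
      unfold mn
      have h2 : -psiD ψ δ (-s) + psiD ψ δ τ - (-psiD ψ δ (-s) + psiD ψ δ (-τ)) = τ := by
        have := D_sym hψ hδ τ
        linarith
      rw [h2]
      ring
    rw [h1]
    unfold mx
    have h2 : -psiD ψ δ (-s) - -psiD ψ δ s = s := by
      have := D_sym hψ hδ s
      linarith
    rw [h2]
    ring
  have hc := D_cont (δ := δ) hψ
  have hτ : IsLocalMax (E ψ δ α β) τ₀ := by
    have hlim : Tendsto (fun τ : ℝ => (-psiD ψ δ (-s₀) + psiD ψ δ (-τ),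
        -psiD ψ δ (-s₀) + psiD ψ δ τ, -psiD ψ δ s₀)) (𝓝 τ₀) (𝓝 (x, y, z)) := by
      have h1 : Continuous (fun τ : ℝ => (-psiD ψ δ (-s₀) + psiD ψ δ (-τ),
        -psiD ψ δ (-s₀) + psiD ψ δ τ, -psiD ψ δ s₀)) := by
        refine (continuous_const.add (hc.comp continuous_neg)).prodMk
          ((continuous_const.add hc).prodMk continuous_const)
      have h2 := h1.tendsto τ₀
      have h3 : (-psiD ψ δ (-s₀) + psiD ψ δ (-τ₀), -psiD ψ δ (-s₀) + psiD ψ δ τ₀,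
          -psiD ψ δ s₀) = (x, y, z) := by rw [← hx, ← hy, ← hz]
      rw [← h3]
      exact h2
    refine locMax_add_const (c := -(α + β) * psiD ψ δ (-s₀) - γ * psiD ψ δ s₀) ?_
    filter_upwards [hlim.eventually h] with τ hτ
    have h1 := hτ (hzero s₀ τ)
    rw [hx, hy, hz] at h1
    unfold E
    linarith
  obtain ⟨ha, hb, -, -⟩ := loc hψ F hδ hα hβ hτ
  have hs : IsLocalMax (E ψ δ (-(α + β)) (-γ)) s₀ := by
    have hlim : Tendsto (fun s : ℝ => (-psiD ψ δ (-s) + psiD ψ δ (-τ₀),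
        -psiD ψ δ (-s) + psiD ψ δ τ₀, -psiD ψ δ s)) (𝓝 s₀) (𝓝 (x, y, z)) := by
      have h1 : Continuous (fun s : ℝ => (-psiD ψ δ (-s) + psiD ψ δ (-τ₀),
        -psiD ψ δ (-s) + psiD ψ δ τ₀, -psiD ψ δ s)) := by
        refine ((hc.comp continuous_neg).neg.add continuous_const).prodMk
          (((hc.comp continuous_neg).neg.add continuous_const).prodMk hc.neg)
      have h2 := h1.tendsto s₀
      have h3 : (-psiD ψ δ (-s₀) + psiD ψ δ (-τ₀), -psiD ψ δ (-s₀) + psiD ψ δ τ₀,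
          -psiD ψ δ s₀) = (x, y, z) := by rw [← hx, ← hy, ← hz]
      rw [← h3]
      exact h2
    refine locMax_add_const (c := α * psiD ψ δ (-τ₀) + β * psiD ψ δ τ₀) ?_
    filter_upwards [hlim.eventually h] with s hs
    have h1 := hs (hzero s τ₀)
    rw [hx, hy, hz] at h1
    unfold E
    linarith
  have hne : -(α + β) ≠ 0 := by
    intro h
    linarith
  obtain ⟨ha', -, -, -⟩ := loc hψ F hδ hne (neg_ne_zero.2 hγ) hs
  linarith

/-- the convex corner -/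
theorem convex (hψ : IsPsi ψ) (F : PsiFacts ψ) (hδ : 0 < δ) {α β γ x y z : ℝ} (hα : α ≠ 0)
    (hβ : β ≠ 0) (hγ : γ ≠ 0) (h0 : locF ψ δ (-1) x y z = 0)
    (h : ∀ᶠ p : ℝ × ℝ × ℝ in 𝓝 (x, y, z), locF ψ δ (-1) p.1 p.2.1 p.2.2 = 0 →
      α * p.1 + β * p.2.1 + γ * p.2.2 ≤ α * x + β * y + γ * z) :
    0 < α ∧ 0 < β ∧ 0 < γ ∧ ∃ s₀ τ₀ : ℝ, |s₀| < δ ∧ |τ₀| < δ ∧
      deriv ψ (τ₀ / δ) = -β / (-β + -α) ∧
      deriv ψ (s₀ / δ) = -(α + β) / (-(α + β) + -γ) ∧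
      x = -psiD ψ δ (-s₀) - psiD ψ δ τ₀ ∧ y = -psiD ψ δ (-s₀) - psiD ψ δ (-τ₀) ∧
      z = -psiD ψ δ s₀ := by
  have hne1 : ¬ ((-1 : ℝ) = 1) := by norm_num
  unfold locF at h0
  rw [if_neg hne1] at h0
  set m := mx ψ δ x y with hm
  set s₀ := m - z with hs₀
  set τ₀ := y - x with hτ₀
  have hz : z = -psiD ψ δ s₀ := by
    unfold mx at h0
    linarith
  have hm' : m = -psiD ψ δ (-s₀) := by
    have := D_sym hψ hδ s₀
    linarith
  have hx : x = -psiD ψ δ (-s₀) - psiD ψ δ τ₀ := by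
    rw [← hm', hm]
    unfold mx
    rw [← hτ₀]
    ring
  have hy : y = -psiD ψ δ (-s₀) - psiD ψ δ (-τ₀) := by
    have := D_sym hψ hδ τ₀
    linarith
  have hzero : ∀ s τ : ℝ, locF ψ δ (-1) (-psiD ψ δ (-s) - psiD ψ δ τ)
      (-psiD ψ δ (-s) - psiD ψ δ (-τ)) (-psiD ψ δ s) = 0 := by
    intro s τ
    unfold locF
    rw [if_neg hne1]
    have h1 : mx ψ δ (-psiD ψ δ (-s) - psiD ψ δ τ) (-psiD ψ δ (-s) - psiD ψ δ (-τ)) =
        -psiD ψ δ (-s) := by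
      unfold mx
      have h2 : -psiD ψ δ (-s) - psiD ψ δ (-τ) - (-psiD ψ δ (-s) - psiD ψ δ τ) = τ := by
        have := D_sym hψ hδ τ
        linarith
      rw [h2]
      ring
    rw [h1]
    unfold mx
    have h2 : -psiD ψ δ (-s) - -psiD ψ δ s = s := by
      have := D_sym hψ hδ s
      linarith
    rw [h2]
    ring
  have hc := D_cont (δ := δ) hψ
  have h3 : (-psiD ψ δ (-s₀) - psiD ψ δ τ₀, -psiD ψ δ (-s₀) - psiD ψ δ (-τ₀),
      -psiD ψ δ s₀) = (x, y, z) := by rw [← hx, ← hy, ← hz]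
  have hτ : IsLocalMax (E ψ δ (-β) (-α)) τ₀ := by
    have hlim : Tendsto (fun τ : ℝ => (-psiD ψ δ (-s₀) - psiD ψ δ τ,
        -psiD ψ δ (-s₀) - psiD ψ δ (-τ), -psiD ψ δ s₀)) (𝓝 τ₀) (𝓝 (x, y, z)) := by
      have h1 : Continuous (fun τ : ℝ => (-psiD ψ δ (-s₀) - psiD ψ δ τ,
        -psiD ψ δ (-s₀) - psiD ψ δ (-τ), -psiD ψ δ s₀)) :=
        (continuous_const.sub hc).prodMk
          ((continuous_const.sub (hc.comp continuous_neg)).prodMk continuous_const)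
      have h2 := h1.tendsto τ₀
      rw [← h3]
      exact h2
    refine locMax_add_const (c := -(α + β) * psiD ψ δ (-s₀) - γ * psiD ψ δ s₀) ?_
    filter_upwards [hlim.eventually h] with τ hτ
    have h1 := hτ (hzero s₀ τ)
    rw [hx, hy, hz] at h1
    unfold E
    linarith
  obtain ⟨ha, hb, hτ1, hτ2⟩ := loc hψ F hδ (neg_ne_zero.2 hβ) (neg_ne_zero.2 hα) hτ
  have hs : IsLocalMax (E ψ δ (-(α + β)) (-γ)) s₀ := by
    have hlim : Tendsto (fun s : ℝ => (-psiD ψ δ (-s) - psiD ψ δ τ₀,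
        -psiD ψ δ (-s) - psiD ψ δ (-τ₀), -psiD ψ δ s)) (𝓝 s₀) (𝓝 (x, y, z)) := by
      have h1 : Continuous (fun s : ℝ => (-psiD ψ δ (-s) - psiD ψ δ τ₀,
        -psiD ψ δ (-s) - psiD ψ δ (-τ₀), -psiD ψ δ s)) :=
        ((hc.comp continuous_neg).neg.sub continuous_const).prodMk
          (((hc.comp continuous_neg).neg.sub continuous_const).prodMk hc.neg)
      have h2 := h1.tendsto s₀
      rw [← h3]
      exact h2
    refine locMax_add_const (c := -α * psiD ψ δ τ₀ - β * psiD ψ δ (-τ₀)) ?_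
    filter_upwards [hlim.eventually h] with s hs
    have h1 := hs (hzero s τ₀)
    rw [hx, hy, hz] at h1
    unfold E
    linarith
  have hne : -(α + β) ≠ 0 := by
    intro h
    linarith
  obtain ⟨ha', hb', hs1, hs2⟩ := loc hψ F hδ hne (neg_ne_zero.2 hγ) hs
  exact ⟨by linarith, by linarith, by linarith, s₀, τ₀, hs1, hτ1, hτ2, hs2, hx, hy, hz⟩

end LMXM

open LOCM LMXM in
theorem specLMX (hPSF : SpecPSF) : SpecLMX := by
  intro ψ hψ δ hδ κ hκ α β γ hα hβ hγ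
  have F := hPSF ψ hψ
  by_cases hex : ∃ x y z : ℝ, locF ψ δ κ x y z = 0 ∧
    (∀ᶠ p : ℝ × ℝ × ℝ in 𝓝 (x, y, z), locF ψ δ κ p.1 p.2.1 p.2.2 = 0 →
      α * p.1 + β * p.2.1 + γ * p.2.2 ≤ α * x + β * y + γ * z)
  · obtain ⟨x₀, y₀, z₀, h0, h⟩ := hex
    refine ⟨x₀, y₀, z₀, ?_⟩
    intro x y z h0' h'
    rcases hκ with rfl | rfl
    · exact (saddle hψ F hδ hα hβ hγ h0 h).elim
    · obtain ⟨a1, a2, a3, s₀, τ₀, a4, a5, a6, a7, a8, a9, a10⟩ :=
        convex hψ F hδ hα hβ hγ h0 h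
      obtain ⟨b1, b2, b3, s₁, τ₁, b4, b5, b6, b7, b8, b9, b10⟩ :=
        convex hψ F hδ hα hβ hγ h0' h'
      have e1 : s₁ = s₀ := det hψ hδ b4 a4 (by rw [b7, a7])
      have e2 : τ₁ = τ₀ := det hψ hδ b5 a5 (by rw [b6, a6])
      rw [e1, e2] at b8 b9
      rw [e1] at b10
      have c1 := D_bd F hδ a4
      have c2 := D_bd F hδ (t := -s₀) (by rwa [abs_neg])
      have c3 := D_bd F hδ a5
      have c4 := D_bd F hδ (t := -τ₀) (by rwa [abs_neg])
      refine ⟨rfl, a1, a2, a3, by rw [a8, b8], by rw [a9, b9], by rw [a10, b10], ?_, ?_, ?_⟩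
      · rw [b8, abs_le]
        constructor <;> linarith [c1.1, c1.2, c2.1, c2.2, c3.1, c3.2]
      · rw [b9, abs_le]
        constructor <;> linarith [c1.1, c1.2, c2.1, c2.2, c4.1, c4.2]
      · rw [b10, abs_le]
        constructor <;> linarith [c1.1, c1.2]
  · refine ⟨0, 0, 0, ?_⟩
    intro x y z h0 h
    exact (hex ⟨x, y, z, h0, h⟩).elim

end Pool.Agent.Lib.MP_0b1f3c_gt.TI
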