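import Pool.Agent.Lib.MP_0b1f3c_gt.TI.SpecG

/-!
# LOC: elementary facts on `mx`, `mn`, `locF`
-/

open scoped Manifold ContDiff InnerProductSpace Topology
open Filter Set

noncomputable section

namespace Pool.Agent.Lib.MP_0b1f3c_gt.TI

namespace LOCM

variable {ψ : ℝ → ℝ} {δ : ℝ}

theorem D_nonneg (F : PsiFacts ψ) (hδ : 0 < δ) (t : ℝ) : 0 ≤ psiD ψ δ t :=
  mul_nonneg hδ.le (F.nonneg _)

theorem D_ge (F : PsiFacts ψ) (hδ : 0 < δ) (t : ℝ) : t ≤ psiD ψ δ t := by
  have h := mul_le_mul_of_nonneg_left (F.ge (t / δ)) hδ.le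
  rwa [mul_div_cancel₀ _ hδ.ne'] at h

theorem D_le (F : PsiFacts ψ) (hδ : 0 < δ) (t : ℝ) : psiD ψ δ t ≤ max 0 t + δ := by
  have h := mul_le_mul_of_nonneg_left (F.le (t / δ)) hδ.le
  have h2 : δ * (max 0 (t / δ) + 1) = max 0 t + δ := by
    rw [mul_add, mul_one, mul_max_of_nonneg _ _ hδ.le, mul_zero, mul_div_cancel₀ _ hδ.ne']
  rwa [h2] at h

theorem D_sym (hψ : IsPsi ψ) (hδ : 0 < δ) (t : ℝ) : psiD ψ δ t - psiD ψ δ (-t) = t := by
  unfold psiD
  rw [neg_div, ← mul_sub, hψ.sym, mul_div_cancel₀ _ hδ.ne']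

theorem D_zero (hψ : IsPsi ψ) (hδ : 0 < δ) {t : ℝ} (ht : t ≤ -δ) : psiD ψ δ t = 0 := by
  unfold psiD
  rw [hψ.zero, mul_zero]
  rw [div_le_iff₀ hδ]
  linarith

theorem D_id (hψ : IsPsi ψ) (hδ : 0 < δ) {t : ℝ} (ht : δ ≤ t) : psiD ψ δ t = t := by
  unfold psiD
  rw [hψ.id, mul_div_cancel₀ _ hδ.ne']
  rw [le_div_iff₀ hδ]
  linarith

theorem D_smooth (hψ : IsPsi ψ) : ContDiff ℝ ∞ (psiD ψ δ) :=
  contDiff_const.mul (hψ.smooth.comp (contDiff_id.div_const δ))

theorem mx_comm (hψ : IsPsi ψ) (hδ : 0 < δ) (a b : ℝ) : mx ψ δ a b = mx ψ δ b a := by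
  unfold mx
  have h := D_sym hψ hδ (b - a)
  rw [neg_sub] at h
  linarith

theorem mx_ge (F : PsiFacts ψ) (hδ : 0 < δ) (a b : ℝ) : max a b ≤ mx ψ δ a b := by
  unfold mx
  have h1 := D_nonneg F hδ (b - a)
  have h2 := D_ge F hδ (b - a)
  exact max_le (by linarith) (by linarith)

theorem mx_le (F : PsiFacts ψ) (hδ : 0 < δ) (a b : ℝ) : mx ψ δ a b ≤ max a b + δ := by
  unfold mx
  have h1 := D_le F hδ (b - a)
  have h2 : a + max 0 (b - a) = max a b := by
    rw [← max_add_add_left]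
    simp
  linarith

theorem mx_left (hψ : IsPsi ψ) (hδ : 0 < δ) {a b : ℝ} (h : b ≤ a - δ) : mx ψ δ a b = a := by
  unfold mx
  rw [D_zero hψ hδ (by linarith), add_zero]

theorem mx_right (hψ : IsPsi ψ) (hδ : 0 < δ) {a b : ℝ} (h : a ≤ b - δ) : mx ψ δ a b = b := by
  rw [mx_comm hψ hδ, mx_left hψ hδ h]

theorem mx_add (a b c : ℝ) : mx ψ δ (a + c) (b + c) = mx ψ δ a b + c := by
  unfold mx
  rw [add_sub_add_right_eq_sub]
  ring

theorem mn_eq (hψ : IsPsi ψ) (hδ : 0 < δ) (a b : ℝ) : mn ψ δ a b = -mx ψ δ (-a) (-b) := by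
  unfold mn mx
  have h := D_sym hψ hδ (b - a)
  rw [neg_sub] at h
  have h2 : -b - -a = a - b := by ring
  rw [h2]
  linarith

theorem mn_add (a b c : ℝ) : mn ψ δ (a + c) (b + c) = mn ψ δ a b + c := by
  unfold mn
  rw [add_sub_add_right_eq_sub]
  ring

theorem mn_le (hψ : IsPsi ψ) (F : PsiFacts ψ) (hδ : 0 < δ) (a b : ℝ) : mn ψ δ a b ≤ min a b := by
  rw [mn_eq hψ hδ]
  have h := mx_ge F hδ (-a) (-b)
  rw [max_neg_neg] at h
  linarith

theorem mn_ge (hψ : IsPsi ψ) (F : PsiFacts ψ) (hδ : 0 < δ) (a b : ℝ) :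
    min a b - δ ≤ mn ψ δ a b := by
  rw [mn_eq hψ hδ]
  have h := mx_le F hδ (-a) (-b)
  rw [max_neg_neg] at h
  linarith

theorem mn_left (hψ : IsPsi ψ) (hδ : 0 < δ) {a b : ℝ} (h : a + δ ≤ b) : mn ψ δ a b = a := by
  rw [mn_eq hψ hδ, mx_left hψ hδ (by linarith), neg_neg]

theorem mn_right (hψ : IsPsi ψ) (hδ : 0 < δ) {a b : ℝ} (h : b + δ ≤ a) : mn ψ δ a b = b := by
  rw [mn_eq hψ hδ, mx_right hψ hδ (by linarith), neg_neg]

theorem act (hψ : IsPsi ψ) (F : PsiFacts ψ) (hδ : 0 < δ) (κ X Y Z : ℝ) (hκ : κ = 1 ∨ κ = -1)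
    (h0 : locF0 κ X Y Z = 0) (hr : 2 * δ ≤ rho κ X Y Z) : locF ψ δ κ X Y Z = 0 := by
  unfold locF0 at h0
  unfold rho at hr
  unfold locF
  rcases hκ with rfl | rfl
  · simp only [if_true] at h0 hr ⊢
    have hZ : Z ≤ 0 := h0 ▸ le_max_left _ _
    have hm : min X Y ≤ 0 := h0 ▸ le_max_right _ _
    rcases le_max_iff.1 hr with h1 | h1
    · have hZ0 : Z = 0 := by
        rcases max_choice Z (min X Y) with h2 | h2
        · rw [h2] at h0
          exact h0
        · rw [h2] at h0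
          linarith
      have h3 := mn_le hψ F hδ X Y
      rw [mx_left hψ hδ (by linarith)]
      exact hZ0
    · obtain ⟨h2, h3⟩ := le_min_iff.1 h1
      have hm0 : min X Y = 0 := by
        rcases max_choice Z (min X Y) with h4 | h4
        · rw [h4] at h0
          linarith
        · rw [h4] at h0
          exact h0
      have hmn : mn ψ δ X Y = 0 := by
        rcases le_total X Y with h4 | h4
        · rw [min_eq_left h4] at hm0
          rw [max_eq_right h4] at h3
          rw [mn_left hψ hδ (by linarith)]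
          exact hm0
        · rw [min_eq_right h4] at hm0
          rw [max_eq_left h4] at h3
          rw [mn_right hψ hδ (by linarith)]
          exact hm0
      rw [hmn, mx_right hψ hδ (by linarith)]
  · have hne : ¬ ((-1 : ℝ) = 1) := by norm_num
    simp only [if_neg hne] at h0 hr ⊢
    have hZ : Z ≤ 0 := h0 ▸ le_max_left _ _
    have hX : X ≤ 0 := h0 ▸ (le_max_left X Y).trans (le_max_right _ _)
    have hY : Y ≤ 0 := h0 ▸ (le_max_right X Y).trans (le_max_right _ _)
    obtain ⟨h12, h3⟩ := le_min_iff.1 hr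
    obtain ⟨h1, h2⟩ := le_min_iff.1 h12
    have hcase : Z = 0 ∨ X = 0 ∨ Y = 0 := by
      rcases max_choice Z (max X Y) with h4 | h4
      · exact Or.inl (h4 ▸ h0)
      · rw [h4] at h0
        rcases max_choice X Y with h5 | h5
        · exact Or.inr (Or.inl (h5 ▸ h0))
        · exact Or.inr (Or.inr (h5 ▸ h0))
    rcases hcase with h | h | h
    · subst h
      have hX' : X ≤ -(2 * δ) := by
        rcases le_max_iff.1 h3 with h5 | h5
        · linarith
        · linarith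
      have hY' : Y ≤ -(2 * δ) := by
        rcases le_max_iff.1 h2 with h5 | h5
        · linarith
        · linarith
      have h5 := mx_le F hδ X Y
      have h6 : max X Y ≤ -(2 * δ) := max_le hX' hY'
      rw [mx_left hψ hδ (by linarith)]
    · subst h
      have hY' : Y ≤ -(2 * δ) := by
        rcases le_max_iff.1 h1 with h5 | h5
        · linarith
        · linarith
      have hZ' : Z ≤ -(2 * δ) := by
        rcases le_max_iff.1 h3 with h5 | h5
        · linarith
        · linarith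
      rw [mx_left hψ hδ (a := 0) (by linarith), mx_right hψ hδ (by linarith)]
    · subst h
      have hX' : X ≤ -(2 * δ) := by
        rcases le_max_iff.1 h1 with h5 | h5
        · linarith
        · linarith
      have hZ' : Z ≤ -(2 * δ) := by
        rcases le_max_iff.1 h2 with h5 | h5
        · linarith
        · linarith
      rw [mx_right hψ hδ (b := 0) (by linarith), mx_right hψ hδ (by linarith)]

end LOCM

open LOCM in
theorem specLOC (hPSF : SpecPSF) : SpecLOC := by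
  intro ψ hψ δ hδ
  have F := hPSF ψ hψ
  refine ⟨mx_comm hψ hδ, mx_ge F hδ, mx_le F hδ, fun a b h => mx_left hψ hδ h, mx_add,
    mn_eq hψ hδ, ?_, ?_, ?_, act hψ F hδ⟩
  · intro κ
    have hD : ContDiff ℝ ∞ (psiD ψ δ) := D_smooth hψ
    have h1 : ContDiff ℝ ∞ (fun p : ℝ × ℝ × ℝ => p.1) := contDiff_fst
    have h2 : ContDiff ℝ ∞ (fun p : ℝ × ℝ × ℝ => p.2.1) := contDiff_fst.comp contDiff_snd
    have h3 : ContDiff ℝ ∞ (fun p : ℝ × ℝ × ℝ => p.2.2) := contDiff_snd.comp contDiff_snd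
    unfold locF
    by_cases hκ : κ = 1
    · simp only [hκ, if_true, mx, mn]
      have h4 : ContDiff ℝ ∞ (fun p : ℝ × ℝ × ℝ => p.2.1 - psiD ψ δ (p.2.1 - p.1)) :=
        h2.sub (hD.comp (h2.sub h1))
      exact h3.add (hD.comp (h4.sub h3))
    · simp only [if_neg hκ, mx]
      have h4 : ContDiff ℝ ∞ (fun p : ℝ × ℝ × ℝ => p.1 + psiD ψ δ (p.2.1 - p.1)) :=
        h1.add (hD.comp (h2.sub h1))
      exact h3.add (hD.comp (h4.sub h3))
  · intro κ X Y Z c
    unfold locF
    by_cases hκ : κ = 1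
    · simp only [hκ, if_true]
      rw [mn_add, mx_add]
    · simp only [if_neg hκ]
      rw [mx_add, mx_add]
  · intro κ X Y Z
    unfold locF locF0
    have key : ∀ m m' : ℝ, |m' - m| ≤ δ → |mx ψ δ Z m' - max Z m| ≤ 2 * δ := by
      intro m m' h
      have h1 := mx_ge F hδ Z m'
      have h2 := mx_le F hδ Z m'
      have h3 : |max Z m' - max Z m| ≤ |m' - m| := by
        have := abs_max_sub_max_le_max Z m' Z m
        simpa using this
      rw [abs_le] at h3 ⊢
      have h4 := abs_le.1 h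
      have h5 : |m' - m| ≤ δ := h
      constructor
      · linarith [h3.1]
      · linarith [h3.2]
    by_cases hκ : κ = 1
    · simp only [hκ, if_true]
      apply key
      have h1 := mn_le hψ F hδ X Y
      have h2 := mn_ge hψ F hδ X Y
      rw [abs_le]
      constructor <;> linarith
    · simp only [if_neg hκ]
      apply key
      have h1 := mx_ge F hδ X Y
      have h2 := mx_le F hδ X Y
      rw [abs_le]
      constructor <;> linarith

end Pool.Agent.Lib.MP_0b1f3c_gt.TI
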