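import Pool.Agent.Lib.MP_0b1f3c_gt.TI.CC

/-!
# Curve part, module MTS (helper65): common points of two closed polygons
-/

open scoped Manifold ContDiff InnerProductSpace Quaternion

noncomputable section

namespace Pool.Agent.Lib.MP_0b1f3c_gt.TI

namespace MTSM

open CCM

variable {N : ℕ} {S : PolyData N} {C C' : Crv N}

/-! ### common points of segments -/

theorem mixed (hS : S.IsSurf) (hC : C.IsCrv S) (hC' : C'.IsCrv S) (k l : ℤ) {τ : ℝ} (h0 : 0 < τ)
    (h1 : τ < 1) : C.pt k ≠ seg C' l τ := by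
  intro he
  have : ({C.a k, C.b k} : Finset (Fin N)) = C'.tri l := by
    ext v
    rw [← seg_supp hS hC' l h0 h1 v, ← he, pt_pos hC k]
    simp
  have h3 := tri_card hS hC' l
  rw [← this, Finset.card_pair (hC.hab k)] at h3
  omega

theorem det3_seg (a b c : Fin N) (x y : Fin N → ℝ) (j : ℤ) (θ : ℝ) :
    Crv.det3 a b c x y (seg C j θ) =
      (1 - θ) * Crv.det3 a b c x y (C.pt j) + θ * Crv.det3 a b c x y (C.pt (j + 1)) := by
  unfold Crv.det3
  simp only [seg_apply]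
  ring

theorem det3_self1 (a b c : Fin N) (x y : Fin N → ℝ) : Crv.det3 a b c x y x = 0 := by
  unfold Crv.det3; ring

theorem det3_self2 (a b c : Fin N) (x y : Fin N → ℝ) : Crv.det3 a b c x y y = 0 := by
  unfold Crv.det3; ring

theorem cmn1 (a b c : Fin N) {i j : ℤ} {θ θ' : ℝ} (h : seg C i θ = seg C' j θ') :
    (1 - θ') * Crv.det3 a b c (C.pt i) (C.pt (i + 1)) (C'.pt j) +
      θ' * Crv.det3 a b c (C.pt i) (C.pt (i + 1)) (C'.pt (j + 1)) = 0 := by
  rw [← det3_seg, ← h, det3_seg, det3_self1, det3_self2]; ring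

/-- the crossing predicate for the segments `i`, `j` -/
def Crs (C C' : Crv N) (i j : ℤ) : Prop :=
  Crv.Cross (C.a i) (C.b i) (C.t i) (C.pt i) (C.pt (i + 1)) (C'.pt j) (C'.pt (j + 1))

theorem meet (hS : S.IsSurf) (hC : C.IsCrv S) (hC' : C'.IsCrv S) (hpt : ∀ i j, C.pt i ≠ C'.pt j)
    (hcs : ∀ i j, C.tri i = C'.tri j →
      Crv.Cross (C.a i) (C.b i) (C.t i) (C.pt i) (C.pt (i + 1)) (C'.pt j) (C'.pt (j + 1)) ∨
      Crv.Sep (C.a i) (C.b i) (C.t i) (C.pt i) (C.pt (i + 1)) (C'.pt j) (C'.pt (j + 1)))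
    {i j : ℤ} {θ θ' : ℝ} (h0 : 0 ≤ θ) (h1 : θ < 1) (h0' : 0 ≤ θ') (h1' : θ' < 1)
    (h : seg C i θ = seg C' j θ') :
    0 < θ ∧ 0 < θ' ∧ C.tri i = C'.tri j ∧ Crs C C' i j := by
  rcases eq_or_lt_of_le h0 with e | e
  · exfalso
    rw [← e, seg_zero] at h
    rcases eq_or_lt_of_le h0' with e' | e'
    · rw [← e', seg_zero] at h
      exact hpt i j h
    · exact mixed hS hC hC' i j e' h1' h
  · rcases eq_or_lt_of_le h0' with e' | e'
    · exfalso
      rw [← e', seg_zero] at h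
      exact mixed hS hC' hC j i e h1 h.symm
    · have ht : C.tri i = C'.tri j := by
        ext v
        rw [← seg_supp hS hC i e h1 v, ← seg_supp hS hC' j e' h1' v, h]
      refine ⟨e, e', ht, ?_⟩
      rcases hcs i j ht with hx | hx
      · exact hx
      · exfalso
        rcases hx with hx | hx
        · exact prod_pos_ne hx h0' h1'.le (cmn1 _ _ _ h)
        · exact prod_pos_ne hx h0 h1.le (cmn1 _ _ _ h.symm)

theorem uniq {A B θ θ₁ : ℝ} (hAB : A * B < 0) (h : (1 - θ) * A + θ * B = 0)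
    (h' : (1 - θ₁) * A + θ₁ * B = 0) : θ = θ₁ := by
  have : (θ - θ₁) * (B - A) = 0 := by linear_combination h - h'
  rcases mul_eq_zero.1 this with h | h
  · linarith
  · exfalso
    have : B = A := by linarith
    rw [this] at hAB
    nlinarith [mul_self_nonneg A]

theorem ratio {A B : ℝ} (h : A * B < 0) : A - B ≠ 0 ∧ 0 < A / (A - B) ∧ A / (A - B) < 1 := by
  rcases mul_neg_iff.1 h with ⟨hA, hB⟩ | ⟨hA, hB⟩
  · have hd : 0 < A - B := by linarith
    refine ⟨hd.ne', div_pos hA hd, ?_⟩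
    rw [div_lt_one hd]; linarith
  · have hd : A - B < 0 := by linarith
    refine ⟨hd.ne, div_pos_of_neg_of_neg hA hd, ?_⟩
    rw [div_lt_one_of_neg hd]; linarith

theorem tri_ne (hS : S.IsSurf) (hC : C.IsCrv S) (i : ℤ) : C.a i ≠ C.t i ∧ C.b i ≠ C.t i := by
  have h3 := tri_card hS hC i
  unfold Crv.tri at h3
  constructor
  · intro e
    rw [← e, Finset.pair_comm (C.b i) (C.a i), Finset.insert_eq_of_mem (by simp)] at h3
    have := Finset.card_le_two (a := C.a i) (b := C.b i)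
    omega
  · intro e
    rw [← e, Finset.insert_eq_of_mem (a := C.b i) (by simp)] at h3
    have := Finset.card_le_two (a := C.a i) (b := C.b i)
    omega

theorem sum3 (hS : S.IsSurf) (hC : C.IsCrv S) (i : ℤ) {E : Type} [AddCommMonoid E] (x : Fin N → E)
    (hx : ∀ v, v ∉ C.tri i → x v = 0) : ∑ v, x v = x (C.a i) + x (C.b i) + x (C.t i) := by
  have h := tri_ne hS hC i
  have hab := hC.hab i
  rw [← Finset.sum_subset (Finset.subset_univ (C.tri i)) (fun v _ hv => hx v hv)]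
  unfold Crv.tri
  rw [Finset.sum_insert (by simp [hab, h.1]), Finset.sum_insert (by simp [h.2]),
    Finset.sum_singleton, add_assoc]

theorem pt_out (hC : C.IsCrv S) {i : ℤ} {v : Fin N} (hv : v ∉ C.tri i) :
    C.pt i v = 0 ∧ C.pt (i + 1) v = 0 := by
  have hn := hC.hnext i
  have a1 : v ≠ C.a i := fun e => hv (by unfold Crv.tri; simp [e])
  have a2 : v ≠ C.b i := fun e => hv (by unfold Crv.tri; simp [e])
  have a3 : v ≠ C.a (i + 1) := fun e => hv (e ▸ hn.1)
  have a4 : v ≠ C.b (i + 1) := fun e => hv (e ▸ hn.2)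
  exact ⟨pt_o i a1 a2, pt_o (i + 1) a3 a4⟩

theorem exist (hS : S.IsSurf) (hC : C.IsCrv S) (hC' : C'.IsCrv S) {i j : ℤ}
    (ht : C.tri i = C'.tri j) (hx : Crs C C' i j) :
    ∃ θ θ' : ℝ, 0 < θ ∧ θ < 1 ∧ 0 < θ' ∧ θ' < 1 ∧ seg C i θ = seg C' j θ' := by
  obtain ⟨hD, hE⟩ := hx
  obtain ⟨dne, d0, d1⟩ := ratio hD
  obtain ⟨ene, e0, e1⟩ := ratio hE
  set x := C.pt i with hxd
  set y := C.pt (i + 1) with hyd
  set z := C'.pt j with hzd
  set w := C'.pt (j + 1) with hwd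
  have sx : x (C.a i) + x (C.b i) + x (C.t i) = 1 := by
    rw [← sum3 hS hC i x (fun v hv => (pt_out hC hv).1), hxd, pt_sum]
  have sy : y (C.a i) + y (C.b i) + y (C.t i) = 1 := by
    rw [← sum3 hS hC i y (fun v hv => (pt_out hC hv).2), hyd, pt_sum]
  have sz : z (C.a i) + z (C.b i) + z (C.t i) = 1 := by
    rw [← sum3 hS hC i z (fun v hv => (pt_out hC' (by rw [← ht]; exact hv)).1), hzd, pt_sum]
  have sw : w (C.a i) + w (C.b i) + w (C.t i) = 1 := by
    rw [← sum3 hS hC i w (fun v hv => (pt_out hC' (by rw [← ht]; exact hv)).2), hwd, pt_sum]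
  set D0 := Crv.det3 (C.a i) (C.b i) (C.t i) x y z with hD0
  set D1 := Crv.det3 (C.a i) (C.b i) (C.t i) x y w with hD1
  set E0 := Crv.det3 (C.a i) (C.b i) (C.t i) z w x with hE0
  set E1 := Crv.det3 (C.a i) (C.b i) (C.t i) z w y with hE1
  have ka : E1 * x (C.a i) - E0 * y (C.a i) + D1 * z (C.a i) - D0 * w (C.a i) = 0 := by
    rw [hD0, hD1, hE0, hE1]; unfold Crv.det3; ring
  have kb : E1 * x (C.b i) - E0 * y (C.b i) + D1 * z (C.b i) - D0 * w (C.b i) = 0 := by
    rw [hD0, hD1, hE0, hE1]; unfold Crv.det3; ring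
  have kt : E1 * x (C.t i) - E0 * y (C.t i) + D1 * z (C.t i) - D0 * w (C.t i) = 0 := by
    rw [hD0, hD1, hE0, hE1]; unfold Crv.det3; ring
  have ks : E1 - E0 + D1 - D0 = 0 := by
    linear_combination ka + kb + kt - E1 * sx + E0 * sy - D1 * sz + D0 * sw
  have hden : E0 - E1 = -(D0 - D1) := by linarith
  refine ⟨E0 / (E0 - E1), D0 / (D0 - D1), e0, e1, d0, d1, ?_⟩
  have key : ∀ v, E1 * x v - E0 * y v + D1 * z v - D0 * w v = 0 →
      seg C i (E0 / (E0 - E1)) v = seg C' j (D0 / (D0 - D1)) v := by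
    intro v hv
    rw [seg_apply, seg_apply, ← hxd, ← hyd, ← hzd, ← hwd, hden]
    have : -(D0 - D1) ≠ 0 := neg_ne_zero.2 dne
    field_simp
    linear_combination hv - (x v) * ks
  funext v
  by_cases hv : v ∈ C.tri i
  · unfold Crv.tri at hv
    simp only [Finset.mem_insert, Finset.mem_singleton] at hv
    rcases hv with h | h | h
    · rw [h]; exact key _ ka
    · rw [h]; exact key _ kb
    · rw [h]; exact key _ kt
  · have o := pt_out hC hv
    have o' := pt_out hC' (show v ∉ C'.tri j by rw [← ht]; exact hv)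
    rw [seg_apply, seg_apply, o.1, o.2, o'.1, o'.2]
    ring

/-! ### the bijection -/

theorem c0_phi (C : Crv N) (s : ℝ) : C.c0 s = phi C (C.L * s) := rfl

theorem floor_L {L : ℕ} {s : ℝ} (h0 : 0 ≤ s) (h1 : s < 1) (hL : 0 < L) :
    0 ≤ ⌊(L : ℝ) * s⌋ ∧ ⌊(L : ℝ) * s⌋ < L := by
  have hL' : (0 : ℝ) < L := by exact_mod_cast hL
  constructor
  · exact Int.floor_nonneg.2 (mul_nonneg hL'.le h0)
  · rw [Int.floor_lt]
    push_cast
    nlinarith

theorem par {L : ℕ} (hL : 0 < L) {i : ℤ} (hi : 0 ≤ i) (hi' : i < L) {θ : ℝ} (h0 : 0 < θ)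
    (h1 : θ < 1) : 0 ≤ (i + θ) / L ∧ (i + θ) / L < 1 ∧ ⌊(L : ℝ) * ((i + θ) / L)⌋ = i ∧
      Int.fract ((L : ℝ) * ((i + θ) / L)) = θ := by
  have hL' : (0 : ℝ) < L := by exact_mod_cast hL
  have hi2 : (0 : ℝ) ≤ i := by exact_mod_cast hi
  have hi3 : (i : ℝ) + 1 ≤ L := by exact_mod_cast hi'
  have e : (L : ℝ) * ((i + θ) / L) = i + θ := by field_simp
  have hf : ⌊(i : ℝ) + θ⌋ = i := Int.floor_eq_iff.2 ⟨by linarith, by linarith⟩
  refine ⟨div_nonneg (by linarith) hL'.le, ?_, ?_, ?_⟩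
  · rw [div_lt_one hL']; linarith
  · rw [e, hf]
  · rw [e]; unfold Int.fract; rw [hf]; ring

/-- the set of meeting parameters -/
def MS (C C' : Crv N) : Set (ℝ × ℝ) :=
  {p | p.1 ∈ Set.Ico (0 : ℝ) 1 ∧ p.2 ∈ Set.Ico (0 : ℝ) 1 ∧ C.c0 p.1 = C'.c0 p.2}

/-- the set of crossing pairs -/
def XS (C C' : Crv N) : Set (ℤ × ℤ) :=
  {p | 0 ≤ p.1 ∧ p.1 < C.L ∧ 0 ≤ p.2 ∧ p.2 < C'.L ∧ C.tri p.1 = C'.tri p.2 ∧ Crs C C' p.1 p.2}

theorem count (hS : S.IsSurf) (hC : C.IsCrv S) (hC' : C'.IsCrv S) (hpt : ∀ i j, C.pt i ≠ C'.pt j)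
    (hcs : ∀ i j, C.tri i = C'.tri j →
      Crv.Cross (C.a i) (C.b i) (C.t i) (C.pt i) (C.pt (i + 1)) (C'.pt j) (C'.pt (j + 1)) ∨
      Crv.Sep (C.a i) (C.b i) (C.t i) (C.pt i) (C.pt (i + 1)) (C'.pt j) (C'.pt (j + 1))) :
    (MS C C').encard = (XS C C').encard := by
  have hinj : Set.InjOn (fun p : ℝ × ℝ => (⌊(C.L : ℝ) * p.1⌋, ⌊(C'.L : ℝ) * p.2⌋)) (MS C C') := by
    rintro ⟨s, t⟩ ⟨_, _, h⟩ ⟨s', t'⟩ ⟨_, _, h'⟩ he
    simp only [Prod.mk.injEq] at he h h'
    rw [c0_eq, c0_eq] at h h'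
    obtain ⟨e1, e2⟩ := he
    obtain ⟨-, -, -, hx⟩ := meet hS hC hC' hpt hcs (Int.fract_nonneg _) (Int.fract_lt_one _)
      (Int.fract_nonneg _) (Int.fract_lt_one _) h
    rw [← e1, ← e2] at h'
    have f2 := uniq hx.1 (cmn1 _ _ _ h) (cmn1 _ _ _ h')
    have f1 := uniq hx.2 (cmn1 _ _ _ h.symm) (cmn1 _ _ _ h'.symm)
    have hL : (0 : ℝ) < C.L := by exact_mod_cast hC.hL
    have hL' : (0 : ℝ) < C'.L := by exact_mod_cast hC'.hL
    have g1 : (C.L : ℝ) * s = C.L * s' := by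
      rw [← Int.floor_add_fract ((C.L : ℝ) * s), ← Int.floor_add_fract ((C.L : ℝ) * s'), e1, f1]
    have g2 : (C'.L : ℝ) * t = C'.L * t' := by
      rw [← Int.floor_add_fract ((C'.L : ℝ) * t), ← Int.floor_add_fract ((C'.L : ℝ) * t'), e2, f2]
    rw [mul_left_cancel₀ hL.ne' g1, mul_left_cancel₀ hL'.ne' g2]
  rw [← hinj.encard_image]
  congr 1
  ext ⟨i, j⟩
  constructor
  · rintro ⟨⟨s, t⟩, ⟨hs, ht, h⟩, he⟩
    simp only [Prod.mk.injEq] at he h hs ht
    rw [c0_eq, c0_eq] at h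
    obtain ⟨-, -, h1, h2⟩ := meet hS hC hC' hpt hcs (Int.fract_nonneg _) (Int.fract_lt_one _)
      (Int.fract_nonneg _) (Int.fract_lt_one _) h
    obtain ⟨e1, e2⟩ := he
    rw [e1, e2] at h1 h2
    obtain ⟨a1, a2⟩ := floor_L hs.1 hs.2 hC.hL
    obtain ⟨a3, a4⟩ := floor_L ht.1 ht.2 hC'.hL
    rw [e1] at a1 a2
    rw [e2] at a3 a4
    exact ⟨a1, a2, a3, a4, h1, h2⟩
  · rintro ⟨a1, a2, a3, a4, h1, h2⟩
    obtain ⟨θ, θ', t0, t1, t0', t1', h⟩ := exist hS hC hC' h1 h2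
    obtain ⟨b1, b2, b3, b4⟩ := par hC.hL a1 a2 t0 t1
    obtain ⟨d1, d2, d3, d4⟩ := par hC'.hL a3 a4 t0' t1'
    refine ⟨((i + θ) / C.L, (j + θ') / C'.L), ⟨⟨b1, b2⟩, ⟨d1, d2⟩, ?_⟩, ?_⟩
    · simp only
      rw [c0_eq, c0_eq, b3, b4, d3, d4, h]
    · simp only [Prod.mk.injEq]
      exact ⟨b3, d3⟩

/-! ### periodicity -/

theorem c0_int (hC : C.IsCrv S) (s : ℝ) (m : ℤ) : C.c0 (s + m) = C.c0 s := by
  induction m using Int.induction_on with
  | zero => simp
  | succ n ih =>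
    have : s + (((n : ℤ) + 1 : ℤ) : ℝ) = (s + ((n : ℤ) : ℝ)) + 1 := by push_cast; ring
    rw [this, c0_per hC, ih]
  | pred n ih =>
    have : s + ((-(n : ℤ) : ℤ) : ℝ) = (s + ((-(n : ℤ) - 1 : ℤ) : ℝ)) + 1 := by push_cast; ring
    rw [this, c0_per hC] at ih
    exact ih

theorem c0_fract (hC : C.IsCrv S) (s : ℝ) : C.c0 (Int.fract s) = C.c0 s := by
  have := c0_int hC (Int.fract s) ⌊s⌋
  rw [Int.fract_add_floor] at this
  exact this.symm

/-! ### straightness -/

theorem g_add (S : PolyData N) (x y : Fin N → ℝ) : S.g (x + y) = S.g x + S.g y := by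
  unfold PolyData.g
  simp [add_smul, Finset.sum_add_distrib]

theorem g_smul (S : PolyData N) (t : ℝ) (x : Fin N → ℝ) : S.g (t • x) = t • S.g x := by
  unfold PolyData.g
  simp [Finset.smul_sum, mul_smul]

theorem g_sub (S : PolyData N) (x y : Fin N → ℝ) : S.g (x - y) = S.g x - S.g y := by
  unfold PolyData.g
  simp [sub_smul, Finset.sum_sub_distrib]

theorem loc_c0 {s : ℝ} (h0 : 0 < Int.fract (C.L * s)) : ∀ᶠ τ in nhds (0 : ℝ),
    C.c0 (s + τ) = C.c0 s + (C.L * τ) • (C.pt (⌊C.L * s⌋ + 1) - C.pt ⌊C.L * s⌋) := by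
  have hc : Continuous fun τ : ℝ => (C.L : ℝ) * (s + τ) := by fun_prop
  have h1 : (⌊C.L * s⌋ : ℝ) < C.L * s := by
    have := Int.floor_add_fract ((C.L : ℝ) * s)
    linarith
  have h2 : (C.L : ℝ) * s < ⌊C.L * s⌋ + 1 := Int.lt_floor_add_one _
  have e1 : ∀ᶠ τ in nhds (0 : ℝ), (⌊C.L * s⌋ : ℝ) < C.L * (s + τ) := by
    apply hc.continuousAt.eventually (p := fun u => (⌊C.L * s⌋ : ℝ) < u)
    apply lt_mem_nhds
    simpa using h1
  have e2 : ∀ᶠ τ in nhds (0 : ℝ), (C.L : ℝ) * (s + τ) < ⌊C.L * s⌋ + 1 := by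
    apply hc.continuousAt.eventually (p := fun u => u < (⌊C.L * s⌋ : ℝ) + 1)
    apply gt_mem_nhds
    simp
  filter_upwards [e1, e2] with τ a1 a2
  rw [c0_phi, c0_phi, phi_eq a1.le a2.le, phi_eq h1.le h2.le]
  funext v
  simp only [Pi.add_apply, Pi.smul_apply, Pi.sub_apply, smul_eq_mul, seg_apply]
  ring

/-- two edge vectors of a triangle are linearly independent -/
theorem indep (hS : S.IsSurf) {a b t : Fin N} (h : ({a, b, t} : Finset (Fin N)) ∈ S.T) (hab : a ≠ b)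
    (hat : a ≠ t) (hbt : b ≠ t) {β γ : ℝ} (e : β • (S.P b - S.P a) + γ • (S.P t - S.P a) = 0) :
    β = 0 ∧ γ = 0 := by
  obtain ⟨m, hm, ht⟩ := hS.hT2 _ h a (by simp)
  have hf := hS.hfan1 a m hm
  have eX : β * S.X a (S.P b - S.P a) + γ * S.X a (S.P t - S.P a) = 0 := by
    have := congrArg (S.X a) e
    simpa using this
  have eY : β * S.Y a (S.P b - S.P a) + γ * S.Y a (S.P t - S.P a) = 0 := by
    have := congrArg (S.Y a) e
    simpa using this
  have eZ : β * S.Z a (S.P b - S.P a) + γ * S.Z a (S.P t - S.P a) = 0 := by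
    have := congrArg (S.Z a) e
    simpa using this
  have hb : b = S.nb a m ∨ b = S.nb a (m + 1) := by
    have : b ∈ ({a, S.nb a m, S.nb a (m + 1)} : Finset (Fin N)) := by rw [← ht]; simp
    simp only [Finset.mem_insert, Finset.mem_singleton] at this
    rcases this with h | h
    · exact absurd h.symm hab
    · exact h
  have ht' : t = S.nb a m ∨ t = S.nb a (m + 1) := by
    have : t ∈ ({a, S.nb a m, S.nb a (m + 1)} : Finset (Fin N)) := by rw [← ht]; simp
    simp only [Finset.mem_insert, Finset.mem_singleton] at this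
    rcases this with h | h
    · exact absurd h.symm hat
    · exact h
  unfold cr PolyData.Q PolyData.DX PolyData.DY PolyData.DZ at hf
  simp only at hf
  have hne : ∀ A B C D E F : ℝ, 0 < S.κ a * ((A - C) * (E - F) - (B - C) * (D - F)) →
      β * A + γ * D = 0 → β * B + γ * E = 0 → β * C + γ * F = 0 → β = 0 ∧ γ = 0 := by
    intro A B C D E F hp h1 h2 h3
    have hq : ((A - C) * (E - F) - (B - C) * (D - F)) ≠ 0 := by
      intro h0
      rw [h0, mul_zero] at hp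
      exact lt_irrefl _ hp
    constructor
    · have : β * ((A - C) * (E - F) - (B - C) * (D - F)) = 0 := by
        linear_combination (E - F) * (h1 - h3) - (D - F) * (h2 - h3)
      exact (mul_eq_zero.1 this).resolve_right hq
    · have : γ * ((A - C) * (E - F) - (B - C) * (D - F)) = 0 := by
        linear_combination (A - C) * (h2 - h3) - (B - C) * (h1 - h3)
      exact (mul_eq_zero.1 this).resolve_right hq
  rcases hb with hb | hb <;> rcases ht' with ht' | ht'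
  · exact absurd (hb.trans ht'.symm) hbt
  · rw [← hb, ← ht'] at hf
    exact hne _ _ _ _ _ _ hf eX eY eZ
  · rw [← hb, ← ht'] at hf
    have hf' : 0 < S.κ a * -((S.X a (S.P b - S.P a) - S.Z a (S.P b - S.P a)) *
        (S.Y a (S.P t - S.P a) - S.Z a (S.P t - S.P a)) -
        (S.Y a (S.P b - S.P a) - S.Z a (S.P b - S.P a)) *
        (S.X a (S.P t - S.P a) - S.Z a (S.P t - S.P a))) := by
      have e' : ∀ A B C D : ℝ, A * B - C * D = -(D * C - B * A) := fun A B C D => by ring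
      rw [e'] at hf
      convert hf using 3
    have hq : ((S.X a (S.P b - S.P a) - S.Z a (S.P b - S.P a)) *
        (S.Y a (S.P t - S.P a) - S.Z a (S.P t - S.P a)) -
        (S.Y a (S.P b - S.P a) - S.Z a (S.P b - S.P a)) *
        (S.X a (S.P t - S.P a) - S.Z a (S.P t - S.P a))) ≠ 0 := by
      intro h0
      rw [h0, neg_zero, mul_zero] at hf'
      exact lt_irrefl _ hf'
    constructor
    · have : β * ((S.X a (S.P b - S.P a) - S.Z a (S.P b - S.P a)) *
        (S.Y a (S.P t - S.P a) - S.Z a (S.P t - S.P a)) -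
        (S.Y a (S.P b - S.P a) - S.Z a (S.P b - S.P a)) *
        (S.X a (S.P t - S.P a) - S.Z a (S.P t - S.P a))) = 0 := by
        linear_combination (S.Y a (S.P t - S.P a) - S.Z a (S.P t - S.P a)) * (eX - eZ) -
          (S.X a (S.P t - S.P a) - S.Z a (S.P t - S.P a)) * (eY - eZ)
      exact (mul_eq_zero.1 this).resolve_right hq
    · have : γ * ((S.X a (S.P b - S.P a) - S.Z a (S.P b - S.P a)) *
        (S.Y a (S.P t - S.P a) - S.Z a (S.P t - S.P a)) -
        (S.Y a (S.P b - S.P a) - S.Z a (S.P b - S.P a)) *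
        (S.X a (S.P t - S.P a) - S.Z a (S.P t - S.P a))) = 0 := by
        linear_combination (S.X a (S.P b - S.P a) - S.Z a (S.P b - S.P a)) * (eY - eZ) -
          (S.Y a (S.P b - S.P a) - S.Z a (S.P b - S.P a)) * (eX - eZ)
      exact (mul_eq_zero.1 this).resolve_right hq
  · exact absurd (hb.trans ht'.symm) hbt

/-- `g` is injective on the directions of a triangle -/
theorem g_inj (hS : S.IsSurf) (hC : C.IsCrv S) (i : ℤ) {u : Fin N → ℝ}
    (hu : ∀ v, v ∉ C.tri i → u v = 0) (h0 : u (C.a i) + u (C.b i) + u (C.t i) = 0)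
    (hg : S.g u = 0) : u = 0 := by
  have hn := tri_ne hS hC i
  have hab := hC.hab i
  unfold PolyData.g at hg
  rw [sum3 hS hC i (fun v => u v • S.P v) (fun v hv => by simp [hu v hv])] at hg
  have e : u (C.b i) • (S.P (C.b i) - S.P (C.a i)) + u (C.t i) • (S.P (C.t i) - S.P (C.a i)) = 0 := by
    have ha : u (C.a i) = - u (C.b i) - u (C.t i) := by linarith
    rw [ha] at hg
    rw [← hg]
    module
  obtain ⟨hb, ht⟩ := indep hS (hC.htri i) hab hn.1 hn.2 e
  have ha : u (C.a i) = 0 := by linarith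
  funext v
  by_cases hv : v ∈ C.tri i
  · unfold Crv.tri at hv
    simp only [Finset.mem_insert, Finset.mem_singleton] at hv
    rcases hv with h | h | h <;> rw [h]
    · exact ha
    · exact hb
    · exact ht
  · exact hu v hv

theorem det3_lin (a b c : Fin N) (x y u v : Fin N → ℝ) (α β : ℝ) :
    Crv.det3 a b c x y (α • u + β • v) = α * Crv.det3 a b c x y u + β * Crv.det3 a b c x y v := by
  unfold Crv.det3
  simp only [Pi.add_apply, Pi.smul_apply, smul_eq_mul]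
  ring

theorem det3_sub (a b c : Fin N) (x y u v : Fin N → ℝ) :
    Crv.det3 a b c x y (u - v) = Crv.det3 a b c x y u - Crv.det3 a b c x y v := by
  unfold Crv.det3
  simp only [Pi.sub_apply]
  ring

theorem det3_zero (a b c : Fin N) (x y : Fin N → ℝ) : Crv.det3 a b c x y 0 = 0 := by
  unfold Crv.det3
  simp

theorem dir_indep (hS : S.IsSurf) (hC : C.IsCrv S) (hC' : C'.IsCrv S) {i j : ℤ}
    (ht : C.tri i = C'.tri j) (hx : Crs C C' i j) {α β : ℝ}
    (h : α • C.D S i + β • C'.D S j = 0) : α = 0 ∧ β = 0 := by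
  have e : S.g (α • (C.pt (i + 1) - C.pt i) + β • (C'.pt (j + 1) - C'.pt j)) = 0 := by
    rw [g_add, g_smul, g_smul, g_sub, g_sub]
    exact h
  have s3 : ∀ x : Fin N → ℝ, (∀ v, v ∉ C.tri i → x v = 0) → ∑ v, x v = 1 →
      x (C.a i) + x (C.b i) + x (C.t i) = 1 := by
    intro x h1 h2
    rw [← sum3 hS hC i x h1, h2]
  have s1 := s3 (C.pt i) (fun v hv => (pt_out hC hv).1) (pt_sum i)
  have s2 := s3 (C.pt (i + 1)) (fun v hv => (pt_out hC hv).2) (pt_sum (i + 1))
  have s1' := s3 (C'.pt j) (fun v hv => (pt_out hC' (by rw [← ht]; exact hv)).1) (pt_sum j)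
  have s2' := s3 (C'.pt (j + 1)) (fun v hv => (pt_out hC' (by rw [← ht]; exact hv)).2)
    (pt_sum (j + 1))
  have hz := g_inj hS hC i (u := α • (C.pt (i + 1) - C.pt i) + β • (C'.pt (j + 1) - C'.pt j))
    (fun v hv => by
      have o := pt_out hC hv
      have o' := pt_out hC' (show v ∉ C'.tri j by rw [← ht]; exact hv)
      simp [o.1, o.2, o'.1, o'.2])
    (by
      simp only [Pi.add_apply, Pi.smul_apply, Pi.sub_apply, smul_eq_mul]
      linear_combination α * (s2 - s1) + β * (s2' - s1')) e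
  obtain ⟨hD, hE⟩ := hx
  obtain ⟨dne, -, -⟩ := ratio hD
  obtain ⟨ene, -, -⟩ := ratio hE
  constructor
  · have k := congrArg (Crv.det3 (C.a i) (C.b i) (C.t i) (C'.pt j) (C'.pt (j + 1))) hz
    rw [det3_lin, det3_sub, det3_sub, det3_self1, det3_self2, det3_zero] at k
    have : α * (Crv.det3 (C.a i) (C.b i) (C.t i) (C'.pt j) (C'.pt (j + 1)) (C.pt i) -
      Crv.det3 (C.a i) (C.b i) (C.t i) (C'.pt j) (C'.pt (j + 1)) (C.pt (i + 1))) = 0 := by
      linear_combination -k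
    exact (mul_eq_zero.1 this).resolve_right ene
  · have k := congrArg (Crv.det3 (C.a i) (C.b i) (C.t i) (C.pt i) (C.pt (i + 1))) hz
    rw [det3_lin, det3_sub, det3_sub, det3_self1, det3_self2, det3_zero] at k
    have : β * (Crv.det3 (C.a i) (C.b i) (C.t i) (C.pt i) (C.pt (i + 1)) (C'.pt j) -
      Crv.det3 (C.a i) (C.b i) (C.t i) (C.pt i) (C.pt (i + 1)) (C'.pt (j + 1))) = 0 := by
      linear_combination -k
    exact (mul_eq_zero.1 this).resolve_right dne

theorem c0_cont (C : Crv N) : Continuous C.c0 := by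
  have : C.c0 = fun s => phi C (C.L * s) := by funext s; rfl
  rw [this]
  exact (phi_cont C).comp (by fun_prop)

/-- local straightness of one curve -/
theorem straight {ψ : ℝ → ℝ} {δ : ℝ} {c : ℝ → Realization S.T} (hc : ∀ s, (c s).1 = C.c0 s) {s : ℝ}
    (h0 : 0 < Int.fract (C.L * s)) (hf : ∀ᶠ y in nhds (c s), S.f ψ δ y = S.g y.1) :
    ∀ᶠ τ in nhds (0 : ℝ), S.f ψ δ (c (s + τ)) =
      S.f ψ δ (c s) + τ • ((C.L : ℝ) • C.D S ⌊C.L * s⌋) := by
  have hcc : Continuous c := by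
    rw [Topology.IsInducing.subtypeVal.continuous_iff]
    have : Subtype.val ∘ c = C.c0 := by funext s; exact hc s
    rw [this]
    exact c0_cont C
  have h1 : ∀ᶠ τ in nhds (0 : ℝ), S.f ψ δ (c (s + τ)) = S.g (c (s + τ)).1 := by
    have h2 : Continuous fun τ : ℝ => c (s + τ) := hcc.comp (by fun_prop)
    have h3 : Filter.Tendsto (fun τ : ℝ => c (s + τ)) (nhds 0) (nhds (c s)) := by
      have := h2.tendsto 0
      simpa using this
    exact h3.eventually hf
  have h2 : S.f ψ δ (c s) = S.g (c s).1 := hf.self_of_nhds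
  filter_upwards [h1, loc_c0 h0] with τ a1 a2
  rw [a1, h2, hc, hc, a2, g_add, g_smul, g_sub, mul_smul, Crv.D, smul_comm]

end MTSM

open CCM MTSM

theorem specMTS (hG3 : SpecG3) : SpecMTS := by
  intro N S hS C C' hC hC' hpt hcs m hm ψ hψ
  have hcount : (MS C C').encard = m := (count hS hC hC' hpt hcs).trans hm
  have hfin : (MS C C').Finite := Set.finite_of_encard_eq_coe hcount
  let cc : ℝ → Realization S.T := fun s => ⟨C.c0 s, by
    rw [c0_eq]; exact seg_mem hC _ (Int.fract_nonneg _) (Int.fract_lt_one _).le⟩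
  let K : Set (Realization S.T) := (fun p : ℝ × ℝ => cc p.1) '' MS C C'
  have hK : IsCompact K := (hfin.image _).isCompact
  have hmeet : ∀ s t : ℝ, C.c0 s = C'.c0 t →
      0 < Int.fract (C.L * s) ∧ 0 < Int.fract (C'.L * t) ∧
      C.tri ⌊C.L * s⌋ = C'.tri ⌊C'.L * t⌋ ∧ Crs C C' ⌊C.L * s⌋ ⌊C'.L * t⌋ := by
    intro s t h
    rw [c0_eq, c0_eq] at h
    exact meet hS hC hC' hpt hcs (Int.fract_nonneg _) (Int.fract_lt_one _)
      (Int.fract_nonneg _) (Int.fract_lt_one _) h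
  have hdis : Disjoint K S.RE := by
    rw [Set.disjoint_left]
    rintro x ⟨⟨s, t⟩, ⟨_, _, h⟩, rfl⟩ ⟨v, e, hv⟩
    obtain ⟨h0, -, -, -⟩ := hmeet s t h
    have hsup : C.tri ⌊C.L * s⌋ ⊆ {v, S.r v e} := by
      intro w hw
      have := (seg_supp hS hC ⌊C.L * s⌋ h0 (Int.fract_lt_one _) w).2 hw
      have h2 : (cc s).1 w ≠ 0 := by
        show C.c0 s w ≠ 0
        rw [c0_eq]
        exact this.ne'
      have := hv w h2
      simpa using this
    have h3 := tri_card hS hC ⌊C.L * s⌋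
    have h4 := Finset.card_le_card hsup
    have h5 := Finset.card_le_two (a := v) (b := S.r v e)
    omega
  filter_upwards [hG3 N S hS ψ hψ K hK hdis] with δ hδ c c' hc hc'
  have iff1 : ∀ s t, c s = c' t ↔ C.c0 s = C'.c0 t := by
    intro s t
    rw [← hc, ← hc']
    exact Subtype.ext_iff
  refine ⟨?_, ?_⟩
  · rw [← hcount]
    congr 1
    ext p
    simp only [Set.mem_ofPred_eq, MS, iff1]
  · intro s t hst
    rw [iff1] at hst
    obtain ⟨h0, h0', htr, hx⟩ := hmeet s t hst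
    have hcK : c s ∈ K := by
      refine ⟨(Int.fract s, Int.fract t), ⟨⟨Int.fract_nonneg _, Int.fract_lt_one _⟩,
        ⟨Int.fract_nonneg _, Int.fract_lt_one _⟩, ?_⟩, ?_⟩
      · simp only
        rw [c0_fract hC, c0_fract hC', hst]
      · apply Subtype.ext
        show C.c0 (Int.fract s) = (c s).1
        rw [c0_fract hC, hc]
    have hf := hδ _ hcK
    have hf' : ∀ᶠ y in nhds (c' t), S.f ψ δ y = S.g y.1 := by
      rw [← (iff1 s t).2 hst]; exact hf
    have e1 := straight hc h0 hf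
    have e2 := straight hc' h0' hf'
    refine ⟨(C.L : ℝ) • C.D S ⌊C.L * s⌋, (C'.L : ℝ) • C'.D S ⌊C'.L * t⌋, ?_, ?_⟩
    · rw [LinearIndependent.pair_iff]
      intro α β hab
      rw [smul_smul, smul_smul] at hab
      obtain ⟨k1, k2⟩ := dir_indep hS hC hC' htr hx hab
      have hL : (C.L : ℝ) ≠ 0 := by exact_mod_cast hC.hL.ne'
      have hL' : (C'.L : ℝ) ≠ 0 := by exact_mod_cast hC'.hL.ne'
      exact ⟨(mul_eq_zero.1 k1).resolve_right hL, (mul_eq_zero.1 k2).resolve_right hL'⟩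
    · obtain ⟨ε, hε, hball⟩ := Metric.eventually_nhds_iff.1 (e1.and e2)
      refine ⟨ε, hε, fun τ hτ => ?_⟩
      exact hball (by simpa [Real.dist_eq] using hτ)

end Pool.Agent.Lib.MP_0b1f3c_gt.TI
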