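import Pool.Agent.Lib.MP_0b1f3c_gt.TI.SpecG

/-!
# Module NRV: points whose image is very near a vertex
-/

open scoped Manifold ContDiff InnerProductSpace Topology
open Filter Set

noncomputable section

namespace Pool.Agent.Lib.MP_0b1f3c_gt.TI

namespace NRVM

variable {N : ℕ} (S : PolyData N)

theorem cont_g : Continuous S.g := by
  unfold PolyData.g
  fun_prop

theorem tau_mem (t : ℝ) : 0 ≤ PolyData.tau t ∧ PolyData.tau t ≤ 1 := by
  unfold PolyData.tau
  exact ⟨le_max_left _ _, max_le zero_le_one (min_le_left _ _)⟩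

/-- bound of the direction of the correction -/
def Cv (v : Fin N) : ℝ := ‖S.d v‖ + ∑ e : Fin 3, ‖S.dbar v e - S.d v‖

theorem Cv_nonneg (v : Fin N) : 0 ≤ Cv S v :=
  add_nonneg (norm_nonneg _) (Finset.sum_nonneg fun _ _ => norm_nonneg _)

theorem norm_corr (ψ : ℝ → ℝ) (δ : ℝ) (v : Fin N) (x : Fin N → ℝ) :
    ‖S.corr ψ δ v x‖ ≤ |S.F ψ δ v (S.g x)| * Cv S v := by
  unfold PolyData.corr
  rw [norm_smul, Real.norm_eq_abs]
  refine mul_le_mul_of_nonneg_left ?_ (abs_nonneg _)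
  unfold Cv
  refine (norm_add_le _ _).trans (add_le_add_right ?_ _)
  refine (norm_sum_le _ _).trans (Finset.sum_le_sum fun e _ => ?_)
  rw [norm_smul, Real.norm_eq_abs, abs_of_nonneg (tau_mem _).1]
  exact mul_le_of_le_one_left (norm_nonneg _) (tau_mem _).2

/-- `f` is near `g` -/
theorem bound (hTPX : SpecTPX) (hFFA : SpecFFA) (hS : S.IsSurf) (ψ : ℝ → ℝ) (hψ : IsPsi ψ) :
    ∃ C : ℝ, 0 ≤ C ∧ ∀ᶠ δ in 𝓝[>] (0 : ℝ), ∀ x : Realization S.T,
      ‖S.f ψ δ x - S.g x.1‖ ≤ 2 * δ * C := by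
  refine ⟨∑ v, Cv S v, Finset.sum_nonneg fun v _ => Cv_nonneg S v, ?_⟩
  filter_upwards [hTPX N S hS ψ hψ, self_mem_nhdsWithin] with δ h1 hδ x
  have hδ' : (0 : ℝ) < δ := hδ
  have : Nonempty (Fin N) := ⟨⟨0, hS.hN⟩⟩
  obtain ⟨v, hv⟩ := Finite.exists_max x.1
  have hpos : 0 < x.1 v := by
    by_contra h0
    push Not at h0
    have h2 : ∑ i, x.1 i ≤ 0 := Finset.sum_nonpos fun i _ => (hv i).trans h0
    rw [x.2.2.1] at h2
    linarith
  rw [h1 v x hv, sub_sub_cancel_left, norm_neg]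
  refine (norm_corr S ψ δ v x.1).trans ?_
  have h3 := (hFFA N S hS ψ hψ δ hδ v).bd x.1 x.2 hpos
  have h4 : Cv S v ≤ ∑ v, Cv S v :=
    Finset.single_le_sum (f := Cv S) (fun u _ => Cv_nonneg S u) (Finset.mem_univ v)
  exact mul_le_mul h3 h4 (Cv_nonneg S v) (by positivity)

theorem g_single (v : Fin N) : S.g (Pi.single v 1) = S.P v := by
  unfold PolyData.g
  rw [Finset.sum_eq_single v]
  · simp
  · intro b _ hb
    simp [hb]
  · intro h
    exact absurd (Finset.mem_univ v) h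

/-- only the vertex `v` is mapped to `P v` in the star of `v` -/
theorem eq_single (hSTR : SpecSTR) (hS : S.IsSurf) (v : Fin N) {x : Fin N → ℝ}
    (hx : x ∈ Realization S.T) (hv : 0 < x v) (h : S.g x = S.P v) : x = Pi.single v 1 := by
  obtain ⟨Λ, -, -, -, h4⟩ := hSTR N S hS v
  have hmem : (Pi.single v 1 : Fin N → ℝ) ∈ Realization S.T := by
    refine ⟨fun i => ?_, ?_, ?_⟩
    · by_cases hi : i = v
      · subst hi; simp
      · simp [hi]
    · simp
    · have hk := hS.hk v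
      refine ⟨_, hS.hT1 v 0 (by omega), fun i hi => ?_⟩
      have : i = v := by
        by_contra hne
        exact hi (by simp [hne])
      subst this
      simp
  have h5 := h4 x hx hv
  have h6 := h4 (Pi.single v 1) hmem (by simp)
  have h7 : S.j v x = S.j v (Pi.single v 1) := by
    unfold PolyData.j
    rw [h, g_single]
  rw [← h5, h7, h6]

end NRVM

open NRVM in
theorem specNRV (hTPX : SpecTPX) (hFFA : SpecFFA) (hSTR : SpecSTR) (hCPT : SpecCPT) : SpecNRV := by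
  intro N S hS ψ hψ
  obtain ⟨C, hC, hbd⟩ := bound S hTPX hFFA hS ψ hψ
  have hall : ∀ v : Fin N, ∀ᶠ δ in 𝓝[>] (0 : ℝ), ∀ x : Realization S.T, 1 / 9 ≤ x.1 v →
      |S.X v (S.f ψ δ x - S.P v)| ≤ 4 * δ → |S.Y v (S.f ψ δ x - S.P v)| ≤ 4 * δ →
      |S.Z v (S.f ψ δ x - S.P v)| ≤ 4 * δ → x ∈ S.zone1 v := by
    intro v
    set K : Set (Fin N → ℝ) := {x | x ∈ Realization S.T ∧ 1 / 9 ≤ x v ∧ ∃ u, u ≠ v ∧ 1 / 8 ≤ x u} with hK
    have hKc : IsCompact K := by
      refine (hCPT N S.T).inter_right (t := {x | 1 / 9 ≤ x v ∧ ∃ u, u ≠ v ∧ 1 / 8 ≤ x u}) ?_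
      refine IsClosed.inter (s₁ := {x : Fin N → ℝ | 1 / 9 ≤ x v})
        (s₂ := {x : Fin N → ℝ | ∃ u, u ≠ v ∧ 1 / 8 ≤ x u})
        (isClosed_le continuous_const (continuous_apply v)) ?_
      have : {x : Fin N → ℝ | ∃ u, u ≠ v ∧ 1 / 8 ≤ x u} =
          ⋃ u ∈ {u : Fin N | u ≠ v}, {x : Fin N → ℝ | 1 / 8 ≤ x u} := by
        ext x
        simp
      rw [this]
      exact (toFinite _).isClosed_biUnion fun u _ => isClosed_le continuous_const (continuous_apply u)
    have hcont : Continuous fun x : Fin N → ℝ => |S.X v (S.g x - S.P v)| + |S.Y v (S.g x - S.P v)| +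
        |S.Z v (S.g x - S.P v)| := by
      have hg := (cont_g S).sub (continuous_const (y := S.P v))
      exact (((S.X v).continuous.comp hg).abs.add ((S.Y v).continuous.comp hg).abs).add
        ((S.Z v).continuous.comp hg).abs
    obtain ⟨c, hc, hcK⟩ : ∃ c : ℝ, 0 < c ∧ ∀ x ∈ K, c ≤ |S.X v (S.g x - S.P v)| +
        |S.Y v (S.g x - S.P v)| + |S.Z v (S.g x - S.P v)| := by
      rcases K.eq_empty_or_nonempty with he | hne
      · exact ⟨1, one_pos, fun x hx => absurd hx (by rw [he]; exact notMem_empty x)⟩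
      · obtain ⟨x₀, hx₀, hmin⟩ := hKc.exists_isMinOn hne hcont.continuousOn
        refine ⟨_, ?_, fun x hx => hmin hx⟩
        obtain ⟨hr, h9, u, hu, h8⟩ := hx₀
        have h0 : 0 ≤ |S.X v (S.g x₀ - S.P v)| + |S.Y v (S.g x₀ - S.P v)| + |S.Z v (S.g x₀ - S.P v)| := by
          positivity
        refine lt_of_le_of_ne h0 fun he => ?_
        have a1 := abs_nonneg (S.X v (S.g x₀ - S.P v))
        have a2 := abs_nonneg (S.Y v (S.g x₀ - S.P v))
        have a3 := abs_nonneg (S.Z v (S.g x₀ - S.P v))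
        have b1 : S.X v (S.g x₀ - S.P v) = 0 := abs_eq_zero.1 (by linarith)
        have b2 : S.Y v (S.g x₀ - S.P v) = 0 := abs_eq_zero.1 (by linarith)
        have b3 : S.Z v (S.g x₀ - S.P v) = 0 := abs_eq_zero.1 (by linarith)
        have b4 := sub_eq_zero.1 (hS.hinj v _ b1 b2 b3)
        have b5 := eq_single S hSTR hS v hr (by linarith) b4
        rw [b5, Pi.single_eq_of_ne hu] at h8
        linarith
    set M : ℝ := ‖S.X v‖ + ‖S.Y v‖ + ‖S.Z v‖ with hM
    have hM0 : 0 ≤ M := by positivity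
    have hsmall : ∀ᶠ δ in 𝓝[>] (0 : ℝ), 12 * δ + 2 * δ * C * M < c := by
      have h1 : Tendsto (fun δ : ℝ => 12 * δ + 2 * δ * C * M) (𝓝 0) (𝓝 (12 * 0 + 2 * 0 * C * M)) := by
        apply Continuous.tendsto
        fun_prop
      have h2 : (12 * 0 + 2 * 0 * C * M : ℝ) < c := by simpa using hc
      exact (h1.eventually_lt_const h2).filter_mono nhdsWithin_le_nhds
    filter_upwards [hbd, hsmall] with δ h1 h2 x h9 hX hY hZ
    by_contra hz
    have hxK : x.1 ∈ K := by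
      refine ⟨x.2, h9, ?_⟩
      unfold PolyData.zone1 at hz
      simp only [mem_ofPred_eq, not_forall, not_lt] at hz
      obtain ⟨u, hu, hu'⟩ := hz
      exact ⟨u, hu, hu'⟩
    have h3 := hcK x.1 hxK
    have h4 := h1 x
    have key : ∀ Λ : E3 →L[ℝ] ℝ, |Λ (S.f ψ δ x - S.P v)| ≤ 4 * δ →
        |Λ (S.g x.1 - S.P v)| ≤ 4 * δ + ‖Λ‖ * (2 * δ * C) := by
      intro Λ hΛ
      have e : S.g x.1 - S.P v = (S.f ψ δ x - S.P v) - (S.f ψ δ x - S.g x.1) := by abel
      rw [e, map_sub]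
      refine (abs_sub _ _).trans (add_le_add hΛ ?_)
      rw [← Real.norm_eq_abs]
      exact (Λ.le_opNorm _).trans (mul_le_mul_of_nonneg_left h4 (norm_nonneg _))
    have k1 := key _ hX
    have k2 := key _ hY
    have k3 := key _ hZ
    have : c ≤ 12 * δ + 2 * δ * C * M := by
      rw [hM]
      nlinarith
    linarith
  filter_upwards [eventually_all.2 hall] with δ h v x using h v x

end Pool.Agent.Lib.MP_0b1f3c_gt.TI
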