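import Pool.Agent.Lib.MP_0b1f3c_gt.TI.SpecC

/-! Module NRX: the normal vectors are normal in the sense of the manifold structure. -/

open scoped Manifold ContDiff InnerProductSpace Quaternion

noncomputable section

namespace Pool.Agent.Lib.MP_0b1f3c_gt.TI

namespace NRXM

variable {N : ℕ} {S : PolyData N}

lemma mx_add (ψ : ℝ → ℝ) (δ a b t : ℝ) : mx ψ δ (a + t) (b + t) = mx ψ δ a b + t := by
  unfold mx
  rw [add_sub_add_right_eq_sub]
  ring

lemma mn_add (ψ : ℝ → ℝ) (δ a b t : ℝ) : mn ψ δ (a + t) (b + t) = mn ψ δ a b + t := by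
  unfold mn
  rw [add_sub_add_right_eq_sub]
  ring

lemma locF_add (ψ : ℝ → ℝ) (δ κ X Y Z t : ℝ) :
    locF ψ δ κ (X + t) (Y + t) (Z + t) = locF ψ δ κ X Y Z + t := by
  unfold locF
  split_ifs
  · rw [mn_add, mx_add]
  · rw [mx_add, mx_add]

lemma F_add (hS : S.IsSurf) (ψ : ℝ → ℝ) (δ : ℝ) (v : Fin N) (p : E3) (t : ℝ) :
    S.F ψ δ v (p + t • S.d v) = S.F ψ δ v p + t := by
  obtain ⟨h1, h2, h3⟩ := hS.hd v
  have e : p + t • S.d v - S.P v = (p - S.P v) + t • S.d v := by abel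
  unfold PolyData.F
  rw [e, map_add, map_add, map_add, map_smul, map_smul, map_smul, h1, h2, h3, smul_eq_mul, mul_one,
    locF_add]

lemma F_f (hS : S.IsSurf) (hG2 : SpecG2) (ψ : ℝ → ℝ) (δ : ℝ) (v : Fin N) (y : Realization S.T)
    (hy : ∀ w, w ≠ v → y.1 w < 1 / 8) : S.F ψ δ v (S.f ψ δ y) = 0 := by
  rw [hG2 N S hS ψ δ v y hy, sub_eq_add_neg, ← neg_smul, F_add hS]
  ring

lemma diff_psiD {ψ : ℝ → ℝ} (hψ : IsPsi ψ) (δ : ℝ) : Differentiable ℝ (psiD ψ δ) := by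
  have h : Differentiable ℝ ψ := hψ.smooth.differentiable (by simp)
  unfold psiD
  fun_prop

lemma diff_F {ψ : ℝ → ℝ} (hψ : IsPsi ψ) (δ : ℝ) (v : Fin N) : Differentiable ℝ (S.F ψ δ v) := by
  have h := diff_psiD hψ δ
  unfold PolyData.F locF mx mn
  split_ifs
  · fun_prop
  · fun_prop

/-- the derivative of a function vanishing on the surface -/
lemma deriv_zero [CS : ChartedSpace E2 (Realization S.T)] {f : Realization S.T → E3}
    {x : Realization S.T} (hf : MDifferentiableAt (𝓡 2) 𝓘(ℝ, E3) f x) {Φ : E3 → ℝ}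
    (hΦ : DifferentiableAt ℝ Φ (f x)) {c : ℝ} (h : ∀ᶠ y in nhds x, Φ (f y) = c)
    (v : TangentSpace (𝓡 2) x) :
    fderiv ℝ Φ (f x) ((mfderiv (𝓡 2) 𝓘(ℝ, E3) f x v : E3)) = 0 := by
  have h1 : mfderiv (𝓡 2) 𝓘(ℝ, ℝ) (Φ ∘ f) x = 0 := by
    have h2 : (Φ ∘ f) =ᶠ[nhds x] fun _ => c := h
    rw [h2.mfderiv_eq, mfderiv_const]
    rfl
  have h3 : mfderiv (𝓡 2) 𝓘(ℝ, ℝ) (Φ ∘ f) x =
      (mfderiv 𝓘(ℝ, E3) 𝓘(ℝ, ℝ) Φ (f x)).comp (mfderiv (𝓡 2) 𝓘(ℝ, E3) f x) :=
    mfderiv_comp x hΦ.mdifferentiableAt hf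
  rw [mfderiv_eq_fderiv] at h3
  rw [h1] at h3
  have h4 := congrArg (fun L => L v) h3
  exact h4.symm

end NRXM

theorem specNRX (hG2 : SpecG2) : SpecNRX := by
  intro N S hS ψ hψ δ hδ CS hM hf x n hn v
  have hfx : MDifferentiableAt (𝓡 2) 𝓘(ℝ, E3) (S.f ψ δ) x := (hf.mdifferentiable (by simp)) x
  rcases hn with ⟨v0, hv0, μ, hμ⟩ | h
  · refine (hμ _).trans ?_
    have hU : ∀ᶠ y in nhds x, ∀ w, w ≠ v0 → y.1 w < 1 / 8 := by
      rw [Filter.eventually_all]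
      intro w
      by_cases hw : w = v0
      · exact Filter.Eventually.of_forall fun y h => absurd hw h
      · have hc : Continuous fun y : Realization S.T => y.1 w :=
          (continuous_apply w).comp continuous_subtype_val
        exact ((hc.tendsto x).eventually_lt_const (hv0 w hw)).mono fun y hy _ => hy
    have h0 : ∀ᶠ y in nhds x, S.F ψ δ v0 (S.f ψ δ y) = 0 :=
      hU.mono fun y hy => NRXM.F_f hS hG2 ψ δ v0 y hy
    have h3 := NRXM.deriv_zero hfx (NRXM.diff_F hψ δ v0 _) h0 v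
    exact (congrArg (fun r => μ * r) h3).trans (mul_zero μ)
  · have hx := h.self_of_nhds
    have h1 : ∀ᶠ y in nhds x, (innerSL ℝ n) (S.f ψ δ y) = inner ℝ n (S.g x.1) := by
      refine h.mono fun y hy => ?_
      rw [innerSL_apply_apply, hy.1]
      have := hy.2
      rw [inner_sub_right] at this
      linarith
    have h2 := NRXM.deriv_zero hfx (innerSL ℝ n).differentiableAt h1 v
    rw [ContinuousLinearMap.fderiv] at h2
    exact (innerSL_apply_apply ℝ n _).symm.trans h2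

end Pool.Agent.Lib.MP_0b1f3c_gt.TI
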