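import Pool.Agent.Lib.MP_0b1f3c_gt.TI.G2

/-!
# Module PAT: everywhere a patch
-/

open scoped Manifold ContDiff InnerProductSpace Topology
open Filter Set

noncomputable section

namespace Pool.Agent.Lib.MP_0b1f3c_gt.TI

namespace PATM

variable {N : ℕ}

theorem coord (S : PolyData N) (u : Fin N) : Continuous (fun x : Realization S.T => x.1 u) :=
  (continuous_apply u).comp continuous_subtype_val

theorem open1 (S : PolyData N) (v : Fin N) : IsOpen (S.zone1 v) := by
  have h : S.zone1 v = ⋂ u : Fin N, {x : Realization S.T | u ≠ v → x.1 u < 1 / 8} := by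
    ext x
    simp [PolyData.zone1]
  rw [h]
  refine isOpen_iInter_of_finite fun u => ?_
  by_cases hu : u = v
  · simp [hu]
  · simp only [ne_eq, hu, not_false_eq_true, forall_true_left]
    exact isOpen_lt (coord S u) continuous_const

theorem open2 (S : PolyData N) (v : Fin N) (e : Fin 3) : IsOpen (S.zone2 v e) :=
  (isOpen_lt continuous_const (coord S v)).inter
    ((isOpen_lt continuous_const (coord S (S.r v e))).inter
      (isOpen_lt continuous_const ((coord S v).add (coord S (S.r v e)))))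

theorem open3 (S : PolyData N) : IsOpen S.zone3 := by
  have h : S.zone3 = ⋂ v : Fin N, ⋂ e : Fin 3,
      {x : Realization S.T | x.1 v + x.1 (S.r v e) < 31 / 32} := by
    ext x
    simp [PolyData.zone3]
  rw [h]
  exact isOpen_iInter_of_finite fun v => isOpen_iInter_of_finite fun e =>
    isOpen_lt ((coord S v).add (coord S (S.r v e))) continuous_const

/-- two different coordinates -/
theorem two {T : Finset (Finset (Fin N))} {x : Fin N → ℝ} (hx : x ∈ Realization T)
    {a b c : Fin N} (hab : a ≠ b) (hac : a ≠ c) (hbc : b ≠ c) : x a + x b + x c ≤ 1 := by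
  have h1 : ∑ i ∈ ({a, b, c} : Finset (Fin N)), x i ≤ ∑ i, x i :=
    Finset.sum_le_sum_of_subset_of_nonneg (Finset.subset_univ _) fun i _ _ => hx.1 i
  rw [hx.2.1, Finset.sum_insert (by simp [hab, hac]), Finset.sum_insert (by simp [hbc]),
    Finset.sum_singleton] at h1
  linarith

end PATM

theorem specPAT (hJOP : SpecJOP) (hEM2 : SpecEM2) (hVAN : SpecVAN) (hFFA : SpecFFA)
    (hZON : SpecZON) : SpecPAT := by
  intro N S hS ψ hψ
  filter_upwards [hEM2 N S hS ψ hψ, hVAN N S hS ψ hψ, hZON N S hS ψ hψ, self_mem_nhdsWithin] with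
    δ h1 h2 h3 hδ
  obtain ⟨hV1, hV2, hV3⟩ := h2
  have hF := fun v => hFFA N S hS ψ hψ δ hδ v
  -- zone 1
  have hZ1 : ∀ v, IsPatch (S.f ψ δ) (S.zone1 v) (S.F ψ δ v) (S.d v) (S.P v) (S.L v) := by
    intro v
    have hpos : ∀ x ∈ S.zone1 v, 0 < x.1 v := fun x hx => by
      have := G2M.big hS.hcard x.2 hx
      linarith
    have h4 : (fun x : S.zone1 v => S.L v (S.f ψ δ x.1 - S.P v)) =
        fun x : S.zone1 v => S.j v x.1.1 := by
      funext x
      rw [specG2 N S hS ψ δ v x.1 x.2, PolyData.j_eq]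
      have h5 : S.g x.1.1 - S.F ψ δ v (S.g x.1.1) • S.d v - S.P v =
          (S.g x.1.1 - S.P v) - S.F ψ δ v (S.g x.1.1) • S.d v := by abel
      rw [h5, map_sub, map_smul, (hF v).Ld, smul_zero, sub_zero]
    refine ⟨PATM.open1 S v, (hF v).smooth, (hF v).trans, (hF v).Ld, (hF v).surj, (hF v).ker,
      hV1 v, ?_⟩
    rw [h4]
    exact hJOP N S hS v _ (PATM.open1 S v) hpos
  intro p
  by_cases hp3 : p ∈ S.zone3
  · have : Nonempty (Fin N) := ⟨⟨0, hS.hN⟩⟩
    obtain ⟨v, hv⟩ := Finite.exists_max p.1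
    have h4 := G2M.third hS.hcard p.2 hv
    have hop : IsOpen (S.zone3 ∩ {x : Realization S.T | 1 / 9 < x.1 v}) :=
      (PATM.open3 S).inter (isOpen_lt continuous_const (PATM.coord S v))
    refine ⟨v, by linarith, S.zone3 ∩ {x : Realization S.T | 1 / 9 < x.1 v},
      ⟨hp3, by show (1 : ℝ) / 9 < p.1 v; linarith⟩, hop, (hF v).smooth, (hF v).trans, (hF v).Ld,
      (hF v).surj, (hF v).ker, fun x hx => hV3 v x hx.1 hx.2, ?_⟩
    have h5 : (fun x : (S.zone3 ∩ {x : Realization S.T | 1 / 9 < x.1 v} : Set (Realization S.T)) =>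
        S.L v (S.f ψ δ x.1 - S.P v)) =
        fun x : (S.zone3 ∩ {x : Realization S.T | 1 / 9 < x.1 v} : Set (Realization S.T)) =>
          S.j v x.1.1 := by
      funext x
      rw [h3.2 x.1 x.2.1, PolyData.j_eq]
    rw [h5]
    refine hJOP N S hS v _ hop fun x hx => ?_
    have : (1 : ℝ) / 9 < x.1 v := hx.2
    linarith
  · have h4 : ∃ v e, 31 / 32 ≤ p.1 v + p.1 (S.r v e) := by
      by_contra hcon
      push Not at hcon
      exact hp3 hcon
    obtain ⟨v, e, hve⟩ := h4
    have hne := G2M.rne S hS v e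
    by_cases hpv : p ∈ S.zone1 v
    · have h5 := G2M.big hS.hcard p.2 hpv
      exact ⟨v, by linarith, S.zone1 v, hpv, hZ1 v⟩
    by_cases hpw : p ∈ S.zone1 (S.r v e)
    · have h5 := G2M.big hS.hcard p.2 hpw
      exact ⟨S.r v e, by linarith, S.zone1 (S.r v e), hpw, hZ1 _⟩
    have hw : 1 / 8 ≤ p.1 (S.r v e) := by
      have h5 : ∃ u, u ≠ v ∧ 1 / 8 ≤ p.1 u := by
        by_contra hcon
        push Not at hcon
        exact hpv hcon
      obtain ⟨u, hu, hu8⟩ := h5
      by_cases huw : u = S.r v e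
      · rw [← huw]
        exact hu8
      · have h6 := PATM.two p.2 hne.symm (Ne.symm hu) (Ne.symm huw)
        linarith
    have hv : 1 / 8 ≤ p.1 v := by
      have h5 : ∃ u, u ≠ S.r v e ∧ 1 / 8 ≤ p.1 u := by
        by_contra hcon
        push Not at hcon
        exact hpw hcon
      obtain ⟨u, hu, hu8⟩ := h5
      by_cases huv : u = v
      · rw [← huv]
        exact hu8
      · have h6 := PATM.two p.2 hne.symm (Ne.symm huv) (Ne.symm hu)
        linarith
    refine ⟨v, by linarith, S.zone2 v e, ⟨by linarith, by linarith, by linarith⟩,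
      PATM.open2 S v e, (hF v).smooth, (hF v).trans, (hF v).Ld, (hF v).surj, (hF v).ker, hV2 v e,
      h1 v e⟩

end Pool.Agent.Lib.MP_0b1f3c_gt.TI
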