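import Pool.Agent.Lib.MP_0b1f3c_gt.TI.SpecG

/-!
# PSF: elementary facts on `ψ`
-/

open scoped Manifold ContDiff InnerProductSpace Topology
open Filter Set

noncomputable section

namespace Pool.Agent.Lib.MP_0b1f3c_gt.TI

namespace PSFM

variable {ψ : ℝ → ℝ}

theorem diff (h : IsPsi ψ) : Differentiable ℝ ψ := h.smooth.differentiable (by simp)

theorem dcont (h : IsPsi ψ) : Continuous (deriv ψ) := h.smooth.continuous_deriv (by simp)

theorem d0 (h : IsPsi ψ) {t : ℝ} (ht : t ≤ -1) : deriv ψ t = 0 := by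
  have hcl : IsClosed {t | deriv ψ t = 0} := isClosed_eq (dcont h) continuous_const
  have hsub : Iio (-1 : ℝ) ⊆ {t | deriv ψ t = 0} := by
    intro s hs
    have h1 : ψ =ᶠ[𝓝 s] fun _ => (0 : ℝ) := by
      filter_upwards [Iio_mem_nhds hs] with u hu
      exact h.zero u (le_of_lt hu)
    simp only [mem_ofPred_eq]
    rw [h1.deriv_eq, deriv_const]
  have h2 := hcl.closure_subset_iff.2 hsub
  rw [closure_Iio] at h2
  exact h2 ht

theorem d1 (h : IsPsi ψ) {t : ℝ} (ht : 1 ≤ t) : deriv ψ t = 1 := by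
  have hcl : IsClosed {t | deriv ψ t = 1} := isClosed_eq (dcont h) continuous_const
  have hsub : Ioi (1 : ℝ) ⊆ {t | deriv ψ t = 1} := by
    intro s hs
    have h1 : ψ =ᶠ[𝓝 s] fun u => u := by
      filter_upwards [Ioi_mem_nhds hs] with u hu
      exact h.id u (le_of_lt hu)
    simp only [mem_ofPred_eq]
    rw [h1.deriv_eq]
    exact (hasDerivAt_id s).deriv
  have h2 := hcl.closure_subset_iff.2 hsub
  rw [closure_Ioi] at h2
  exact h2 ht

theorem dio (h : IsPsi ψ) {t : ℝ} (h1 : -1 < t) (h2 : t < 1) : 0 < deriv ψ t ∧ deriv ψ t < 1 := by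
  constructor
  · have := h.dmono (show (-1 : ℝ) ∈ Icc (-1 : ℝ) 1 by constructor <;> norm_num)
      (show t ∈ Icc (-1 : ℝ) 1 from ⟨h1.le, h2.le⟩) h1
    rwa [d0 h le_rfl] at this
  · have := h.dmono (show t ∈ Icc (-1 : ℝ) 1 from ⟨h1.le, h2.le⟩)
      (show (1 : ℝ) ∈ Icc (-1 : ℝ) 1 by constructor <;> norm_num) h2
    rwa [d1 h le_rfl] at this

theorem d_bd (h : IsPsi ψ) (t : ℝ) : 0 ≤ deriv ψ t ∧ deriv ψ t ≤ 1 := by
  rcases le_or_gt t (-1) with h1 | h1
  · rw [d0 h h1]; norm_num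
  · rcases lt_or_ge t 1 with h2 | h2
    · exact ⟨(dio h h1 h2).1.le, (dio h h1 h2).2.le⟩
    · rw [d1 h h2]; norm_num

theorem mono (h : IsPsi ψ) : Monotone ψ := monotone_of_deriv_nonneg (diff h) fun t => (d_bd h t).1

theorem mono' (h : IsPsi ψ) : Monotone (fun t => t - ψ t) := by
  refine monotone_of_deriv_nonneg (differentiable_id.sub (diff h)) fun t => ?_
  have h1 : HasDerivAt (fun t => t - ψ t) (1 - deriv ψ t) t :=
    (hasDerivAt_id t).sub (diff h t).hasDerivAt
  rw [h1.deriv]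
  linarith [(d_bd h t).2]

theorem dsym (h : IsPsi ψ) (t : ℝ) : deriv ψ t + deriv ψ (-t) = 1 := by
  have h1 : HasDerivAt (fun t => ψ t - ψ (-t)) (deriv ψ t - deriv ψ (-t) * (-1)) t :=
    (diff h t).hasDerivAt.sub ((diff h (-t)).hasDerivAt.comp t (hasDerivAt_neg t))
  have h2 : (fun t => ψ t - ψ (-t)) = fun t => t := funext h.sym
  rw [h2] at h1
  have h3 := h1.unique (hasDerivAt_id t)
  linarith

end PSFM

open PSFM in
/-- **PSF** -/
theorem specPSF : SpecPSF := by
  intro ψ h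
  refine ⟨fun t => ?_, fun t => ?_, fun t => ?_, mono h, fun s t hst => ?_, fun t ht => d0 h ht,
    fun t ht => d1 h ht, fun t h1 h2 => dio h h1 h2, dsym h⟩
  · have h1 := mono h (min_le_left t (-1))
    rwa [h.zero _ (min_le_right t (-1))] at h1
  · have h1 := mono' h (le_max_left t 1)
    simp only [h.id _ (le_max_right t 1), sub_self] at h1
    linarith
  · rcases le_or_gt t 1 with h1 | h1
    · have h2 := mono h h1
      rw [h.id 1 le_rfl] at h2
      linarith [le_max_left (0 : ℝ) t]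
    · rw [h.id t h1.le]
      linarith [le_max_right (0 : ℝ) t]
  · have := mono' h hst
    simp only at this
    linarith

end Pool.Agent.Lib.MP_0b1f3c_gt.TI
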