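import Pool.Agent.Lib.MP_0b1f3c_gt.TI.SpecG

/-!
# Generic part, module SGN (helper57): signs of the local coordinates of the link
-/

open scoped Manifold ContDiff InnerProductSpace Topology
open Filter Set

noncomputable section

namespace Pool.Agent.Lib.MP_0b1f3c_gt.TI

namespace SGNM

/-- the data, as sequences -/
structure Dat (κ : ℝ) (k1 k2 k3 k : ℕ) (X Y Z : ℕ → ℝ) : Prop where
  hk : 0 < k1 ∧ k1 < k2 ∧ k2 < k
  hk3 : 0 < k3 ∧ k3 ≤ k
  hX : ∀ i ≤ k1, X i = 0
  hZ : ∀ i, k1 ≤ i → i ≤ k2 → Z i = 0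
  hY : ∀ i, k2 ≤ i → i ≤ k → Y i = 0
  pX : X k = X 0
  pY : Y k = Y 0
  r0 : Z 0 < 0
  r1 : 0 < κ * Y k1
  r2 : 0 < κ * X k2
  f1 : ∀ i < k, 0 < κ * ((X i - Z i) * (Y (i + 1) - Z (i + 1)) - (Y i - Z i) * (X (i + 1) - Z (i + 1)))
  f2 : ∀ i, 0 < i → i < k3 → 0 ≤ κ * ((X 0 - Z 0) * (Y i - Z i) - (Y 0 - Z 0) * (X i - Z i))
  f3 : ∀ i, k3 ≤ i → i < k → κ * ((X 0 - Z 0) * (Y i - Z i) - (Y 0 - Z 0) * (X i - Z i)) < 0

variable {κ : ℝ} {k1 k2 k3 k : ℕ} {X Y Z : ℕ → ℝ}

theorem zz (h : Dat κ k1 k2 k3 k X Y Z) : X 0 = 0 ∧ Y 0 = 0 :=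
  ⟨h.hX 0 (Nat.zero_le _), by rw [← h.pY]; exact h.hY k h.hk.2.2.le le_rfl⟩

theorem fX (h : Dat κ k1 k2 k3 k X Y Z) {i : ℕ} (hi : i < k1) : 0 < κ * (Y i * Z (i + 1) - Z i * Y (i + 1)) := by
  have h1 := h.f1 i (by have := h.hk; omega)
  rw [h.hX i hi.le, h.hX (i + 1) hi] at h1
  have e : Y i * Z (i + 1) - Z i * Y (i + 1) =
      (0 - Z i) * (Y (i + 1) - Z (i + 1)) - (Y i - Z i) * (0 - Z (i + 1)) := by ring
  rw [e]; exact h1

theorem fZ (h : Dat κ k1 k2 k3 k X Y Z) {i : ℕ} (hi : k1 ≤ i) (hi' : i < k2) :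
    0 < κ * (X i * Y (i + 1) - Y i * X (i + 1)) := by
  have h1 := h.f1 i (by have := h.hk; omega)
  rw [h.hZ i hi hi'.le, h.hZ (i + 1) (by omega) hi'] at h1
  have e : X i * Y (i + 1) - Y i * X (i + 1) =
      (X i - 0) * (Y (i + 1) - 0) - (Y i - 0) * (X (i + 1) - 0) := by ring
  rw [e]; exact h1

theorem fY (h : Dat κ k1 k2 k3 k X Y Z) {i : ℕ} (hi : k2 ≤ i) (hi' : i < k) :
    0 < κ * (Z i * X (i + 1) - X i * Z (i + 1)) := by
  have h1 := h.f1 i hi'
  rw [h.hY i hi hi'.le, h.hY (i + 1) (by omega) hi'] at h1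
  have e : Z i * X (i + 1) - X i * Z (i + 1) =
      (X i - Z i) * (0 - Z (i + 1)) - (0 - Z i) * (X (i + 1) - Z (i + 1)) := by ring
  rw [e]; exact h1

theorem g2 (h : Dat κ k1 k2 k3 k X Y Z) {i : ℕ} (hi : 0 < i) (hi' : i < k3) : 0 ≤ κ * (Z 0 * (X i - Y i)) := by
  have h1 := h.f2 i hi hi'
  rw [(zz h).1, (zz h).2] at h1
  have e : Z 0 * (X i - Y i) = (0 - Z 0) * (Y i - Z i) - (0 - Z 0) * (X i - Z i) := by ring
  rw [e]; exact h1

theorem g3 (h : Dat κ k1 k2 k3 k X Y Z) {i : ℕ} (hi : k3 ≤ i) (hi' : i < k) : κ * (Z 0 * (X i - Y i)) < 0 := by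
  have h1 := h.f3 i hi hi'
  rw [(zz h).1, (zz h).2] at h1
  have e : Z 0 * (X i - Y i) = (0 - Z 0) * (Y i - Z i) - (0 - Z 0) * (X i - Z i) := by ring
  rw [e]; exact h1

/-! ### the convex case -/

theorem neg_of {a b c d : ℝ} (ha : a ≤ 0) (hb : b ≤ 0) (hc : c ≤ 0) (hd : d ≤ 0)
    (h : 0 < (-1 : ℝ) * (c * d - a * b)) : a < 0 ∧ b < 0 := by
  have h1 : 0 ≤ c * d := mul_nonneg_of_nonpos_of_nonpos hc hd
  have h2 : 0 < a * b := by linarith
  constructor
  · refine lt_of_le_of_ne ha ?_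
    rintro rfl
    simp at h2
  · refine lt_of_le_of_ne hb ?_
    rintro rfl
    simp at h2

/-! ### the saddle -/

section saddle

variable (h : Dat 1 k1 k2 k3 k X Y Z)

include h

theorem k13 : k1 < k3 := by
  by_contra hc
  have h1 := g3 h (not_lt.1 hc) (by have := h.hk; omega)
  rw [h.hX k1 le_rfl] at h1
  have h2 := h.r1
  have h3 := h.r0
  nlinarith

theorem k32 : k3 ≤ k2 := by
  by_contra hc
  have h1 := g2 h (by have := h.hk; omega) (not_le.1 hc)
  rw [h.hY k2 le_rfl h.hk.2.2.le] at h1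
  have h2 := h.r2
  have h3 := h.r0
  nlinarith

theorem XY {i : ℕ} (hi : 0 < i) (hi' : i < k3) : X i ≤ Y i := by
  have h1 := g2 h hi hi'
  have h3 := h.r0
  by_contra hc
  have : Z 0 * (X i - Y i) < 0 := mul_neg_of_neg_of_pos h3 (by linarith)
  linarith

theorem YX {i : ℕ} (hi : k3 ≤ i) (hi' : i < k) : Y i < X i := by
  have h1 := g3 h hi hi'
  have h3 := h.r0
  by_contra hc
  have : 0 ≤ Z 0 * (X i - Y i) := mul_nonneg_of_nonpos_of_nonpos h3.le (by linarith)
  linarith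

theorem Ynn {i : ℕ} (hi : i ≤ k1) : 0 ≤ Y i := by
  rcases Nat.eq_zero_or_pos i with rfl | hpos
  · rw [(zz h).2]
  · have h1 := XY h hpos (lt_of_le_of_lt hi (k13 h))
    rw [h.hX i hi] at h1
    exact h1

theorem Zneg {i : ℕ} (hi : i < k1) : Z i < 0 := by
  by_contra hc
  have hc' := not_lt.1 hc
  have key : ∀ n, i + n ≤ k1 → 0 ≤ Z (i + n) ∧ (0 < n → 0 < Z (i + n)) := by
    intro n
    induction n with
    | zero => intro _; exact ⟨hc', fun h => absurd h (lt_irrefl _)⟩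
    | succ n ih =>
      intro hn
      have h1 := (ih (by omega)).1
      have h2 := fX h (i := i + n) (by omega)
      have h3 := Ynn h (i := i + n) (by omega)
      have h4 := Ynn h (i := i + n + 1) (by omega)
      have h5 : 0 ≤ Z (i + n) * Y (i + n + 1) := mul_nonneg h1 h4
      have h6 : 0 < Y (i + n) * Z (i + n + 1) := by linarith
      have h7 : 0 < Z (i + n + 1) := by
        by_contra hneg
        have := mul_nonneg_of_nonpos_of_nonpos (neg_nonpos.2 h3) (not_lt.1 hneg)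
        nlinarith
      have e : i + (n + 1) = i + n + 1 := by ring
      rw [e]
      exact ⟨h7.le, fun _ => h7⟩
  have h1 := (key (k1 - i) (by omega)).2 (by omega)
  rw [show i + (k1 - i) = k1 by omega, h.hZ k1 le_rfl (by have := h.hk; omega)] at h1
  exact lt_irrefl _ h1

theorem Zle {i : ℕ} (hi : i ≤ k1) : Z i ≤ 0 := by
  rcases Nat.lt_or_ge i k1 with h1 | h1
  · exact (Zneg h h1).le
  · have : i = k1 := le_antisymm hi h1
    rw [this, h.hZ k1 le_rfl (by have := h.hk; omega)]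

theorem Ypos {i : ℕ} (hi : i < k1) : 0 < Y (i + 1) := by
  have h1 := fX h hi
  have h2 := Zneg h hi
  have h3 := Zle h (i := i + 1) hi
  have h4 := Ynn h (i := i) hi.le
  have h5 : Y i * Z (i + 1) ≤ 0 := mul_nonpos_of_nonneg_of_nonpos h4 h3
  have h6 : Z i * Y (i + 1) < 0 := by linarith
  by_contra hc
  have := mul_nonneg_of_nonpos_of_nonpos h2.le (not_lt.1 hc)
  linarith

theorem Xpos {i : ℕ} (hi : k2 ≤ i) (hi' : i < k) : 0 < X i := by
  have h1 := YX h (le_trans (k32 h) hi) hi'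
  rw [h.hY i hi hi'.le] at h1
  exact h1

theorem Xnn {i : ℕ} (hi : k2 ≤ i) (hi' : i ≤ k) : 0 ≤ X i := by
  rcases Nat.lt_or_ge i k with h1 | h1
  · exact (Xpos h hi h1).le
  · have : i = k := le_antisymm hi' h1
    rw [this, h.pX, (zz h).1]

theorem Zneg2 (n : ℕ) (hn : k2 + n < k) : Z (k2 + n) ≤ 0 ∧ Z (k2 + n + 1) < 0 := by
  induction n with
  | zero =>
    have h0 : Z (k2 + 0) = 0 := h.hZ k2 (by have := h.hk; omega) le_rfl
    refine ⟨h0.le, ?_⟩
    have h1 := fY h (i := k2 + 0) (by omega) hn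
    have h2 := Xpos h (i := k2 + 0) (by omega) hn
    rw [h0] at h1
    by_contra hc
    have := mul_nonneg h2.le (not_lt.1 hc)
    linarith
  | succ n ih =>
    have h0 := (ih (by omega)).2
    have e : k2 + (n + 1) = k2 + n + 1 := by ring
    rw [e] at hn ⊢
    refine ⟨h0.le, ?_⟩
    have h1 := fY h (i := k2 + n + 1) (by omega) hn
    have h2 := Xpos h (i := k2 + n + 1) (by omega) hn
    have h3 := Xnn h (i := k2 + n + 1 + 1) (by omega) hn
    have h4 : Z (k2 + n + 1) * X (k2 + n + 1 + 1) ≤ 0 := mul_nonpos_of_nonpos_of_nonneg h0.le h3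
    by_contra hc
    have := mul_nonneg h2.le (not_lt.1 hc)
    linarith

theorem d1 : X (k1 + 1) < 0 := by
  have h1 := fZ h (i := k1) le_rfl h.hk.2.1
  rw [h.hX k1 le_rfl] at h1
  have h2 := h.r1
  by_contra hc
  have := mul_nonneg (show 0 ≤ Y k1 by linarith) (not_lt.1 hc)
  linarith

theorem d2 : Y (k2 - 1) < 0 := by
  have hk := h.hk
  have h1 := fZ h (i := k2 - 1) (by omega) (by omega)
  rw [show k2 - 1 + 1 = k2 by omega, h.hY k2 le_rfl hk.2.2.le] at h1
  have h2 := h.r2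
  by_contra hc
  have := mul_nonneg (not_lt.1 hc) (show 0 ≤ X k2 by linarith)
  linarith

theorem Xneg (n : ℕ) (hn : k1 + 1 + n < k3) : X (k1 + 1 + n) < 0 := by
  induction n with
  | zero => exact d1 h
  | succ n ih =>
    have h0 := ih (by omega)
    have e : k1 + 1 + (n + 1) = k1 + 1 + n + 1 := by ring
    rw [e] at hn ⊢
    by_contra hc
    have hc' := not_lt.1 hc
    have hk32 := k32 h
    have h1 := fZ h (i := k1 + 1 + n) (by omega) (by omega)
    have h2 := XY h (i := k1 + 1 + n) (by omega) (by omega)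
    have h3 := XY h (i := k1 + 1 + n + 1) (by omega) hn
    have h4 : X (k1 + 1 + n) * X (k1 + 1 + n + 1) ≤ Y (k1 + 1 + n) * X (k1 + 1 + n + 1) :=
      mul_le_mul_of_nonneg_right h2 hc'
    have h5 : X (k1 + 1 + n) * Y (k1 + 1 + n + 1) ≤ X (k1 + 1 + n) * X (k1 + 1 + n + 1) :=
      mul_le_mul_of_nonpos_left h3 h0.le
    linarith

theorem Xneg' {i : ℕ} (hi : k1 < i) (hi' : i < k3) : X i < 0 := by
  have := Xneg h (i - (k1 + 1)) (by omega)
  rwa [show k1 + 1 + (i - (k1 + 1)) = i by omega] at this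

theorem Xle {i : ℕ} (hi : k1 ≤ i) (hi' : i < k3) : X i ≤ 0 := by
  rcases Nat.lt_or_ge k1 i with h1 | h1
  · exact (Xneg' h h1 hi').le
  · have : i = k1 := le_antisymm h1 hi
    rw [this, h.hX k1 le_rfl]

theorem Yneg (n : ℕ) (hn : k3 + n + 1 ≤ k2) : Y (k2 - 1 - n) < 0 := by
  induction n with
  | zero => exact d2 h
  | succ n ih =>
    have h0 := ih (by omega)
    have hk := h.hk
    have hk13 := k13 h
    set i := k2 - 1 - (n + 1) with hi
    have e : k2 - 1 - n = i + 1 := by omega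
    rw [e] at h0
    by_contra hc
    have hc' := not_lt.1 hc
    have h1 := fZ h (i := i) (by omega) (by omega)
    have h2 := YX h (i := i) (by omega) (by omega)
    have h3 := YX h (i := i + 1) (by omega) (by omega)
    have h4 : X i * Y (i + 1) ≤ Y i * Y (i + 1) := mul_le_mul_of_nonpos_right h2.le h0.le
    have h5 : Y i * Y (i + 1) ≤ Y i * X (i + 1) := mul_le_mul_of_nonneg_left h3.le hc'
    linarith

theorem Yneg' {i : ℕ} (hi : k3 ≤ i) (hi' : i < k2) : Y i < 0 := by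
  have := Yneg h (k2 - 1 - i) (by omega)
  rwa [show k2 - 1 - (k2 - 1 - i) = i by omega] at this

theorem Yle {i : ℕ} (hi : k3 ≤ i) (hi' : i ≤ k2) : Y i ≤ 0 := by
  rcases Nat.lt_or_ge i k2 with h1 | h1
  · exact (Yneg' h hi h1).le
  · have : i = k2 := le_antisymm hi' h1
    rw [this, h.hY k2 le_rfl h.hk.2.2.le]

theorem c' {i : ℕ} (hi : k1 ≤ i) (hi' : i < k2) {a b : ℝ} (ha : 0 ≤ a) (hb : 0 ≤ b) (hab : 0 < a + b)
    (h1 : i = k1 → 0 < b) (h2 : i + 1 = k2 → 0 < a) :
    min (a * X i + b * X (i + 1)) (a * Y i + b * Y (i + 1)) < 0 := by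
  rw [min_lt_iff]
  rcases lt_trichotomy (i + 1) k3 with h3 | h3 | h3
  · left
    have x1 := Xle h hi (by omega)
    have x2 := Xneg' h (i := i + 1) (by omega) h3
    rcases eq_or_lt_of_le hb with e | e
    · have hik : i ≠ k1 := fun e' => absurd (h1 e') (by rw [← e]; exact lt_irrefl _)
      have x1' := Xneg' h (i := i) (by omega) (by omega)
      have ha' : 0 < a := by linarith
      rw [← e]
      have := mul_neg_of_pos_of_neg ha' x1'
      linarith
    · have y1 := mul_neg_of_pos_of_neg e x2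
      have y2 := mul_nonpos_of_nonneg_of_nonpos ha x1
      linarith
  · -- i + 1 = k3
    have x1 := Xle h hi (by omega)
    have y1 := Yle h (i := i + 1) (by omega) (by omega)
    rcases eq_or_lt_of_le ha with e | e
    · right
      have hik : i + 1 ≠ k2 := fun e' => absurd (h2 e') (by rw [← e]; exact lt_irrefl _)
      have y1' := Yneg' h (i := i + 1) (by omega) (by omega)
      have hb' : 0 < b := by linarith
      rw [← e]
      have := mul_neg_of_pos_of_neg hb' y1'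
      linarith
    · rcases eq_or_lt_of_le hb with e' | e'
      · left
        have hik : i ≠ k1 := fun e'' => absurd (h1 e'') (by rw [← e']; exact lt_irrefl _)
        have x1' := Xneg' h (i := i) (by omega) (by omega)
        rw [← e']
        have := mul_neg_of_pos_of_neg e x1'
        linarith
      · by_contra hc
        rw [not_or, not_lt, not_lt] at hc
        obtain ⟨hp, hq⟩ := hc
        have z := fZ h hi hi'
        have u1 : 0 ≤ -(a * X i) := by
          have := mul_nonpos_of_nonneg_of_nonpos ha x1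
          linarith
        have u2 : 0 ≤ -(b * Y (i + 1)) := by
          have := mul_nonpos_of_nonneg_of_nonpos hb y1
          linarith
        have u3 : -(a * X i) ≤ b * X (i + 1) := by linarith
        have u4 : -(b * Y (i + 1)) ≤ a * Y i := by linarith
        have u5 : -(a * X i) * -(b * Y (i + 1)) ≤ (b * X (i + 1)) * (a * Y i) :=
          mul_le_mul u3 u4 u2 (le_trans u1 u3)
        have hab' : 0 < a * b := mul_pos e e'
        have u6 : 0 < (a * b) * (X i * Y (i + 1) - Y i * X (i + 1)) := mul_pos hab' (by linarith)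
        nlinarith
  · right
    have y1 := Yneg' h (i := i) (by omega) hi'
    have y2 := Yle h (i := i + 1) (by omega) hi'
    rcases eq_or_lt_of_le ha with e | e
    · have hik : i + 1 ≠ k2 := fun e' => absurd (h2 e') (by rw [← e]; exact lt_irrefl _)
      have y1' := Yneg' h (i := i + 1) (by omega) (by omega)
      have hb' : 0 < b := by linarith
      rw [← e]
      have := mul_neg_of_pos_of_neg hb' y1'
      linarith
    · have w1 := mul_neg_of_pos_of_neg e y1
      have w2 := mul_nonpos_of_nonneg_of_nonpos hb y2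
      linarith

end saddle

end SGNM

open SGNM

theorem specSGN : SpecSGN := by
  intro N S hS v
  have hD : Dat (S.κ v) (S.k1 v) (S.k2 v) (S.k3 v) (S.k v) (S.DX v) (S.DY v) (S.DZ v) := by
    refine ⟨hS.hk v, hS.hk3 v, hS.hX v, hS.hZ v, hS.hY v, ?_, ?_, hS.hr0 v, hS.hr1 v, hS.hr2 v, ?_, ?_, ?_⟩
    · unfold PolyData.DX; rw [hS.hper v]
    · unfold PolyData.DY; rw [hS.hper v]
    · exact fun i hi => hS.hfan1 v i hi
    · exact fun i hi hi' => hS.hfan2 v i hi hi'
    · exact fun i hi hi' => hS.hfan3 v i hi hi'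
  have hk := hS.hk v
  rcases hS.hκ v with hκ | hκ
  · rw [hκ] at hD
    refine ⟨?_, ?_, ?_, ?_, ⟨d1 hD, d2 hD⟩, zz hD⟩
    · intro i hi
      rw [hκ]
      exact ⟨Zneg hD hi, by have := Ypos hD hi; linarith⟩
    · intro i hi hi'
      rw [hκ]
      have h1 := Xpos hD hi hi'
      have h2 := (Zneg2 hD (i - S.k2 v) (by omega)).2
      rw [show S.k2 v + (i - S.k2 v) = i by omega] at h2
      exact ⟨by linarith, h2⟩
    · intro h
      rw [hκ] at h
      norm_num at h
    · intro _ i hi hi' a b ha hb hab h1 h2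
      exact c' hD hi hi' ha hb hab h1 h2
  · have hc := hS.hconv v hκ
    have nX : ∀ i, S.DX v i ≤ 0 := fun i => (hc (S.nb v i)).1
    have nY : ∀ i, S.DY v i ≤ 0 := fun i => (hc (S.nb v i)).2.1
    have nZ : ∀ i, S.DZ v i ≤ 0 := fun i => (hc (S.nb v i)).2.2
    rw [hκ] at hD
    have cc : ∀ i, S.k1 v ≤ i → i < S.k2 v → S.DX v (i + 1) < 0 ∧ S.DY v i < 0 := by
      intro i hi hi'
      have h1 := fZ hD hi hi'
      have h2 := neg_of (nY i) (nX (i + 1)) (nX i) (nY (i + 1)) (by linarith)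
      exact ⟨h2.2, h2.1⟩
    refine ⟨?_, ?_, fun _ => cc, ?_, ⟨(cc _ le_rfl hk.2.1).1, (cc (S.k2 v - 1) (by omega) (by omega)).2⟩, zz hD⟩
    · intro i hi
      have h1 := fX hD hi
      have h2 := neg_of (nZ i) (nY (i + 1)) (nY i) (nZ (i + 1)) (by linarith)
      rw [hκ]
      exact ⟨h2.1, by linarith [h2.2]⟩
    · intro i hi hi'
      have h1 := fY hD hi hi'
      have h2 := neg_of (nX i) (nZ (i + 1)) (nZ i) (nX (i + 1)) (by linarith)
      rw [hκ]
      exact ⟨by linarith [h2.1], h2.2⟩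
    · intro h
      rw [hκ] at h
      norm_num at h

end Pool.Agent.Lib.MP_0b1f3c_gt.TI
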