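import Pool.Agent.Lib.MP_0b1f3c_gt.TI.SpecG

/-!
# Shears are open embeddings

Module `SHR` of the generic theorem.
-/

open scoped Manifold ContDiff InnerProductSpace Topology
open Filter Set

noncomputable section

namespace Pool.Agent.Lib.MP_0b1f3c_gt.TI

namespace SHRM

/-- the image of an open set under a shear is open -/
theorem open_image (q : E2) (Ω : Set E2) (h : E2 → ℝ) (hΩ : IsOpen Ω) (hc : ContinuousOn h Ω)
    (hl : ∀ y ∈ Ω, ∀ t : ℝ, y + t • q ∈ Ω → |h (y + t • q) - h y| ≤ |t| / 2)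
    (O : Set E2) (hO : IsOpen O) (hOΩ : O ⊆ Ω) :
    IsOpen ((fun y : E2 => y + h y • q) '' O) := by
  rw [isOpen_iff_mem_nhds]
  rintro z₀ ⟨y₀, hy₀, rfl⟩
  obtain ⟨r, hr, hball⟩ := Metric.isOpen_iff.1 hO y₀ hy₀
  -- the size of the interval
  set ε : ℝ := r / (2 * (‖q‖ + 1)) with hε
  have hq1 : (0 : ℝ) < ‖q‖ + 1 := by positivity
  have hε0 : 0 < ε := by positivity
  have hεq : ε * ‖q‖ ≤ r / 2 := by
    have h1 : ε * ‖q‖ ≤ ε * (‖q‖ + 1) := by nlinarith [norm_nonneg q]
    have h2 : ε * (‖q‖ + 1) = r / 2 := by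
      rw [hε]; field_simp
    linarith
  have hmem : ∀ z : E2, dist z (y₀ + h y₀ • q) < r / 2 → ∀ τ : ℝ, |τ - h y₀| ≤ ε →
      z - τ • q ∈ O := by
    intro z hz τ hτ
    apply hball
    rw [Metric.mem_ball, dist_eq_norm]
    have e1 : z - τ • q - y₀ = (z - (y₀ + h y₀ • q)) - (τ - h y₀) • q := by
      rw [sub_smul]; abel
    rw [e1]
    have n1 : ‖(τ - h y₀) • q‖ ≤ ε * ‖q‖ := by
      rw [norm_smul, Real.norm_eq_abs]
      exact mul_le_mul_of_nonneg_right hτ (norm_nonneg q)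
    have n2 : ‖z - (y₀ + h y₀ • q)‖ < r / 2 := by rwa [← dist_eq_norm]
    calc _ ≤ ‖z - (y₀ + h y₀ • q)‖ + ‖(τ - h y₀) • q‖ := norm_sub_le _ _
      _ < r := by linarith
  have hself : dist (y₀ + h y₀ • q) (y₀ + h y₀ • q) < r / 2 := by
    rw [dist_self]; linarith
  have key : ∀ s : ℝ, |s| = ε →
      Tendsto (fun z : E2 => h (z - (h y₀ + s) • q)) (𝓝 (y₀ + h y₀ • q)) (𝓝 (h (y₀ + (-s) • q))) := by
    intro s hs
    have e2 : y₀ + h y₀ • q - (h y₀ + s) • q = y₀ + (-s) • q := by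
      rw [add_smul, neg_smul]; abel
    have m : y₀ + (-s) • q ∈ O := by
      rw [← e2]
      apply hmem _ hself
      have : h y₀ + s - h y₀ = s := by ring
      rw [this, hs]
    have c1 : ContinuousAt h (y₀ + (-s) • q) := hc.continuousAt (hΩ.mem_nhds (hOΩ m))
    have c2 : Tendsto (fun z : E2 => z - (h y₀ + s) • q) (𝓝 (y₀ + h y₀ • q))
        (𝓝 (y₀ + (-s) • q)) := by
      rw [← e2]
      exact (continuous_id.sub continuous_const).tendsto _
    exact c1.tendsto.comp c2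
  have hlip : ∀ s : ℝ, |s| = ε → |h (y₀ + (-s) • q) - h y₀| ≤ ε / 2 := by
    intro s hs
    have e2 : y₀ + h y₀ • q - (h y₀ + s) • q = y₀ + (-s) • q := by
      rw [add_smul, neg_smul]; abel
    have m : y₀ + (-s) • q ∈ O := by
      rw [← e2]
      apply hmem _ hself
      have : h y₀ + s - h y₀ = s := by ring
      rw [this, hs]
    have := hl y₀ (hOΩ hy₀) (-s) (hOΩ m)
    rwa [abs_neg, hs] at this
  have hp := hlip ε (abs_of_pos hε0)
  have hm := hlip (-ε) (by rw [abs_neg, abs_of_pos hε0])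
  have tp := key ε (abs_of_pos hε0)
  have tm := key (-ε) (by rw [abs_neg, abs_of_pos hε0])
  have ep : ∀ᶠ z in 𝓝 (y₀ + h y₀ • q), h (z - (h y₀ + ε) • q) < h y₀ + ε :=
    tp.eventually_lt_const (by have := (abs_le.1 hp).2; linarith)
  have em : ∀ᶠ z in 𝓝 (y₀ + h y₀ • q), h y₀ - ε < h (z - (h y₀ + -ε) • q) :=
    tm.eventually_const_lt (by have := (abs_le.1 hm).1; linarith)
  have ed : ∀ᶠ z in 𝓝 (y₀ + h y₀ • q), dist z (y₀ + h y₀ • q) < r / 2 :=
    Metric.ball_mem_nhds _ (by linarith)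
  filter_upwards [ep, em, ed] with z zp zm zd
  -- intermediate value theorem
  have hcont : ContinuousOn (fun τ : ℝ => τ - h (z - τ • q)) (Icc (h y₀ - ε) (h y₀ + ε)) := by
    apply continuousOn_id.sub
    apply hc.comp
    · exact (continuous_const.sub (continuous_id.smul continuous_const)).continuousOn
    · intro τ hτ
      apply hOΩ
      apply hmem z zd
      rw [abs_le]
      constructor <;> linarith [hτ.1, hτ.2]
  have hivt := intermediate_value_Icc (by linarith : h y₀ - ε ≤ h y₀ + ε) hcont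
  have h0 : (0 : ℝ) ∈ Icc ((fun τ : ℝ => τ - h (z - τ • q)) (h y₀ - ε))
      ((fun τ : ℝ => τ - h (z - τ • q)) (h y₀ + ε)) := by
    constructor
    · have e3 : h y₀ + -ε = h y₀ - ε := by ring
      rw [e3] at zm
      show h y₀ - ε - h (z - (h y₀ - ε) • q) ≤ 0
      linarith
    · show (0 : ℝ) ≤ h y₀ + ε - h (z - (h y₀ + ε) • q)
      linarith
  obtain ⟨τ, hτ, hτ0⟩ := hivt h0
  have hτ0' : h (z - τ • q) = τ := by
    have : τ - h (z - τ • q) = 0 := hτ0
    linarith
  refine ⟨z - τ • q, ?_, ?_⟩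
  · apply hmem z zd
    rw [abs_le]
    constructor <;> linarith [hτ.1, hτ.2]
  · show z - τ • q + h (z - τ • q) • q = z
    rw [hτ0']; abel

end SHRM

theorem specSHR : SpecSHR := by
  intro q Ω h hq hΩ hc hl
  apply Topology.IsOpenEmbedding.of_continuous_injective_isOpenMap
  · exact continuous_subtype_val.add
      (((continuousOn_iff_continuous_domRestrict.1 hc)).smul continuous_const)
  · intro y y' hyy
    have hyy' : y.1 + h y.1 • q = y'.1 + h y'.1 • q := hyy
    have e1 : y'.1 = y.1 + (h y.1 - h y'.1) • q := by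
      have : y'.1 = y.1 + h y.1 • q - h y'.1 • q := by rw [hyy']; abel
      exact this.trans (by rw [sub_smul]; abel)
    have h1 := hl y.1 y.2 (h y.1 - h y'.1) (by rw [← e1]; exact y'.2)
    rw [← e1] at h1
    have h2 : h y.1 - h y'.1 = 0 := by
      have h3 : |h y'.1 - h y.1| = |h y.1 - h y'.1| := abs_sub_comm _ _
      rw [h3] at h1
      have h4 := abs_nonneg (h y.1 - h y'.1)
      have h5 : |h y.1 - h y'.1| = 0 := by linarith
      exact abs_eq_zero.1 h5
    apply Subtype.ext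
    rw [e1, h2]; simp
  · intro U hU
    have hU' : IsOpen (Subtype.val '' U : Set E2) := hΩ.isOpenMap_subtype_val U hU
    have := SHRM.open_image q Ω h hΩ hc hl (Subtype.val '' U) hU' (by
      rintro _ ⟨x, _, rfl⟩; exact x.2)
    rwa [image_image] at this

end Pool.Agent.Lib.MP_0b1f3c_gt.TI
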