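import Pool.Agent.Lib.MP_0b1f3c_gt.TI.SpecC

/-! Module SID: the two triangles at an edge of the surface. -/

open scoped Manifold ContDiff InnerProductSpace Quaternion

noncomputable section

namespace Pool.Agent.Lib.MP_0b1f3c_gt.TI

namespace SIDM

variable {N : ℕ} {S : PolyData N}

/-- position of the edge `e` in the link of `v` -/
def ke (S : PolyData N) (v : Fin N) (e : Fin 3) : ℕ :=
  if e = 0 then 0 else if e = 1 then S.k1 v else S.k2 v

lemma r_eq (v : Fin N) (e : Fin 3) : S.r v e = S.nb v (ke S v e) := rfl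

lemma ke_lt (hS : S.IsSurf) (v : Fin N) (e : Fin 3) : ke S v e < S.k v := by
  obtain ⟨h1, h2, h3⟩ := hS.hk v
  unfold ke
  split_ifs <;> omega

/-- the third vertex is the next or the previous neighbour -/
lemma third (hS : S.IsSurf) {v : Fin N} {e : Fin 3} {u : Fin N} (hu : u ≠ v)
    (hu' : u ≠ S.r v e) (ht : ({v, S.r v e, u} : Finset (Fin N)) ∈ S.T) :
    u = S.nb v (ke S v e + 1) ∨
      ∃ i < S.k v, (i + 1 = ke S v e ∨ (ke S v e = 0 ∧ i + 1 = S.k v)) ∧ u = S.nb v i := by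
  obtain ⟨i, hi, h⟩ := hS.hT2 _ ht v (by simp)
  have hc := hS.hcard _ (hS.hT1 v i hi)
  have hne : S.nb v i ≠ S.nb v (i + 1) := by
    intro h1
    rw [h1] at hc
    have : ({v, S.nb v (i + 1), S.nb v (i + 1)} : Finset (Fin N)).card ≤ 2 := by
      rw [Finset.pair_eq_singleton]
      exact Finset.card_le_two
    omega
  have hrv : S.r v e ≠ v := hS.hne v _ (ke_lt hS v e).le
  have hr : S.r v e = S.nb v i ∨ S.r v e = S.nb v (i + 1) := by
    have : S.r v e ∈ ({v, S.nb v i, S.nb v (i + 1)} : Finset (Fin N)) := by rw [← h]; simp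
    simp only [Finset.mem_insert, Finset.mem_singleton] at this
    tauto
  have hum : u = S.nb v i ∨ u = S.nb v (i + 1) := by
    have : u ∈ ({v, S.nb v i, S.nb v (i + 1)} : Finset (Fin N)) := by rw [← h]; simp
    simp only [Finset.mem_insert, Finset.mem_singleton] at this
    tauto
  rcases hr with hr | hr
  · have hu1 : u = S.nb v (i + 1) := by
      rcases hum with h1 | h1
      · exact absurd (h1.trans hr.symm) hu'
      · exact h1
    have hik : ke S v e = i := by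
      rw [r_eq] at hr
      exact hS.hnbinj v (Set.mem_Iio.2 (ke_lt hS v e)) (Set.mem_Iio.2 hi) hr
    left
    rw [hik, hu1]
  · have hu1 : u = S.nb v i := by
      rcases hum with h1 | h1
      · exact h1
      · exact absurd (h1.trans hr.symm) hu'
    right
    refine ⟨i, hi, ?_, hu1⟩
    rcases Nat.lt_or_ge (i + 1) (S.k v) with h1 | h1
    · left
      rw [r_eq] at hr
      exact (hS.hnbinj v (Set.mem_Iio.2 (ke_lt hS v e)) (Set.mem_Iio.2 h1) hr).symm
    · have h2 : i + 1 = S.k v := by omega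
      right
      refine ⟨?_, h2⟩
      rw [r_eq, h2, hS.hper v] at hr
      have h0 : 0 < S.k v := by omega
      exact hS.hnbinj v (Set.mem_Iio.2 (ke_lt hS v e)) (Set.mem_Iio.2 h0) hr

lemma cr_fan (hS : S.IsSurf) (v : Fin N) (i : ℕ) (hi : i < S.k v) :
    0 < S.κ v * ((S.DX v i - S.DZ v i) * (S.DY v (i + 1) - S.DZ v (i + 1)) -
      (S.DY v i - S.DZ v i) * (S.DX v (i + 1) - S.DZ v (i + 1))) := hS.hfan1 v i hi

lemma A0 (v : Fin N) (p : E3) : S.A v 0 p = -S.κ v * S.X v p := by simp [PolyData.A]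
lemma B0 (v : Fin N) (p : E3) : S.B v 0 p = -S.κ v * S.Y v p := by simp [PolyData.B]
lemma A1 (v : Fin N) (p : E3) : S.A v 1 p = S.X v p := by simp [PolyData.A]
lemma B1 (v : Fin N) (p : E3) : S.B v 1 p = S.Z v p := by simp [PolyData.B]
lemma A2 (v : Fin N) (p : E3) : S.A v 2 p = S.Y v p := by simp [PolyData.A]
lemma B2 (v : Fin N) (p : E3) : S.B v 2 p = S.Z v p := by simp [PolyData.B]

lemma DYk (hS : S.IsSurf) (v : Fin N) : S.DY v (S.k v) = S.DY v 0 := by
  unfold PolyData.DY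
  rw [hS.hper]
lemma DXk (hS : S.IsSurf) (v : Fin N) : S.DX v (S.k v) = S.DX v 0 := by
  unfold PolyData.DX
  rw [hS.hper]
lemma DZk (hS : S.IsSurf) (v : Fin N) : S.DZ v (S.k v) = S.DZ v 0 := by
  unfold PolyData.DZ
  rw [hS.hper]

/-- all third vertices are `u1` or `u2` -/
lemma types (hS : S.IsSurf) (v : Fin N) (e : Fin 3) : ∃ u1 u2 : Fin N,
    (∀ u, u ≠ v → u ≠ S.r v e → ({v, S.r v e, u} : Finset (Fin N)) ∈ S.T → u = u1 ∨ u = u2) ∧
    S.A v e (S.P u1 - S.P v) = 0 ∧ S.B v e (S.P u1 - S.P v) < 0 ∧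
    S.B v e (S.P u2 - S.P v) = 0 ∧ S.A v e (S.P u2 - S.P v) < 0 := by
  obtain ⟨h1, h2, h3⟩ := hS.hk v
  fin_cases e
  · -- e = 0
    have hX0 : S.DX v 0 = 0 := hS.hX v 0 (Nat.zero_le _)
    have hX1 : S.DX v 1 = 0 := hS.hX v 1 h1
    have hY0 : S.DY v 0 = 0 := by rw [← DYk hS]; exact hS.hY v (S.k v) h3.le le_rfl
    have hYk : S.DY v (S.k v - 1) = 0 := hS.hY v (S.k v - 1) (by omega) (by omega)
    have hZ0 := hS.hr0 v
    have f1 := cr_fan hS v 0 (by omega)
    have f2 := cr_fan hS v (S.k v - 1) (by omega)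
    have hk1 : S.k v - 1 + 1 = S.k v := by omega
    rw [hk1, DXk hS, DYk hS, DZk hS, hX0, hY0, hYk] at f2
    rw [zero_add, hX0, hY0, hX1] at f1
    have g1 : 0 < (-S.DZ v 0) * (S.κ v * S.DY v 1) := by nlinarith
    have g2 : 0 < (-S.DZ v 0) * (S.κ v * S.DX v (S.k v - 1)) := by nlinarith
    have g1' := (mul_pos_iff_of_pos_left (by linarith : (0 : ℝ) < -S.DZ v 0)).1 g1
    have g2' := (mul_pos_iff_of_pos_left (by linarith : (0 : ℝ) < -S.DZ v 0)).1 g2
    refine ⟨S.nb v 1, S.nb v (S.k v - 1), ?_, ?_, ?_, ?_, ?_⟩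
    · intro u hu hu' ht
      rcases third hS hu hu' ht with h | ⟨i, hi, h | h, h'⟩
      · left; exact h
      · exact absurd h (by simp [ke])
      · right; rw [h']; congr 1; omega
    · rw [show ((⟨0, by omega⟩ : Fin 3)) = 0 from rfl, A0]
      change -S.κ v * S.DX v 1 = 0
      rw [hX1, mul_zero]
    · rw [show ((⟨0, by omega⟩ : Fin 3)) = 0 from rfl, B0]
      change -S.κ v * S.DY v 1 < 0
      linarith
    · rw [show ((⟨0, by omega⟩ : Fin 3)) = 0 from rfl, B0]
      change -S.κ v * S.DY v (S.k v - 1) = 0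
      rw [hYk, mul_zero]
    · rw [show ((⟨0, by omega⟩ : Fin 3)) = 0 from rfl, A0]
      change -S.κ v * S.DX v (S.k v - 1) < 0
      linarith
  · -- e = 1
    have hX1 : S.DX v (S.k1 v) = 0 := hS.hX v _ le_rfl
    have hZ1 : S.DZ v (S.k1 v) = 0 := hS.hZ v _ le_rfl h2.le
    have hXm : S.DX v (S.k1 v - 1) = 0 := hS.hX v _ (by omega)
    have hZp : S.DZ v (S.k1 v + 1) = 0 := hS.hZ v _ (by omega) (by omega)
    have hY := hS.hr1 v
    have f1 := cr_fan hS v (S.k1 v) (by omega)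
    have f2 := cr_fan hS v (S.k1 v - 1) (by omega)
    have hk1 : S.k1 v - 1 + 1 = S.k1 v := by omega
    rw [hk1, hX1, hZ1, hXm] at f2
    rw [hX1, hZ1, hZp] at f1
    have g1 : 0 < (S.κ v * S.DY v (S.k1 v)) * (-S.DX v (S.k1 v + 1)) := by nlinarith
    have g2 : 0 < (S.κ v * S.DY v (S.k1 v)) * (-S.DZ v (S.k1 v - 1)) := by nlinarith
    have g1' := (mul_pos_iff_of_pos_left hY).1 g1
    have g2' := (mul_pos_iff_of_pos_left hY).1 g2
    refine ⟨S.nb v (S.k1 v - 1), S.nb v (S.k1 v + 1), ?_, ?_, ?_, ?_, ?_⟩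
    · intro u hu hu' ht
      rcases third hS hu hu' ht with h | ⟨i, hi, h | h, h'⟩
      · right; exact h
      · left
        have h4 : i + 1 = S.k1 v := h
        rw [h', ← h4]; rfl
      · have h4 : S.k1 v = 0 := h.1
        omega
    · rw [show ((⟨1, by omega⟩ : Fin 3)) = 1 from rfl, A1]
      exact hXm
    · rw [show ((⟨1, by omega⟩ : Fin 3)) = 1 from rfl, B1]
      change S.DZ v (S.k1 v - 1) < 0
      linarith
    · rw [show ((⟨1, by omega⟩ : Fin 3)) = 1 from rfl, B1]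
      exact hZp
    · rw [show ((⟨1, by omega⟩ : Fin 3)) = 1 from rfl, A1]
      change S.DX v (S.k1 v + 1) < 0
      linarith
  · -- e = 2
    have hZ2 : S.DZ v (S.k2 v) = 0 := hS.hZ v _ h2.le le_rfl
    have hY2 : S.DY v (S.k2 v) = 0 := hS.hY v _ le_rfl h3.le
    have hZm : S.DZ v (S.k2 v - 1) = 0 := hS.hZ v _ (by omega) (by omega)
    have hYp : S.DY v (S.k2 v + 1) = 0 := hS.hY v _ (by omega) (by omega)
    have hX := hS.hr2 v
    have f1 := cr_fan hS v (S.k2 v) (by omega)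
    have f2 := cr_fan hS v (S.k2 v - 1) (by omega)
    have hk1 : S.k2 v - 1 + 1 = S.k2 v := by omega
    rw [hk1, hZ2, hY2, hZm] at f2
    rw [hZ2, hY2, hYp] at f1
    have g1 : 0 < (S.κ v * S.DX v (S.k2 v)) * (-S.DZ v (S.k2 v + 1)) := by nlinarith
    have g2 : 0 < (S.κ v * S.DX v (S.k2 v)) * (-S.DY v (S.k2 v - 1)) := by nlinarith
    have g1' := (mul_pos_iff_of_pos_left hX).1 g1
    have g2' := (mul_pos_iff_of_pos_left hX).1 g2
    refine ⟨S.nb v (S.k2 v + 1), S.nb v (S.k2 v - 1), ?_, ?_, ?_, ?_, ?_⟩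
    · intro u hu hu' ht
      rcases third hS hu hu' ht with h | ⟨i, hi, h | h, h'⟩
      · left; exact h
      · right
        have h4 : i + 1 = S.k2 v := h
        rw [h', ← h4]; rfl
      · have h4 : S.k2 v = 0 := h.1
        omega
    · rw [show ((⟨2, by omega⟩ : Fin 3)) = 2 from rfl, A2]
      exact hYp
    · rw [show ((⟨2, by omega⟩ : Fin 3)) = 2 from rfl, B2]
      change S.DZ v (S.k2 v + 1) < 0
      linarith
    · rw [show ((⟨2, by omega⟩ : Fin 3)) = 2 from rfl, B2]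
      exact hZm
    · rw [show ((⟨2, by omega⟩ : Fin 3)) = 2 from rfl, A2]
      change S.DY v (S.k2 v - 1) < 0
      linarith

end SIDM

theorem specSID : SpecSID := by
  intro N S hS v e u u' hu hu1 hu' hu1' ht ht'
  obtain ⟨w1, w2, hall, a1, b1, b2, a2⟩ := SIDM.types hS v e
  have h1 := hall u hu hu1 ht
  have h2 := hall u' hu' hu1' ht'
  refine ⟨?_, ?_, ?_⟩
  · rcases h1 with h | h
    · rw [h]; exact Or.inl ⟨a1, b1⟩
    · rw [h]; exact Or.inr ⟨b2, a2⟩
  · intro hne hA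
    rcases h1 with h | h
    · rcases h2 with h' | h'
      · exact absurd (h.trans h'.symm) hne
      · rw [h']; exact b2
    · rw [h] at hA
      linarith
  · intro hne hB
    rcases h1 with h | h
    · rw [h] at hB
      linarith
    · rcases h2 with h' | h'
      · rw [h']; exact a1
      · exact absurd (h.trans h'.symm) hne

end Pool.Agent.Lib.MP_0b1f3c_gt.TI
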