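import Pool.Agent.Lib.MP_0b1f3c_gt.TI.SpecG

/-!
# STR: the star of a vertex is the plane
-/

open scoped Manifold ContDiff InnerProductSpace Topology
open Filter Set
open scoped Classical

noncomputable section

namespace Pool.Agent.Lib.MP_0b1f3c_gt.TI

namespace STRM

variable {N : ℕ}

/-- barycentric coordinates of a point of the triangle `v, m, n` -/
def frm (v m n : Fin N) (a b : ℝ) : Fin N → ℝ :=
  Pi.single m a + Pi.single n b + Pi.single v (1 - a - b)

theorem frm_apply (v m n : Fin N) (a b : ℝ) (u : Fin N) :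
    frm v m n a b u = (if u = m then a else 0) + (if u = n then b else 0) +
      (if u = v then 1 - a - b else 0) := by
  simp [frm, Pi.single_apply]

theorem sum_frm (v m n : Fin N) (a b : ℝ) : ∑ u, frm v m n a b u = 1 := by
  simp [frm_apply, Finset.sum_add_distrib]

theorem g_frm (S : PolyData N) (v m n : Fin N) (a b : ℝ) :
    S.g (frm v m n a b) - S.P v = a • (S.P m - S.P v) + b • (S.P n - S.P v) := by
  have h1 : S.g (frm v m n a b) = a • S.P m + b • S.P n + (1 - a - b) • S.P v := by
    simp [PolyData.g, frm_apply, add_smul, Finset.sum_add_distrib, ite_smul]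
  rw [h1, smul_sub, smul_sub, sub_smul, sub_smul, one_smul]
  abel

theorem j_frm (S : PolyData N) (v : Fin N) (i i' : ℕ) (a b : ℝ) :
    S.j v (frm v (S.nb v i) (S.nb v i') a b) =
      !₂[a * (S.Q v i).1 + b * (S.Q v i').1, a * (S.Q v i).2 + b * (S.Q v i').2] := by
  unfold PolyData.j
  rw [g_frm]
  simp only [map_add, map_smul, smul_eq_mul, PolyData.Q, PolyData.DX, PolyData.DY, PolyData.DZ]
  ext t
  fin_cases t
  · simp
    ring
  · simp
    ring

/-- the pair of coordinates -/
def pr (y : E2) : ℝ × ℝ := (y 0, y 1)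

theorem pr_cont : Continuous pr := by
  unfold pr
  fun_prop

theorem pr_eq (y : E2) (h : pr y = 0) : y = 0 := by
  have h0 : y 0 = 0 := congrArg Prod.fst h
  have h1 : y 1 = 0 := congrArg Prod.snd h
  ext t
  fin_cases t
  · exact h0
  · exact h1

theorem cr_cont (p : ℝ × ℝ) : Continuous (fun y : E2 => cr p (pr y)) := by
  unfold cr pr
  fun_prop

variable (S : PolyData N) (v : Fin N)

/-- determinant of the `i`-th triangle -/
def D (i : ℕ) : ℝ := S.κ v * cr (S.Q v i) (S.Q v (i + 1))

/-- first coefficient -/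
def ca (i : ℕ) (y : E2) : ℝ := -(S.κ v * cr (S.Q v (i + 1)) (pr y)) / D S v i

/-- second coefficient -/
def cb (i : ℕ) (y : E2) : ℝ := S.κ v * cr (S.Q v i) (pr y) / D S v i

/-- the formula on the `i`-th cone -/
def form (i : ℕ) (y : E2) : Fin N → ℝ :=
  frm v (S.nb v i) (S.nb v (i + 1)) (ca S v i y) (cb S v i y)

/-- the `i`-th cone -/
def C (i : ℕ) : Set E2 :=
  {y | 0 ≤ S.κ v * cr (S.Q v i) (pr y) ∧ S.κ v * cr (S.Q v (i + 1)) (pr y) ≤ 0}

theorem C_closed (i : ℕ) : IsClosed (C S v i) := by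
  refine IsClosed.inter ?_ ?_
  · exact isClosed_le continuous_const (continuous_const.mul (cr_cont _))
  · exact isClosed_le (continuous_const.mul (cr_cont _)) continuous_const

theorem form_cont (i : ℕ) : Continuous (form S v i) := by
  have h1 : Continuous (ca S v i) := (continuous_const.mul (cr_cont _)).neg.div_const _
  have h2 : Continuous (cb S v i) := (continuous_const.mul (cr_cont _)).div_const _
  refine continuous_pi fun u => ?_
  simp only [form, frm_apply]
  have h3 : Continuous (fun y => if u = S.nb v i then ca S v i y else 0) := by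
    split_ifs
    · exact h1
    · exact continuous_const
  have h4 : Continuous (fun y => if u = S.nb v (i + 1) then cb S v i y else 0) := by
    split_ifs
    · exact h2
    · exact continuous_const
  have h5 : Continuous (fun y => if u = v then 1 - ca S v i y - cb S v i y else 0) := by
    split_ifs
    · exact (continuous_const.sub h1).sub h2
    · exact continuous_const
  exact (h3.add h4).add h5

/-- `y = a q + b q'` -/
theorem cramer {κ : ℝ} {q q' p : ℝ × ℝ} (hD : κ * cr q q' ≠ 0) :
    -(κ * cr q' p) / (κ * cr q q') * q.1 + κ * cr q p / (κ * cr q q') * q'.1 = p.1 ∧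
    -(κ * cr q' p) / (κ * cr q q') * q.2 + κ * cr q p / (κ * cr q q') * q'.2 = p.2 := by
  constructor
  · rw [div_mul_eq_mul_div, div_mul_eq_mul_div, ← add_div, div_eq_iff hD]
    unfold cr
    ring
  · rw [div_mul_eq_mul_div, div_mul_eq_mul_div, ← add_div, div_eq_iff hD]
    unfold cr
    ring

theorem j_form {i : ℕ} (hD : D S v i ≠ 0) (y : E2) : S.j v (form S v i y) = y := by
  unfold form
  rw [j_frm]
  obtain ⟨h1, h2⟩ := cramer (κ := S.κ v) (q := S.Q v i) (q' := S.Q v (i + 1)) (p := pr y) hD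
  ext t
  fin_cases t
  · exact h1
  · exact h2

/-- coordinates of a combination -/
theorem coef {i : ℕ} (hD : D S v i ≠ 0) (a b : ℝ) (y : E2)
    (hy : y = !₂[a * (S.Q v i).1 + b * (S.Q v (i + 1)).1,
      a * (S.Q v i).2 + b * (S.Q v (i + 1)).2]) :
    S.κ v * cr (S.Q v (i + 1)) (pr y) = -(a * D S v i) ∧
      S.κ v * cr (S.Q v i) (pr y) = b * D S v i ∧ ca S v i y = a ∧ cb S v i y = b := by
  have h0 : pr y = (a * (S.Q v i).1 + b * (S.Q v (i + 1)).1,
      a * (S.Q v i).2 + b * (S.Q v (i + 1)).2) := by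
    rw [hy]
    rfl
  have h1 : S.κ v * cr (S.Q v (i + 1)) (pr y) = -(a * D S v i) := by
    rw [h0]
    unfold D cr
    ring
  have h2 : S.κ v * cr (S.Q v i) (pr y) = b * D S v i := by
    rw [h0]
    unfold D cr
    ring
  refine ⟨h1, h2, ?_, ?_⟩
  · unfold ca
    rw [h1, neg_neg, mul_div_cancel_right₀ _ hD]
  · unfold cb
    rw [h2, mul_div_cancel_right₀ _ hD]

/-- the index of the fan lemma -/
def Idx (i : ℕ) (y : E2) : Prop :=
  i < S.k v ∧ 0 ≤ S.κ v * cr (S.Q v i) (pr y) ∧ S.κ v * cr (S.Q v (i + 1)) (pr y) < 0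

/-- the inverse map -/
def Lam (y : E2) : Fin N → ℝ :=
  if h : ∃ i, Idx S v i y then form S v h.choose y else Pi.single v 1

variable {S} {v}

theorem Q_per (hS : S.IsSurf) : S.Q v (S.k v) = S.Q v 0 := by
  simp only [PolyData.Q, PolyData.DX, PolyData.DY, PolyData.DZ, hS.hper]

theorem fan (hFAN : SpecFAN) (hS : S.IsSurf) {y : E2} (hy : y ≠ 0) : ∃! i, Idx S v i y :=
  hFAN (S.κ v) (S.k v) (S.k3 v) (S.Q v) (hS.hκ v) (Q_per hS) (hS.hk3 v).1 (hS.hk3 v).2
    (hS.hfan1 v) (hS.hfan2 v) (hS.hfan3 v) (pr y) (fun h => hy (pr_eq y h))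

theorem D_pos (hS : S.IsSurf) {i : ℕ} (hi : i < S.k v) : 0 < D S v i := hS.hfan1 v i hi

theorem Lam_eq (hFAN : SpecFAN) (hS : S.IsSurf) {y : E2} {i : ℕ} (h : Idx S v i y) :
    Lam S v y = form S v i y := by
  have hy : y ≠ 0 := by
    rintro rfl
    have h1 := h.2.2
    have h2 : cr (S.Q v (i + 1)) (pr 0) = 0 := by simp [cr, pr]
    rw [h2, mul_zero] at h1
    exact lt_irrefl _ h1
  have hex : ∃ i, Idx S v i y := ⟨i, h⟩
  unfold Lam
  rw [dif_pos hex]
  rw [(fan hFAN hS hy).unique hex.choose_spec h]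

theorem Lam_zero : Lam S v 0 = Pi.single v 1 := by
  unfold Lam
  rw [dif_neg]
  rintro ⟨i, -, -, h⟩
  have h2 : cr (S.Q v (i + 1)) (pr 0) = 0 := by simp [cr, pr]
  rw [h2, mul_zero] at h
  exact lt_irrefl _ h

theorem form_zero (i : ℕ) : form S v i 0 = Pi.single v 1 := by
  have h1 : ca S v i 0 = 0 := by simp [ca, cr, pr]
  have h2 : cb S v i 0 = 0 := by simp [cb, cr, pr]
  unfold form frm
  rw [h1, h2]
  simp

/-- the next index -/
theorem next (hS : S.IsSurf) {i : ℕ} (hi : i < S.k v) :
    ∃ i', i' < S.k v ∧ S.nb v i' = S.nb v (i + 1) ∧ S.Q v i' = S.Q v (i + 1) := by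
  rcases Nat.lt_or_ge (i + 1) (S.k v) with h | h
  · exact ⟨i + 1, h, rfl, rfl⟩
  · have h1 : i + 1 = S.k v := by omega
    exact ⟨0, by omega, by rw [h1, hS.hper], by rw [h1, Q_per hS]⟩

theorem Lam_C (hFAN : SpecFAN) (hS : S.IsSurf) {i : ℕ} (hi : i < S.k v) {y : E2}
    (h : y ∈ C S v i) : Lam S v y = form S v i y := by
  by_cases hy : y = 0
  · rw [hy, Lam_zero, form_zero]
  rcases h.2.lt_or_eq with h1 | h1
  · exact Lam_eq hFAN hS ⟨hi, h.1, h1⟩
  have hD := D_pos hS hi
  have hca : ca S v i y = 0 := by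
    unfold ca
    rw [h1]
    simp
  have hj := j_form S v hD.ne' y
  unfold form at hj
  rw [j_frm, hca] at hj
  obtain ⟨i', hi', hnb, hQ⟩ := next hS hi
  have hD' := D_pos hS hi'
  have hb : 0 ≤ cb S v i y := div_nonneg h.1 hD.le
  have hb' : cb S v i y ≠ 0 := by
    intro hb'
    apply hy
    rw [← hj, hb']
    ext t
    fin_cases t <;> simp
  have hyy : y = !₂[cb S v i y * (S.Q v i').1 + 0 * (S.Q v (i' + 1)).1,
      cb S v i y * (S.Q v i').2 + 0 * (S.Q v (i' + 1)).2] := by
    rw [hQ]
    conv_lhs => rw [← hj]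
    ext t
    fin_cases t <;> simp
  obtain ⟨e1, e2, e3, e4⟩ := coef S v hD'.ne' (cb S v i y) 0 y hyy
  have hidx : Idx S v i' y := by
    refine ⟨hi', ?_, ?_⟩
    · rw [e2, zero_mul]
    · rw [e1]
      have := mul_pos (lt_of_le_of_ne hb (Ne.symm hb')) hD'
      linarith
  rw [Lam_eq hFAN hS hidx]
  unfold form frm
  rw [e3, e4, hca, hnb]
  simp

theorem cover (hFAN : SpecFAN) (hS : S.IsSurf) (y : E2) : ∃ i, i < S.k v ∧ y ∈ C S v i := by
  by_cases hy : y = 0
  · refine ⟨0, by have := hS.hk v; omega, ?_⟩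
    rw [hy]
    have h2 : ∀ q : ℝ × ℝ, cr q (pr 0) = 0 := by
      intro q
      simp [cr, pr]
    constructor <;> rw [h2, mul_zero]
  · obtain ⟨i, h, -⟩ := fan hFAN hS (v := v) hy
    exact ⟨i, h.1, h.2.1, h.2.2.le⟩

theorem Lam_cont (hFAN : SpecFAN) (hS : S.IsSurf) : Continuous (Lam S v) := by
  have hf : LocallyFinite (fun i : Fin (S.k v) => C S v i) := locallyFinite_of_finite _
  refine hf.continuous ?_ (fun i => C_closed S v i) ?_
  · refine eq_univ_of_forall fun y => ?_
    obtain ⟨i, hi, h⟩ := cover hFAN hS (v := v) y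
    exact mem_iUnion.2 ⟨⟨i, hi⟩, h⟩
  · intro i
    refine (form_cont S v i).continuousOn.congr ?_
    intro y hy
    exact Lam_C hFAN hS i.2 hy

end STRM

open STRM in
theorem specSTR (hFAN : SpecFAN) : SpecSTR := by
  intro N S hS v
  refine ⟨Lam S v, Lam_cont hFAN hS, ?_, ?_, ?_⟩
  · intro y hy
    obtain ⟨i, hi, h⟩ := cover hFAN hS (v := v) y
    have hD := D_pos hS hi
    rw [Lam_C hFAN hS hi h] at hy ⊢
    have ha : 0 ≤ ca S v i y := div_nonneg (by linarith [h.2]) hD.le
    have hb : 0 ≤ cb S v i y := div_nonneg h.1 hD.le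
    have hv : form S v i y v = 1 - ca S v i y - cb S v i y := by
      unfold form
      rw [frm_apply, if_neg (hS.hne v i hi.le).symm, if_neg (hS.hne v (i + 1) hi).symm, if_pos rfl]
      ring
    rw [hv] at hy
    refine ⟨?_, sum_frm _ _ _ _ _, _, hS.hT1 v i hi, ?_⟩
    · intro u
      unfold form
      rw [frm_apply]
      have h1 : 0 ≤ (if u = S.nb v i then ca S v i y else 0) := by split_ifs <;> simp [ha]
      have h2 : 0 ≤ (if u = S.nb v (i + 1) then cb S v i y else 0) := by split_ifs <;> simp [hb]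
      have h3 : 0 ≤ (if u = v then 1 - ca S v i y - cb S v i y else 0) := by
        split_ifs
        · exact hy.le
        · exact le_rfl
      linarith
    · intro u hu
      unfold form at hu
      rw [frm_apply] at hu
      by_contra hmem
      simp only [Finset.mem_insert, Finset.mem_singleton, not_or] at hmem
      apply hu
      rw [if_neg hmem.1, if_neg hmem.2.1, if_neg hmem.2.2]
      simp
  · intro y
    obtain ⟨i, hi, h⟩ := cover hFAN hS (v := v) y
    rw [Lam_C hFAN hS hi h]
    exact j_form S v (D_pos hS hi).ne' y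
  · rintro x ⟨hx0, hx1, t, ht, hsup⟩ hxv
    obtain ⟨i, hi, hti⟩ := hS.hT2 t ht v (hsup v hxv.ne')
    have hD := D_pos hS hi
    set m := S.nb v i with hm
    set n := S.nb v (i + 1) with hn
    have hmv : m ≠ v := hS.hne v i hi.le
    have hnv : n ≠ v := hS.hne v (i + 1) hi
    have hmn : m ≠ n := by
      intro hmn
      have hc : ({v, m, n} : Finset (Fin N)).card = 3 := hS.hcard _ (by rw [← hti]; exact ht)
      rw [← hmn] at hc
      have h2 : ({v, m, m} : Finset (Fin N)).card ≤ 2 := by
        rw [Finset.pair_eq_singleton]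
        exact Finset.card_le_two
      omega
    have hsum : x m + x n + x v = 1 := by
      rw [← hx1]
      have h1 : ∑ u, x u = ∑ u ∈ ({v, m, n} : Finset (Fin N)), x u := by
        symm
        refine Finset.sum_subset (Finset.subset_univ _) ?_
        intro u _ hu
        by_contra h
        exact hu (hti ▸ hsup u h)
      rw [h1, Finset.sum_insert, Finset.sum_insert, Finset.sum_singleton]
      · ring
      · simpa using hmn
      · simp [hmv.symm, hnv.symm]
    have hxf : x = frm v m n (x m) (x n) := by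
      ext u
      rw [frm_apply]
      by_cases hu : u = v
      · rw [hu, if_neg hmv.symm, if_neg hnv.symm, if_pos rfl]
        linarith
      by_cases hu1 : u = m
      · rw [hu1, if_pos rfl, if_neg hmn, if_neg hmv]
        ring
      by_cases hu2 : u = n
      · rw [hu2, if_neg hmn.symm, if_pos rfl, if_neg hnv]
        ring
      rw [if_neg hu, if_neg hu1, if_neg hu2]
      by_contra h
      have := hsup u (by simpa using h)
      rw [hti] at this
      simp [hu, hu1, hu2] at this
    have hj := j_frm S v i (i + 1) (x m) (x n)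
    rw [← hm, ← hn, ← hxf] at hj
    obtain ⟨e1, e2, e3, e4⟩ := coef S v hD.ne' (x m) (x n) (S.j v x) hj
    have hC : S.j v x ∈ C S v i := by
      constructor
      · rw [e2]
        exact mul_nonneg (hx0 _) hD.le
      · rw [e1]
        have := mul_nonneg (hx0 m) hD.le
        linarith
    rw [Lam_C hFAN hS hi hC]
    unfold form
    rw [e3, e4]
    exact hxf.symm

end Pool.Agent.Lib.MP_0b1f3c_gt.TI
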