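import Pool.Agent.Lib.MP_0b1f3c_gt.TI.SpecG

/-!
# Module TGG: generic linear functions have at most one local maximum
-/

open scoped Manifold ContDiff InnerProductSpace Topology
open Filter Set

noncomputable section

namespace Pool.Agent.Lib.MP_0b1f3c_gt.TI

namespace TGGM

variable {N : ℕ} {S : PolyData N}

/-- the three local coordinates as a linear isomorphism -/
theorem exists_equiv (hS : S.IsSurf) (v : Fin N) : ∃ E : E3 ≃L[ℝ] ℝ × ℝ × ℝ,
    ∀ p, E p = (S.X v p, S.Y v p, S.Z v p) := by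
  let T : E3 →ₗ[ℝ] ℝ × ℝ × ℝ :=
    (S.X v : E3 →ₗ[ℝ] ℝ).prod ((S.Y v : E3 →ₗ[ℝ] ℝ).prod (S.Z v : E3 →ₗ[ℝ] ℝ))
  have hT : ∀ p, T p = (S.X v p, S.Y v p, S.Z v p) := fun p => rfl
  have hinj : Function.Injective T := by
    rw [← LinearMap.ker_eq_bot, LinearMap.ker_eq_bot']
    intro p hp
    rw [hT] at hp
    simp only [Prod.mk_eq_zero] at hp
    exact hS.hinj v p hp.1 hp.2.1 hp.2.2
  have hdim : Module.finrank ℝ E3 = Module.finrank ℝ (ℝ × ℝ × ℝ) := by simp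
  refine ⟨(LinearEquiv.ofInjectiveOfFinrankEq T hinj hdim).toContinuousLinearEquiv, fun p => ?_⟩
  exact hT p

end TGGM

open TGGM

theorem specTGG (hPAT : SpecPAT) (hLMX : SpecLMX) (hNRV : SpecNRV) (hG2 : SpecG2)
    (hSTR : SpecSTR) : SpecTGG := by
  intro N S hS ψ hψ
  have hpos : ∀ᶠ δ in 𝓝[>] (0 : ℝ), 0 < δ := self_mem_nhdsWithin
  filter_upwards [hPAT N S hS ψ hψ, hNRV N S hS ψ hψ, hpos] with δ hpat hnrv hδ
  intro ξ hξ
  -- the constants of every vertex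
  have hcst : ∀ v : Fin N, ∃ α β γ x₀ y₀ z₀ : ℝ,
      (∀ p : E3, inner ℝ ξ p = α * S.X v p + β * S.Y v p + γ * S.Z v p) ∧
      (∀ x y z : ℝ, locF ψ δ (S.κ v) x y z = 0 →
        (∀ᶠ p : ℝ × ℝ × ℝ in 𝓝 (x, y, z), locF ψ δ (S.κ v) p.1 p.2.1 p.2.2 = 0 →
          α * p.1 + β * p.2.1 + γ * p.2.2 ≤ α * x + β * y + γ * z) →
        S.κ v = -1 ∧ 0 < α ∧ 0 < β ∧ 0 < γ ∧ x = x₀ ∧ y = y₀ ∧ z = z₀ ∧
          |x| ≤ 4 * δ ∧ |y| ≤ 4 * δ ∧ |z| ≤ 4 * δ) := by
    intro v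
    obtain ⟨E, hE⟩ := exists_equiv hS v
    obtain ⟨hk1, hk12, hk2⟩ := hS.hk v
    set α := inner ℝ ξ (E.symm (1, 0, 0)) with hα
    set β := inner ℝ ξ (E.symm (0, 1, 0)) with hβ
    set γ := inner ℝ ξ (E.symm (0, 0, 1)) with hγ
    have hform : ∀ p : E3, inner ℝ ξ p = α * S.X v p + β * S.Y v p + γ * S.Z v p := by
      intro p
      have h1 : p = S.X v p • E.symm (1, 0, 0) + S.Y v p • E.symm (0, 1, 0) +
          S.Z v p • E.symm (0, 0, 1) := by
        apply E.injective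
        rw [map_add, map_add, map_smul, map_smul, map_smul, E.apply_symm_apply,
          E.apply_symm_apply, E.apply_symm_apply, hE]
        ext <;> simp
      conv_lhs => rw [h1]
      rw [inner_add_right, inner_add_right, inner_smul_right, inner_smul_right, inner_smul_right]
      ring
    have h0 := hξ v 0
    have h1 := hξ v 1
    have h2 := hξ v 2
    rw [hform] at h0 h1 h2
    have e0 : S.r v 0 = S.nb v 0 := by simp [PolyData.r]
    have e1 : S.r v 1 = S.nb v (S.k1 v) := by simp [PolyData.r]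
    have e2 : S.r v 2 = S.nb v (S.k2 v) := by simp [PolyData.r]
    have dX0 : S.X v (S.P (S.nb v 0) - S.P v) = 0 := hS.hX v 0 (Nat.zero_le _)
    have dY0 : S.Y v (S.P (S.nb v 0) - S.P v) = 0 := by
      have := hS.hY v (S.k v) hk2.le le_rfl
      rwa [PolyData.DY, hS.hper v] at this
    have dX1 : S.X v (S.P (S.nb v (S.k1 v)) - S.P v) = 0 := hS.hX v _ le_rfl
    have dZ1 : S.Z v (S.P (S.nb v (S.k1 v)) - S.P v) = 0 := hS.hZ v _ le_rfl hk12.le
    have dZ2 : S.Z v (S.P (S.nb v (S.k2 v)) - S.P v) = 0 := hS.hZ v _ hk12.le le_rfl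
    have dY2 : S.Y v (S.P (S.nb v (S.k2 v)) - S.P v) = 0 := hS.hY v _ le_rfl hk2.le
    rw [e0, dX0, dY0] at h0
    rw [e1, dX1, dZ1] at h1
    rw [e2, dY2, dZ2] at h2
    have hγ0 : γ ≠ 0 := by
      intro h; apply h0; rw [h]; ring
    have hβ0 : β ≠ 0 := by
      intro h; apply h1; rw [h]; ring
    have hα0 : α ≠ 0 := by
      intro h; apply h2; rw [h]; ring
    obtain ⟨x₀, y₀, z₀, h⟩ := hLMX ψ hψ δ hδ (S.κ v) (hS.hκ v) α β γ hα0 hβ0 hγ0
    exact ⟨α, β, γ, x₀, y₀, z₀, hform, h⟩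
  choose α β γ x₀ y₀ z₀ hform hlm using hcst
  -- the main claim
  have key : ∀ p : Realization S.T, IsLocalMax (fun q => inner ℝ ξ (S.f ψ δ q)) p →
      ∃ v, p ∈ S.zone1 v ∧ 0 < p.1 v ∧ S.L v (S.d v) = 0 ∧
        (∀ u, u ≠ v → inner ℝ ξ (S.P u - S.P v) < 0) ∧
        S.X v (S.f ψ δ p - S.P v) = x₀ v ∧ S.Y v (S.f ψ δ p - S.P v) = y₀ v ∧
        S.Z v (S.f ψ δ p - S.P v) = z₀ v := by
    intro p hp
    obtain ⟨v, hpv, U, hpU, hU⟩ := hpat p
    obtain ⟨E, hE⟩ := exists_equiv hS v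
    have hev : ∀ᶠ q : ℝ × ℝ × ℝ in 𝓝 (S.X v (S.f ψ δ p - S.P v), S.Y v (S.f ψ δ p - S.P v),
        S.Z v (S.f ψ δ p - S.P v)), locF ψ δ (S.κ v) q.1 q.2.1 q.2.2 = 0 →
          α v * q.1 + β v * q.2.1 + γ v * q.2.2 ≤ α v * S.X v (S.f ψ δ p - S.P v) +
            β v * S.Y v (S.f ψ δ p - S.P v) + γ v * S.Z v (S.f ψ δ p - S.P v) := by
      rw [← hE]
      have h1 : {x : U | inner ℝ ξ (S.f ψ δ x.1) ≤ inner ℝ ξ (S.f ψ δ p)} ∈
          𝓝 (⟨p, hpU⟩ : U) := by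
        have : ContinuousAt (Subtype.val : U → Realization S.T) ⟨p, hpU⟩ :=
          continuous_subtype_val.continuousAt
        exact this hp
      have h2 := hU.emb.isOpenMap.image_mem_nhds h1
      have h3 : ContinuousAt (fun q : ℝ × ℝ × ℝ => S.L v (E.symm q)) (E (S.f ψ δ p - S.P v)) := by
        fun_prop
      have h4 : S.L v (E.symm (E (S.f ψ δ p - S.P v))) = S.L v (S.f ψ δ p - S.P v) := by
        rw [ContinuousLinearEquiv.symm_apply_apply]
      have h5 : ∀ᶠ q : ℝ × ℝ × ℝ in 𝓝 (E (S.f ψ δ p - S.P v)), S.L v (E.symm q) ∈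
          (fun x : U => S.L v (S.f ψ δ x.1 - S.P v)) ''
            {x : U | inner ℝ ξ (S.f ψ δ x.1) ≤ inner ℝ ξ (S.f ψ δ p)} := by
        apply h3
        show _ ∈ 𝓝 (S.L v (E.symm (E (S.f ψ δ p - S.P v))))
        rw [h4]
        exact h2
      filter_upwards [h5] with q hq hq0
      obtain ⟨x, hx, hxq⟩ := hq
      have hEq : E (E.symm q) = q := E.apply_symm_apply q
      rw [hE] at hEq
      have h6 : S.F ψ δ v (S.P v + E.symm q) = 0 := by
        rw [PolyData.F, add_sub_cancel_left]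
        rw [← hEq] at hq0
        exact hq0
      have h7 : S.L v (S.f ψ δ x.1 - (S.P v + E.symm q)) = 0 := by
        have : S.f ψ δ x.1 - (S.P v + E.symm q) = (S.f ψ δ x.1 - S.P v) - E.symm q := by abel
        rw [this, map_sub]
        simp only at hxq
        rw [hxq, sub_self]
      obtain ⟨c, hc⟩ := hU.ker _ h7
      have h8 : S.f ψ δ x.1 = (S.P v + E.symm q) + c • S.d v := by rw [← hc]; abel
      have h9 := hU.van x.1 x.2
      rw [h8, hU.trans, h6, zero_add] at h9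
      rw [h9, zero_smul, add_zero] at h8
      have h10 : inner ℝ ξ (S.f ψ δ x.1) ≤ inner ℝ ξ (S.f ψ δ p) := hx
      have h11 : inner ℝ ξ (E.symm q) ≤ inner ℝ ξ (S.f ψ δ p - S.P v) := by
        rw [h8, inner_add_right] at h10
        rw [inner_sub_right]
        linarith
      rw [hform v, hform v] at h11
      rw [← hEq]
      exact h11
    obtain ⟨hκ, hα, hβ, hγ, hx, hy, hz, bx, bY, bz⟩ := hlm v _ _ _ (hU.van p hpU) hev
    refine ⟨v, hnrv v p hpv.le bx bY bz, lt_trans (by norm_num) hpv, hU.Ld, ?_, hx, hy, hz⟩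
    intro u hu
    obtain ⟨cX, cY, cZ⟩ := hS.hconv v hκ u
    rw [hform v]
    rcases lt_or_eq_of_le cX with h | h
    · nlinarith [mul_pos hα (neg_pos.2 h), mul_nonneg hβ.le (neg_nonneg.2 cY),
        mul_nonneg hγ.le (neg_nonneg.2 cZ)]
    rcases lt_or_eq_of_le cY with h' | h'
    · nlinarith [mul_pos hβ (neg_pos.2 h'), mul_nonneg hα.le (neg_nonneg.2 cX),
        mul_nonneg hγ.le (neg_nonneg.2 cZ)]
    rcases lt_or_eq_of_le cZ with h'' | h''
    · nlinarith [mul_pos hγ (neg_pos.2 h''), mul_nonneg hα.le (neg_nonneg.2 cX),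
        mul_nonneg hβ.le (neg_nonneg.2 cY)]
    exact absurd (hS.hP (sub_eq_zero.1 (hS.hinj v _ h h' h''))) hu
  intro p p' hp hp'
  obtain ⟨v, hz1, hv, hLd, hmax, hx, hy, hz⟩ := key p hp
  obtain ⟨v', hz1', hv', -, hmax', hx', hy', hz'⟩ := key p' hp'
  have hvv : v' = v := by
    by_contra hne
    have h1 := hmax v' hne
    have h2 := hmax' v (Ne.symm hne)
    rw [inner_sub_right] at h1 h2
    linarith
  subst hvv
  have hf : S.f ψ δ p = S.f ψ δ p' := by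
    have h1 : S.f ψ δ p - S.f ψ δ p' = (S.f ψ δ p - S.P v') - (S.f ψ δ p' - S.P v') := by abel
    have h2 : S.f ψ δ p - S.f ψ δ p' = 0 := by
      apply hS.hinj v'
      · rw [h1, map_sub, hx, hx', sub_self]
      · rw [h1, map_sub, hy, hy', sub_self]
      · rw [h1, map_sub, hz, hz', sub_self]
    exact sub_eq_zero.1 h2
  have hj : ∀ q : Realization S.T, q ∈ S.zone1 v' → S.j v' q.1 = S.L v' (S.f ψ δ q - S.P v') := by
    intro q hq
    rw [hG2 N S hS ψ δ v' q hq, PolyData.j_eq]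
    have : S.g q.1 - S.F ψ δ v' (S.g q.1) • S.d v' - S.P v' =
        (S.g q.1 - S.P v') - S.F ψ δ v' (S.g q.1) • S.d v' := by abel
    rw [this, (S.L v').map_sub (S.g q.1 - S.P v'), (S.L v').map_smul, hLd, smul_zero, sub_zero]
  obtain ⟨Λ, -, -, -, hΛ⟩ := hSTR N S hS v'
  apply Subtype.ext
  rw [← hΛ p.1 p.2 hv, ← hΛ p'.1 p'.2 hv', hj p hz1, hj p' hz1', hf]

end Pool.Agent.Lib.MP_0b1f3c_gt.TI
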