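import Pool.Agent.Lib.MP_0b1f3c_gt.TI.SpecG

/-!
# TGL: unique local maxima for a dense set of directions imply tightness (helper68)
-/

open scoped Manifold ContDiff InnerProductSpace Topology
open Filter Set

noncomputable section

namespace Pool.Agent.Lib.MP_0b1f3c_gt.TI

namespace TGLM

variable {M : Type} [TopologicalSpace M] [CompactSpace M]

/-- a maximum over one of two closed parts of a superlevel set is a local maximum -/
theorem localMax {h : M → ℝ} (hh : Continuous h) {a : ℝ} {t t' : Set M} (ht : IsClosed t)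
    (ht' : IsClosed t') (hsub : {p | a ≤ h p} ⊆ t ∪ t') (hne : ({p | a ≤ h p} ∩ t).Nonempty)
    (hdis : ¬ ({p | a ≤ h p} ∩ (t ∩ t')).Nonempty) :
    ∃ p ∈ {p | a ≤ h p} ∩ t, IsLocalMax h p := by
  have hs : IsClosed {p | a ≤ h p} := isClosed_le continuous_const hh
  obtain ⟨p, hp, hmax⟩ := (hs.inter ht).isCompact.exists_isMaxOn hne hh.continuousOn
  refine ⟨p, hp, ?_⟩
  have hpB : p ∉ {p | a ≤ h p} ∩ t' := fun hB => hdis ⟨p, hp.1, hp.2, hB.2⟩
  have hop : ({p | a ≤ h p} ∩ t')ᶜ ∈ 𝓝 p := (hs.inter ht').isOpen_compl.mem_nhds hpB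
  filter_upwards [hop] with q hq
  by_cases hqs : a ≤ h q
  · rcases hsub hqs with h1 | h1
    · exact hmax ⟨hqs, h1⟩
    · exact absurd ⟨hqs, h1⟩ hq
  · exact (not_le.1 hqs).le.trans hp.1

/-- superlevel sets of a function with a unique local maximum -/
theorem preconn {h : M → ℝ} (hh : Continuous h)
    (hu : ∀ p p' : M, IsLocalMax h p → IsLocalMax h p' → p = p') (a : ℝ) :
    IsPreconnected {p | a ≤ h p} := by
  rw [isPreconnected_closed_iff]
  intro t t' ht ht' hsub hne hne'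
  by_contra hdis
  obtain ⟨p, hp, h1⟩ := localMax hh ht ht' hsub hne hdis
  obtain ⟨p', hp', h2⟩ := localMax hh ht' ht (by rwa [union_comm]) hne' (by rwa [inter_comm t' t])
  have e := hu p p' h1 h2
  exact hdis ⟨p, hp.1, hp.2, e ▸ hp'.2⟩

end TGLM

open TGLM in
theorem specTGL : SpecTGL := by
  intro M _ _ _ f hf D hD hmax ξ a hξ
  have hcont : ∀ ξ : E3, Continuous fun q : M => (inner ℝ ξ (f q) : ℝ) := fun ξ =>
    continuous_const.inner hf
  rw [isPreconnected_closed_iff]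
  intro t t' ht ht' hsub hne hne'
  by_contra hdis
  set s : Set M := {p : M | a ≤ inner ℝ ξ (f p)} with hs
  have hsc : IsClosed s := isClosed_le continuous_const (hcont ξ)
  have hdisj : Disjoint (s ∩ t) (s ∩ t') := by
    rw [Set.disjoint_left]
    intro p h1 h2
    exact hdis ⟨p, h1.1, h1.2, h2.2⟩
  obtain ⟨U, V, hU, hV, hAU, hBV, hUV⟩ := normal_separation (hsc.inter ht) (hsc.inter ht') hdisj
  -- the gap
  obtain ⟨ε, hε, hgap⟩ : ∃ ε > 0, ∀ p ∉ U ∪ V, (inner ℝ ξ (f p) : ℝ) ≤ a - 3 * ε := by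
    by_cases hK : ((U ∪ V)ᶜ : Set M).Nonempty
    · obtain ⟨p, hp, hpm⟩ := (hU.union hV).isClosed_compl.isCompact.exists_isMaxOn hK
        (hcont ξ).continuousOn
      have hpa : (inner ℝ ξ (f p) : ℝ) < a := by
        by_contra hc
        have hps : p ∈ s := not_lt.1 hc
        rcases hsub hps with h1 | h1
        · exact hp (Or.inl (hAU ⟨hps, h1⟩))
        · exact hp (Or.inr (hBV ⟨hps, h1⟩))
      refine ⟨(a - inner ℝ ξ (f p)) / 3, by linarith, fun q hq => ?_⟩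
      have h1 : (inner ℝ ξ (f q) : ℝ) ≤ inner ℝ ξ (f p) := hpm hq
      linarith
    · refine ⟨1, one_pos, fun q hq => ?_⟩
      exact absurd ⟨q, hq⟩ hK
  -- a bound for `f`
  obtain ⟨R, hR⟩ : ∃ R : ℝ, ∀ p, ‖f p‖ ≤ R := by
    obtain ⟨R, hR⟩ := (isCompact_range hf).isBounded.exists_norm_le
    exact ⟨R, fun p => hR _ (mem_range_self p)⟩
  have hR' : 0 < |R| + 1 := by positivity
  obtain ⟨ξ', hξ'D, hξ'⟩ : ∃ ξ' ∈ D, dist ξ ξ' < ε / (|R| + 1) :=
    hD.exists_dist_lt ξ (by positivity)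
  have hclose : ∀ p, |(inner ℝ ξ' (f p) : ℝ) - inner ℝ ξ (f p)| ≤ ε := by
    intro p
    rw [← inner_sub_left]
    refine (abs_real_inner_le_norm _ _).trans ?_
    have h1 : ‖ξ' - ξ‖ ≤ ε / (|R| + 1) := by
      rw [dist_comm, dist_eq_norm] at hξ'
      exact hξ'.le
    have h2 : ‖f p‖ ≤ |R| + 1 := (hR p).trans ((le_abs_self R).trans (by linarith))
    calc ‖ξ' - ξ‖ * ‖f p‖ ≤ ε / (|R| + 1) * (|R| + 1) :=
          mul_le_mul h1 h2 (norm_nonneg _) (by positivity)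
      _ = ε := by field_simp
  have hpre := preconn (hcont ξ') (hmax ξ' hξ'D) (a - ε)
  obtain ⟨p₁, hp₁⟩ := hne
  obtain ⟨p₂, hp₂⟩ := hne'
  have hin : ∀ p ∈ s, a - ε ≤ (inner ℝ ξ' (f p) : ℝ) := by
    intro p hp
    have h1 := (abs_le.1 (hclose p)).1
    have h2 : a ≤ (inner ℝ ξ (f p) : ℝ) := hp
    linarith
  obtain ⟨q, -, hqU, hqV⟩ := hpre U V hU hV (by
    intro p hp
    by_contra hc
    have h1 := hgap p hc
    have h2 := (abs_le.1 (hclose p)).2
    have h3 : a - ε ≤ (inner ℝ ξ' (f p) : ℝ) := hp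
    linarith) ⟨p₁, hin p₁ hp₁.1, hAU hp₁⟩ ⟨p₂, hin p₂ hp₂.1, hBV hp₂⟩
  exact Set.disjoint_left.1 hUV hqU hqV

end Pool.Agent.Lib.MP_0b1f3c_gt.TI
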