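import Pool.Agent.Lib.MP_0b1f3c_gt.TI.SpecG

/-!
# TPX: any vertex with the largest coordinate may be used
-/

open scoped Manifold ContDiff InnerProductSpace Topology
open Filter Set

noncomputable section

namespace Pool.Agent.Lib.MP_0b1f3c_gt.TI

namespace TPXM

variable {N : ℕ} {S : PolyData N}

theorem tau_zero {t : ℝ} (ht : t ≤ 1 / 8) : PolyData.tau t = 0 := by
  unfold PolyData.tau
  exact max_eq_left ((min_le_right _ _).trans (by linarith))

theorem tau_one {t : ℝ} (ht : 3 / 8 ≤ t) : PolyData.tau t = 1 := by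
  unfold PolyData.tau
  rw [min_eq_left (by linarith), max_eq_right (by norm_num)]

/-- sum of three coordinates -/
theorem sum_three {x : Fin N → ℝ} (hx : x ∈ Realization S.T) {a b c : Fin N} (hab : a ≠ b) (hac : a ≠ c)
    (hbc : b ≠ c) : x a + x b + x c ≤ 1 := by
  rw [← hx.2.1]
  have h1 : ∑ u ∈ ({a, b, c} : Finset (Fin N)), x u = x a + x b + x c := by
    rw [Finset.sum_insert, Finset.sum_insert, Finset.sum_singleton, add_assoc]
    · rwa [Finset.mem_singleton]
    · rw [Finset.mem_insert, Finset.mem_singleton, not_or]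
      exact ⟨hab, hac⟩
  rw [← h1]
  exact Finset.sum_le_sum_of_subset_of_nonneg (Finset.subset_univ _) fun u _ _ => hx.1 u

/-- the largest coordinate is at least `1/3` -/
theorem third (hS : S.IsSurf) {x : Fin N → ℝ} (hx : x ∈ Realization S.T) {v : Fin N}
    (hv : ∀ u, x u ≤ x v) : 1 / 3 ≤ x v := by
  obtain ⟨t, ht, hsupp⟩ := hx.2.2
  have h1 : ∑ u, x u = ∑ u ∈ t, x u := by
    symm
    refine Finset.sum_subset (Finset.subset_univ t) fun u _ hu => ?_
    by_contra h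
    exact hu (hsupp u h)
  have h2 : ∑ u ∈ t, x u ≤ ∑ u ∈ t, x v := Finset.sum_le_sum fun u _ => hv u
  rw [← h1, hx.2.1, Finset.sum_const, hS.hcard t ht] at h2
  simp only [nsmul_eq_mul] at h2
  push_cast at h2
  linarith

/-- the correction near an edge -/
theorem corr_edge (hEFA : SpecEFA) (hS : S.IsSurf) {ψ : ℝ → ℝ} {δ : ℝ} {v : Fin N} {e : Fin 3}
    {x : Fin N → ℝ} (hx : x ∈ Realization S.T) (h1 : 31 / 32 < x v + x (S.r v e))
    (h2 : 3 / 8 ≤ x (S.r v e)) :
    S.corr ψ δ v x = S.F ψ δ v (S.g x) • S.dbar v e := by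
  have hE := hEFA N S hS v e
  unfold PolyData.corr
  congr 1
  rw [Finset.sum_eq_single e]
  · rw [tau_one h2, one_smul]
    abel
  · intro e' _ he'
    have hne : S.r v e' ≠ S.r v e := fun h => he' (hE.rinj e' h)
    have h3 := sum_three hx (a := v) (b := S.r v e) (c := S.r v e') hE.rne.symm
      (hEFA N S hS v e').rne.symm hne.symm
    rw [tau_zero (by linarith), zero_smul]
  · intro h
    exact absurd (Finset.mem_univ e) h

/-- both ends of an edge give the same correction -/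
theorem corr_swap (hEFA : SpecEFA) (hS : S.IsSurf) {ψ : ℝ → ℝ} {δ : ℝ} {v : Fin N} {e : Fin 3}
    {x : Fin N → ℝ} (hx : x ∈ Realization S.T) (h1 : 31 / 32 < x v + x (S.r v e))
    (h2 : 3 / 8 ≤ x (S.r v e)) (h3 : 3 / 8 ≤ x v)
    (hF : S.F ψ δ (S.r v e) (S.g x) = S.sig v e * S.F ψ δ v (S.g x)) :
    S.corr ψ δ v x = S.corr ψ δ (S.r v e) x := by
  have hE := hEFA N S hS v e
  have hop := hS.hop v e
  have h4 : S.corr ψ δ (S.r v e) x = S.F ψ δ (S.r v e) (S.g x) • S.dbar (S.r v e) (S.op v e) :=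
    corr_edge hEFA hS hx (by rw [hop]; linarith) (by rw [hop]; exact h3)
  rw [corr_edge hEFA hS hx h1 h2, h4, hF]
  have h5 : S.dbar (S.r v e) (S.op v e) =
      (1 / 2 : ℝ) • (S.d (S.r v e) + S.sig v e • S.d v) := by
    unfold PolyData.dbar PolyData.sig
    rw [hop, hE.opop, mul_comm (S.sg (S.r v e) (S.op v e)) (S.sg v e)]
  have h6 : S.dbar v e = (1 / 2 : ℝ) • (S.d v + S.sig v e • S.d (S.r v e)) := rfl
  have h7 := hE.sig2
  rw [h5, h6, mul_comm, mul_smul]
  congr 1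
  rw [smul_comm (S.sig v e) (1 / 2 : ℝ)]
  congr 1
  rw [smul_add, smul_smul, h7, one_smul, add_comm]

/-- two vertices with the largest coordinate, `F v ≠ 0` -/
theorem aux (hEFA : SpecEFA) (hS : S.IsSurf) {ψ : ℝ → ℝ} {δ : ℝ}
    (hD : ∀ v, ∀ x ∈ Realization S.T, 1 / 9 ≤ x v → S.F ψ δ v (S.g x) ≠ 0 →
      ∃ e, 31 / 32 < x v + x (S.r v e))
    (h3 : ∀ v e, ∀ x ∈ Realization S.T, 1 / 9 ≤ x v → 1 / 9 ≤ x (S.r v e) →
      S.F ψ δ (S.r v e) (S.g x) = S.sig v e * S.F ψ δ v (S.g x))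
    {x : Fin N → ℝ} (hx : x ∈ Realization S.T) {v w : Fin N} (hvw : v ≠ w) (hv : ∀ u, x u ≤ x v)
    (hw : ∀ u, x u ≤ x w) (hF : S.F ψ δ v (S.g x) ≠ 0) : S.corr ψ δ v x = S.corr ψ δ w x := by
  have hv3 := third hS hx hv
  have he : x v = x w := le_antisymm (hw v) (hv w)
  obtain ⟨e, h1⟩ := hD v x hx (by linarith) hF
  have hwe : S.r v e = w := by
    by_contra hne
    have h4 := sum_three hx (a := v) (b := S.r v e) (c := w) (hEFA N S hS v e).rne.symm hvw hne
    linarith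
  have h2 : x (S.r v e) = x v := by rw [hwe, he]
  have := corr_swap hEFA hS (ψ := ψ) (δ := δ) hx h1 (by linarith) (by linarith)
    (h3 v e x hx (by linarith) (by linarith))
  rw [this, hwe]

end TPXM

open TPXM in
/-- **TPX** -/
theorem specTPX (hDON : SpecDON) (hED3 : SpecED3) (hEFA : SpecEFA) : SpecTPX := by
  intro N S hS ψ hψ
  filter_upwards [hDON N S hS ψ hψ, hED3 N S hS ψ hψ] with δ hD h3
  intro v x hv
  have hN := hS.hN
  set w := PolyData.top x.1 ⟨0, hN⟩ with hw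
  have hwmax : ∀ u, x.1 u ≤ x.1 w := by
    have : Nonempty (Fin N) := ⟨⟨0, hN⟩⟩
    exact Classical.choose_spec (Finite.exists_max x.1)
  have hf : S.f ψ δ x = S.g x.1 - S.corr ψ δ w x.1 := by
    unfold PolyData.f
    rw [dif_pos hN]
  rw [hf]
  congr 1
  by_cases hvw : v = w
  · rw [← hvw]
  by_cases hFv : S.F ψ δ v (S.g x.1) = 0
  · by_cases hFw : S.F ψ δ w (S.g x.1) = 0
    · unfold PolyData.corr
      rw [hFv, hFw, zero_smul, zero_smul]
    · exact aux hEFA hS hD h3 x.2 (Ne.symm hvw) hwmax hv hFw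
  · exact (aux hEFA hS hD h3 x.2 hvw hv hwmax hFv).symm

end Pool.Agent.Lib.MP_0b1f3c_gt.TI
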