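import Pool.Agent.Lib.MP_0b1f3c_gt.TI.SpecG

/-!
# ZON: formulas for `f` in the zones (helper83)
-/

open scoped Manifold ContDiff InnerProductSpace Topology
open Filter Set

noncomputable section

namespace Pool.Agent.Lib.MP_0b1f3c_gt.TI

namespace ZONM

variable {N : ℕ} {S : PolyData N}

theorem tau_zero {t : ℝ} (h : t ≤ 1 / 8) : PolyData.tau t = 0 := by
  unfold PolyData.tau
  rw [max_eq_left]
  exact (min_le_right _ _).trans (by linarith)

theorem tau_one {t : ℝ} (h : 3 / 8 ≤ t) : PolyData.tau t = 1 := by
  unfold PolyData.tau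
  rw [min_eq_left (by linarith), max_eq_right zero_le_one]

/-- the other coordinates are small -/
theorem other {x : Realization S.T} {v w u : Fin N} (hvw : w ≠ v) (huv : u ≠ v) (huw : u ≠ w)
    (h : 15 / 16 < x.1 v + x.1 w) : x.1 u < 1 / 16 := by
  have h1 : x.1 v + x.1 w + x.1 u ≤ ∑ i, x.1 i := by
    calc x.1 v + x.1 w + x.1 u = ∑ i ∈ ({v, w, u} : Finset (Fin N)), x.1 i := by
          rw [Finset.sum_insert, Finset.sum_pair huw.symm]
          · ring
          · simp only [Finset.mem_insert, Finset.mem_singleton, not_or]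
            exact ⟨hvw.symm, huv.symm⟩
      _ ≤ ∑ i, x.1 i := Finset.sum_le_sum_of_subset_of_nonneg (Finset.subset_univ _)
          fun i _ _ => x.2.1 i
  rw [x.2.2.1] at h1
  linarith

/-- the largest coordinate -/
theorem third (hS : S.IsSurf) {x : Realization S.T} {v : Fin N} (h : ∀ u, x.1 u ≤ x.1 v) :
    1 / 3 ≤ x.1 v := by
  obtain ⟨t, ht, hst⟩ := x.2.2.2
  have h1 : ∑ i ∈ t, x.1 i = ∑ i, x.1 i := by
    refine Finset.sum_subset (Finset.subset_univ _) fun i _ hi => ?_
    by_contra h0
    exact hi (hst i h0)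
  have h2 : ∑ i ∈ t, x.1 i ≤ ∑ i ∈ t, x.1 v := Finset.sum_le_sum fun i _ => h i
  rw [h1, x.2.2.1, Finset.sum_const, hS.hcard t ht, nsmul_eq_mul] at h2
  norm_num at h2 ⊢
  linarith

end ZONM

open ZONM in
theorem specZON (hTPX : SpecTPX) (hEFA : SpecEFA) (hED3 : SpecED3) (hDON : SpecDON) : SpecZON := by
  intro N S hS ψ hψ
  filter_upwards [hTPX N S hS ψ hψ, hED3 N S hS ψ hψ, hDON N S hS ψ hψ] with δ h1 h2 h3
  constructor
  · rintro v e x ⟨hv, hw, hvw⟩
    have E := hEFA N S hS v e
    set w := S.r v e with hwdef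
    have hoth : ∀ u, u ≠ v → u ≠ w → x.1 u < 1 / 16 := fun u h4 h5 => other E.rne h4 h5 hvw
    rcases le_total (x.1 w) (x.1 v) with hle | hle
    · have hmax : ∀ u, x.1 u ≤ x.1 v := by
        intro u
        by_cases h4 : u = v
        · rw [h4]
        · by_cases h5 : u = w
          · rw [h5]; exact hle
          · have := hoth u h4 h5
            linarith
      rw [h1 v x hmax]
      unfold PolyData.corr
      have h6 : ∑ e' : Fin 3, PolyData.tau (x.1 (S.r v e')) • (S.dbar v e' - S.d v) =
          PolyData.tau (x.1 w) • (S.dbar v e - S.d v) := by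
        rw [Finset.sum_eq_single e]
        · intro e' _ hne
          have h7 : S.r v e' ≠ w := fun h => hne (E.rinj e' h)
          have h8 : S.r v e' ≠ v := (hEFA N S hS v e').rne
          rw [tau_zero (by have := hoth _ h8 h7; linarith), zero_smul]
        · intro h
          exact absurd (Finset.mem_univ _) h
      have h9 : S.dbar v e - S.d v = (1 / 2 : ℝ) • (S.sig v e • S.d w - S.d v) := by
        unfold PolyData.dbar PolyData.sig
        module
      have h10 : S.theta v e x.1 = PolyData.tau (x.1 w) * (1 / 2) := by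
        unfold PolyData.theta
        rw [tau_one (t := x.1 v) (by linarith)]
        ring
      rw [h6, h9, h10, smul_smul]
    · have hmax : ∀ u, x.1 u ≤ x.1 w := by
        intro u
        by_cases h4 : u = w
        · rw [h4]
        · by_cases h5 : u = v
          · rw [h5]; exact hle
          · have := hoth u h5 h4
            linarith
      have E' := hEFA N S hS w (S.op v e)
      have hwv : S.r w (S.op v e) = v := hS.hop v e
      rw [h1 w x hmax]
      unfold PolyData.corr
      have h6 : ∑ e' : Fin 3, PolyData.tau (x.1 (S.r w e')) • (S.dbar w e' - S.d w) =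
          PolyData.tau (x.1 v) • (S.dbar w (S.op v e) - S.d w) := by
        rw [Finset.sum_eq_single (S.op v e)]
        · rw [hwv]
        · intro e' _ hne
          have h7 : S.r w e' ≠ v := fun h => hne (E'.rinj e' (h.trans hwv.symm))
          have h8 : S.r w e' ≠ w := (hEFA N S hS w e').rne
          rw [tau_zero (by have := hoth _ h7 h8; linarith), zero_smul]
        · intro h
          exact absurd (Finset.mem_univ _) h
      have h9 : S.dbar w (S.op v e) - S.d w = (1 / 2 : ℝ) • (S.sig v e • S.d v - S.d w) := by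
        unfold PolyData.dbar PolyData.sig
        rw [hwv, E.opop, mul_comm (S.sg w (S.op v e)) (S.sg v e)]
        module
      have h10 : S.theta v e x.1 = 1 - PolyData.tau (x.1 v) * (1 / 2) := by
        unfold PolyData.theta
        rw [tau_one (t := x.1 (S.r v e)) (by rw [← hwdef]; linarith)]
        ring
      have h11 := h2 v e x.1 x.2 hv.le hw.le
      rw [h6, h9, h10, ← hwdef] at *
      rw [h11]
      have h12 := E.sig2
      set c := S.F ψ δ v (S.g x.1)
      set τ := PolyData.tau (x.1 v)
      set σ := S.sig v e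
      have h13 : (σ * c) • (S.d w + τ • (1 / 2 : ℝ) • (σ • S.d v - S.d w)) =
          c • (((σ * σ) * (τ * (1 / 2))) • S.d v + ((1 - τ * (1 / 2)) * σ) • S.d w) := by
        module
      rw [h13, h12]
      module
  · intro x hx
    haveI : Nonempty (Fin N) := ⟨⟨0, hS.hN⟩⟩
    obtain ⟨v, hv⟩ := Finite.exists_max x.1
    rw [h1 v x hv]
    have h4 := third hS hv
    have h5 : S.F ψ δ v (S.g x.1) = 0 := by
      by_contra h6
      obtain ⟨e, he⟩ := h3 v x.1 x.2 (by linarith) h6
      have := hx v e
      linarith
    unfold PolyData.corr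
    rw [h5, zero_smul, sub_zero]

end Pool.Agent.Lib.MP_0b1f3c_gt.TI
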