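import Pool.Agent.Lib.MP_0b1f3c_gt.TI.PSI
import Pool.Agent.Lib.MP_0b1f3c_gt.TI.CC
import Pool.Agent.Lib.MP_0b1f3c_gt.TI.LFT
import Pool.Agent.Lib.MP_0b1f3c_gt.TI.SID
import Pool.Agent.Lib.MP_0b1f3c_gt.TI.FLT
import Pool.Agent.Lib.MP_0b1f3c_gt.TI.EUL
import Pool.Agent.Lib.MP_0b1f3c_gt.TI.KSU
import Pool.Agent.Lib.MP_0b1f3c_gt.TI.KCU
import Pool.Agent.Lib.MP_0b1f3c_gt.TI.KPA
import Pool.Agent.Lib.MP_0b1f3c_gt.TI.GSM
import Pool.Agent.Lib.MP_0b1f3c_gt.TI.CRT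
import Pool.Agent.Lib.MP_0b1f3c_gt.TI.PSF
import Pool.Agent.Lib.MP_0b1f3c_gt.TI.LOC
import Pool.Agent.Lib.MP_0b1f3c_gt.TI.LMX
import Pool.Agent.Lib.MP_0b1f3c_gt.TI.CPT
import Pool.Agent.Lib.MP_0b1f3c_gt.TI.CNN
import Pool.Agent.Lib.MP_0b1f3c_gt.TI.FAN
import Pool.Agent.Lib.MP_0b1f3c_gt.TI.STR
import Pool.Agent.Lib.MP_0b1f3c_gt.TI.JOP
import Pool.Agent.Lib.MP_0b1f3c_gt.TI.SGN
import Pool.Agent.Lib.MP_0b1f3c_gt.TI.CNE
import Pool.Agent.Lib.MP_0b1f3c_gt.TI.ED1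
import Pool.Agent.Lib.MP_0b1f3c_gt.TI.EFA
import Pool.Agent.Lib.MP_0b1f3c_gt.TI.FFA
import Pool.Agent.Lib.MP_0b1f3c_gt.TI.DZO
import Pool.Agent.Lib.MP_0b1f3c_gt.TI.DON
import Pool.Agent.Lib.MP_0b1f3c_gt.TI.ED2
import Pool.Agent.Lib.MP_0b1f3c_gt.TI.ED3
import Pool.Agent.Lib.MP_0b1f3c_gt.TI.TPX
import Pool.Agent.Lib.MP_0b1f3c_gt.TI.G1
import Pool.Agent.Lib.MP_0b1f3c_gt.TI.G2
import Pool.Agent.Lib.MP_0b1f3c_gt.TI.ZON
import Pool.Agent.Lib.MP_0b1f3c_gt.TI.VAN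
import Pool.Agent.Lib.MP_0b1f3c_gt.TI.SHR
import Pool.Agent.Lib.MP_0b1f3c_gt.TI.EM2
import Pool.Agent.Lib.MP_0b1f3c_gt.TI.PAT
import Pool.Agent.Lib.MP_0b1f3c_gt.TI.NRV
import Pool.Agent.Lib.MP_0b1f3c_gt.TI.DNS
import Pool.Agent.Lib.MP_0b1f3c_gt.TI.TGL
import Pool.Agent.Lib.MP_0b1f3c_gt.TI.TGG
import Pool.Agent.Lib.MP_0b1f3c_gt.TI.ATL
import Pool.Agent.Lib.MP_0b1f3c_gt.TI.G3
import Pool.Agent.Lib.MP_0b1f3c_gt.TI.GM
import Pool.Agent.Lib.MP_0b1f3c_gt.TI.GT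
import Pool.Agent.Lib.MP_0b1f3c_gt.TI.GC
import Pool.Agent.Lib.MP_0b1f3c_gt.TI.EDG
import Pool.Agent.Lib.MP_0b1f3c_gt.TI.FRM
import Pool.Agent.Lib.MP_0b1f3c_gt.TI.NRX
import Pool.Agent.Lib.MP_0b1f3c_gt.TI.MTS
import Pool.Agent.Lib.MP_0b1f3c_gt.TI.HTW
import Pool.Agent.Lib.MP_0b1f3c_gt.TI.ASM

/-!
# Assembly: every module without hypotheses
-/

namespace Pool.Agent.Lib.MP_0b1f3c_gt.TI.All

theorem PSI : SpecPSI := specPSI
theorem CC : SpecCC := specCC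
theorem LFT : SpecLFT := specLFT
theorem SID : SpecSID := specSID
theorem FLT : SpecFLT := specFLT
theorem EUL : SpecEUL := specEUL
theorem KSU : SpecKSU := specKSU
theorem KCU : SpecKCU := specKCU
theorem KPA : SpecKPA := specKPA
theorem GSM : SpecGSM := specGSM
theorem CRT : SpecCRT := specCRT EUL KSU KCU KPA GSM
theorem PSF : SpecPSF := specPSF
theorem LOC : SpecLOC := specLOC PSF
theorem LMX : SpecLMX := specLMX PSF
theorem CPT : SpecCPT := specCPT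
theorem CNN : SpecCNN := specCNN
theorem FAN : SpecFAN := specFAN
theorem STR : SpecSTR := specSTR FAN
theorem JOP : SpecJOP := specJOP STR
theorem SGN : SpecSGN := specSGN
theorem CNE : SpecCNE := specCNE SGN
theorem ED1 : SpecED1 := specED1 SGN
theorem EFA : SpecEFA := specEFA
theorem FFA : SpecFFA := specFFA LOC CNE
theorem DZO : SpecDZO := specDZO LOC CNE
theorem DON : SpecDON := specDON DZO CPT
theorem ED2 : SpecED2 := specED2 LOC ED1 DZO EFA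
theorem ED3 : SpecED3 := specED3 ED2 EFA
theorem TPX : SpecTPX := specTPX DON ED3 EFA
theorem G1 : SpecG1 := specG1 TPX FFA
theorem G2 : SpecG2 := specG2
theorem ZON : SpecZON := specZON TPX EFA ED3 DON
theorem VAN : SpecVAN := specVAN ZON DON ED2 FFA EFA G2
theorem SHR : SpecSHR := specSHR
theorem EM2 : SpecEM2 := specEM2 ZON STR JOP ED1 ED2 EFA FFA SHR
theorem PAT : SpecPAT := specPAT JOP EM2 VAN FFA ZON
theorem NRV : SpecNRV := specNRV TPX FFA STR CPT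
theorem DNS : SpecDNS := specDNS
theorem TGL : SpecTGL := specTGL
theorem TGG : SpecTGG := specTGG PAT LMX NRV G2 STR
theorem ATL : SpecATL := specATL
theorem G3 : SpecG3 := specG3 CPT DZO TPX
theorem GM : SpecGM := specGM PAT ATL
theorem GT : SpecGT := specGT TGG DNS TGL G1 CPT
theorem GC : SpecGC := specGC CNN CPT
theorem EDG : SpecEDG := specEDG G2
theorem FRM : SpecFRM := specFRM SID FLT EDG G2 G3 CC
theorem NRX : SpecNRX := specNRX G2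
theorem MTS : SpecMTS := specMTS G3
theorem HTW : SpecHTW := specHTW LFT FRM NRX
theorem ASM : SpecASM := specASM PSI CC MTS HTW GM GT GC

end Pool.Agent.Lib.MP_0b1f3c_gt.TI.All
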