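import Pool.Agent.Lib.MP_0b1f3c_gt.TI.Defs

/-!
# Closed polygons on polyhedral surfaces: definitions

A closed polygon on `|T|` crosses the edges of `T` at the points `pt i = (1 - r i) e_{a i} +
r i e_{b i}` (`i : ℤ`, periodic with period `L`), and runs straight from `pt i` to `pt (i + 1)` in
the triangle `tri i`. Where it crosses an edge of the polyhedral surface (`re i = some e`), it
crosses it close to the vertex `a i`.
-/

open scoped Manifold ContDiff InnerProductSpace Quaternion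

noncomputable section

namespace Pool.Agent.Lib.MP_0b1f3c_gt.TI

/-- A closed polygon. -/
structure Crv (N : ℕ) where
  L : ℕ
  a : ℤ → Fin N
  b : ℤ → Fin N
  r : ℤ → ℝ
  /-- third vertex of the triangle containing `pt i` and `pt (i + 1)` -/
  t : ℤ → Fin N
  /-- slot of the edge, if it is an edge of the polyhedral surface -/
  re : ℤ → Option (Fin 3)

namespace Crv

variable {N : ℕ} (C : Crv N)

/-- the triangle containing `pt i` and `pt (i + 1)` -/
def tri (i : ℤ) : Finset (Fin N) := {C.a i, C.b i, C.t i}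

/-- the crossing points -/
def pt (i : ℤ) : Fin N → ℝ := (1 - C.r i) • Pi.single (C.a i) 1 + C.r i • Pi.single (C.b i) 1

/-- the polygon, as a curve in `ℝ^N` of period one -/
def c0 (s : ℝ) : Fin N → ℝ :=
  (1 - Int.fract (C.L * s)) • C.pt ⌊C.L * s⌋ + Int.fract (C.L * s) • C.pt (⌊C.L * s⌋ + 1)

/-- 3 × 3 determinant of the barycentric coordinates at `a, b, c` -/
def det3 (a b c : Fin N) (x y z : Fin N → ℝ) : ℝ :=
  x a * (y b * z c - y c * z b) - x b * (y a * z c - y c * z a) + x c * (y a * z b - y b * z a)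

/-- the segments `xy` and `zw` in the triangle `abc` cross -/
def Cross (a b c : Fin N) (x y z w : Fin N → ℝ) : Prop :=
  det3 a b c x y z * det3 a b c x y w < 0 ∧ det3 a b c z w x * det3 a b c z w y < 0

/-- the segments `xy` and `zw` in the triangle `abc` are separated by the line through one of
them -/
def Sep (a b c : Fin N) (x y z w : Fin N → ℝ) : Prop :=
  0 < det3 a b c x y z * det3 a b c x y w ∨ 0 < det3 a b c z w x * det3 a b c z w y

/-- The conditions on a closed polygon on `|S.T|`. -/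
structure IsCrv (S : PolyData N) : Prop where
  hL : 0 < C.L
  hpa : ∀ i, C.a (i + C.L) = C.a i
  hpb : ∀ i, C.b (i + C.L) = C.b i
  hpr : ∀ i, C.r (i + C.L) = C.r i
  hpt : ∀ i, C.t (i + C.L) = C.t i
  hpe : ∀ i, C.re (i + C.L) = C.re i
  h01 : ∀ i, 0 < C.r i ∧ C.r i < 1
  hab : ∀ i, C.a i ≠ C.b i
  htri : ∀ i, C.tri i ∈ S.T
  /-- the next edge is another edge of the same triangle -/
  hnext : ∀ i, C.a (i + 1) ∈ C.tri i ∧ C.b (i + 1) ∈ C.tri i
  hedge : ∀ i, ({C.a i, C.b i} : Finset (Fin N)) ≠ {C.a (i + 1), C.b (i + 1)}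
  /-- the polygon crosses the edges -/
  hcross : ∀ i, C.tri i ≠ C.tri (i + 1)
  hreal : ∀ i e, C.re i = some e → C.b i = S.r (C.a i) e ∧ C.r i < 1 / 8
  hflat : ∀ i, C.re i = none → ∀ e, C.b i ≠ S.r (C.a i) e
  /-- two segments in the same triangle are separated -/
  hsep : ∀ i j, (¬ ∃ m : ℤ, j = i + m * C.L) → C.tri i = C.tri j →
    Sep (C.a i) (C.b i) (C.t i) (C.pt i) (C.pt (i + 1)) (C.pt j) (C.pt (j + 1))

/-- direction of the segment `i` in space -/
def D (S : PolyData N) (i : ℤ) : E3 := S.g (C.pt (i + 1)) - S.g (C.pt i)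

end Crv

/-- The data of the moving frame of a closed polygon: `n i` is a normal vector along the segment
`i`, `w i` is a quaternion whose frame is close to all frames of the curve near the crossing `i`. -/
structure Frm where
  n : ℤ → E3
  w : ℤ → ℍ[ℝ]

namespace Frm

/-- `(x * i * y*)`, vector part -/
def vI (x y : ℍ[ℝ]) : E3 := vec (x * qI * star y)
/-- `(x * k * y*)`, vector part -/
def vK (x y : ℍ[ℝ]) : E3 := vec (x * qK * star y)

/-- The conditions on the moving frame; `q` is the number of half-twists mod 4. -/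
structure IsFrm {N : ℕ} (S : PolyData N) (C : Crv N) (G : Frm) (q : ZMod 4) : Prop where
  /-- `n i` is normal to the triangle `i` -/
  hn : ∀ i, inner ℝ (G.n i) (S.P (C.b i) - S.P (C.a i)) = 0 ∧
    inner ℝ (G.n i) (S.P (C.t i) - S.P (C.a i)) = 0
  /-- at a flat edge the normal does not change -/
  hflat : ∀ i, C.re i = none → G.n (i - 1) = G.n i
  /-- at an edge of the surface the normals are the gradients of the two forms (up to a common
  sign) and the polygon passes from one face to the other -/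
  hreal : ∀ i e, C.re i = some e → ∃ σ : ℝ, (σ = 1 ∨ σ = -1) ∧
    ((∀ p, inner ℝ (G.n (i - 1)) p = σ * S.A (C.a i) e p ∧
        inner ℝ (G.n i) p = σ * S.B (C.a i) e p) ∨
     (∀ p, inner ℝ (G.n (i - 1)) p = σ * S.B (C.a i) e p ∧
        inner ℝ (G.n i) p = σ * S.A (C.a i) e p))
  /-- the frames before and after the crossing `i` are close to the frame of `w i` -/
  hD : ∀ i, 0 < inner ℝ (C.D S (i - 1)) (vI (G.w i) (G.w i)) ∧
    0 < inner ℝ (C.D S i) (vI (G.w i) (G.w i))
  hN : ∀ i, 0 < inner ℝ (G.n (i - 1)) (vK (G.w i) (G.w i)) ∧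
    0 < inner ℝ (G.n i) (vK (G.w i) (G.w i))
  /-- passing from `w i` to `w (i + 1)` on the segment `i` -/
  hD' : ∀ i, 0 < inner ℝ (C.D S i) (vI (G.w i) (G.w (i + 1)))
  hN' : ∀ i, 0 < inner ℝ (G.n i) (vK (G.w i) (G.w (i + 1)))
  /-- the holonomy -/
  hhol : ∀ i, G.w (i + C.L) = G.w i * omega q
  hnhol : ∀ i, G.n (i + C.L) = (if q = 0 ∨ q = 2 then (1 : ℝ) else -1) • G.n i

end Frm

namespace PolyData

variable {N : ℕ} (S : PolyData N)

/-- the edges of the polyhedral surface -/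
def RE : Set (Realization S.T) := {x | ∃ (v : Fin N) (e : Fin 3), ∀ i, x.1 i ≠ 0 → i = v ∨ i = S.r v e}

/-- `n` is a normal vector of the smoothed surface at `x`: either `x` lies in the chart of a
vertex `v` and `n` is a multiple of the gradient of the local function, or the surface is flat
near `x`. -/
def Nrm (ψ : ℝ → ℝ) (δ : ℝ) (x : Realization S.T) (n : E3) : Prop :=
  (∃ v, (∀ w, w ≠ v → x.1 w < 1 / 8) ∧
    ∃ μ : ℝ, ∀ p, inner ℝ n p = μ * fderiv ℝ (S.F ψ δ v) (S.f ψ δ x) p) ∨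
  (∀ᶠ y in nhds x, S.f ψ δ y = S.g y.1 ∧ inner ℝ n (S.g y.1 - S.g x.1) = 0)

end PolyData

/-! ## The interface with the generic smoothing theorem (proved in the part G) -/

/-- the formula in the chart of a vertex -/
def SpecG2 : Prop := ∀ (N : ℕ) (S : PolyData N), S.IsSurf → ∀ (ψ : ℝ → ℝ) (δ : ℝ) (v : Fin N)
  (x : Realization S.T), (∀ w, w ≠ v → x.1 w < 1 / 8) →
  S.f ψ δ x = S.g x.1 - S.F ψ δ v (S.g x.1) • S.d v

/-- away from the edges the surface is not changed if `δ` is small -/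
def SpecG3 : Prop := ∀ (N : ℕ) (S : PolyData N), S.IsSurf → ∀ ψ, IsPsi ψ →
  ∀ K : Set (Realization S.T), IsCompact K → Disjoint K S.RE →
  ∀ᶠ δ in nhdsWithin (0 : ℝ) (Set.Ioi 0), ∀ x ∈ K, ∀ᶠ y in nhds x, S.f ψ δ y = S.g y.1

/-- the smoothed surface is continuous -/
def SpecG1 : Prop := ∀ (N : ℕ) (S : PolyData N), S.IsSurf → ∀ ψ, IsPsi ψ →
  ∀ᶠ δ in nhdsWithin (0 : ℝ) (Set.Ioi 0), Continuous (S.f ψ δ)

/-- the smooth structure -/
def SpecGM : Prop := ∀ (N : ℕ) (S : PolyData N), S.IsSurf → ∀ ψ, IsPsi ψ →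
  ∀ᶠ δ in nhdsWithin (0 : ℝ) (Set.Ioi 0), ∃ (_ : ChartedSpace E2 (Realization S.T)),
    IsManifold (𝓡 2) ∞ (Realization S.T) ∧ ContMDiff (𝓡 2) 𝓘(ℝ, E3) ∞ (S.f ψ δ) ∧
    (∀ p, Function.Injective (mfderiv (𝓡 2) 𝓘(ℝ, E3) (S.f ψ δ) p))

/-- tightness -/
def SpecGT : Prop := ∀ (N : ℕ) (S : PolyData N), S.IsSurf → ∀ ψ, IsPsi ψ →
  ∀ᶠ δ in nhdsWithin (0 : ℝ) (Set.Ioi 0), Tight (S.f ψ δ)

/-- the space is compact and connected -/
def SpecGC : Prop := ∀ (N : ℕ) (S : PolyData N), S.IsSurf →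
  IsConnected (Realization S.T) ∧ IsCompact (Realization S.T)

end Pool.Agent.Lib.MP_0b1f3c_gt.TI
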