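import Pool.Agent.Lib.MP_0b1f3c_gt.TI.Cert

/-!
# CRT: soundness of the checker
-/

open scoped Manifold ContDiff InnerProductSpace Quaternion

noncomputable section

namespace Pool.Agent.Lib.MP_0b1f3c_gt.TI

namespace CRTM

/-- `Model` with the number of closed polygons as a variable -/
def ModelN (m : ℕ) (χ : ℤ) (ori : Prop) (β : ℤ) : Prop :=
  ∃ (N : ℕ) (S : PolyData N), S.IsSurf ∧ eulerChar S.T = χ ∧
  ∃ (C : Fin m → Crv N) (G : Fin m → Frm)
    (q : Fin m → ZMod 4) (A : Matrix (Fin m) (Fin m) ℕ),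
    (∀ i, (C i).IsCrv S) ∧ (∀ i, Frm.IsFrm S (C i) (G i) (q i)) ∧
    (∀ i j, i ≠ j → (∀ k l, (C i).pt k ≠ (C j).pt l) ∧
      (∀ k l, (C i).tri k = (C j).tri l →
        Crv.Cross ((C i).a k) ((C i).b k) ((C i).t k) ((C i).pt k) ((C i).pt (k + 1))
          ((C j).pt l) ((C j).pt (l + 1)) ∨
        Crv.Sep ((C i).a k) ((C i).b k) ((C i).t k) ((C i).pt k) ((C i).pt (k + 1))
          ((C j).pt l) ((C j).pt (l + 1))) ∧
      {p : ℤ × ℤ | 0 ≤ p.1 ∧ p.1 < (C i).L ∧ 0 ≤ p.2 ∧ p.2 < (C j).L ∧
        (C i).tri p.1 = (C j).tri p.2 ∧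
        Crv.Cross ((C i).a p.1) ((C i).b p.1) ((C i).t p.1) ((C i).pt p.1) ((C i).pt (p.1 + 1))
          ((C j).pt p.2) ((C j).pt (p.2 + 1))}.encard = A i j) ∧
    (∀ i, (A i i = 0 ∧ (q i = 0 ∨ q i = 2)) ∨ (A i i = 1 ∧ (q i = 1 ∨ q i = 3))) ∧
    (A.map (Nat.cast : ℕ → ZMod 2)).det ≠ 0 ∧ (ori ↔ ∀ i, q i = 0 ∨ q i = 2) ∧
    ∑ x : Fin m → Fin 2, Complex.I ^ (∑ i, (x i : ℕ) * (q i).val +
        2 * ∑ i, ∑ j ∈ Finset.univ.filter (fun j => i < j), (x i : ℕ) * (x j : ℕ) * A i j) =
      (Real.sqrt 2 : ℂ) ^ m * Complex.exp (2 * Real.pi * Complex.I * (β : ℂ) / 8)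

theorem model_of {m : ℕ} {χ : ℤ} {ori : Prop} {β : ℤ} (hm : (2 - χ).toNat = m)
    (h : ModelN m χ ori β) : Model χ ori β := by
  subst hm
  exact h

theorem sum_getD (l : List VC) (f : VC → ℕ) {N : ℕ} (hN : l.length = N) :
    (l.map f).sum = ∑ i : Fin N, f (l.getD i default) := by
  subst hN
  rw [← List.sum_ofFn]
  congr 1
  apply List.ext_getElem
  · simp
  · intro i h1 h2
    simp

theorem map_eq_ofFn (l : List KC) {n : ℕ} (hn : l.length = n) :
    (l.map fun k => k.q) = List.ofFn (fun i : Fin n => (l.getD i default).q) := by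
  subst hn
  apply List.ext_getElem
  · simp
  · intro i h1 h2
    simp

theorem sum_range_list (n : ℕ) (f : ℕ → ℕ) :
    ((List.range n).map f).sum = ∑ i : Fin n, f i := by
  rw [← List.sum_ofFn]
  congr 1
  apply List.ext_getElem
  · simp
  · intro i h1 h2
    simp

theorem det_ne (c : Cert) {n : ℕ} (hlen : c.ks.length = n) (hinv : Chk.inv c = true) :
    Matrix.det (Matrix.map (Matrix.of fun i j : Fin n => Chk.me c.A i j)
      (Nat.cast : ℕ → ZMod 2)) ≠ 0 := by
  have hmul : (Matrix.map (Matrix.of fun i j : Fin n => Chk.me c.A i j) (Nat.cast : ℕ → ZMod 2)) *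
      (Matrix.map (Matrix.of fun i j : Fin n => Chk.me c.Ai i j) (Nat.cast : ℕ → ZMod 2)) = 1 := by
    ext i j
    simp only [Chk.inv, List.all_eq_true, List.mem_range, hlen] at hinv
    have h := hinv i i.2 j j.2
    rw [beq_iff_eq, sum_range_list] at h
    rw [Matrix.mul_apply]
    simp only [Matrix.map_apply, Matrix.of_apply]
    have h2 : ((∑ l : Fin n, Chk.me c.A i l * Chk.me c.Ai l j : ℕ) : ZMod 2) =
        ((if ((i : ℕ) == (j : ℕ)) = true then 1 else 0 : ℕ) : ZMod 2) := by
      rw [← h, ZMod.natCast_mod]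
    push_cast at h2
    rw [h2, Matrix.one_apply]
    by_cases hij : i = j
    · subst hij; simp
    · rw [if_neg hij, if_neg (by simpa [Fin.ext_iff] using hij)]
  intro h0
  have h1 := congrArg Matrix.det hmul
  rw [Matrix.det_mul, Matrix.det_one, h0, zero_mul] at h1
  exact zero_ne_one h1

end CRTM

open CRTM in
theorem specCRT (hEUL : SpecEUL) (hKSU : SpecKSU) (hKCU : SpecKCU) (hKPA : SpecKPA)
    (hGSM : SpecGSM) : SpecCRT := by
  intro c n ori β hchk
  simp only [Chk.check, Bool.and_eq_true] at hchk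
  obtain ⟨⟨⟨⟨⟨⟨⟨⟨⟨⟨hsurf, heul⟩, hlen⟩, hcur⟩, hpairs⟩, hinv⟩, hrows⟩, hori⟩, hpar⟩, hβ⟩, hg⟩ := hchk
  rw [beq_iff_eq] at heul hlen hg hpar hori
  have hβ' : β < 8 := by simpa using hβ
  have hS := hKSU c hsurf
  have hlen0 : 0 < c.vs.length := by
    simp only [Chk.surf, Bool.and_eq_true, decide_eq_true_eq] at hsurf
    exact hsurf.1.1
  have hm : c.vs.length = c.m + 1 := by
    unfold Cert.m; omega
  -- Euler characteristic
  have hE := hEUL _ c.poly hS
  have hχ : eulerChar c.poly.T = 2 - (n : ℤ) := by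
    obtain ⟨s, hs⟩ : ∃ s : ℕ, s = (c.vs.map fun v => v.nb.length).sum := ⟨_, rfl⟩
    have hsumk : (s : ℤ) = ∑ v : Fin (c.m + 1), (c.poly.k v : ℤ) := by
      rw [hs, sum_getD c.vs (fun v => v.nb.length) hm]
      push_cast
      rfl
    rw [← hs, hm] at heul
    have h1 : (s : ℤ) + 12 = 6 * (((c.m + 1 : ℕ) : ℤ) + n) := by
      exact_mod_cast heul
    rw [← hsumk] at hE
    push_cast at h1 hE
    omega
  -- the curves
  have hk : ∀ i : Fin n, c.ks.getD i default ∈ c.ks := by
    intro i
    have hi : (i : ℕ) < c.ks.length := by rw [hlen]; exact i.2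
    rw [List.getD_eq_getElem _ _ hi]
    exact List.getElem_mem _
  have hcurve : ∀ i : Fin n, Chk.curve c.vs (c.ks.getD i default) = true := by
    intro i
    exact List.all_eq_true.1 hcur _ (hk i)
  have hq4 : ∀ i : Fin n, (c.ks.getD i default).q < 4 := by
    intro i
    have h := hcurve i
    simp only [Chk.curve, Bool.and_eq_true, decide_eq_true_eq] at h
    exact h.1.1.2
  have hval : ∀ i : Fin n, (((c.ks.getD i default).q : ZMod 4)).val = (c.ks.getD i default).q := by
    intro i
    exact ZMod.val_cast_of_lt (hq4 i)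
  have hq02 : ∀ i : Fin n, (((c.ks.getD i default).q : ZMod 4) = 0 ∨
      ((c.ks.getD i default).q : ZMod 4) = 2) ↔ (c.ks.getD i default).q % 2 = 0 := by
    intro i
    have h := hq4 i
    generalize (c.ks.getD i default).q = x at h
    interval_cases x <;> decide
  have hq13 : ∀ i : Fin n, (((c.ks.getD i default).q : ZMod 4) = 1 ∨
      ((c.ks.getD i default).q : ZMod 4) = 3) ↔ (c.ks.getD i default).q % 2 = 1 := by
    intro i
    have h := hq4 i
    generalize (c.ks.getD i default).q = x at h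
    interval_cases x <;> decide
  -- pairs
  have hP : ∀ i j : Fin n, (if ((i : ℕ) == (j : ℕ)) = true then
      Chk.me c.A i i == (c.ks.getD i default).q % 2
      else Chk.pair (c.ks.getD i default) (c.ks.getD j default) &&
        Chk.ncr (c.ks.getD i default) (c.ks.getD j default) == Chk.me c.A i j) = true := by
    intro i j
    simp only [Chk.pairs, List.all_eq_true, List.mem_range, hlen] at hpairs
    exact hpairs i i.2 j j.2
  have hdiag : ∀ i : Fin n, Chk.me c.A i i = (c.ks.getD i default).q % 2 := by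
    intro i
    have h := hP i i
    rw [if_pos (by simp)] at h
    simpa using h
  have hoff : ∀ i j : Fin n, i ≠ j → Chk.pair (c.ks.getD i default) (c.ks.getD j default) = true ∧
      Chk.ncr (c.ks.getD i default) (c.ks.getD j default) = Chk.me c.A i j := by
    intro i j hij
    have h := hP i j
    rw [if_neg (by simpa [Fin.ext_iff] using hij)] at h
    simpa using h
  apply model_of (m := n) (by omega)
  refine ⟨c.m + 1, c.poly, hS, hχ, fun i => c.crv (c.ks.getD i default),
    fun i => Cert.frm (c.ks.getD i default), fun i => ((c.ks.getD i default).q : ZMod 4),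
    fun i j => Chk.me c.A i j, fun i => (hKCU c hsurf _ (hcurve i)).1,
    fun i => (hKCU c hsurf _ (hcurve i)).2, ?_, ?_, ?_, ?_, ?_⟩
  · intro i j hij
    obtain ⟨h1, h2, h3⟩ := hKPA c hsurf _ _ (hcurve i) (hcurve j) (hoff i j hij).1
    refine ⟨h1, h2, ?_⟩
    rw [h3, (hoff i j hij).2]
  · intro i
    rcases Nat.mod_two_eq_zero_or_one (c.ks.getD i default).q with h | h
    · left
      exact ⟨(hdiag i).trans h, (hq02 i).2 h⟩
    · right
      exact ⟨(hdiag i).trans h, (hq13 i).2 h⟩
  · -- determinant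
    exact det_ne c hlen hinv
  · -- orientability
    have h1 : (c.ks.all fun k => k.q % 2 == 0) = true ↔
        ∀ i : Fin n, (c.ks.getD i default).q % 2 = 0 := by
      rw [List.all_eq_true]
      constructor
      · intro h i
        have := h _ (hk i)
        simpa using this
      · intro h k hk
        obtain ⟨i, hi, rfl⟩ := List.mem_iff_getElem.1 hk
        have := h ⟨i, by rw [← hlen]; exact hi⟩
        simp only [List.getD_eq_getElem _ _ hi] at this
        simpa using this
    rw [← hori, h1]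
    exact forall_congr' fun i => (hq02 i).symm
  · -- the Gauss sum
    have hrows' : ∀ i < n, (c.A.getD i []).length = n := by
      intro i hi
      simp only [List.all_eq_true, List.mem_range] at hrows
      simpa using hrows i hi
    have h := hGSM n β (fun i => (c.ks.getD i default).q) c.A hβ' hpar hrows' (by
      rw [← hg, Chk.gsum, hlen, map_eq_ofFn _ hlen])
    simp only [hval]
    exact h

end Pool.Agent.Lib.MP_0b1f3c_gt.TI
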