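import Pool.Agent.Lib.MP_0b1f3c_gt.TI.SpecC

/-!
# Integer certificates for combinatorial models and their Boolean checker
-/

open scoped Manifold ContDiff InnerProductSpace Quaternion

namespace Pool.Agent.Lib.MP_0b1f3c_gt.TI

/-- integer vectors -/
abbrev V3 := ℤ × ℤ × ℤ

/-- Record of a vertex: homogeneous coordinates `(x, y, z, w)`, `w > 0`; saddle or convex; the three
linear forms; link; positions; opposite slots. -/
structure VC where
  x : ℤ
  y : ℤ
  z : ℤ
  w : ℤ
  s : Bool
  X : V3
  Y : V3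
  Z : V3
  nb : List ℕ
  k1 : ℕ
  k2 : ℕ
  k3 : ℕ
  o0 : ℕ
  o1 : ℕ
  o2 : ℕ
deriving Inhabited

/-- Record of a crossing of a closed polygon: the point `(1 - num/den) e_a + (num/den) e_b`, `t` the
third vertex of the next triangle, `re = 0, 1, 2` the slot at `a` of a surface edge or `3` for a flat
edge, `n` the normal vector of the next triangle, `(w0, w1, w2, w3)` the quaternion. -/
structure CC where
  a : ℕ
  b : ℕ
  t : ℕ
  num : ℕ
  den : ℕ
  re : ℕ
  n : V3
  w0 : ℤ
  w1 : ℤ
  w2 : ℤ
  w3 : ℤ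
deriving Inhabited

/-- Record of a closed polygon with `q` half-twists. -/
structure KC where
  cs : List CC
  q : ℕ
deriving Inhabited

/-- A certificate: vertices, closed polygons, the intersection matrix (rows) and its inverse
mod 2. -/
structure Cert where
  vs : List VC
  ks : List KC
  A : List (List ℕ)
  Ai : List (List ℕ)

/-! ## The objects described by a certificate -/

noncomputable section

/-- quaternion with given components -/
def quat (a b c d : ℝ) : ℍ[ℝ] := ⟨a, b, c, d⟩

/-- real vector -/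
def rv (v : V3) : E3 := !₂[(v.1 : ℝ), (v.2.1 : ℝ), (v.2.2 : ℝ)]

namespace Cert

variable (c : Cert)

/-- number of vertices minus one -/
def m : ℕ := c.vs.length - 1

/-- vertex record -/
def v (i : ℕ) : VC := c.vs.getD i default

/-- a vertex -/
def fn (i : ℕ) : Fin (c.m + 1) := Fin.ofNat (c.m + 1) i

/-- the polyhedral surface -/
def poly : PolyData (c.m + 1) :=
  let nb : Fin (c.m + 1) → ℕ → Fin (c.m + 1) := fun v i =>
    c.fn ((c.v v).nb.getD (i % (c.v v).nb.length) 0)
  { T := Finset.univ.biUnion fun v : Fin (c.m + 1) =>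
      (Finset.range (c.v v).nb.length).image fun i => {v, nb v i, nb v (i + 1)}
    P := fun v => !₂[((c.v v).x : ℝ) / (c.v v).w, ((c.v v).y : ℝ) / (c.v v).w,
      ((c.v v).z : ℝ) / (c.v v).w]
    κ := fun v => if (c.v v).s then 1 else -1
    X := fun v => innerSL ℝ (rv (c.v v).X)
    Y := fun v => innerSL ℝ (rv (c.v v).Y)
    Z := fun v => innerSL ℝ (rv (c.v v).Z)
    d := fun v => Classical.epsilon fun d : E3 => inner ℝ (rv (c.v v).X) d = (1 : ℝ) ∧
      inner ℝ (rv (c.v v).Y) d = (1 : ℝ) ∧ inner ℝ (rv (c.v v).Z) d = (1 : ℝ)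
    k := fun v => (c.v v).nb.length
    k1 := fun v => (c.v v).k1
    k2 := fun v => (c.v v).k2
    k3 := fun v => (c.v v).k3
    nb := nb
    op := fun v e => Fin.ofNat 3
      (if e = 0 then (c.v v).o0 else if e = 1 then (c.v v).o1 else (c.v v).o2) }

/-- the crossing record number `i` (mod the length) of a closed polygon -/
def cc (k : KC) (i : ℤ) : CC := k.cs.getD (i % k.cs.length).toNat default

/-- the closed polygon -/
def crv (k : KC) : Crv (c.m + 1) where
  L := k.cs.length
  a := fun i => c.fn (cc k i).a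
  b := fun i => c.fn (cc k i).b
  r := fun i => ((cc k i).num : ℝ) / (cc k i).den
  t := fun i => c.fn (cc k i).t
  re := fun i => if (cc k i).re = 0 then some 0 else if (cc k i).re = 1 then some 1 else
    if (cc k i).re = 2 then some 2 else none

/-- the frame -/
def frm (k : KC) : Frm where
  n := fun i => ((if k.q = 0 ∨ k.q = 2 then (1 : ℝ) else -1) ^ (i / (k.cs.length : ℤ))) •
    rv (cc k i).n
  w := fun i => quat (cc k i).w0 (cc k i).w1 (cc k i).w2 (cc k i).w3 *
    omega (k.q : ZMod 4) ^ (i / (k.cs.length : ℤ))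

end Cert

end

/-! ## The checker -/

namespace Chk

/-- dot product -/
def dot (a b : V3) : ℤ := a.1 * b.1 + a.2.1 * b.2.1 + a.2.2 * b.2.2

/-- `form (P u - P v)` times `w_u w_v` -/
def ev (f : V3) (v u : VC) : ℤ :=
  dot f (u.x, u.y, u.z) * v.w - dot f (v.x, v.y, v.z) * u.w

/-- determinant -/
def det (a b c : V3) : ℤ :=
  a.1 * (b.2.1 * c.2.2 - b.2.2 * c.2.1) - a.2.1 * (b.1 * c.2.2 - b.2.2 * c.1) +
    a.2.2 * (b.1 * c.2.1 - b.2.1 * c.1)

/-- the plane coordinates of the neighbour `u` of `v`, times `w_u w_v` -/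
def q2 (v u : VC) : ℤ × ℤ := (ev v.X v u - ev v.Z v u, ev v.Y v u - ev v.Z v u)

/-- sign of a vertex -/
def kap (v : VC) : ℤ := if v.s then 1 else -1

/-- cross product times `κ` -/
def kcr (v : VC) (p q : ℤ × ℤ) : ℤ := kap v * (p.1 * q.2 - p.2 * q.1)

/-- neighbour number `i` (cyclic) -/
def nbi (v : VC) (i : ℕ) : ℕ := v.nb.getD (i % v.nb.length) 0

/-- slot position -/
def slot (v : VC) (e : ℕ) : ℕ := if e = 0 then 0 else if e = 1 then v.k1 else v.k2

/-- opposite slot -/
def opp (v : VC) (e : ℕ) : ℕ := if e = 0 then v.o0 else if e = 1 then v.o1 else v.o2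

/-- scaled vector -/
def sc (k : ℤ) (a : V3) : V3 := (k * a.1, k * a.2.1, k * a.2.2)

/-- first form of a slot -/
def fA (v : VC) (e : ℕ) : V3 := if e = 0 then sc (-kap v) v.X else if e = 1 then v.X else v.Y

/-- second form of a slot -/
def fB (v : VC) (e : ℕ) : V3 := if e = 0 then sc (-kap v) v.Y else v.Z

/-- the triangle `v u w` appears in the star of `v` -/
def inStar (v : VC) (u w : ℕ) : Bool :=
  (List.range v.nb.length).any fun i =>
    (nbi v i == u && nbi v (i + 1) == w) || (nbi v i == w && nbi v (i + 1) == u)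

/-- all conditions at the vertex number `i` -/
def vert (vs : List VC) (i : ℕ) : Bool :=
  let v := vs.getD i default
  let k := v.nb.length
  let g := fun j => vs.getD (nbi v j) default
  let r := List.range k
  decide (0 < v.w) && det v.X v.Y v.Z != 0 &&
  (v.nb.all fun u => decide (u < vs.length) && u != i) && decide v.nb.Nodup &&
  decide (0 < v.k1) && decide (v.k1 < v.k2) && decide (v.k2 < k) && decide (0 < v.k3) &&
  decide (v.k3 ≤ k) &&
  (r.all fun j => !decide (j ≤ v.k1) || ev v.X v (g j) == 0) &&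
  (r.all fun j => !(decide (v.k1 ≤ j) && decide (j ≤ v.k2)) || ev v.Z v (g j) == 0) &&
  ((k :: r).all fun j => !decide (v.k2 ≤ j) || ev v.Y v (g j) == 0) &&
  decide (ev v.Z v (g 0) < 0) && decide (0 < kap v * ev v.Y v (g v.k1)) &&
  decide (0 < kap v * ev v.X v (g v.k2)) &&
  (r.all fun j => decide (0 < kcr v (q2 v (g j)) (q2 v (g (j + 1))))) &&
  (r.all fun j => (j == 0) || !decide (j < v.k3) ||
    decide (0 ≤ kcr v (q2 v (g 0)) (q2 v (g j)))) &&
  (r.all fun j => decide (j < v.k3) || decide (kcr v (q2 v (g 0)) (q2 v (g j)) < 0)) &&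
  (r.all fun j => inStar (g j) i (nbi v (j + 1)) && inStar (g (j + 1)) i (nbi v j)) &&
  ((List.range 3).all fun e =>
    let w := g (slot v e)
    let e' := opp v e
    decide (e' < 3) && nbi w (slot w e') == i &&
    ((fA v e == fA w e' && fB v e == fB w e') || (fA v e == fB w e' && fB v e == fA w e'))) &&
  (v.s || vs.all fun u => decide (ev v.X v u ≤ 0) && decide (ev v.Y v u ≤ 0) &&
    decide (ev v.Z v u ≤ 0)) &&
  -- connectedness: every vertex except the first has a neighbour with smaller number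
  (i == 0 || v.nb.any fun u => decide (u < i))

/-- the vertices are different points -/
def distinct : List VC → Bool
  | [] => true
  | v :: l => (l.all fun u => v.x * u.w != u.x * v.w || v.y * u.w != u.y * v.w ||
      v.z * u.w != u.z * v.w) && distinct l

/-- the polyhedral surface -/
def surf (vs : List VC) : Bool :=
  decide (0 < vs.length) && distinct vs && (List.range vs.length).all (vert vs)

/-- quaternion record -/
abbrev Q4 := ℤ × ℤ × ℤ × ℤ

/-- product -/
def qm (a b : Q4) : Q4 :=
  (a.1 * b.1 - a.2.1 * b.2.1 - a.2.2.1 * b.2.2.1 - a.2.2.2 * b.2.2.2,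
   a.1 * b.2.1 + a.2.1 * b.1 + a.2.2.1 * b.2.2.2 - a.2.2.2 * b.2.2.1,
   a.1 * b.2.2.1 - a.2.1 * b.2.2.2 + a.2.2.1 * b.1 + a.2.2.2 * b.2.1,
   a.1 * b.2.2.2 + a.2.1 * b.2.2.1 - a.2.2.1 * b.2.1 + a.2.2.2 * b.1)

/-- conjugate -/
def qc (a : Q4) : Q4 := (a.1, -a.2.1, -a.2.2.1, -a.2.2.2)

/-- vector part of `a i b*` -/
def vI (a b : Q4) : V3 := (qm (qm a (0, 1, 0, 0)) (qc b)).2

/-- vector part of `a k b*` -/
def vK (a b : Q4) : V3 := (qm (qm a (0, 0, 0, 1)) (qc b)).2

/-- `omega` -/
def om (q : ℕ) : Q4 :=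
  if q = 0 then (-1, 0, 0, 0) else if q = 1 then (0, -1, 0, 0) else if q = 2 then (1, 0, 0, 0)
  else (0, 1, 0, 0)

/-- quaternion of a crossing -/
def cq (c : CC) : Q4 := (c.w0, c.w1, c.w2, c.w3)

/-- `⟨n, g (pt c)⟩` times `den * w_a * w_b` -/
def sv (vs : List VC) (c : CC) (n : V3) : ℤ :=
  let a := vs.getD c.a default
  let b := vs.getD c.b default
  ((c.den : ℤ) - c.num) * dot n (a.x, a.y, a.z) * b.w + c.num * dot n (b.x, b.y, b.z) * a.w

/-- `den * w_a * w_b` -/
def sd (vs : List VC) (c : CC) : ℤ :=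
  c.den * (vs.getD c.a default).w * (vs.getD c.b default).w

/-- `0 < ⟨g (pt c') - g (pt c), n⟩` -/
def dpos (vs : List VC) (c c' : CC) (n : V3) : Bool :=
  decide (sv vs c n * sd vs c' < sv vs c' n * sd vs c)

/-- membership in the triangle of a record -/
def mem3 (u : ℕ) (c : CC) : Bool := u == c.a || u == c.b || u == c.t

/-- the triangles of two records agree (for records with three different vertices) -/
def tri (c c' : CC) : Bool := mem3 c.a c' && mem3 c.b c' && mem3 c.t c'

/-- the edges of two records agree -/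
def edge (c c' : CC) : Bool :=
  (c.a == c'.a && c.b == c'.b) || (c.a == c'.b && c.b == c'.a)

/-- negated vector -/
def neg (a : V3) : V3 := (-a.1, -a.2.1, -a.2.2)

/-- conditions at the crossing `c` with predecessor `p` and successor `s`; `np` is the normal of the
previous segment, `ws` the quaternion of the successor -/
def cross (vs : List VC) (p c s : CC) (np : V3) (ws : Q4) : Bool :=
  let a := vs.getD c.a default
  let b := vs.getD c.b default
  let t := vs.getD c.t default
  let w := cq c
  decide (c.a < vs.length) && decide (c.b < vs.length) && decide (c.t < vs.length) &&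
  c.a != c.b && c.a != c.t && c.b != c.t &&
  decide (0 < c.num) && decide (c.num < c.den) &&
  inStar a c.b c.t && mem3 s.a c && mem3 s.b c && !edge c s && !tri c s &&
  (if c.re < 3 then nbi a (slot a c.re) == c.b && decide (8 * c.num < c.den)
    else c.re == 3 && (List.range 3).all fun e => nbi a (slot a e) != c.b) &&
  ev c.n a b == 0 && ev c.n a t == 0 &&
  (if c.re < 3 then
      (np == fA a c.re && c.n == fB a c.re) || (np == neg (fA a c.re) && c.n == neg (fB a c.re)) ||
      (np == fB a c.re && c.n == fA a c.re) || (np == neg (fB a c.re) && c.n == neg (fA a c.re))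
    else np == c.n) &&
  dpos vs p c (vI w w) && dpos vs c s (vI w w) &&
  decide (0 < dot np (vK w w)) && decide (0 < dot c.n (vK w w)) &&
  dpos vs c s (vI w ws) && decide (0 < dot c.n (vK w ws))

/-- a closed polygon -/
def curve (vs : List VC) (k : KC) : Bool :=
  let L := k.cs.length
  let g := fun j => k.cs.getD (j % L) default
  decide (0 < L) && decide (k.q < 4) &&
  ((List.range L).all fun j =>
    let p := g (j + L - 1)
    let s := g (j + 1)
    cross vs p (g j) s
      (if j == 0 && (k.q == 1 || k.q == 3) then neg p.n else p.n)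
      (if j + 1 == L then qm (cq s) (om k.q) else cq s)) &&
  ((List.range L).all fun i => (List.range L).all fun j => i == j || !tri (g i) (g j))

/-- barycentric coordinate, times `den` -/
def co (c : CC) (u : ℕ) : ℤ :=
  (if u = c.a then (c.den : ℤ) - c.num else 0) + (if u = c.b then (c.num : ℤ) else 0)

/-- `det3` of three crossing points in the triangle `a b t` -/
def d3 (a b t : ℕ) (x y z : CC) : ℤ :=
  det (co x a, co x b, co x t) (co y a, co y b, co y t) (co z a, co z b, co z t)

/-- the segments from `c` to `c'` and from `d` to `d'` (in the triangle of `c`) cross -/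
def crs (c c' d d' : CC) : Bool :=
  decide (d3 c.a c.b c.t c c' d * d3 c.a c.b c.t c c' d' < 0) &&
  decide (d3 c.a c.b c.t d d' c * d3 c.a c.b c.t d d' c' < 0)

/-- ... are separated -/
def sep (c c' d d' : CC) : Bool :=
  decide (0 < d3 c.a c.b c.t c c' d * d3 c.a c.b c.t c c' d') ||
  decide (0 < d3 c.a c.b c.t d d' c * d3 c.a c.b c.t d d' c')

/-- the crossing points are different -/
def ptne (c d : CC) : Bool :=
  (!(c.a == d.a && c.b == d.b) || c.num * d.den != d.num * c.den) &&
  (!(c.a == d.b && c.b == d.a) || c.num * d.den != (d.den - d.num) * c.den)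

/-- number of crossings of two closed polygons -/
def ncr (k l : KC) : ℕ :=
  let g := fun j => k.cs.getD (j % k.cs.length) default
  let h := fun j => l.cs.getD (j % l.cs.length) default
  ((List.range k.cs.length).map fun i => ((List.range l.cs.length).filter fun j =>
    tri (g i) (h j) && crs (g i) (g (i + 1)) (h j) (h (j + 1))).length).sum

/-- the conditions for two closed polygons -/
def pair (k l : KC) : Bool :=
  let g := fun j => k.cs.getD (j % k.cs.length) default
  let h := fun j => l.cs.getD (j % l.cs.length) default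
  (List.range k.cs.length).all fun i => (List.range l.cs.length).all fun j =>
    ptne (g i) (h j) &&
    (!tri (g i) (h j) || crs (g i) (g (i + 1)) (h j) (h (j + 1)) ||
      sep (g i) (g (i + 1)) (h j) (h (j + 1)))

/-- matrix entry -/
def me (A : List (List ℕ)) (i j : ℕ) : ℕ := (A.getD i []).getD j 0

/-- all pairs -/
def pairs (c : Cert) : Bool :=
  let n := c.ks.length
  (List.range n).all fun i => (List.range n).all fun j =>
    let k := c.ks.getD i default
    let l := c.ks.getD j default
    if i == j then me c.A i i == k.q % 2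
    else pair k l && ncr k l == me c.A i j

/-- `A * Ai = 1` mod 2 -/
def inv (c : Cert) : Bool :=
  let n := c.ks.length
  (List.range n).all fun i => (List.range n).all fun j =>
    ((List.range n).map fun l => me c.A i l * me c.Ai l j).sum % 2 == (if i == j then 1 else 0)

/-- multiply a Gaussian integer by `i ^ e` -/
def rot (e : ℕ) (z : ℤ × ℤ) : ℤ × ℤ :=
  if e % 4 = 0 then z else if e % 4 = 1 then (-z.2, z.1) else if e % 4 = 2 then (-z.1, -z.2)
  else (z.2, -z.1)

/-- The Gauss sum `∑ i ^ (∑ x_i q_i + 2 ∑_{i<j} x_i x_j A_ij)` over `x_i ∈ {0, 1}`, `i ≥ s`; `l` is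
the list of the numbers `q_i + 2 ∑_{j < s} x_j A_ji` for `i ≥ s`; the first argument after `A` is the
number of variables. -/
def gauss (A : List (List ℕ)) : ℕ → ℕ → List ℕ → ℤ × ℤ
  | n + 1, s, e :: l =>
    let z := gauss A n (s + 1) l
    let y := gauss A n (s + 1)
      (l.zipWith (fun e' a => (e' + 2 * a) % 4) ((A.getD s []).drop (s + 1)))
    let y' := rot e y
    (z.1 + y'.1, z.2 + y'.2)
  | _, _, _ => (1, 0)

/-- the Gauss sum of a certificate -/
def gsum (c : Cert) : ℤ × ℤ := gauss c.A c.ks.length 0 (c.ks.map fun k => k.q)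

/-- `√2 ^ n e^{2πi β/8}` as a Gaussian integer, for `n ≡ β` mod 2, `β < 8` -/
def gval (n β : ℕ) : ℤ × ℤ :=
  let h : ℤ := 2 ^ (n / 2)
  if β = 0 then (h, 0) else if β = 1 then (h, h) else if β = 2 then (0, h) else
  if β = 3 then (-h, h) else if β = 4 then (-h, 0) else if β = 5 then (-h, -h) else
  if β = 6 then (0, -h) else (h, -h)

/-- The complete checker: Euler characteristic `2 - n`, Brown invariant `β ∈ {0, ..., 7}`. -/
def check (c : Cert) (n : ℕ) (ori : Bool) (β : ℕ) : Bool :=
  surf c.vs &&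
  (c.vs.map fun v => v.nb.length).sum + 12 == 6 * (c.vs.length + n) &&
  c.ks.length == n && c.ks.all (curve c.vs) && pairs c && inv c &&
  ((List.range n).all fun i => (c.A.getD i []).length == n) &&
  (c.ks.all fun k => k.q % 2 == 0) == ori && β % 2 == n % 2 && decide (β < 8) &&
  gsum c == gval n β

end Chk

/-! ## Specs: soundness of the checker -/

/-- EUL (150 lines). Euler characteristic of a surface: `6 χ = 6 N - ∑ k v`. Every vertex `v` is in
some triangle (`hT1`, `0 < k v`), so the complex has `N` vertices. `F = #T`; counting pairs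
`v ∈ t ∈ T`: `3 F = ∑ k v` (the triangles containing `v` are the `k v` different sets
`{v, nb v i, nb v (i + 1)}`, `i < k v`: different by `hnbinj`, `3 ≤ k v`). Edges: the pairs
`{v, w}` contained in a triangle; `v` has exactly `k v` neighbours, so `2 E = ∑ k v`. Faces of
cardinality `1, 2, 3` only. So `χ = N - E + F = N - (∑ k v) / 2 + (∑ k v) / 3`. -/
def SpecEUL : Prop := ∀ (N : ℕ) (S : PolyData N), S.IsSurf →
  6 * eulerChar S.T = 6 * N - ∑ v, (S.k v : ℤ)

/-- KSU (400 lines). `surf c.vs = true → c.poly.IsSurf`. With `w > 0` everywhere,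
`X v (P u - P v) = ev X v u / (w_u w_v)`, etc.; all conditions are translated one by one. `hd` by
Cramer's rule (`det ≠ 0`), `Classical.epsilon_spec`; `hinj` likewise. -/
def SpecKSU : Prop := ∀ c : Cert, Chk.surf c.vs = true → c.poly.IsSurf

/-- KCU (500 lines). `curve c.vs k = true → IsCrv ∧ IsFrm`. -/
def SpecKCU : Prop := ∀ c : Cert, Chk.surf c.vs = true → ∀ k : KC, Chk.curve c.vs k = true →
  (c.crv k).IsCrv c.poly ∧ Frm.IsFrm c.poly (c.crv k) (Cert.frm k) (k.q : ZMod 4)

/-- KPA (250 lines). Pairs of closed polygons. -/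
def SpecKPA : Prop := ∀ c : Cert, Chk.surf c.vs = true → ∀ k l : KC,
  Chk.curve c.vs k = true → Chk.curve c.vs l = true → Chk.pair k l = true →
  (∀ i j, (c.crv k).pt i ≠ (c.crv l).pt j) ∧
  (∀ i j, (c.crv k).tri i = (c.crv l).tri j →
    Crv.Cross ((c.crv k).a i) ((c.crv k).b i) ((c.crv k).t i) ((c.crv k).pt i)
      ((c.crv k).pt (i + 1)) ((c.crv l).pt j) ((c.crv l).pt (j + 1)) ∨
    Crv.Sep ((c.crv k).a i) ((c.crv k).b i) ((c.crv k).t i) ((c.crv k).pt i)
      ((c.crv k).pt (i + 1)) ((c.crv l).pt j) ((c.crv l).pt (j + 1))) ∧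
  {p : ℤ × ℤ | 0 ≤ p.1 ∧ p.1 < (c.crv k).L ∧ 0 ≤ p.2 ∧ p.2 < (c.crv l).L ∧
    (c.crv k).tri p.1 = (c.crv l).tri p.2 ∧
    Crv.Cross ((c.crv k).a p.1) ((c.crv k).b p.1) ((c.crv k).t p.1) ((c.crv k).pt p.1)
      ((c.crv k).pt (p.1 + 1)) ((c.crv l).pt p.2) ((c.crv l).pt (p.2 + 1))}.encard =
    Chk.ncr k l

/-- GSM (200 lines). The Gauss sum. (1) `gauss` computes the sum (induction on the list; sum over
`Fin (n+1) → Fin 2` by `Fin.consEquiv` / `Fin.cons`); the matrix is symmetric in effect since only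
`A i j`, `i < j`, is used: row `s` from position `s + 1` on. (2) `gval n β` is
`√2^n e^{2πiβ/8}` for `β ≡ n` mod 2: `e^{iπ/4} = (1 + i)/√2`. -/
def SpecGSM : Prop := ∀ (n β : ℕ) (q : Fin n → ℕ) (A : List (List ℕ)), β < 8 → β % 2 = n % 2 →
  (∀ i < n, (A.getD i []).length = n) →
  Chk.gauss A n 0 (List.ofFn q) = Chk.gval n β →
  ∑ x : Fin n → Fin 2, Complex.I ^ (∑ i, (x i : ℕ) * q i +
      2 * ∑ i, ∑ j ∈ Finset.univ.filter (fun j => i < j), (x i : ℕ) * (x j : ℕ) * Chk.me A i j) =
    (Real.sqrt 2 : ℂ) ^ n * Complex.exp (2 * Real.pi * Complex.I * ((β : ℤ) : ℂ) / 8)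

/-- CRT (200 lines; uses EUL KSU KCU KPA GSM). Soundness of the checker. -/
def SpecCRT : Prop := ∀ (c : Cert) (n : ℕ) (ori : Bool) (β : ℕ), Chk.check c n ori β = true →
  Model (2 - n) (ori = true) β

end Pool.Agent.Lib.MP_0b1f3c_gt.TI
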