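import Pool.Agent.Lib.MP_0b1f3c_gt.TI.Statement

/-!
# Polyhedral surfaces with 3-valent vertices and their smoothings: definitions
-/

open scoped Manifold ContDiff InnerProductSpace Quaternion

noncomputable section

namespace Pool.Agent.Lib.MP_0b1f3c_gt.TI

/-! ## The smooth version of `max 0 t` -/

/-- `ψ` is a smooth version of `t ↦ max 0 t`. -/
structure IsPsi (ψ : ℝ → ℝ) : Prop where
  smooth : ContDiff ℝ ∞ ψ
  zero : ∀ t ≤ -1, ψ t = 0
  id : ∀ t, 1 ≤ t → ψ t = t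
  sym : ∀ t, ψ t - ψ (-t) = t
  dmono : StrictMonoOn (deriv ψ) (Set.Icc (-1) 1)

/-- `ψ` at scale `δ`. -/
def psiD (ψ : ℝ → ℝ) (δ t : ℝ) : ℝ := δ * ψ (t / δ)

/-- smooth maximum at scale `δ` -/
def mx (ψ : ℝ → ℝ) (δ a b : ℝ) : ℝ := a + psiD ψ δ (b - a)

/-- smooth minimum at scale `δ`; `mn a b = - mx (-a) (-b)` -/
def mn (ψ : ℝ → ℝ) (δ a b : ℝ) : ℝ := b - psiD ψ δ (b - a)

/-- The local defining function of the smoothed surface in the local coordinates `(X, Y, Z)`: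
`max (Z, min (X, Y))` at a saddle vertex (`κ = 1`), `max (Z, max (X, Y))` at a convex vertex
(`κ = -1`). -/
def locF (ψ : ℝ → ℝ) (δ κ X Y Z : ℝ) : ℝ :=
  mx ψ δ Z (if κ = 1 then mn ψ δ X Y else mx ψ δ X Y)

/-- 2-dimensional cross product -/
def cr (p q : ℝ × ℝ) : ℝ := p.1 * q.2 - p.2 * q.1

/-- Data of a closed polyhedral surface with triangulation `T` and vertices `P i ∈ E³`, all of
whose vertices are 3-valent: near every vertex `v` it lies in three planes `X v = 0`, `Y v = 0`,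
`Z v = 0` (linear forms in `p - P v`), and is either a saddle (`κ v = 1`), locally
`max (Z, min (X, Y)) = 0`, or convex (`κ v = -1`), locally `max (X, Y, Z) = 0`.
`nb v 0, ..., nb v (k v - 1), nb v (k v) = nb v 0` is the link of `v`; the three edges of the
polyhedral cone at `v` point to `nb v 0`, `nb v (k1 v)`, `nb v (k2 v)` (slots `0, 1, 2`: the edges
`X = Y = 0`, `X = Z = 0`, `Y = Z = 0`). -/
structure PolyData (N : ℕ) where
  T : Finset (Finset (Fin N))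
  P : Fin N → E3
  κ : Fin N → ℝ
  X : Fin N → E3 →L[ℝ] ℝ
  Y : Fin N → E3 →L[ℝ] ℝ
  Z : Fin N → E3 →L[ℝ] ℝ
  /-- the vector with `X = Y = Z = 1` -/
  d : Fin N → E3
  k : Fin N → ℕ
  k1 : Fin N → ℕ
  k2 : Fin N → ℕ
  k3 : Fin N → ℕ
  nb : Fin N → ℕ → Fin N
  /-- `op v e` : the slot of the edge `e` of `v` at its other end -/
  op : Fin N → Fin 3 → Fin 3

namespace PolyData

variable {N : ℕ} (S : PolyData N)

/-- end of the edge `e` of `v` -/
def r (v : Fin N) (e : Fin 3) : Fin N :=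
  S.nb v (if e = 0 then 0 else if e = 1 then S.k1 v else S.k2 v)

/-- the local coordinates of the `i`-th neighbour of `v` -/
def DX (v : Fin N) (i : ℕ) : ℝ := S.X v (S.P (S.nb v i) - S.P v)
@[inherit_doc DX] def DY (v : Fin N) (i : ℕ) : ℝ := S.Y v (S.P (S.nb v i) - S.P v)
@[inherit_doc DX] def DZ (v : Fin N) (i : ℕ) : ℝ := S.Z v (S.P (S.nb v i) - S.P v)

/-- the projection of the `i`-th edge vector at `v` along `(1,1,1)` -/
def Q (v : Fin N) (i : ℕ) : ℝ × ℝ := (S.DX v i - S.DZ v i, S.DY v i - S.DZ v i)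

/-- sign of the edge `e` of `v`: near the edge the local function at `v` is
`sg v e * max (A v e, B v e)` -/
def sg (v : Fin N) (e : Fin 3) : ℝ := if e = 0 then -S.κ v else 1

/-- first form of the edge `e` of `v` -/
def A (v : Fin N) (e : Fin 3) : E3 →L[ℝ] ℝ :=
  if e = 0 then (-S.κ v) • S.X v else if e = 1 then S.X v else S.Y v

/-- second form of the edge `e` of `v` -/
def B (v : Fin N) (e : Fin 3) : E3 →L[ℝ] ℝ := if e = 0 then (-S.κ v) • S.Y v else S.Z v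

/-- the polyhedral map `|T| → E³` (defined on `ℝ^N`) -/
def g (x : Fin N → ℝ) : E3 := ∑ i, x i • S.P i

/-- the smoothed local function at `v`, as a function on `E³` -/
def F (ψ : ℝ → ℝ) (δ : ℝ) (v : Fin N) (p : E3) : ℝ :=
  locF ψ δ (S.κ v) (S.X v (p - S.P v)) (S.Y v (p - S.P v)) (S.Z v (p - S.P v))

/-- blending function: `0` on `(-∞, 1/8]`, `1` on `[3/8, ∞)` -/
def tau (t : ℝ) : ℝ := max 0 (min 1 (4 * t - 1 / 2))

/-- common direction of the correction at the midpoint of the edge `e` of `v` -/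
def dbar (v : Fin N) (e : Fin 3) : E3 :=
  (1 / 2 : ℝ) • (S.d v + (S.sg v e * S.sg (S.r v e) (S.op v e)) • S.d (S.r v e))

/-- the correction in the region where `x v` is the largest coordinate -/
def corr (ψ : ℝ → ℝ) (δ : ℝ) (v : Fin N) (x : Fin N → ℝ) : E3 :=
  S.F ψ δ v (S.g x) • (S.d v + ∑ e : Fin 3, tau (x (S.r v e)) • (S.dbar v e - S.d v))

/-- some vertex with the largest coordinate (`v0` is only used if `N = 0`) -/
def top (x : Fin N → ℝ) (v0 : Fin N) : Fin N :=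
  haveI : Nonempty (Fin N) := ⟨v0⟩
  Classical.choose (Finite.exists_max x)

/-- the smoothed surface: `g x - corr v x` for a vertex `v` with the largest coordinate -/
def f (ψ : ℝ → ℝ) (δ : ℝ) (x : Realization S.T) : E3 :=
  if h : 0 < N then S.g x.1 - S.corr ψ δ (top x.1 ⟨0, h⟩) x.1 else 0

/-- the projection of the star of `v` to the plane -/
def j (v : Fin N) (x : Fin N → ℝ) : E2 :=
  !₂[S.X v (S.g x - S.P v) - S.Z v (S.g x - S.P v), S.Y v (S.g x - S.P v) - S.Z v (S.g x - S.P v)]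

/-- the open star of `v` in `|T|` -/
def star (v : Fin N) : Set (Realization S.T) := {x | 0 < x.1 v}

/-- The conditions on the data. -/
structure IsSurf : Prop where
  hN : 0 < N
  hκ : ∀ v, S.κ v = 1 ∨ S.κ v = -1
  hd : ∀ v, S.X v (S.d v) = 1 ∧ S.Y v (S.d v) = 1 ∧ S.Z v (S.d v) = 1
  hinj : ∀ v p, S.X v p = 0 → S.Y v p = 0 → S.Z v p = 0 → p = 0
  hcard : ∀ t ∈ S.T, t.card = 3
  hne : ∀ v, ∀ i ≤ S.k v, S.nb v i ≠ v
  hper : ∀ v, S.nb v (S.k v) = S.nb v 0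
  hnbinj : ∀ v, Set.InjOn (S.nb v) (Set.Iio (S.k v))
  hk : ∀ v, 0 < S.k1 v ∧ S.k1 v < S.k2 v ∧ S.k2 v < S.k v
  hT1 : ∀ v, ∀ i < S.k v, ({v, S.nb v i, S.nb v (i + 1)} : Finset (Fin N)) ∈ S.T
  hT2 : ∀ t ∈ S.T, ∀ v ∈ t, ∃ i < S.k v, t = {v, S.nb v i, S.nb v (i + 1)}
  /-- the three plane sectors at `v` -/
  hX : ∀ v, ∀ i ≤ S.k1 v, S.DX v i = 0
  hZ : ∀ v i, S.k1 v ≤ i → i ≤ S.k2 v → S.DZ v i = 0
  hY : ∀ v i, S.k2 v ≤ i → i ≤ S.k v → S.DY v i = 0
  /-- the directions of the three edges at `v` -/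
  hr0 : ∀ v, S.DZ v 0 < 0
  hr1 : ∀ v, 0 < S.κ v * S.DY v (S.k1 v)
  hr2 : ∀ v, 0 < S.κ v * S.DX v (S.k2 v)
  /-- in the coordinates `(X - Z, Y - Z)` of the plane the link turns once around the origin -/
  hfan1 : ∀ v, ∀ i < S.k v, 0 < S.κ v * cr (S.Q v i) (S.Q v (i + 1))
  hfan2 : ∀ v i, 0 < i → i < S.k3 v → 0 ≤ S.κ v * cr (S.Q v 0) (S.Q v i)
  hfan3 : ∀ v i, S.k3 v ≤ i → i < S.k v → S.κ v * cr (S.Q v 0) (S.Q v i) < 0
  hk3 : ∀ v, 0 < S.k3 v ∧ S.k3 v ≤ S.k v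
  /-- a convex vertex is a vertex of the convex hull -/
  hconv : ∀ v, S.κ v = -1 → ∀ u, S.X v (S.P u - S.P v) ≤ 0 ∧ S.Y v (S.P u - S.P v) ≤ 0 ∧
    S.Z v (S.P u - S.P v) ≤ 0
  /-- the vertices are distinct points -/
  hP : Function.Injective S.P
  hconn : ∀ u v, Relation.ReflTransGen (fun a b => ∃ t ∈ S.T, a ∈ t ∧ b ∈ t) u v
  /-- the two ends of an edge -/
  hop : ∀ v e, S.r (S.r v e) (S.op v e) = v
  /-- the forms at both ends of an edge agree -/
  hform : ∀ v e, (S.A v e = S.A (S.r v e) (S.op v e) ∧ S.B v e = S.B (S.r v e) (S.op v e)) ∨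
    (S.A v e = S.B (S.r v e) (S.op v e) ∧ S.B v e = S.A (S.r v e) (S.op v e))

end PolyData

end Pool.Agent.Lib.MP_0b1f3c_gt.TI
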