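import Pool.Agent.Lib.MP_0b1f3c_gt.TI.EFA

/-!
# ED1: the two triangles at an edge (helper83)
-/

open scoped Manifold ContDiff InnerProductSpace Topology
open Filter Set

noncomputable section

namespace Pool.Agent.Lib.MP_0b1f3c_gt.TI

namespace ED1M

open EFAM

variable {N : ℕ} {S : PolyData N}

/-- `g x - P v` for `x` supported in `{v, w, u}` -/
theorem g_sub {v w u : Fin N} (hvw : w ≠ v) (huv : u ≠ v) (huw : u ≠ w) {x : Fin N → ℝ}
    (hx : x ∈ Realization S.T) (hs : ∀ i, x i ≠ 0 → i = v ∨ i = w ∨ i = u) :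
    S.g x - S.P v = x w • (S.P w - S.P v) + x u • (S.P u - S.P v) := by
  have h1 : S.g x - S.P v = ∑ i, x i • (S.P i - S.P v) := by
    unfold PolyData.g
    simp only [smul_sub, Finset.sum_sub_distrib]
    rw [← Finset.sum_smul, hx.2.1, one_smul]
  rw [h1]
  have h2 : ∑ i, x i • (S.P i - S.P v) = ∑ i ∈ ({w, u} : Finset (Fin N)), x i • (S.P i - S.P v) := by
    symm
    refine Finset.sum_subset (Finset.subset_univ _) fun i _ hi => ?_
    simp only [Finset.mem_insert, Finset.mem_singleton, not_or] at hi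
    by_cases h0 : x i = 0
    · rw [h0, zero_smul]
    · rcases hs i h0 with rfl | rfl | rfl
      · rw [sub_self, smul_zero]
      · exact absurd rfl hi.1
      · exact absurd rfl hi.2
  rw [h2, Finset.sum_pair huw.symm]

/-- the two triangles containing `v` and `nb v m` -/
theorem supp (hS : S.IsSurf) (v : Fin N) (m : ℕ) (hm : m < S.k v) {x : Fin N → ℝ}
    (hx : x ∈ Realization S.T) (hv : 0 < x v) (hw : 0 < x (S.nb v m)) :
    (∀ i, x i ≠ 0 → i = v ∨ i = S.nb v m ∨ i = S.nb v (m + 1)) ∨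
    (∀ i, x i ≠ 0 → i = v ∨ i = S.nb v m ∨ i = S.nb v (if m = 0 then S.k v - 1 else m - 1)) := by
  obtain ⟨t, ht, hst⟩ := hx.2.2
  have hvt := hst v hv.ne'
  have hwt := hst _ hw.ne'
  obtain ⟨i, hi, rfl⟩ := hS.hT2 t ht v hvt
  have hk := hS.hk v
  simp only [Finset.mem_insert, Finset.mem_singleton] at hwt hst
  rcases hwt with h | h | h
  · exact absurd h (hS.hne v m hm.le)
  · have : m = i := hS.hnbinj v hm hi h
    subst this
    exact Or.inl hst
  · right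
    intro j hj
    rcases Nat.lt_or_ge (i + 1) (S.k v) with h1 | h1
    · have h2 : m = i + 1 := hS.hnbinj v hm h1 h
      subst h2
      rw [if_neg (by omega), Nat.add_sub_cancel]
      rcases hst j hj with h3 | h3 | h3
      · exact Or.inl h3
      · exact Or.inr (Or.inr h3)
      · exact Or.inr (Or.inl h3)
    · have h1' : i + 1 = S.k v := by omega
      rw [h1', hS.hper v] at h
      have h2 : m = 0 := hS.hnbinj v hm (show (0 : ℕ) < S.k v by omega) h
      subst h2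
      rw [if_pos rfl]
      have h4 : i = S.k v - 1 := by omega
      rcases hst j hj with h3 | h3 | h3
      · exact Or.inl h3
      · exact Or.inr (Or.inr (by rw [← h4]; exact h3))
      · exact Or.inr (Or.inl (by rw [h3, h1', hS.hper v]))

/-- general form -/
theorem main (hS : S.IsSurf) (v : Fin N) (e : Fin 3) (m : ℕ) (hm : m < S.k v) (hr : S.r v e = S.nb v m)
    (u₁ u₂ : Fin N) (hu : (u₁ = S.nb v (m + 1) ∧ u₂ = S.nb v (if m = 0 then S.k v - 1 else m - 1)) ∨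
      (u₂ = S.nb v (m + 1) ∧ u₁ = S.nb v (if m = 0 then S.k v - 1 else m - 1)))
    (hA₁ : S.A v e (S.P u₁ - S.P v) = 0) (hB₁ : S.B v e (S.P u₁ - S.P v) < 0)
    (hA₂ : S.A v e (S.P u₂ - S.P v) < 0) (hB₂ : S.B v e (S.P u₂ - S.P v) = 0) :
  ∃ (u₁ u₂ : Fin N) (L₁ L₂ : ℝ), 0 < L₁ ∧ 0 < L₂ ∧ u₁ ≠ v ∧ u₂ ≠ v ∧ u₁ ≠ S.r v e ∧ u₂ ≠ S.r v e ∧
    ∀ x ∈ Realization S.T, 0 < x v → 0 < x (S.r v e) →
      ((∀ i, x i ≠ 0 → i = v ∨ i = S.r v e ∨ i = u₁) ∧
        S.A v e (S.g x - S.P v) = 0 ∧ S.B v e (S.g x - S.P v) = -(L₁ * x u₁)) ∨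
      ((∀ i, x i ≠ 0 → i = v ∨ i = S.r v e ∨ i = u₂) ∧
        S.B v e (S.g x - S.P v) = 0 ∧ S.A v e (S.g x - S.P v) = -(L₂ * x u₂)) := by
  have hwv : S.r v e ≠ v := by rw [hr]; exact hS.hne v m hm.le
  have h1v : u₁ ≠ v := by
    rintro rfl
    rw [sub_self, map_zero] at hB₁
    exact lt_irrefl _ hB₁
  have h2v : u₂ ≠ v := by
    rintro rfl
    rw [sub_self, map_zero] at hA₂
    exact lt_irrefl _ hA₂
  have h1w : u₁ ≠ S.r v e := by
    intro h
    rw [h, BP hS] at hB₁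
    exact lt_irrefl _ hB₁
  have h2w : u₂ ≠ S.r v e := by
    intro h
    rw [h, AP hS] at hA₂
    exact lt_irrefl _ hA₂
  have c1 : ∀ x ∈ Realization S.T, (∀ i, x i ≠ 0 → i = v ∨ i = S.r v e ∨ i = u₁) →
      S.A v e (S.g x - S.P v) = 0 ∧ S.B v e (S.g x - S.P v) = -(-(S.B v e (S.P u₁ - S.P v)) * x u₁) := by
    intro x hx hs
    rw [g_sub hwv h1v h1w hx hs, (S.A v e).map_add, (S.B v e).map_add, (S.A v e).map_smul,
      (S.A v e).map_smul, (S.B v e).map_smul, (S.B v e).map_smul, AP hS, BP hS, hA₁]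
    constructor
    · simp
    · simp only [smul_eq_mul, mul_zero, zero_add]
      ring
  have c2 : ∀ x ∈ Realization S.T, (∀ i, x i ≠ 0 → i = v ∨ i = S.r v e ∨ i = u₂) →
      S.B v e (S.g x - S.P v) = 0 ∧ S.A v e (S.g x - S.P v) = -(-(S.A v e (S.P u₂ - S.P v)) * x u₂) := by
    intro x hx hs
    rw [g_sub hwv h2v h2w hx hs, (S.A v e).map_add, (S.B v e).map_add, (S.A v e).map_smul,
      (S.A v e).map_smul, (S.B v e).map_smul, (S.B v e).map_smul, AP hS, BP hS, hB₂]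
    constructor
    · simp
    · simp only [smul_eq_mul, mul_zero, zero_add]
      ring
  refine ⟨u₁, u₂, -(S.B v e (S.P u₁ - S.P v)), -(S.A v e (S.P u₂ - S.P v)), by linarith, by linarith,
    h1v, h2v, h1w, h2w, fun x hx h1 h2 => ?_⟩
  have h3 : (∀ i, x i ≠ 0 → i = v ∨ i = S.r v e ∨ i = u₁) ∨
      (∀ i, x i ≠ 0 → i = v ∨ i = S.r v e ∨ i = u₂) := by
    rw [hr] at h2 ⊢
    rcases hu with ⟨e1, e2⟩ | ⟨e1, e2⟩
    · rw [e1, e2]
      exact supp hS v m hm hx h1 h2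
    · rw [e1, e2]
      exact (supp hS v m hm hx h1 h2).symm
  rcases h3 with h3 | h3
  · exact Or.inl ⟨h3, c1 x hx h3⟩
  · exact Or.inr ⟨h3, c2 x hx h3⟩

end ED1M

open EFAM ED1M in
theorem specED1 (hSGN : SpecSGN) : SpecED1 := by
  intro N S hS v e
  have hk := hS.hk v
  have hF := hSGN N S hS v
  match e with
  | 0 =>
    refine main hS v 0 0 (by omega) rfl (S.nb v 1) (S.nb v (S.k v - 1)) (Or.inl ⟨rfl, by rw [if_pos rfl]⟩)
      ?_ ?_ ?_ ?_
    · have h := hS.hX v 1 (by omega)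
      change S.X v (S.P (S.nb v 1) - S.P v) = 0 at h
      rw [A_0, _root_.smul_apply, h, smul_zero]
    · have h := (hF.a 0 hk.1).2
      change 0 < S.κ v * S.Y v (S.P (S.nb v 1) - S.P v) at h
      rw [B_0, _root_.smul_apply, smul_eq_mul]
      linarith
    · have h := (hF.b (S.k v - 1) (by omega) (by omega)).1
      change 0 < S.κ v * S.X v (S.P (S.nb v (S.k v - 1)) - S.P v) at h
      rw [A_0, _root_.smul_apply, smul_eq_mul]
      linarith
    · have h := hS.hY v (S.k v - 1) (by omega) (by omega)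
      change S.Y v (S.P (S.nb v (S.k v - 1)) - S.P v) = 0 at h
      rw [B_0, _root_.smul_apply, h, smul_zero]
  | 1 =>
    refine main hS v 1 (S.k1 v) (by omega) rfl (S.nb v (S.k1 v - 1)) (S.nb v (S.k1 v + 1))
      (Or.inr ⟨rfl, by rw [if_neg (by omega)]⟩) ?_ ?_ ?_ ?_
    · exact hS.hX v (S.k1 v - 1) (by omega)
    · exact (hF.a (S.k1 v - 1) (by omega)).1
    · exact hF.d.1
    · exact hS.hZ v (S.k1 v + 1) (by omega) (by omega)
  | 2 =>
    refine main hS v 2 (S.k2 v) (by omega) rfl (S.nb v (S.k2 v + 1)) (S.nb v (S.k2 v - 1))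
      (Or.inl ⟨rfl, by rw [if_neg (by omega)]⟩) ?_ ?_ ?_ ?_
    · exact hS.hY v (S.k2 v + 1) (by omega) (by omega)
    · exact (hF.b (S.k2 v) le_rfl (by omega)).2
    · exact hF.d.2
    · exact hS.hZ v (S.k2 v - 1) (by omega) (by omega)

end Pool.Agent.Lib.MP_0b1f3c_gt.TI
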