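import Pool.Agent.Lib.MP_0b1f3c_gt.TI.Statement

/-!
# Smooth tight immersions in the exceptional image homotopy classes: the final statement

`SmoothTight χ ori β` : there is a closed connected smooth surface `M` of Euler characteristic `χ`,
orientable iff `ori`, and a smooth tight immersion `f : M → E³` with Brown invariant `β`.

* `M` is given as the geometric realization of a finite simplicial complex (so that its Euler
  characteristic is visible) together with a smooth structure (Mathlib's `ChartedSpace`,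
  `IsManifold`); it is compact and Hausdorff as a closed bounded subset of `ℝ^N`.
* `f` is a smooth immersion in Mathlib's sense.
* `Tight f` : the preimage of every closed half-space is connected (or empty).
* `BrownInv f n ori β` : there are `n = 2 - χ(M)` simple closed curves on `M` with a nonsingular
  matrix of intersection numbers mod 2; since `dim H₁(M; ℤ₂) = 2 - χ(M) = n`, they are a basis of
  `H₁(M; ℤ₂)`. `q i` is the number mod 4 of half-twists of the immersed band around the `i`-th
  curve, computed by lifting the moving frame (forward tangent vector, normal vector) to the unit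
  quaternions. The Brown invariant `β` is defined by
  `∑_{x ∈ H₁} i^{q(x)} = √2^n e^{2πiβ/8}`, `q(∑ x_i c_i) = ∑ x_i q_i + 2 ∑_{i<j} x_i x_j c_i·c_j`.
-/

open scoped Manifold ContDiff InnerProductSpace Quaternion

noncomputable section

namespace Pool.Agent.Lib.MP_0b1f3c_gt.TI

/-- `M`, with its charts in `E`, is a smooth manifold and `f : M → F` is a smooth immersion. -/
def SmoothImmersion (E : Type) {F M : Type} [NormedAddCommGroup E] [NormedSpace ℝ E]
    [NormedAddCommGroup F] [NormedSpace ℝ F] [TopologicalSpace M] [ChartedSpace E M]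
    (f : M → F) : Prop :=
  IsManifold 𝓘(ℝ, E) ∞ M ∧ ContMDiff 𝓘(ℝ, E) 𝓘(ℝ, F) ∞ f ∧
    ∀ p, Function.Injective (mfderiv 𝓘(ℝ, E) 𝓘(ℝ, F) f p)

/-- `n` is orthogonal to the image of the differential of `f : M → F` at `p`. -/
def IsNormal (E : Type) {F M : Type} [NormedAddCommGroup E] [NormedSpace ℝ E]
    [NormedAddCommGroup F] [InnerProductSpace ℝ F] [TopologicalSpace M] [ChartedSpace E M]
    (f : M → F) (p : M) (n : F) : Prop :=
  ∀ v : TangentSpace 𝓘(ℝ, E) p, inner ℝ n ((mfderiv 𝓘(ℝ, E) 𝓘(ℝ, F) f p v : F)) = 0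

/-- The direction of the vector `x` is forward for the curve `g` in space at `t` : some linear
function which is positive on `x` is strictly increasing along `g` near `t`. -/
def Forward (g : ℝ → E3) (t : ℝ) (x : E3) : Prop :=
  ∃ w : E3, 0 < inner ℝ w x ∧
    ∃ ε > 0, StrictMonoOn (fun s => inner ℝ w (g s)) (Set.Icc (t - ε) (t + ε))

/-- The immersed band around the closed curve `c` has `q` half-twists (mod 4).
`u` is a continuous family of unit quaternions; `u t * k * (u t)⁻¹` is a unit normal vector of the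
surface at `c t`, and the unit tangent vector `u t * i * (u t)⁻¹` points forward along the curve. -/
def HalfTwists {M : Type} [TopologicalSpace M] [ChartedSpace E2 M] (f : M → E3) (c : ℝ → M)
    (q : ZMod 4) : Prop :=
  ∃ u : ℝ → ℍ[ℝ], Continuous u ∧ (∀ t, ‖u t‖ = 1) ∧
    (∀ t, IsNormal E2 f (c t) (vec (u t * qK * star (u t)))) ∧
    (∀ t, Forward (fun s => f (c s)) t (vec (u t * qI * star (u t)))) ∧
    ∀ t, u (t + 1) = u t * omega q

/-- The Gauss sum `∑_{x ∈ H₁} i^{q(x)}` of the quadratic form with the values `q i` on a basis with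
the intersection numbers `A i j`. -/
def gaussSum {n : ℕ} (q : Fin n → ZMod 4) (A : Matrix (Fin n) (Fin n) ℕ) : ℂ :=
  ∑ x : Fin n → Fin 2, Complex.I ^ (∑ i, (x i : ℕ) * (q i).val +
    2 * ∑ i, ∑ j ∈ Finset.univ.filter (fun j => i < j), (x i : ℕ) * (x j : ℕ) * A i j)

/-- `f : M → E³` has Brown invariant `β` (an integer mod 8), where `n = 2 - χ(M)`; `ori` says
whether `M` is orientable. See the header of the file. -/
def BrownInv {M : Type} [TopologicalSpace M] [ChartedSpace E2 M] (f : M → E3) (n : ℕ) (ori : Prop)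
    (β : ℤ) : Prop :=
  ∃ (c : Fin n → ℝ → M) (q : Fin n → ZMod 4) (A : Matrix (Fin n) (Fin n) ℕ),
    (∀ i, SimpleClosed (c i)) ∧ (∀ i, HalfTwists f (c i) (q i)) ∧
    (∀ i j, i ≠ j → Meets f (c i) (c j) (A i j)) ∧
    (∀ i, (A i i = 0 ∧ (q i = 0 ∨ q i = 2)) ∨ (A i i = 1 ∧ (q i = 1 ∨ q i = 3))) ∧
    (A.map (Nat.cast : ℕ → ZMod 2)).det ≠ 0 ∧
    (ori ↔ ∀ i, q i = 0 ∨ q i = 2) ∧
    gaussSum q A = (Real.sqrt 2 : ℂ) ^ n * Complex.exp (2 * Real.pi * Complex.I * (β : ℂ) / 8)

/-- There is a smooth tight immersion into `E³` of the closed connected surface of Euler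
characteristic `χ`, orientable iff `ori`, with Brown invariant `β`. -/
def SmoothTight (χ : ℤ) (ori : Prop) (β : ℤ) : Prop :=
  ∃ (N : ℕ) (T : Finset (Finset (Fin N))), (∀ t ∈ T, t.card = 3) ∧ eulerChar T = χ ∧
    IsConnected (Realization T) ∧ IsCompact (Realization T) ∧
    ∃ (_ : ChartedSpace E2 (Realization T)) (f : Realization T → E3),
      SmoothImmersion E2 f ∧ Tight f ∧ BrownInv f (2 - χ).toNat ori β

theorem HasTight.smoothTight {χ : ℤ} {ori : Prop} {β : ℤ} (h : HasTight χ ori β) :
    SmoothTight χ ori β := by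
  obtain ⟨N, T, h1, h2, h3, h4, CS, f, h5, h6, h7, h8, c, q, A, g1, g2, g3⟩ := h
  refine ⟨N, T, h1, h2, h3, h4, CS, f, ⟨h5, h6, h7⟩, h8, c, q, A, g1, fun i => ?_, g3⟩
  obtain ⟨u, k1, k2, k3, k4, k5⟩ := g2 i
  exact ⟨u, k1, k2, fun t v => k3 t v, fun t => k4 t, k5⟩

end Pool.Agent.Lib.MP_0b1f3c_gt.TI
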