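import Pool.Agent.Lib.MP_0b1f3c_gt.TI.SpecG

/-!
# MP_0b1f3c_gt, smooth tight immersions, module GT (helper43)

Tightness, the assembly.
-/

set_option autoImplicit false

open scoped Manifold ContDiff InnerProductSpace Topology
open Filter Set

noncomputable section

namespace Pool.Agent.Lib.MP_0b1f3c_gt.TI

/-- **GT** -/
theorem specGT (hTGG : SpecTGG) (hDNS : SpecDNS) (hTGL : SpecTGL) (hG1 : SpecG1)
    (hCPT : SpecCPT) : SpecGT := by
  intro N S hS ψ hψ
  have : CompactSpace (Realization S.T) := isCompact_iff_compactSpace.1 (hCPT N S.T)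
  filter_upwards [hTGG N S hS ψ hψ, hG1 N S hS ψ hψ] with δ h1 h2
  exact hTGL (Realization S.T) (S.f ψ δ) h2 _ (hDNS N S hS) h1

end Pool.Agent.Lib.MP_0b1f3c_gt.TI
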