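import Pool.Agent.Lib.MP_0b1f3c_gt.TI.Data.A1
import Pool.Agent.Lib.MP_0b1f3c_gt.TI.Data.A2
import Pool.Agent.Lib.MP_0b1f3c_gt.TI.Data.A3
import Pool.Agent.Lib.MP_0b1f3c_gt.TI.Data.B1
import Pool.Agent.Lib.MP_0b1f3c_gt.TI.Data.B2
import Pool.Agent.Lib.MP_0b1f3c_gt.TI.Data.B3
import Pool.Agent.Lib.MP_0b1f3c_gt.TI.Data.C1
import Pool.Agent.Lib.MP_0b1f3c_gt.TI.Data.C2
import Pool.Agent.Lib.MP_0b1f3c_gt.TI.Data.D1
import Pool.Agent.Lib.MP_0b1f3c_gt.TI.Data.D2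
import Pool.Agent.Lib.MP_0b1f3c_gt.TI.Data.D3

/-!
# From the certificates to smooth tight immersions
-/

open scoped Manifold ContDiff InnerProductSpace Quaternion

noncomputable section

namespace Pool.Agent.Lib.MP_0b1f3c_gt.TI

/-- `β` matters only mod 8. -/
theorem HasTight.congr {χ : ℤ} {ori : Prop} {β β' : ℤ} (h : HasTight χ ori β)
    (hb : ∃ m : ℤ, β = β' + 8 * m) : HasTight χ ori β' := by
  obtain ⟨N, T, h1, h2, h3, h4, CS, f, h5, h6, h7, h8, c, q, A, g1, g2, g3, g4, g5, g6, g7⟩ := h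
  refine ⟨N, T, h1, h2, h3, h4, CS, f, h5, h6, h7, h8, c, q, A, g1, g2, g3, g4, g5, g6, ?_⟩
  rw [g7]
  obtain ⟨m, hm⟩ := hb
  congr 1
  have h9 : 2 * (Real.pi : ℂ) * Complex.I * (β : ℂ) / 8 =
      2 * (Real.pi : ℂ) * Complex.I * (β' : ℂ) / 8 + m * (2 * Real.pi * Complex.I) := by
    rw [hm]; push_cast; ring
  rw [h9, Complex.exp_add, Complex.exp_int_mul_two_pi_mul_I, mul_one]

theorem HasTight.ori {χ : ℤ} {ori ori' : Prop} {β : ℤ} (h : HasTight χ ori β)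
    (ho : ori ↔ ori') : HasTight χ ori' β := by
  rw [← propext ho]; exact h

/-- All eleven classes (with both signs of `β`). -/
theorem main (hCRT : SpecCRT) (hASM : SpecASM) :
    (∀ k ∈ ({1, 2, 3} : Finset ℤ),
      HasTight (-2 * k) False 2 ∧ HasTight (-2 * k) False (-2)) ∧
    (∀ k ∈ ({1, 2, 3} : Finset ℤ),
      HasTight (-1 - 2 * k) False 3 ∧ HasTight (-1 - 2 * k) False (-3)) ∧
    (∀ k ∈ ({1, 2} : Finset ℤ), HasTight (-2 * k) False 4) ∧
    (∀ k ∈ ({1, 2, 3} : Finset ℤ), HasTight (-2 * k) True 4) := by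
  have key : ∀ (c : Cert) (n : ℕ) (o : Bool) (β : ℕ), Chk.check c n o β = true →
      HasTight (2 - n) (o = true) β := fun c n o β h => hASM _ _ _ (hCRT c n o β h)
  have F : ∀ {χ : ℤ} {β : ℤ}, HasTight χ (false = true) β → HasTight χ False β :=
    fun h => h.ori (by simp)
  have G : ∀ {χ : ℤ} {β : ℤ}, HasTight χ (true = true) β → HasTight χ True β :=
    fun h => h.ori (by simp)
  have a10 := (F (key _ _ _ _ chk_a1_0)).congr (β' := 2) ⟨0, by norm_num⟩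
  have a11 := (F (key _ _ _ _ chk_a1_1)).congr (β' := -2) ⟨1, by norm_num⟩
  have a20 := (F (key _ _ _ _ chk_a2_0)).congr (β' := 2) ⟨0, by norm_num⟩
  have a21 := (F (key _ _ _ _ chk_a2_1)).congr (β' := -2) ⟨1, by norm_num⟩
  have a30 := (F (key _ _ _ _ chk_a3_0)).congr (β' := 2) ⟨0, by norm_num⟩
  have a31 := (F (key _ _ _ _ chk_a3_1)).congr (β' := -2) ⟨1, by norm_num⟩
  have b10 := (F (key _ _ _ _ chk_b1_1)).congr (β' := 3) ⟨0, by norm_num⟩
  have b11 := (F (key _ _ _ _ chk_b1_0)).congr (β' := -3) ⟨1, by norm_num⟩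
  have b20 := (F (key _ _ _ _ chk_b2_0)).congr (β' := 3) ⟨0, by norm_num⟩
  have b21 := (F (key _ _ _ _ chk_b2_1)).congr (β' := -3) ⟨1, by norm_num⟩
  have b30 := (F (key _ _ _ _ chk_b3_0)).congr (β' := 3) ⟨0, by norm_num⟩
  have b31 := (F (key _ _ _ _ chk_b3_1)).congr (β' := -3) ⟨1, by norm_num⟩
  have c10 := (F (key _ _ _ _ chk_c1_0)).congr (β' := 4) ⟨0, by norm_num⟩
  have c20 := (F (key _ _ _ _ chk_c2_0)).congr (β' := 4) ⟨0, by norm_num⟩
  have d10 := (G (key _ _ _ _ chk_d1_0)).congr (β' := 4) ⟨0, by norm_num⟩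
  have d20 := (G (key _ _ _ _ chk_d2_0)).congr (β' := 4) ⟨0, by norm_num⟩
  have d30 := (G (key _ _ _ _ chk_d3_0)).congr (β' := 4) ⟨0, by norm_num⟩
  norm_num at a10 a11 a20 a21 a30 a31 b10 b11 b20 b21 b30 b31 c10 c20 d10 d20 d30
  refine ⟨?_, ?_, ?_, ?_⟩
  · intro k hk
    simp only [Finset.mem_insert, Finset.mem_singleton] at hk
    rcases hk with rfl | rfl | rfl <;> norm_num
    · exact ⟨a10, a11⟩
    · exact ⟨a20, a21⟩
    · exact ⟨a30, a31⟩
  · intro k hk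
    simp only [Finset.mem_insert, Finset.mem_singleton] at hk
    rcases hk with rfl | rfl | rfl <;> norm_num
    · exact ⟨b10, b11⟩
    · exact ⟨b20, b21⟩
    · exact ⟨b30, b31⟩
  · intro k hk
    simp only [Finset.mem_insert, Finset.mem_singleton] at hk
    rcases hk with rfl | rfl <;> norm_num
    · exact c10
    · exact c20
  · intro k hk
    simp only [Finset.mem_insert, Finset.mem_singleton] at hk
    rcases hk with rfl | rfl | rfl <;> norm_num
    · exact d10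
    · exact d20
    · exact d30

end Pool.Agent.Lib.MP_0b1f3c_gt.TI
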