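import Pool.Agent.Lib.MP_0b1f3c_gt.TI.SpecC

/-!
# PSI: a smooth version of `max 0 t`
-/

open scoped Manifold ContDiff InnerProductSpace Quaternion

noncomputable section

namespace Pool.Agent.Lib.MP_0b1f3c_gt.TI

namespace PSIM

open MeasureTheory intervalIntegral Set

/-- the derivative -/
def g (t : ℝ) : ℝ := Real.smoothTransition ((t + 1) / 2)

theorem g_contDiff : ContDiff ℝ ∞ g :=
  Real.smoothTransition.contDiff.comp ((contDiff_id.add contDiff_const).div_const 2)

theorem g_cont : Continuous g := g_contDiff.continuous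

/-- the function -/
def psi (t : ℝ) : ℝ := ∫ τ in (-1 : ℝ)..t, g τ

theorem psi_hasDerivAt (t : ℝ) : HasDerivAt psi (g t) t :=
  integral_hasDerivAt_right (g_cont.intervalIntegrable _ _)
    (g_cont.stronglyMeasurableAtFilter _ _) g_cont.continuousAt

theorem deriv_psi : deriv psi = g := funext fun t => (psi_hasDerivAt t).deriv

theorem psi_contDiff : ContDiff ℝ ∞ psi := by
  rw [contDiff_infty_iff_deriv, deriv_psi]
  exact ⟨fun t => (psi_hasDerivAt t).differentiableAt, g_contDiff⟩

theorem psi_zero {t : ℝ} (ht : t ≤ -1) : psi t = 0 := by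
  unfold psi
  have : ∀ τ ∈ uIcc (-1 : ℝ) t, g τ = 0 := by
    intro τ hτ
    rw [uIcc_of_ge ht] at hτ
    exact Real.smoothTransition.zero_of_nonpos (by linarith [hτ.2])
  rw [integral_congr this, intervalIntegral.integral_const, smul_zero]

theorem g_sym (t : ℝ) : g t + g (-t) = 1 := by
  unfold g Real.smoothTransition
  have h1 : 1 - (t + 1) / 2 = (-t + 1) / 2 := by ring
  have h2 : 1 - (-t + 1) / 2 = (t + 1) / 2 := by ring
  rw [h1, h2]
  have h3 := Real.smoothTransition.pos_denom ((t + 1) / 2)
  rw [h1] at h3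
  rw [add_comm (expNegInvGlue ((-t + 1) / 2)) (expNegInvGlue ((t + 1) / 2)), ← add_div,
    div_self h3.ne']

theorem psi_sym (t : ℝ) : psi t - psi (-t) = t := by
  have h1 : ∀ t, HasDerivAt (fun t => psi t - psi (-t) - t) 0 t := by
    intro t
    have h := ((psi_hasDerivAt t).sub ((psi_hasDerivAt (-t)).comp t (hasDerivAt_neg t))).sub
      (hasDerivAt_id t)
    refine h.congr_deriv ?_
    have := g_sym t
    linarith
  have h2 := is_const_of_deriv_eq_zero (fun t => (h1 t).differentiableAt) (fun t => (h1 t).deriv) t 0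
  simp only [neg_zero, sub_self] at h2
  linarith

theorem glue_lt {x y : ℝ} (hx : 0 ≤ x) (hxy : x < y) : expNegInvGlue x < expNegInvGlue y := by
  rcases hx.eq_or_lt with rfl | hx
  · rw [expNegInvGlue.zero]
    exact expNegInvGlue.pos_of_pos hxy
  · have hy : 0 < y := hx.trans hxy
    unfold expNegInvGlue
    rw [if_neg (not_le.2 hx), if_neg (not_le.2 hy), Real.exp_lt_exp, neg_lt_neg_iff]
    exact inv_strictAnti₀ hx hxy

theorem st_lt {x y : ℝ} (hx : 0 ≤ x) (hxy : x < y) (hy : y ≤ 1) :
    Real.smoothTransition x < Real.smoothTransition y := by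
  unfold Real.smoothTransition
  rw [div_lt_div_iff₀ (Real.smoothTransition.pos_denom x) (Real.smoothTransition.pos_denom y)]
  have h1 := glue_lt hx hxy
  have h2 : expNegInvGlue (1 - y) < expNegInvGlue (1 - x) := glue_lt (by linarith) (by linarith)
  have h3 := expNegInvGlue.nonneg x
  have h4 := expNegInvGlue.nonneg (1 - y)
  nlinarith [expNegInvGlue.nonneg y, expNegInvGlue.nonneg (1 - x)]

end PSIM

open PSIM in
/-- **PSI** -/
theorem specPSI : SpecPSI := by
  refine ⟨psi, psi_contDiff, fun t ht => psi_zero ht, fun t ht => ?_, psi_sym, ?_⟩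
  · have h1 := psi_sym t
    rw [psi_zero (by linarith : -t ≤ -1)] at h1
    linarith
  · rw [deriv_psi]
    intro x hx y hy hxy
    exact st_lt (by linarith [hx.1]) (by linarith) (by linarith [hy.2])

end Pool.Agent.Lib.MP_0b1f3c_gt.TI
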