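import Pool.Agent.Lib.MP_0b1f3c_gt.TI.CDefs

/-!
# Specs of the curve part

Every Spec has a complete proof in its docstring. Module NAME: file `TI/NAME.lean`, theorem
`specNAME (other Specs as hypotheses) : SpecNAME`, own lemmas in the namespace
`Pool.Agent.Lib.MP_0b1f3c_gt.TI.NAMEM`. The Specs `SpecG1, SpecG2, SpecG3, SpecGM, SpecGT, SpecGC`
of `CDefs.lean` may be used as hypotheses.
-/

open scoped Manifold ContDiff InnerProductSpace Quaternion

noncomputable section

namespace Pool.Agent.Lib.MP_0b1f3c_gt.TI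

/-- PSI (100 lines). `ψ t = ∫ τ in -1..t, Real.smoothTransition ((τ + 1) / 2)`.
`Real.smoothTransition` is smooth, `0` for `x ≤ 0`, `1` for `1 ≤ x`, satisfies
`s (1 - x) = 1 - s x` (definition) and is strictly increasing on `[0, 1]` (`s x = e x / (e x +
e (1 - x))` with `e = expNegInvGlue` strictly increasing on `[0, ∞)`: for `0 ≤ x < y ≤ 1`
cross-multiply `e x * e (1 - y) < e y * e (1 - x)`). So `ψ` is smooth with `ψ' = s ((t + 1) / 2)`,
zero for `t ≤ -1`; `t ↦ ψ t - ψ (-t) - t` has derivative `s ((t+1)/2) + s ((1-t)/2) - 1 = 0` and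
vanishes at `0`; and for `t ≥ 1` we get `ψ t = ψ (-t) + t = t`. -/
def SpecPSI : Prop := ∃ ψ : ℝ → ℝ, IsPsi ψ

/-- CC (150 lines). `c s := ⟨C.c0 s, _⟩`. (1) `pt i` and `pt (i + 1)` are supported in `tri i ∈ S.T`,
nonnegative with sum one, hence so is `c0 s`, a convex combination of both. (2) Continuity of `c0`:
on `[m / L, (m + 1) / L]` it is `(1 - (L s - m)) pt m + (L s - m) pt (m + 1)` (also at the right end,
where both formulas give `pt (m + 1)`), an affine function; these intervals form a locally finite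
closed cover. (3) `c0 (s + 1) = c0 s` since `L (s + 1) = L s + L` and `pt` is `L`-periodic.
(4) Injective on `[0, 1)`: suppose `c0 s = c0 s'`, `i = ⌊L s⌋`, `j = ⌊L s'⌋` in `[0, L)`,
`θ, θ' ∈ [0, 1)` the fractional parts. First, for every `i` the segment from `pt i` to `pt (i + 1)`:
the two edges `{a i, b i}`, `{a (i+1), b (i+1)}` of the triangle `tri i` are different, so every
point with `0 < θ < 1` has all three coordinates of `tri i` positive, whereas `pt i` has exactly two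
nonzero coordinates. CASE `θ, θ' > 0`: the supports are `tri i = tri j`; if `i ≠ j` then (`0 ≤ i, j
< L`, so `j ≠ i + m L`) `hsep` says that one of the two open segments lies strictly on one side of
the line through the other (`det3` is affine in the last argument on the plane `sum = 1` and
vanishes on the line), contradiction; so `i = j`, and `θ = θ'` as `pt i ≠ pt (i + 1)`.
CASE `θ = 0 < θ'` (or conversely) is impossible by the number of nonzero coordinates. CASE
`θ = θ' = 0`: `pt i = pt j`, `i ≠ j`. The edge `{a i, b i}` lies in exactly two triangles of `S.T`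
(by `hT1, hT2, hnbinj`: the triangles containing `v` and `nb v m` are `{v, nb v m, nb v (m ± 1)}`),
namely `tri (i - 1) ≠ tri i`, and also `tri (j - 1) ≠ tri j`. So `tri j = tri i` or
`tri j = tri (i - 1)`. In the first case `hsep i j` contradicts that the segments `i`, `j` have the
common point `pt i = pt j` (both products of determinants vanish). In the second case, if
`j ≡ i - 1` mod `L` then `pt j = pt (i - 1)` and `{a j, b j} = {a (i-1), b (i-1)} ≠ {a i, b i}`
contradicting `pt i = pt j`; otherwise `hsep (i - 1) j` is contradicted by the common point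
`pt i = pt j` (an end point of both segments, so again both products vanish). -/
def SpecCC : Prop := ∀ (N : ℕ) (S : PolyData N), S.IsSurf → ∀ C : Crv N, C.IsCrv S →
  ∃ c : ℝ → Realization S.T, (∀ s, (c s).1 = C.c0 s) ∧ SimpleClosed c

/-- LFT (300 lines; pure quaternions). Lifting a moving frame `(X, N)` to unit quaternions, with
witnesses `w i` on `[(i - 1/2)/L, (i + 1/2)/L]`.
(1) ALGEBRA. Write `im y : ℍ` for the imaginary quaternion with vector part `y : E3`. If `t, b, n`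
are imaginary unit quaternions with `t * b = n, b * n = t, n * t = b` then
`p := 1 - t * i - b * j - n * k` satisfies `p * i = t * p` and `p * k = n * p` (expand, use
`j i = -k, k i = j, i k = -j, j k = i` and `t t = -1`). If moreover the `i`-component of `t` and the
`k`-component of `n` are positive then `Re p = 1 + t_i + b_j + n_k > 0` because `b_j ≥ -1`.
(2) For a quaternion `w ≠ 0` and orthogonal nonzero vectors `X, N` with `0 < ⟪X, vI w w⟫`,
`0 < ⟪N, vK w w⟫` put `t = w⁻¹ * im (X/‖X‖) * w`, `n = w⁻¹ * im (N/‖N‖) * w`, `b = n * t`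
(imaginary unit quaternions as in (1); the `i`-component of `t` is a positive multiple of
`⟪X, vI w w⟫`, since conjugation by `w` is a similarity with factor `‖w‖²`), `p` as in (1) and
`U (w, X, N) := w * p / ‖w * p‖`. It is a unit quaternion with `U i U* = im (X/‖X‖)`,
`U k U* = im (N/‖N‖)`, continuous in `(w, X, N)` on the set where it is defined, and
`w⁻¹ * U` has positive real part.
(3) Two unit quaternions `u, u'` with `u i u* = u' i u'*`, `u k u* = u' k u'*` satisfy `u' = ± u`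
(`u* u'` commutes with `i` and `k`, so it is real).
(4) Let `t_i = (i + 1/2)/L`. Then `U (w i, X t_i, N t_i) = U (w (i+1), X t_i, N t_i)`: for
`λ ∈ [0, 1]` put `w_λ = (1 - λ) w i + λ w (i + 1)`. Then `vI w_λ w_λ = (1-λ)² vI (w i) (w i) +
2 λ (1-λ) vI (w i) (w (i+1)) + λ² vI (w (i+1)) (w (i+1))` (note `vI y x = vI x y`, because
`conj (x i y*) = - y i x*`), so `0 < ⟪X t_i, vI w_λ w_λ⟫` and similarly for `N`, hence
`λ ↦ U (w_λ, X t_i, N t_i)` is continuous with values `±` its value at `0` (by (3)), so constant.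
(5) `u t := U (w i, X t, N t)` for `i = ⌊L t + 1/2⌋`; continuous by (2) on the closed intervals and
(4) at the ends. (6) `u (t + 1) = u t * omega q`: `U (w ω, X, ε N) = U (w, X, N) ω` where `ε = 1`
for `ω = ±1` and `ε = -1` for `ω = ± i`: with `t'' = ω⁻¹ t ω`, `n'' = ε ω⁻¹ n ω`,
`b'' = ε ω⁻¹ b ω` one gets `p'' = ω⁻¹ p ω` as `ω j ω⁻¹ = ε j`, `ω k ω⁻¹ = ε k`, `ω i ω⁻¹ = i`. -/
def SpecLFT : Prop := ∀ (L : ℕ), 0 < L → ∀ (X Nn : ℝ → E3) (w : ℤ → ℍ[ℝ]) (q : ZMod 4),
  Continuous X → Continuous Nn → (∀ t, inner ℝ (X t) (Nn t) = 0) →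
  (∀ t, X (t + 1) = X t) →
  (∀ t, Nn (t + 1) = (if q = 0 ∨ q = 2 then (1 : ℝ) else -1) • Nn t) →
  (∀ i, w (i + L) = w i * omega q) →
  (∀ (i : ℤ) (t : ℝ), ((i : ℝ) - 1 / 2) / L ≤ t → t ≤ ((i : ℝ) + 1 / 2) / L →
    0 < inner ℝ (X t) (Frm.vI (w i) (w i)) ∧ 0 < inner ℝ (Nn t) (Frm.vK (w i) (w i))) →
  (∀ i : ℤ, 0 < inner ℝ (X (((i : ℝ) + 1 / 2) / L)) (Frm.vI (w i) (w (i + 1))) ∧
    0 < inner ℝ (Nn (((i : ℝ) + 1 / 2) / L)) (Frm.vK (w i) (w (i + 1)))) →
  ∃ u : ℝ → ℍ[ℝ], Continuous u ∧ (∀ t, ‖u t‖ = 1) ∧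
    (∀ t, vec (u t * qI * star (u t)) = ‖X t‖⁻¹ • X t) ∧
    (∀ t, vec (u t * qK * star (u t)) = ‖Nn t‖⁻¹ • Nn t) ∧
    ∀ t, u (t + 1) = u t * omega q

/-- SID (120 lines). The two triangles at a surface edge. Let `u` be the third vertex of a triangle
`t ∈ S.T` containing `v` and `r v e`. By `hT2`, `t = {v, nb v m, nb v (m + 1)}`; by `hnbinj` (and
`hper`) `r v e = nb v k_e` with `k_e = 0, k1, k2` gives `u = nb v (k_e ± 1)` (cyclically). Take
`e = 1` (`k_e = k1`, forms `A = X`, `B = Z`): `u = nb v (k1 - 1)`: `X = 0` (`hX`) and `Z < 0`: since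
`Q v (k1 - 1) = (-Z, Y - Z)`, `Q v k1 = (0, Y1)` with `κ Y1 > 0`, `hfan1` gives
`0 < κ (-Z Y1)`, so `Z < 0`. `u = nb v (k1 + 1)`: `Z = 0` and `0 < κ cr (0, Y1) (X, Y) = -κ Y1 X`,
so `X < 0`. `e = 2` (`A = Y`, `B = Z`, `Q v k2 = (X2, 0)`, `κ X2 > 0`): `u = nb v (k2 - 1)`:
`Z = 0`, `0 < κ cr (X, Y) (X2, 0) = -κ Y X2`, so `Y < 0`. `u = nb v (k2 + 1)`: `Y = 0`,
`Q = (X - Z, -Z)`, `0 < κ X2 (-Z)`, so `Z < 0`. `e = 0` (`A = -κ X`, `B = -κ Y`, `D_0 = (0, 0, Z0)`,
`Z0 < 0`, `Q v 0 = (-Z0)(1, 1)`): `u = nb v 1`: `X = 0`, `0 < κ (-Z0) ((Y - Z) - (-Z)) =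
κ (-Z0) Y`, so `-κ Y < 0`. `u = nb v (k - 1)`: `Y = 0`, `0 < κ cr (X - Z, -Z) (-Z0, -Z0) =
κ (-Z0)(X - Z + Z) = κ (-Z0) X`, so `-κ X < 0`. The second claim: different triangles give different
signs `±` in `k_e ± 1`, hence different types. -/
def SpecSID : Prop := ∀ (N : ℕ) (S : PolyData N), S.IsSurf → ∀ (v : Fin N) (e : Fin 3)
  (u u' : Fin N), u ≠ v → u ≠ S.r v e → u' ≠ v → u' ≠ S.r v e →
  ({v, S.r v e, u} : Finset (Fin N)) ∈ S.T → ({v, S.r v e, u'} : Finset (Fin N)) ∈ S.T →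
  ((S.A v e (S.P u - S.P v) = 0 ∧ S.B v e (S.P u - S.P v) < 0) ∨
   (S.B v e (S.P u - S.P v) = 0 ∧ S.A v e (S.P u - S.P v) < 0)) ∧
  (u ≠ u' → S.A v e (S.P u - S.P v) = 0 → S.B v e (S.P u' - S.P v) = 0) ∧
  (u ≠ u' → S.B v e (S.P u - S.P v) = 0 → S.A v e (S.P u' - S.P v) = 0)

/-- FLT (150 lines). The two triangles `{v, w, u}`, `{v, w, u'}` at a flat edge `{v, w}` (`w` is
not one of the three `r v e`) lie in one plane, on different sides of the edge: `w = nb v m` with
`m` different from `0, k1, k2` mod `k`, `{u, u'} = {nb v (m-1), nb v (m+1)}`, so all three of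
`D (m-1), D m, D (m+1)` lie in one of the planes `X = 0`, `Z = 0`, `Y = 0` (`hX, hZ, hY`). The linear
function `ℓ p = κ cr (Q v m) (X p - Z p, Y p - Z p)` on `E3` vanishes on `D m`, is negative on
`D (m-1)` and positive on `D (m+1)` (`hfan1`). Take for `h` `±` the vector representing `ℓ`. -/
def SpecFLT : Prop := ∀ (N : ℕ) (S : PolyData N), S.IsSurf → ∀ (v w u u' : Fin N),
  w ≠ v → u ≠ v → u ≠ w → u' ≠ v → u' ≠ w → u ≠ u' →
  ({v, w, u} : Finset (Fin N)) ∈ S.T → ({v, w, u'} : Finset (Fin N)) ∈ S.T →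
  (∀ e, w ≠ S.r v e) → ∃ h : E3, inner ℝ h (S.P w - S.P v) = 0 ∧
    0 < inner ℝ h (S.P u - S.P v) ∧ inner ℝ h (S.P u' - S.P v) < 0

/-- EDG (200 lines). The local function near an edge of the surface. `x0` is a point of the edge
`{v, r v e}` with `0 < x0 (r v e) < 1/8`. At `x0` the local coordinates `(X, Y, Z)` of `g x0 - P v =
x0 (r v e) • (P (r v e) - P v)` are `(0, 0, -)` (`e = 0`), `(0, κ +, 0)` (`e = 1`), `(κ +, 0, 0)`
(`e = 2`) by `hX, hY, hZ, hr0, hr1, hr2`. By continuity there are `η > 0` and a neighbourhood `U` of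
`x0` in which all coordinates `x w`, `w ≠ v`, are `< 1/8` and, for `x ∈ U`, at `p = g x`:
`Z + η < min X Y` (`e = 0`), `η < κ (Y - X)` (`e = 1`), `η < κ (X - Y)` (`e = 2`). By `SpecG2`,
`f x = g x - F(g x) d v`; the shift changes `X, Y, Z` by the same amount, so these inequalities hold
at `f x` and near `f x`. Let `3 δ < η`. Properties of `ψ`: `0 ≤ ψ` and `ψ t ≤ max 0 t + 1` (as
`ψ' ∈ [0, 1]` or from `sym`), so `|psiD ψ δ t - max 0 t| ≤ δ`, and `psiD ψ δ t = 0` for `t ≤ -δ`,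
`= t` for `t ≥ δ`; `mx ψ δ a b = mx ψ δ b a`, `mn ψ δ a b = mn ψ δ b a` by `sym`.
`e = 1`, `κ = 1`: `Y - X > δ` gives `mn X Y = Y - psiD (Y - X) = X`, so `locF = mx Z X = mx X Z`;
`κ = -1`: `Y - X < -δ` gives `mx X Y = X + psiD (Y - X) = X`, the same. `e = 2`: `κ = 1`:
`Y - X < -δ`, `mn X Y = Y`; `κ = -1`: `Y - X > δ`, `mx X Y = Y`; `locF = mx Z Y = mx Y Z`.
`e = 0`: with `m = mn X Y` or `mx X Y` we have `m ≥ min X Y - δ > Z + δ`, so `locF = Z + psiD (m - Z)
= m`; for `κ = -1` this is `mx X Y = 1 * mx (X) (Y)` (`sg = 1`, `A = X`, `B = Y`), for `κ = 1` it is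
`mn X Y = - mx (-X) (-Y)` (`sg = -1`, `A = -X`, `B = -Y`; `sym`). -/
def SpecEDG : Prop := ∀ (N : ℕ) (S : PolyData N), S.IsSurf → ∀ ψ, IsPsi ψ →
  ∀ (v : Fin N) (e : Fin 3) (x0 : Realization S.T), (∀ i, x0.1 i ≠ 0 → i = v ∨ i = S.r v e) →
  0 < x0.1 (S.r v e) → x0.1 (S.r v e) < 1 / 8 → ∃ U ∈ nhds x0,
    ∀ᶠ δ in nhdsWithin (0 : ℝ) (Set.Ioi 0), ∀ x ∈ U, (∀ w, w ≠ v → x.1 w < 1 / 8) ∧
      ∀ᶠ p in nhds (S.f ψ δ x), S.F ψ δ v p =
        S.sg v e * mx ψ δ (S.A v e (p - S.P v)) (S.B v e (p - S.P v))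

/-- The conclusion of FRM. -/
structure Fields {N : ℕ} (S : PolyData N) (C : Crv N) (G : Frm) (q : ZMod 4) (ψ : ℝ → ℝ) (δ : ℝ)
    (c : ℝ → Realization S.T) (X Nn : ℝ → E3) : Prop where
  contX : Continuous X
  contN : Continuous Nn
  orth : ∀ t, inner ℝ (X t) (Nn t) = 0
  perX : ∀ t, X (t + 1) = X t
  perN : ∀ t, Nn (t + 1) = (if q = 0 ∨ q = 2 then (1 : ℝ) else -1) • Nn t
  nrm : ∀ t, S.Nrm ψ δ (c t) (Nn t)
  fwd : ∀ t : ℝ, ∃ w : E3, 0 < inner ℝ w (X t) ∧
    ∃ ε > 0, StrictMonoOn (fun s => inner ℝ w (S.f ψ δ (c s))) (Set.Icc (t - ε) (t + ε))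
  comb : ∀ (i : ℤ) (t : ℝ), ((i : ℝ) - 1 / 2) / C.L ≤ t → t ≤ ((i : ℝ) + 1 / 2) / C.L →
    (∃ α β : ℝ, 0 ≤ α ∧ 0 ≤ β ∧ 0 < α + β ∧ X t = α • C.D S (i - 1) + β • C.D S i) ∧
    (∃ α β : ℝ, 0 ≤ α ∧ 0 ≤ β ∧ 0 < α + β ∧ Nn t = α • G.n (i - 1) + β • G.n i)
  mid : ∀ i : ℤ, (∃ α : ℝ, 0 < α ∧ X (((i : ℝ) + 1 / 2) / C.L) = α • C.D S i) ∧
    (∃ α : ℝ, 0 < α ∧ Nn (((i : ℝ) + 1 / 2) / C.L) = α • G.n i)

/-- FRM (500 lines; uses SID, FLT, EDG, SpecG2, SpecG3, SpecG1). The moving frame of a closed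
polygon. Parametrise the segment `i` by `y = L s - i ∈ [0, 1]`: `c = (1 - y) pt i + y pt (i+1)`,
`g c` has constant velocity `D i` (in `y`).
FLAT CROSSING `i` (`re i = none`): FLT for `v = a i`, `w = b i`, `u = t i`, `u' =` third vertex of
`tri (i - 1)` gives `h` with `⟪h, D (i - 1)⟫ > 0`, `⟪h, D i⟫ > 0` (`⟪h, D i⟫` is a positive multiple
of `⟪h, P u - P v⟫`; `h` vanishes on the edge, `pt (i + 1)` has a positive coordinate at `u`, etc.).
REAL CROSSING `i` (`re i = some e`, `v = a i`): by `Frm.hreal` and `hn` and SID (say in the first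
alternative of `hreal`) `A = 0`, `B < 0` on `tri (i - 1)` off the edge, and `B = 0`, `A < 0` on
`tri i` (`A, B` applied to `g x - P v`). So `ρ₋ := B (D (i - 1)) > 0`, `A (D (i-1)) = 0`,
`ρ₊ := - A (D i) > 0`, `B (D i) = 0`, and `σ := B - A` is strictly increasing along the curve on the
segments `i - 1` and `i`, zero at `pt i`. Put `E₋ = D (i-1) / ρ₋`, `E₊ = D i / ρ₊`; for
`λ ∈ [0, 1]`, `X_λ = (1 - λ) E₋ + λ E₊`, `N_λ = (1 - λ) n (i-1) + λ n i`; then `⟪X_λ, N_λ⟫ = 0`
(`n (i-1) = ±∇A`, `n i = ±∇B`: `±((1-λ)² A E₋ + (1-λ) λ A E₊ + λ (1-λ) B E₋ + λ² B E₊) =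
±(0 - (1-λ)λ + λ(1-λ) + 0)`), and `(B - A) X_λ = 1`. In the second alternative exchange `A, B`.
DEFINITION of the fields on `[(i - 1/2)/L, (i + 1/2)/L]`: `X = X_λ / ‖X_λ‖`, `N = N_λ`, where for a
real crossing `λ = ψ' (σ (g c) / δ)` (`deriv ψ`, with values in `[0, 1]`, `0` for `σ ≤ -δ` and `1`
for `σ ≥ δ`), and for a flat crossing `E₋ = D (i-1)`, `E₊ = D i`, `λ = max 0 (min 1 (1/2 + 2 y'))`
with `y' = L s - i ∈ [-1/2, 1/2]`, `N = n i = n (i - 1)`. For `δ` small (`δ` less than `|σ|` at the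
midpoints) `λ = 0` at the left end and `λ = 1` at the right end, where `X = D/‖D‖`, so the pieces fit
together and `X, N` are continuous; periodicity is clear (`D` and all data of the curve are
`L`-periodic, `n (i + L) = ± n i`); `comb`, `mid`, `orth` are clear (`X_λ ≠ 0`: `(B-A) X_λ = 1`, resp.
`⟪h, X_λ⟫ > 0`).
NORMALITY. Let `x = c s` on the half segments around the crossing `i`. (a) Real crossing. EDG gives
`U ∋ pt i`; let `K` be the (fixed) compact set of the points of the two half segments not in the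
interior of `U`; it is disjoint from `RE` (points of the open segments have three nonzero
coordinates), so by SpecG3 for small `δ` `f = g` near every `x ∈ K`, and `|σ| ≥ δ` on `K`; then
`N = n (i-1)` or `n i` is orthogonal to the triangle containing `x` in its interior (a neighbourhood
of `x` in `|T|` lies in that open triangle): second alternative of `Nrm`. For `x ∈ U` the first
alternative: near `f x` the function `F v` is `sg * mx A B = sg * (A + psiD (B - A))`, whose
derivative at `f x` is `sg * ((1 - μ) A + μ B)` with `μ = ψ' ((B - A)(f x - P v)/δ)`, and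
`(B - A)(f x - P v) = (B - A)(g x - P v)` by SpecG2 because `A (d v) = B (d v) = sg v e`. So `N_λ` is
`±` (sign) times this gradient. (b) Flat crossing: the two half segments are a compact set
disjoint from `RE` (`pt i` has exactly the nonzero coordinates `a i`, `b i`, and `b i` is not a
real neighbour of `a i`, nor conversely by `hop`), so `f = g` near it, and the whole star of the edge
`{a i, b i}` is orthogonal to `n i` (both triangles, `n (i-1) = n i`).
FORWARD. (a) Real crossing, `x = c s` in `U`: take `w` with `⟪w, p⟫ = (B - A) p` (Riesz);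
`⟪w, X⟫ > 0`, and `⟪w, f (c s)⟫ = (B - A)(g (c s)) + const` is strictly increasing on both segments.
On `K`: `f = g` near `c s`, `w = D` of the segment. (b) Flat crossing: `f = g` on the half segments
and near them; `w = h`: `⟪h, g (c s)⟫` is strictly increasing on both segments; `⟪h, X_λ⟫ > 0`.
(`ε` small so that `[s - ε, s + ε]` stays in the region; at the common ends of the regions, the
midpoints, we are in the interior of a triangle with `f = g` near `c s` and can use `w = D`.) -/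
def SpecFRM : Prop := ∀ (N : ℕ) (S : PolyData N), S.IsSurf → ∀ C : Crv N, C.IsCrv S →
  ∀ (G : Frm) (q : ZMod 4), Frm.IsFrm S C G q → ∀ ψ, IsPsi ψ →
  ∀ᶠ δ in nhdsWithin (0 : ℝ) (Set.Ioi 0), ∀ c : ℝ → Realization S.T, (∀ s, (c s).1 = C.c0 s) →
    ∃ X Nn : ℝ → E3, Fields S C G q ψ δ c X Nn

/-- NRX (100 lines; uses SpecG2). Vectors with `Nrm` are normal in the sense of the manifold
structure. Second alternative of `Nrm`: `y ↦ ⟪n, f y⟫` is constant near `x`, and its derivative is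
`v ↦ ⟪n, mfderiv f x v⟫`. First alternative: the set of `y` with `y w < 1/8` for all `w ≠ v` is
open; on it `F v (f y) = F v (g y - F v (g y) • d v) = F v (g y) - F v (g y) = 0` by SpecG2 and
`F v (p + t • d v) = F v p + t` (`mx (a + t) (b + t) = mx a b + t`, `mn` likewise, and
`X (d v) = Y (d v) = Z (d v) = 1`). So `F v ∘ f` vanishes near `x`; `F v` is differentiable, hence
`fderiv (F v) (f x) (mfderiv f x v) = 0`. -/
def SpecNRX : Prop := ∀ (N : ℕ) (S : PolyData N), S.IsSurf → ∀ ψ, IsPsi ψ → ∀ δ : ℝ, 0 < δ →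
  ∀ (_ : ChartedSpace E2 (Realization S.T)), IsManifold (𝓡 2) ∞ (Realization S.T) →
    ContMDiff (𝓡 2) 𝓘(ℝ, E3) ∞ (S.f ψ δ) → ∀ (x : Realization S.T) (n : E3), S.Nrm ψ δ x n →
    ∀ v : TangentSpace (𝓡 2) x,
      inner ℝ n ((mfderiv (𝓡 2) 𝓘(ℝ, E3) (S.f ψ δ) x v : E3)) = 0

/-- MTS (300 lines; uses SpecG3). Two closed polygons `C, C'` with no common crossing point, such
that two segments in the same triangle either cross or are separated, meet in exactly as many points
as there are pairs of crossing segments. (1) If `c s = c' s'` then, as the points in the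
interior of segments have exactly three nonzero coordinates and the points `pt` exactly two, either
both points are crossing points, excluded by `hpt`, or both are interior points of segments
`i`, `j` (`i = ⌊L s⌋`, `j = ⌊L' s'⌋`) and the supports are `tri i = tri' j`. They are not separated
(see CC), so they cross. (2) If the segments `i`, `j` cross then they have exactly one
common point, which is interior to both: the function `D(z) = det3 (pt i) (pt (i+1)) z` is linear in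
`z` and has opposite signs at the ends of the segment `j`, so it vanishes at exactly one point `z`
of it, and by the second inequality `det3 (pt' j) (pt' (j+1)) (·)` vanishes at exactly one point
`z'` of the segment `i`; in the plane `sum = 1` of the triangle both lines meet in one
point only, `z = z'` (the intersection point of the lines: a point of sum one supported in the
triangle is determined by two independent linear equations; the lines are different as
`D ≠ 0` somewhere on the other line). (3) So `(s, s') ↦ (⌊L s⌋, ⌊L' s'⌋)` is a bijection from the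
set of meeting parameters in `[0,1)²` to the set of crossing pairs in `[0, L) × [0, L')`.
(4) Straightness: the finitely many common points (mod periods) lie in open triangles, so
by SpecG3 for small `δ` `f = g` near them; so `f (c (s + τ)) = f (c s) + τ L D i` for small `τ` and
similarly for `c'`; `D i` and `D' j` are linearly independent because the segments are not parallel
(`D` is not constant on the segment `j`) and `g` is injective on the plane of the triangle:
`P b - P a`, `P t - P a` are linearly independent by `hfan1` (and `hT2`). By periodicity this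
extends to all `s, t : ℝ`. -/
def SpecMTS : Prop := ∀ (N : ℕ) (S : PolyData N), S.IsSurf → ∀ C C' : Crv N, C.IsCrv S →
  C'.IsCrv S → (∀ i j, C.pt i ≠ C'.pt j) →
  (∀ i j, C.tri i = C'.tri j →
    Crv.Cross (C.a i) (C.b i) (C.t i) (C.pt i) (C.pt (i + 1)) (C'.pt j) (C'.pt (j + 1)) ∨
    Crv.Sep (C.a i) (C.b i) (C.t i) (C.pt i) (C.pt (i + 1)) (C'.pt j) (C'.pt (j + 1))) →
  ∀ m : ℕ, {p : ℤ × ℤ | 0 ≤ p.1 ∧ p.1 < C.L ∧ 0 ≤ p.2 ∧ p.2 < C'.L ∧ C.tri p.1 = C'.tri p.2 ∧
    Crv.Cross (C.a p.1) (C.b p.1) (C.t p.1) (C.pt p.1) (C.pt (p.1 + 1)) (C'.pt p.2)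
      (C'.pt (p.2 + 1))}.encard = m →
  ∀ ψ, IsPsi ψ → ∀ᶠ δ in nhdsWithin (0 : ℝ) (Set.Ioi 0), ∀ c c' : ℝ → Realization S.T,
    (∀ s, (c s).1 = C.c0 s) → (∀ s, (c' s).1 = C'.c0 s) → Meets (S.f ψ δ) c c' m

/-- HTW (80 lines; uses CC, LFT, FRM, NRX, SpecG1). Half-twists: from FRM take `X, Nn`; the
hypotheses of LFT follow from `comb`, `mid`, `Frm.hD`, `hN`, `hD'`, `hN'` (positive combinations of
vectors with positive inner product); LFT gives `u`; normality from NRX (`Nrm` is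
invariant under scaling of `n`), `fwd` gives the forward condition (scale `X`). -/
def SpecHTW : Prop := ∀ (N : ℕ) (S : PolyData N), S.IsSurf → ∀ C : Crv N, C.IsCrv S →
  ∀ (G : Frm) (q : ZMod 4), Frm.IsFrm S C G q → ∀ ψ, IsPsi ψ →
  ∀ᶠ δ in nhdsWithin (0 : ℝ) (Set.Ioi 0), ∀ c : ℝ → Realization S.T, (∀ s, (c s).1 = C.c0 s) →
    ∀ (_ : ChartedSpace E2 (Realization S.T)), IsManifold (𝓡 2) ∞ (Realization S.T) →
    ContMDiff (𝓡 2) 𝓘(ℝ, E3) ∞ (S.f ψ δ) → HasHalfTwists (S.f ψ δ) c q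

/-- A complete combinatorial model. -/
def Model (χ : ℤ) (ori : Prop) (β : ℤ) : Prop :=
  ∃ (N : ℕ) (S : PolyData N), S.IsSurf ∧ eulerChar S.T = χ ∧
  ∃ (C : Fin (2 - χ).toNat → Crv N) (G : Fin (2 - χ).toNat → Frm)
    (q : Fin (2 - χ).toNat → ZMod 4) (A : Matrix (Fin (2 - χ).toNat) (Fin (2 - χ).toNat) ℕ),
    (∀ i, (C i).IsCrv S) ∧ (∀ i, Frm.IsFrm S (C i) (G i) (q i)) ∧
    (∀ i j, i ≠ j → (∀ k l, (C i).pt k ≠ (C j).pt l) ∧
      (∀ k l, (C i).tri k = (C j).tri l →
        Crv.Cross ((C i).a k) ((C i).b k) ((C i).t k) ((C i).pt k) ((C i).pt (k + 1))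
          ((C j).pt l) ((C j).pt (l + 1)) ∨
        Crv.Sep ((C i).a k) ((C i).b k) ((C i).t k) ((C i).pt k) ((C i).pt (k + 1))
          ((C j).pt l) ((C j).pt (l + 1))) ∧
      {p : ℤ × ℤ | 0 ≤ p.1 ∧ p.1 < (C i).L ∧ 0 ≤ p.2 ∧ p.2 < (C j).L ∧
        (C i).tri p.1 = (C j).tri p.2 ∧
        Crv.Cross ((C i).a p.1) ((C i).b p.1) ((C i).t p.1) ((C i).pt p.1) ((C i).pt (p.1 + 1))
          ((C j).pt p.2) ((C j).pt (p.2 + 1))}.encard = A i j) ∧
    (∀ i, (A i i = 0 ∧ (q i = 0 ∨ q i = 2)) ∨ (A i i = 1 ∧ (q i = 1 ∨ q i = 3))) ∧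
    (A.map (Nat.cast : ℕ → ZMod 2)).det ≠ 0 ∧ (ori ↔ ∀ i, q i = 0 ∨ q i = 2) ∧
    ∑ x : Fin (2 - χ).toNat → Fin 2, Complex.I ^ (∑ i, (x i : ℕ) * (q i).val +
        2 * ∑ i, ∑ j ∈ Finset.univ.filter (fun j => i < j), (x i : ℕ) * (x j : ℕ) * A i j) =
      (Real.sqrt 2 : ℂ) ^ (2 - χ).toNat * Complex.exp (2 * Real.pi * Complex.I * (β : ℂ) / 8)

/-- ASM (80 lines; uses PSI, CC, MTS, HTW, SpecGM, SpecGT, SpecGC). Choose `ψ` by PSI and then `δ`
in the intersection of finitely many eventual sets. -/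
def SpecASM : Prop := ∀ (χ : ℤ) (ori : Prop) (β : ℤ), Model χ ori β → HasTight χ ori β

end Pool.Agent.Lib.MP_0b1f3c_gt.TI
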