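import Pool.Agent.Lib.MP_0b1f3c_gt.TI.SpecC

/-!
# The generic theorem: every `PolyData` with `IsSurf` has smooth tight smoothings

Module `XXX` : file `TI/XXX.lean`, `import Pool.Agent.Lib.MP_0b1f3c_gt.TI.SpecG`,
`theorem specXXX (hYYY : SpecYYY) ... : SpecXXX`, any other Spec of this file, of `CDefs` and of
`SpecC` may be a hypothesis, own lemmas in `namespace Pool.Agent.Lib.MP_0b1f3c_gt.TI.XXXM`.
The goals are the Specs `SpecG1, SpecG2, SpecG3, SpecGM, SpecGT, SpecGC` of `CDefs.lean`.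

Notation in the docstrings: `x` is a point of `|T|` (`Realization S.T`); `X, Y, Z` at a point `p`
of `E³` mean `S.X v (p - S.P v)` etc.; `w = S.r v e` the other end of the edge `e` of `v`;
`σ = S.sig v e`. Everywhere `δ > 0` is small: `∀ᶠ δ in 𝓝[>] 0`. For a finite number of such
statements use `Filter.Eventually.and` and `Filter.eventually_all` (all index types are finite).
-/

open scoped Manifold ContDiff InnerProductSpace Topology
open Filter Set

noncomputable section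

namespace Pool.Agent.Lib.MP_0b1f3c_gt.TI

/-! ## Definitions -/

/-- the polyhedral version of `locF` -/
def locF0 (κ X Y Z : ℝ) : ℝ := max Z (if κ = 1 then min X Y else max X Y)

/-- On the polyhedral cone `locF0 κ X Y Z = 0` this function is `≥ 0` and vanishes exactly on the
three edges. Saddle: `- min X Y` on the floor `Z = 0`, `min (-Z) (max X Y)` on the walls. Convex:
the second smallest of the numbers `-X, -Y, -Z`. -/
def rho (κ X Y Z : ℝ) : ℝ :=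
  if κ = 1 then max (-min X Y) (min (-Z) (max X Y))
  else min (min (max (-X) (-Y)) (max (-Y) (-Z))) (max (-X) (-Z))

/-- `f` maps `U` homeomorphically onto an open part of the smooth graph `F = 0` over the plane:
`F` grows with speed one in the direction `d`, the linear map `L` is the projection along `d`. -/
structure IsPatch {M : Type} [TopologicalSpace M] (f : M → E3) (U : Set M) (F : E3 → ℝ) (d P : E3)
    (L : E3 →L[ℝ] E2) : Prop where
  op : IsOpen U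
  smooth : ContDiff ℝ ∞ F
  trans : ∀ (p : E3) (c : ℝ), F (p + c • d) = F p + c
  Ld : L d = 0
  surj : Function.Surjective L
  ker : ∀ p, L p = 0 → ∃ c : ℝ, p = c • d
  van : ∀ x ∈ U, F (f x) = 0
  emb : Topology.IsOpenEmbedding (fun x : U => L (f x.1 - P))

namespace PolyData

variable {N : ℕ} (S : PolyData N)

/-- projection of `E³` along `d v` -/
def L (v : Fin N) : E3 →L[ℝ] E2 :=
  ((EuclideanSpace.equiv (Fin 2) ℝ).symm : (Fin 2 → ℝ) →L[ℝ] E2).comp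
    (ContinuousLinearMap.pi ![S.X v - S.Z v, S.Y v - S.Z v])

theorem L_apply (v : Fin N) (p : E3) : S.L v p = !₂[S.X v p - S.Z v p, S.Y v p - S.Z v p] := by
  ext i
  fin_cases i <;> simp [L]

theorem j_eq (v : Fin N) (x : Fin N → ℝ) : S.j v x = S.L v (S.g x - S.P v) := by
  rw [L_apply]; rfl

/-- relative sign of the local functions at the two ends of the edge `e` of `v` -/
def sig (v : Fin N) (e : Fin 3) : ℝ := S.sg v e * S.sg (S.r v e) (S.op v e)

/-- the blending parameter along the edge `e` of `v` (`0` near `v`, `1` near the other end) -/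
def theta (v : Fin N) (e : Fin 3) (x : Fin N → ℝ) : ℝ := (1 + tau (x (S.r v e)) - tau (x v)) / 2

/-- zone of the vertex `v` -/
def zone1 (v : Fin N) : Set (Realization S.T) := {x | ∀ u, u ≠ v → x.1 u < 1 / 8}

/-- zone of the edge `e` of `v` -/
def zone2 (v : Fin N) (e : Fin 3) : Set (Realization S.T) :=
  {x | 1 / 9 < x.1 v ∧ 1 / 9 < x.1 (S.r v e) ∧ 15 / 16 < x.1 v + x.1 (S.r v e)}

/-- zone where `f = g` -/
def zone3 : Set (Realization S.T) := {x | ∀ v e, x.1 v + x.1 (S.r v e) < 31 / 32}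

end PolyData

/-! ## Part 1: the function `ψ` and the local functions -/

/-- Elementary consequences of `IsPsi` (60-100 lines).
`deriv ψ` is `0` on `(-∞, -1]` and `1` on `[1, ∞)` (`ψ` is constant resp. the identity on the open
half lines; at the end points by continuity of `deriv ψ`, or because the derivative equals the one
sided derivative). By `dmono` it is between `0` and `1` on `[-1, 1]`, and strictly between them
inside. Hence `ψ` and `t - ψ t` are monotone (`monotone_of_deriv_nonneg`), `ψ ≥ ψ (-1) = 0` resp.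
`ψ t - t ≥ ψ 1 - 1 = 0`..., `ψ t ≤ max 0 t + 1` (for `t ≤ 1` : `ψ t ≤ ψ 1 = 1`).
`dsym`: differentiate `sym`. -/
structure PsiFacts (ψ : ℝ → ℝ) : Prop where
  nonneg : ∀ t, 0 ≤ ψ t
  ge : ∀ t, t ≤ ψ t
  le : ∀ t, ψ t ≤ max 0 t + 1
  mono : Monotone ψ
  lip : ∀ s t, s ≤ t → ψ t - ψ s ≤ t - s
  d0 : ∀ t, t ≤ -1 → deriv ψ t = 0
  d1 : ∀ t, 1 ≤ t → deriv ψ t = 1
  dio : ∀ t, -1 < t → t < 1 → 0 < deriv ψ t ∧ deriv ψ t < 1
  dsym : ∀ t, deriv ψ t + deriv ψ (-t) = 1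

def SpecPSF : Prop := ∀ ψ, IsPsi ψ → PsiFacts ψ

/-- Elementary facts on `mx`, `mn`, `locF` (100 lines). `psiD ψ δ t = δ * ψ (t / δ)`, all from
`PsiFacts`. `mn a b = b - psiD (b - a) = a - psiD (a - b)` by `sym`. -/
structure LocFacts (ψ : ℝ → ℝ) (δ : ℝ) : Prop where
  mx_comm : ∀ a b, mx ψ δ a b = mx ψ δ b a
  mx_ge : ∀ a b, max a b ≤ mx ψ δ a b
  mx_le : ∀ a b, mx ψ δ a b ≤ max a b + δ
  mx_left : ∀ a b, b ≤ a - δ → mx ψ δ a b = a
  mx_add : ∀ a b c, mx ψ δ (a + c) (b + c) = mx ψ δ a b + c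
  mn_eq : ∀ a b, mn ψ δ a b = -mx ψ δ (-a) (-b)
  smooth : ∀ κ, ContDiff ℝ ∞ (fun p : ℝ × ℝ × ℝ => locF ψ δ κ p.1 p.2.1 p.2.2)
  add : ∀ κ X Y Z c, locF ψ δ κ (X + c) (Y + c) (Z + c) = locF ψ δ κ X Y Z + c
  close : ∀ κ X Y Z, |locF ψ δ κ X Y Z - locF0 κ X Y Z| ≤ 2 * δ
  /-- away from the edges of the cone nothing is changed. Saddle, floor `Z = 0`:
  `mn X Y ≤ min X Y ≤ -2δ`, so `mx 0 (mn X Y) = 0`. Saddle, wall: `Z ≤ -2δ`, one of `X, Y` is
  `0` and the other `≥ 2δ`, so `mn X Y = 0`, `mx Z 0 = 0`. Convex: one of the three is `0`, the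
  other two are `≤ -2δ` (`rho ≥ 2δ`), so both maxima are not changed. -/
  act : ∀ κ X Y Z, (κ = 1 ∨ κ = -1) → locF0 κ X Y Z = 0 → 2 * δ ≤ rho κ X Y Z →
    locF ψ δ κ X Y Z = 0

def SpecLOC : Prop := ∀ ψ, IsPsi ψ → ∀ δ > 0, LocFacts ψ δ

/-- Local maxima of linear functions on the smoothed cone (150 lines, one variable calculus).

(1) Lemma. Let `E t = a * psiD ψ δ (-t) + b * psiD ψ δ t`, `a ≠ 0`, `b ≠ 0`, with a local maximum
at `t₀`. Then `a < 0`, `b < 0`, `|t₀| < δ` and `deriv ψ (t₀/δ) = a/(a+b)`; in particular `t₀` is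
determined by `a, b` (strict monotonicity of `deriv ψ` on `[-1,1]`).
Proof. `E' t = -a (1 - p) + b p = -a + (a+b) p` with `p = ψ'(t/δ)` (`dsym`), `E' t₀ = 0`. If
`t₀ ≥ δ` then `p = 1`, `E' = b ≠ 0`; if `t₀ ≤ -δ` then `p = 0`, `E' = -a ≠ 0`. So `|t₀| < δ`,
`0 < p < 1`, `a = (a+b) p`, `b = (a+b)(1-p)`: `a, b, a+b` have the same sign. If `a + b > 0` then
`E'` is strictly increasing near `t₀` with `E' t₀ = 0`, so `E > E t₀` to the right of `t₀` (e.g.
`strictMonoOn_of_deriv_pos` on `[t₀, t₀+ε]`), a contradiction.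

(2) Parametrization of `{locF = 0}` by `(s, τ) ∈ ℝ²`, with `D = psiD ψ δ`:
saddle: `X = -D(-s) + D(-τ)`, `Y = -D(-s) + D(τ)`, `Z = -D(s)`
 (`τ = Y - X`, `m = mn X Y = -D(-s)`, `s = m - Z`, use `D(t) - D(-t) = t`);
convex: `X = -D(-s) - D(τ)`, `Y = -D(-s) - D(-τ)`, `Z = -D(s)`
 (`τ = Y - X`, `m = mx X Y = -D(-s)`, `s = m - Z`).
A point `(x,y,z)` with `locF = 0` has `s₀ = m - z`, `τ₀ = y - x`; the maps are continuous, all their
values satisfy `locF = 0`. So `s ↦ h` and `τ ↦ h` (other parameter fixed) have local maxima at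
`s₀, τ₀`, `h = αX + βY + γZ`.
saddle: `h = E_{-(α+β), -γ}(s) + E_{α, β}(τ)`: by (1) `α, β < 0` (from `τ`), so
`-(α+β) > 0`, contradiction with (1) for `s` (`-(α+β) ≠ 0`).
convex: `h = E_{-(α+β), -γ}(s) + E_{-β, -α}(τ)`: by (1) `α, β > 0` and `τ₀` is determined; then
`-(α+β) ≠ 0` and by (1) `γ > 0`, `s₀` is determined. Hence `(x, y, z)` is determined (if there is
no local maximum at all, `x₀ = y₀ = z₀ = 0`), and `|D(t)| ≤ 2δ` for `|t| < δ` gives the bound. -/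
def SpecLMX : Prop := ∀ ψ, IsPsi ψ → ∀ δ > 0, ∀ κ : ℝ, (κ = 1 ∨ κ = -1) →
  ∀ α β γ : ℝ, α ≠ 0 → β ≠ 0 → γ ≠ 0 → ∃ x₀ y₀ z₀ : ℝ, ∀ x y z : ℝ, locF ψ δ κ x y z = 0 →
    (∀ᶠ p : ℝ × ℝ × ℝ in 𝓝 (x, y, z), locF ψ δ κ p.1 p.2.1 p.2.2 = 0 →
      α * p.1 + β * p.2.1 + γ * p.2.2 ≤ α * x + β * y + γ * z) →
    κ = -1 ∧ 0 < α ∧ 0 < β ∧ 0 < γ ∧ x = x₀ ∧ y = y₀ ∧ z = z₀ ∧
      |x| ≤ 4 * δ ∧ |y| ≤ 4 * δ ∧ |z| ≤ 4 * δ

/-! ## Part 2: the complex -/

/-- `|T|` is compact (40 lines): closed (finite union over `t ∈ T` of closed sets) and contained in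
the cube `[0,1]^N`. -/
def SpecCPT : Prop := ∀ (N : ℕ) (T : Finset (Finset (Fin N))), IsCompact (Realization T)

/-- `|T|` is connected (100 lines). For `t ∈ T` the set of points supported in `t` is convex
(preconnected), and contains the vertices (`Pi.single a 1`, `a ∈ t`). By `hconn` and induction on
`ReflTransGen` all vertices (every `v` is in some triangle by `hT1`) are in one connected component
(`connectedComponentIn` or `IsPreconnected.union`), and every point is joined to a vertex.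
Nonempty by `hN`, `hT1`. -/
def SpecCNN : Prop := ∀ (N : ℕ) (S : PolyData N), S.IsSurf → IsConnected (Realization S.T)

/-- The fan lemma: the cones over consecutive vectors tile the plane (150 lines).
Put `s i = κ cr (q i) y`, `c i = κ cr (q 0) (q i)`, `D i = κ cr (q i) (q (i+1)) > 0` (`i < k`).
Algebraic identity (Pluecker; `ring` with `κ^2 = 1`):
`(P)  c i * s (i+1) = c (i+1) * s i - s 0 * D i`. A *descent* is an `i < k` with `0 ≤ s i` and
`s (i+1) < 0`; we show that there is exactly one. Upper part: `i < k3` (there `c i ≥ 0`, also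
`c 0 = 0`), lower part: `k3 ≤ i < k` (`c i < 0`); `s k = s 0`, `c k = 0`. We have `k3 < k`:
otherwise `c (k-1) ≥ 0`, but `D (k-1) = κ cr (q (k-1)) (q 0) = - c (k-1) > 0`.
CASE `s 0 > 0`. Upper rule: `i + 1 < k3`, `s i ≤ 0` ⟹ `s (i+1) < 0` (by (P) `c i s (i+1) < 0`).
Lower rule: `k3 ≤ i`, `i + 1 < k`, `s i ≥ 0` ⟹ `s (i+1) > 0` (by (P) `c i s (i+1) < 0`, `c i < 0`);
and `s k > 0`. So no descent is `≥ k3`, and after a descent `i < k3` all `s` with index in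
`(i, k3)` are negative, so there is no second one `< k3`. Existence: by (P) at `i = k3 - 1`,
`c (k3-1) s k3 - c k3 s (k3-1) < 0`, so one of `s (k3-1)`, `s k3` is negative; between
`s 0 > 0` and it there is a descent (discrete induction).
CASE `s 0 < 0`. Upper rule: `i + 1 < k3`, `s i ≥ 0` ⟹ `s (i+1) > 0`; so a descent `i` has
`i + 1 ≥ k3`. Lower rule: `k3 ≤ i`, `i + 1 < k`, `s i ≤ 0` ⟹ `s (i+1) < 0`; so after a
descent all `s` are negative: no second one. Existence: by (P) at `k3 - 1` one of `s (k3-1)`,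
`s k3` is positive, and `s k = s 0 < 0`.
CASE `s 0 = 0`: `y = λ q 0` with `λ ≠ 0` (`q 0 ≠ 0` as `D 0 ≠ 0`), `s i = - λ c i`.
`λ < 0`: a descent is `c i ≥ 0`, `c (i+1) < 0`, so exactly `i = k3 - 1`.
`λ > 0`: a descent is `c i ≤ 0`, `c (i+1) > 0` (so `i + 1 < k3`, `c i = 0`); `i = 0` is one
(`c 1 = D 0 > 0`). Suppose `0 < i`, `c i = 0`, `c (i+1) > 0`: `q i = ν q 0`,
`c (i+1) = D i / ν`, so `ν > 0`, and `D (i-1) = κ cr (q (i-1)) (ν q 0) = - ν c (i-1) ≤ 0`,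
contradiction. -/
def SpecFAN : Prop := ∀ (κ : ℝ) (k k3 : ℕ) (q : ℕ → ℝ × ℝ), (κ = 1 ∨ κ = -1) → q k = q 0 →
  0 < k3 → k3 ≤ k → (∀ i < k, 0 < κ * cr (q i) (q (i + 1))) →
  (∀ i, 0 < i → i < k3 → 0 ≤ κ * cr (q 0) (q i)) →
  (∀ i, k3 ≤ i → i < k → κ * cr (q 0) (q i) < 0) →
  ∀ y : ℝ × ℝ, y ≠ 0 → ∃! i, i < k ∧ 0 ≤ κ * cr (q i) y ∧ κ * cr (q (i + 1)) y < 0

/-- The star of `v` is the plane (200 lines).
`S.j v x = Σ_{u ≠ v} x u • (Q of u)` for `Σ x = 1`. For `y ≠ 0` let `i` be the index of `SpecFAN`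
(applied to `q = S.Q v`), `D = κ cr (Q i) (Q (i+1)) > 0`, `a = -κ cr (Q (i+1)) y / D > 0`,
`b = κ cr (Q i) y / D ≥ 0`; then `y = a Q i + b Q (i+1)` (linear algebra in `ℝ²`). Define `Λ y` :
`a` at `nb i`, `b` at `nb (i+1)`, `1 - a - b` at `v`, `0` elsewhere; `Λ 0 = ` the vertex `v`
(`Pi.single v 1`).
*Key*: on the closed cone `C_i = {y | 0 ≤ κ cr (Q i) y ∧ κ cr (Q (i+1)) y ≤ 0}` (`i < k`) `Λ y` is
given by the formula with index `i`: if `κ cr (Q (i+1)) y < 0` the index is `i`; if it is `0` and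
`y ≠ 0` then `y = b Q (i+1)`, `b > 0`, and the index is `i + 1` (or `0` if `i + 1 = k`), with
`a = b`, `b = 0` there; both formulas agree (`nb k = nb 0`). The `C_i` are closed and cover the
plane (`SpecFAN`), so `Λ` is continuous (`LocallyFinite.continuous`, finite index type
`Fin (k v)`).
`Σ Λ y = 1` (`hne`, `hnbinj`: the three vertices are distinct; for `i + 1 = k` use `nb k = nb 0`,
`0 < k1 < k2 < k` so `k ≥ 3`). If `Λ y v > 0` then `Λ y ∈ |T|` (`hT1`). `S.j v (Λ y) = y`.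
Last: if `x ∈ |T|`, `x v > 0`, the support of `x` is in some `t ∋ v`,
`t = {v, nb i, nb (i+1)}` (`hT2`), `S.j v x = x_{nb i} Q i + x_{nb (i+1)} Q (i+1) ∈ C_i`, and the
formula gives `x` back. -/
def SpecSTR : Prop := ∀ (N : ℕ) (S : PolyData N), S.IsSurf → ∀ v : Fin N,
  ∃ Λ : E2 → (Fin N → ℝ), Continuous Λ ∧ (∀ y, 0 < Λ y v → Λ y ∈ Realization S.T) ∧
    (∀ y, S.j v (Λ y) = y) ∧ (∀ x ∈ Realization S.T, 0 < x v → Λ (S.j v x) = x)

/-- `j v` is an open embedding of every open part of the open star of `v` (40 lines, from STR: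
injective, continuous, and the image of an open `O` is `{y | 0 < Λ y v ∧ Λ y ∈ O}`). -/
def SpecJOP : Prop := ∀ (N : ℕ) (S : PolyData N), S.IsSurf → ∀ (v : Fin N)
  (U : Set (Realization S.T)), IsOpen U → (∀ x ∈ U, 0 < x.1 v) →
  Topology.IsOpenEmbedding (fun x : U => S.j v x.1.1)

/-- Signs of the local coordinates of the link (150 lines). With `κ = κ v`, `X_i = DX v i` etc.
Cross products (all by `simp [cr, Q]; ring` after substituting the vanishing coordinate):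
face `X = 0` (`i, i+1 ≤ k1`): `cr (Q i) (Q (i+1)) = Y_i Z_{i+1} - Z_i Y_{i+1}`;
face `Y = 0`: `= Z_i X_{i+1} - X_i Z_{i+1}`; face `Z = 0`: `= X_i Y_{i+1} - Y_i X_{i+1}`.
`X_0 = Y_0 = 0`, `Z_0 < 0` (`hY` at `i = k`, `hper`): `cr (Q 0) (Q i) = Z_0 (X_i - Y_i)`.
*Convex* (`κ = -1`): all coordinates are `≤ 0` (`hconv`), and `hfan1` gives at once
`Z_i Y_{i+1} > Y_i Z_{i+1} ≥ 0` in face `X`, etc.
*Saddle* (`κ = 1`). `κ cr (Q 0) (Q k1) = -Z_0 Y_{k1} > 0`, so `k1 < k3`; `κ cr (Q 0) (Q k2) =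
Z_0 X_{k2} < 0`, so `k3 ≤ k2`. Face X: `Y_i ≥ 0` for `i ≤ k1` (`hfan2`). If `Z_i ≥ 0` for some
`i < k1` then `Y_i Z_{i+1} > Z_i Y_{i+1} ≥ 0`, so `Z_{i+1} > 0`, and inductively `Z_{k1} > 0`,
contradiction; so `Z_i < 0` for `i < k1`, and `-Z_i Y_{i+1} > -Y_i Z_{i+1} ≥ 0` gives
`Y_{i+1} > 0`. Face Y: `X_i > 0` for `k2 ≤ i < k` (`hfan3`, `cr (Q 0) (Q i) = Z_0 X_i`);
`Z_{k2} = 0` and `X_i Z_{i+1} < Z_i X_{i+1} ≤ 0` inductively.
Face Z, `k1 ≤ i < k3`: `Y_i ≥ X_i` (`hfan2`; `i = k1`: `Y > 0 = X`). Claim `X_i < 0` for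
`k1 < i < k3`: `i = k1 + 1`: `-Y_{k1} X_{i} > 0`. Step: `X_i < 0`, `i + 1 < k3`, suppose
`X_{i+1} ≥ 0`; `Y_{i+1} ≥ X_{i+1} ≥ 0`, `X_i Y_{i+1} > Y_i X_{i+1}`; but `Y_i ≥ X_i`,
`X_i Y_{i+1} ≤ X_i X_{i+1} ≤ Y_i X_{i+1}`, contradiction. (If `k1 + 1 = k3` only the first formula
`X_{k1+1} < 0` is used, it holds in any case.) Symmetrically `Y_i < 0` for `k3 ≤ i < k2`:
`i = k2 - 1`: `-Y_i X_{k2} > 0`; step down: `Y_{i+1} < 0`, `k3 ≤ i`, suppose `Y_i ≥ 0`, `X_i > Y_i`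
(`hfan3`), `X_i Y_{i+1} ≤ Y_i Y_{i+1} ≤ Y_i X_{i+1}` (`Y_{i+1} ≤ X_{i+1}`), contradiction.
`c'`: `k1 ≤ i < k2`, `(p, q) = a (X_i, Y_i) + b (X_{i+1}, Y_{i+1})`. If `i + 1 < k3`: `p < 0`. If
`k3 ≤ i`: `q < 0`. If `i + 1 = k3`: `X_i ≤ 0`, `Y_{i+1} ≤ 0`; if `a = 0` : `i + 1 ≠ k2`, `q < 0`; if
`b = 0`: `i ≠ k1`, `p < 0`; else suppose `p, q ≥ 0`: `b X_{i+1} ≥ -a X_i ≥ 0`,
`a Y_i ≥ -b Y_{i+1} ≥ 0`, multiply: `Y_i X_{i+1} ≥ X_i Y_{i+1}`, contradiction with `hfan1`. -/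
structure SgnFacts {N : ℕ} (S : PolyData N) (v : Fin N) : Prop where
  a : ∀ i < S.k1 v, S.DZ v i < 0 ∧ 0 < S.κ v * S.DY v (i + 1)
  b : ∀ i, S.k2 v ≤ i → i < S.k v → 0 < S.κ v * S.DX v i ∧ S.DZ v (i + 1) < 0
  c : S.κ v = -1 → ∀ i, S.k1 v ≤ i → i < S.k2 v → S.DX v (i + 1) < 0 ∧ S.DY v i < 0
  c' : S.κ v = 1 → ∀ i, S.k1 v ≤ i → i < S.k2 v → ∀ a b : ℝ, 0 ≤ a → 0 ≤ b → 0 < a + b →
    (i = S.k1 v → 0 < b) → (i + 1 = S.k2 v → 0 < a) →
    min (a * S.DX v i + b * S.DX v (i + 1)) (a * S.DY v i + b * S.DY v (i + 1)) < 0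
  d : S.DX v (S.k1 v + 1) < 0 ∧ S.DY v (S.k2 v - 1) < 0
  z : S.DX v 0 = 0 ∧ S.DY v 0 = 0

def SpecSGN : Prop := ∀ (N : ℕ) (S : PolyData N), S.IsSurf → ∀ v, SgnFacts S v

/-- The star of `v` lies on the polyhedral cone, and only the three edges lie on its edges (120
lines). The support of `x` is in `t = {v, nb i, nb (i+1)}` (`hT2`), and with `a = x (nb i)`,
`b = x (nb (i+1))` : `X = a X_i + b X_{i+1}` etc. (as `Σ x = 1`, `g x - P v = Σ x u (P u - P v)`).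
Face X (`i < k1`): `X = 0`, `κ Y ≥ 0`, `Z ≤ 0`, with `κ Y > 0` unless (`i = 0` and `b = 0`), `Z < 0`
unless `i + 1 = k1`, `a = 0` (or `a = b = 0`) (SGN a). Similarly face Y (SGN b). Face Z: `Z = 0`;
convex: `X, Y ≤ 0`, `X < 0` unless `i = k1, b = 0`, `Y < 0` unless `i + 1 = k2`, `a = 0`; saddle:
`c'`. The excluded cases are exactly: `x v + x w = 1` for an end `w ∈ {nb 0, nb k1, nb k2}`
of an edge (also `a = b = 0`: `x v = 1`, `x v + x (r v 0) = 1`). -/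
def SpecCNE : Prop := ∀ (N : ℕ) (S : PolyData N), S.IsSurf → ∀ v, ∀ x ∈ Realization S.T, 0 < x v →
  locF0 (S.κ v) (S.X v (S.g x - S.P v)) (S.Y v (S.g x - S.P v)) (S.Z v (S.g x - S.P v)) = 0 ∧
  ((∀ e, x v + x (S.r v e) ≠ 1) → 0 < rho (S.κ v) (S.X v (S.g x - S.P v))
    (S.Y v (S.g x - S.P v)) (S.Z v (S.g x - S.P v)))

/-- The two triangles at an edge (120 lines). `w = r v e = nb v m`, `m = 0, k1, k2`.
`u₁`: the other vertex of the triangle where the form `A` vanishes, `u₂`: where `B` vanishes: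
`e = 0`: `A = -κ X`, `B = -κ Y`: `u₁ = nb 1` (face X), `u₂ = nb (k-1)` (face Y);
`e = 1`: `A = X`, `B = Z`: `u₁ = nb (k1-1)`, `u₂ = nb (k1+1)`;
`e = 2`: `A = Y`, `B = Z`: `u₁ = nb (k2+1)`, `u₂ = nb (k2-1)`.
If `x v, x w > 0` the support of `x` is in a triangle `{v, nb i, nb (i+1)}` containing `w`, so
`i = m` or `i + 1 = m` (for `m = 0` : `i + 1 = k`) by `hnbinj`. Signs from SGN. -/
def SpecED1 : Prop := ∀ (N : ℕ) (S : PolyData N), S.IsSurf → ∀ v e,
  ∃ (u₁ u₂ : Fin N) (L₁ L₂ : ℝ), 0 < L₁ ∧ 0 < L₂ ∧ u₁ ≠ v ∧ u₂ ≠ v ∧ u₁ ≠ S.r v e ∧ u₂ ≠ S.r v e ∧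
    ∀ x ∈ Realization S.T, 0 < x v → 0 < x (S.r v e) →
      ((∀ i, x i ≠ 0 → i = v ∨ i = S.r v e ∨ i = u₁) ∧
        S.A v e (S.g x - S.P v) = 0 ∧ S.B v e (S.g x - S.P v) = -(L₁ * x u₁)) ∨
      ((∀ i, x i ≠ 0 → i = v ∨ i = S.r v e ∨ i = u₂) ∧
        S.B v e (S.g x - S.P v) = 0 ∧ S.A v e (S.g x - S.P v) = -(L₂ * x u₂))

/-- Linear algebra at an edge (80 lines). `r v` is injective (`0 < k1 < k2 < k`, `hnbinj`), so
`op` is inverse: `r (r v (op..))`: from `hop v e` and `hop (r v e) (op v e)` :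
`r v (op (r v e) (op v e)) = r v e`. `A` and `B` vanish on `P w - P v` (`hX, hY, hZ` at `0, k1, k2`,
with `nb k = nb 0`) and equal `sg` on `d v`. By `hform` at the other end `A v e` and `B v e` equal
`sg w (op v e)` on `d w`; so both vanish on `σ d w - d v`; the common kernel of `A v e`, `B v e` is
spanned by `P w - P v`: the third form does not vanish on `P w - P v` (`hr0, hr1, hr2`), subtract
a multiple and use `hinj`. -/
structure EdgFacts {N : ℕ} (S : PolyData N) (v : Fin N) (e : Fin 3) : Prop where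
  rne : S.r v e ≠ v
  rinj : ∀ e', S.r v e' = S.r v e → e' = e
  opop : S.op (S.r v e) (S.op v e) = e
  sg2 : S.sg v e * S.sg v e = 1
  sig2 : S.sig v e * S.sig v e = 1
  AP : S.A v e (S.P (S.r v e) - S.P v) = 0
  BP : S.B v e (S.P (S.r v e) - S.P v) = 0
  Ad : S.A v e (S.d v) = S.sg v e
  Bd : S.B v e (S.d v) = S.sg v e
  par : ∃ c : ℝ, S.sig v e • S.d (S.r v e) - S.d v = c • (S.P (S.r v e) - S.P v)
  mxw : ∀ ψ δ (p : E3), IsPsi ψ → 0 < δ →
    mx ψ δ (S.A (S.r v e) (S.op v e) (p - S.P (S.r v e)))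
      (S.B (S.r v e) (S.op v e) (p - S.P (S.r v e))) =
    mx ψ δ (S.A v e (p - S.P v)) (S.B v e (p - S.P v))
  Lne : S.L v (S.P (S.r v e) - S.P v) ≠ 0

def SpecEFA : Prop := ∀ (N : ℕ) (S : PolyData N), S.IsSurf → ∀ v e, EdgFacts S v e

/-- The local function `F v` (60 lines, from `LocFacts` and `hd`). -/
structure FFacts {N : ℕ} (S : PolyData N) (ψ : ℝ → ℝ) (δ : ℝ) (v : Fin N) : Prop where
  smooth : ContDiff ℝ ∞ (S.F ψ δ v)
  trans : ∀ (p : E3) (c : ℝ), S.F ψ δ v (p + c • S.d v) = S.F ψ δ v p + c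
  Ld : S.L v (S.d v) = 0
  surj : Function.Surjective (S.L v)
  ker : ∀ p, S.L v p = 0 → ∃ c : ℝ, p = c • S.d v
  bd : ∀ x ∈ Realization S.T, 0 < x v → |S.F ψ δ v (S.g x)| ≤ 2 * δ

/-- (60 lines) `surj`: `(X, Y, Z) : E³ → ℝ³` is injective, hence surjective (`finrank`);
`ker`: if `X p = Y p = Z p = c` then `p - c d` is killed by the three forms (`hinj`);
`bd`: CNE and `LocFacts.close`. -/
def SpecFFA : Prop := ∀ (N : ℕ) (S : PolyData N), S.IsSurf → ∀ ψ, IsPsi ψ → ∀ δ > 0, ∀ v,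
  FFacts S ψ δ v

/-! ## Part 3: small `δ` -/

/-- Compact sets in the star of `v` avoiding the edges (50 lines): by CNE the continuous function
`rho (..)` is positive on `C`, so `≥ ρ₀ > 0`; if `2δ ≤ ρ₀` use `LocFacts.act`. -/
def SpecDZO : Prop := ∀ (N : ℕ) (S : PolyData N), S.IsSurf → ∀ ψ, IsPsi ψ → ∀ (v : Fin N)
  (C : Set (Fin N → ℝ)), IsCompact C → C ⊆ Realization S.T → (∀ x ∈ C, 0 < x v) →
  (∀ x ∈ C, ∀ e, x v + x (S.r v e) ≠ 1) → ∀ᶠ δ in 𝓝[>] (0 : ℝ), ∀ x ∈ C, S.F ψ δ v (S.g x) = 0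

/-- (30 lines) DZO for `C = {x ∈ |T| | 1/9 ≤ x v ∧ ∀ e, x v + x (r v e) ≤ 31/32}`. -/
def SpecDON : Prop := ∀ (N : ℕ) (S : PolyData N), S.IsSurf → ∀ ψ, IsPsi ψ →
  ∀ᶠ δ in 𝓝[>] (0 : ℝ), ∀ v, ∀ x ∈ Realization S.T, 1 / 9 ≤ x v → S.F ψ δ v (S.g x) ≠ 0 →
    ∃ e, 31 / 32 < x v + x (S.r v e)

/-- The local function near an edge (200 lines). `w = r v e`. The third form `Γ` (`Z` for `e = 0`,
`κ Y` for `e = 1`, `κ X` for `e = 2`) has `|Γ (P w - P v)| = c₀ > 0` (`hr0, hr1, hr2`; negative for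
`e = 0`, positive for `e = 1, 2`). For `x ∈ |T|` with `x v, x w ≥ 1/9`, by ED1 `x` is supported in
`{v, w, u}`, `u = u₁` or `u₂`, and `g x - P v = x w (P w - P v) + x u (P u - P v)`. Let `M` bound
the norms of the three forms at `v`, and `M'` all `‖P u - P v‖`. (i) If `x u ≤ ε` with `ε` small
(`ε M M' ≤ c₀/100`) and `δ` small (`(1 + C M) δ ≤ c₀/100`), then for `‖p - g x‖ ≤ C δ` the forms
`A, B` at `p - P v` have absolute value `≤ c₀/50`, and `|Γ| ≥ c₀/9 - c₀/50`, hence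
`e = 0`: `Z ≤ mn/mx (X, Y) - δ`, so `F = mn/mx(X, Y) = sg * mx(A, B)` (`sg = -κ`,
`mn_eq`); `e = 1`: `κ Y ≥ κ X + δ` so `mn/mx (X,Y) = X`, `F = mx Z X`; `e = 2` similarly.
(ii) If `x u ≥ ε` : `F v (g x) = 0` by DZO (the compact set `{x ∈ |T| | x v, x w ≥ 1/9,
x v + x w ≤ 1 - ε}`; `x v + x w' ≤ 8/9` for `w' ≠ w`), and `A, B` at `g x - P v` are `0` and
`-L x u ≤ -L ε ≤ -δ` in some order (ED1), so `mx A B = 0`. This proves the first claim for all `x`.
Second: `max A B = 0`, so `0 ≤ mx A B ≤ δ`. Third: `F v (g x) ≠ 0` excludes (ii), so (i) applies.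
`mx_left`, `mx_comm` from `LocFacts`. -/
def SpecED2 : Prop := ∀ (N : ℕ) (S : PolyData N), S.IsSurf → ∀ ψ, IsPsi ψ → ∀ C > (0 : ℝ),
  ∀ᶠ δ in 𝓝[>] (0 : ℝ), ∀ v e, ∀ x ∈ Realization S.T, 1 / 9 ≤ x v → 1 / 9 ≤ x (S.r v e) →
    S.F ψ δ v (S.g x) =
      S.sg v e * mx ψ δ (S.A v e (S.g x - S.P v)) (S.B v e (S.g x - S.P v)) ∧
    |S.F ψ δ v (S.g x)| ≤ δ ∧
    (S.F ψ δ v (S.g x) ≠ 0 → ∀ p, ‖p - S.g x‖ ≤ C * δ →
      S.F ψ δ v p = S.sg v e * mx ψ δ (S.A v e (p - S.P v)) (S.B v e (p - S.P v)))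

/-- The local functions at both ends of an edge (30 lines): ED2 at `(v, e)` and at `(w, op v e)`
(`r w (op v e) = v` by `hop`), and `EdgFacts.mxw`. -/
def SpecED3 : Prop := ∀ (N : ℕ) (S : PolyData N), S.IsSurf → ∀ ψ, IsPsi ψ →
  ∀ᶠ δ in 𝓝[>] (0 : ℝ), ∀ v e, ∀ x ∈ Realization S.T, 1 / 9 ≤ x v → 1 / 9 ≤ x (S.r v e) →
    S.F ψ δ (S.r v e) (S.g x) = S.sig v e * S.F ψ δ v (S.g x)

/-- Every vertex with the largest coordinate may be used in the definition of `f` (120 lines).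
Let `x v = x w` be the largest coordinates, `v ≠ w` (so `≥ 1/3`, since at most three coordinates
are nonzero), `w = top x`. If `F v` and `F w` vanish at `g x` both corrections are `0`. Otherwise,
say `F v (g x) ≠ 0` (the other case is symmetric): by DON there is an `e` with
`x v + x (r v e) > 31/32`, so `r v e = w` (otherwise `x w < 1/32`), `x v = x w > 3/8`, all other
coordinates are `< 1/32`, their `tau` vanishes, `tau (x v) = tau (x w) = 1`. So
`corr v = F v • dbar v e`, `corr w = F w • dbar w (op v e)`; `F w = σ F v` (ED3),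
`dbar w (op v e) = σ dbar v e` (`hop`, `opop`), `σ^2 = 1`. -/
def SpecTPX : Prop := ∀ (N : ℕ) (S : PolyData N), S.IsSurf → ∀ ψ, IsPsi ψ →
  ∀ᶠ δ in 𝓝[>] (0 : ℝ), ∀ v, ∀ x : Realization S.T, (∀ u, x.1 u ≤ x.1 v) →
    S.f ψ δ x = S.g x.1 - S.corr ψ δ v x.1

/-! MODULE `G1` (50 lines), `theorem specG1 (..) : SpecG1` : `f` is continuous. The closed sets
`{x | ∀ u, x u ≤ x v}` (`v : Fin N`) cover `|T|` and `f = g - corr v` there (TPX);
`LocallyFinite.continuous`. `F v` is continuous (FFA). -/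

/-! MODULE `G2` (50 lines), `theorem specG2 (..) : SpecG2` : let `x w < 1/8` for all `w ≠ v`. At most
three coordinates of `x` are nonzero and their sum is one, so `x v > 1/2` (if `x v = 0` the sum is
`< 3/8`; the two others are `< 1/8`), `v` is the unique largest coordinate, so it is
`top x _` (`Classical.choose_spec`), and all `tau (x (r v e))` vanish (`r v e ≠ v`, `tau t = 0` for
`t ≤ 1/8`). -/

/-- Formulas for `f` in the zones (150 lines).
zone2: the other coordinates are `< 1/16` (`tau = 0`). If `x w ≤ x v`: `x v > 15/32`, `tau (x v) = 1`,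
`corr v = F v • (d v + tau (x w) • (dbar v e - d v))`, `dbar v e - d v = (σ d w - d v)/2`. If
`x v ≤ x w` use TPX at `w` with the edge `op v e` (`r w (op v e) = v`):
`corr w = F w • (d w + (tau (x v)/2) • (σ' d v - d w))`, `σ' = σ` (`opop`), `F w = σ F v` (ED3),
`tau (x w) = 1`.
zone3: a vertex `v` with the largest coordinate (`≥ 1/3`) has `F v (g x) = 0` by DON. -/
def SpecZON : Prop := ∀ (N : ℕ) (S : PolyData N), S.IsSurf → ∀ ψ, IsPsi ψ →
  ∀ᶠ δ in 𝓝[>] (0 : ℝ),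
    (∀ v e, ∀ x ∈ S.zone2 v e, S.f ψ δ x = S.g x.1 - S.F ψ δ v (S.g x.1) •
      (S.d v + S.theta v e x.1 • (S.sig v e • S.d (S.r v e) - S.d v))) ∧
    (∀ x ∈ S.zone3, S.f ψ δ x = S.g x.1)

/-- The local functions vanish on the smooth surface (100 lines).
zone1: G2 and `trans`. zone3: `f x = g x`, `F v (g x) = 0` by DON. zone2: if `F v (g x) = 0` clear.
Otherwise `|F v (g x)| ≤ δ`, `0 ≤ theta ≤ 1`, so `‖f x - g x‖ ≤ C δ`,
`C = ‖d v‖ + ‖σ d w - d v‖ + 1` (maximum over the finitely many edges), and by ED2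
`F v (f x) = sg * mx (A - F sg, B - F sg) = sg * (mx A B - F sg) = F - F = 0` with `A, B` at
`g x - P v`, because `A (d v) = B (d v) = sg` and `A, B` vanish on `σ d w - d v`. -/
def SpecVAN : Prop := ∀ (N : ℕ) (S : PolyData N), S.IsSurf → ∀ ψ, IsPsi ψ →
  ∀ᶠ δ in 𝓝[>] (0 : ℝ),
    (∀ v, ∀ x ∈ S.zone1 v, S.F ψ δ v (S.f ψ δ x) = 0) ∧
    (∀ v e, ∀ x ∈ S.zone2 v e, S.F ψ δ v (S.f ψ δ x) = 0) ∧
    (∀ v, ∀ x ∈ S.zone3, 1 / 9 < x.1 v → S.F ψ δ v (S.f ψ δ x) = 0)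

/-- Shears (100 lines, pure topology). Injective: if `y + h y • q = y' + h y' • q` then
`y' = y + t • q`, `t = h y - h y'`, `|t| ≤ |t|/2`. Open: let `y₀ ∈ Ω' ⊆ Ω` open. Choose `ε > 0` with
`y ∈ Ω'` for `‖y - y₀‖ ≤ ε ‖q‖ + ε`. For `z` near `z₀ = y₀ + h y₀ • q` the function
`φ_z τ = τ - h (z - τ • q)` (`|τ - h y₀| ≤ ε`) is continuous, at `z = z₀` it is `≥ ε/2` at
`τ = h y₀ + ε` and `≤ -ε/2` at `h y₀ - ε`; by continuity the signs persist for `z` near `z₀`, and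
the intermediate value theorem gives `τ` with `y = z - τ • q ∈ Ω'`, `y + h y • q = z`. -/
def SpecSHR : Prop := ∀ (q : E2) (Ω : Set E2) (h : E2 → ℝ), q ≠ 0 → IsOpen Ω → ContinuousOn h Ω →
  (∀ y ∈ Ω, ∀ t : ℝ, y + t • q ∈ Ω → |h (y + t • q) - h y| ≤ |t| / 2) →
  Topology.IsOpenEmbedding (fun y : Ω => y.1 + h y.1 • q)

/-- The chart at an edge (150 lines). By ZON `L v (f x - P v) = j v x - (c F v (g x) theta x) • q`
with `q = L v (P w - P v)` (`EdgFacts.par`, `Ld`). Let `Ω = j v '' zone2` (open, JOP),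
`h y = -c F v (g (Λ y)) theta (Λ y)` (`Λ` from STR, `Λ (j v x) = x`), continuous. If
`y = j v x`, `y + t q = j v x'`, `x, x' ∈ zone2 v e`: the linear form `A v e - B v e` factors
through `L v` (it vanishes on `d v`) and vanishes on `P w - P v`, so it has the same value on
`g x - P v` and `g x' - P v`; by ED1 this value is `L₁ x u₁ ≥ 0` or `-L₂ x u₂ ≤ 0`, so `x` and `x'`
have the same third vertex and third coordinate; then `j v x' - j v x = (x' w - x w) q`, so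
`x' w = x w + t`, `x' v = x v - t`. Hence `F v (g x) = F v (g x')` (ED2: it is `sg * mx A B`, same
`A, B`), `|theta x' - theta x| ≤ 4 |t|` (`tau` is 4-Lipschitz), and
`|h (y + t q) - h y| ≤ |c| δ 4 |t| ≤ |t|/2` for small `δ`. SHR and
`fun x => L v (f x - P v) = (y ↦ y + h y • q) ∘ (j v)` give the claim (`IsOpenEmbedding.comp`, with
the codomain restriction of `j v` to `Ω`). -/
def SpecEM2 : Prop := ∀ (N : ℕ) (S : PolyData N), S.IsSurf → ∀ ψ, IsPsi ψ →
  ∀ᶠ δ in 𝓝[>] (0 : ℝ), ∀ v e,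
    Topology.IsOpenEmbedding (fun x : S.zone2 v e => S.L v (S.f ψ δ x.1 - S.P v))

/-- Everywhere a patch (120 lines). `U = zone1 v`, `zone2 v e` or `zone3 ∩ {1/9 < x v}`. In the
first and third case `L v (f x - P v) = j v x` (`Ld`, G2), so JOP applies. Cover: let `p` be not in
`zone3`: there are `v, e` with `p v + p w ≥ 31/32`. If `p ∉ zone1 v` some `u ≠ v` has `p u ≥ 1/8`,
then `u = w`; if `p ∉ zone1 w` then `p v ≥ 1/8`; so `p ∈ zone2 v e`. In `zone3` take the largest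
coordinate (`≥ 1/3`). In `zone1 v`: `p v > 3/4`. -/
def SpecPAT : Prop := ∀ (N : ℕ) (S : PolyData N), S.IsSurf → ∀ ψ, IsPsi ψ →
  ∀ᶠ δ in 𝓝[>] (0 : ℝ), ∀ p : Realization S.T, ∃ v, 1 / 9 < p.1 v ∧ ∃ U : Set (Realization S.T),
    p ∈ U ∧ IsPatch (S.f ψ δ) U (S.F ψ δ v) (S.d v) (S.P v) (S.L v)

/-! ## Part 4: the manifold -/

/-- Patches give a smooth structure (250 lines, abstract). For every `p` choose a patch
`(U, F, d, P, L)` and a linear right inverse `R : E2 →L[ℝ] E3` of `L`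
(`LinearMap.exists_rightInverse_of_surjective`, finite dimension). The chart at `p` is
`φ x = L (f x - P)`, an `OpenPartialHomeomorph` with source `U` (from `emb`:
`Topology.IsOpenEmbedding.toOpenPartialHomeomorph` on the subtype, composed with the inclusion
`U → M`; or build it by hand). Put `Γ y = P + R y - F (P + R y) • d`, smooth on the whole plane;
`F (Γ y) = 0`, `L (Γ y - P) = y`, and `f x = Γ (φ x)` for `x ∈ U`: `f x - P - R (φ x)` is in the
kernel of `L`, so `f x = P + R (φ x) + c • d` and `0 = F (f x) = F (P + R (φ x)) + c`. Hence a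
transition map `φ' ∘ φ⁻¹` is the restriction of the smooth map `y ↦ L' (Γ y - P')`, so
`contDiffGroupoid` compatible (`isManifold_of_contDiffOn`). In the chart `f` is `Γ`, so `f` is
smooth (`contMDiff_iff` / `contMDiffAt_iff` with the preferred charts; `f` is continuous because
`f = Γ ∘ φ` on `U`). Immersion: `L ∘ (f - P) = φ` on `U`; `mfderiv` of `φ` (a chart) is bijective
(or: `φ ∘ f'...`: `L ∘ mfderiv f = mfderiv φ`, and `mfderiv φ` is invertible since `φ` is a member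
of the atlas, `mfderiv_chartAt_eq_tangentCoordChange` or `IsInvertible` lemmas for
`extChartAt`; or express `mfderiv f p` through `fderiv (f ∘ φ⁻¹) = fderiv Γ`, injective because
`L (fderiv Γ y w) = w`). -/
def SpecATL : Prop := ∀ (M : Type) [TopologicalSpace M] (f : M → E3),
  (∀ p, ∃ (U : Set M) (F : E3 → ℝ) (d P : E3) (L : E3 →L[ℝ] E2), p ∈ U ∧ IsPatch f U F d P L) →
  ∃ (_ : ChartedSpace E2 M), IsManifold (𝓡 2) ∞ M ∧ ContMDiff (𝓡 2) 𝓘(ℝ, E3) ∞ f ∧
    ∀ p, Function.Injective (mfderiv (𝓡 2) 𝓘(ℝ, E3) f p)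

/-! ## Part 5: tightness -/

/-- Points of `|T|` whose image is very near `P v` are in `zone1 v` (100 lines).
`f x - g x = - F u (g x) • (..)` for the vertex `u = top x` (unfold `f`; `x u > 0`), so
`‖f x - g x‖ ≤ 2 δ C` with `C` depending only on `S` (`FFacts.bd`, `0 ≤ tau ≤ 1`). The set
`K = {x ∈ |T| | 1/9 ≤ x v ∧ ∃ u ≠ v, 1/8 ≤ x u}` is compact, and `g x ≠ P v` on `K` : `j v x = 0`
would give `x = Λ 0` = the vertex `v` (STR for `x` and for `Pi.single v 1`). So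
`|X| + |Y| + |Z| ≥ c > 0` at `g x - P v` for `x ∈ K` (`hinj`). -/
def SpecNRV : Prop := ∀ (N : ℕ) (S : PolyData N), S.IsSurf → ∀ ψ, IsPsi ψ →
  ∀ᶠ δ in 𝓝[>] (0 : ℝ), ∀ v, ∀ x : Realization S.T, 1 / 9 ≤ x.1 v →
    |S.X v (S.f ψ δ x - S.P v)| ≤ 4 * δ → |S.Y v (S.f ψ δ x - S.P v)| ≤ 4 * δ →
    |S.Z v (S.f ψ δ x - S.P v)| ≤ 4 * δ → x ∈ S.zone1 v

/-- Generic linear functions have at most one local maximum (150 lines).
Let `p` be a local maximum of `q ↦ ⟨ξ, f q⟩`. Take the patch of PAT at `p` (vertex `v`).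
`⟨ξ, ·⟩ = α X v + β Y v + γ Z v` (the three forms are a basis of the dual, `hinj`);
`γ ≠ 0` : on `P (r v 0) - P v` the forms `X, Y` vanish; `β ≠ 0` (`e = 1`), `α ≠ 0` (`e = 2`).
If `z` is near `f p` and `F v z = 0` then `z = f q` with `q ∈ U` near `p` : `L v (z - P v)` is near
`L v (f p - P v)`, so it is `L v (f q - P v)` with `q` near `p` (`emb` is open), and `z - f q` is in
the kernel of `L v`, so `z = f q` by `trans`, `ker`. Hence `(x, y, z) = (X, Y, Z)(f p - P v)` is a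
local maximum as in LMX (the linear homeomorphism `(X, Y, Z) : E³ → ℝ³`). So `κ v = -1`,
`α, β, γ > 0`, the values `X, Y, Z` at `f p - P v` depend only on `v, ξ`, and are `≤ 4δ`.
`v` is determined by `ξ`: for every `u`, `⟨ξ, P u - P v⟩ ≤ 0` by `hconv`, with equality only if the
three forms vanish on `P u - P v`, i.e. `u = v` (`hP`). Two local maxima `p, p'`: same `v`,
`f p = f p'` (`hinj`), both in `zone1 v` (NRV, `1/9 < p v`), where `j v p = L v (f p - P v)` (G2,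
`Ld`), so `p = p'` (STR). -/
def SpecTGG : Prop := ∀ (N : ℕ) (S : PolyData N), S.IsSurf → ∀ ψ, IsPsi ψ →
  ∀ᶠ δ in 𝓝[>] (0 : ℝ), ∀ ξ : E3, (∀ v e, inner ℝ ξ (S.P (S.r v e) - S.P v) ≠ 0) →
    ∀ p p' : Realization S.T, IsLocalMax (fun q => inner ℝ ξ (S.f ψ δ q)) p →
      IsLocalMax (fun q => inner ℝ ξ (S.f ψ δ q)) p' → p = p'

/-- The generic directions are dense (30 lines): finite intersection of open dense sets
`{ξ | ⟨ξ, w⟩ ≠ 0}`, `w ≠ 0` (`hP`, `hne`); or `ξ + t ζ`. -/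
def SpecDNS : Prop := ∀ (N : ℕ) (S : PolyData N), S.IsSurf →
  Dense {ξ : E3 | ∀ v e, inner ℝ ξ (S.P (S.r v e) - S.P v) ≠ (0 : ℝ)}

/-- Unique local maxima for a dense set of directions imply tightness (120 lines, abstract).
(a) `ξ ∈ D`, `a ∈ ℝ`: the superlevel set `{a ≤ h}` is preconnected: otherwise it is the union of
two disjoint nonempty closed subsets `A, B` of the compact space; `h` attains its maximum over `A`
at `p ∈ A`; near `p` there is no point of `B`, so `p` is a local maximum of `h` on `M` (points `q`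
near `p` are in `A`, or `h q < a ≤ h p`); the same for `B`; `p ≠ p'`, contradiction.
(b) `ξ` arbitrary: suppose `{a ≤ h_ξ} = A ∪ B` as before. Disjoint open `U ⊇ A`, `V ⊇ B` (compact
sets in a Hausdorff space). On the compact complement of `U ∪ V` : `h_ξ < a`, so `h_ξ ≤ a - 3ε`
for some `ε > 0`. Let `‖f‖ ≤ R`, choose `ξ' ∈ D` with `‖ξ' - ξ‖ R ≤ ε`. Then `{a - ε ≤ h_ξ'}` is
contained in `U ∪ V` and contains `A` and `B`, so it is not preconnected, contradiction with (a).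
(`isPreconnected_iff_subset_of_disjoint` etc.) -/
def SpecTGL : Prop := ∀ (M : Type) [TopologicalSpace M] [CompactSpace M] [T2Space M] (f : M → E3),
  Continuous f → ∀ D : Set E3, Dense D →
  (∀ ξ ∈ D, ∀ p p' : M, IsLocalMax (fun q => inner ℝ ξ (f q)) p →
    IsLocalMax (fun q => inner ℝ ξ (f q)) p' → p = p') → Tight f

/-! ## Part 6: the assembly

MODULE `G3` (60 lines), `theorem specG3 (..) : SpecG3`. `K` compact, disjoint from `S.RE`. `S.RE` is
closed (finite union of closed sets). Choose a compact neighbourhood `C'` of `K` disjoint from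
`S.RE` (`|T|` is compact Hausdorff, hence locally compact: `exists_compact_between` or normality).
For every `v` apply DZO to the image in `Fin N → ℝ` of `{x ∈ C' | 1/9 ≤ x v}`
(`x v + x (r v e) = 1` would give `x ∈ RE`); a point of `C'` has a largest coordinate `v`,
`x v ≥ 1/3`, so `f x = g x - corr v x = g x` by TPX.

MODULE `GM` (40 lines), `theorem specGM (..) : SpecGM` : PAT and ATL.

MODULE `GT` (50 lines), `theorem specGT (..) : SpecGT` : TGG, DNS, TGL, G1, CPT.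

MODULE `GC` (10 lines), `theorem specGC (..) : SpecGC` : CNN, CPT. -/

end Pool.Agent.Lib.MP_0b1f3c_gt.TI
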