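import Mathlib

/-!
# Smooth tight immersions in the exceptional image homotopy classes: the statement

`HasTight χ ori β` : there is a closed connected smooth surface `M` of Euler characteristic `χ`,
orientable iff `ori`, and a smooth tight immersion `f : M → E³` with Brown invariant `β`.

* `M` is given as the geometric realization of a finite simplicial complex (so that its Euler
  characteristic is visible) together with a smooth structure (Mathlib's `ChartedSpace`,
  `IsManifold`); it is compact and Hausdorff as a closed bounded subset of `ℝ^N`.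
* `f` is a smooth immersion in Mathlib's sense.
* `Tight f` : the preimage of every closed half-space is connected (or empty).
* `Brown f ori β` : there are `n = 2 - χ(M)` simple closed curves on `M` with a nonsingular matrix
  of intersection numbers mod 2; since `dim H₁(M; ℤ₂) = 2 - χ(M) = n`, they are a basis of
  `H₁(M; ℤ₂)`. `q i` is the number mod 4 of half-twists of the immersed band around the `i`-th
  curve, computed by lifting the moving frame (forward tangent vector, normal vector) to the unit
  quaternions. The Brown invariant `β` is defined by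
  `∑_{x ∈ H₁} i^{q(x)} = √2^n e^{2πiβ/8}`, `q(∑ x_i c_i) = ∑ x_i q_i + 2 ∑_{i<j} x_i x_j c_i·c_j`.
-/

open scoped Manifold ContDiff InnerProductSpace Quaternion

noncomputable section

namespace Pool.Agent.Lib.MP_0b1f3c_gt.TI

/-- Euclidean 3-space. -/
abbrev E3 := EuclideanSpace ℝ (Fin 3)

/-- Euclidean plane (model space of surfaces). -/
abbrev E2 := EuclideanSpace ℝ (Fin 2)

/-- The geometric realization of the simplicial complex consisting of the members of `T` and all
their subsets: points are given by barycentric coordinates. -/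
def Realization {N : ℕ} (T : Finset (Finset (Fin N))) : Set (Fin N → ℝ) :=
  {x | (∀ i, 0 ≤ x i) ∧ ∑ i, x i = 1 ∧ ∃ t ∈ T, ∀ i, x i ≠ 0 → i ∈ t}

/-- Euler characteristic (vertices - edges + triangles ...) of the complex spanned by `T`. -/
def eulerChar {N : ℕ} (T : Finset (Finset (Fin N))) : ℤ :=
  ∑ s ∈ (T.biUnion Finset.powerset).filter (fun s => s.Nonempty), (-1) ^ (s.card + 1)

/-- A map is tight if the preimage of every closed half-space is connected (possibly empty). -/
def Tight {M : Type} [TopologicalSpace M] (f : M → E3) : Prop :=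
  ∀ (ξ : E3) (a : ℝ), ξ ≠ 0 → IsPreconnected {p : M | a ≤ inner ℝ ξ (f p)}

/-- Simple closed curves, given as injective-modulo-period continuous maps of period one. -/
structure SimpleClosed {M : Type} [TopologicalSpace M] (c : ℝ → M) : Prop where
  cont : Continuous c
  per : ∀ t, c (t + 1) = c t
  inj : Set.InjOn c (Set.Ico 0 1)

/-- The vector part of a quaternion. -/
def vec (q : ℍ[ℝ]) : E3 := !₂[q.imI, q.imJ, q.imK]

/-- The quaternion `i`. -/
def qI : ℍ[ℝ] := ⟨0, 1, 0, 0⟩

/-- The quaternion `k`. -/
def qK : ℍ[ℝ] := ⟨0, 0, 0, 1⟩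

/-- The final value of the lifted frame of a band with `q` half-twists: the frame of an untwisted
band (e.g. a plane annulus) turns once, so its lift ends at `-1`; every right-handed half-twist
(linking number `1` of the core with the boundary of an embedded band) adds a factor `i`. -/
def omega (q : ZMod 4) : ℍ[ℝ] :=
  if q = 0 then -1 else if q = 1 then -qI else if q = 2 then 1 else qI

/-- The immersed band around the closed curve `c` has `q` half-twists (mod 4).
`u` is a continuous family of unit quaternions; `u t * k * (u t)⁻¹` is a unit normal vector of the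
surface at `c t`, and the unit tangent vector `u t * i * (u t)⁻¹` points forward along the curve:
some linear function which is positive on it is strictly increasing along `f ∘ c` near `t`. -/
def HasHalfTwists {M : Type} [TopologicalSpace M] [ChartedSpace E2 M] (f : M → E3) (c : ℝ → M)
    (q : ZMod 4) : Prop :=
  ∃ u : ℝ → ℍ[ℝ], Continuous u ∧ (∀ t, ‖u t‖ = 1) ∧
    (∀ (t : ℝ) (v : TangentSpace (𝓡 2) (c t)),
      inner ℝ (vec (u t * qK * star (u t)))
        ((mfderiv (𝓡 2) 𝓘(ℝ, E3) f (c t) v : E3)) = 0) ∧
    (∀ t : ℝ, ∃ w : E3, 0 < inner ℝ w (vec (u t * qI * star (u t))) ∧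
      ∃ ε > 0, StrictMonoOn (fun s => inner ℝ w (f (c s))) (Set.Icc (t - ε) (t + ε))) ∧
    ∀ t, u (t + 1) = u t * omega q

/-- The closed curves `c`, `d` (period one) meet exactly `m` times in a period, and at each common
point both are locally straight segments in space with linearly independent directions (so the
curves cross transversally there). -/
def Meets {M : Type} [TopologicalSpace M] (f : M → E3) (c d : ℝ → M) (m : ℕ) : Prop :=
  {p : ℝ × ℝ | p.1 ∈ Set.Ico (0 : ℝ) 1 ∧ p.2 ∈ Set.Ico (0 : ℝ) 1 ∧ c p.1 = d p.2}.encard = m ∧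
  ∀ s t : ℝ, c s = d t → ∃ V W : E3, LinearIndependent ℝ ![V, W] ∧ ∃ ε > 0, ∀ τ : ℝ, |τ| < ε →
    f (c (s + τ)) = f (c s) + τ • V ∧ f (d (t + τ)) = f (d t) + τ • W

/-- `f : M → E³` has Brown invariant `β` (an integer mod 8), where `n = 2 - χ(M)`; `ori` says
whether `M` is orientable. See the header of the file. -/
def Brown {M : Type} [TopologicalSpace M] [ChartedSpace E2 M] (f : M → E3) (n : ℕ) (ori : Prop)
    (β : ℤ) : Prop :=
  ∃ (c : Fin n → ℝ → M) (q : Fin n → ZMod 4) (A : Matrix (Fin n) (Fin n) ℕ),
    (∀ i, SimpleClosed (c i)) ∧ (∀ i, HasHalfTwists f (c i) (q i)) ∧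
    (∀ i j, i ≠ j → Meets f (c i) (c j) (A i j)) ∧
    (∀ i, (A i i = 0 ∧ (q i = 0 ∨ q i = 2)) ∨ (A i i = 1 ∧ (q i = 1 ∨ q i = 3))) ∧
    (A.map (Nat.cast : ℕ → ZMod 2)).det ≠ 0 ∧
    (ori ↔ ∀ i, q i = 0 ∨ q i = 2) ∧
    ∑ x : Fin n → Fin 2, Complex.I ^ (∑ i, (x i : ℕ) * (q i).val +
        2 * ∑ i, ∑ j ∈ Finset.univ.filter (fun j => i < j), (x i : ℕ) * (x j : ℕ) * A i j) =
      (Real.sqrt 2 : ℂ) ^ n * Complex.exp (2 * Real.pi * Complex.I * (β : ℂ) / 8)

/-- There is a smooth tight immersion into `E³` of the closed connected surface of Euler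
characteristic `χ`, orientable iff `ori`, with Brown invariant `β`. -/
def HasTight (χ : ℤ) (ori : Prop) (β : ℤ) : Prop :=
  ∃ (N : ℕ) (T : Finset (Finset (Fin N))), (∀ t ∈ T, t.card = 3) ∧ eulerChar T = χ ∧
    IsConnected (Realization T) ∧ IsCompact (Realization T) ∧
    ∃ (_ : ChartedSpace E2 (Realization T)) (f : Realization T → E3),
      IsManifold (𝓡 2) ∞ (Realization T) ∧ ContMDiff (𝓡 2) 𝓘(ℝ, E3) ∞ f ∧
      (∀ p, Function.Injective (mfderiv (𝓡 2) 𝓘(ℝ, E3) f p)) ∧ Tight f ∧
      Brown f (2 - χ).toNat ori β

end Pool.Agent.Lib.MP_0b1f3c_gt.TI
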