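import Pool.Agent.Lib.MP_0b1f3c_gt.TI.SpecG

/-!
# MP_0b1f3c_gt, module VAN (helper51): the local functions vanish on the smooth surface
-/

open scoped Manifold ContDiff InnerProductSpace Topology
open Filter Set

noncomputable section

namespace Pool.Agent.Lib.MP_0b1f3c_gt.TI

namespace VANM

theorem mx_add (ψ : ℝ → ℝ) (δ a b c : ℝ) : mx ψ δ (a + c) (b + c) = mx ψ δ a b + c := by
  unfold mx
  rw [show b + c - (a + c) = b - a by ring]
  ring

theorem tau_mem (t : ℝ) : 0 ≤ PolyData.tau t ∧ PolyData.tau t ≤ 1 := by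
  unfold PolyData.tau
  exact ⟨le_max_left _ _, max_le zero_le_one (min_le_left _ _)⟩

variable {N : ℕ} (S : PolyData N)

theorem theta_mem (v : Fin N) (e : Fin 3) (x : Fin N → ℝ) :
    0 ≤ S.theta v e x ∧ S.theta v e x ≤ 1 := by
  unfold PolyData.theta
  have h1 := tau_mem (x (S.r v e))
  have h2 := tau_mem (x v)
  constructor <;> linarith [h1.1, h1.2, h2.1, h2.2]

/-- a bound for the length of the correction -/
def Cst : ℝ := 1 + ∑ v : Fin N, ∑ e : Fin 3,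
  (‖S.d v‖ + ‖S.sig v e • S.d (S.r v e) - S.d v‖)

theorem term_nonneg (v : Fin N) (e : Fin 3) :
    0 ≤ ‖S.d v‖ + ‖S.sig v e • S.d (S.r v e) - S.d v‖ :=
  add_nonneg (norm_nonneg _) (norm_nonneg _)

theorem Cst_pos : 0 < Cst S := by
  unfold Cst
  have : 0 ≤ ∑ v : Fin N, ∑ e : Fin 3, (‖S.d v‖ + ‖S.sig v e • S.d (S.r v e) - S.d v‖) :=
    Finset.sum_nonneg fun v _ => Finset.sum_nonneg fun e _ => term_nonneg S v e
  linarith

theorem le_Cst (v : Fin N) (e : Fin 3) :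
    ‖S.d v‖ + ‖S.sig v e • S.d (S.r v e) - S.d v‖ ≤ Cst S := by
  have h1 : ‖S.d v‖ + ‖S.sig v e • S.d (S.r v e) - S.d v‖ ≤
      ∑ e : Fin 3, (‖S.d v‖ + ‖S.sig v e • S.d (S.r v e) - S.d v‖) :=
    Finset.single_le_sum (f := fun e : Fin 3 => ‖S.d v‖ + ‖S.sig v e • S.d (S.r v e) - S.d v‖)
      (fun e _ => term_nonneg S v e) (Finset.mem_univ e)
  have h2 : ∑ e : Fin 3, (‖S.d v‖ + ‖S.sig v e • S.d (S.r v e) - S.d v‖) ≤
      ∑ v : Fin N, ∑ e : Fin 3, (‖S.d v‖ + ‖S.sig v e • S.d (S.r v e) - S.d v‖) :=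
    Finset.single_le_sum
      (f := fun v : Fin N => ∑ e : Fin 3, (‖S.d v‖ + ‖S.sig v e • S.d (S.r v e) - S.d v‖))
      (fun v _ => Finset.sum_nonneg fun e _ => term_nonneg S v e) (Finset.mem_univ v)
  unfold Cst
  linarith

theorem norm_corr (v : Fin N) (e : Fin 3) (x : Fin N → ℝ) :
    ‖S.d v + S.theta v e x • (S.sig v e • S.d (S.r v e) - S.d v)‖ ≤ Cst S := by
  refine (norm_add_le _ _).trans (le_trans ?_ (le_Cst S v e))
  have h := theta_mem S v e x
  rw [norm_smul, Real.norm_of_nonneg h.1]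
  have := mul_le_of_le_one_left (norm_nonneg (S.sig v e • S.d (S.r v e) - S.d v)) h.2
  linarith

end VANM

open VANM in
theorem specVAN (hZON : SpecZON) (hDON : SpecDON) (hED2 : SpecED2) (hFFA : SpecFFA)
    (hEFA : SpecEFA) (hG2 : SpecG2) : SpecVAN := by
  intro N S hS ψ hψ
  filter_upwards [hZON N S hS ψ hψ, hDON N S hS ψ hψ, hED2 N S hS ψ hψ (Cst S) (Cst_pos S),
    self_mem_nhdsWithin] with δ hZ hD hE hδ
  rw [Set.mem_Ioi] at hδ
  refine ⟨fun v x hx => ?_, fun v e x hx => ?_, fun v x hx hv => ?_⟩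
  · have hF := hFFA N S hS ψ hψ δ hδ v
    rw [hG2 N S hS ψ δ v x hx, sub_eq_add_neg, ← neg_smul, hF.trans]
    ring
  · have hF := hFFA N S hS ψ hψ δ hδ v
    have hEF := hEFA N S hS v e
    obtain ⟨h1, h2, _⟩ := hx
    obtain ⟨e1, e2, e3⟩ := hE v e x.1 x.2 h1.le h2.le
    have hf := hZ.1 v e x ⟨h1, h2, by assumption⟩
    by_cases h0 : S.F ψ δ v (S.g x.1) = 0
    · rw [hf, h0, zero_smul, sub_zero, h0]
    · obtain ⟨c, hc⟩ := hEF.par
      have hn : ‖S.f ψ δ x - S.g x.1‖ ≤ Cst S * δ := by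
        rw [hf, sub_sub_cancel_left, norm_neg, norm_smul, Real.norm_eq_abs, mul_comm]
        exact mul_le_mul (norm_corr S v e x.1) e2 (abs_nonneg _) (Cst_pos S).le
      rw [e3 h0 _ hn]
      have key : ∀ G : E3 →L[ℝ] ℝ, G (S.P (S.r v e) - S.P v) = 0 → G (S.d v) = S.sg v e →
          G (S.f ψ δ x - S.P v) = G (S.g x.1 - S.P v) + -(S.F ψ δ v (S.g x.1) * S.sg v e) := by
        intro G h3 h4
        rw [hf, hc, sub_right_comm, map_sub, map_smul, map_add, map_smul, map_smul, h3, h4]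
        simp only [smul_eq_mul]
        ring
      rw [key _ hEF.AP hEF.Ad, key _ hEF.BP hEF.Bd, mx_add, mul_add, ← e1]
      have h5 := hEF.sg2
      linear_combination (-S.F ψ δ v (S.g x.1)) * h5
  · have hf := hZ.2 x hx
    rw [hf]
    by_contra h0
    obtain ⟨e, he⟩ := hD v x.1 x.2 hv.le h0
    exact absurd he (not_lt.2 (hx v e).le)

end Pool.Agent.Lib.MP_0b1f3c_gt.TI
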